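import Pool.Agent.Lib.MP_fc2ced_ag.G.SS

/-! Kummer coverings of varieties with a function. -/

open CategoryTheory Function

namespace Pool.Agent.Lib.MP_fc2ced_ag.T

open K

noncomputable section

variable {k : Type} [Field k] {F : Type} [Field F] [CharZero F] {χ : Chr k F}

namespace KcA

open Polynomial

theorem rel_pi {α β γ : Type} [DecidableEq α] {r : β → γ → Prop} {s : α → Multiset β}
    {t : α → Multiset γ} (h : ∀ a, Multiset.Rel r (s a) (t a)) (m : Multiset α) :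
    Multiset.Rel (fun f g => ∀ a ha, r (f a ha) (g a ha)) (m.pi s) (m.pi t) := by
  induction m using Multiset.induction_on with
  | empty => exact .cons (fun a ha => absurd ha (Multiset.notMem_zero a)) .zero
  | cons a m ih =>
    rw [Multiset.pi_cons, Multiset.pi_cons]
    refine Multiset.rel_bind (r := r) (fun b c hbc => ?_) (h a)
    refine Multiset.rel_map.2 (ih.mono fun f _ g _ hfg a' ha' => ?_)
    by_cases e : a' = a
    · subst e
      rw [Multiset.Pi.cons_same, Multiset.Pi.cons_same]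
      exact hbc
    · rw [Multiset.Pi.cons_ne _ e, Multiset.Pi.cons_ne _ e]
      exact hfg _ _

variable {ρ : Type} [Fintype ρ] {K K' : Fld k} {g : ℕ}

open Classical in
/-- The tuples of roots, with multiplicities. -/
def tup (g : ℕ) (b : ρ → K) : Multiset (ρ → K) :=
  (Finset.univ.val.pi fun j => nthRoots g (b j)).map fun f j => f j (Finset.mem_univ j)

theorem mem_tup (hg : 0 < g) {b u : ρ → K} : u ∈ tup g b ↔ ∀ j, u j ^ g = b j := by
  classical
  simp only [tup, Multiset.mem_map, Multiset.mem_pi, mem_nthRoots hg]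
  exact ⟨fun ⟨f, h, e⟩ j => e ▸ h j _, fun h => ⟨fun j _ => u j, fun j _ => h j, rfl⟩⟩

theorem card_tup (b : ρ → K) : (tup g b).card = g ^ Fintype.card ρ := by
  simp [tup, Multiset.card_pi, nthRoots, IsAlgClosed.card_roots_eq_natDegree]

theorem nodup_tup {ζ : K} (hζ : IsPrimitiveRoot ζ g) {b : ρ → K} (hb : ∀ j, b j ≠ 0) :
    (tup g b).Nodup := by
  classical
  exact (Multiset.Nodup.pi Finset.univ.nodup fun j _ => hζ.nthRoots_nodup (hb j)).map
    fun f f' e => funext fun j => funext fun _ => congrFun e j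

theorem rel_tup (hg : 0 < g) {φ : Place K K'} {b : ρ → K} {b' : ρ → K'}
    (h : ∀ j, φ (b j) (b' j)) :
    Multiset.Rel (fun u v => ∀ j, φ (u j) (v j)) (tup g b) (tup g b') := by
  classical
  exact Multiset.rel_map.2 ((rel_pi (fun j => ((Place.PR.X.pow g).sub (Place.PR.C (h j))).roots
    (monic_X_pow_sub_C _ hg.ne')) _).mono fun f _ f' _ r j => r j _)

theorem exists_rel (hg : 0 < g) {φ : Place K K'} {y b : K} {b' : K'} (hy : y ^ g = b)
    (h : φ b b') : ∃ y', φ y y' ∧ y' ^ g = b' := by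
  obtain ⟨y', hy'⟩ := ((Place.PR.X.pow g).sub (Place.PR.C h)).exists_root
    (monic_X_pow_sub_C b hg.ne') (a := y) (by simp [hy])
  exact ⟨y', hy', (hy'.pow _).eq_of h hy⟩

omit [CharZero F] in
theorem ev_div {u v w b : K} (hu : u ^ χ.N = b) (hv : v ^ χ.N = b) (hw : w ^ χ.N = b)
    (hb : b ≠ 0) : χ.ev (u / v) * χ.ev (v / w) = χ.ev (u / w) := by
  rw [← Chr.ev_mul (Chr.div_fix hu hv hb) (Chr.div_fix hv hw hb),
    div_mul_div_cancel₀ (Chr.ne_of_pow hv hb)]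

omit [CharZero F] in
theorem ev_pow {z : K} (hz : z ^ χ.N = 1) (n : ℕ) : χ.ev (z ^ n) = χ.ev z ^ n := by
  obtain ⟨c, rfl⟩ := χ.exists_cast hz
  rw [← AddChar.map_nsmul_eq_pow, χ.ev_cast, χ.ev_cast, AddChar.map_nsmul_eq_pow]

variable {M : ℕ} (hN : χ.N = M * g)
include hN

omit [CharZero F] in
theorem pos : 0 < g := Nat.pos_of_mul_pos_left (hN ▸ χ.pos)

omit [CharZero F] in
theorem pow_prod (t : ρ → ℕ) {a c : K} (ha : a ^ χ.N = c) {y b : ρ → K} (h : ∀ j, y j ^ g = b j) :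
    (a * ∏ j, y j ^ t j) ^ χ.N = c * ∏ j, b j ^ (M * t j) := by
  rw [mul_pow, ha, ← Finset.prod_pow]
  exact congrArg _ (Finset.prod_congr rfl fun j _ => by
    rw [← h, hN, ← pow_mul, ← pow_mul]; congr 1; ring)

omit [CharZero F] in
theorem sum_ev (hχ : χ.Prim) {z : K} (hz : z ^ g = 1) (h : z ≠ 1) :
    ∑ s : Fin g, χ.ev z ^ s.1 = 0 := by
  have h1 : z ^ χ.N = 1 := by rw [hN, mul_comm, pow_mul, hz, one_pow]
  have h2 : χ.ev z ≠ 1 := fun e => by
    obtain ⟨c, rfl⟩ := χ.exists_cast h1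
    rw [χ.ev_cast, AddChar.IsPrimitive.zmod_char_eq_one_iff _ hχ] at e
    exact h (by rw [e, AddChar.map_zero_eq_one])
  rw [Fin.sum_univ_eq_sum_range (χ.ev z ^ ·), geom_sum_eq h2, ← ev_pow h1, hz, Chr.ev_one,
    sub_self, zero_div]

end KcA

namespace Pt

variable {ρ : Type} [Fintype ρ] (S : Pt k) (h : ρ → ∀ ⦃K⦄, S.X K → K) (hh : ∀ j, S.RegF (h j))

/-- The covering given by roots of the functions `h j`. -/
@[reducible] def kc (g : ℕ) : Pt k :=
  (S.prod ((line k).pi ρ)).restr (fun _ x => ∀ j, x.2 j ^ g = h j x.1)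
    (Closed.conv fun _ _ φ _ _ a b r e j =>
      ((r.2 j).pow g).eq_of (hh j φ _ _ a.1 b.1 r.1) (e j))

/-- The locus where the `h j` are invertible, with the function multiplied by a monomial. -/
@[reducible] def ktw (t : ρ → ℕ) : Pt k :=
  (S.restr (fun _ x => ∀ j, h j x ≠ 0)
    (Open.conv fun _ _ φ _ _ a b r e j => (hh j φ _ _ a b r).ne_zero (e j))).withF
    (fun _ x => S.f x * ∏ j, h j x ^ t j)
    (fun _ _ φ _ _ a b r => (S.reg φ _ _ a.1 b.1 r).mul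
      (Place.prod fun j _ => (hh j φ _ _ a.1 b.1 r).pow _))
    fun _ x a => mul_ne_zero (S.ne x a.1)
      (Finset.prod_ne_zero_iff.2 fun j _ => pow_ne_zero _ (a.2 j))

theorem kc_f {g : ℕ} {K : Fld k} (x : (S.kc h hh g).X K) : (S.kc h hh g).f x = S.f x.1 := by
  simp

theorem kc_live {g : ℕ} (hg : 0 < g) {K : Fld k} {x : S.X K} (hx : S.L x) {u : ρ → K}
    (hu : u ∈ KcA.tup g fun j => h j x) : (S.kc h hh g).L (x, u) :=
  ⟨⟨hx, fun _ => trivial⟩, (KcA.mem_tup hg).1 hu⟩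

theorem kc_lift {g : ℕ} (hg : 0 < g) {K K' : Fld k} (φ : Place K K') (x : (S.kc h hh g).X K)
    (z : S.X K') (hx : (S.kc h hh g).L x) (hz : S.L z) (r : S.R φ x.1 z) :
    ∃ y, (S.kc h hh g).L y ∧ (S.kc h hh g).R φ x y := by
  choose w h1 h2 using fun j => KcA.exists_rel hg (hx.2 j) (hh j φ _ _ hx.1.1 hz r)
  exact ⟨(z, w), ⟨⟨hz, fun _ => trivial⟩, h2⟩, r, h1⟩

theorem isMap_kc {g : ℕ} (hg : 0 < g) : IsMap (S.kc h hh g) S fun _ x => x.1 :=
  .of_proper ⟨fun _ _ a => a.1.1, fun _ _ _ _ _ _ _ r => r.1⟩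
    (fun _ x _ => (S.kc_f h hh x).symm) fun _ _ => S.kc_lift h hh hg

theorem isCor_kc {g : ℕ} (hg : 0 < g) :
    IsCor S (S.kc h hh g) fun _ x => (KcA.tup g fun j => h j x).map fun u => (x, u) where
  f K x hx z hz _ := by
    obtain ⟨u, -, rfl⟩ := Multiset.mem_map.1 hz
    exact S.kc_f h hh _
  sp K K' φ x y hx hy r := Multiset.rel_map.2
    ((KcA.rel_tup hg fun j => hh j φ x y hx hy r).mono fun _ hu _ hv a =>
      .of_R (S.kc_live h hh hg hx hu) (S.kc_live h hh hg hy hv) ⟨r, a⟩)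
  dead K K' φ x hx hd z hz _ w hw r := by
    obtain ⟨u, -, rfl⟩ := Multiset.mem_map.1 hz
    exact hd hx w.1 hw.1.1 r.1

/-- The transfer. -/
theorem exists_kcTr {g : ℕ} (hg : 0 < g) : ∃ tr : S.E χ ⟶ (S.kc h hh g).E χ,
    tr ≫ (S.isMap_kc h hh hg).hom χ = ((g : F) ^ Fintype.card ρ) • 𝟙 _ := by
  refine ⟨(S.isCor_kc h hh hg).hom χ, hom_ext fun K x hx => ?_⟩
  rw [Ob.comp_apply, IsCor.hom_cl _ hx, cls, map_multiset_sum, Multiset.map_map, Multiset.map_map,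
    Multiset.map_congr rfl (g := fun _ => S.cl F x) fun u hu => ?_,
    Multiset.map_const', Multiset.sum_replicate, KcA.card_tup, ← Nat.cast_smul_eq_nsmul F,
    Nat.cast_pow]
  · rfl
  · exact (S.isMap_kc h hh hg).hom_cl (S.kc_live h hh hg hx hu)

/-- The base is a retract of the covering. -/
theorem ss_of_kc {g : ℕ} (hg : 0 < g) (H : SS ((S.kc h hh g).E χ)) : SS (S.E χ) := by
  obtain ⟨tr, e⟩ := S.exists_kcTr (χ := χ) h hh hg
  exact H.retract (e ▸ UIso.id.smul (pow_ne_zero _ (Nat.cast_ne_zero.2 hg.ne')))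

variable {g M : ℕ} (hχ : χ.Prim) (hN : χ.N = M * g)
include hχ hN

omit [CharZero F] hχ in
/-- The projection of an unramified covering to an isotypic part. -/
theorem kc_down₀ (h0 : ∀ j ⦃K⦄ (x : S.X K), S.L x → h j x ≠ 0) (t : ρ → ℕ) :
    IsLift (S.kc h hh g) χ ((S.ktw h hh fun j => M * t j).E χ) fun _ z =>
      χ.ev (χ.rt (S.f z.1) * (∏ j, z.2 j ^ t j) / χ.rt (S.f z.1 * ∏ j, h j z.1 ^ (M * t j))) •
        (S.ktw h hh fun j => M * t j).cl F z.1 := by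
  refine ⟨fun _ _ φ x y hx hy r => ?_, fun _ _ φ x hx hd => ?_⟩
  · have lx : (S.ktw h hh fun j => M * t j).L x.1 := ⟨hx.1.1, fun j => h0 j _ hx.1.1⟩
    have ly : (S.ktw h hh fun j => M * t j).L y.1 := ⟨hy.1.1, fun j => h0 j _ hy.1.1⟩
    have e := (S.ktw h hh fun j => M * t j).reg φ _ _ lx ly r.1
    have e' := S.reg φ _ _ hx.1.1 hy.1.1 r.1
    have b := (S.ktw h hh fun j => M * t j).ne _ ly
    obtain ⟨w, h1, h2⟩ := Chr.exists_rel (χ.rt_spec _) e
    obtain ⟨u, h3, h4⟩ := Chr.exists_rel (χ.rt_spec _) e'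
    have h5 := KcA.pow_prod hN t h4 hy.2
    have h6 := KcA.pow_prod hN t (χ.rt_spec (S.f y.1)) hy.2
    rw [map_smul, map_cl (S := S.ktw h hh fun j => M * t j) (.of_R lx ly r.1), smul_smul,
      smul_smul, kc_f, Chr.cf_eq e h1, Chr.cf_eq e' h3,
      ← Chr.ev_rel (Chr.div_fix (KcA.pow_prod hN t (χ.rt_spec _) hx.2) (χ.rt_spec _) (e.ne_zero b))
        ((h3.mul (Place.prod fun j _ => (r.2 j).pow _)).div h1 (Chr.ne_of_pow h2 b)),
      KcA.ev_div h5 h2 (χ.rt_spec _) b,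
      ← mul_div_mul_right u _ (right_ne_zero_of_mul (Chr.ne_of_pow h5 b)),
      KcA.ev_div h5 h6 (χ.rt_spec _) b]
  · rw [map_smul, map_cl_Dd (S := S.ktw h hh fun j => M * t j) fun _ y hy r => ?_, smul_zero]
    obtain ⟨z, hz, r'⟩ := S.kc_lift h hh (KcA.pos hN) φ x y hx hy.1 r
    exact hd hx z hz r'

omit [CharZero F] hχ in
/-- The inclusion of an isotypic part in an unramified covering. -/
theorem kc_up₀ (h0 : ∀ j ⦃K⦄ (x : S.X K), S.L x → h j x ≠ 0) (t : ρ → ℕ) :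
    IsLift (S.ktw h hh fun j => M * t j) χ ((S.kc h hh g).E χ) fun _ x =>
      ((KcA.tup g fun j => h j x).map fun u =>
        χ.ev (χ.rt (S.f x * ∏ j, h j x ^ (M * t j)) / (χ.rt (S.f x) * ∏ j, u j ^ t j)) •
          (S.kc h hh g).cl F (x, u)).sum := by
  have hg := KcA.pos hN
  refine ⟨fun _ _ φ x y hx hy r => ?_, fun _ _ φ x hx hd => ?_⟩
  · have e := (S.ktw h hh fun j => M * t j).reg φ _ _ hx hy r
    have e' := S.reg φ _ _ hx.1 hy.1 r
    have b := (S.ktw h hh fun j => M * t j).ne _ hy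
    obtain ⟨w, h1, h2⟩ := Chr.exists_rel (χ.rt_spec _) e
    obtain ⟨a, h3, h4⟩ := Chr.exists_rel (χ.rt_spec _) e'
    rw [map_multiset_sum, Multiset.smul_sum, Multiset.map_map, Multiset.map_map]
    refine congrArg _ (Multiset.rel_eq.1 (Multiset.rel_map.2
      ((KcA.rel_tup hg fun j => hh j φ x y hx.1 hy.1 r).mono fun u hu v hv l => ?_)))
    have h5 := KcA.pow_prod hN t h4 ((KcA.mem_tup hg).1 hv)
    have h6 := KcA.pow_prod hN t (χ.rt_spec (S.f y)) ((KcA.mem_tup hg).1 hv)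
    rw [comp_apply, comp_apply, map_smul, map_cl (S := S.kc h hh g)
        (.of_R (S.kc_live h hh hg hx.1 hu) (S.kc_live h hh hg hy.1 hv) ⟨r, l⟩), smul_smul,
      smul_smul, kc_f, Chr.cf_eq e h1, Chr.cf_eq e' h3,
      ← Chr.ev_rel (Chr.div_fix (χ.rt_spec _)
          (KcA.pow_prod hN t (χ.rt_spec _) ((KcA.mem_tup hg).1 hu)) (e.ne_zero b))
        (h1.div (h3.mul (Place.prod fun j _ => (l j).pow _)) (Chr.ne_of_pow h5 b)),
      KcA.ev_div h2 (χ.rt_spec _) h6 b,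
      ← mul_div_mul_right a _ (right_ne_zero_of_mul (Chr.ne_of_pow h5 b)),
      KcA.ev_div h2 h5 h6 b]
  · rw [map_multiset_sum, Multiset.map_map]
    refine Multiset.sum_eq_zero fun v hv => ?_
    obtain ⟨u, -, rfl⟩ := Multiset.mem_map.1 hv
    rw [comp_apply, map_smul, map_cl_Dd (S := S.kc h hh g)
      fun _ z hz r => hd hx z.1 ⟨hz.1.1, fun j => h0 j _ hz.1.1⟩ r.1, smul_zero]

/-- The decomposition of an unramified covering by the characters of the Galois group. -/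
theorem ss_kc (h0 : ∀ j ⦃K⦄ (x : S.X K), S.L x → h j x ≠ 0)
    (H : ∀ t : ρ → ℕ, SS ((S.ktw h hh fun j => M * t j).E χ)) : SS ((S.kc h hh g).E χ) := by
  classical
  have hg := KcA.pos hN
  refine SS.of_sum (J := ρ → Fin g) (fun t => H fun j => t j)
    (fun t => (S.kc_down₀ h hh hN h0 _).hom) (fun t => (S.kc_up₀ h hh hN h0 _).hom) ?_
  have e : ∑ t : ρ → Fin g, (S.kc_down₀ h hh hN h0 fun j => t j).hom ≫
      (S.kc_up₀ h hh hN h0 fun j => t j).hom =
      ((g : F) ^ Fintype.card ρ) • 𝟙 ((S.kc h hh g).E χ) := by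
    refine Pt.hom_ext fun K z hz => ?_
    have lz : ∀ j, h j z.1 ≠ 0 := fun j => h0 j _ hz.1.1
    let A : Finset (ρ → K) := ⟨_, KcA.nodup_tup ((χ.primK K).pow χ.pos hN) lz⟩
    have hA : ∀ u ∈ A, ∀ j, u j ^ g = h j z.1 := fun u hu => (KcA.mem_tup hg).1 hu
    have hq : ∀ u ∈ A, ∀ j, (z.2 j / u j) ^ g = 1 := fun u hu j => by
      rw [div_pow, hz.2 j, hA u hu j, div_self (lz j)]
    have hq' : ∀ u ∈ A, ∀ j, (z.2 j / u j) ^ χ.N = 1 := fun u hu j => by
      rw [hN, mul_comm, pow_mul, hq u hu j, one_pow]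
    have h1 (t : ρ → Fin g) : ((S.kc_down₀ h hh hN h0 fun j => t j).hom ≫
        (S.kc_up₀ h hh hN h0 fun j => t j).hom).1 K ((S.kc h hh g).cl F z) =
        ∑ u ∈ A, (∏ j, χ.ev (z.2 j / u j) ^ (t j).1) • (S.kc h hh g).cl F (z.1, u) := by
      rw [Ob.comp_apply, IsLift.hom_cl _ hz, map_smul,
        (S.kc_up₀ h hh hN h0 fun j => t j).hom_cl ⟨hz.1.1, lz⟩]
      refine (Finset.smul_sum (s := A)).trans (Finset.sum_congr rfl fun u hu => ?_)
      rw [smul_smul, KcA.ev_div (KcA.pow_prod hN _ (χ.rt_spec _) hz.2) (χ.rt_spec _)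
        (KcA.pow_prod hN _ (χ.rt_spec _) (hA u hu))
        ((S.ktw h hh fun j => M * t j).ne _ ⟨hz.1.1, lz⟩),
        mul_div_mul_left _ _ (χ.rt_ne (S.ne _ hz.1.1)), ← Finset.prod_div_distrib]
      simp only [← div_pow]
      rw [Chr.ev_prod _ fun j => by rw [pow_right_comm, hq' u hu j, one_pow]]
      simp only [fun j => KcA.ev_pow (hq' u hu j)]
    rw [Ob.sum_app, LinearMap.sum_apply, Finset.sum_congr rfl fun t _ => h1 t, Finset.sum_comm]
    have h2 (u : ρ → K) : ∑ t : ρ → Fin g, ∏ j, χ.ev (z.2 j / u j) ^ (t j).1 =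
        ∏ j, ∑ s : Fin g, χ.ev (z.2 j / u j) ^ s.1 :=
      (Fintype.prod_sum fun j (s : Fin g) => χ.ev (z.2 j / u j) ^ s.1).symm
    simp only [← Finset.sum_smul, h2]
    have n : ∀ u ∈ A, ∀ j, u j ≠ 0 := fun u hu j l =>
      lz j (by rw [← hA u hu j, l, zero_pow hg.ne'])
    have m : z.2 ∈ A := (KcA.mem_tup hg).2 hz.2
    rw [Finset.sum_eq_single_of_mem z.2 m fun u hu hc => ?_]
    · simp only [fun j => div_self (n _ m j), Chr.ev_one, one_pow, Finset.sum_const,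
        Finset.card_univ, Fintype.card_fin, nsmul_eq_mul, mul_one, Finset.prod_const]
      rfl
    · obtain ⟨j, hj⟩ := Function.ne_iff.1 hc
      rw [Finset.prod_eq_zero (Finset.mem_univ j) (KcA.sum_ev hN hχ (hq u hu j)
        fun l => hj ((div_eq_one_iff_eq (n u hu j)).1 l).symm), zero_smul]
  rw [e]
  exact UIso.id.smul (pow_ne_zero _ (Nat.cast_ne_zero.2 hg.ne'))

namespace UD

section
omit hχ hN [CharZero F]
variable {K K' : Fld k}

theorem ev_div {u v w b : K} (hu : u ^ χ.N = b) (hv : v ^ χ.N = b) (hw : w ^ χ.N = b)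
    (hb : b ≠ 0) : χ.ev (u / v) * χ.ev (v / w) = χ.ev (u / w) := by
  rw [← Chr.ev_mul (Chr.div_fix hu hv hb) (Chr.div_fix hv hw hb),
    div_mul_div_cancel₀ (Chr.ne_of_pow hv hb)]

theorem cf_rel {φ : Place K K'} {b B P : K} {b' B' P' : K'} (hb : φ b b') (hB : φ B B')
    (hP : φ P P') (n : B' ≠ 0) (e : (χ.rt b * P) ^ χ.N = B) (e' : (χ.rt b' * P') ^ χ.N = B') :
    χ.ev (χ.rt b * P / χ.rt B) * χ.cf φ B = χ.cf φ b * χ.ev (χ.rt b' * P' / χ.rt B') ∧
    χ.ev (χ.rt B / (χ.rt b * P)) * χ.cf φ b = χ.cf φ B * χ.ev (χ.rt B' / (χ.rt b' * P')) := by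
  obtain ⟨w, h1, h2⟩ := Chr.exists_rel (χ.rt_spec _) hB
  obtain ⟨v, h3, h4⟩ := Chr.exists_rel (χ.rt_spec _) hb
  have h5 : (v * P') ^ χ.N = B' := by rw [← e', mul_pow, mul_pow, h4, χ.rt_spec]
  have h6 : P' ≠ 0 := right_ne_zero_of_mul (Chr.ne_of_pow h5 n)
  rw [Chr.cf_eq hB h1, Chr.cf_eq hb h3, ← mul_div_mul_right v _ h6,
    ← Chr.ev_rel (Chr.div_fix e (χ.rt_spec _) (hB.ne_zero n))
      ((h3.mul hP).div h1 (Chr.ne_of_pow h2 n)),
    ← Chr.ev_rel (Chr.div_fix (χ.rt_spec _) e (hB.ne_zero n))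
      (h1.div (h3.mul hP) (Chr.ne_of_pow h5 n)),
    ev_div h5 h2 (χ.rt_spec _) n, ev_div h5 e' (χ.rt_spec _) n, ev_div h2 h5 e' n,
    ev_div h2 (χ.rt_spec _) e' n]
  exact ⟨rfl, rfl⟩

omit [Fintype ρ] in
theorem sum_shift {A V : Type} [AddGroup A] [Fintype A] [AddCommGroup V] [Module F V] {G : A → V}
    (e : A) {a : F} (ha : a ≠ 1) (hG : ∀ c, G (c + e) = a • G c) : ∑ c, G c = 0 := by
  have := Equiv.sum_comp (Equiv.addRight e) G
  simp only [Equiv.coe_addRight, hG, ← Finset.smul_sum] at this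
  rw [← sub_eq_zero, ← one_smul F (∑ c, G c), smul_smul, mul_one, ← sub_smul] at this
  exact (smul_eq_zero.1 this).resolve_left (sub_ne_zero.2 ha)

theorem prod_shift [DecidableEq ρ] (t : ρ → ℕ) (u : ρ → K) (c : ρ → ZMod χ.N) (σ : Equiv.Perm ρ)
    (j : ρ) : ∏ i, ((u (σ i) * χ.cst K ((c + Pi.single (σ j) 1 : ρ → ZMod χ.N) (σ i))) ^ M) ^ t i =
      (∏ i, ((u (σ i) * χ.cst K (c (σ i))) ^ M) ^ t i) * χ.cst K ((M * t j : ℕ) : ℤ) := by
  simp only [Pi.add_apply, AddChar.map_add_eq_mul, ← mul_assoc, mul_pow _ _ M, mul_pow _ _ (t _),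
    Finset.prod_mul_distrib]
  congr 1
  rw [Finset.prod_eq_single j (fun i _ e => by
    rw [Pi.single_eq_of_ne (σ.injective.ne e), AddChar.map_zero_eq_one, one_pow, one_pow])
    fun e => absurd (Finset.mem_univ j) e, Pi.single_eq_same, ← pow_mul,
    ← AddChar.map_nsmul_eq_pow, nsmul_eq_mul, mul_one, Int.cast_natCast]

theorem f_kc (z : (S.kc h hh g).X K) : (S.kc h hh g).f z = S.f z.1 :=
  (congrArg _ Finset.prod_const_one).trans (mul_one _)

end

omit hχ [CharZero F]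
variable (t : ρ → ℕ)

theorem pow_eq {K : Fld k} {z : (S.kc h hh g).X K} (hz : (S.kc h hh g).L z) :
    (χ.rt (S.f z.1) * ∏ j, z.2 j ^ t j) ^ χ.N = (S.ktw h hh fun j => M * t j).f z.1 := by
  rw [mul_pow, χ.rt_spec, ← Finset.prod_pow]
  refine congrArg _ (Finset.prod_congr rfl fun j _ => ?_)
  rw [← hz.2 j, ← pow_mul, ← pow_mul, hN]
  ring

theorem live {K : Fld k} {x : S.X K} (hx : S.L x) {u : ρ → K} (hu : ∀ j, u j ^ χ.N = h j x)
    (c : ρ → ZMod χ.N) : (S.kc h hh g).L (x, fun j => (u j * χ.cst K (c j)) ^ M) :=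
  ⟨⟨hx, fun _ => trivial⟩, fun j => by
    rw [← pow_mul, ← hN, mul_pow, hu, χ.cst_pow, mul_one]⟩

/-- The projection of the covering to an isotypic part. -/
theorem down : IsLift (S.kc h hh g) χ ((S.ktw h hh fun j => M * t j).E χ) fun _ z =>
    χ.ev (χ.rt (S.f z.1) * (∏ j, z.2 j ^ t j) / χ.rt ((S.ktw h hh fun j => M * t j).f z.1)) •
      (S.ktw h hh fun j => M * t j).cl F z.1 := by
  refine ⟨fun _ _ φ x y hx hy r => ?_, fun _ _ φ x hx hd => ?_⟩
  · by_cases l : (S.ktw h hh fun j => M * t j).L y.1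
    · have l' : (S.ktw h hh fun j => M * t j).L x.1 :=
        ⟨hx.1.1, fun j => (hh j φ _ _ hx.1.1 hy.1.1 r.1).ne_zero (l.2 j)⟩
      rw [map_smul, map_cl (S := S.ktw h hh fun j => M * t j) (.of_R l' l r.1), smul_smul,
        smul_smul, f_kc, (cf_rel (S.reg φ _ _ hx.1.1 hy.1.1 r.1)
          ((S.ktw h hh fun j => M * t j).reg φ _ _ l' l r.1)
          (Place.prod fun j _ => (r.2 j).pow _) ((S.ktw h hh fun j => M * t j).ne _ l)
          (pow_eq S h hh hN t hx) (pow_eq S h hh hN t hy)).1]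
    · rw [map_smul, map_cl_Dd (S := S.ktw h hh fun j => M * t j) fun _ z hz r' =>
        l (S.func φ _ _ _ hx.1.1 hz.1 hy.1.1 r' r.1 ▸ hz), cl_dead l, smul_zero, smul_zero,
        smul_zero]
  · rw [map_smul, map_cl_Dd (S := S.ktw h hh fun j => M * t j) fun _ y hy r => ?_, smul_zero]
    have hg : g ≠ 0 := right_ne_zero_of_mul (hN ▸ χ.pos.ne')
    have h3 (j : ρ) := hh j φ _ _ hx.1.1 hy.1 r
    choose w h1 using fun j => ((Place.PR.X.pow g).sub (Place.PR.C (h3 j))).exists_root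
      (Polynomial.monic_X_pow_sub_C _ hg) (a := x.2 j) (by simp [hx.2 j])
    exact hd hx (y, w) ⟨⟨hy.1, fun _ => trivial⟩, fun j => ((h1 j).pow g).eq_of (h3 j) (hx.2 j)⟩
      ⟨r, h1⟩

include hχ

omit [Fintype ρ] in
theorem psi_ne {a : ℤ} (ha : ¬ (g : ℤ) ∣ a) : χ.ψ (M * a : ℤ) ≠ 1 := fun e => by
  have := (hχ.eq_one_iff _).1 e
  rw [hN, Nat.cast_mul] at this
  exact ha (Int.dvd_of_mul_dvd_mul_left
    (Nat.cast_ne_zero.2 (left_ne_zero_of_mul (hN ▸ χ.pos.ne'))) this)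

/-- The inclusion of an isotypic part in the covering. -/
theorem up [DecidableEq ρ] (ht : ∀ j, ¬ g ∣ t j) :
    IsLift (S.ktw h hh fun j => M * t j) χ ((S.kc h hh g).E χ) fun K x =>
      ∑ c : ρ → ZMod χ.N, χ.ev (χ.rt ((S.ktw h hh fun j => M * t j).f x) /
        (χ.rt (S.f x) * ∏ j, ((χ.rt (h j x) * χ.cst K (c j)) ^ M) ^ t j)) •
          (S.kc h hh g).cl F (x, fun j => (χ.rt (h j x) * χ.cst K (c j)) ^ M) := by
  refine ⟨fun K K' φ x y hx hy r => ?_, fun K K' φ x hx hd => ?_⟩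
  · choose u u1 u2 using fun j => Chr.exists_rel (χ.rt_spec _) (hh j φ _ _ hx.1 hy.1 r)
    choose d hd using fun j => χ.exists_cast (Chr.div_fix (u2 j) (χ.rt_spec _) (hy.2 j))
    rw [map_sum, Finset.smul_sum]
    refine Fintype.sum_equiv (Equiv.addLeft d) _ _ fun c => ?_
    have h3 (j : ρ) : φ ((χ.rt (h j x) * χ.cst K (c j)) ^ M)
        ((χ.rt (h j y) * χ.cst K' ((d + c) j)) ^ M) :=
      (((u1 j).mul (χ.rel_cast φ (c j))).congr rfl (by
        rw [Pi.add_apply, AddChar.map_add_eq_mul, ← hd, ← mul_assoc,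
          mul_div_cancel₀ _ (χ.rt_ne (hy.2 j))])).pow M
    have l := live S h hh hN hx.1 (fun _ => χ.rt_spec _) c
    have l' := live S h hh hN hy.1 (fun _ => χ.rt_spec _) (d + c)
    rw [map_smul, map_cl (S := S.kc h hh g) (.of_R l l' ⟨r, h3⟩), smul_smul, smul_smul, f_kc,
      Equiv.coe_addLeft, (cf_rel (S.reg φ _ _ hx.1 hy.1 r)
        ((S.ktw h hh fun j => M * t j).reg φ _ _ hx hy r)
        (Place.prod fun j _ => (h3 j).pow _) ((S.ktw h hh fun j => M * t j).ne _ hy)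
        (pow_eq S h hh hN t l) (pow_eq S h hh hN t l')).2]
  rw [map_sum]
  rcases R_or_Dd (S := S) φ x with ⟨y, hy, r⟩ | k
  swap
  · refine Finset.sum_eq_zero fun c _ => ?_
    rw [map_smul, map_cl_Dd (S := S.kc h hh g) fun _ z hz r => k hx.1 z.1 hz.1.1 r.1, smul_zero]
  obtain ⟨j, hj⟩ : ∃ j, h j y = 0 := by
    by_contra! n
    exact hd hx y ⟨hy, n⟩ r
  choose u u1 u2 using fun j => Chr.exists_rel (χ.rt_spec _) (hh j φ _ _ hx.1 hy r)
  have u0 : u j = 0 := pow_eq_zero_iff χ.pos.ne' |>.1 ((u2 j).trans hj)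
  have l := live S h hh hN hx.1 fun _ => χ.rt_spec _
  have m (c : ρ → ZMod χ.N) := map_cl (χ := χ) (S := S.kc h hh g) (.of_R (l c)
    (live S h hh hN hy u2 c) ⟨r, fun i => ((u1 i).mul (χ.rel_cast φ (c i))).pow M⟩)
  refine sum_shift (Pi.single j 1) (psi_ne hχ hN (a := -t j) fun e =>
    ht j (Int.natCast_dvd_natCast.1 (dvd_neg.1 e))) fun c => ?_
  have e : (fun i => (u i * χ.cst K' ((c + Pi.single j 1 : ρ → ZMod χ.N) i)) ^ M) =
      fun i => (u i * χ.cst K' (c i)) ^ M := funext fun i => by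
    rcases eq_or_ne i j with rfl | e
    · rw [u0, zero_mul, zero_mul]
    · rw [Pi.add_apply, Pi.single_eq_of_ne e, add_zero]
  have e' := prod_shift (M := M) t (fun i => χ.rt (h i x)) c 1 j
  simp only [Equiv.Perm.coe_one, id_eq] at e'
  rw [map_smul, map_smul, m, m, e, e', f_kc, smul_smul (χ.ψ _), ← mul_assoc, ← div_div,
    div_eq_mul_inv _ (χ.cst K _), ← AddChar.map_neg_eq_inv, Chr.ev_mul (Chr.div_fix (χ.rt_spec _)
      (pow_eq S h hh hN t (l c)) ((S.ktw h hh fun j => M * t j).ne _ hx)) (χ.cst_pow _),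
    Chr.ev_cast, mul_comm (χ.ψ _)]
  simp

end UD

/-- The isotypic part for a character that is ramified along all the `h j = 0`. -/
theorem exists_updown (t : ρ → ℕ) (ht : ∀ j, ¬ g ∣ t j) :
    ∃ (u : (S.ktw h hh fun j => M * t j).E χ ⟶ (S.kc h hh g).E χ)
      (d : (S.kc h hh g).E χ ⟶ (S.ktw h hh fun j => M * t j).E χ),
      u ≫ d = ((g : F) ^ Fintype.card ρ) • 𝟙 _ ∧
      ∀ (π : Equiv.Perm ρ) (a : ∀ ⦃K⦄, S.X K → S.X K)
        (m : IsMap (S.kc h hh g) (S.kc h hh g) fun _ x => (a x.1, fun j => x.2 (π j))),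
        (∀ ⦃K⦄ (x : (S.kc h hh g).X K), (S.kc h hh g).L x →
          (S.kc h hh g).L (a x.1, fun j => x.2 (π j))) →
        (∃ j, ¬ t (π j) ≡ t j [MOD g]) → u ≫ m.hom χ ≫ d = 0 := by
  classical
  have hM : (M : F) ≠ 0 := Nat.cast_ne_zero.2 (left_ne_zero_of_mul (hN ▸ χ.pos.ne'))
  have l : ∀ ⦃K⦄ {x : S.X K}, S.L x → _ := fun K x hx =>
    UD.live S h hh hN hx fun _ => χ.rt_spec _
  refine ⟨((M : F) ^ Fintype.card ρ)⁻¹ • (UD.up S h hh hχ hN t ht).hom,
    (UD.down S h hh hN t).hom, ?_, fun π a m la ⟨j, hj⟩ => ?_⟩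
  · have e : (UD.up S h hh hχ hN t ht).hom ≫ (UD.down S h hh hN t).hom =
        ((χ.N : F) ^ Fintype.card ρ) • 𝟙 _ := by
      refine hom_ext fun K x hx => ?_
      have n := (S.ktw h hh fun j => M * t j).ne _ hx
      rw [Ob.comp_apply, IsLift.hom_cl _ hx, map_sum, Finset.sum_congr rfl fun c _ => by
        rw [map_smul, IsLift.hom_cl _ (l hx.1 c), smul_smul, UD.ev_div (χ.rt_spec _)
          (UD.pow_eq S h hh hN t (l hx.1 c)) (χ.rt_spec _) n, div_self (χ.rt_ne n), Chr.ev_one,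
          one_smul]]
      dsimp only
      rw [Finset.sum_const, Finset.card_univ, Fintype.card_fun, ZMod.card,
        ← Nat.cast_smul_eq_nsmul F, Nat.cast_pow]
      rfl
    rw [Linear.smul_comp, e, smul_smul, show (χ.N : F) = M * g by rw [hN, Nat.cast_mul], mul_pow,
      inv_mul_cancel_left₀ (pow_ne_zero _ hM)]
  rw [Linear.smul_comp, show (UD.up S h hh hχ hN t ht).hom ≫ m.hom χ ≫
    (UD.down S h hh hN t).hom = 0 from hom_ext fun K x hx => ?_, smul_zero]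
  rw [Ob.comp_apply, IsLift.hom_cl _ hx, map_sum]
  refine UD.sum_shift (Pi.single (π j) 1) (UD.psi_ne hχ hN (a := t j - t (π j)) fun e =>
    hj (Nat.modEq_iff_dvd.2 e)) fun c => ?_
  have n := (S.ktw h hh fun j => M * t j).ne _ hx
  have n' := (S.ktw h hh fun j => M * t j).ne (a x) ⟨(la _ (l hx.1 c)).1.1, fun i e =>
    hx.2 (π i) (((l hx.1 c).2 _).symm.trans (((la _ (l hx.1 c)).2 i).trans e))⟩
  have e := UD.prod_shift (M := M) t (fun i => χ.rt (h i x)) c 1 (π j)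
  simp only [Equiv.Perm.coe_one, id_eq] at e
  rw [map_smul, map_smul, Ob.comp_apply, Ob.comp_apply, m.hom_cl (l hx.1 _), m.hom_cl (l hx.1 _),
    IsLift.hom_cl _ (la _ (l hx.1 _)), IsLift.hom_cl _ (la _ (l hx.1 _))]
  dsimp only
  rw [e, UD.prod_shift t (fun i => χ.rt (h i x)) c π j, smul_smul, smul_smul, smul_smul, ← mul_assoc,
    ← div_div, div_eq_mul_inv _ (χ.cst K _), ← AddChar.map_neg_eq_inv, ← mul_assoc,
    mul_div_right_comm, Chr.ev_mul (Chr.div_fix (χ.rt_spec _)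
      (UD.pow_eq S h hh hN t (l hx.1 c)) n) (χ.cst_pow _), Chr.ev_mul (Chr.div_fix
      (UD.pow_eq S h hh hN t (la _ (l hx.1 c))) (χ.rt_spec _) n') (χ.cst_pow _), Chr.ev_cast,
    Chr.ev_cast, mul_sub, Int.cast_sub, sub_eq_add_neg, AddChar.map_add_eq_mul]
  congr 1
  push_cast
  ring

end Pt

end

end Pool.Agent.Lib.MP_fc2ced_ag.T
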