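import Pool.Agent.Lib.MP_fc2ced_ag.T.Van

/-! Free affine coordinates: affine changes of coordinates act as the identity. -/

open CategoryTheory Function Polynomial

namespace Pool.Agent.Lib.MP_fc2ced_ag.T

open K

noncomputable section

variable {k : Type} [Field k] {F : Type} [Field F] {χ : Chr k F}

namespace Pt

variable {S : Pt k} {α : Type}

variable (S α) in
/-- The functions `s` are free coordinates; `mv x t` is the point `x` with the coordinates `t`. -/
structure Aff (s : ∀ ⦃K : Fld k⦄, S.X K → α → K) (mv : ∀ ⦃K : Fld k⦄, S.X K → (α → K) → S.X K) :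
    Prop where
  rs : ∀ a, S.RegF fun _ x => s x a
  self : ∀ ⦃K⦄ (x : S.X K), S.L x → mv x (s x) = x
  live : ∀ ⦃K : Fld k⦄ (x : S.X K) (t : α → K), S.L x → S.L (mv x t)
  coord : ∀ ⦃K : Fld k⦄ (x : S.X K) (t : α → K), S.L x → s (mv x t) = t
  f : ∀ ⦃K : Fld k⦄ (x : S.X K) (t : α → K), S.L x → S.f (mv x t) = S.f x
  mv_mv : ∀ ⦃K : Fld k⦄ (x : S.X K) (t t' : α → K), S.L x → mv (mv x t) t' = mv x t'
  reg : ∀ ⦃K K'⦄ (φ : Place K K') (x : S.X K) (y : S.X K') (t : α → K) (t' : α → K'), S.L x →
    S.L y → S.R φ x y → (∀ a, φ (t a) (t' a)) → S.R φ (mv x t) (mv y t')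

variable {s : ∀ ⦃K : Fld k⦄, S.X K → α → K} {mv : ∀ ⦃K : Fld k⦄, S.X K → (α → K) → S.X K}

/-- The product with an affine space. -/
theorem aff_prod (S : Pt k) (α : Type) [Fintype α] :
    (S.prod ((line k).pi α)).Aff α (fun _ x => x.2) fun _ x t => (x.1, t) where
  rs a := fun _ _ _ _ _ _ _ r => r.2 a
  self _ _ _ := rfl
  live _ _ _ hx := ⟨hx.1, fun _ => trivial⟩
  coord _ _ _ _ := rfl
  f _ _ _ _ := rfl
  mv_mv _ _ _ _ _ := rfl
  reg _ _ _ _ _ _ _ _ _ r ht := ⟨r.1, ht⟩

/-- Conditions that do not involve the coordinates. -/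
theorem Aff.restr (h : S.Aff α s mv) {T : S.Cond} (c : S.Conv T)
    (hT : ∀ ⦃K : Fld k⦄ (x : S.X K) (t : α → K), S.L x → T x → T (mv x t)) :
    (S.restr T c).Aff α s mv where
  rs a := fun _ _ φ x y hx hy r => h.rs a φ x y hx.1 hy.1 r
  self _ x hx := h.self x hx.1
  live _ x t hx := ⟨h.live x t hx.1, hT x t hx.1 hx.2⟩
  coord _ x t hx := h.coord x t hx.1
  f _ x t hx := h.f x t hx.1
  mv_mv _ x t t' hx := h.mv_mv x t t' hx.1
  reg _ _ φ x y t t' hx hy := h.reg φ x y t t' hx.1 hy.1

/-- A moved point that specializes comes from a point that specializes. -/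
theorem Aff.back (h : S.Aff α s mv) {K K' : Fld k} {φ : Place K K'} {x : S.X K} {t : α → K}
    {z : S.X K'} {s' : α → K'} (hx : S.L x) (hz : S.L z) (r : S.R φ (mv x t) z)
    (hs : ∀ a, φ (s x a) (s' a)) : S.R φ x (mv z s') := by
  have := h.reg φ _ z (s x) s' (h.live x t hx) hz r hs
  rwa [h.mv_mv x t _ hx, h.self x hx] at this

section One
variable {s : ∀ ⦃K : Fld k⦄, S.X K → Unit → K} {mv : ∀ ⦃K : Fld k⦄, S.X K → (Unit → K) → S.X K}
  (h : S.Aff Unit s mv)
include h

theorem Aff.closed_zero : S.Closed fun _ x => s x () = 0 := (h.rs ()).eq regF_zero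

/-- The zero section is null. -/
theorem Aff.null_zero : Null ((isMap_closed h.closed_zero).hom χ) := by
  classical
  let H : Htpy ((S.restr _ h.closed_zero.conv).E χ) (S.E χ) :=
    { h := fun O r => (S.restr _ h.closed_zero.conv).lf fun x =>
        if r = 0 then 0 else S.cl F (mv x fun _ => r⁻¹ - 1)
      nat := fun O O' φ r r' hr => lin_ext fun x hx => by
        rw [LinearMap.comp_apply, LinearMap.comp_apply, lf_cl (S := S.restr _ h.closed_zero.conv)
          (c := fun x => if r = 0 then 0 else S.cl F (mv x fun _ => r⁻¹ - 1)) hx]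
        rcases R_or_Dd (S := S.restr _ h.closed_zero.conv) φ x with ⟨y, hy, h1⟩ | h1
        · rw [map_cl (S := S.restr _ h.closed_zero.conv) (.of_R hx hy h1), map_smul,
            lf_cl (S := S.restr _ h.closed_zero.conv) hy]
          by_cases e' : r' = 0
          · rw [if_pos e', smul_zero]
            by_cases e : r = 0
            · rw [if_pos e, map_zero]
            · rw [if_neg e, map_cl_Dd fun l z hz r1 => ?_]
              have r2 := h.rs () φ _ z l hz r1
              simp only [h.coord x _ hx.1] at r2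
              have r3 := (r2.add φ.one).mul hr
              rw [sub_add_cancel, inv_mul_cancel₀ e, e', mul_zero] at r3
              exact one_ne_zero (φ.one.func r3)
          · rw [if_neg e', if_neg (hr.ne_zero e'), map_cl (.of_R (h.live x _ hx.1) (h.live y _ hy.1)
              (h.reg φ x y _ _ hx.1 hy.1 h1 fun _ => (hr.inv e').sub φ.one)), h.f x _ hx.1]
        · rw [map_cl_Dd (S := S.restr _ h.closed_zero.conv) h1, map_zero]
          by_cases e : r = 0
          · rw [if_pos e, map_zero]
          · rw [if_neg e, map_cl_Dd fun l z hz r1 => ?_]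
            refine h1 hx (mv z fun _ => 0) ⟨h.live z _ hz, congrFun (h.coord z _ hz) ()⟩
              (h.back hx.1 hz r1 fun _ => ?_)
            exact φ.zero.congr hx.2.symm rfl }
  have e0 : H.val 0 = 0 := hom_ext fun K x hx => by
    rw [Htpy.val_app, map_zero]
    exact (lf_cl (S := S.restr _ h.closed_zero.conv) hx).trans (if_pos rfl)
  have e1 : H.val 1 = (isMap_closed h.closed_zero).hom χ := hom_ext fun K x hx => by
    rw [Htpy.val_app, map_one, IsMap.hom_cl _ hx]
    refine (lf_cl (S := S.restr _ h.closed_zero.conv) hx).trans ((if_neg one_ne_zero).trans ?_)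
    rw [inv_one, sub_self, ← hx.2]
    exact congrArg _ (h.self x hx.1)
  simpa [e0, e1] using H.null.smul (-1)

/-- The restriction to the nonzero locus is invariant under inversion. -/
theorem Aff.res_inv {w : ∀ ⦃K : Fld k⦄, S.X K → K} (rw : S.RegF w)
    (w0 : ∀ ⦃K⦄ (x : S.X K), S.L x → w x ≠ 0)
    (wi : ∀ ⦃K : Fld k⦄ (x : S.X K) (t : Unit → K), S.L x → w (mv x t) = w x) :
    ∃ h₂ : IsMap S (S.restr _ h.closed_zero.not.conv) fun _ x => mv x fun _ => w x / s x (),
      Null ((isMap_open h.closed_zero.not).hom χ - h₂.hom χ) := by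
  have lv : ∀ ⦃K : Fld k⦄ (x : S.X K) (t : K), S.L x →
      ((S.restr _ h.closed_zero.not.conv).L (mv x fun _ => t) ↔ t ≠ 0) := fun K x t hx =>
    (and_iff_right (h.live x _ hx)).trans (by simp only [h.coord x _ hx])
  have rg : (S.restr _ h.closed_zero.not.conv).Reg (S.restr _ h.closed_zero.not.conv)
      fun _ x => mv x fun _ => w x / s x () :=
    ⟨fun _ x hx => (lv x _ hx.1).2 (div_ne_zero (w0 x hx.1) hx.2),
      fun _ _ φ x y hx hy r => h.reg φ x y _ _ hx.1 hy.1 r fun _ =>
        (rw φ x y hx.1 hy.1 r).div (h.rs () φ x y hx.1 hy.1 r) hy.2⟩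
  have iv := IsMap.of_inv rg rg (fun _ x hx => h.f x _ hx.1) fun _ x hx => by
    rw [h.mv_mv x _ _ hx.1, wi x _ hx.1, h.coord x _ hx.1, div_div_cancel₀ (w0 x hx.1)]
    exact h.self x hx.1
  have d : ∀ ⦃K⦄ (x : S.X K), S.L x →
      (S.restr _ h.closed_zero.not.conv).L (mv x fun _ => w x / s x ()) →
      (S.restr _ h.closed_zero.not.conv).L x := fun K x hx l =>
    ⟨hx, fun e => (lv x _ hx).1 l (by rw [e, div_zero])⟩
  have h₂ := (isMap_open h.closed_zero.not).comp iv d
  have fam : IsFam S (S.restr _ h.closed_zero.not.conv) fun _ r x =>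
      (quad (s x ()) (r * w x)).roots.map fun t => mv x fun _ => t :=
    { f := fun K r x hx z hz _ => by
        obtain ⟨t, -, rfl⟩ := Multiset.mem_map.1 hz
        exact h.f x _ hx
      sp := fun K K' φ r r' x y hr hx hy h1 =>
        Multiset.rel_map.2 (((quad_PR (h.rs () φ x y hx hy h1)
          (hr.mul (rw φ x y hx hy h1))).roots (quad_monic _ _)).mono fun t _ t' _ r4 =>
          (isMap_open h.closed_zero.not).sp φ _ _ (h.live x _ hx) (h.live y _ hy)
            (h.reg φ x y _ _ hx hy h1 fun _ => r4))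
      dead := fun K K' φ r r' x hr hx h1 z hz l u hu h2 => by
        obtain ⟨t, ht, rfl⟩ := Multiset.mem_map.1 hz
        have e := quad_mem ht
        have t0 := (lv x t hx).1 l
        have r1 := h.rs () φ _ u l.1 hu.1 h2
        have r2 := rw φ _ u l.1 hu.1 h2
        simp only [h.coord x _ hx] at r1
        simp only [wi x _ hx] at r2
        refine h1 hx _ (h.live u (fun _ => s u () + r' * w u / s u ()) hu.1)
          (h.back hx hu.1 h2 fun _ => (r1.add ((hr.mul r2).div r1 hu.2)).congr ?_ rfl)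
        rw [← e]
        field_simp
        ring }
  have cor : IsCor S (S.restr _ h.closed_zero.not.conv) fun _ x =>
      (quad (s x ()) (1 * w x)).roots.map fun t => mv x fun _ => t :=
    ⟨fun _ x => fam.f 1 x, fun _ _ φ x y => fam.sp φ 1 1 x y φ.one,
      fun _ _ φ x => fam.dead φ 1 1 x φ.one⟩
  have n1 : Null ((isMap_open h.closed_zero.not).hom χ - cor.hom χ) := by
    refine fam.null_sub (fun K x hx => ?_) fun K x hx => cor.hom_cl hx
    rw [IsMap.hom_cl _ hx, quad_roots (a := s x ()) (b := 0) (by ring) (by ring),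
      Multiset.insert_eq_cons, Multiset.map_cons, Multiset.map_singleton, cls_cons, cls_singleton,
      cl_dead (S := S.restr _ h.closed_zero.not.conv) (x := mv x fun _ => 0)
        fun l => (lv x 0 hx).1 l rfl, add_zero]
    exact congrArg _ (h.self x hx).symm
  have e1 : cor.hom χ ≫ iv.hom χ = cor.hom χ := hom_ext fun K x hx => by
    obtain ⟨a, ha⟩ := IsAlgClosed.exists_root (quad (s x ()) (1 * w x)) (by
      rw [degree_eq_natDegree (quad_monic _ _).ne_zero]
      have : (quad (s x ()) (1 * w x)).natDegree = 2 := by unfold quad; compute_degree!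
      rw [this]
      norm_num)
    have e := quad_root.1 ha
    have n : a * (s x () - a) ≠ 0 := e ▸ mul_ne_zero one_ne_zero (w0 x hx)
    have na := left_ne_zero_of_mul n
    have nb := right_ne_zero_of_mul n
    rw [Ob.comp_apply, cor.hom_cl hx, quad_roots (a := a) (b := s x () - a) (by ring) e.symm,
      Multiset.insert_eq_cons, Multiset.map_cons, Multiset.map_singleton, cls_cons, cls_singleton,
      map_add, iv.hom_cl ((lv x _ hx).2 na), iv.hom_cl ((lv x _ hx).2 nb), h.mv_mv x _ _ hx,
      h.mv_mv x _ _ hx, wi x _ hx, wi x _ hx, h.coord x _ hx, h.coord x _ hx, ← one_mul (w x), ← e,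
      mul_div_cancel_left₀ _ na, mul_div_cancel_right₀ _ nb, add_comm]
  refine ⟨h₂, ?_⟩
  rw [← (isMap_open h.closed_zero.not).hom_comp iv h₂ d fun _ _ _ _ => rfl]
  have := n1.sub (n1.comp (iv.hom χ))
  rwa [Preadditive.sub_comp, e1, sub_sub_sub_cancel_right] at this

end One

section OneActs
variable {s : ∀ ⦃K : Fld k⦄, S.X K → Unit → K} {mv : ∀ ⦃K : Fld k⦄, S.X K → (Unit → K) → S.X K}
  (h : S.Aff Unit s mv) {w c : ∀ ⦃K : Fld k⦄, S.X K → K}
include h

/-- Scaling of a free coordinate. -/
theorem Aff.acts_scale (rw : S.RegF w) (w0 : ∀ ⦃K⦄ (x : S.X K), S.L x → w x ≠ 0)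
    (wi : ∀ ⦃K : Fld k⦄ (x : S.X K) (t : Unit → K), S.L x → w (mv x t) = w x) :
    S.Acts χ (fun _ x => mv x fun _ => w x * s x ()) 1 := by
  have m : IsMap S S fun _ x => mv x fun _ => w x * s x () :=
    .of_inv (g := fun _ x => mv x fun _ => s x () / w x)
      ⟨fun _ x hx => h.live x _ hx, fun _ _ φ x y hx hy r => h.reg φ x y _ _ hx hy r fun _ =>
        (rw.mul (h.rs ())) φ x y hx hy r⟩
      ⟨fun _ x hx => h.live x _ hx, fun _ _ φ x y hx hy r => h.reg φ x y _ _ hx hy r fun _ =>
        ((h.rs ()).div rw w0) φ x y hx hy r⟩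
      (fun _ x hx => h.f x _ hx) fun _ x hx => by
        rw [h.mv_mv x _ _ hx, h.coord x _ hx, wi x _ hx, mul_div_cancel_left₀ _ (w0 x hx)]
        exact h.self x hx
  obtain ⟨a, ha⟩ := h.res_inv (χ := χ) rw w0 wi
  obtain ⟨b, hb⟩ := h.res_inv (χ := χ) regF_one (fun _ _ _ => one_ne_zero) fun _ _ _ _ => rfl
  have e : m.hom χ ≫ a.hom χ = b.hom χ :=
    m.hom_comp a b (fun _ x hx _ => h.live x _ hx) fun _ x hx _ => by
      rw [h.mv_mv x _ _ hx, h.coord x _ hx, wi x _ hx, div_mul_cancel_left₀ (w0 x hx), one_div]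
  have n := (ses_closed h.closed_zero).null_of_i (f := 𝟙 _) (g := m.hom χ - 𝟙 _)
    (by simpa using h.null_zero) (by simpa [e] using (ha.precomp (m.hom χ)).sub hb)
  exact ⟨m, by simpa using n⟩

/-- Affine change of one free coordinate. -/
theorem Aff.acts_one [CharZero F] (rw : S.RegF w) (rc : S.RegF c)
    (w0 : ∀ ⦃K⦄ (x : S.X K), S.L x → w x ≠ 0)
    (wi : ∀ ⦃K : Fld k⦄ (x : S.X K) (t : Unit → K), S.L x → w (mv x t) = w x)
    (ci : ∀ ⦃K : Fld k⦄ (x : S.X K) (t : Unit → K), S.L x → c (mv x t) = c x) :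
    S.Acts χ (fun _ x => mv x fun _ => w x * s x () + c x) 1 := by
  have fr : S.Free (fun _ x => s x ()) c fun _ x t => mv x fun _ => t :=
    ⟨h.rs (), rc, h.self, fun _ x t hx => ⟨h.live x _ hx, congrFun (h.coord x _ hx) (), ci x _ hx,
      h.f x _ hx, (h.mv_mv x _ _ hx).trans (h.self x hx)⟩,
      fun _ _ φ x y _ _ hx hy r ht => h.reg φ x y _ _ hx hy r fun _ => ht⟩
  refine (h.acts_scale rw.neg (fun _ x hx => neg_ne_zero.2 (w0 x hx))
    fun _ x t hx => congrArg Neg.neg (wi x t hx)).comp fr.acts (fun _ x hx => h.live x _ hx)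
    (fun _ x hx => ?_) (mul_one _).symm
  rw [h.mv_mv x _ _ hx, h.coord x _ hx, ci x _ hx, neg_mul, sub_neg_eq_add, add_comm]

end OneActs

/-- One of the coordinates. -/
theorem Aff.one [DecidableEq α] (h : S.Aff α s mv) (a : α) :
    S.Aff Unit (fun _ x _ => s x a) fun _ x t => mv x (update (s x) a (t ())) where
  rs _ := h.rs a
  self _ x hx := by rw [update_eq_self, h.self x hx]
  live _ x _ hx := h.live x _ hx
  coord _ x _ hx := by rw [h.coord x _ hx, update_self]
  f _ x _ hx := h.f x _ hx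
  mv_mv _ x _ _ hx := by rw [h.mv_mv x _ _ hx, h.coord x _ hx, update_idem]
  reg _ _ φ x y _ _ hx hy r ht := h.reg φ x y _ _ hx hy r fun b => by
    rcases eq_or_ne b a with rfl | e
    · rw [update_self, update_self]
      exact ht ()
    · rw [update_of_ne e, update_of_ne e]
      exact h.rs b φ x y hx hy r

/-- Exchange of two coordinates. -/
theorem Aff.acts_swap [CharZero F] [DecidableEq α] (h : S.Aff α s mv) {a b : α} (e : a ≠ b) :
    S.Acts χ (fun _ x => mv x (s x ∘ Equiv.swap a b)) 1 := by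
  have fr : S.Free (fun _ x => s x a) (fun _ x => s x a + s x b)
      fun _ x t => mv x (update (update (s x) b (s x a + s x b - t)) a t) := by
    refine ⟨h.rs a, (h.rs a).add (h.rs b), fun _ x hx => ?_, fun _ x t hx =>
      ⟨h.live x _ hx, ?_, ?_, h.f x _ hx, ?_⟩,
      fun _ _ φ x y _ _ hx hy r ht => h.reg φ x y _ _ hx hy r fun d => ?_⟩
    · rw [add_sub_cancel_left, update_eq_self, update_eq_self, h.self x hx]
    · rw [h.coord x _ hx, update_self]
    · rw [h.coord x _ hx, update_self, update_of_ne e.symm, update_self, add_sub_cancel]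
    · rw [h.mv_mv x _ _ hx, h.coord x _ hx, update_self, update_of_ne e.symm, update_self,
        add_sub_cancel, add_sub_cancel_left, update_comm e, update_idem, update_idem,
        update_eq_self, update_eq_self, h.self x hx]
    · rcases eq_or_ne d a with rfl | e1
      · rwa [update_self, update_self]
      rw [update_of_ne e1, update_of_ne e1]
      rcases eq_or_ne d b with rfl | e2
      · rw [update_self, update_self]
        exact ((h.rs a φ x y hx hy r).add (h.rs d φ x y hx hy r)).sub ht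
      · rw [update_of_ne e2, update_of_ne e2]
        exact h.rs d φ x y hx hy r
  refine fr.acts.comp (.of_fix fun _ _ _ => rfl) (fun _ x hx => h.live x _ hx)
    (fun _ x _ => ?_) (mul_one _).symm
  rw [add_sub_cancel_left, add_sub_cancel_right, Equiv.comp_swap_eq_update]

/-- Permutations of the coordinates. -/
theorem Aff.acts_perm [CharZero F] [Finite α] (h : S.Aff α s mv) (π : Equiv.Perm α) :
    S.Acts χ (fun _ x => mv x (s x ∘ π)) 1 := by
  classical
  induction π using Equiv.Perm.swap_induction_on with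
  | one => exact .of_fix h.self
  | swap_mul π a b e ih =>
    refine (h.acts_swap e).comp ih (fun _ x hx => h.live x _ hx) (fun _ x hx => ?_)
      (mul_one _).symm
    rw [h.mv_mv x _ _ hx, h.coord x _ hx]
    rfl

/-- Affine changes of the free coordinates act as the identity. -/
theorem Aff.acts [CharZero F] [Finite α] (h : S.Aff α s mv) (π : Equiv.Perm α)
    {w c : ∀ ⦃K : Fld k⦄, S.X K → α → K} (rw : ∀ a, S.RegF fun _ x => w x a)
    (rc : ∀ a, S.RegF fun _ x => c x a) (w0 : ∀ ⦃K⦄ (x : S.X K), S.L x → ∀ a, w x a ≠ 0)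
    (wi : ∀ ⦃K : Fld k⦄ (x : S.X K) (t : α → K), S.L x → w (mv x t) = w x)
    (ci : ∀ ⦃K : Fld k⦄ (x : S.X K) (t : α → K), S.L x → c (mv x t) = c x) :
    S.Acts χ (fun _ x => mv x fun a => w x a * s x (π a) + c x a) 1 := by
  classical
  have := Fintype.ofFinite α
  have key (T : Finset α) : S.Acts χ
      (fun _ x => mv x fun a => if a ∈ T then w x a * s x a + c x a else s x a) 1 := by
    induction T using Finset.induction_on with
    | empty => exact .of_fix fun _ x hx => by simpa using h.self x hx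
    | insert a T ha ih =>
      refine ih.comp ((h.one a).acts_one (rw a) (rc a) (fun _ x hx => w0 x hx a)
        (fun _ x _ hx => congrFun (wi x _ hx) a) fun _ x _ hx => congrFun (ci x _ hx) a)
        (fun _ x hx => h.live x _ hx) (fun _ x hx => ?_) (mul_one _).symm
      rw [h.mv_mv x _ _ hx, h.coord x _ hx, wi x _ hx, ci x _ hx, if_neg ha]
      refine congrArg (mv x) (funext fun b => ?_)
      rcases eq_or_ne b a with rfl | e
      · rw [update_self, if_pos (Finset.mem_insert_self _ _)]
      · simp [e]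
  refine (h.acts_perm π).comp (key Finset.univ) (fun _ x hx => h.live x _ hx) (fun _ x hx => ?_)
    (mul_one _).symm
  rw [h.mv_mv x _ _ hx, h.coord x _ hx, wi x _ hx, ci x _ hx]
  simp

end Pt

end

end Pool.Agent.Lib.MP_fc2ced_ag.T
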