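import Pool.Agent.Lib.MP_fc2ced_ag.G.PPt
import Pool.Agent.Lib.MP_fc2ced_ag.G.Lin

/-! The comparison with the presheaves of points of projective schemes. -/

open CategoryTheory CategoryTheory.Limits Function MvPolynomial

namespace Pool.Agent.Lib.MP_fc2ced_ag.T

open K

noncomputable section

variable {k : Type} [Field k] {F : Type} [Field F] [CharZero F] {χ : Chr k F}
  {σ ι κ : Type} {f : ι → MvPolynomial (Option σ) k} {g : κ → MvPolynomial (Option σ) k}

open MP_fc2ced_ag.T.Pt hiding X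
open Prj Ob

theorem isMap_ps (S Q : Pt k) {d : ℕ} (s : Equiv.Perm (Fin d)) :
    IsMap ((S.pi (Fin d)).prod Q) ((S.pi (Fin d)).prod Q)
      fun _ x => (fun a => x.1 (s.symm a), x.2) := (S.isMap_perm s).prod isMap_id

omit [CharZero F] in
theorem ps_mul (S Q : Pt k) {d : ℕ} (s t : Equiv.Perm (Fin d)) :
    (isMap_ps S Q t).hom χ ≫ (isMap_ps S Q s).hom χ = (isMap_ps S Q (s * t)).hom χ :=
  IsMap.hom_comp _ _ _ (fun _ _ a _ => ⟨fun _ => a.1 _, a.2⟩) fun _ _ _ _ => rfl

omit [CharZero F] in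
theorem ps_cl (S Q : Pt k) {d : ℕ} (s : Equiv.Perm (Fin d)) {K : Fld k}
    (x : ((S.pi (Fin d)).prod Q).X K) :
    ((isMap_ps S Q s).hom χ).1 K (((S.pi (Fin d)).prod Q).cl F x) =
      ((S.pi (Fin d)).prod Q).cl F (fun a => x.1 (s.symm a), x.2) := by
  by_cases h : ((S.pi (Fin d)).prod Q).L x
  · exact IsMap.hom_cl _ h
  · rw [cl_dead h, map_zero]
    exact (cl_dead (S := (S.pi (Fin d)).prod Q) (x := (fun a => x.1 (s.symm a), x.2)) fun e =>
      h ⟨fun a => by simpa using e.1 (s a), e.2⟩).symm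

/-- The permutations of the affine factors are removed. -/
theorem exists_null_aff {S : Pt k} {m : ℕ} (h : SF ((S.prod ((line k).pi (Fin m))).E χ)) :
    ∃ (d n : ℕ) (r : Equiv.Perm (Fin d) → F), 0 < d ∧ r ≠ 0 ∧
      Null (∑ s, r s • (isMap_ps S ((line k).pi (Fin n)) s).hom χ) := by
  obtain ⟨d, r, hd, hr, h₀⟩ := h.exists_pos (con _)
  have h₃ : Null (∑ s, r s • ((S.prod ((line k).pi (Fin m))).isMap_perm s).hom χ) := by
    refine .of_comp_uiso (bij_pow (χ := χ) (S := S.prod ((line k).pi (Fin m))) (Fin d)).uiso ?_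
    have := h₀.precomp (isLift_pow χ (S.prod ((line k).pi (Fin m))) (Fin d)).hom
    rw [act, Preadditive.comp_sum] at this
    rw [Preadditive.sum_comp]
    simpa only [Linear.comp_smul, Linear.smul_comp, pow_perm] using this
  have r1 : ((S.pi (Fin d)).prod ((line k).pi (Fin (d * m)))).Reg
      ((S.prod ((line k).pi (Fin m))).pi (Fin d))
      fun _ x a => (x.1 a, fun b => x.2 (finProdFinEquiv (a, b))) :=
    ⟨fun _ _ l a => ⟨l.1 a, fun _ => trivial⟩, fun _ _ _ _ _ _ _ r a => ⟨r.1 a, fun _ => r.2 _⟩⟩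
  have r2 : ((S.prod ((line k).pi (Fin m))).pi (Fin d)).Reg
      ((S.pi (Fin d)).prod ((line k).pi (Fin (d * m)))) fun _ y =>
      (fun a => (y a).1, fun c => (y (finProdFinEquiv.symm c).1).2 (finProdFinEquiv.symm c).2) :=
    ⟨fun _ _ l => ⟨fun a => (l a).1, fun _ => trivial⟩,
      fun _ _ _ _ _ _ _ r => ⟨fun a => (r a).1, fun _ => (r _).2 _⟩⟩
  have l1 : ∀ ⦃K : Fld k⦄ (x : ((S.pi (Fin d)).prod ((line k).pi (Fin (d * m)))).X K),
      (fun a => x.1 a, fun c => x.2 (finProdFinEquiv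
        ((finProdFinEquiv.symm c).1, (finProdFinEquiv.symm c).2))) = x := fun _ x =>
    Prod.ext rfl (funext fun c => congrArg x.2 (finProdFinEquiv.apply_symm_apply c))
  have e := IsMap.of_inv r1 r2 (fun _ _ _ => by simp) fun _ x _ => l1 x
  have eb : Bij (e.hom χ) := e.bij r1.live
    (fun _ x y _ _ h => (l1 x).symm.trans ((congrArg (fun z : Fin d → _ × (Fin m → _) =>
      (fun a => (z a).1, fun c => (z (finProdFinEquiv.symm c).1).2 (finProdFinEquiv.symm c).2))
      h).trans (l1 y))) fun _ y l => ⟨_, r2.live y l, by simp⟩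
  refine ⟨d, d * m, r, hd, hr, .of_comp_uiso eb.uiso (.of_sub ?_ (h₃.precomp (e.hom χ)))⟩
  rw [Preadditive.sum_comp, Preadditive.comp_sum, ← Finset.sum_sub_distrib]
  refine .sum fun s _ => ?_
  rw [Linear.smul_comp, Linear.comp_smul, ← smul_sub]
  refine .smul _ ?_
  obtain ⟨a, ha⟩ := (aff_prod (S.pi (Fin d)) (Fin (d * m))).acts (χ := χ)
    (finProdFinEquiv.permCongr (s.symm.prodCongr (Equiv.refl _))) (w := fun _ _ _ => 1)
    (c := fun _ _ _ => 0) (fun _ => regF_one) (fun _ => regF_zero)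
    (fun _ _ _ _ => one_ne_zero) (fun _ _ _ _ => rfl) fun _ _ _ _ => rfl
  have key : e.hom χ ≫ ((S.prod ((line k).pi (Fin m))).isMap_perm s).hom χ =
      ((isMap_ps S _ s).hom χ ≫ a.hom χ) ≫ e.hom χ := by
    rw [IsMap.hom_comp (isMap_ps S _ s) a
      ((isMap_ps S _ s).comp a fun _ _ l _ => ⟨fun _ => l.1 _, l.2⟩)
      (fun _ _ l _ => ⟨fun _ => l.1 _, l.2⟩) fun _ _ _ _ => rfl]
    refine IsMap.comm _ _ _ _ (fun _ x l => iff_of_true ⟨r1.live x l, fun _ => r1.live x l _⟩
      ⟨⟨fun _ => l.1 _, fun _ => trivial⟩, fun _ => ⟨l.1 _, fun _ => trivial⟩⟩) fun _ x _ _ _ => ?_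
    simp
  have := ((ha.precomp ((isMap_ps S _ s).hom χ)).comp (e.hom χ)).neg
  rw [key]
  simpa using this

variable (k) in
/-- The projective line without the point at infinity. -/
@[reducible] def pl : Pt k :=
  qp (f := (Empty.elim : Empty → MvPolynomial (Option Unit) k)) (g := fun _ : Unit => X none)
    (fun j => j.elim) fun _ => ⟨1, isHomogeneous_X _ _⟩

theorem atInf_iff {A : Type} [CommRing A] [Algebra k A] {x : Proj f A} :
    x.AtInf ↔ P.OnH (fun _ : Unit => X none) x :=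
  exists_congr fun z => by simp

theorem pl_live {K : Fld k} {x : (pl k).X K} : (pl k).L x ↔ nr none x none ≠ 0 := by
  obtain ⟨o, ho⟩ := exists_nr x
  rw [Ne, ← nr_eq_zero ho]
  change True ∧ ¬ P.OnH _ x ↔ _
  rw [onH_iff (fun _ => ⟨1, isHomogeneous_X _ _⟩) ho]
  simp

theorem pl_surj {K : Fld k} (t : K) : ∃ x : (pl k).X K, nr none x = fun o => o.elim 1 fun _ => t :=
  ⟨Quot.mk _ (ofV (fun o => o.elim 1 fun _ => t) ⟨none, one_ne_zero⟩ fun j => j.elim),
    funext fun _ => div_one _⟩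

theorem pl_eq {K : Fld k} {x : (pl k).X K} (h : (pl k).L x) :
    nr none x = fun o => o.elim 1 fun _ => nr none x (some ()) := funext fun o => by
  cases o
  exacts [nr_one (pl_live.1 h), rfl]

theorem reg_pl : (pl k).Reg (line k) fun _ x => nr none x (some ()) :=
  ⟨fun _ _ _ => trivial, fun _ _ _ _ _ _ b r => R.nr r (pl_live.1 b) _⟩

theorem exists_null {S : Pt k} (h : SS (S.E (Chr.triv k F))) :
    ∃ (d n : ℕ) (r : Equiv.Perm (Fin d) → F), 0 < d ∧ r ≠ 0 ∧
      Null (∑ s, r s • (isMap_ps S ((pl k).pi (Fin n)) s).hom (Chr.triv k F)) := by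
  obtain ⟨m, h⟩ := h
  obtain ⟨d, n, r, hd, hr, h₀⟩ := exists_null_aff (S := S) (.of_eqv
    (Eqv.trans ⟨_, bij_ten⟩ ((Eqv.refl _).ten ⟨_, bij_pow (Fin m)⟩)) h)
  choose p hp using fun (K : Fld k) (t : K) => pl_surj t
  have lp : ∀ (K : Fld k) (t : K), (pl k).L (p K t) := fun K t =>
    pl_live.2 (by rw [hp]; exact one_ne_zero)
  have l1 : ∀ ⦃K : Fld k⦄ (x : (pl k).X K), (pl k).L x → p K (nr none x (some ())) = x :=
    fun K x l => nr_inj (pl_live.1 (lp _ _)) ((hp _ _).trans (pl_eq l).symm)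
  have r1 : ((S.pi (Fin d)).prod ((pl k).pi (Fin n))).Reg
      ((S.pi (Fin d)).prod ((line k).pi (Fin n))) fun _ x =>
      (x.1, fun b => nr none (x.2 b) (some ())) := ⟨fun _ _ l => ⟨l.1, fun _ => trivial⟩,
    fun _ _ φ _ _ a b r => ⟨r.1, fun c => reg_pl.reg φ _ _ (a.2 c) (b.2 c) (r.2 c)⟩⟩
  have r2 : ((S.pi (Fin d)).prod ((line k).pi (Fin n))).Reg
      ((S.pi (Fin d)).prod ((pl k).pi (Fin n))) fun K x => (x.1, fun b => p K (x.2 b)) :=
    ⟨fun _ _ l => ⟨l.1, fun _ => lp _ _⟩, fun _ _ φ _ _ _ _ r => ⟨r.1, fun c =>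
      R.of_nr (fun j => j.elim) (pl_live.1 (lp _ _)) fun o => by
        rw [hp, hp]
        cases o
        exacts [φ.one, r.2 c]⟩⟩
  have e := IsMap.of_inv r1 r2 (fun _ _ _ => rfl) fun _ x l =>
    Prod.ext rfl (funext fun b => l1 _ (l.2 b))
  have eb : Bij (e.hom (Chr.triv k F)) := e.bij r1.live
    (fun _ x y a b h => Prod.ext (Prod.mk.inj h).1 (funext fun c => (l1 _ (a.2 c)).symm.trans
      ((congrArg (p _) (congrFun (Prod.mk.inj h).2 c)).trans (l1 _ (b.2 c)))))
    fun _ y l => ⟨_, r2.live y l, Prod.ext rfl (funext fun c => congrFun (hp _ _) _)⟩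
  refine ⟨d, n, r, hd, hr, .of_comp_uiso eb.uiso ?_⟩
  convert h₀.precomp (e.hom _) using 1
  rw [Preadditive.sum_comp, Preadditive.comp_sum]
  refine Finset.sum_congr rfl fun s _ => ?_
  rw [Linear.smul_comp, Linear.comp_smul]
  exact congrArg _ (IsMap.comm _ _ _ _ (fun _ x l => iff_of_true
    ⟨⟨fun _ => l.1 _, l.2⟩, fun _ => l.1 _, fun _ => trivial⟩
    ⟨r1.live x l, fun _ => l.1 _, fun _ => trivial⟩) fun _ _ _ _ _ => rfl)

namespace Prj
variable {A B : FT k} {K K' : Fld k}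

theorem R_map {φ : Place K K'} {x : A →ₐ[k] K} {x' : A →ₐ[k] K'} (e : ∀ a, φ (x a) (x' a))
    (p : Proj f A) : R φ (p.map x) (p.map x') := by
  induction p using Quot.ind with | _ z => ?_
  exact ⟨z.map x, z.map x', rfl, rfl, fun _ => e _⟩

theorem onH_of_map {y : B →ₐ[k] K} (hy : Injective y) (hg : ∀ j, ∃ d, (g j).IsHomogeneous d)
    {p : Proj f B} (h : P.OnH g (p.map y)) : P.OnH g p := by
  induction p using Quot.ind with | _ z => ?_
  obtain ⟨o, ho⟩ := exists_ne (z.map y)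
  refine ⟨z, fun j => hy ?_, rfl⟩
  rw [map_zero]
  exact congr($(MvPolynomial.comp_aeval z.1 y) (g j)).trans
    ((hom_nr (hg j) ho).1 ((onH_iff hg (x := Quot.mk _ (z.map y)) (o := o)
      (div_ne_zero ho ho)).1 h j))

variable [Fintype σ]

theorem map_inj {y : B →ₐ[k] K} (hy : Injective y) : Injective (Proj.map (f := f) y) := by
  intro p p' e
  induction p using Quot.ind with | _ z => ?_
  induction p' using Quot.ind with | _ z' => ?_
  obtain ⟨u, hu⟩ := mk_eq.1 e
  have k1 : ∀ o, y (z'.1 o) = u * y (z.1 o) := congrFun hu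
  obtain ⟨a, ha⟩ := Bridge.uni z
  obtain ⟨a', ha'⟩ := Bridge.uni z'
  have k2 : y (∑ o, a o * z'.1 o) = u := by
    rw [← mul_one (u : K), ← map_one y, ← ha, map_sum, map_sum, Finset.mul_sum]
    exact Finset.sum_congr rfl fun o _ => by rw [map_mul, map_mul, k1 o, mul_left_comm]
  have k3 : ∀ o, z'.1 o = (∑ o, a o * z'.1 o) * z.1 o := fun o => hy (by rw [map_mul, k2, ← k1])
  have k4 : (∑ o, a o * z'.1 o) * ∑ o, a' o * z.1 o = 1 := by
    rw [Finset.mul_sum, ← ha']
    exact Finset.sum_congr rfl fun o _ => by rw [mul_left_comm, ← k3]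
  exact Quot.sound ⟨Units.mkOfMulEqOne _ _ k4, funext k3⟩

theorem exists_chart (V : ValuationSubring K) (x : Proj f K) :
    ∃ o, nr o x o ≠ 0 ∧ ∀ i, nr o x i ∈ V := by
  induction x using Quot.ind with | _ z => ?_
  obtain ⟨j, hj⟩ := Finite.exists_max fun o => V.valuation (z.1 o)
  obtain ⟨o, ho⟩ := exists_ne z
  have h1 : 0 < V.valuation (z.1 j) := ((Valuation.pos_iff _).2 ho).trans_le (hj o)
  have h2 := (Valuation.pos_iff _).1 h1
  refine ⟨j, div_ne_zero h2 h2, fun i => (V.valuation_le_one_iff _).1 ?_⟩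
  change V.valuation (z.1 i / z.1 j) ≤ 1
  rw [map_div₀]
  exact (div_le_one₀ h1).2 (hj i)

omit [Fintype σ] in
theorem exists_pt (hf : ∀ j, ∃ d, (f j).IsHomogeneous d) {y : B →ₐ[k] K} (hy : Injective y)
    {x : Proj f K} {o : Option σ} (h0 : nr o x o ≠ 0) (h1 : ∀ i, ∃ b, y b = nr o x i) :
    ∃ p : Proj f B, p.map y = x := by
  choose z hz using h1
  refine ⟨Quot.mk _ ⟨z, (Ideal.eq_top_iff_one _).2 (Ideal.subset_span
    ⟨o, hy (by rw [hz, nr_one h0, map_one])⟩), fun j => hy ?_⟩, Eq.trans ?_ (mk_nr hf h0).symm⟩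
  · refine congr($(MvPolynomial.comp_aeval z y) (f j)).trans ?_
    rw [funext hz, root_nr hf h0, map_zero]
  · exact congrArg _ (Subtype.ext (funext hz))

end Prj

variable [Fintype σ] (hf : ∀ j, ∃ d, (f j).IsHomogeneous d) (hg : ∀ j, ∃ d, (g j).IsHomogeneous d)
  (N m : ℕ)

/-- The points of the product. -/
@[reducible] def qq : Pt k := ((qp hf hg).pi (Fin N)).prod ((pl k).pi (Fin m))

variable {N m} {A B : FT k} {K K' : Fld k}

/-- The geometric point. -/
def tp (x : A →ₐ[k] K) (p : P.Pts f N m A) : (qq hf hg N m).X K :=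
  (fun i => (p.down.1 i).map x, fun i => (p.down.2 i).map x)

omit [CharZero F] in
theorem tp_sec (hχ : χ.ψ = 1) (p : P.Pts f N m A) :
    (fun _ x => (qq hf hg N m).cl F (tp hf hg x p)) ∈ secs ((qq hf hg N m).E χ) A := by
  intro K K' φ x x' e
  have r : (qq hf hg N m).R φ (tp hf hg x p) (tp hf hg x' p) :=
    ⟨fun _ => R_map e _, fun _ => R_map e _⟩
  beta_reduce
  by_cases h : (qq hf hg N m).L (tp hf hg x' p)
  · have h' : (qq hf hg N m).L (tp hf hg x p) :=
      ⟨fun i => ⟨trivial, fun c => (h.1 i).2 (closed_onH hf hg φ _ _ trivial trivial (r.1 i) c)⟩,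
        fun i => ⟨trivial, fun c => (h.2 i).2 (closed_onH (fun j => j.elim)
          (fun _ => ⟨1, isHomogeneous_X _ _⟩) φ _ _ trivial trivial (r.2 i) c)⟩⟩
    rw [map_cl (.of_R h' h r), rat_cf hχ (Pt.reg _ φ _ _ h' h r) (Pt.ne _ _ h), one_smul]
  · rw [cl_dead h]
    refine map_cl_Dd fun _ y l r' => h ?_
    rwa [show tp hf hg x' p = y from Prod.ext (funext fun i => (r.1 i).func (r'.1 i))
      (funext fun i => (r.2 i).func (r'.2 i))]

theorem tp_dead {x : A →ₐ[k] K} {p : P.Pts f N m A}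
    (h : (∃ i, P.OnH g (p.down.1 i)) ∨ ∃ i, (p.down.2 i).AtInf) :
    ¬ (qq hf hg N m).L (tp hf hg x p) := fun l =>
  h.elim (fun ⟨i, h⟩ => (l.1 i).2 (h.push x)) fun ⟨i, h⟩ => (l.2 i).2 ((atInf_iff.1 h).push x)

variable (N m) in
/-- The comparison map. -/
theorem exists_cmpP (χ : Chr k F) (hχ : χ.ψ = 1) :
    ∃ u : P.QMc f g N m ⟶ (toPsh k F).obj ((qq hf hg N m).E χ),
      ∀ (A : FT k) (p : P.Pts f N m A) (K : Fld k) (x : A →ₐ[k] K),
        (u.app A (Submodule.Quotient.mk (Finsupp.single p 1)) :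
          secs ((qq hf hg N m).E χ) A).1 K x = (qq hf hg N m).cl F (tp hf hg x p) := by
  let c (A : FT k) (p : P.Pts f N m A) : ((toPsh k F).obj ((qq hf hg N m).E χ)).obj A :=
    (⟨_, tp_sec hf hg hχ p⟩ : secs _ A)
  let l (A : FT k) := (P.edge f g N m A).liftQ (Finsupp.linearCombination ℚ (c A)) (by
    refine Submodule.span_le.2 ?_
    rintro _ ⟨p, hp, rfl⟩
    refine (Finsupp.linearCombination_single ..).trans ((one_smul ..).trans ?_)
    exact Subtype.ext (funext fun K => funext fun x => cl_dead (tp_dead hf hg hp)))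
  have hl (A : FT k) (p : P.Pts f N m A) :
      l A (Submodule.Quotient.mk (Finsupp.single p 1)) = c A p :=
    (Finsupp.linearCombination_single ..).trans (one_smul ..)
  refine ⟨⟨fun A => (ModuleCat.ofHom (l A) :), fun A B h => ?_⟩, fun A z K x =>
    congrArg (fun s : secs _ A => s.1 K x) (hl A _)⟩
  refine ModuleCat.hom_ext (Submodule.linearMap_qext _ (Finsupp.lhom_ext' fun p =>
    LinearMap.ext_ring ?_))
  change l B (Submodule.Quotient.mk (Finsupp.mapDomain _ (Finsupp.single p 1))) =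
    ((toPsh k F).obj _).map h (l A (Submodule.Quotient.mk (Finsupp.single p 1)))
  rw [Finsupp.mapDomain_single, hl, hl]
  exact Subtype.ext (funext fun K => funext fun x => congrArg ((qq hf hg N m).cl F)
    (Prod.ext (funext fun _ => P.map_map _ _ _) (funext fun _ => P.map_map _ _ _)))

/-- A left inverse over a ring that embeds in the field. -/
theorem exists_invP {y : B →ₐ[k] K} (hy : Injective y) :
    ∃ r : ((qq hf hg N m).Live K →₀ ℚ) →ₗ[ℚ] (P.Pts f N m B →₀ ℚ) ⧸ P.edge f g N m B,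
      ∀ p, r ((qq hf hg N m).cl ℚ (tp hf hg y p)) =
        Submodule.Quotient.mk (Finsupp.single p 1) := by
  classical
  refine ⟨Finsupp.linearCombination ℚ fun w => if h : ∃ p : P.Pts f N m B, tp hf hg y p = w.1 then
    Submodule.Quotient.mk (Finsupp.single h.choose 1) else 0, fun p => ?_⟩
  by_cases h : (qq hf hg N m).L (tp hf hg y p)
  · have h1 : ∃ q : P.Pts f N m B, tp hf hg y q = tp hf hg y p := ⟨p, rfl⟩
    rw [cl_live _ ⟨_, h⟩, Finsupp.linearCombination_single, one_smul, dif_pos h1,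
      show h1.choose = p from ULift.ext _ _ (Prod.ext
        (funext fun i => map_inj hy (congrFun (Prod.mk.inj h1.choose_spec).1 i))
        (funext fun i => map_inj hy (congrFun (Prod.mk.inj h1.choose_spec).2 i)))]
  · rw [cl_dead h, map_zero, eq_comm, Submodule.Quotient.mk_eq_zero]
    refine Submodule.subset_span ⟨p, by_contra fun e => h ⟨fun i => ⟨trivial, fun c => e (.inl
      ⟨i, onH_of_map hy hg c⟩)⟩, fun i => ⟨trivial, fun c => e (.inr ⟨i, atInf_iff.2
        (onH_of_map hy (fun _ => ⟨1, isHomogeneous_X _ _⟩) c)⟩)⟩⟩, rfl⟩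

theorem hiso_cmpP (χ : Chr k ℚ) (u : P.QMc f g N m ⟶ (toPsh k ℚ).obj ((qq hf hg N m).E χ))
    (hu : ∀ (A : FT k) (p : P.Pts f N m A) (K : Fld k) (x : A →ₐ[k] K),
      (u.app A (Submodule.Quotient.mk (Finsupp.single p 1)) :
        secs ((qq hf hg N m).E χ) A).1 K x = (qq hf hg N m).cl ℚ (tp hf hg x p)) : HIso u := by
  classical
  intro K₀ _ _ _ V A x hx
  let K : Fld k := ⟨K₀⟩
  let e (B : FT k) (y : B →ₐ[k] K) : ((P.Pts f N m B →₀ ℚ) ⧸ P.edge f g N m B) →ₗ[ℚ]
      (qq hf hg N m).Live K →₀ ℚ := AddMonoidHom.toRatLinearMap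
    { toFun s := (u.app B s : secs ((qq hf hg N m).E χ) B).1 K y
      map_zero' := congrArg (fun s : secs _ B => s.1 K y) (map_zero (u.app B).hom)
      map_add' s t := congrArg (fun s : secs _ B => s.1 K y) (map_add (u.app B).hom s t) }
  refine ⟨fun s hs => ?_, fun t => ?_⟩
  · obtain ⟨B, h, y, h1, h2, h3, -⟩ := exists_adjoin (K := K) V x hx ∅ (by simp)
    obtain ⟨r, hr⟩ := exists_invP hf hg (N := N) (m := m) h1
    have h4 : r ∘ₗ e B y = LinearMap.id := Submodule.linearMap_qext _ (Finsupp.lhom_ext' fun p =>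
      LinearMap.ext_ring ((congrArg r (hu B p K y)).trans (hr p)))
    refine ⟨B, h, y, h2, h3, (LinearMap.congr_fun h4 _).symm.trans ?_⟩
    have h5 : u.app B ((P.QMc f g N m).map h s) = 0 := by
      rw [NatTrans.naturality_apply, hs, map_zero]
    exact (congrArg r (congrArg (fun s : secs _ B => s.1 K y) h5)).trans (map_zero r)
  · let v := (t : secs ((qq hf hg N m).E χ) A).1 K x
    choose c c0 c1 using exists_chart (f := f) (K := K) V
    choose d d0 d1 using
      exists_chart (f := (Empty.elim : Empty → MvPolynomial (Option Unit) k)) (K := K) V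
    obtain ⟨B, h, y, h1, h2, h3, h4⟩ := exists_adjoin (K := K) V x hx
      (((v.support ×ˢ Finset.univ).image fun q : _ × Fin N × Option σ =>
        nr (c (q.1.1.1 q.2.1)) (q.1.1.1 q.2.1) q.2.2) ∪
        (v.support ×ˢ Finset.univ).image fun q : _ × Fin m × Option Unit =>
          nr (d (q.1.1.2 q.2.1)) (q.1.1.2 q.2.1) q.2.2) (by
      intro s hs
      rcases Finset.mem_union.1 hs with hs | hs <;> obtain ⟨q, -, rfl⟩ := Finset.mem_image.1 hs
      exacts [c1 _ _, d1 _ _])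
    obtain ⟨s, hs⟩ : v ∈ LinearMap.range (e B y) := by
      rw [← Finsupp.sum_single v]
      refine Submodule.sum_mem _ fun w hw => ?_
      rw [← Finsupp.smul_single_one, ← cl_live]
      choose p hp using fun i => exists_pt hf h1 (c0 (w.1.1 i)) fun o => h4 _
        (Finset.mem_union_left _ (Finset.mem_image.2
          ⟨(w, i, o), Finset.mem_product.2 ⟨hw, Finset.mem_univ _⟩, rfl⟩))
      choose q hq using fun i => exists_pt (fun j => j.elim) h1 (d0 (w.1.2 i)) fun o => h4 _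
        (Finset.mem_union_right _ (Finset.mem_image.2
          ⟨(w, i, o), Finset.mem_product.2 ⟨hw, Finset.mem_univ _⟩, rfl⟩))
      exact Submodule.smul_mem _ _ ⟨_, (hu B ⟨(p, q)⟩ K y).trans
        (congrArg _ (Prod.ext (funext hp) (funext hq)))⟩
    subst h3
    exact ⟨B, h, y, s, h2, rfl, sub_eq_zero.1 (secs_eq_zero y h1 _ (sub_eq_zero.2 hs))⟩

theorem schurFinite_of_qp (h : SS ((qp hf hg).E (Chr.triv k F))) : P.TwFinite f g := by
  classical
  obtain ⟨d, n, r, hd, hr, h₀⟩ := exists_null h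
  let χ := Chr.triv k F
  let ps (s : Equiv.Perm (Fin d)) := (isMap_ps (qp hf hg) ((pl k).pi (Fin n)) s).hom χ
  let I : Submodule F (Equiv.Perm (Fin d) → F) :=
    (nullSub _ _).comap (Fintype.linearCombination F ps)
  have hI (r : Equiv.Perm (Fin d) → F) : r ∈ I ↔ Null (∑ s, r s • ps s) := Iff.rfl
  obtain ⟨l, e, he, r₁, hr₁, hl⟩ := exists_block_of_sub I (fun r hr t => by
      have := ((hI r).1 hr).comp (ps t⁻¹)
      rw [Preadditive.sum_comp, ← Equiv.sum_comp (Equiv.mulLeft t)] at this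
      simpa only [hI, ps, Linear.smul_comp, ps_mul, Equiv.coe_mulLeft, inv_mul_cancel_left]
        using this) (fun r hr t => by
      have := ((hI r).1 hr).precomp (ps t⁻¹)
      rw [Preadditive.comp_sum, ← Equiv.sum_comp (Equiv.mulRight t)] at this
      simpa only [hI, ps, Linear.comp_smul, ps_mul, Equiv.coe_mulRight, mul_inv_cancel_right]
        using this) ((hI r).2 h₀) hr
  obtain ⟨Θ, hΘ⟩ := exists_theory k F
  have h₄ : (toVerdier (Gen k)).map _ = 0 := hΘ _ ((hI r₁).1 hr₁ Θ)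
  obtain ⟨u, hu⟩ := exists_cmpP hf hg d n χ rfl
  obtain ⟨u₀, hu₀⟩ := exists_cmpP hf hg d n (Chr.triv k ℚ) rfl
  obtain ⟨c, hc⟩ := exists_coef χ rfl (Chr.triv k ℚ) rfl (qq hf hg d n) l
  have key : (∑ s, e.coeff s • P.qperm f g n s) ≫ u₀ =
      u ≫ (toPsh k F).map (∑ s, r₁ s • ps s) ≫ c := by
    rw [Preadditive.sum_comp]
    refine NatTrans.ext (funext fun A => ModuleCat.hom_ext (Submodule.linearMap_qext _
      (Finsupp.lhom_ext' fun p => LinearMap.ext_ring (Subtype.ext (funext fun K =>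
        funext fun x => ?_)))))
    let ev : ((toPsh k ℚ).obj ((qq hf hg d n).E (Chr.triv k ℚ))).obj A →ₗ[ℚ]
        ((qq hf hg d n).Live K →₀ ℚ) := AddMonoidHom.toRatLinearMap
      { toFun s := (s : secs ((qq hf hg d n).E (Chr.triv k ℚ)) A).1 K x
        map_zero' := rfl
        map_add' _ _ := rfl }
    have e1 (s : Equiv.Perm (Fin d)) : ev (((P.qperm f g n s ≫ u₀).app A).hom
        (Submodule.Quotient.mk (Finsupp.single p 1))) = _ :=
      (congrArg (fun v => ev (u₀.app A (Submodule.Quotient.mk v)))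
        Finsupp.mapDomain_single).trans (hu₀ A _ K x)
    refine Eq.trans (b := ∑ s, e.coeff s • ev (((P.qperm f g n s ≫ u₀).app A).hom
      (Submodule.Quotient.mk (Finsupp.single p 1)))) ?_ (Eq.trans ?_ (hc A _ K x).symm)
    · change ev (((∑ s, (e.coeff s • P.qperm f g n s) ≫ u₀).app A).hom
        (Submodule.Quotient.mk (Finsupp.single p 1))) = _
      rw [NatTrans.app_sum, ModuleCat.hom_sum, LinearMap.sum_apply, map_sum]
      refine Finset.sum_congr rfl fun s _ => ?_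
      rw [Linear.smul_comp, NatTrans.app_smul, ModuleCat.hom_smul, LinearMap.smul_apply, map_smul]
    · change _ = Finsupp.mapRange.addMonoidHom l.toAddMonoidHom
        ((∑ s, r₁ s • ps s).1 K ((u.app A (Submodule.Quotient.mk
          (Finsupp.single p 1)) : secs ((qq hf hg d n).E χ) A).1 K x))
      rw [hu, sum_app, LinearMap.sum_apply, map_sum]
      refine Finset.sum_congr rfl fun s _ => ?_
      rw [e1, smul_app, LinearMap.smul_apply, ← hl, ps_cl]
      simp only [tp, Proj.map_id]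
      exact (rat_cl _ l _ _).symm
  refine ⟨d, n, e, hd, he, ?_⟩
  have := Gen.isIso (Gen.loc u₀ (hiso_cmpP hf hg _ u₀ hu₀))
  rw [Vanishes, ← cancel_mono ((toVerdier (Gen k)).map u₀), ← Functor.map_comp, key,
    Functor.map_comp, Functor.map_comp, h₄, zero_comp, comp_zero, zero_comp]

end

end Pool.Agent.Lib.MP_fc2ced_ag.T
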