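import Pool.Agent.Lib.MP_fc2ced_ag.T.Van

/-! Several equations are replaced by one equation with multipliers. -/

open CategoryTheory Function

namespace Pool.Agent.Lib.MP_fc2ced_ag.T

open K

noncomputable section

variable {k : Type} [Field k] {F : Type} [Field F] {χ : Chr k F}

section Fix
variable {G : Type} [Fintype G] {K : Type} [Field K]

open Classical in
/-- The multiplier `g₀` is corrected so that the combination vanishes. -/
def radFix (g₀ : G) (a : K) (b μ : G → K) : G → K :=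
  fun g => μ g - if g = g₀ then (a + ∑ g, μ g * b g) / b g₀ else 0

theorem radFix_sum (g₀ : G) (a : K) (b μ b' : G → K) :
    ∑ g, radFix g₀ a b μ g * b' g = ∑ g, μ g * b' g - (a + ∑ g, μ g * b g) / b g₀ * b' g₀ := by
  classical
  simp [radFix, sub_mul, Finset.sum_sub_distrib]

theorem radFix_eq {g₀ : G} (a : K) {b : G → K} (μ : G → K) (hb : b g₀ ≠ 0) :
    a + ∑ g, radFix g₀ a b μ g * b g = 0 := by
  rw [radFix_sum, div_mul_cancel₀ _ hb]; ring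

theorem radFix_self (g₀ : G) {a : K} {b μ : G → K} (e : a + ∑ g, μ g * b g = 0) :
    radFix g₀ a b μ = μ := funext fun g => by simp [radFix, e]

theorem radFix_fix {g₀ : G} {a : K} {b μ : G → K} (e : a + ∑ g, μ g * b g = 0) (hb : b g₀ ≠ 0)
    (a' : K) (b' : G → K) : radFix g₀ a b (radFix g₀ a' b' μ) = μ := funext fun g => by
  rw [radFix, radFix_sum, ← add_sub_assoc, e, zero_sub, neg_div, mul_div_cancel_right₀ _ hb,
    radFix]
  split_ifs <;> ring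

theorem radFix_rel {K K' : Fld k} {φ : Place K K'} {g₀ : G} {a : K} {b μ : G → K} {a' : K'}
    {b' μ' : G → K'} (ha : φ a a') (hb : ∀ g, φ (b g) (b' g)) (hμ : ∀ g, φ (μ g) (μ' g))
    (h0 : b' g₀ ≠ 0) (g : G) : φ (radFix g₀ a b μ g) (radFix g₀ a' b' μ' g) := by
  refine (hμ g).sub ?_
  split_ifs
  · exact (ha.add (Place.sum fun g _ => (hμ g).mul (hb g))).div (hb g₀) h0
  · exact φ.zero

end Fix

namespace Pt

variable {S : Pt k} {G : Type}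

/-- The identity from `A` to `C` if the intersection is open in `A` and closed in `C`. -/
theorem isMap_sub {A C : S.Cond} (hA : S.Conv A) (hC : S.Conv C)
    (op : ∀ ⦃K K'⦄ (φ : Place K K') (x : S.X K) (y : S.X K'), S.L x → S.L y → S.R φ x y →
      A x → A y → C y → C x)
    (cl : ∀ ⦃K K'⦄ (φ : Place K K') (x : S.X K) (y : S.X K'), S.L x → S.L y → S.R φ x y →
      A x → C x → C y → A y) : IsMap (S.restr A hA) (S.restr C hC) fun _ x => x :=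
  .of_open (fun _ _ φ x y a b r c => ⟨a.1, op φ x y a.1 b.1 r a.2 b.2 c.2⟩)
    (.of_proper ⟨fun _ _ a => a.2, fun _ _ _ _ _ _ _ r => r⟩ (fun _ _ _ => rfl)
      fun _ _ φ x z a b r => ⟨z, ⟨⟨b.1, cl φ x z a.1.1 b.1 r a.1.2 a.2.2 b.2⟩, b⟩, r⟩)

theorem conv_pat {Z : G → S.Cond} (hZ : ∀ g, S.Closed (Z g)) (s : Finset G) (A : Set G) :
    S.Conv fun _ x => ∀ g ∉ s, (Z g x ↔ g ∈ A) := fun _ _ _ φ φ' x y z a b c d e h1 h2 g hg =>
  ⟨fun l => (h2 g hg).1 (hZ g φ' y z b c e l), fun l => hZ g φ x y a b d ((h1 g hg).2 l)⟩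

theorem conv_pattern {Z : G → S.Cond} (hZ : ∀ g, S.Closed (Z g)) (A : Set G) :
    S.Conv fun _ x => ∀ g, Z g x ↔ g ∈ A := fun _ _ _ φ φ' x y z a b c d e h1 h2 g =>
  ⟨fun l => (h2 g).1 (hZ g φ' y z b c e l), fun l => hZ g φ x y a b d ((h1 g).2 l)⟩

/-- A variety is negligible if all the strata given by finitely many closed subsets are. -/
theorem uzero_of_patterns [Finite G] {Z : G → S.Cond} (hZ : ∀ g, S.Closed (Z g))
    (h : ∀ A : Set G, UZero ((S.restr _ (conv_pattern hZ A)).E χ)) : UZero (S.E χ) := by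
  classical
  have := Fintype.ofFinite G
  have key : ∀ (s : Finset G) (A : Set G), UZero ((S.restr _ (conv_pat hZ s A)).E χ) := fun s => by
    induction s using Finset.induction_on with
    | empty =>
      intro A
      refine uzero_of_closed (T := fun _ _ => True) (fun _ _ _ _ _ _ _ _ h => h)
        (uzero_restr (conv_pattern hZ A) (fun _ x _ => ?_) (h A))
        (uzero_empty fun _ _ h => h.2 trivial)
      simp
    | insert g₀ s h0 ih =>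
      intro A
      refine uzero_of_closed (S := S.restr _ (conv_pat hZ _ A)) ((reg_restr _).closed (hZ g₀))
        (uzero_restr (conv_pat hZ s (insert g₀ A)) (fun _ x _ => ?_) (ih _))
        (uzero_restr (conv_pat hZ s (A \ {g₀})) (fun _ x _ => ?_) (ih _))
      · refine ⟨fun l => ⟨fun g hg => ?_, (l g₀ h0).2 (by simp)⟩, fun l g hg => ?_⟩
        · rw [Finset.mem_insert, not_or] at hg
          rw [l g hg.2, Set.mem_insert_iff, or_iff_right hg.1]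
        · by_cases e : g = g₀
          · exact iff_of_true (e ▸ l.2) (by simp [e])
          · rw [l.1 g (by simp [e, hg]), Set.mem_insert_iff, or_iff_right e]
      · refine ⟨fun l => ⟨fun g hg => ?_, fun m => ((l g₀ h0).1 m).2 rfl⟩, fun l g hg => ?_⟩
        · rw [Finset.mem_insert, not_or] at hg
          rw [l g hg.2, Set.mem_sdiff_singleton, and_iff_left hg.1]
        · by_cases e : g = g₀
          · exact iff_of_false (e ▸ l.2) (by simp [e])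
          · rw [l.1 g (by simp [e, hg]), Set.mem_sdiff_singleton, and_iff_left e]
  exact uzero_of_closed (T := fun _ x => ∀ g ∉ Finset.univ, (Z g x ↔ g ∈ (∅ : Set G)))
    (fun _ _ _ _ _ _ _ _ _ g hg => absurd (Finset.mem_univ g) hg) (key _ _)
    (uzero_empty fun _ _ h => h.2 fun g hg => absurd (Finset.mem_univ g) hg)

variable [Fintype G] {ρ₀ : ∀ ⦃K : Fld k⦄, S.X K → K} {ρ : G → ∀ ⦃K : Fld k⦄, S.X K → K}
  (h₀ : S.RegF ρ₀) (h : ∀ g, S.RegF (ρ g))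
include h₀ h

theorem rad_closedW : (S.prod ((line k).pi G)).Closed fun _ x =>
    ρ₀ x.1 + ∑ g, x.2 g * ρ g x.1 = 0 := fun _ _ φ _ _ a b r e =>
  ((h₀ φ _ _ a.1 b.1 r.1).add (Place.sum fun g _ => (r.2 g).mul (h g φ _ _ a.1 b.1 r.1))).eq_of
    φ.zero e

theorem rad_closedR : (S.prod ((line k).pi G)).Closed fun _ x =>
    ρ₀ x.1 = 0 ∧ ∀ g, ρ g x.1 = 0 := fun _ _ φ _ _ a b r e =>
  ⟨(h₀ φ _ _ a.1 b.1 r.1).eq_of φ.zero e.1,
    fun g => (h g φ _ _ a.1 b.1 r.1).eq_of φ.zero (e.2 g)⟩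

omit h₀ h in
theorem rad_open (B : Set G) : (S.prod ((line k).pi G)).Open fun _ x => ∀ g ∈ B, x.2 g ≠ 0 :=
  fun _ _ _ _ _ _ _ r e g hg => (r.2 g).ne_zero (e g hg)

/-- All the equations hold and the multipliers are free. -/
@[reducible] def radR : Pt k := (S.prod ((line k).pi G)).restr _ (rad_closedR h₀ h).conv

/-- The combination of the equations holds, and the multipliers in `B` are invertible. -/
@[reducible] def radW (B : Set G) : Pt k :=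
  (S.prod ((line k).pi G)).restr _ ((rad_closedW h₀ h).conv.and (rad_open B).conv)

theorem isMap_rad (B : Set G) : IsMap (radR h₀ h) (radW h₀ h B) fun _ x => x :=
  isMap_sub _ _ (fun _ _ φ x y a b r c _ d => ⟨by simp [c.1, c.2], rad_open B φ x y a b r d.2⟩)
    fun _ _ φ x y a b r c _ _ => rad_closedR h₀ h φ x y a b r c

theorem isMap_radW (B : Set G) : IsMap (radW h₀ h ∅) (radW h₀ h B) fun _ x => x :=
  isMap_sub _ _ (fun _ _ φ x y a b r c _ d => ⟨c.1, rad_open B φ x y a b r d.2⟩)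
    fun _ _ _ _ _ _ _ _ _ _ d => ⟨d.1, fun _ hg => hg.elim⟩

theorem rad_comp (B : Set G) :
    (isMap_rad h₀ h ∅).hom χ ≫ (isMap_radW h₀ h B).hom χ = (isMap_rad h₀ h B).hom χ :=
  IsMap.hom_comp _ _ _ (fun _ _ _ d => ⟨d.1, d.2.1, fun _ hg => hg.elim⟩) fun _ _ _ _ => rfl

theorem uiso_rad_empty {t : ℤ} (ht : χ.ψ t ≠ 1) {τ : ∀ ⦃K : Fld k⦄, K → S.X K → S.X K}
    (hτ : S.Flow t τ) (z : ∀ ⦃K : Fld k⦄ (r : K) (x : S.X K), r ≠ 0 → S.L x → ∀ g,
      (ρ g (τ r x) = 0 ↔ ρ g x = 0)) : UIso ((isMap_rad h₀ h ∅).hom χ) := by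
  have cl : (radW h₀ h ∅).Closed fun _ x => ρ₀ x.1 = 0 ∧ ∀ g, ρ g x.1 = 0 :=
    (reg_restr _).closed (rad_closedR h₀ h)
  refine (ses (isMap_rad h₀ h ∅) (isMap_open cl.not)
    (fun _ x a => ⟨a.1, by simp [a.2.1, a.2.2], fun _ hg => hg.elim⟩) (fun _ _ _ _ _ e => e)
    (fun _ y hy => ⟨fun l => ⟨y, ⟨hy.1, not_not.1 fun m => l ⟨hy, m⟩⟩, rfl⟩,
      fun ⟨_, l, e⟩ m => m.2 (e ▸ l.2)⟩) (fun _ _ _ _ _ _ e => e)
    fun _ y hy => ⟨y, hy.1, rfl⟩).uzero₃_iff.1 ?_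
  refine uzero_of_patterns (Z := fun g _ x => ρ g x.1 = 0)
    (fun g _ _ φ x y a b r e => (h g φ _ _ a.1.1.1 b.1.1.1 r.1).eq_of φ.zero e) fun A => ?_
  by_cases hA : ∀ g, g ∈ A
  · refine uzero_empty fun _ x a => a.1.2 ⟨?_, fun g => (a.2 g).2 (hA g)⟩
    simpa [fun g => (a.2 g).2 (hA g)] using a.1.1.2.1
  obtain ⟨g₀, h0⟩ := not_forall.1 hA
  refine Flow.uzero ht (τ := fun _ r x =>
    (τ r x.1, radFix g₀ (ρ₀ (τ r x.1)) (fun g => ρ g (τ r x.1)) x.2))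
    ⟨fun _ r x hr a => ?_, fun _ x a => ?_, fun _ r x hr a => ?_, fun _ r x hr a => ?_,
      fun _ _ φ r r' x y hr n a b c => ?_⟩
  · have p := fun g => (z r x.1 hr a.1.1.1.1 g).trans (a.2 g)
    exact ⟨⟨⟨⟨hτ.live r _ hr a.1.1.1.1, fun _ => trivial⟩,
      radFix_eq _ _ fun e => h0 ((p g₀).1 e), fun _ hg => hg.elim⟩,
      fun l => h0 ((p g₀).1 (l.2 g₀))⟩, p⟩
  · rw [hτ.one _ a.1.1.1.1, radFix_self _ a.1.1.2.1]
  · dsimp only
    rw [hτ.inv r _ hr a.1.1.1.1, radFix_fix a.1.1.2.1 fun e => h0 ((a.2 g₀).1 e)]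
  · dsimp only
    rw [hτ.f r _ hr a.1.1.1.1, mul_right_comm]
  · have a' := hτ.live r _ (hr.ne_zero n) a.1.1.1.1
    have b' := hτ.live r' _ n b.1.1.1.1
    have c' := hτ.reg φ r r' _ _ hr n a.1.1.1.1 b.1.1.1.1 c.1
    exact ⟨c', radFix_rel (h₀ φ _ _ a' b' c') (fun g => h g φ _ _ a' b' c') c.2
      fun e => h0 ((b.2 g₀).1 ((z r' y.1 n b.1.1.1.1 g₀).1 e))⟩

theorem uiso_radW (B : Set G) (H : ∀ g ∈ B, ∃ (t : ℤ) (τ : ∀ ⦃K : Fld k⦄, K → S.X K → S.X K),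
    χ.ψ t ≠ 1 ∧ S.Flow t τ ∧ ∀ ⦃K : Fld k⦄ (r : K) (x : S.X K), r ≠ 0 → S.L x →
      ρ₀ (τ r x) = ρ₀ x ∧ ∀ g', g' ≠ g → ρ g' (τ r x) = ρ g' x) :
    UIso ((isMap_radW h₀ h B).hom χ) := by
  refine (isMap_radW h₀ h B).uiso
    (Open.not fun _ _ φ x y a b r c => ⟨a.1, a.2.1, rad_open B φ x y a.1 b.1 r c.2.2⟩) ?_
    (fun _ _ _ _ _ _ e => e) fun _ y hy => ⟨y, ⟨hy.1, hy.2.1, fun _ hg => hg.elim⟩, rfl⟩
  refine uzero_of_patterns (Z := fun g _ x => x.2 g = 0)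
    (fun g _ _ φ x y _ _ r e => (r.2 g).eq_of φ.zero e) fun A => ?_
  by_cases hA : ∃ g ∈ B, g ∈ A
  · obtain ⟨g, hB, hA⟩ := hA
    obtain ⟨t, τ, ht, hτ, z⟩ := H g hB
    refine Flow.uzero ht (τ := fun _ r x => (τ r x.1, x.2))
      ⟨fun _ r x hr a => ?_, fun _ x a => ?_, fun _ r x hr a => ?_, fun _ r x hr a => ?_,
        fun _ _ φ r r' x y hr n a b c => ⟨hτ.reg φ r r' _ _ hr n a.1.1.1.1 b.1.1.1.1 c.1, c.2⟩⟩
    · obtain ⟨e, e'⟩ := z r x.1 hr a.1.1.1.1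
      refine ⟨⟨⟨⟨hτ.live r _ hr a.1.1.1.1, fun _ => trivial⟩, ?_, fun _ hg => hg.elim⟩,
        fun l => l.2.2 g hB ((a.2 g).2 hA)⟩, a.2⟩
      refine (congrArg₂ (· + ·) e (Finset.sum_congr rfl fun g' _ => ?_)).trans a.1.1.2.1
      by_cases l : g' = g
      · rw [l, (a.2 g).2 hA, zero_mul, zero_mul]
      · rw [e' g' l]
    · rw [hτ.one _ a.1.1.1.1]
    · dsimp only
      rw [hτ.inv r _ hr a.1.1.1.1]
    · dsimp only
      rw [hτ.f r _ hr a.1.1.1.1, mul_right_comm]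
  · exact uzero_empty fun _ x a => a.1.2 ⟨a.1.1.1, a.1.1.2.1,
      fun g hg e => hA ⟨g, hg, (a.2 g).1 e⟩⟩

theorem uiso_rad {t : ℤ} (ht : χ.ψ t ≠ 1) {τ : ∀ ⦃K : Fld k⦄, K → S.X K → S.X K}
    (hτ : S.Flow t τ) (z : ∀ ⦃K : Fld k⦄ (r : K) (x : S.X K), r ≠ 0 → S.L x → ∀ g,
      (ρ g (τ r x) = 0 ↔ ρ g x = 0)) (B : Set G)
    (H : ∀ g ∈ B, ∃ (t : ℤ) (τ : ∀ ⦃K : Fld k⦄, K → S.X K → S.X K),
      χ.ψ t ≠ 1 ∧ S.Flow t τ ∧ ∀ ⦃K : Fld k⦄ (r : K) (x : S.X K), r ≠ 0 → S.L x →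
        ρ₀ (τ r x) = ρ₀ x ∧ ∀ g', g' ≠ g → ρ g' (τ r x) = ρ g' x) :
    UIso ((isMap_rad h₀ h B).hom χ) :=
  rad_comp (χ := χ) h₀ h B ▸ (uiso_rad_empty h₀ h ht hτ z).comp (uiso_radW h₀ h B H)

end Pt

end

end Pool.Agent.Lib.MP_fc2ced_ag.T
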