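import Pool.Agent.Lib.MP_fc2ced_ag.T.PV

/-! Varieties with polynomials times a fixed variety. -/

open CategoryTheory Function Polynomial

namespace Pool.Agent.Lib.MP_fc2ced_ag.T

open K

noncomputable section

variable {k : Type} [Field k] {F : Type} [Field F] {χ : Chr k F}

open Pt

/-- The product with a variety that does not change the polynomials. -/
@[reducible] def PV.tw (V : PV k) (W : Pt k) : PV k where
  S := V.S.prod W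
  c _ x := V.c x.1
  hc m _ _ φ _ _ a b r := V.hc m φ _ _ a.1 b.1 r.1

variable {P W : Pt k} {V V' : PV k} {J : Set ℕ} {e : ∀ ⦃K⦄, V.S.X K → V'.S.X K}

/-- The second factor becomes a parameter. -/
def PC.tw (T : PC P) (W : Pt k) : PC (W.prod P) where
  T _ c y := T.T c y.2
  conv _ _ _ φ φ' _ _ _ _ _ _ a b c h h' r r' :=
    T.conv φ φ' _ _ _ _ _ _ a.2 b.2 c.2 h h' r.2 r'.2

theorem PC.Dep.tw {T : PC P} (h : T.Dep J) (W : Pt k) : (T.tw W).Dep J :=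
  fun _ c c' p e => h c c' p.2 e

theorem PMap.tw (h : PMap V V' J e) (W : Pt k) :
    PMap (V.tw W) (V'.tw W) J fun _ x => (e x.1, x.2) :=
  ⟨h.map.prod isMap_id, fun _ x a b => h.c x.1 a.1 b.1⟩

theorem isMap_tw (V : PV k) (W : Pt k) (T : PC P) :
    IsMap ((V.tw W).over T) (V.over (T.tw W)) fun _ x => (x.1.1, x.1.2, x.2) :=
  .of_inv (g := fun _ x => ((x.1, x.2.1), x.2.2))
    ⟨fun _ _ h => ⟨⟨h.1.1.1, h.1.1.2, h.1.2⟩, h.2⟩, fun _ _ _ _ _ _ _ r => ⟨r.1.1, r.1.2, r.2⟩⟩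
    ⟨fun _ _ h => ⟨⟨⟨h.1.1, h.1.2.1⟩, h.1.2.2⟩, h.2⟩,
      fun _ _ _ _ _ _ _ r => ⟨⟨r.1, r.2.1⟩, r.2.2⟩⟩
    (fun _ _ _ => (mul_assoc _ _ _).symm) fun _ _ _ => rfl

theorem bij_tw (V : PV k) (W : Pt k) (T : PC P) : Bij ((isMap_tw V W T).hom χ) :=
  IsMap.bij _ (fun _ _ h => ⟨⟨h.1.1.1, h.1.1.2, h.1.2⟩, h.2⟩)
    (fun _ _ _ _ _ h => Prod.ext (Prod.ext (Prod.mk.inj h).1 (Prod.mk.inj (Prod.mk.inj h).2).1)
      (Prod.mk.inj (Prod.mk.inj h).2).2)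
    fun _ y h => ⟨((y.1, y.2.1), y.2.2), ⟨⟨⟨h.1.1, h.1.2.1⟩, h.1.2.2⟩, h.2⟩, rfl⟩

theorem PMap.comm_tw (h : PMap V V' J e) (W : Pt k) {T : PC P} (hT : T.Dep J) :
    (isMap_tw V W T).hom χ ≫ ov χ V V' (T.tw W) e =
      (ov χ (V.tw W) (V'.tw W) T fun _ x => (e x.1, x.2)) ≫ (isMap_tw V' W T).hom χ := by
  rw [ov, ov, (h.over (hT.tw W)).hm_eq, ((h.tw W).over hT).hm_eq]
  exact IsMap.comm _ _ _ _ (fun _ _ l => ⟨fun k => ⟨⟨⟨⟨k.2.1.1, k.2.1.2.1⟩, k.2.1.2.2⟩, k.2.2⟩, k.2⟩,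
    fun k => ⟨⟨⟨l.1.1.1, l.1.1.2, l.1.2⟩, l.2⟩, k.2⟩⟩) fun _ _ _ _ _ => rfl

theorem UU.tw (h : PMap V V' J e) (u : UU χ V V' J e) (W : Pt k) :
    UU χ (V.tw W) (V'.tw W) J fun _ x => (e x.1, x.2) := fun _ T hT =>
  UIso.of_comp_right (bij_tw V' W T).uiso
    (h.comm_tw (χ := χ) W hT ▸ (bij_tw V W T).uiso.comp (u _ _ (hT.tw W)))

end

end Pool.Agent.Lib.MP_fc2ced_ag.T
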