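import Pool.Agent.Lib.MP_fc2ced_ag.G.SS

/-! Orderings of the roots of a family of monic polynomials; power sums; punctured lines. -/

open CategoryTheory Function Polynomial

namespace Pool.Agent.Lib.MP_fc2ced_ag.T

open K

noncomputable section

variable {k : Type} [Field k] {F : Type} [Field F] [CharZero F] {χ : Chr k F}

/-- The power sums of the roots. -/
def psumR {K : Type} [Field K] (g : ℕ) (R : K[X]) : K := (R.roots.map (· ^ g)).sum

theorem roots_prodX {K : Type} [Field K] {α : Type} [Fintype α] (x : α → K) :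
    (∏ j, (X - C (x j))).roots = Finset.univ.val.map x := by
  rw [← roots_multiset_prod_X_sub_C (Finset.univ.val.map x), Multiset.map_map]
  rfl

theorem psumR_prod {K : Type} [Field K] {α : Type} [Fintype α] (g : ℕ) (x : α → K) :
    psumR g (∏ j, (X - C (x j))) = ∑ j, x j ^ g := by
  rw [psumR, roots_prodX, Multiset.map_map]
  rfl

theorem exists_order {K : Type} [Field K] [IsAlgClosed K] {α : Type} [Fintype α] {P : K[X]}
    (m : P.Monic) (h : P.natDegree = Fintype.card α) : ∃ x : α → K, P = ∏ j, (X - C (x j)) := by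
  classical
  have hc := IsAlgClosed.card_roots_eq_natDegree (p := P)
  have e : α ≃ P.roots.ToType := Fintype.equivOfCardEq (by rw [Multiset.card_coe, hc, h])
  refine ⟨fun j => (e j : K), ?_⟩
  rw [e.prod_comp fun z : P.roots.ToType => X - C (z : K)]
  conv_lhs => rw [← prod_multiset_X_sub_C_of_monic_of_roots_card_eq m hc,
    ← Multiset.map_univ_coe P.roots, Multiset.map_map]
  rfl

theorem exists_perm_of_prod {K : Type} [Field K] {α : Type} [Fintype α] {a b : α → K}
    (h : ∏ j, (X - C (a j)) = ∏ j, (X - C (b j))) : ∃ σ : Equiv.Perm α, ∀ j, b (σ j) = a j := by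
  classical
  have e : Finset.univ.val.map a = Finset.univ.val.map b := by
    rw [← roots_prodX, h, roots_prodX]
  have c : ∀ z, Fintype.card {j // a j = z} = Fintype.card {j // b j = z} := fun z => by
    have := congrArg (Multiset.count z) e
    simp only [Multiset.count_map] at this
    simp only [Fintype.card_subtype, eq_comm (b := z)]
    exact this
  exact ⟨Equiv.ofFiberEquiv fun z => Fintype.equivOfCardEq (c z),
    fun j => Equiv.ofFiberEquiv_map _ j⟩

theorem rel_psumR {K K' : Fld k} {φ : Place K K'} {R : K[X]} {R' : K'[X]} (h : φ.PR R R')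
    (m : R.Monic) (g : ℕ) : φ (psumR g R) (psumR g R') := by
  have := h.roots m
  rw [psumR, psumR]
  generalize R.roots = s, R'.roots = t at this
  induction this with
  | zero => simpa using φ.zero
  | cons h1 _ ih => simpa only [Multiset.map_cons, Multiset.sum_cons] using (h1.pow g).add ih

theorem newton_mul {K : Type} [Field K] (s : Multiset K) {n : ℕ} (h : 0 < n) :
    (s.map (· ^ n)).sum = (-1) ^ (n + 1) * n * s.esymm n -
      ∑ a ∈ Finset.HasAntidiagonal.antidiagonal n with a.1 ∈ Set.Ioo 0 n,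
        (-1) ^ a.1 * s.esymm a.1 * (s.map (· ^ a.2)).sum := by
  classical
  have p : ∀ g, MvPolynomial.aeval (fun z : s.ToType => (z : K))
      (MvPolynomial.psum s.ToType K g) = (s.map (· ^ g)).sum := fun g => by
    conv_rhs => rw [← Multiset.map_univ_coe s, Multiset.map_map]
    simp only [MvPolynomial.psum, map_sum, map_pow, MvPolynomial.aeval_X]
    rfl
  have := congrArg (MvPolynomial.aeval fun z : s.ToType => (z : K))
    (MvPolynomial.psum_eq_mul_esymm_sub_sum s.ToType K n h)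
  simpa only [map_sub, map_mul, map_pow, map_neg, map_one, map_natCast, map_sum, p,
    MvPolynomial.aeval_esymm_eq_multiset_esymm, Multiset.map_univ_coe] using this

theorem newton_sub {K : Type} [Field K] {s s' : Multiset K} {d : ℕ}
    (h : ∀ i, i ≤ d → s.esymm i = s'.esymm i) {n : ℕ} (h0 : 0 < n) (hn : n ≤ d + 1) :
    (s.map (· ^ n)).sum - (s'.map (· ^ n)).sum =
      (-1) ^ (n + 1) * n * (s.esymm n - s'.esymm n) := by
  induction n using Nat.strong_induction_on with
  | _ n ih =>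
  rw [newton_mul s h0, newton_mul s' h0, Finset.sum_congr rfl (g := fun a : ℕ × ℕ =>
    (-1) ^ a.1 * s'.esymm a.1 * (s'.map (· ^ a.2)).sum) fun a ha => ?_]
  · ring
  · obtain ⟨h1, h2, h3⟩ : a.1 + a.2 = n ∧ 0 < a.1 ∧ a.1 < n := by simpa using ha
    have := ih a.2 (by omega) (by omega) (by omega)
    rw [h a.2 (by omega), sub_self, mul_zero, sub_eq_zero] at this
    rw [h a.1 (by omega), this]

/-- The identity of Newton. -/
theorem psumR_newton {K : Type} [Field K] [IsAlgClosed K] {d : ℕ} {R : K[X]} (m : R.Monic)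
    (hd : R.natDegree = d) (t : K) :
    psumR (d + 1) (X * R + C ((-1) ^ (d + 1) * t)) =
      psumR (d + 1) R + (-1) ^ d * ((d + 1 : ℕ) : K) * t := by
  have mQ : (X * R).Monic := monic_X.mul m
  have dQ : (X * R).natDegree = d + 1 := by
    rw [monic_X.natDegree_mul m, natDegree_X, hd, add_comm]
  have key : ∀ c : K, ∀ i, i ≤ d + 1 → (X * R + C c).roots.esymm i =
      (-1) ^ i * (X * R + C c).coeff (d + 1 - i) := fun c i hi => by
    have dP : (X * R + C c).natDegree = d + 1 := by rw [natDegree_add_C, dQ]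
    have mP : (X * R + C c).Monic := mQ.add_of_left
      (degree_C_le.trans_lt (natDegree_pos_iff_degree_pos.1 (by omega)))
    rw [coeff_eq_esymm_roots_of_card IsAlgClosed.card_roots_eq_natDegree (by omega),
      mP.leadingCoeff, dP, Nat.sub_sub_self hi, one_mul, ← mul_assoc, ← mul_pow]
    simp
  have := newton_sub (s := (X * R + C ((-1) ^ (d + 1) * t)).roots) (s' := (X * R + C 0).roots)
    (d := d) (fun i hi => by
      rw [key _ i (by omega), key _ i (by omega), coeff_add, coeff_add,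
        coeff_C_of_ne_zero (by omega), coeff_C_of_ne_zero (by omega)]) d.succ_pos le_rfl
  rw [key _ _ le_rfl, key _ _ le_rfl, Nat.sub_self, C_0, add_zero, roots_mul mQ.ne_zero,
    roots_X] at this
  simp only [Multiset.singleton_add, Multiset.map_cons, Multiset.sum_cons, Nat.succ_eq_add_one,
    coeff_add, coeff_C_zero, mul_coeff_zero, coeff_X_zero, zero_mul, zero_add, mul_zero, sub_zero,
    zero_pow d.succ_ne_zero] at this
  rw [psumR, psumR, ← sub_eq_iff_eq_add', this, ← mul_assoc ((-1 : K) ^ (d + 1)), ← mul_pow]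
  simp [pow_succ]

namespace Pt

variable (k) in
/-- Monic polynomials of degree `d`. -/
@[reducible] def mpoly (d : ℕ) : Pt k :=
  (poly k).restr (fun _ R => R.Monic ∧ R.natDegree = d)
    (Closed.conv fun _ _ _ _ _ _ _ r e => ⟨(Place.PR.monic r e.1).1,
      (Place.PR.monic r e.1).2.trans e.2⟩)

variable (S : Pt k) (R : ∀ ⦃K⦄, S.X K → K[X]) (hR : S.RegP R) (α : Type) [Fintype α]

/-- The orderings of the roots. -/
@[reducible] def ord : Pt k :=
  (S.prod ((line k).pi α)).restr (fun _ x => R x.1 = ∏ j, (Polynomial.X - C (x.2 j)))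
    (Closed.conv fun _ _ φ _ _ a b r e => (e ▸ hR φ _ _ a.1 b.1 r.1).func
      (Place.PR.prod fun j _ => Place.PR.X.sub (.C (r.2 j))))

variable {S R hR α} in
theorem ord_lim {K K' : Fld k} {φ : Place K K'} {x : (S.ord R hR α).X K} {z : S.X K'}
    (hx : (S.ord R hR α).L x) (hz : S.L z) (r : S.R φ x.1 z) :
    ∃ y : α → K', (S.ord R hR α).L (z, y) ∧ ∀ j, φ (x.2 j) (y j) := by
  have h := hR φ _ _ hx.1.1 hz r
  rw [hx.2] at h
  choose y hy using fun j => h.exists_root (a := x.2 j)
    (monic_prod_of_monic _ _ fun j _ => monic_X_sub_C _)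
    (isRoot_of_mem_roots (by rw [roots_prodX]; exact Multiset.mem_map_of_mem _ (by simp)))
  exact ⟨y, ⟨⟨hz, fun _ => trivial⟩,
    h.func (Place.PR.prod fun j _ => Place.PR.X.sub (.C (hy j)))⟩, hy⟩

theorem isMap_ord : IsMap (S.ord R hR α) S fun _ x => x.1 :=
  .of_proper ⟨fun _ _ h => h.1.1, fun _ _ _ _ _ _ _ h => h.1⟩ (fun _ _ _ => by simp)
    fun _ _ _ _ z hx hz r => (ord_lim hx hz r).elim fun y hy => ⟨(z, y), hy.1, r, hy.2⟩

variable {S R hR α} in
theorem ord_perm {K : Fld k} {x : (S.ord R hR α).X K} (hx : (S.ord R hR α).L x)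
    (π : Equiv.Perm α) : (S.ord R hR α).L (x.1, fun j => x.2 (π j)) :=
  ⟨⟨hx.1.1, fun _ => trivial⟩,
    hx.2.trans (Equiv.prod_comp π fun j => Polynomial.X - C (x.2 j)).symm⟩

theorem isMap_ordPerm (π : Equiv.Perm α) :
    IsMap (S.ord R hR α) (S.ord R hR α) fun _ x => (x.1, fun j => x.2 (π j)) :=
  .of_inv (g := fun _ x => (x.1, fun j => x.2 (π.symm j)))
    ⟨fun _ _ h => ord_perm h π, fun _ _ _ _ _ _ _ h => ⟨h.1, fun j => h.2 _⟩⟩
    ⟨fun _ _ h => ord_perm h π.symm, fun _ _ _ _ _ _ _ h => ⟨h.1, fun j => h.2 _⟩⟩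
    (fun _ _ _ => rfl) fun _ _ _ => by simp

variable {S R hR α} in
theorem ord_orbit [DecidableEq α] {K : Fld k} {z : S.X K} {a b : α → K}
    (ha : (S.ord R hR α).L (z, a)) (hb : (S.ord R hR α).L (z, b)) :
    (Finset.univ.val.map fun π : Equiv.Perm α => ((z, fun j => a (π j)) : (S.ord R hR α).X K)) =
      Finset.univ.val.map fun π : Equiv.Perm α => (z, fun j => b (π j)) := by
  obtain ⟨σ, hσ⟩ := exists_perm_of_prod (ha.2.symm.trans hb.2)
  conv_rhs => rw [← Multiset.map_univ_val_equiv (Equiv.mulLeft σ), Multiset.map_map]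
  exact Multiset.map_congr rfl fun π _ => Prod.ext rfl (funext fun j => (hσ _).symm)

/-- The transfer. -/
theorem exists_ordTr [DecidableEq α]
    (m : ∀ ⦃K⦄ (x : S.X K), S.L x → (R x).Monic ∧ (R x).natDegree = Fintype.card α) :
    ∃ tr : S.E χ ⟶ (S.ord R hR α).E χ,
      tr ≫ (S.isMap_ord R hR α).hom χ = ((Fintype.card α).factorial : F) • 𝟙 _ ∧
      (S.isMap_ord R hR α).hom χ ≫ tr = ∑ π, (S.isMap_ordPerm R hR α π).hom χ := by
  have ex : ∀ (K : Fld k) (x : S.X K), ∃ o : α → K, S.L x → (S.ord R hR α).L (x, o) :=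
    fun K x => by
      by_cases hx : S.L x
      · obtain ⟨o, ho⟩ := exists_order (m x hx).1 (m x hx).2
        exact ⟨o, fun _ => ⟨⟨hx, fun _ => trivial⟩, ho⟩⟩
      · exact ⟨fun _ => 0, fun h => absurd h hx⟩
  choose o ho using ex
  have c : IsCor S (S.ord R hR α) fun K x =>
      Finset.univ.val.map fun π : Equiv.Perm α => (x, fun j => o K x (π j)) := by
    refine ⟨fun K x _ z hz _ => ?_, fun K K' φ x y hx hy r => ?_,
      fun K K' φ x hx d z hz _ y hy r => ?_⟩
    · obtain ⟨π, -, rfl⟩ := Multiset.mem_map.1 hz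
      simp
    · obtain ⟨b, h1, h2⟩ := ord_lim (ho K x hx) hy r
      rw [ord_orbit (ho K' y hy) h1, Multiset.rel_map]
      exact Multiset.rel_refl_of_refl_on fun π _ =>
        .of_R (ord_perm (ho K x hx) π) (ord_perm h1 π) ⟨r, fun j => h2 _⟩
    · obtain ⟨π, -, rfl⟩ := Multiset.mem_map.1 hz
      exact d hx y.1 hy.1.1 r.1
  refine ⟨c.hom χ, hom_ext fun K x hx => ?_, hom_ext fun K x hx => ?_⟩
  · rw [Ob.comp_apply, c.hom_cl hx, cls, Multiset.map_map, map_multiset_sum, Multiset.map_map]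
    refine (Finset.sum_congr (g := fun _ => S.cl F x) rfl fun π _ =>
      (S.isMap_ord R hR α).hom_cl (ord_perm (ho K x hx) π)).trans ?_
    rw [Finset.sum_const, Finset.card_univ, Fintype.card_perm, ← Nat.cast_smul_eq_nsmul F]
    rfl
  · rw [Ob.comp_apply, IsMap.hom_cl _ hx, c.hom_cl hx.1.1, ord_orbit (ho K _ hx.1.1) hx,
      Ob.sum_app, LinearMap.sum_apply, cls, Multiset.map_map]
    exact Finset.sum_congr rfl fun π _ => ((S.isMap_ordPerm R hR α π).hom_cl hx).symm

theorem ss_of_ord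
    (m : ∀ ⦃K⦄ (x : S.X K), S.L x → (R x).Monic ∧ (R x).natDegree = Fintype.card α)
    (h : SS ((S.ord R hR α).E χ)) : SS (S.E χ) := by
  classical
  obtain ⟨tr, e, -⟩ := S.exists_ordTr (χ := χ) R hR α m
  exact h.retract (e ▸ UIso.id.smul (Nat.cast_ne_zero.2 (Nat.factorial_ne_zero _)))

/-- The line without finitely many rational points, with a product of linear factors. -/
@[reducible] def cv {J : Type} [Fintype J] (y : J → k) (e : J → ℤ) : Pt k :=
  ((line k).restr (fun K x => ∀ j, x ≠ algebraMap k K (y j))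
    (Open.conv fun _ _ φ _ _ _ _ r h j e => h j (r.eq_of (φ.alg _) e))).withF
    (fun K x => ∏ j, (x - algebraMap k K (y j)) ^ e j)
    (fun _ _ φ _ _ _ b r => Place.prod fun j _ =>
      rel_zpow (r.sub (φ.alg _)) (sub_ne_zero.2 (b.2 j)) _)
    fun _ _ a => Finset.prod_ne_zero_iff.2 fun j _ => zpow_ne_zero _ (sub_ne_zero.2 (a.2 j))

/-- A variety whose power is the space of orderings over a negligible base is Schur-finite. -/
theorem sf_of_ord {P : Pt k}
    (m : ∀ ⦃K⦄ (x : S.X K), S.L x → (R x).Monic ∧ (R x).natDegree = Fintype.card α)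
    (z : UZero (S.E χ)) {c : ∀ ⦃K : Fld k⦄, K → P.X K}
    (v : IsMap (S.ord R hR α) (P.pi α) fun _ x a => c (x.2 a))
    (l : ∀ ⦃K⦄ (x : (S.ord R hR α).X K), (S.ord R hR α).L x → (P.pi α).L fun a => c (x.2 a))
    (hv : UIso (v.hom χ)) : SF (P.E χ) := by
  classical
  obtain ⟨tr, -, e⟩ := S.exists_ordTr (χ := χ) R hR α m
  have n := (z.null_left tr).precomp ((S.isMap_ord R hR α).hom χ)
  refine SF.of_fintype (α := α) (r := 1) one_ne_zero
    (.of_uiso_comp (hv.comp (bij_pow α).uiso) ?_)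
  have h : (v.hom χ ≫ (isLift_pow χ P α).hom) ≫ act (P.E χ) 1 =
      (∑ π, (S.isMap_ordPerm R hR α π).hom χ) ≫ v.hom χ ≫ (isLift_pow χ P α).hom := by
    rw [act, Preadditive.comp_sum, Preadditive.sum_comp]
    refine Fintype.sum_equiv (Equiv.inv _) _ _ fun σ => ?_
    rw [Pi.one_apply, one_smul, Category.assoc, ← pow_perm, ← Category.assoc, ← Category.assoc]
    congr 1
    exact IsMap.comm _ _ _ _ (fun _ x hx => ⟨fun _ => ⟨ord_perm hx _, l _ (ord_perm hx _)⟩,
      fun _ => ⟨l x hx, fun a => l x hx _⟩⟩) fun _ _ _ _ _ => rfl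
  rw [h, ← e]
  exact n.comp _

omit [CharZero F] in
/-- Factors of the function whose exponents are killed by the character do not matter. -/
theorem eqv_twist_prod {ι : Type} (s : Finset ι) {t : ι → ℤ} (ht : ∀ i ∈ s, χ.ψ (t i) = 1)
    (g : ι → ∀ ⦃K⦄, S.X K → K) (hg : ∀ i, S.RegF (g i))
    (h0 : ∀ i ∈ s, ∀ ⦃K⦄ (x : S.X K), S.L x → g i x ≠ 0) (g' : ∀ ⦃K⦄, S.X K → K)
    (hg' : S.RegF g') (h0' : ∀ ⦃K⦄ (x : S.X K), S.L x → g' x ≠ 0)
    (e : ∀ ⦃K⦄ (x : S.X K), S.L x → g' x = S.f x * ∏ i ∈ s, g i x ^ t i) :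
    Eqv (S.E χ) ((S.withF g' hg' h0').E χ) := by
  classical
  induction s using Finset.induction_on generalizing g' with
  | empty =>
    exact eqv_of_inv (e := fun _ x => x) (g := fun _ x => x)
      ⟨fun _ _ h => h, fun _ _ _ _ _ _ _ h => h⟩ ⟨fun _ _ h => h, fun _ _ _ _ _ _ _ h => h⟩
      (fun _ x hx => by simpa using e x hx) (fun _ _ _ => rfl) fun _ _ _ => rfl
  | insert i s hi ih =>
    have h1 := fun j hj => h0 j (Finset.mem_insert_of_mem hj)
    have a : S.RegF fun _ x => S.f x * ∏ i ∈ s, g i x ^ t i :=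
      regF_f.mul fun _ _ φ x y a b r => Place.prod fun j hj =>
        rel_zpow (hg j φ x y a b r) (h1 j hj y b) _
    have b : ∀ ⦃K⦄ (x : S.X K), S.L x → S.f x * ∏ i ∈ s, g i x ^ t i ≠ 0 :=
      fun _ x hx => mul_ne_zero (S.ne x hx)
        (Finset.prod_ne_zero_iff.2 fun j hj => zpow_ne_zero _ (h1 j hj x hx))
    exact (ih (fun j hj => ht j (Finset.mem_insert_of_mem hj)) h1 _ a b fun _ _ _ => rfl).trans
      (exists_bij_twist χ (ht i (Finset.mem_insert_self _ _)) (S.withF _ a b) (g i) g'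
        (hg i) (h0 i (Finset.mem_insert_self _ _)) hg' h0' fun _ x hx => by
          rw [e x hx, Finset.prod_insert hi, mul_comm (g i x ^ t i), ← mul_assoc])

theorem zpow_fsum {K : Type} [Field K] {a : K} (h : a ≠ 0) {ι : Type} (s : Finset ι) (t : ι → ℤ) :
    a ^ ∑ i ∈ s, t i = ∏ i ∈ s, a ^ t i := by
  classical
  induction s using Finset.induction_on with
  | empty => simp
  | insert i s hi ih => rw [Finset.sum_insert hi, Finset.prod_insert hi, zpow_add₀ h, ih]

/-- The line without finitely many rational points. -/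
theorem ss_line_sub [IsAlgClosed k] [IsAlgClosed F] {J : Type} [Fintype J] (y : J → k)
    (c : (line k).Conv fun K x => ∀ j, x ≠ algebraMap k K (y j)) :
    SS (((line k).restr _ c).E χ) := by
  classical
  have o : (line k).Open fun K x => ∀ j, x ≠ algebraMap k K (y j) :=
    fun _ _ φ _ _ _ _ r h j e => h j (r.eq_of (φ.alg _) e)
  refine ss_congr (c := o.not.not.conv) (fun _ _ _ => not_not) (ss_open o.not ?_ (.of_sf (sf_line χ)))
  have ht : ((line k).restr _ o.not.conv).RegF fun _ x => x := fun _ _ _ _ _ _ _ h => h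
  refine ss_of_fibres ht (Finset.univ.image y) (fun a ha => ?_)
    (c := Open.conv fun _ _ φ _ _ _ _ r h a ha e => h a ha (r.eq_of (φ.alg _) e))
    (.of_uzero (uzero_empty fun _ x hx => hx.1.2 fun j =>
      hx.2 _ (Finset.mem_image_of_mem y (Finset.mem_univ j))))
  obtain ⟨j, -, rfl⟩ := Finset.mem_image.1 ha
  exact ss_point (fun K => algebraMap k K (y j)) (fun _ _ φ => φ.alg _) (fun _ _ h => h.2)
    (fun _ _ _ => ⟨⟨trivial, fun h => h j rfl⟩, rfl⟩) 1 fun _ _ => (map_one _).symm

/-- Monic polynomials that do not vanish at the given points. -/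
@[reducible] def cvS {J : Type} [Fintype J] (y : J → k) (e : J → ℤ) : Pt k :=
  ((mpoly k (Fintype.card J)).restr (fun K R => ∀ j, R.eval (algebraMap k K (y j)) ≠ 0)
    (Open.conv fun _ _ φ _ _ _ _ r h j => (Place.PR.eval r (φ.alg _)).ne_zero (h j))).withF
    (fun K R => ∏ j, ((-1) ^ Fintype.card J * R.eval (algebraMap k K (y j))) ^ e j)
    (fun _ _ φ _ _ _ b r => Place.prod fun j _ =>
      rel_zpow ((φ.one.neg.pow _).mul (Place.PR.eval r (φ.alg _)))
        (mul_ne_zero (pow_ne_zero _ (neg_ne_zero.2 one_ne_zero)) (b.2 j)) _)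
    fun _ _ a => Finset.prod_ne_zero_iff.2 fun j _ => zpow_ne_zero _
      (mul_ne_zero (pow_ne_zero _ (neg_ne_zero.2 one_ne_zero)) (a.2 j))

omit [CharZero F] in
theorem uzero_cvS [DecidableEq k] {J : Type} [Fintype J] (y : J → k) (e : J → ℤ) (i : J)
    (h : χ.ψ (∑ j with y j = y i, e j : ℤ) ≠ 1) : UZero ((cvS y e).E χ) := by
  have mem := fun j => Finset.mem_image_of_mem y (Finset.mem_univ j)
  obtain ⟨q, dq, eq⟩ : ∃ q : k[X], q.degree < Fintype.card J ∧
      ∀ j, q.eval (y j) = if y j = y i then 1 else 0 := by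
    refine ⟨Lagrange.basis (Finset.univ.image y) _root_.id (y i), ?_, fun j => ?_⟩
    · rw [Lagrange.degree_basis (Set.injOn_id _) (mem i), Nat.cast_lt]
      have := Finset.card_pos.2 ⟨_, mem i⟩
      have := (Finset.card_image_le (s := Finset.univ) (f := y)).trans_eq Finset.card_univ
      omega
    · split_ifs with hj
      · rw [hj]
        exact Lagrange.eval_basis_self (v := _root_.id) (Set.injOn_id _) (mem i)
      · exact Lagrange.eval_basis_of_ne (v := _root_.id) (Ne.symm hj) (mem j)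
  have ev {K : Fld k} (r : K) (R : K[X]) (j : J) :
      (R + C ((r - 1) * R.eval (algebraMap k K (y i))) * q.map (algebraMap k K)).eval
        (algebraMap k K (y j)) = R.eval (algebraMap k K (y j)) * if y j = y i then r else 1 := by
    rw [eval_add, eval_mul, eval_C, eval_map_apply, eq]
    split_ifs with hj
    · rw [hj, map_one]
      ring
    · simp
  refine Flow.uzero h (τ := fun K r R =>
    R + C ((r - 1) * R.eval (algebraMap k K (y i))) * q.map (algebraMap k K))
    ⟨fun K r R hr hR => ?_, fun _ _ _ => by simp, fun K r R hr _ => ?_, fun K r R hr hR => ?_,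
      fun _ _ φ _ _ _ _ hr _ _ _ hR => Place.PR.add hR ((Place.PR.C ((hr.sub φ.one).mul
        (Place.PR.eval hR (φ.alg _)))).mul fun n => by rw [coeff_map, coeff_map]; exact φ.alg _)⟩
  · have d : (C ((r - 1) * R.eval (algebraMap k K (y i))) * q.map (algebraMap k K)).degree <
        R.degree := by
      rw [← smul_eq_C_mul, degree_eq_natDegree hR.1.2.1.ne_zero, hR.1.2.2]
      exact (degree_smul_le _ _).trans_lt (degree_map_le.trans_lt dq)
    refine ⟨⟨trivial, hR.1.2.1.add_of_left d,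
      (natDegree_add_eq_left_of_degree_lt d).trans hR.1.2.2⟩, fun j => ?_⟩
    rw [ev]
    refine mul_ne_zero (hR.2 j) ?_
    split_ifs
    exacts [hr, one_ne_zero]
  · rw [ev, if_pos rfl, add_assoc, ← add_mul, ← C_add,
      show (r - 1) * R.eval (algebraMap k K (y i)) +
        (r⁻¹ - 1) * (R.eval (algebraMap k K (y i)) * r) = 0 by field_simp; ring]
    simp
  · change ∏ j, _ = (∏ j, _) * _
    rw [zpow_fsum hr, Finset.prod_filter, ← Finset.prod_mul_distrib]
    refine Finset.prod_congr rfl fun j _ => ?_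
    rw [ev, ← mul_assoc, mul_zpow]
    split_ifs <;> simp

/-- Kummer sheaves on punctured lines. -/
theorem ss_cv [IsAlgClosed k] [IsAlgClosed F] {J : Type} [Fintype J] (y : J → k) (e : J → ℤ) :
    SS ((cv y e).E χ) := by
  classical
  by_cases h : ∀ i, χ.ψ (∑ j with y j = y i, e j : ℤ) = 1
  · refine .of_eqv (Eqv.symm (eqv_twist_prod _ (Finset.univ.image y)
      (t := fun a => ∑ j with y j = a, e j) (fun a ha => ?_) (fun a K x => x - algebraMap k K a)
      (fun a _ _ φ _ _ _ _ r => Place.R.sub r (φ.alg a)) (fun a ha _ _ hx => ?_) _ _ _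
      fun K x hx => ?_)) (ss_line_sub y _)
    · obtain ⟨j, -, rfl⟩ := Finset.mem_image.1 ha
      exact h j
    · obtain ⟨j, -, rfl⟩ := Finset.mem_image.1 ha
      exact sub_ne_zero.2 (hx.2 j)
    · rw [one_mul, ← Finset.prod_fiberwise_of_maps_to
        fun j hj => Finset.mem_image_of_mem y hj]
      refine Finset.prod_congr rfl fun a ha => ?_
      obtain ⟨i, -, rfl⟩ := Finset.mem_image.1 ha
      rw [zpow_fsum (sub_ne_zero.2 (hx.2 i))]
      exact Finset.prod_congr rfl fun j hj => by rw [(Finset.mem_filter.1 hj).2]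
  obtain ⟨i, hi⟩ := not_forall.1 h
  have ev {K : Fld k} (x : J → K) (a : K) :
      (∏ j, (Polynomial.X - C (x j))).eval a = ∏ j, (a - x j) := by
    simp [eval_prod]
  have hR : (cvS y e).RegP fun _ R => R := fun _ _ _ _ _ _ _ h => h
  have a : ((cvS y e).ord _ hR J).Reg ((cv y e).pi J) fun _ x a => x.2 a :=
    ⟨fun _ x hx a => ⟨trivial, fun j e => hx.1.1.2 j (by
      rw [show x.1 = _ from hx.2, ev]
      exact Finset.prod_eq_zero (Finset.mem_univ a) (sub_eq_zero.2 e.symm))⟩,
      fun _ _ _ _ _ _ _ r => r.2⟩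
  have b : ((cv y e).pi J).Reg ((cvS y e).ord _ hR J)
      fun _ x => (∏ j, (Polynomial.X - C (x j)), x) :=
    ⟨fun _ x hx => ⟨⟨⟨⟨trivial, monic_prod_of_monic _ _ fun _ _ => monic_X_sub_C _,
      (natDegree_finsetProd_X_sub_C_eq_card _ _).trans Finset.card_univ⟩, fun j => by
        rw [ev]
        exact Finset.prod_ne_zero_iff.2 fun a _ => sub_ne_zero.2 ((hx a).2 j).symm⟩,
      fun _ => trivial⟩, rfl⟩, fun _ _ _ _ _ _ _ r =>
        ⟨Place.PR.prod fun j _ => Place.PR.X.sub (.C (r j)), r⟩⟩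
  have v : IsMap ((cvS y e).ord _ hR J) ((cv y e).pi J) fun _ x a => x.2 a :=
    .of_inv a b (fun K x hx => ?_) fun _ _ hx => Prod.ext hx.2.symm rfl
  · exact .of_sf (sf_of_ord _ _ hR J (c := fun _ x => x) (fun _ _ h => h.1.2) (uzero_cvS y e i hi)
      v a.live (v.bij a.live (fun _ x x' h h' e => Prod.ext
        (h.2.trans ((show x.2 = x'.2 from e) ▸ h'.2.symm)) e)
        fun _ x hx => ⟨_, b.live x hx, rfl⟩).uiso)
  · change ∏ a, ∏ j, _ = (∏ j, _) * ∏ _a : J, (1 : K)
    rw [Finset.prod_const_one, mul_one, Finset.prod_comm]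
    refine Finset.prod_congr rfl fun j _ => ?_
    rw [Finset.prod_zpow, show x.1 = _ from hx.2, ev, ← Finset.card_univ, ← Finset.prod_neg]
    simp only [neg_sub]

end Pt

end

end Pool.Agent.Lib.MP_fc2ced_ag.T
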