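import Pool.Agent.Lib.MP_fc2ced_ag.T.Van

/-! Tori and hyperplanes in tori with monomial functions; transpositions of coordinates. -/

open CategoryTheory Function

namespace Pool.Agent.Lib.MP_fc2ced_ag.T

open K

noncomputable section

variable {k : Type} [Field k] {F : Type} [Field F] {χ : Chr k F} {ι : Type} [Fintype ι]

namespace Pt

variable (k) in
/-- The torus with the function `∏ t i ^ c i`. -/
@[reducible] def mt (c : ι → ℤ) : Pt k :=
  (((line k).pi ι).restr (fun _ x => ∀ i, x i ≠ 0)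
    (Open.conv fun _ _ _ _ _ _ _ r h i => (r i).ne_zero (h i))).withF (fun _ x => ∏ i, x i ^ c i)
    (fun _ _ _ _ _ _ h r => Place.prod fun i _ => rel_zpow (r i) (h.2 i) _)
    fun _ _ h => Finset.prod_ne_zero_iff.2 fun i _ => zpow_ne_zero _ (h.2 i)

/-- A linear form with constant coefficients. -/
def lin (ε : ι → k) {K : Fld k} (t : ι → K) : K := ∑ i, algebraMap k K (ε i) * t i

theorem rel_lin (ε : ι → k) {K K' : Fld k} {φ : Place K K'} {t : ι → K} {t' : ι → K'}
    (h : ∀ i, φ (t i) (t' i)) : φ (lin ε t) (lin ε t') :=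
  Place.sum fun i _ => (φ.alg _).mul (h i)

/-- The affine hyperplane `∑ ε t + 1 = 0` in the torus. -/
@[reducible] def hy (ε : ι → k) (c : ι → ℤ) : Pt k :=
  (mt k c).restr (fun _ t => lin ε t + 1 = 0)
    (Closed.conv fun _ _ φ _ _ _ _ r e => ((rel_lin ε r).add φ.one).eq_of φ.zero e)

/-- The hyperplane `∑ ε t = 0` in the torus modulo scalars, normalized at `o`. -/
@[reducible] def mon (ε : ι → k) (c : ι → ℤ) (o : ι) : Pt k :=
  (mt k c).restr (fun _ t => t o = 1 ∧ lin ε t = 0)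
    (Closed.conv fun _ _ φ _ _ _ _ r e =>
      ⟨(r o).eq_of φ.one e.1, (rel_lin ε r).eq_of φ.zero e.2⟩)

/-- The permutation of homogeneous coordinates. -/
def pact {K : Type} [Field K] (o : ι) (π : Equiv.Perm ι) (t : ι → K) (m : ι) : K :=
  t (π m) / t (π o)

theorem pact_one {K : Type} [Field K] {o : ι} {t : ι → K} (h : t o = 1) : pact o 1 t = t :=
  funext fun m => by rw [pact, Equiv.Perm.one_apply, Equiv.Perm.one_apply, h, div_one]

theorem pact_mul {K : Type} [Field K] {o : ι} {t : ι → K} (h : ∀ i, t i ≠ 0)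
    (π π' : Equiv.Perm ι) : pact o (π * π') t = pact o π' (pact o π t) :=
  funext fun m => by
    simp only [pact, Equiv.Perm.mul_apply]
    rw [div_div_div_cancel_right₀ (h _)]

theorem acts_congrM {S : Pt k} {a a' : ∀ ⦃K⦄, S.X K → S.X K} {e : F} (h : S.Acts χ a e)
    (he : ∀ ⦃K⦄ (z : S.X K), S.L z → a' z = a z) : S.Acts χ a' e := by
  obtain ⟨m, n⟩ := h
  exact ⟨m.congr he, by rwa [(m.congr he).hom_congr m fun _ z hz => by rw [he z hz]]⟩

theorem lin_div (ε : ι → k) {K : Fld k} (t : ι → K) (r : K) :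
    lin ε (fun m => t m / r) = lin ε t / r := by
  simp only [lin, Finset.sum_div, mul_div_assoc]

omit [Fintype ι] in
theorem prod_zpow_sumM {K : Type} [Field K] {r : K} (hr : r ≠ 0) (c : ι → ℤ) (s : Finset ι) :
    ∏ i ∈ s, r ^ c i = r ^ ∑ i ∈ s, c i := by
  classical
  induction s using Finset.induction_on with
  | empty => simp
  | insert a s ha ih => rw [Finset.prod_insert ha, Finset.sum_insert ha, ih, zpow_add₀ hr]

theorem prod_divM {K : Type} [Field K] {c : ι → ℤ} (h0 : ∑ i, c i = 0) (t : ι → K) {r : K}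
    (hr : r ≠ 0) : ∏ i, (t i / r) ^ c i = ∏ i, t i ^ c i := by
  simp only [div_zpow]
  rw [Finset.prod_div_distrib, prod_zpow_sumM hr, h0, zpow_zero, div_one]

section Up
variable [DecidableEq ι]

/-- Three coordinates are replaced. -/
def up3 {α : Type} (u v x : ι) (t : ι → α) (s w y : α) (m : ι) : α :=
  if m = u then s else if m = v then w else if m = x then y else t m

variable {u v x : ι}

omit [Fintype ι] in
theorem up3_ind {α β : Type} {R : α → β → Prop} {t : ι → α} {t' : ι → β} {s w y : α} {s' w' y' : β}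
    (h : ∀ i, R (t i) (t' i)) (hs : R s s') (hw : R w w') (hy : R y y') (m : ι) :
    R (up3 u v x t s w y m) (up3 u v x t' s' w' y' m) := by
  unfold up3
  split_ifs
  exacts [hs, hw, hy, h m]

omit [Fintype ι] in
theorem up3_ne {K : Type} [Field K] {t : ι → K} {s w y : K} (h : ∀ i, t i ≠ 0) (hs : s ≠ 0)
    (hw : w ≠ 0) (hy : y ≠ 0) (m : ι) : up3 u v x t s w y m ≠ 0 :=
  up3_ind (R := fun a _ => a ≠ 0) (t' := t) (s' := s) (w' := s) (y' := s) h hs hw hy m

omit [Fintype ι] in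
theorem up3_eq {α : Type} {t t' : ι → α} {s w y : α} (hs : s = t' u) (hw : w = t' v) (hy : y = t' x)
    (h : ∀ i, i ≠ u → i ≠ v → i ≠ x → t i = t' i) : up3 u v x t s w y = t' := funext fun m => by
  unfold up3
  split_ifs with a b d
  exacts [a ▸ hs, b ▸ hw, d ▸ hy, h m a b d]

omit [Fintype ι] in
theorem up3_u {α : Type} (t : ι → α) (s w y : α) : up3 u v x t s w y u = s := if_pos rfl

omit [Fintype ι] in
theorem up3_o {α : Type} (t : ι → α) (s w y : α) {m : ι} (a : m ≠ u) (b : m ≠ v) (d : m ≠ x) :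
    up3 u v x t s w y m = t m := by rw [up3, if_neg a, if_neg b, if_neg d]

omit [Fintype ι] in
theorem up3_v (huv : u ≠ v) {α : Type} (t : ι → α) (s w y : α) : up3 u v x t s w y v = w := by
  rw [up3, if_neg huv.symm, if_pos rfl]

omit [Fintype ι] in
theorem up3_x (hxu : x ≠ u) (hxv : x ≠ v) {α : Type} (t : ι → α) (s w y : α) :
    up3 u v x t s w y x = y := by
  rw [up3, if_neg hxu, if_neg hxv, if_pos rfl]

variable (huv : u ≠ v) (hxu : x ≠ u) (hxv : x ≠ v)
include huv hxu hxv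

theorem lin_up3 (ε : ι → k) {K : Fld k} (t : ι → K) (s w y : K) :
    lin ε (up3 u v x t s w y) = lin ε t + (algebraMap k K (ε u) * (s - t u) +
      (algebraMap k K (ε v) * (w - t v) + algebraMap k K (ε x) * (y - t x))) := by
  rw [← sub_eq_iff_eq_add', lin, lin, ← Finset.sum_sub_distrib,
    ← Finset.sum_subset (Finset.subset_univ {u, v, x}) fun i _ hi => by
      simp only [Finset.mem_insert, Finset.mem_singleton, not_or] at hi
      rw [up3_o _ _ _ _ hi.1 hi.2.1 hi.2.2, sub_self],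
    Finset.sum_insert (by simp [huv, hxu.symm]), Finset.sum_pair hxv.symm, up3_u, up3_v huv,
    up3_x hxu hxv]
  ring

theorem prod_up3 (c : ι → ℤ) {K : Type} [Field K] {t : ι → K} (h : ∀ i, t i ≠ 0) (s w y : K) :
    ∏ i, up3 u v x t s w y i ^ c i =
      (∏ i, t i ^ c i) * ((s / t u) ^ c u * ((w / t v) ^ c v * (y / t x) ^ c x)) := by
  rw [mul_comm, ← div_eq_iff (Finset.prod_ne_zero_iff.2 fun i _ => zpow_ne_zero _ (h i)),
    ← Finset.prod_div_distrib,
    ← Finset.prod_subset (Finset.subset_univ {u, v, x}) fun i _ hi => by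
      simp only [Finset.mem_insert, Finset.mem_singleton, not_or] at hi
      rw [up3_o _ _ _ _ hi.1 hi.2.1 hi.2.2, div_self (zpow_ne_zero _ (h i))],
    Finset.prod_insert (by simp [huv, hxu.symm]), Finset.prod_pair hxv.symm, up3_u, up3_v huv,
    up3_x hxu hxv, div_zpow, div_zpow, div_zpow]

omit [Fintype ι] huv in
theorem up3_swap {α : Type} (t : ι → α) {s w y : α} (hs : s = t v) (hw : w = t u) (hy : y = t x) :
    up3 u v x t s w y = fun m => t (Equiv.swap u v m) :=
  up3_eq (by rw [hs, Equiv.swap_apply_left]) (by rw [hw, Equiv.swap_apply_right])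
    (by rw [hy, Equiv.swap_apply_of_ne_of_ne hxu hxv])
    fun i a b _ => by rw [Equiv.swap_apply_of_ne_of_ne a b]

end Up

section Swap
variable [DecidableEq ι] {ε : ι → k} {c : ι → ℤ} {o u v x : ι} {Q P : Pt k}
  {C : ∀ ⦃K : Fld k⦄, (ι → K) → P.X K → Prop}
  (hC : (((mon ε c o).prod Q).prod P).Conv fun _ z => C z.1.1 z.2)
  (huv : u ≠ v) (hxu : x ≠ u) (hxv : x ≠ v) (hε : ε u = ε v) (hc : c u = c v)
include huv hxu hxv hε hc

/-- A transposition of two coordinates on which the conditions do not depend. -/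
theorem mon_swap (h0 : ∑ i, c i = 0) (hχ : χ.ψ (c u) ≠ 1)
    (sc : ∀ ⦃K : Fld k⦄ (t : ι → K) (r : K) (p : P.X K), (∀ i, t i ≠ 0) → r ≠ 0 → C t p →
      C (fun i => t i * r) p)
    (bl : ∀ ⦃K : Fld k⦄ (t t' : ι → K) (p : P.X K), (∀ i, t i ≠ 0) → (∀ i, t' i ≠ 0) →
      (∀ i, i ≠ u → i ≠ v → t' i = t i) → C t p → C t' p) :
    ((((mon ε c o).prod Q).prod P).restr _ hC).Acts χ
      (fun _ z => ((pact o (Equiv.swap u v) z.1.1, z.1.2), z.2)) (-1) := by
  have h : ((((mon ε c o).prod Q).prod P).restr _ hC).Swap (c u) (fun _ z => z.1.1 u / z.1.1 x)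
      (fun _ z => z.1.1 v / z.1.1 x) (fun _ _ => 0) fun _ z s w =>
        ((fun m => up3 u v x z.1.1 (s * z.1.1 x) (w * z.1.1 x) (z.1.1 x) m /
          up3 u v x z.1.1 (s * z.1.1 x) (w * z.1.1 x) (z.1.1 x) o, z.1.2), z.2) := by
    refine ⟨fun _ _ _ _ _ _ hy r => (r.1.1 u).div (r.1.1 x) (hy.1.1.1.1.2 x),
      fun _ _ _ _ _ _ hy r => (r.1.1 v).div (r.1.1 x) (hy.1.1.1.1.2 x),
      fun _ _ φ _ _ _ _ _ => φ.zero,
      fun _ z hz => mul_ne_zero (div_ne_zero (hz.1.1.1.1.2 u) (hz.1.1.1.1.2 x))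
        (div_ne_zero (hz.1.1.1.1.2 v) (hz.1.1.1.1.2 x)), ?_, ?_,
      fun _ _ _ _ _ _ _ _ _ _ hy r hs hw n _ => ?_⟩
    · rintro K ⟨⟨t, q⟩, p⟩ ⟨⟨⟨⟨⟨-, n⟩, e, -⟩, -⟩, -⟩, -⟩
      change ∀ i, t i ≠ 0 at n
      change t o = 1 at e
      dsimp only
      rw [up3_eq (t' := t) (div_mul_cancel₀ _ (n x)) (div_mul_cancel₀ _ (n x)) rfl
        fun _ _ _ _ => rfl, e]
      simp only [div_one]
    · rintro K ⟨⟨t, q⟩, p⟩ s w ⟨⟨⟨⟨⟨-, n⟩, e, l⟩, hq⟩, hp⟩, hz⟩ ne eq
      change ∀ i, t i ≠ 0 at n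
      change t o = 1 at e
      change lin ε t = 0 at l
      dsimp only at eq hz ⊢
      have nT := up3_ne (u := u) (v := v) (x := x) n
        (mul_ne_zero (left_ne_zero_of_mul ne) (n x)) (mul_ne_zero (right_ne_zero_of_mul ne) (n x))
        (n x)
      have e1 := up3_u (u := u) (v := v) (x := x) t (s * t x) (w * t x) (t x)
      have e2 := up3_v (x := x) huv t (s * t x) (w * t x) (t x)
      have e3 := up3_x hxu hxv t (s * t x) (w * t x) (t x)
      have e4 := fun m => up3_o (u := u) (v := v) (x := x) (m := m) t (s * t x) (w * t x) (t x)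
      have e5 := lin_up3 huv hxu hxv ε t (s * t x) (w * t x) (t x)
      have e6 := prod_up3 huv hxu hxv c n (s * t x) (w * t x) (t x)
      generalize up3 u v x t (s * t x) (w * t x) (t x) = T at *
      have nu := n u
      have nv := n v
      have nx := n x
      have no := nT o
      refine ⟨⟨⟨⟨⟨⟨fun _ => trivial, fun i => div_ne_zero (nT i) no⟩, div_self no, ?_⟩, hq⟩, hp⟩,
        ?_⟩, ?_, ?_, rfl, ?_, ?_⟩
      · rw [lin_div, e5, l, ← hε, div_eq_zero_iff]
        rw [zero_mul, zero_mul, add_zero, add_zero, ← add_div, eq_div_iff nx] at eq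
        exact .inl (by linear_combination algebraMap k K (ε u) * eq)
      · simpa only [div_eq_mul_inv] using sc T (T o)⁻¹ p nT (inv_ne_zero no)
          (bl t T p n nT (fun i a b => by
            by_cases d : i = x
            · rw [d, e3]
            · exact e4 i a b d) hz)
      · rw [e1, e3]
        field_simp
      · rw [e2, e3]
        field_simp
      · change (∏ i, (T i / T o) ^ c i) * Q.f q * P.f p = (∏ i, t i ^ c i) * Q.f q * P.f p * _
        rw [prod_divM h0 T no, e6, ← hc, div_self nx, one_zpow, mul_one, ← mul_zpow,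
          show s * t x / t u * (w * t x / t v) = s * w / (t u / t x * (t v / t x)) by field_simp]
        ring
      · rw [up3_eq (t' := fun m => t m / T o) (by rw [e3]; field_simp) (by rw [e3]; field_simp)
          (by rw [e3]) fun i a b d => by rw [e4 i a b d]]
        simp only [div_div_div_cancel_right₀ no, e, div_one]
    · have g := up3_ind (u := u) (v := v) (x := x) r.1.1 (hs.mul (r.1.1 x)) (hw.mul (r.1.1 x))
        (r.1.1 x)
      exact ⟨⟨fun m => (g m).div (g o) (up3_ne hy.1.1.1.1.2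
        (mul_ne_zero (left_ne_zero_of_mul n) (hy.1.1.1.1.2 x))
        (mul_ne_zero (right_ne_zero_of_mul n) (hy.1.1.1.1.2 x)) (hy.1.1.1.1.2 x) o), r.1.2⟩, r.2⟩
  refine acts_congrM (h.acts hχ) fun _ z hz => ?_
  rw [up3_swap hxu hxv z.1.1 (div_mul_cancel₀ _ (hz.1.1.1.1.2 x))
    (div_mul_cancel₀ _ (hz.1.1.1.1.2 x)) rfl]
  rfl

/-- A transposition of two coordinates whose product is tied to a third coordinate. -/
theorem mon_swap' (hou : o ≠ u) (hov : o ≠ v) (hox : o ≠ x) (h0 : ε u ≠ 0)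
    (hχ : χ.ψ (c u + c x : ℤ) ≠ 1)
    (bl : ∀ ⦃K : Fld k⦄ (t t' : ι → K) (p : P.X K), (∀ i, t i ≠ 0) → (∀ i, t' i ≠ 0) →
      (∀ i, i ≠ u → i ≠ v → i ≠ x → t' i = t i) → t' x * (t u * t v) = t x * (t' u * t' v) →
      C t p → C t' p) :
    ((((mon ε c o).prod Q).prod P).restr _ hC).Acts χ
      (fun _ z => ((pact o (Equiv.swap u v) z.1.1, z.1.2), z.2)) (-1) := by
  have nε : ∀ K : Fld k, algebraMap k K (ε u) ≠ 0 := fun K => (map_ne_zero _).2 h0
  have h : ((((mon ε c o).prod Q).prod P).restr _ hC).Swap (c u + c x) (fun _ z => z.1.1 u)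
      (fun _ z => z.1.1 v) (fun K z => algebraMap k K (ε x) * z.1.1 x /
        (algebraMap k K (ε u) * (z.1.1 u * z.1.1 v))) fun _ z s w =>
        ((up3 u v x z.1.1 s w (z.1.1 x * (s * w / (z.1.1 u * z.1.1 v))), z.1.2), z.2) := by
    refine ⟨fun _ _ _ _ _ _ _ r => r.1.1 u, fun _ _ _ _ _ _ _ r => r.1.1 v,
      fun _ _ φ _ _ _ hy r => ((φ.alg _).mul (r.1.1 x)).div
        ((φ.alg _).mul ((r.1.1 u).mul (r.1.1 v)))
        (mul_ne_zero (nε _) (mul_ne_zero (hy.1.1.1.1.2 u) (hy.1.1.1.1.2 v))),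
      fun _ z hz => mul_ne_zero (hz.1.1.1.1.2 u) (hz.1.1.1.1.2 v), ?_, ?_,
      fun _ _ _ _ _ _ _ _ _ _ hy r hs hw n _ => ⟨⟨up3_ind r.1.1 hs hw ((r.1.1 x).mul
        ((hs.mul hw).div ((r.1.1 u).mul (r.1.1 v))
          (mul_ne_zero (hy.1.1.1.1.2 u) (hy.1.1.1.1.2 v)))), r.1.2⟩, r.2⟩⟩
    · rintro K ⟨⟨t, q⟩, p⟩ ⟨⟨⟨⟨⟨-, n⟩, -⟩, -⟩, -⟩, -⟩
      change ∀ i, t i ≠ 0 at n
      dsimp only
      rw [up3_eq (t' := t) rfl rfl (by rw [div_self (mul_ne_zero (n u) (n v)), mul_one])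
        fun _ _ _ _ => rfl]
    · rintro K ⟨⟨t, q⟩, p⟩ s w ⟨⟨⟨⟨⟨-, n⟩, e, l⟩, hq⟩, hp⟩, hz⟩ ne eq
      change ∀ i, t i ≠ 0 at n
      change t o = 1 at e
      change lin ε t = 0 at l
      dsimp only at eq hz ⊢
      have nu := n u
      have nv := n v
      have nx := n x
      have ns := left_ne_zero_of_mul ne
      have nw := right_ne_zero_of_mul ne
      have n1 := nε K
      have nT := up3_ne (u := u) (v := v) (x := x) n ns nw
        (mul_ne_zero nx (div_ne_zero ne (mul_ne_zero nu nv)))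
      have e1 := up3_u (u := u) (v := v) (x := x) t s w (t x * (s * w / (t u * t v)))
      have e2 := up3_v (x := x) huv t s w (t x * (s * w / (t u * t v)))
      have e3 := up3_x hxu hxv t s w (t x * (s * w / (t u * t v)))
      have e4 := fun m => up3_o (u := u) (v := v) (x := x) (m := m) t s w
        (t x * (s * w / (t u * t v)))
      have e5 := lin_up3 huv hxu hxv ε t s w (t x * (s * w / (t u * t v)))
      have e6 := prod_up3 huv hxu hxv c n s w (t x * (s * w / (t u * t v)))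
      generalize up3 u v x t s w (t x * (s * w / (t u * t v))) = T at *
      refine ⟨⟨⟨⟨⟨⟨fun _ => trivial, nT⟩, (e4 o hou hov hox).trans e, ?_⟩, hq⟩, hp⟩,
        bl t T p n nT e4 (by rw [e1, e2, e3]; field_simp) hz⟩, e1, e2, ?_, ?_, ?_⟩
      · rw [e5, l, ← hε]
        field_simp at eq ⊢
        linear_combination eq
      · rw [e1, e2, e3]
        field_simp
      · change (∏ i, T i ^ c i) * Q.f q * P.f p = (∏ i, t i ^ c i) * Q.f q * P.f p * _
        rw [e6, ← hc, mul_div_cancel_left₀ _ nx, ← mul_assoc (_ ^ c u), ← mul_zpow,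
          div_mul_div_comm, zpow_add₀ (div_ne_zero ne (mul_ne_zero nu nv))]
        ring
      · rw [up3_eq (t' := t) rfl rfl (by rw [e1, e2, e3]; field_simp) e4]
  refine acts_congrM (h.acts hχ) fun _ z hz => ?_
  have n : ∀ i, z.1.1 i ≠ 0 := hz.1.1.1.1.2
  have e : z.1.1 o = 1 := hz.1.1.1.2.1
  rw [up3_swap hxu hxv z.1.1 rfl rfl
    (by rw [mul_comm (z.1.1 v), div_self (mul_ne_zero (n u) (n v)), mul_one])]
  refine congrArg (fun t => ((t, z.1.2), z.2)) (funext fun m => ?_)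
  rw [pact, Equiv.swap_apply_of_ne_of_ne hou hov, e, div_one]

end Swap

end Pt

end

end Pool.Agent.Lib.MP_fc2ced_ag.T
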