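import Pool.Agent.Lib.MP_fc2ced_ag.G.Lift
import Pool.Agent.Lib.MP_fc2ced_ag.G.Rad
import Pool.Agent.Lib.MP_fc2ced_ag.T.Rat

/-! Objects that become Schur-finite after a Tate twist. -/

open CategoryTheory Function

namespace Pool.Agent.Lib.MP_fc2ced_ag.T

open K

noncomputable section

variable {k : Type} [Field k] {F : Type} [Field F] [CharZero F]

open Ob MP_fc2ced_ag.T.Pt

variable {M M' N M₁ M₂ M₃ : Ob k F}

namespace SSA

omit [CharZero F]

theorem null_swap {α : Type} [Fintype α] [DecidableEq α]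
    (h : Null (reidx M (Equiv.swap (0 : Fin 2) 1) - (-1 : F) • 𝟙 _)) {x y : α} (n : x ≠ y) :
    Null (reidx M (Equiv.swap x y) - (-1 : F) • 𝟙 _) := by
  let j : Fin 2 ↪ α := ⟨![x, y], fun a b e => by
    fin_cases a <;> fin_cases b <;> first | rfl | exact absurd e n | exact absurd e n.symm⟩
  have e1 : (Equiv.swap (0 : Fin 2) 1).viaEmbedding j = Equiv.swap x y := by
    ext a
    by_cases k : a ∈ Set.range j
    · obtain ⟨b, rfl⟩ := k
      rw [Equiv.Perm.viaEmbedding_apply]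
      exact (j.swap_apply 0 1 b).symm
    · rw [Equiv.Perm.viaEmbedding_apply_of_notMem _ _ _ k]
      exact (Equiv.swap_apply_of_ne_of_ne (fun e => k ⟨0, e.symm⟩) fun e => k ⟨1, e.symm⟩).symm
  have e2 : (1 : Equiv.Perm (Fin 2)).viaEmbedding j = 1 := map_one (Equiv.Perm.viaEmbeddingHom j)
  have := Null.emb (con M) j (fun _ => 𝟙 M)
    (r := Pi.single (Equiv.swap 0 1) 1 - Pi.single 1 (-1)) (Null.precomp _ (by
      simpa [act, sub_smul, Finset.sum_sub_distrib, Pi.single_apply] using h))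
  simpa [sub_smul, Finset.sum_sub_distrib, Pi.single_apply, e1, e2] using this

/-- Permutations act by their signs. -/
theorem null_sign {α : Type} [Fintype α] [DecidableEq α]
    (h : Null (reidx M (Equiv.swap (0 : Fin 2) 1) - (-1 : F) • 𝟙 _)) (s : Equiv.Perm α) :
    Null (reidx M s - ((s.sign : ℤ) : F) • 𝟙 _) := by
  induction s using Equiv.Perm.swap_induction_on with
  | one => simpa using Null.zero
  | swap_mul s x y n ih =>
    have := ((null_swap h n).precomp (reidx M s)).sub ih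
    rw [reidx_mul, Equiv.Perm.sign_mul, Equiv.Perm.sign_swap n]
    convert this using 1
    simp only [Preadditive.comp_sub, Linear.comp_smul, Category.comp_id, Units.val_mul,
      Units.val_neg, Units.val_one, Int.cast_mul, Int.cast_neg, Int.cast_one]
    module

/-- The tensor product with the object reflects vanishing. -/
def Faith (N : Ob k F) : Prop := ∀ ⦃X Y : Ob k F⦄ (f : X ⟶ Y), Null (tenMap f (𝟙 N)) → Null f

theorem faith_one : Faith (one k F) := fun X _ f h =>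
  .of_uiso_comp (bij_rid X).uiso (rid_nat f ▸ h.comp _)

theorem Faith.pow (h : Faith M) (α : Type) [Finite α] : Faith (M.pow α) := by
  refine pow_induction (fun A B ⟨u, hu⟩ hB X Y f hf => hB f (.of_uiso_comp
    (hu.uiso.ten_left (con X)) ?_)) faith_one (fun A hA X Y f hf => hA f (h _ (.of_uiso_comp
      (bij_assoc X A M).uiso ?_))) α
  · rw [← assoc_nat, tenMap_id]
    exact hf.comp _
  · rw [← tenMap_eq', tenMap_eq]
    exact hf.comp _

theorem faith_susp {C : Ob k F} {j : one k F ⟶ C} {q : C ⟶ M} (S : Ses j q) (hC : UZero C) :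
    Faith M := fun X Y f h =>
  faith_one f ((S.ten_left X).null_of_null₃ (S.ten_left Y) (b := tenMap f (𝟙 C))
    ((tenMap_eq' _ _).symm.trans (tenMap_eq _ _)) ((tenMap_eq' _ _).symm.trans (tenMap_eq _ _))
    (hC.ten_left (con _)) h)

/-- Desuspension. -/
theorem sf_desusp (hN : Faith N) (h : Null (reidx N (Equiv.swap (0 : Fin 2) 1) - (-1 : F) • 𝟙 _))
    (hM : SF (M.ten N)) : SF M := by
  obtain ⟨d, r, hr, h0⟩ := hM
  have h1 : Null (∑ s, r s • tenMap (reidx M s) (reidx N s)) :=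
    .of_comp_uiso bij_tenPow.uiso (by rw [SF.tenPow_act]; exact h0.precomp _)
  have h2 : Null (∑ s, r s • tenMap (reidx M s) (reidx N s - ((s.sign : ℤ) : F) • 𝟙 _)) :=
    .sum fun s _ => ((null_sign h s).ten₂ _ (con _)).smul _
  refine ⟨d, fun s => r s * ((s.sign : ℤ) : F), fun e => hr (funext fun s => ?_),
    hN.pow (Fin d) _ ?_⟩
  · refine (mul_eq_zero.1 (congrFun e s)).resolve_right fun k => ?_
    rcases Int.units_eq_one_or s.sign with l | l <;> simp [l] at k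
  · convert h1.sub h2 using 1
    simp only [← tenL_apply, act, map_sum, LinearMap.sum_apply, map_smul, LinearMap.smul_apply,
      map_sub, smul_sub, Finset.sum_sub_distrib, sub_sub_cancel, mul_smul]

theorem null_susp (χ : Chr k F) (hχ : χ.ψ (1 : ℤ) ≠ 1) :
    Null (reidx (((gmX k).restr _ closed_one.not.conv).E χ) (Equiv.swap (0 : Fin 2) 1) -
      (-1 : F) • 𝟙 _) := by
  have h : (((gmX k).restr _ closed_one.not.conv).pi (Fin 2)).Swap 1 (fun _ x => x 0)
      (fun _ x => x 1) (fun _ _ => -1) fun _ _ s u => ![s, u] := by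
    refine ⟨fun _ _ _ _ _ _ _ r => r 0, fun _ _ _ _ _ _ _ r => r 1, Pt.regF_one.neg,
      fun _ x hx => mul_ne_zero (hx 0).1.2 (hx 1).1.2, fun _ x _ => ?_, fun _ x s u hx h0 e => ?_,
      fun _ _ _ _ _ _ _ _ _ _ _ _ hs hu _ _ => Fin.forall_fin_two.2 ⟨hs, hu⟩⟩
    · exact funext (Fin.forall_fin_two.2 ⟨rfl, rfl⟩)
    · have h1 : (1 - s) * (1 - u) ≠ 0 := by
        rw [show (1 - s) * (1 - u) = (1 - x 0) * (1 - x 1) by linear_combination -e]
        exact mul_ne_zero (sub_ne_zero.2 (Ne.symm (hx 0).2)) (sub_ne_zero.2 (Ne.symm (hx 1).2))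
      refine ⟨Fin.forall_fin_two.2
        ⟨⟨⟨trivial, left_ne_zero_of_mul h0⟩, (sub_ne_zero.1 (left_ne_zero_of_mul h1)).symm⟩,
          ⟨trivial, right_ne_zero_of_mul h0⟩, (sub_ne_zero.1 (right_ne_zero_of_mul h1)).symm⟩,
        rfl, rfl, rfl, ?_, funext (Fin.forall_fin_two.2 ⟨rfl, rfl⟩)⟩
      simp only [Fin.prod_univ_two, Matrix.cons_val_zero, Matrix.cons_val_one, zpow_one]
      exact (mul_div_cancel₀ _ (mul_ne_zero (hx 0).1.2 (hx 1).1.2)).symm
  obtain ⟨m, n⟩ := h.acts hχ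
  rw [m.hom_congr (isMap_perm _ (Equiv.swap 0 1)) fun _ x _ =>
    congrArg _ (funext (Fin.forall_fin_two.2 ⟨rfl, rfl⟩))] at n
  refine .of_uiso_comp (Pt.bij_pow (Fin 2)).uiso ?_
  rw [Preadditive.comp_sub, ← Pt.pow_perm]
  simpa using n.comp (Pt.isLift_pow χ _ (Fin 2)).hom

end SSA

/-- Subobjects with Schur-finite quotient of Schur-finite objects. -/
theorem sf_ses₁ (χ : Chr k F) (hχ : χ.ψ (1 : ℤ) ≠ 1) {i : M₁ ⟶ M₂} {p : M₂ ⟶ M₃} (T : Ses i p)
    (h₂ : SF M₂) (h₃ : SF M₃) : SF M₁ := by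
  have hC : UZero ((gmX k).E χ) :=
    Pt.Flow.uzero (τ := fun _ r x => x * r) hχ ⟨fun _ _ _ h hx => ⟨trivial, mul_ne_zero hx.2 h⟩,
      fun _ x _ => mul_one x, fun _ _ x h _ => mul_inv_cancel_right₀ h x,
      fun _ r x _ _ => by rw [zpow_one], fun _ _ _ _ _ _ _ h _ _ _ h' => h'.mul h⟩
  obtain ⟨j, S⟩ := (Pt.ses_closed (χ := χ) closed_one).of_eqv
    (eqv_point (S := (gmX k).restr _ closed_one.conv) (fun _ => 1)
      (fun _ => ⟨⟨trivial, one_ne_zero⟩, rfl⟩) (fun _ _ φ => φ.one) (fun _ _ h => h.2)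
      fun _ => rfl).symm
  obtain ⟨j', S'⟩ := (S.ten_left M₁).of_eqv (Eqv.rid M₁).symm
  obtain ⟨P, a, a', b, b', T₁, T₂⟩ := T.pushout S'
  exact SSA.sf_desusp (SSA.faith_susp S hC) (SSA.null_susp χ hχ) (sf_ses₃ χ hχ T₁ h₂
    ((SF.uiso_iff (T₂.uzero₁_iff.1 (hC.ten_left (con _))) (con _)).2 h₃))

variable (k F) in
/-- The Lefschetz object. -/
def Lef : Ob k F := (line k).E (Chr.triv k F)

/-- Schur-finite after a twist. -/
def SS (M : Ob k F) : Prop := ∃ m : ℕ, SF (M.ten ((Lef k F).pow (Fin m)))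

namespace SS

theorem sf_lef (m : ℕ) : SF ((Lef k F).pow (Fin m)) := (sf_line _).pow _

omit [CharZero F] in
theorem eqv_add (L : Ob k F) (m n : ℕ) :
    Eqv (L.pow (Fin (m + n))) ((L.pow (Fin m)).ten (L.pow (Fin n))) :=
  .symm ⟨_, bij_sumHom finSumFinEquiv⟩

theorem mono {m n : ℕ} (h : SF (M.ten ((Lef k F).pow (Fin m)))) (e : m ≤ n) :
    SF (M.ten ((Lef k F).pow (Fin n))) := by
  obtain ⟨j, rfl⟩ := Nat.exists_eq_add_of_le e
  exact SF.of_eqv (((Eqv.refl M).ten (eqv_add _ m j)).trans (.assoc _ _ _))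
    (SF.ten (con _) (con _) h (sf_lef j))

theorem both (h : SS M) (h' : SS N) :
    ∃ m, SF (M.ten ((Lef k F).pow (Fin m))) ∧ SF (N.ten ((Lef k F).pow (Fin m))) :=
  h.elim fun m a => h'.elim fun n b =>
    ⟨max m n, mono a (le_max_left _ _), mono b (le_max_right _ _)⟩

theorem of_sf (h : SF M) : SS M := ⟨0, SF.ten (con _) (con _) h (sf_lef 0)⟩

theorem of_uzero (h : UZero M) : SS M := of_sf (SF.of_uzero h)

theorem retract (h : SS M) {s : M' ⟶ M} {p : M ⟶ M'} (e : UIso (s ≫ p)) : SS M' :=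
  h.imp fun _ a => a.retract (con _) (s := tenMap s (𝟙 _)) (p := tenMap p (𝟙 _)) (by
    rw [← tenMap_comp, Category.id_comp]
    exact e.ten (con _))

theorem uiso_iff {f : M ⟶ N} (hf : UIso f) : SS M ↔ SS N :=
  exists_congr fun _ => SF.uiso_iff (hf.ten (con _)) (con _)

theorem of_eqv (e : Eqv M M') (h : SS M') : SS M := e.elim fun _ hf => (uiso_iff hf.uiso).2 h

protected theorem ten (h : SS M) (h' : SS N) : SS (M.ten N) :=
  h.elim fun m a => h'.elim fun n b => ⟨m + n, SF.of_eqv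
    ((((Eqv.refl _).ten (eqv_add _ m n)).trans (Eqv.assoc _ _ _).symm).trans
      (((Eqv.refl M).ten (((Eqv.assoc _ _ _).trans ((Eqv.swap _ _).ten (.refl _))).trans
        (Eqv.assoc _ _ _).symm)).trans (.assoc _ _ _))) (SF.ten (con _) (con _) a b)⟩

theorem of_ten_lef (h : SS (M.ten (Lef k F))) : SS M :=
  h.elim fun m a => ⟨m + 1, SF.of_eqv (((Eqv.refl M).ten (((Eqv.reidx _ (finSuccEquiv m)).trans
    (.option _ _)).trans (.swap _ _))).trans (.assoc _ _ _)) a⟩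

theorem of_sum {J : Type} [Fintype J] {P : J → Ob k F} (h : ∀ j, SS (P j))
    (p : ∀ j, M ⟶ P j) (s : ∀ j, P j ⟶ M) (e : UIso (∑ j, p j ≫ s j)) : SS M := by
  choose m hm using h
  refine ⟨Finset.univ.sup m, SF.of_sum (fun j => mono (hm j) (Finset.le_sup (Finset.mem_univ j)))
    (fun j => tenMap (p j) (𝟙 _)) (fun j => tenMap (s j) (𝟙 _)) ?_⟩
  convert e.ten (con ((Lef k F).pow (Fin (Finset.univ.sup m)))) using 1
  simp only [← tenMap_comp, Category.id_comp]
  simp only [← tenL_apply, map_sum, LinearMap.sum_apply]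

theorem ses₂ {i : M₁ ⟶ M₂} {p : M₂ ⟶ M₃} (T : Ses i p) (h₁ : SS M₁) (h₃ : SS M₃) : SS M₂ :=
  (h₁.both h₃).imp fun _ a => SF.ses₂ (T.ten _) (con _) (con _) a.1 a.2

variable [IsAlgClosed k] [IsAlgClosed F]

theorem ses₃ {i : M₁ ⟶ M₂} {p : M₂ ⟶ M₃} (T : Ses i p) (h₁ : SS M₁) (h₂ : SS M₂) : SS M₃ :=
  (exists_chr k F).elim fun χ hχ => (h₁.both h₂).imp fun _ a => sf_ses₃ χ hχ (T.ten _) a.1 a.2

theorem ses₁ {i : M₁ ⟶ M₂} {p : M₂ ⟶ M₃} (T : Ses i p) (h₂ : SS M₂) (h₃ : SS M₃) : SS M₁ :=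
  (exists_chr k F).elim fun χ hχ => (h₂.both h₃).imp fun _ a => sf_ses₁ χ hχ (T.ten _) a.1 a.2

end SS

namespace Pt

variable {χ : Chr k F} {S S' : Pt k} {T : S.Cond}

theorem ss_prod (h : SS (S.E χ)) (h' : SS (S'.E χ)) : SS ((S.prod S').E χ) :=
  .of_eqv ⟨_, bij_ten⟩ (h.ten h')

theorem ss_of_prod_line (h : SS ((S.prod (line k)).E χ)) : SS (S.E χ) :=
  .of_ten_lef (.of_eqv (((Eqv.refl _).ten (eqv_of_one _ χ (line k) fun _ _ _ => rfl)).trans
    (Eqv.symm ⟨_, bij_ten⟩)) h)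

theorem ss_aff (α : Type) [Fintype α] : SS (((line k).pi α).E χ) :=
  .of_eqv ⟨_, bij_pow α⟩ (.of_sf ((sf_line χ).pow α))

theorem ss_empty (h : ∀ ⦃K⦄ (x : S.X K), ¬ S.L x) : SS (S.E χ) := .of_uzero (uzero_empty h)

theorem ss_rr {A B C : S.Cond} {hA : S.Conv A} {hB : (S.restr A hA).Conv B} (hC : S.Conv C)
    (e : ∀ ⦃K⦄ (x : S.X K), S.L x → (C x ↔ A x ∧ B x)) :
    SS (((S.restr A hA).restr B hB).E χ) ↔ SS ((S.restr C hC).E χ) := by
  have m : Eqv (((S.restr A hA).restr B hB).E χ) ((S.restr C hC).E χ) :=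
    eqv_of_inv (e := fun _ x => x) (g := fun _ x => x)
      ⟨fun _ x l => ⟨l.1.1, (e x l.1.1).2 ⟨l.1.2, l.2⟩⟩, fun _ _ _ _ _ _ _ h => h⟩
      ⟨fun _ x l => and_assoc.2 ⟨l.1, (e x l.1).1 l.2⟩, fun _ _ _ _ _ _ _ h => h⟩
      (fun _ _ _ => rfl) (fun _ _ _ => rfl) fun _ _ _ => rfl
  exact ⟨.of_eqv m.symm, .of_eqv m⟩

theorem ss_all {c : S.Conv T} (e : ∀ ⦃K⦄ (x : S.X K), S.L x → T x) :
    SS ((S.restr T c).E χ) ↔ SS (S.E χ) := by
  have m : Eqv ((S.restr T c).E χ) (S.E χ) :=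
    eqv_of_inv (e := fun _ x => x) (g := fun _ x => x) (reg_restr c)
      ⟨fun _ x l => ⟨l, e x l⟩, fun _ _ _ _ _ _ _ h => h⟩
      (fun _ _ _ => rfl) (fun _ _ _ => rfl) fun _ _ _ => rfl
  exact ⟨.of_eqv m.symm, .of_eqv m⟩

/-- A variety with at most one point, which is rational. -/
theorem ss_point [IsAlgClosed k] (p : ∀ K, S.X K)
    (reg : ∀ ⦃K K'⦄ (φ : Place K K'), S.R φ (p K) (p K'))
    (un : ∀ ⦃K⦄ (x : S.X K), S.L x → x = p K) (all : ∀ K K', S.L (p K) → S.L (p K')) (a : k)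
    (f : ∀ K, S.L (p K) → S.f (p K) = algebraMap k K a) : SS (S.E χ) := by
  by_cases h : ∃ K, S.L (p K)
  · obtain ⟨K₀, h⟩ := h
    refine .of_eqv ((eqv_const (S := unit k) (e := fun K _ => p K) (g := fun _ _ => ())
      ⟨fun K _ _ => all _ K h, fun _ _ φ _ _ _ _ _ => reg φ⟩
      ⟨fun _ _ _ => trivial, fun _ _ _ _ _ _ _ _ => trivial⟩ a regF_one
      (fun K _ _ => by simp [f K (all _ K h)]) (fun _ _ _ => rfl)
      fun _ y hy => (un y hy).symm).symm.trans (eqv_point (S := unit k) (fun _ => ())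
        (fun _ => trivial) (fun _ _ _ => trivial) (fun _ _ _ => rfl) fun _ => rfl)) (.of_sf SF.one)
  · exact ss_empty fun K x hx => h ⟨K, un x hx ▸ hx⟩

theorem ss_congr {T' : S.Cond} {c : S.Conv T} {c' : S.Conv T'}
    (e : ∀ ⦃K⦄ (x : S.X K), S.L x → (T x ↔ T' x)) (h : SS ((S.restr T c).E χ)) :
    SS ((S.restr T' c').E χ) :=
  .of_eqv (eqv_of_inv (S := S.restr T' c') (S' := S.restr T c) (e := fun _ x => x)
    (g := fun _ x => x) ⟨fun _ x l => ⟨l.1, (e x l.1).2 l.2⟩, fun _ _ _ _ _ _ _ h => h⟩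
    ⟨fun _ x l => ⟨l.1, (e x l.1).1 l.2⟩, fun _ _ _ _ _ _ _ h => h⟩
    (fun _ _ _ => rfl) (fun _ _ _ => rfl) fun _ _ _ => rfl) h

theorem ss_of_closed (c : S.Closed T) (h₁ : SS ((S.restr T c.conv).E χ))
    (h₃ : SS ((S.restr _ c.not.conv).E χ)) : SS (S.E χ) := .ses₂ (ses_closed c) h₁ h₃

/-- Finitely many fibres of a function and their complement. -/
theorem ss_of_fibres {t : ∀ ⦃K⦄, S.X K → K} (ht : S.RegF t) (R : Finset k)
    (h : ∀ a ∈ R, SS ((S.restr _ (ht.eq (regF_const a)).conv).E χ))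
    {c : S.Conv fun K x => ∀ a ∈ R, t x ≠ algebraMap k K a} (h' : SS ((S.restr _ c).E χ)) :
    SS (S.E χ) := by
  classical
  induction R using Finset.induction_on generalizing S with
  | empty => exact (ss_all fun _ _ _ _ l => absurd l (Finset.notMem_empty _)).1 h'
  | insert a R ha ih =>
    have ht' : (S.restr _ (ht.eq (regF_const a)).not.conv).RegF t := (reg_restr _).regF ht
    refine ss_of_closed (ht.eq (regF_const a)) (h a (Finset.mem_insert_self a R))
      (ih ht' (fun b hb => (ss_rr _ fun K x _ => ⟨fun l => ⟨fun l' => ha ?_, l⟩, fun l => l.2⟩).2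
        (h b (Finset.mem_insert_of_mem hb)))
        (c := Open.conv fun _ _ φ x y u v r l b hb =>
          ht'.ne (regF_const b) φ x y u v r (l b hb))
        ((ss_rr c fun _ _ _ => Finset.forall_mem_insert _ _ _).2 h'))
    exact (algebraMap k K).injective (l.symm.trans l') ▸ hb

theorem ss_of_patterns {G : Type} [Finite G] {Z : G → S.Cond} (hZ : ∀ g, S.Closed (Z g))
    (h : ∀ A : Set G, SS ((S.restr _ (conv_pattern hZ A)).E χ)) : SS (S.E χ) := by
  classical
  have := Fintype.ofFinite G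
  have key : ∀ (s : Finset G) (A : Set G), SS ((S.restr _ (conv_pat hZ s A)).E χ) := fun s => by
    induction s using Finset.induction_on with
    | empty => exact fun A => ss_congr (fun _ x _ => by simp) (h A)
    | insert g₀ s h0 ih =>
      intro A
      refine ss_of_closed (S := S.restr _ (conv_pat hZ _ A)) ((reg_restr _).closed (hZ g₀))
        ((ss_rr (conv_pat hZ s (insert g₀ A)) fun _ x _ => ?_).2 (ih _))
        ((ss_rr (conv_pat hZ s (A \ {g₀})) fun _ x _ => ?_).2 (ih _))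
      · refine ⟨fun l => ⟨fun g hg => ?_, (l g₀ h0).2 (by simp)⟩, fun l g hg => ?_⟩
        · rw [Finset.mem_insert, not_or] at hg
          rw [l g hg.2, Set.mem_insert_iff, or_iff_right hg.1]
        · by_cases e : g = g₀
          · exact iff_of_true (e ▸ l.2) (by simp [e])
          · rw [l.1 g (by simp [e, hg]), Set.mem_insert_iff, or_iff_right e]
      · refine ⟨fun l => ⟨fun g hg => ?_, fun m => ((l g₀ h0).1 m).2 rfl⟩, fun l g hg => ?_⟩
        · rw [Finset.mem_insert, not_or] at hg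
          rw [l g hg.2, Set.mem_sdiff_singleton, and_iff_left hg.1]
        · by_cases e : g = g₀
          · exact iff_of_false (e ▸ l.2) (by simp [e])
          · rw [l.1 g (by simp [e, hg]), Set.mem_sdiff_singleton, and_iff_left e]
  exact (ss_all fun _ _ _ g hg => absurd (Finset.mem_univ g) hg).1 (key Finset.univ ∅)

variable [IsAlgClosed k] [IsAlgClosed F]

theorem ss_open (c : S.Closed T) (h₁ : SS ((S.restr T c.conv).E χ)) (h₂ : SS (S.E χ)) :
    SS ((S.restr _ c.not.conv).E χ) := .ses₃ (ses_closed c) h₁ h₂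

theorem ss_closed (c : S.Closed T) (h₂ : SS (S.E χ)) (h₃ : SS ((S.restr _ c.not.conv).E χ)) :
    SS ((S.restr T c.conv).E χ) := .ses₁ (ses_closed c) h₂ h₃

/-- The complement of two closed subsets. -/
theorem ss_diff₂ {A B : S.Cond} (a : S.Closed A) (b : S.Closed B) (h : SS (S.E χ))
    (hA : SS ((S.restr A a.conv).E χ)) (hB : SS ((S.restr B b.conv).E χ))
    (hAB : SS ((S.restr _ (a.and b).conv).E χ)) :
    SS ((S.restr _ (a.not.and b.not).conv).E χ) := by
  have h1 := ss_open (S := S.restr B b.conv) ((reg_restr _).closed a)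
    ((ss_rr (a.and b).conv fun _ _ _ => and_comm).2 hAB) hB
  rw [ss_rr (a.not.conv.and b.conv) fun _ _ _ => and_comm] at h1
  exact (ss_rr _ fun _ _ _ => Iff.rfl).1 (ss_open (S := S.restr _ a.not.conv)
    ((reg_restr _).closed b) ((ss_rr _ fun _ _ _ => Iff.rfl).2 h1) (ss_open a hA h))

end Pt

open MvPolynomial in
theorem schurFinite_of_ss {σ ι : Type} [Fintype σ] (f : ι → MvPolynomial (Option σ) k)
    (hf : ∀ j, ∃ d, (f j).IsHomogeneous d) (h : SS ((aff f).E (Chr.triv k F))) :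
    ∃ m : ℕ, SchurFinite (σ := σ ⊕ Fin m) fun j => rename (Option.map Sum.inl) (f j) := by
  obtain ⟨m, h⟩ := h
  have key : ∀ {K : Fld k} (x : σ ⊕ Fin m → K) (j : ι),
      aeval (fun o => Option.elim o 1 x) (rename (Option.map Sum.inl) (f j)) =
        aeval (fun o => Option.elim o 1 fun i => x (.inl i)) (f j) := fun x j => by
    rw [aeval_rename]
    congr 2
    funext o
    cases o <;> rfl
  have e : Eqv ((aff (σ := σ ⊕ Fin m) fun j => rename (Option.map Sum.inl) (f j)).E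
      (Chr.triv k F)) (((aff f).prod ((line k).pi (Fin m))).E (Chr.triv k F)) :=
    eqv_of_inv (e := fun _ x => (fun i => x (.inl i), fun i => x (.inr i)))
      (g := fun _ y => Sum.elim y.1 y.2)
      ⟨fun _ x l => ⟨⟨fun _ => trivial, fun j => (key x j).symm.trans (l.2 j)⟩, fun _ => trivial⟩,
        fun _ _ _ _ _ _ _ r => ⟨fun _ => r _, fun _ => r _⟩⟩
      ⟨fun _ y l => ⟨fun _ => trivial, fun j => (key _ j).trans (l.1.2 j)⟩,
        fun _ _ _ _ _ _ _ r => Sum.rec r.1 r.2⟩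
      (fun _ _ _ => by simp) (fun _ _ _ => funext (Sum.rec (fun _ => rfl) fun _ => rfl))
      fun _ _ _ => rfl
  exact ⟨m, schurFinite_of_sf _ (fun j => (hf j).imp fun _ h => h.rename_isHomogeneous)
    (Chr.triv k F) rfl (.of_eqv (e.trans
      (Eqv.trans ⟨_, bij_ten⟩ ((Eqv.refl _).ten ⟨_, bij_pow (Fin m)⟩))) h)⟩

end

end Pool.Agent.Lib.MP_fc2ced_ag.T
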