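import Pool.Agent.Lib.MP_fc2ced_ag.G.PDefs
import Pool.Agent.Lib.MP_fc2ced_ag.G.SS

/-! Quasi-projective varieties and their affine charts. -/

open CategoryTheory Function MvPolynomial

namespace Pool.Agent.Lib.MP_fc2ced_ag.T

open K

noncomputable section

variable {k : Type} [Field k] {F : Type} [Field F] [CharZero F] {χ : Chr k F}
  {σ ι κ : Type} {f : ι → MvPolynomial (Option σ) k} {g : κ → MvPolynomial (Option σ) k}

open MP_fc2ced_ag.T.Pt hiding X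

namespace Prj

theorem mk_eq {A : Type} [CommRing A] [Algebra k A] {z z' : Cone f A} :
    (Quot.mk _ z : Proj f A) = Quot.mk _ z' ↔ ∃ u : Aˣ, z'.1 = u • z.1 :=
  Quot.eq.trans (Equivalence.eqvGen_iff ⟨fun _ => ⟨1, (one_smul _ _).symm⟩,
    fun ⟨u, h⟩ => ⟨u⁻¹, by rw [h, inv_smul_smul]⟩,
    fun ⟨u, h⟩ ⟨v, h'⟩ => ⟨v * u, by rw [h', h, mul_smul]⟩⟩)

variable {K K' K'' : Fld k} {φ : Place K K'}

/-- The affine coordinates in the chart `o`. -/
def nr (o : Option σ) : Proj f K → Option σ → K :=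
  Quot.lift (fun z i => z.1 i / z.1 o) fun z z' ⟨u, h⟩ => funext fun i => by
    simp only [h, Units.smul_def, Pi.smul_apply, smul_eq_mul]
    exact (mul_div_mul_left _ _ u.ne_zero).symm

theorem exists_ne (z : Cone f K) : ∃ o, z.1 o ≠ 0 := by
  by_contra! h
  have := z.2.1
  rw [Ideal.span_eq_bot.2 (by rintro _ ⟨o, rfl⟩; exact h o)] at this
  exact bot_ne_top this

theorem exists_nr (x : Proj f K) : ∃ o, nr o x o ≠ 0 := by
  induction x using Quot.ind with | _ z => ?_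
  obtain ⟨o, h⟩ := exists_ne z
  exact ⟨o, div_ne_zero h h⟩

theorem nr_one {o : Option σ} {x : Proj f K} (h : nr o x o ≠ 0) : nr o x o = 1 := by
  induction x using Quot.ind with | _ z => ?_
  exact div_self (div_ne_zero_iff.1 h).1

theorem nr_eq_zero {o i : Option σ} {x : Proj f K} (h : nr o x o ≠ 0) :
    nr o x i = 0 ↔ nr i x i = 0 := by
  induction x using Quot.ind with | _ z => ?_
  have := (div_ne_zero_iff.1 h).1
  simp [nr, this]

/-- A nonzero solution. -/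
def ofV (w : Option σ → K) (h0 : ∃ o, w o ≠ 0) (h : ∀ j, aeval w (f j) = 0) : Cone f K :=
  ⟨w, h0.elim fun o ho => Ideal.eq_top_of_isUnit_mem _ (Ideal.subset_span ⟨o, rfl⟩) ho.isUnit, h⟩

/-- The specialization of points. -/
def R (φ : Place K K') (x : Proj f K) (y : Proj f K') : Prop :=
  ∃ z z', x = Quot.mk _ z ∧ y = Quot.mk _ z' ∧ ∀ o, φ (z.1 o) (z'.1 o)

theorem R.nr {x : Proj f K} {y : Proj f K'} (h : R φ x y) {o : Option σ} (ho : nr o y o ≠ 0)
    (i : Option σ) : φ (nr o x i) (nr o y i) := by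
  obtain ⟨z, z', rfl, rfl, h⟩ := h
  exact (h i).div (h o) (div_ne_zero_iff.1 ho).1

theorem nr_inj {x y : Proj f K} {o : Option σ} (hx : nr o x o ≠ 0) (e : nr o x = nr o y) :
    x = y := by
  have hy : nr o y o ≠ 0 := e ▸ hx
  induction x using Quot.ind with | _ z => ?_
  induction y using Quot.ind with | _ z' => ?_
  have h1 := (div_ne_zero_iff.1 hx).1
  have h2 := (div_ne_zero_iff.1 hy).1
  refine mk_eq.2 ⟨Units.mk0 _ (div_ne_zero h2 h1), funext fun i => ?_⟩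
  have : z.1 i / z.1 o = z'.1 i / z'.1 o := congrFun e i
  simp only [Units.smul_def, Units.val_mk0, Pi.smul_apply, smul_eq_mul]
  rw [div_mul_comm, this, div_mul_cancel₀ _ h2]

theorem hom_nr {p : MvPolynomial (Option σ) k} (hp : ∃ d, p.IsHomogeneous d) {z : Cone f K}
    {o : Option σ} (h : z.1 o ≠ 0) : aeval (nr o (Quot.mk _ z)) p = 0 ↔ aeval z.1 p = 0 := by
  obtain ⟨d, hd⟩ := hp
  have := Bridge.hom_mul hd (z.1 o)⁻¹ z.1
  rw [show nr o (Quot.mk _ z) = fun i => (z.1 o)⁻¹ * z.1 i from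
    funext fun i => div_eq_inv_mul _ _, this]
  simp [h]

variable (hf : ∀ j, ∃ d, (f j).IsHomogeneous d)
include hf

theorem root_nr {x : Proj f K} {o : Option σ} (h : nr o x o ≠ 0) (j : ι) :
    aeval (nr o x) (f j) = 0 := by
  induction x using Quot.ind with | _ z => ?_
  exact (hom_nr (hf j) (div_ne_zero_iff.1 h).1).2 (z.2.2 j)

theorem mk_nr {x : Proj f K} {o : Option σ} (h : nr o x o ≠ 0) :
    x = Quot.mk _ (ofV (nr o x) ⟨o, h⟩ (root_nr hf h)) :=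
  nr_inj h (funext fun i => by
    change _ = nr o x i / nr o x o
    rw [nr_one h, div_one])

theorem R.of_nr {x : Proj f K} {y : Proj f K'} {o : Option σ} (ho : Prj.nr o y o ≠ 0)
    (h : ∀ i, φ (Prj.nr o x i) (Prj.nr o y i)) : R φ x y :=
  ⟨_, _, mk_nr hf ((h o).ne_zero ho), mk_nr hf ho, h⟩

omit hf in
theorem R.func {x : Proj f K} {y y' : Proj f K'} (h : R φ x y) (h' : R φ x y') : y = y' := by
  obtain ⟨o, ho⟩ := exists_nr y
  obtain ⟨o', ho'⟩ := exists_nr y'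
  have h1 := (h.nr ho o).ne_zero ho
  have h2 := (h'.nr ho' o').ne_zero ho'
  have h3 : Prj.nr o y' o ≠ 0 := fun e => by
    have a := h.nr ho o'
    have b := h'.nr ho' o
    rw [(nr_eq_zero ho').2 e] at b
    have c := a.mul b
    have d : Prj.nr o x o' * Prj.nr o' x o = 1 := by
      induction x using Quot.ind with | _ z => ?_
      exact (div_mul_div_cancel₀ (div_ne_zero_iff.1 h1).1).trans
        (div_self (div_ne_zero_iff.1 h2).1)
    rw [d, mul_zero] at c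
    exact one_ne_zero (φ.func φ.one c)
  exact nr_inj ho (funext fun i => φ.func (h.nr ho i) (h'.nr h3 i))

end Prj

open Prj

variable [Fintype σ] (hf : ∀ j, ∃ d, (f j).IsHomogeneous d)

/-- The projective variety cut out by the `f j`. -/
@[reducible] def prj : Pt k where
  X K := Proj f K
  L _ _ := True
  R _ _ φ := R φ
  f _ _ := 1
  func _ _ _ _ _ _ _ _ _ := R.func
  id _ x y _ _ := by
    obtain ⟨o, ho⟩ := exists_nr y
    exact ⟨fun h => nr_inj ho (funext (h.nr ho)), fun e => e ▸ R.of_nr hf ho fun _ => rfl⟩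
  comp _ _ _ φ φ' x z _ _ := by
    obtain ⟨o, ho⟩ := exists_nr z
    refine ⟨fun h => ?_, fun ⟨y, _, h1, h2⟩ => R.of_nr hf ho fun i =>
      ⟨_, h1.nr ((h2.nr ho o).ne_zero ho) i, h2.nr ho i⟩⟩
    choose y h1 h2 using h.nr ho
    have h0 := (h2 o).ne_zero ho
    have h3 := (h1 o).ne_zero h0
    let y' : Cone f _ := ofV y ⟨o, h0⟩ fun j =>
      (Place.aeval h1 (f j)).eq_of φ.zero (root_nr hf h3 j)
    exact ⟨Quot.mk _ y', trivial, ⟨_, y', mk_nr hf h3, rfl, h1⟩, y', _, rfl, mk_nr hf ho, h2⟩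
  reg _ _ φ _ _ _ _ _ := φ.one
  ne _ _ _ := one_ne_zero
  fin _ x _ := by
    classical
    refine ⟨Finset.univ.image fun q : Option σ × Option σ => nr q.1 x q.2,
      fun _ φ φ' e y _ h => ?_⟩
    obtain ⟨o, ho⟩ := exists_nr y
    exact R.of_nr hf ho fun i =>
      e _ (Finset.mem_image.2 ⟨(o, i), Finset.mem_univ _, rfl⟩) ▸ h.nr ho i

omit [Fintype σ] in
theorem onH_iff (hg : ∀ j, ∃ d, (g j).IsHomogeneous d) {K : Fld k} {x : Proj f K} {o : Option σ}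
    (h : nr o x o ≠ 0) : P.OnH g x ↔ ∀ j, aeval (nr o x) (g j) = 0 := by
  refine ⟨?_, fun e => ?_⟩
  · rintro ⟨z, h1, rfl⟩ j
    exact (hom_nr (hg j) (div_ne_zero_iff.1 h).1).2 (h1 j)
  · induction x using Quot.ind with | _ z => ?_
    exact ⟨z, fun j => (hom_nr (hg j) (div_ne_zero_iff.1 h).1).1 (e j), rfl⟩

variable (hg : ∀ j, ∃ d, (g j).IsHomogeneous d)

include hg in
theorem closed_onH : (prj hf).Closed fun _ x => P.OnH g x := fun _ _ φ _ y _ _ r e => by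
  obtain ⟨o, ho⟩ := exists_nr y
  exact (onH_iff hg ho).2 fun j => (Place.aeval (r.nr ho) (g j)).eq_of φ.zero
    ((onH_iff hg ((r.nr ho o).ne_zero ho)).1 e j)

/-- The quasi-projective variety. -/
@[reducible] def qp : Pt k := (prj hf).restr _ (closed_onH hf hg).not.conv

theorem closed_nr (i : Option σ) : (prj hf).Closed fun _ x => nr i x i = 0 :=
  fun _ _ _ _ _ _ _ r e => by_contra fun h => (r.nr h i).ne_zero h e

variable (f) in
/-- Coordinate subspaces in an affine chart. -/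
@[reducible] def chart (o : Option σ) (C : Set (Option σ)) : Pt k :=
  ((line k).pi (Option σ)).restr
    (fun _ w => w o = 1 ∧ (∀ i ∈ C, w i = 0) ∧ ∀ j, aeval w (f j) = 0)
    (Closed.conv fun _ _ φ _ _ _ _ r e => ⟨(r o).eq_of φ.one e.1,
      fun i hi => (r i).eq_of φ.zero (e.2.1 i hi),
      fun j => (Place.aeval r (f j)).eq_of φ.zero (e.2.2 j)⟩)

theorem Pt.ss_of_inv {S S' : Pt k} (h : SS (S'.E χ)) (e : ∀ ⦃K⦄, S.X K → S'.X K)
    (g : ∀ ⦃K⦄, S'.X K → S.X K) (h1 : S.Reg S' e) (h2 : S'.Reg S g)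
    (f : ∀ ⦃K⦄ (x : S.X K), S.L x → S'.f (e x) = S.f x)
    (l : ∀ ⦃K⦄ (x : S.X K), S.L x → g (e x) = x) (r : ∀ ⦃K⦄ (y : S'.X K), S'.L y → e (g y) = y) :
    SS (S.E χ) := .of_eqv (eqv_of_inv h1 h2 f l r) h

variable [IsAlgClosed k] [IsAlgClosed F]

/-- The strata given by finitely many closed subsets. -/
theorem Pt.ss_pattern {S : Pt k} {G : Type} [Finite G] {Z : G → S.Cond}
    (hZ : ∀ i, S.Closed (Z i)) (h : ∀ C : Set G, SS ((S.restr (fun _ x => ∀ i ∈ C, Z i x)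
      (Closed.conv fun _ _ φ x y a b r e i hi => hZ i φ x y a b r (e i hi))).E χ)) (A : Set G) :
    SS ((S.restr _ (conv_pattern hZ A)).E χ) := by
  induction A using WellFoundedGT.induction with | _ A ih => ?_
  have c : (S.restr (fun _ x => ∀ i ∈ A, Z i x)
      (Closed.conv fun _ _ φ x y a b r e i hi => hZ i φ x y a b r (e i hi))).Closed
      fun _ x => ∃ i ∉ A, Z i x := fun _ _ φ x y a b r ⟨i, hi, e⟩ =>
    ⟨i, hi, hZ i φ x y a.1 b.1 r e⟩
  refine Pt.ss_of_inv (ss_open c ?_ (h A)) (fun _ x => x) (fun _ x => x)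
    ⟨fun _ x a => ⟨⟨a.1, fun j hj => (a.2 j).2 hj⟩, fun ⟨i, h2, h3⟩ => h2 ((a.2 i).1 h3)⟩,
      fun _ _ _ _ _ _ _ r => r⟩
    ⟨fun _ x a => ⟨a.1.1, fun j => ⟨fun e => by_contra fun h2 => a.2 ⟨j, h2, e⟩, a.1.2 j⟩⟩,
      fun _ _ _ _ _ _ _ r => r⟩ (fun _ _ _ => rfl) (fun _ _ _ => rfl) fun _ _ _ => rfl
  refine ss_of_patterns (Z := Z) (fun i _ _ φ x y a b r => hZ i φ x y a.1.1 b.1.1 r) fun B => ?_
  by_cases hB : A < B
  · refine Pt.ss_of_inv (ih B hB) (fun _ x => x) (fun _ x => x)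
      ⟨fun _ _ a => ⟨a.1.1.1, a.2⟩, fun _ _ _ _ _ _ _ r => r⟩
      ⟨fun _ x a => ?_, fun _ _ _ _ _ _ _ r => r⟩ (fun _ _ _ => rfl) (fun _ _ _ => rfl)
      fun _ _ _ => rfl
    obtain ⟨i, h2, h3⟩ := Set.exists_of_ssubset hB
    exact ⟨⟨⟨a.1, fun j hj => (a.2 j).2 (hB.le hj)⟩, i, h3, (a.2 i).2 h2⟩, a.2⟩
  · refine .of_uzero (uzero_empty fun _ x a => hB ⟨fun j hj => (a.2 j).1 (a.1.1.2 j hj),
      fun e => ?_⟩)
    obtain ⟨i, h2, h3⟩ := a.1.2
    exact h2 (e ((a.2 i).1 h3))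

theorem ss_chart_pattern {o : Option σ} {D : Set (Option σ)}
    (h : ∀ C, D ⊆ C → SS ((chart f o C).E χ)) (A : Set (Option σ)) :
    SS (((chart f o D).restr _ (conv_pattern (S := chart f o D) (Z := fun i _ w => w i = 0)
      (fun i _ _ φ _ _ _ _ r => (r i).eq_of φ.zero) A)).E χ) := by
  refine Pt.ss_pattern (S := chart f o D) (Z := fun i _ w => w i = 0)
    (fun i _ _ φ _ _ _ _ r => (r i).eq_of φ.zero) (fun C => ?_) A
  exact Pt.ss_of_inv (h (D ∪ C) Set.subset_union_left) (fun _ x => x) (fun _ x => x)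
    ⟨fun _ _ a => ⟨a.1.1, a.1.2.1, fun i hi => hi.elim (a.1.2.2.1 i) (a.2 i), a.1.2.2.2⟩,
      fun _ _ _ _ _ _ _ r => r⟩
    ⟨fun _ _ a => ⟨⟨a.1, a.2.1, fun i hi => a.2.2.1 i (.inl hi), a.2.2.2⟩,
      fun i hi => a.2.2.1 i (.inr hi)⟩, fun _ _ _ _ _ _ _ r => r⟩
    (fun _ _ _ => rfl) (fun _ _ _ => rfl) fun _ _ _ => rfl

/-- The complement of a union of coordinate subspaces. -/
theorem ss_qp {μ : κ → Option σ →₀ ℕ}
    (hg : ∀ j, ∃ d, (monomial (μ j) (1 : k)).IsHomogeneous d) (rk : Option σ → ℕ)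
    (h : ∀ o C, (∀ i, rk i < rk o → i ∈ C) → SS ((chart f o C).E χ)) :
    SS ((qp hf hg).E χ) := by
  refine ss_of_patterns (S := qp hf hg) (Z := fun i _ x => nr i x i = 0)
    (fun i _ _ φ x y a b r => closed_nr hf i φ x y a.1 b.1 r) fun A => ?_
  by_cases hA : Aᶜ.Nonempty ∧ ∃ j, ∀ i ∈ (μ j).support, i ∉ A
  · obtain ⟨o, ho, hm⟩ := Set.exists_min_image Aᶜ rk (Set.toFinite _) hA.1
    obtain ⟨j, hj⟩ := hA.2
    have hl : ∀ i, rk i < rk o → i ∈ A := fun i hi => by_contra fun e => (hm i e).not_gt hi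
    have H := ss_chart_pattern (D := {i | rk i < rk o}) (h o) A
    have sur : ∀ ⦃K : Fld k⦄ (w : Option σ → K), w o = 1 → (∀ j, aeval w (f j) = 0) →
        (∀ i, w i = 0 ↔ i ∈ A) → ∃ x : Proj f K, nr o x = w ∧ nr o x o ≠ 0 ∧
          ¬ P.OnH (fun j => monomial (μ j) (1 : k)) x ∧ ∀ i, nr i x i = 0 ↔ i ∈ A := by
      intro K w h1 h2 h3
      have e : nr o (Quot.mk _ (ofV w ⟨o, h1 ▸ one_ne_zero⟩ h2)) = w := funext fun i => by
        change w i / w o = w i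
        rw [h1, div_one]
      have e' : nr o (Quot.mk _ (ofV w ⟨o, h1 ▸ one_ne_zero⟩ h2)) o ≠ 0 := by
        rw [e, h1]; exact one_ne_zero
      refine ⟨_, e, e', fun c => ?_, fun i => by rw [← nr_eq_zero e', e, h3]⟩
      have := (onH_iff hg e').1 c j
      rw [e, aeval_monomial, map_one, one_mul, Finsupp.prod, Finset.prod_eq_zero_iff] at this
      obtain ⟨i, hi, h0⟩ := this
      exact hj i hi ((h3 i).1 (pow_eq_zero_iff (Finsupp.mem_support_iff.1 hi) |>.1 h0))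
    refine .of_eqv ?_ H
    refine ⟨_, IsMap.bij (e := fun _ x => nr o x) (.of_proper
      ⟨fun _ x a => ?_, fun _ _ φ x y _ b r => R.nr r fun e => ho ((b.2 o).1 e)⟩
      (fun _ _ _ => Finset.prod_const_one) fun _ _ φ x z a b r => ?_) (fun _ x a => ?_)
      (fun _ x y a _ => nr_inj fun e => ho ((a.2 o).1 e)) fun _ w a => ?_⟩
    · have h0 : nr o x o ≠ 0 := fun e => ho ((a.2 o).1 e)
      exact ⟨⟨fun _ => trivial, nr_one h0, fun i hi => (nr_eq_zero h0).2 ((a.2 i).2 (hl i hi)),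
        root_nr hf h0⟩, fun i => (nr_eq_zero h0).trans (a.2 i)⟩
    · obtain ⟨y, e1, e2, e3, e4⟩ := sur z b.1.2.1 b.1.2.2.2 b.2
      exact ⟨y, ⟨⟨trivial, e3⟩, e4⟩, R.of_nr hf e2 (e1 ▸ r)⟩
    · have h0 : nr o x o ≠ 0 := fun e => ho ((a.2 o).1 e)
      exact ⟨⟨fun _ => trivial, nr_one h0, fun i hi => (nr_eq_zero h0).2 ((a.2 i).2 (hl i hi)),
        root_nr hf h0⟩, fun i => (nr_eq_zero h0).trans (a.2 i)⟩
    · obtain ⟨y, e1, -, e3, e4⟩ := sur w a.1.2.1 a.1.2.2.2 a.2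
      exact ⟨y, ⟨⟨trivial, e3⟩, e4⟩, e1⟩
  · refine .of_uzero (uzero_empty fun _ x a => hA ?_)
    obtain ⟨o, ho⟩ := exists_nr x
    refine ⟨⟨o, fun e => ho ((a.2 o).2 e)⟩,
      by_contra fun e => a.1.2 ((onH_iff hg ho).2 fun j => ?_)⟩
    push Not at e
    obtain ⟨i, h1, h2⟩ := e j
    rw [aeval_monomial, Finsupp.prod, Finset.prod_eq_zero h1, mul_zero]
    rw [(nr_eq_zero ho).2 ((a.2 i).2 h2), zero_pow (Finsupp.mem_support_iff.1 h1)]

end

end Pool.Agent.Lib.MP_fc2ced_ag.T
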