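import Pool.Agent.Lib.MP_fc2ced_ag.G.VA
import Pool.Agent.Lib.MP_fc2ced_ag.G.Ord

/-! Points and punctured lines as bases. -/

open CategoryTheory Function Polynomial

namespace Pool.Agent.Lib.MP_fc2ced_ag.T

open K

noncomputable section

variable {k : Type} [Field k] {F : Type} [Field F] [CharZero F] [IsAlgClosed k] [IsAlgClosed F]
  {χ : Chr k F}

open MP_fc2ced_ag.T.Pt hiding X

/-- Factorization in linear factors. -/
theorem exists_fact {q : k[X]} (hq : q ≠ 0) : ∃ (n : ℕ) (r : Fin n → k) (c : k), c ≠ 0 ∧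
    ∀ (K : Fld k) (x : K), aeval x q = algebraMap k K c * ∏ i, (x - algebraMap k K (r i)) := by
  obtain ⟨l, hl⟩ := Quot.exists_rep q.roots
  refine ⟨l.length, l.get, q.leadingCoeff, leadingCoeff_ne_zero.2 hq, fun K x => ?_⟩
  conv_lhs => rw [(IsAlgClosed.splits q).eq_prod_roots, ← hl, ← List.ofFn_get l]
  rw [map_mul, aeval_C, map_multiset_prod, Multiset.map_map, Multiset.quot_mk_to_coe'',
    ← Fin.univ_val_map, Multiset.map_map, Finset.prod_eq_multiset_prod]
  simp only [Function.comp_def, map_sub, aeval_X, aeval_C]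

omit [IsAlgClosed k] in
theorem rel_aeval {K K' : Fld k} (φ : Place K K') {x : K} {y : K'} (r : φ x y) (q : k[X]) :
    φ (aeval x q) (aeval y q) := by
  rw [aeval_eq_sum_range, aeval_eq_sum_range]
  simp only [Algebra.smul_def]
  exact Place.sum fun i _ => (φ.alg _).mul (r.pow i)

variable {J : Type} [Fintype J] (p : J → k[X]) (e : J → ℤ)

/-- The locus where finitely many polynomials do not vanish. -/
@[reducible] def polB : Bs k where
  D _ x := ∀ j, aeval x (p j) ≠ 0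
  w _ x := mn e fun j => aeval x (p j)
  conv := Open.conv fun _ _ φ _ _ _ _ r h j => (rel_aeval φ r (p j)).ne_zero (h j)
  reg _ _ φ _ _ _ b r := rel_mn _ (fun j => rel_aeval φ r (p j)) b.2
  ne _ _ _ h := mn_ne _ h

theorem isCur_polB (hp : ∀ j, p j ≠ 0) : IsCur (polB p e) := by
  choose n r c hc h using fun j => exists_fact (hp j)
  refine ⟨Σ j, Fin (n j), inferInstance, fun s => r s.1 s.2, fun s => e s.1, ∏ j, c j ^ e j,
    fun K x _ => ⟨?_, fun _ => ?_⟩⟩
  · simp only [h, mul_ne_zero_iff, Finset.prod_ne_zero_iff, sub_ne_zero, Sigma.forall]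
    exact forall_congr' fun j => ⟨fun a i => a.2 i (Finset.mem_univ i),
      fun a => ⟨(_root_.map_ne_zero _).2 (hc j), fun i _ => a i⟩⟩
  · simp only [mn, h, mul_zpow, Finset.prod_mul_distrib, map_prod, map_zpow₀, Fintype.prod_sigma,
      Finset.prod_zpow]

/-- The complement of finitely many points, with a constant function. -/
@[reducible] def cstB (y : J → k) {κ : k} (hκ : κ ≠ 0) : Bs k where
  D K x := ∀ j, x ≠ algebraMap k K (y j)
  w K _ := algebraMap k K κ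
  conv := Open.conv fun _ _ φ _ _ _ _ r h j e => h j (r.eq_of (φ.alg _) e)
  reg := regF_const κ
  ne _ _ _ _ := (_root_.map_ne_zero _).2 hκ

omit [IsAlgClosed k] in
theorem isCur_cstB (y : J → k) {κ : k} (hκ : κ ≠ 0) : IsCur (cstB y hκ) :=
  ⟨J, inferInstance, y, 0, κ, fun _ _ _ => ⟨Iff.rfl, fun _ => by simp⟩⟩

theorem ss_ovB_pt {S : Pt k} {l : ∀ ⦃K⦄, S.X K → K} (hl : S.Reg (gm k) l)
    (h : ∀ β, IsCur β → SS ((S.ovB β l hl).E χ)) {β : Bs k} (hβ : IsPt β) :
    SS ((S.ovB β l hl).E χ) := by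
  obtain ⟨a, κ, hβ⟩ := hβ
  have n {K : Fld k} {x : S.X K} (hx : S.L x) : l x ≠ 0 := (hl.live x hx).2
  by_cases hκ : κ = 0
  · refine .of_uzero (uzero_empty fun K x hx => β.ne _ (n hx.1) hx.2 ?_)
    rw [(hβ _ (n hx.1)).2 hx.2, hκ, map_zero]
  have c : (S.ovB (cstB (J := Empty) (fun j => j.elim) hκ) l hl).Closed
      fun K x => l x = algebraMap k K a :=
    fun _ _ φ x y p q r e => (hl.reg φ x y p.1 q.1 r).eq_of (φ.alg a) e
  refine .of_eqv (eqv_of_inv (S := S.ovB β l hl) (S' := Pt.restr _ _ c.conv)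
    (e := fun _ x => x) (g := fun _ x => x)
    ⟨fun _ x p => ⟨⟨p.1, fun j => j.elim⟩, (hβ _ (n p.1)).1.1 p.2⟩, fun _ _ _ _ _ _ _ r => r⟩
    ⟨fun _ x p => ⟨p.1.1, (hβ _ (n p.1.1)).1.2 p.2⟩, fun _ _ _ _ _ _ _ r => r⟩
    (fun _ x p => congrArg (S.f x * ·) ((hβ _ (n p.1)).2 p.2).symm) (fun _ _ _ => rfl)
    fun _ _ _ => rfl) (ss_closed c (h _ (isCur_cstB _ hκ)) ?_)
  exact .of_eqv (eqv_of_inv (S := Pt.restr _ _ c.not.conv)
    (S' := S.ovB (cstB (fun _ : Unit => a) hκ) l hl)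
    (e := fun _ x => x) (g := fun _ x => x)
    ⟨fun _ x p => ⟨p.1.1, fun _ => p.2⟩, fun _ _ _ _ _ _ _ r => r⟩
    ⟨fun _ x p => ⟨⟨p.1, fun j => j.elim⟩, p.2 ()⟩, fun _ _ _ _ _ _ _ r => r⟩
    (fun _ _ _ => rfl) (fun _ _ _ => rfl) fun _ _ _ => rfl) (h _ (isCur_cstB _ hκ))

omit [IsAlgClosed k] in
theorem exists_pol (g : ℤ) : ∃ (m : ℤ) (q : k → k[X]), (∀ y, q y = 0 → g = 0 ∧ y = 1) ∧
    ∀ (y : k) (K : Fld k) (x : K), x ≠ 0 → x ^ g - algebraMap k K y = x ^ m * aeval x (q y) := by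
  obtain ⟨n, rfl | rfl⟩ := g.eq_nat_or_neg
  · refine ⟨0, fun y => X ^ n - C y, fun y h => ?_, fun y K x _ => by simp⟩
    obtain rfl : n = 0 := by
      by_contra hn
      exact X_pow_sub_C_ne_zero (Nat.pos_of_ne_zero hn) y h
    rw [pow_zero, ← C_1, sub_eq_zero, C_inj] at h
    exact ⟨rfl, h.symm⟩
  · refine ⟨-n, fun y => 1 - C y * X ^ n, fun y h => ?_, fun y K x hx => ?_⟩
    · have h0 := congrArg (Polynomial.eval 0) h
      obtain rfl : n = 0 := by
        by_contra hn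
        simp [hn] at h0
      simp only [pow_zero, mul_one, eval_sub, eval_one, eval_C, eval_zero, sub_eq_zero] at h0
      exact ⟨rfl, h0.symm⟩
    · have := pow_ne_zero n hx
      simp only [map_sub, map_one, map_mul, aeval_C, map_pow, aeval_X, zpow_neg, zpow_natCast]
      field_simp

theorem ss_tm_cur {β : Bs k} (c g : ℤ) (h : IsCur β) :
    SS ((tm (fun _ : Unit => c) (fun _ => g) β).E χ) := by
  obtain ⟨J, _, y, e, κ, h⟩ := h
  obtain ⟨m, q, h0, hq⟩ := exists_pol (k := k) g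
  have em {K : Fld k} (t : Unit → K) : mn (fun _ => g) t = t () ^ g := Fintype.prod_unique _
  by_cases z : ∃ j, q (y j) = 0
  · obtain ⟨j, z⟩ := z
    obtain ⟨rfl, z⟩ := h0 _ z
    refine .of_uzero (uzero_empty fun K t ht => (h _ (mn_ne _ ht.1.2)).1.1 ht.2 j ?_)
    rw [em, z, zpow_zero, map_one]
  obtain ⟨J', _, y', e', κ', h'⟩ := isCur_polB (fun j => q (y j)) e (not_exists.1 z)
  have d {K : Fld k} {x : K} (hx : x ≠ 0) :
      β.D (x ^ g) ↔ ∀ j, x ≠ algebraMap k K (y' j) := by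
    rw [(h _ (zpow_ne_zero g hx)).1, ← (h' x hx).1]
    refine forall_congr' fun j => ?_
    rw [← sub_ne_zero, hq _ _ _ hx, mul_ne_zero_iff, and_iff_right (zpow_ne_zero m hx)]
  refine .of_eqv (eqv_const (S := cv (fun o : Option J' => o.elim 0 y')
    fun o => o.elim (c + m * ∑ j, e j) e') (S' := tm (fun _ : Unit => c) (fun _ => g) β)
    (e := fun _ x _ => x) (g := fun _ t => t ())
    ⟨fun K x p => ?_, fun _ _ _ _ _ _ _ r _ => r⟩ ⟨fun K t p => ?_, fun _ _ _ _ _ _ _ r => r ()⟩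
    (κ * κ') regF_one (fun K x p => ?_) (fun _ _ _ => rfl) fun _ _ _ => rfl).symm (ss_cv _ _)
  · have hx : x ≠ 0 := by simpa using p.2 none
    exact ⟨⟨fun _ => trivial, fun _ => hx⟩, 
      (congrArg (β.D (K := K)) (em _)).mpr ((d hx).2 fun j => p.2 (some j))⟩
  · refine ⟨trivial, Option.rec (by simpa using p.1.2 ()) ((d (p.1.2 ())).1 ?_)⟩
    rw [← em]
    exact p.2
  · have hx : x ≠ 0 := by simpa using p.2 none
    have e1 := (h _ (zpow_ne_zero g hx)).2 ((d hx).2 fun j => p.2 (some j))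
    have e2 := (h' x hx).2 ((h' x hx).1.2 fun j => p.2 (some j))
    change (∏ _ : Unit, x ^ c) * β.w (mn (fun _ : Unit => g) fun _ => x) =
      (∏ o : Option J', (x - algebraMap k K (o.elim 0 y')) ^ (o.elim (c + m * ∑ j, e j) e' : ℤ)) *
        (algebraMap k K (κ * κ') * 1 ^ χ.N)
    change ∏ j, aeval x (q (y j)) ^ e j = _ at e2
    rw [em, e1, Fintype.prod_unique, Fintype.prod_option]
    simp only [hq _ _ _ hx, mul_zpow, Finset.prod_mul_distrib, e2, Option.elim, map_zero, sub_zero,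
      prod_zpow_sumM (zpow_ne_zero m hx), zpow_add₀ hx, zpow_mul, map_mul, one_pow]
    ring

theorem adm_cur : Adm F (IsCur (k := k)) := by
  refine ⟨?_, ?_, fun β χ c g h => ss_tm_cur c g h, ?_⟩
  · rintro β g ⟨J, _, y, e, κ, h⟩
    refine ⟨J, inferInstance, y, fun j => e j * g, κ ^ g, fun K x hx => ⟨(h x hx).1, fun d => ?_⟩⟩
    change β.w x ^ g = _
    simp only [(h x hx).2 d, mul_pow, map_pow, zpow_mul, zpow_natCast, Finset.prod_pow]
  · rintro β a ha ⟨J, _, y, e, κ, h⟩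
    refine ⟨J, inferInstance, fun j => y j / a, e, κ * ∏ j, a ^ e j, fun K x hx => ?_⟩
    have n : algebraMap k K a ≠ 0 := (_root_.map_ne_zero _).2 ha
    have e1 (j : J) : algebraMap k K a * x - algebraMap k K (y j) =
        algebraMap k K a * (x - algebraMap k K (y j / a)) := by
      rw [map_div₀, mul_sub, mul_div_cancel₀ _ n]
    refine ⟨(h _ (mul_ne_zero n hx)).1.trans (forall_congr' fun j => ?_), fun d => ?_⟩
    · rw [← sub_ne_zero, e1, mul_ne_zero_iff, and_iff_right n, sub_ne_zero]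
    · refine ((h _ (mul_ne_zero n hx)).2 d).trans ?_
      simp only [e1, mul_zpow, Finset.prod_mul_distrib, map_mul, map_prod, map_zpow₀, mul_assoc]
  · rintro β χ ⟨J, _, y, e, κ, h⟩
    have em {K : Fld k} (t : Empty → K) : mn (fun _ => 0) t = 1 := Fintype.prod_empty _
    refine ss_point (S := tm (fun _ : Empty => 0) (fun _ => 0) β) (fun _ j => j.elim)
      (fun _ _ _ j => j.elim) (fun _ _ _ => Subsingleton.elim _ _)
      (fun K K' d => ⟨⟨fun j => j.elim, fun j => j.elim⟩, ?_⟩) (κ * ∏ j, (1 - y j) ^ e j)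
      fun K d => ?_
    · have d2 : β.D (mn _ _) := d.2
      change β.D (mn _ _)
      rw [em] at d2 ⊢
      refine (h _ one_ne_zero).1.2 fun j z => (h _ one_ne_zero).1.1 d2 j ?_
      rw [← map_one (algebraMap k K'), (algebraMap k K').injective.eq_iff] at z
      rw [← z, map_one]
    · have d2 : β.D (mn _ _) := d.2
      dsimp only
      rw [em] at d2 ⊢
      simp only [(h _ one_ne_zero).2 d2, Fintype.prod_empty, one_mul, map_mul, map_prod, map_zpow₀,
        map_sub, map_one]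

theorem adm_pt : Adm F (IsPt (k := k)) := by
  refine ⟨?_, ?_, fun β χ c g h => ss_ovB_pt _ (fun β' h' => adm_cur.cur β' χ c g h') h,
    fun β χ h => ss_ovB_pt _ (fun β' h' => adm_cur.pt β' χ h') h⟩
  · rintro β g ⟨a, κ, h⟩
    exact ⟨a, κ ^ g, fun K x hx => ⟨(h x hx).1, fun d =>
      (congrArg (· ^ g) ((h x hx).2 d)).trans (map_pow _ _ _).symm⟩⟩
  · rintro β b hb ⟨a, κ, h⟩
    refine ⟨a / b, κ, fun K x hx => ?_⟩
    have n : algebraMap k K b ≠ 0 := (_root_.map_ne_zero _).2 hb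
    exact ⟨(h _ (mul_ne_zero n hx)).1.trans (by rw [map_div₀, eq_div_iff n, mul_comm]),
      (h _ (mul_ne_zero n hx)).2⟩

/-- A fibre is the complement of the total space over the punctured base. -/
theorem WS.pt_of_cur {ι : Type} [Fintype ι] {c γ : ι → ℤ} (h : WS IsCur χ c γ) :
    WS IsPt χ c γ := fun ε hε _ hβ => ss_ovB_pt _ (h ε hε) hβ

end

end Pool.Agent.Lib.MP_fc2ced_ag.T
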