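import Pool.Agent.Lib.MP_fc2ced_ag.G.Lin

/-! The two rulings of a family of split quadrics. -/

open CategoryTheory Function Matrix

namespace Pool.Agent.Lib.MP_fc2ced_ag.T

open K

noncomputable section

variable {k : Type} [Field k] {F : Type} [Field F] {χ : Chr k F}

namespace Pt

variable (P : Pt k) (α : Type) [Fintype α]

/-- A family of bilinear forms with centre and constant term. -/
structure BilD where
  M : ∀ ⦃K : Fld k⦄, P.X K → Matrix α α K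
  a : ∀ ⦃K : Fld k⦄, P.X K → α → K
  b : ∀ ⦃K : Fld k⦄, P.X K → α → K
  h : ∀ ⦃K : Fld k⦄, P.X K → K
  rM : ∀ i j, P.RegF fun _ p => M p i j
  ra : ∀ i, P.RegF fun _ p => a p i
  rb : ∀ i, P.RegF fun _ p => b p i
  rh : P.RegF h

variable {P α} (D : BilD P α)

theorem BilD.closed : (P.prod (((line k).pi α).prod ((line k).pi α))).Closed fun _ x =>
    D.h x.1 + (x.2.1 + D.a x.1) ⬝ᵥ (D.M x.1 *ᵥ (x.2.2 + D.b x.1)) = 0 := fun _ _ φ _ _ p q r e =>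
  ((D.rh φ _ _ p.1 q.1 r.1).add (Place.sum fun i _ =>
    ((r.2.1 i).add (D.ra i φ _ _ p.1 q.1 r.1)).mul (Place.sum fun j _ =>
      (D.rM i j φ _ _ p.1 q.1 r.1).mul ((r.2.2 j).add (D.rb j φ _ _ p.1 q.1 r.1))))).eq_of φ.zero e

/-- The family of quadrics. -/
@[reducible] def BilD.qd : Pt k :=
  (P.prod (((line k).pi α).prod ((line k).pi α))).restr _ D.closed.conv

/-- The locus of singular quadrics times an affine space. -/
@[reducible] def BilD.hz : Pt k :=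
  (P.prod ((line k).pi α)).restr (fun _ x => D.h x.1 = 0)
    ((reg_fst.regF D.rh).eq regF_zero).conv

theorem BilD.isMap_jp : IsMap D.hz D.qd fun _ x => (x.1, x.2, -D.b x.1) :=
  .of_proper ⟨fun _ x h => ⟨⟨h.1.1, h.1.2, fun _ => trivial⟩, by simp [h.2]⟩,
    fun _ _ φ _ _ p q r => ⟨r.1, r.2, fun j => (D.rb j φ _ _ p.1.1 q.1.1 r.1).neg⟩⟩
    (fun _ _ _ => by simp) fun _ _ φ _ z p q r => ⟨(z.1, z.2.1),
      ⟨⟨q.1.1, q.1.2.1⟩, (D.rh φ _ _ p.1.1 q.1.1 r.1).eq_of φ.zero p.2⟩, r.1, r.2.1⟩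

theorem BilD.isMap_jm : IsMap D.hz D.qd fun _ x => (x.1, -D.a x.1, x.2) :=
  .of_proper ⟨fun _ x h => ⟨⟨h.1.1, fun _ => trivial, h.1.2⟩, by simp [h.2]⟩,
    fun _ _ φ _ _ p q r => ⟨r.1, fun j => (D.ra j φ _ _ p.1.1 q.1.1 r.1).neg, r.2⟩⟩
    (fun _ _ _ => by simp) fun _ _ φ _ z p q r => ⟨(z.1, z.2.2),
      ⟨⟨q.1.1, q.1.2.2⟩, (D.rh φ _ _ p.1.1 q.1.1 r.1).eq_of φ.zero p.2⟩, r.1, r.2.2⟩

/-- The case of one variable. -/
theorem cross {h : ∀ ⦃K : Fld k⦄, P.X K → K} (z : UZero (P.E χ))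
    {c₁ : (P.prod (line k)).Conv fun _ x => h x.1 = 0}
    {c₂ : (P.prod ((line k).prod (line k))).Conv fun _ x => h x.1 + x.2.1 * x.2.2 = 0}
    (rh : P.RegF h) :
    ∃ (j₁ : IsMap ((P.prod (line k)).restr _ c₁) ((P.prod ((line k).prod (line k))).restr _ c₂)
        fun _ x => (x.1, x.2, 0))
      (j₂ : IsMap ((P.prod (line k)).restr _ c₁) ((P.prod ((line k).prod (line k))).restr _ c₂)
        fun _ x => (x.1, 0, x.2)), UIso (j₁.hom χ) ∧ Null (j₁.hom χ + j₂.hom χ) := by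
  have j₁ : IsMap ((P.prod (line k)).restr _ c₁) ((P.prod ((line k).prod (line k))).restr _ c₂)
      fun _ x => (x.1, x.2, 0) :=
    .of_proper ⟨fun _ x l => ⟨⟨l.1.1, trivial, trivial⟩, by simp [l.2]⟩,
      fun _ _ φ _ _ _ _ r => ⟨r.1, r.2, φ.zero⟩⟩ (fun _ _ _ => by simp)
      fun _ _ φ _ y p q r => ⟨(y.1, y.2.1),
        ⟨⟨q.1.1, trivial⟩, (rh φ _ _ p.1.1 q.1.1 r.1).eq_of φ.zero p.2⟩, r.1, r.2.1⟩
  have j₂ : IsMap ((P.prod (line k)).restr _ c₁) ((P.prod ((line k).prod (line k))).restr _ c₂)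
      fun _ x => (x.1, 0, x.2) :=
    .of_proper ⟨fun _ x l => ⟨⟨l.1.1, trivial, trivial⟩, by simp [l.2]⟩,
      fun _ _ φ _ _ _ _ r => ⟨r.1, φ.zero, r.2⟩⟩ (fun _ _ _ => by simp)
      fun _ _ φ _ y p q r => ⟨(y.1, y.2.2),
        ⟨⟨q.1.1, trivial⟩, (rh φ _ _ p.1.1 q.1.1 r.1).eq_of φ.zero p.2⟩, r.1, r.2.2⟩
  have zp : ∀ S : Pt k, UZero ((P.prod S).E χ) := fun S =>
    bij_ten.uiso.uzero_iff.2 (z.ten (con _))
  have sol : ∀ ⦃K : Fld k⦄ {c a b : K}, b ≠ 0 → c + a * b = 0 → -c / b = a := fun _ _ _ _ n e => by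
    rw [div_eq_iff n]; linear_combination -e
  have los : ∀ ⦃K : Fld k⦄ {c b : K}, b ≠ 0 → c + -c / b * b = 0 := fun _ _ _ n => by
    rw [div_mul_cancel₀ _ n, add_neg_cancel]
  have p : IsMap ((P.prod ((line k).prod (line k))).restr _ c₂) (P.prod (gm k))
      fun _ x => (x.1, x.2.2) :=
    .of_open (fun _ _ _ _ _ hx _ r l => ⟨hx.1.1, trivial, r.2.2.ne_zero l.2.2⟩)
      (.of_inv (g := fun _ x => (x.1, -h x.1 / x.2, x.2))
        ⟨fun _ _ l => l.2, fun _ _ _ _ _ _ _ r => ⟨r.1, r.2.2⟩⟩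
        ⟨fun _ _ l => ⟨⟨⟨l.1, trivial, trivial⟩, los l.2.2⟩, l⟩, fun _ _ φ _ _ hx hy r =>
          ⟨r.1, (rh φ _ _ hx.1 hy.1 r.1).neg.div r.2 hy.2.2, r.2⟩⟩
        (fun _ _ _ => by simp) fun _ x l => Prod.ext rfl (Prod.ext (sol l.2.2.2 l.1.2) rfl))
  refine ⟨j₁, j₂, (ses j₁ p (fun _ x l => ⟨⟨l.1.1, trivial, trivial⟩, by simp [l.2]⟩)
    (fun _ _ _ _ _ e => Prod.ext (congrArg (·.1) e) (congrArg (·.2.1) e)) (fun _ y hy => ?_)
    (fun _ y y' hy hy' l e => ?_) fun _ x l => ⟨(x.1, -h x.1 / x.2, x.2),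
      ⟨⟨l.1, trivial, trivial⟩, los l.2.2⟩, rfl⟩).uzero₃_iff.1 (zp _), ?_⟩
  · refine ⟨fun n => ?_, fun ⟨x, _, e⟩ l => l.2.2 (congrArg (·.2.2) e).symm⟩
    have e : y.2.2 = 0 := not_not.1 fun l => n ⟨hy.1.1, trivial, l⟩
    exact ⟨(y.1, y.2.1), ⟨⟨hy.1.1, trivial⟩, by simpa [e] using hy.2⟩,
      Prod.ext rfl (Prod.ext rfl e.symm)⟩
  · have e₁ : y.1 = y'.1 := congrArg (·.1) e
    have e₂ : y.2.2 = y'.2.2 := congrArg (·.2) e
    refine Prod.ext e₁ (Prod.ext ?_ e₂)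
    rw [← sol l.2.2 hy.2, e₁, e₂]
    exact sol (e₂ ▸ l.2.2) hy'.2
  have hc : (P.prod (line k)).RegP fun _ x => quad x.2 (-h x.1) :=
    fun _ _ φ _ _ hx hy r => quad_PR r.2 (rh φ _ _ hx.1 hy.1 r.1).neg
  have c := isCor_root (S' := (P.prod ((line k).prod (line k))).restr _ c₂) hc
    (fun _ _ _ => quad_monic _ _) (e := fun _ x s => (x.1, s, x.2 - s))
    (.of_inv (g := fun _ y => ((y.1, y.2.1 + y.2.2), y.2.1))
      ⟨fun _ _ l => ⟨⟨l.1.1.1, trivial, trivial⟩, by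
          have := quad_root.1 l.2
          linear_combination this⟩,
        fun _ _ _ _ _ _ _ r => ⟨r.1.1, r.2, r.1.2.sub r.2⟩⟩
      ⟨fun _ _ l => ⟨⟨⟨l.1.1, trivial⟩, trivial⟩, quad_root.2 (by
          have := l.2
          linear_combination this)⟩,
        fun _ _ _ _ _ _ _ r => ⟨⟨r.1, r.2.1.add r.2.2⟩, r.2.1⟩⟩
      (fun _ _ _ => by simp) fun _ x _ => Prod.ext (Prod.ext rfl (add_sub_cancel _ _)) rfl)
  have cl : (P.prod (line k)).Closed fun _ x => h x.1 = 0 := (reg_fst.regF rh).eq regF_zero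
  rw [show j₁.hom χ + j₂.hom χ = (isMap_closed cl).hom χ ≫ c.hom χ from hom_ext fun K x hx => ?_]
  · exact ((zp _).null_left _).precomp _
  rw [Ob.comp_apply, IsMap.hom_cl _ hx, c.hom_cl hx.1,
    quad_roots (a := x.2) (b := 0) (add_zero _).symm (by rw [hx.2, neg_zero, mul_zero])]
  change (j₁.hom χ).1 K _ + (j₂.hom χ).1 K _ = _
  rw [j₁.hom_cl hx, j₂.hom_cl hx, Multiset.insert_eq_cons, Multiset.map_cons,
    Multiset.map_singleton, cls_cons, cls_singleton, sub_self, sub_zero]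

theorem bil_iso {S S' : Pt k} {e : ∀ ⦃K⦄, S.X K → S'.X K} {g : ∀ ⦃K⦄, S'.X K → S.X K}
    (h : S.Reg S' e) (h' : S'.Reg S g) (f : ∀ ⦃K⦄ (x : S.X K), S.L x → S'.f (e x) = S.f x)
    (l : ∀ ⦃K⦄ (x : S.X K), S.L x → g (e x) = x) (r : ∀ ⦃K⦄ (y : S'.X K), S'.L y → e (g y) = y) :
    ∃ m : IsMap S S' e, UIso (m.hom χ) :=
  ⟨.of_inv h h' f l, (IsMap.bij _ h.live (fun _ x x' a b c => (l x a).symm.trans (c ▸ l x' b))
    fun _ y hy => ⟨g y, h'.live y hy, r y hy⟩).uiso⟩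

theorem bil_uzero {S : Pt k} (z : UZero (S.E χ)) (Q : Pt k) : UZero ((S.prod Q).E χ) :=
  (bij_ten (χ := χ) (S := S) (S' := Q)).uiso.uzero_iff.2 (z.ten (con _))

theorem BilD.regq : (P.prod (((line k).pi α).prod ((line k).pi α))).RegF fun _ x =>
    D.h x.1 + (x.2.1 + D.a x.1) ⬝ᵥ (D.M x.1 *ᵥ (x.2.2 + D.b x.1)) := fun _ _ φ _ _ p q r =>
  (D.rh φ _ _ p.1 q.1 r.1).add (Place.sum fun i _ =>
    ((r.2.1 i).add (D.ra i φ _ _ p.1 q.1 r.1)).mul (Place.sum fun j _ =>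
      (D.rM i j φ _ _ p.1 q.1 r.1).mul ((r.2.2 j).add (D.rb j φ _ _ p.1 q.1 r.1))))

/-- The family pulled back to a product. -/
def BilD.pull (Q : Pt k) : BilD (P.prod Q) α where
  M _ x := D.M x.1
  a _ x := D.a x.1
  b _ x := D.b x.1
  h _ x := D.h x.1
  rM i j := reg_fst.regF (D.rM i j)
  ra i := reg_fst.regF (D.ra i)
  rb i := reg_fst.regF (D.rb i)
  rh := reg_fst.regF D.rh

/-- The family with renumbered rows and columns. -/
def BilD.re {β : Type} [Fintype β] (rr rc : α ≃ β) : BilD P β where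
  M _ x := (D.M x).submatrix rr.symm rc.symm
  a _ x := D.a x ∘ rr.symm
  b _ x := D.b x ∘ rc.symm
  h := D.h
  rM _ _ := D.rM _ _
  ra _ := D.ra _
  rb _ := D.rb _
  rh := D.rh

section Schur
variable {K : Type} [Field K] {m : ℕ} {M : Matrix (Fin (m + 1)) (Fin (m + 1)) K}

/-- The Schur complement of the first entry. -/
def bilSchur (M : Matrix (Fin (m + 1)) (Fin (m + 1)) K) : Matrix (Fin m) (Fin m) K :=
  Matrix.of fun i j => M i.succ j.succ - M i.succ 0 * M 0 j.succ / M 0 0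

theorem bilSchur_mulVec (d : M 0 0 ≠ 0) (c : Fin (m + 1) → K) (i : Fin m) :
    (bilSchur M *ᵥ Fin.tail c) i = (M *ᵥ c) i.succ - M i.succ 0 / M 0 0 * (M *ᵥ c) 0 := by
  simp only [bilSchur, mulVec, dotProduct, Fin.sum_univ_succ, Matrix.of_apply, Fin.tail, sub_mul,
    Finset.sum_sub_distrib, mul_add, Finset.mul_sum]
  rw [← mul_assoc, div_mul_cancel₀ _ d, add_sub_add_left_eq_sub]
  exact congrArg _ (Finset.sum_congr rfl fun j _ => by ring)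

theorem bilSchur_form (d : M 0 0 ≠ 0) (u c : Fin (m + 1) → K) :
    Fin.tail u ⬝ᵥ (bilSchur M *ᵥ Fin.tail c) + (u ᵥ* M) 0 / M 0 0 * (M *ᵥ c) 0 =
      u ⬝ᵥ (M *ᵥ c) := by
  simp only [dotProduct, bilSchur_mulVec d, vecMul, Fin.sum_univ_succ, Fin.tail, mul_sub,
    Finset.sum_sub_distrib, add_div, add_mul, Finset.sum_div, Finset.sum_mul]
  simp only [← mul_assoc, ← mul_div_assoc]
  rw [mul_div_cancel_right₀ _ d]
  ring

theorem bil_row (d : M 0 0 ≠ 0) (a : Fin (m + 1) → K) (A : K) (u : Fin m → K) :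
    (((Fin.cons (A - a 0 - (∑ i, (u i + a i.succ) * M i.succ 0) / M 0 0) u : Fin (m + 1) → K) + a)
      ᵥ* M) 0 / M 0 0 = A := by
  simp only [vecMul, dotProduct, Fin.sum_univ_succ, Pi.add_apply, Fin.cons_zero, Fin.cons_succ]
  field_simp
  ring

theorem bil_row' (d : M 0 0 ≠ 0) (a u : Fin (m + 1) → K) :
    (Fin.cons (((u + a) ᵥ* M) 0 / M 0 0 - a 0 - (∑ i, (Fin.tail u i + a i.succ) * M i.succ 0) /
      M 0 0) (Fin.tail u) : Fin (m + 1) → K) = u := by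
  refine Eq.trans (congrArg (fun t => (Fin.cons t (Fin.tail u) : Fin (m + 1) → K)) ?_)
    (Fin.cons_self_tail u)
  simp only [vecMul, dotProduct, Fin.sum_univ_succ, Pi.add_apply, Fin.tail]
  field_simp
  ring

theorem bil_col (d : M 0 0 ≠ 0) (b : Fin (m + 1) → K) (B : K) (c : Fin m → K) :
    (M *ᵥ ((Fin.cons ((B - ∑ j, M 0 j.succ * (c j + b j.succ)) / M 0 0 - b 0) c :
      Fin (m + 1) → K) + b)) 0 = B := by
  simp only [mulVec, dotProduct, Fin.sum_univ_succ, Pi.add_apply, Fin.cons_zero, Fin.cons_succ]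
  field_simp
  ring

theorem bil_col' (d : M 0 0 ≠ 0) (b c : Fin (m + 1) → K) :
    (Fin.cons (((M *ᵥ (c + b)) 0 - ∑ j, M 0 j.succ * (Fin.tail c j + b j.succ)) / M 0 0 - b 0)
      (Fin.tail c) : Fin (m + 1) → K) = c := by
  refine Eq.trans (congrArg (fun t => (Fin.cons t (Fin.tail c) : Fin (m + 1) → K)) ?_)
    (Fin.cons_self_tail c)
  simp only [mulVec, dotProduct, Fin.sum_univ_succ, Pi.add_apply, Fin.tail]
  field_simp
  ring

/-- All leading blocks are injective. -/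
def BilPiv {m : ℕ} (M : Matrix (Fin m) (Fin m) K) : Prop :=
  ∀ (j : ℕ) (v : Fin m → K), (∀ i : Fin m, j ≤ (i : ℕ) → v i = 0) →
    (∀ i : Fin m, (i : ℕ) < j → (M *ᵥ v) i = 0) → v = 0

theorem BilPiv.ne (h : BilPiv M) : M 0 0 ≠ 0 := fun e => by
  have := h 1 (Pi.single 0 1) (fun i hi => Pi.single_eq_of_ne (by rintro rfl; simp at hi) _)
    fun i hi => by
      obtain rfl : i = 0 := Fin.ext (by simpa using hi)
      simpa using e
  simpa using congrFun this 0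

theorem BilPiv.schur (h : BilPiv M) : BilPiv (bilSchur M) := fun j v h1 h2 => by
  have e0 := bil_col h.ne 0 0 v
  rw [add_zero] at e0
  have := h (j + 1) _ (fun i => Fin.cases (fun hi => by simp at hi)
    (fun i hi => h1 i (by simpa using hi)) i) fun i => Fin.cases (fun _ => e0) (fun i hi => by
      have := bilSchur_mulVec h.ne (Fin.cons ((0 - ∑ j, M 0 j.succ * (v j + (0 : Fin (m + 1) → K)
        j.succ)) / M 0 0 - (0 : Fin (m + 1) → K) 0) v) i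
      rw [e0, Fin.tail_cons, mul_zero, sub_zero] at this
      exact this.symm.trans (h2 i (by simpa using hi))) i
  exact funext fun i => congrFun this i.succ

end Schur

/-- The family of Schur complements. -/
def BilD.low {m : ℕ} (D : BilD P (Fin (m + 1)))
    (d : ∀ ⦃K : Fld k⦄ (p : P.X K), P.L p → D.M p 0 0 ≠ 0) : BilD P (Fin m) where
  M _ x := bilSchur (D.M x)
  a _ x := Fin.tail (D.a x)
  b _ x := Fin.tail (D.b x)
  h := D.h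
  rM _ _ := (D.rM _ _).sub (((D.rM _ _).mul (D.rM _ _)).div (D.rM 0 0) d)
  ra _ := D.ra _
  rb _ := D.rb _
  rh := D.rh

theorem bil_cons {K K' : Fld k} {φ : Place K K'} {m : ℕ} {a : K} {a' : K'} {u : Fin m → K}
    {u' : Fin m → K'} (h : φ a a') (h' : ∀ i, φ (u i) (u' i)) (i : Fin (m + 1)) :
    φ ((Fin.cons a u : Fin (m + 1) → K) i) ((Fin.cons a' u' : Fin (m + 1) → K') i) :=
  Fin.cases h h' i

theorem bil_vecMul {K K' : Fld k} {φ : Place K K'} {u : α → K} {u' : α → K'} {M : Matrix α α K}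
    {M' : Matrix α α K'} (h : ∀ i, φ (u i) (u' i)) (h' : ∀ i j, φ (M i j) (M' i j)) (j : α) :
    φ ((u ᵥ* M) j) ((u' ᵥ* M') j) := Place.sum fun i _ => (h i).mul (h' i j)

theorem bil_mulVec {K K' : Fld k} {φ : Place K K'} {u : α → K} {u' : α → K'} {M : Matrix α α K}
    {M' : Matrix α α K'} (h : ∀ i, φ (u i) (u' i)) (h' : ∀ i j, φ (M i j) (M' i j)) (i : α) :
    φ ((M *ᵥ u) i) ((M' *ᵥ u') i) := Place.sum fun j _ => (h' i j).mul (h j)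

section Step
variable {m : ℕ} (D : BilD P (Fin (m + 1)))
  (d : ∀ ⦃K : Fld k⦄ (p : P.X K), P.L p → D.M p 0 0 ≠ 0)

theorem BilD.closed₂ : ((P.prod (((line k).pi (Fin m)).prod ((line k).pi (Fin m)))).prod
    ((line k).prod (line k))).Closed fun _ x => ((D.low d).h x.1.1 + (x.1.2.1 + (D.low d).a x.1.1)
      ⬝ᵥ ((D.low d).M x.1.1 *ᵥ (x.1.2.2 + (D.low d).b x.1.1))) + x.2.1 * x.2.2 = 0 :=
  fun _ _ φ _ _ hx hy r e =>
    (((D.low d).regq φ _ _ hx.1 hy.1 r.1).add (r.2.1.mul r.2.2)).eq_of φ.zero e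

/-- Splitting off a hyperbolic plane. -/
theorem BilD.split : ∃ m₀ : IsMap D.qd (Pt.restr _ _ (D.closed₂ d).conv) fun _ x =>
    ((x.1, Fin.tail x.2.1, Fin.tail x.2.2), ((x.2.1 + D.a x.1) ᵥ* D.M x.1) 0 / D.M x.1 0 0,
      (D.M x.1 *ᵥ (x.2.2 + D.b x.1)) 0), UIso (m₀.hom χ) := by
  refine bil_iso (g := fun K y => (y.1.1,
    Fin.cons (y.2.1 - D.a y.1.1 0 -
      (∑ i, (y.1.2.1 i + D.a y.1.1 i.succ) * D.M y.1.1 i.succ 0) / D.M y.1.1 0 0) y.1.2.1,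
    Fin.cons ((y.2.2 - ∑ j, D.M y.1.1 0 j.succ * (y.1.2.2 j + D.b y.1.1 j.succ)) / D.M y.1.1 0 0 -
      D.b y.1.1 0) y.1.2.2))
    ⟨fun K x hx => ⟨⟨⟨hx.1.1, fun _ => trivial, fun _ => trivial⟩, trivial, trivial⟩, ?_⟩,
      fun K K' φ x y hx hy r => ⟨⟨r.1, fun i => r.2.1 _, fun i => r.2.2 _⟩, ?_, ?_⟩⟩
    ⟨fun K y hy => ⟨⟨hy.1.1.1, fun _ => trivial, fun _ => trivial⟩, ?_⟩,
      fun K K' φ x y hx hy r => ⟨r.1.1, bil_cons ?_ r.1.2.1, bil_cons ?_ r.1.2.2⟩⟩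
    (fun K x _ => by simp) (fun K x hx => ?_) fun K y hy => ?_
  · have := bilSchur_form (d _ hx.1.1) (x.2.1 + D.a x.1) (x.2.2 + D.b x.1)
    exact (add_assoc _ _ _).trans ((congrArg _ this).trans hx.2)
  · exact (bil_vecMul (fun i => (r.2.1 i).add (D.ra i φ _ _ hx.1.1 hy.1.1 r.1))
      (fun i j => D.rM i j φ _ _ hx.1.1 hy.1.1 r.1) 0).div (D.rM 0 0 φ _ _ hx.1.1 hy.1.1 r.1)
      (d _ hy.1.1)
  · exact bil_mulVec (fun j => (r.2.2 j).add (D.rb j φ _ _ hx.1.1 hy.1.1 r.1))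
      (fun i j => D.rM i j φ _ _ hx.1.1 hy.1.1 r.1) 0
  · have e := d _ hy.1.1.1
    dsimp only
    rw [← bilSchur_form e, bil_row e, bil_col e]
    exact (add_assoc _ _ _).symm.trans hy.2
  · exact (r.2.1.sub (D.ra 0 φ _ _ hx.1.1.1 hy.1.1.1 r.1.1)).sub
      ((Place.sum fun i _ => ((r.1.2.1 i).add (D.ra _ φ _ _ hx.1.1.1 hy.1.1.1 r.1.1)).mul
        (D.rM _ 0 φ _ _ hx.1.1.1 hy.1.1.1 r.1.1)).div (D.rM 0 0 φ _ _ hx.1.1.1 hy.1.1.1 r.1.1)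
        (d _ hy.1.1.1))
  · exact ((r.2.2.sub (Place.sum fun j _ => (D.rM 0 _ φ _ _ hx.1.1.1 hy.1.1.1 r.1.1).mul
      ((r.1.2.2 j).add (D.rb _ φ _ _ hx.1.1.1 hy.1.1.1 r.1.1)))).div
      (D.rM 0 0 φ _ _ hx.1.1.1 hy.1.1.1 r.1.1) (d _ hy.1.1.1)).sub
      (D.rb 0 φ _ _ hx.1.1.1 hy.1.1.1 r.1.1)
  · exact Prod.ext rfl (Prod.ext (bil_row' (d _ hx.1.1) _ _) (bil_col' (d _ hx.1.1) _ _))
  · exact Prod.ext rfl (Prod.ext (bil_row (d _ hy.1.1.1) _ _ _) (bil_col (d _ hy.1.1.1) _ _ _))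

/-- The first coordinate becomes a parameter. -/
theorem BilD.split_hz : ∃ m₀ : IsMap D.hz ((D.low d).pull (line k)).hz fun _ x =>
    ((x.1, ((x.2 + D.a x.1) ᵥ* D.M x.1) 0 / D.M x.1 0 0), Fin.tail x.2), UIso (m₀.hom χ) := by
  refine bil_iso (g := fun K y => (y.1.1,
    Fin.cons (y.1.2 - D.a y.1.1 0 -
      (∑ i, (y.2 i + D.a y.1.1 i.succ) * D.M y.1.1 i.succ 0) / D.M y.1.1 0 0) y.2))
    ⟨fun K x hx => ⟨⟨⟨hx.1.1, trivial⟩, fun _ => trivial⟩, hx.2⟩,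
      fun K K' φ x y hx hy r => ⟨⟨r.1, ?_⟩, fun i => r.2 _⟩⟩
    ⟨fun K y hy => ⟨⟨hy.1.1.1, fun _ => trivial⟩, hy.2⟩,
      fun K K' φ x y hx hy r => ⟨r.1.1, bil_cons ?_ r.2⟩⟩
    (fun K x _ => by simp) (fun K x hx => ?_) fun K y hy => ?_
  · exact (bil_vecMul (fun i => (r.2 i).add (D.ra i φ _ _ hx.1.1 hy.1.1 r.1))
      (fun i j => D.rM i j φ _ _ hx.1.1 hy.1.1 r.1) 0).div (D.rM 0 0 φ _ _ hx.1.1 hy.1.1 r.1)
      (d _ hy.1.1)
  · exact (r.1.2.sub (D.ra 0 φ _ _ hx.1.1.1 hy.1.1.1 r.1.1)).sub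
      ((Place.sum fun i _ => ((r.2 i).add (D.ra _ φ _ _ hx.1.1.1 hy.1.1.1 r.1.1)).mul
        (D.rM _ 0 φ _ _ hx.1.1.1 hy.1.1.1 r.1.1)).div (D.rM 0 0 φ _ _ hx.1.1.1 hy.1.1.1 r.1.1)
        (d _ hy.1.1.1))
  · exact Prod.ext rfl (bil_row' (d _ hx.1.1) _ _)
  · exact Prod.ext (Prod.ext rfl (bil_row (d _ hy.1.1.1) _ _ _)) rfl

/-- The change between the two splittings. -/
theorem BilD.shear [CharZero F] : ((D.low d).pull (line k)).hz.Acts χ (fun _ y =>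
    ((y.1.1, D.M y.1.1 0 0 * y.1.2 + (D.M y.1.1 0 0 * (D.b y.1.1 0 - D.a y.1.1 0) -
      (∑ i, (y.2 i + D.a y.1.1 i.succ) * D.M y.1.1 i.succ 0) +
      ∑ j, D.M y.1.1 0 j.succ * (y.2 j + D.b y.1.1 j.succ))), y.2)) 1 := by
  have A : ((D.low d).pull (line k)).hz.Aff Unit (fun _ y _ => y.1.2)
      fun _ y t => ((y.1.1, t ()), y.2) :=
    ⟨fun _ _ _ _ _ _ _ _ r => r.1.2, fun _ _ _ => rfl,
      fun _ _ _ h => ⟨⟨⟨h.1.1.1, trivial⟩, h.1.2⟩, h.2⟩, fun _ _ _ _ => rfl, fun _ _ _ _ => rfl,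
      fun _ _ _ _ _ => rfl, fun _ _ _ _ _ _ _ _ _ r h => ⟨⟨r.1.1, h ()⟩, r.2⟩⟩
  exact A.acts 1 (w := fun _ y _ => D.M y.1.1 0 0)
    (c := fun _ y _ => D.M y.1.1 0 0 * (D.b y.1.1 0 - D.a y.1.1 0) -
      (∑ i, (y.2 i + D.a y.1.1 i.succ) * D.M y.1.1 i.succ 0) +
      ∑ j, D.M y.1.1 0 j.succ * (y.2 j + D.b y.1.1 j.succ))
    (fun _ _ _ φ _ _ hx hy r => D.rM 0 0 φ _ _ hx.1.1.1 hy.1.1.1 r.1.1)
    (fun _ _ _ φ _ _ hx hy r => (((D.rM 0 0 φ _ _ hx.1.1.1 hy.1.1.1 r.1.1).mul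
      ((D.rb 0 φ _ _ hx.1.1.1 hy.1.1.1 r.1.1).sub (D.ra 0 φ _ _ hx.1.1.1 hy.1.1.1 r.1.1))).sub
      (Place.sum fun i _ => ((r.2 i).add (D.ra _ φ _ _ hx.1.1.1 hy.1.1.1 r.1.1)).mul
        (D.rM _ 0 φ _ _ hx.1.1.1 hy.1.1.1 r.1.1))).add
      (Place.sum fun j _ => (D.rM 0 _ φ _ _ hx.1.1.1 hy.1.1.1 r.1.1).mul
        ((r.2 j).add (D.rb _ φ _ _ hx.1.1.1 hy.1.1.1 r.1.1))))
    (fun _ _ hx _ => d _ hx.1.1.1) (fun _ _ _ _ => rfl) fun _ _ _ _ => rfl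

end Step

/-- Reordering of the factors. -/
theorem BilD.reord : ∃ m₀ : IsMap (D.pull (line k)).qd
    (((P.prod (((line k).pi α).prod ((line k).pi α))).prod (line k)).restr _
      ((reg_fst.regF D.regq).eq regF_zero).conv) fun _ x => ((x.1.1, x.2), x.1.2),
      UIso (m₀.hom χ) :=
  bil_iso (g := fun _ y => ((y.1.1, y.2), y.1.2))
    ⟨fun _ _ h => ⟨⟨⟨h.1.1.1, h.1.2⟩, trivial⟩, h.2⟩, fun _ _ _ _ _ _ _ r => ⟨⟨r.1.1, r.2⟩, r.1.2⟩⟩
    ⟨fun _ _ h => ⟨⟨⟨h.1.1.1, trivial⟩, h.1.1.2⟩, h.2⟩,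
      fun _ _ _ _ _ _ _ r => ⟨⟨r.1.1, r.2⟩, r.1.2⟩⟩
    (fun _ _ _ => by simp) (fun _ _ _ => rfl) fun _ _ _ => rfl

theorem BilD.live_jp {K : Fld k} {x : D.hz.X K} (hx : D.hz.L x) : D.qd.L (x.1, x.2, -D.b x.1) :=
  ⟨⟨hx.1.1, fun _ => trivial, fun _ => trivial⟩, by simpa using hx.2⟩

theorem BilD.live_jm {K : Fld k} {x : D.hz.X K} (hx : D.hz.L x) : D.qd.L (x.1, -D.a x.1, x.2) :=
  ⟨⟨hx.1.1, fun _ => trivial, fun _ => trivial⟩, by simpa using hx.2⟩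

theorem BilD.main_fin [CharZero F] (m : ℕ) : ∀ {P : Pt k} (D : BilD P (Fin m)), UZero (P.E χ) →
    (∀ ⦃K : Fld k⦄ (p : P.X K), P.L p → BilPiv (D.M p)) →
    UIso (D.isMap_jp.hom χ) ∧ Null (D.isMap_jm.hom χ - (-1 : F) ^ m • D.isMap_jp.hom χ) := by
  induction m with
  | zero =>
    intro P D _ _
    refine ⟨(D.isMap_jp.bij (fun _ _ => D.live_jp) (fun _ x x' _ _ e => ?_)
      fun _ y hy => ⟨(y.1, y.2.1), ⟨⟨hy.1.1, hy.1.2.1⟩, by simpa using hy.2⟩, ?_⟩).uiso, ?_⟩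
    · exact Prod.ext (Prod.ext_iff.1 e).1 (Subsingleton.elim _ _)
    · exact Prod.ext rfl (Prod.ext rfl (Subsingleton.elim _ _))
    · rw [pow_zero, one_smul, D.isMap_jm.hom_congr D.isMap_jp fun _ x _ =>
        congrArg _ (Prod.ext rfl (Subsingleton.elim _ _)), sub_self]
      exact .zero
  | succ m ih =>
    intro P D z piv
    have d : ∀ ⦃K : Fld k⦄ (p : P.X K), P.L p → D.M p 0 0 ≠ 0 := fun _ p hp => (piv p hp).ne
    obtain ⟨u₁, n₁⟩ := ih ((D.low d).pull (line k)) (bil_uzero z _)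
      fun _ p hp => (piv p.1 hp.1).schur
    obtain ⟨j₁, j₂, u₂, n₂⟩ := cross (bil_uzero z _)
      (c₁ := ((reg_fst.regF (D.low d).regq).eq regF_zero).conv) (c₂ := (D.closed₂ d).conv)
      (D.low d).regq
    obtain ⟨mi, ui⟩ := D.split (χ := χ) d
    obtain ⟨me, ue⟩ := D.split_hz (χ := χ) d
    obtain ⟨mg, ng⟩ := D.shear (χ := χ) d
    obtain ⟨mr, ur⟩ := (D.low d).reord (χ := χ)
    have e₁ : D.isMap_jp.hom χ ≫ mi.hom χ = me.hom χ ≫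
        ((D.low d).pull (line k)).isMap_jp.hom χ ≫ mr.hom χ ≫ j₁.hom χ :=
      hom_ext fun K x hx => by
        have l₁ : ((D.low d).pull (line k)).hz.L
            ((x.1, ((x.2 + D.a x.1) ᵥ* D.M x.1) 0 / D.M x.1 0 0), Fin.tail x.2) :=
          ⟨⟨⟨hx.1.1, trivial⟩, fun _ => trivial⟩, hx.2⟩
        have l₂ := BilD.live_jp _ l₁
        rw [Ob.comp_apply, Ob.comp_apply, Ob.comp_apply, Ob.comp_apply, D.isMap_jp.hom_cl hx,
          mi.hom_cl (D.live_jp hx), me.hom_cl hx, IsMap.hom_cl _ l₁, mr.hom_cl l₂,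
          j₁.hom_cl ⟨⟨⟨l₂.1.1.1, l₂.1.2⟩, trivial⟩, l₂.2⟩]
        congr 1
        exact Prod.ext rfl (Prod.ext rfl (by simp))
    have e₂ : D.isMap_jm.hom χ ≫ mi.hom χ = me.hom χ ≫ mg.hom χ ≫
        ((D.low d).pull (line k)).isMap_jm.hom χ ≫ mr.hom χ ≫ j₂.hom χ :=
      hom_ext fun K x hx => by
        have l₀ : ∀ t : K, ((D.low d).pull (line k)).hz.L ((x.1, t), Fin.tail x.2) :=
          fun t => ⟨⟨⟨hx.1.1, trivial⟩, fun _ => trivial⟩, hx.2⟩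
        have l₂ := fun t => BilD.live_jm _ (l₀ t)
        rw [Ob.comp_apply, Ob.comp_apply, Ob.comp_apply, Ob.comp_apply, Ob.comp_apply,
          D.isMap_jm.hom_cl hx, mi.hom_cl (D.live_jm hx), me.hom_cl hx, mg.hom_cl (l₀ _),
          IsMap.hom_cl _ (l₀ _), mr.hom_cl (l₂ _),
          j₂.hom_cl ⟨⟨⟨(l₂ 0).1.1.1, (l₂ 0).1.2⟩, trivial⟩, (l₂ 0).2⟩]
        congr 1
        refine Prod.ext rfl (Prod.ext (by simp) ?_)
        have := d _ hx.1.1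
        simp only [mulVec, vecMul, dotProduct, Fin.sum_univ_succ, Pi.add_apply, Fin.tail]
        field_simp
        ring
    refine ⟨.of_comp_right ui (e₁ ▸ ue.comp (u₁.comp (ur.comp u₂))), .of_comp_uiso ui ?_⟩
    rw [Preadditive.sub_comp, Linear.smul_comp, e₁, e₂]
    have := (((ng.comp (((D.low d).pull (line k)).isMap_jm.hom χ ≫ mr.hom χ ≫ j₂.hom χ)).add
      (n₁.comp (mr.hom χ ≫ j₂.hom χ))).add ((n₂.precomp
        (((D.low d).pull (line k)).isMap_jp.hom χ ≫ mr.hom χ)).smul ((-1 : F) ^ m))).precomp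
      (me.hom χ)
    convert this using 1
    simp only [Preadditive.sub_comp, Preadditive.comp_sub, Preadditive.comp_add, Linear.smul_comp,
      Linear.comp_smul, Category.assoc, Category.id_comp, one_smul, pow_succ]
    module

section Re
variable {β : Type} [Fintype β] (rr rc : α ≃ β)

theorem bil_re_form {K : Type} [Field K] (M : Matrix α α K) (u c : α → K) :
    (u ∘ rr.symm) ⬝ᵥ (M.submatrix rr.symm rc.symm *ᵥ (c ∘ rc.symm)) = u ⬝ᵥ (M *ᵥ c) := by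
  rw [submatrix_mulVec_equiv, Equiv.symm_symm, comp_assoc, rc.symm_comp_self, comp_id,
    comp_equiv_dotProduct_comp_equiv]

theorem BilD.re_qd : ∃ m₀ : IsMap D.qd (D.re rr rc).qd fun _ x =>
    (x.1, x.2.1 ∘ rr.symm, x.2.2 ∘ rc.symm), UIso (m₀.hom χ) := by
  refine bil_iso (g := fun _ y => (y.1, y.2.1 ∘ rr, y.2.2 ∘ rc))
    ⟨fun K x hx => ⟨⟨hx.1.1, fun _ => trivial, fun _ => trivial⟩, ?_⟩,
      fun _ _ _ _ _ _ _ r => ⟨r.1, fun _ => r.2.1 _, fun _ => r.2.2 _⟩⟩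
    ⟨fun K y hy => ⟨⟨hy.1.1, fun _ => trivial, fun _ => trivial⟩, ?_⟩,
      fun _ _ _ _ _ _ _ r => ⟨r.1, fun _ => r.2.1 _, fun _ => r.2.2 _⟩⟩
    (fun _ _ _ => by simp) (fun _ x _ => ?_) fun _ y _ => ?_
  · exact (congrArg _ (bil_re_form rr rc _ (x.2.1 + D.a x.1) (x.2.2 + D.b x.1))).trans hx.2
  · refine (congrArg _ (bil_re_form rr rc _ _ _).symm).trans (Eq.trans ?_ hy.2)
    exact congrArg _ (congrArg₂ _ (funext fun i => by simp [BilD.re])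
      (congrArg _ (funext fun i => by simp [BilD.re])))
  · exact Prod.ext rfl (Prod.ext (funext fun i => by simp) (funext fun i => by simp))
  · exact Prod.ext rfl (Prod.ext (funext fun i => by simp) (funext fun i => by simp))

theorem BilD.re_hz : ∃ m₀ : IsMap D.hz (D.re rr rc).hz fun _ x => (x.1, x.2 ∘ rr.symm),
    UIso (m₀.hom χ) :=
  bil_iso (g := fun _ y => (y.1, y.2 ∘ rr))
    ⟨fun _ _ hx => ⟨⟨hx.1.1, fun _ => trivial⟩, hx.2⟩, fun _ _ _ _ _ _ _ r => ⟨r.1, fun _ => r.2 _⟩⟩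
    ⟨fun _ _ hx => ⟨⟨hx.1.1, fun _ => trivial⟩, hx.2⟩, fun _ _ _ _ _ _ _ r => ⟨r.1, fun _ => r.2 _⟩⟩
    (fun _ _ _ => by simp) (fun _ x _ => Prod.ext rfl (funext fun i => by simp))
    fun _ x _ => Prod.ext rfl (funext fun i => by simp)

end Re

theorem BilD.perm [CharZero F] (π : Equiv.Perm α) :
    D.hz.Acts χ (fun _ y => (y.1, fun a => 1 * y.2 (π a) + 0)) 1 :=
  ((aff_prod P α).restr ((reg_fst.regF D.rh).eq regF_zero).conv fun _ _ _ _ h => h).acts π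
    (w := fun _ _ _ => 1) (c := fun _ _ _ => 0) (fun _ => regF_one) (fun _ => regF_zero)
    (fun _ _ _ _ => one_ne_zero) (fun _ _ _ _ => rfl) fun _ _ _ _ => rfl

theorem BilD.main [CharZero F] {m : ℕ} (rr rc : α ≃ Fin m) (z : UZero (P.E χ))
    (piv : ∀ ⦃K : Fld k⦄ (p : P.X K), P.L p → ∀ (j : ℕ) (v : α → K),
      (∀ i, j ≤ (rc i : ℕ) → v i = 0) → (∀ i, (rr i : ℕ) < j → (D.M p *ᵥ v) i = 0) → v = 0) :
    UIso (D.isMap_jp.hom χ) ∧ Null (D.isMap_jm.hom χ - (-1 : F) ^ m • D.isMap_jp.hom χ) := by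
  obtain ⟨u₁, n₁⟩ := BilD.main_fin (χ := χ) m (D.re rr rc) z fun K p hp j v h1 h2 => by
    have := piv p hp j (v ∘ rc) (fun i hi => h1 _ hi) fun i hi => by
      have e := congrFun (submatrix_mulVec_equiv (D.M p) v rr.symm rc.symm) (rr i)
      rw [Equiv.symm_symm, Function.comp_apply, rr.symm_apply_apply] at e
      exact e.symm.trans (h2 _ hi)
    exact funext fun i => by simpa using congrFun this (rc.symm i)
  obtain ⟨mi, ui⟩ := D.re_qd (χ := χ) rr rc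
  obtain ⟨me, ue⟩ := D.re_hz (χ := χ) rr rc
  obtain ⟨mg, ng⟩ := (D.re rr rc).perm (χ := χ) (rc.symm.trans rr)
  have l₀ : ∀ ⦃K : Fld k⦄ (x : D.hz.X K), D.hz.L x → ∀ t, (D.re rr rc).hz.L (x.1, t) :=
    fun _ _ hx _ => ⟨⟨hx.1.1, fun _ => trivial⟩, hx.2⟩
  have e₁ : D.isMap_jp.hom χ ≫ mi.hom χ = me.hom χ ≫ (D.re rr rc).isMap_jp.hom χ :=
    hom_ext fun K x hx => by
      rw [Ob.comp_apply, Ob.comp_apply, D.isMap_jp.hom_cl hx, mi.hom_cl (D.live_jp hx),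
        me.hom_cl hx, IsMap.hom_cl _ (l₀ x hx _)]
      rfl
  have e₂ : D.isMap_jm.hom χ ≫ mi.hom χ = me.hom χ ≫ mg.hom χ ≫ (D.re rr rc).isMap_jm.hom χ :=
    hom_ext fun K x hx => by
      rw [Ob.comp_apply, Ob.comp_apply, Ob.comp_apply, D.isMap_jm.hom_cl hx,
        mi.hom_cl (D.live_jm hx), me.hom_cl hx, mg.hom_cl (l₀ x hx _), IsMap.hom_cl _ (l₀ x hx _)]
      congr 1
      exact Prod.ext rfl (Prod.ext rfl (funext fun i => by simp))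
  refine ⟨.of_comp_right ui (e₁ ▸ ue.comp u₁), .of_comp_uiso ui ?_⟩
  rw [Preadditive.sub_comp, Linear.smul_comp, e₁, e₂]
  convert ((ng.comp ((D.re rr rc).isMap_jm.hom χ)).add n₁).precomp (me.hom χ) using 1
  simp only [Preadditive.sub_comp, Preadditive.comp_sub, Preadditive.comp_add, Linear.comp_smul,
    Category.id_comp, one_smul]
  module

end Pt

end

end Pool.Agent.Lib.MP_fc2ced_ag.T
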