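import Pool.Agent.Lib.MP_fc2ced_ag.G.SS
import Pool.Agent.Lib.MP_fc2ced_ag.G.Mon

/-! Hyperplanes in tori over a base in the multiplicative group. -/

open CategoryTheory Function

namespace Pool.Agent.Lib.MP_fc2ced_ag.T

open K

noncomputable section

variable {k : Type} [Field k] {F : Type} [Field F] [CharZero F]

open MP_fc2ced_ag.T.Pt

variable (k) in
/-- A locally closed subset of the multiplicative group with an invertible function. -/
structure Bs where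
  D : ∀ ⦃K : Fld k⦄, K → Prop
  w : ∀ ⦃K : Fld k⦄, K → K
  conv : (gm k).Conv D
  reg : ((gm k).restr D conv).RegF w
  ne : ∀ ⦃K : Fld k⦄ (x : K), x ≠ 0 → D x → w x ≠ 0

/-- A power of the function. -/
@[reducible] def Bs.pow (β : Bs k) (g : ℕ) : Bs k where
  D := β.D
  w _ x := β.w x ^ g
  conv := β.conv
  reg := β.reg.pow g
  ne _ x a b := pow_ne_zero _ (β.ne x a b)

theorem reg_scale {a : k} (ha : a ≠ 0) : (gm k).Reg (gm k) fun K x => algebraMap k K a * x :=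
  ⟨fun _ _ h => ⟨trivial, mul_ne_zero ((map_ne_zero _).2 ha) h.2⟩,
    fun _ _ φ _ _ _ _ r => (φ.alg a).mul r⟩

/-- The pullback along a multiplication. -/
@[reducible] def Bs.scale (β : Bs k) (a : k) (ha : a ≠ 0) : Bs k where
  D K x := β.D (algebraMap k K a * x)
  w K x := β.w (algebraMap k K a * x)
  conv := (reg_scale ha).conv β.conv
  reg _ _ φ x y p q r := β.reg φ _ _ ⟨(reg_scale ha).live x p.1, p.2⟩
    ⟨(reg_scale ha).live y q.1, q.2⟩ ((φ.alg a).mul r)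
  ne _ x p q := β.ne _ ((reg_scale ha).live x ⟨trivial, p⟩).2 q

/-- The fibre product with the base along an invertible function `l`. -/
@[reducible] def Pt.ovB (S : Pt k) (β : Bs k) (l : ∀ ⦃K⦄, S.X K → K) (hl : S.Reg (gm k) l) :
    Pt k :=
  (S.restr (fun _ x => β.D (l x)) (hl.conv β.conv)).withF (fun _ x => S.f x * β.w (l x))
    (fun _ _ φ x y a b r => (S.reg φ x y a.1 b.1 r).mul
      (β.reg φ _ _ ⟨hl.live x a.1, a.2⟩ ⟨hl.live y b.1, b.2⟩ (hl.reg φ x y a.1 b.1 r)))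
    fun _ x a => mul_ne_zero (S.ne x a.1) (β.ne _ (hl.live x a.1).2 a.2)

variable {ι : Type} [Fintype ι]

/-- A Laurent monomial. -/
def mn {K : Type} [Field K] (γ : ι → ℤ) (t : ι → K) : K := ∏ i, t i ^ γ i

theorem mn_ne {K : Type} [Field K] (γ : ι → ℤ) {t : ι → K} (h : ∀ i, t i ≠ 0) : mn γ t ≠ 0 :=
  Finset.prod_ne_zero_iff.2 fun i _ => zpow_ne_zero _ (h i)

theorem rel_mn {K K' : Fld k} {φ : Place K K'} (γ : ι → ℤ) {t : ι → K} {t' : ι → K'}
    (r : ∀ i, φ (t i) (t' i)) (h : ∀ i, t' i ≠ 0) : φ (mn γ t) (mn γ t') :=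
  Place.prod fun i _ => rel_zpow (r i) (h i) _

theorem reg_mn (c γ : ι → ℤ) : (mt k c).Reg (gm k) fun _ t => mn γ t :=
  ⟨fun _ _ h => ⟨trivial, mn_ne γ h.2⟩, fun _ _ _ _ _ _ b r => rel_mn γ r b.2⟩

/-- The torus over the base. -/
@[reducible] def tm (c γ : ι → ℤ) (β : Bs k) : Pt k := (mt k c).ovB β _ (reg_mn c γ)

/-- The hyperplane in the torus over the base. -/
@[reducible] def vv (ε : ι → k) (c γ : ι → ℤ) (β : Bs k) : Pt k :=
  (hy ε c).ovB β (fun _ t => mn γ t) ((reg_restr _).comp (reg_mn c γ))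

variable (k) in
/-- Zero or prime to the characteristic. -/
def Tame (g : ℤ) : Prop := g = 0 ∨ (g : k) ≠ 0

variable (F) in
/-- Admissible classes of bases. -/
structure Adm (B : Bs k → Prop) : Prop where
  pow : ∀ β g, B β → B (β.pow g)
  scale : ∀ β a ha, B β → B (β.scale a ha)
  cur : ∀ (β : Bs k) (χ : Chr k F) (c g : ℤ), B β →
    SS ((tm (fun _ : Unit => c) (fun _ => g) β).E χ)
  pt : ∀ (β : Bs k) (χ : Chr k F), B β →
    SS ((tm (fun _ : Empty => 0) (fun _ => 0) β).E χ)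

/-- The hyperplanes with given exponents and weights are Schur-finite after a twist. -/
def WS (B : Bs k → Prop) (χ : Chr k F) (c γ : ι → ℤ) : Prop :=
  ∀ ε : ι → k, (∀ i, ε i ≠ 0) → ∀ β, B β → SS ((vv ε c γ β).E χ)

variable (F) in
/-- The statement for generic hypergeometric data. -/
def GenH (B : Bs k → Prop) : Prop :=
  ∀ (χ : Chr k F) (n r : ℕ) (b a : Fin (n + 1) → ℤ) (e : Fin r → ℤ),
    (∀ i j, χ.ψ (b i + a j : ℤ) ≠ 1) → (∀ j, χ.ψ (e j) ≠ 1) →
    χ.ψ (∑ i, b i + ∑ i, a i + ∑ j, e j : ℤ) ≠ 1 → ∀ β, B β →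
    SS ((vv (ι := (Fin (n + 1) ⊕ Fin (n + 1)) ⊕
        (Fin (n + 1) × Fin (n + 1)) ⊕ (Fin (n + 1) × Fin (n + 1)) ⊕ Fin r)
      (Sum.elim (Sum.elim (fun _ => 1) fun _ => -1) (Sum.elim (fun _ => -1) fun _ => 1))
      (Sum.elim (Sum.elim b a) (Sum.elim (fun g => -(b g.1 + a g.2))
        (Sum.elim (fun g => b g.1 + a g.2) e)))
      (Sum.elim (Sum.elim (fun _ => -1) fun _ => 1) fun _ => 0) β).E χ)

/-- The base is a rational point or empty. -/
def IsPt (β : Bs k) : Prop := ∃ a κ : k, ∀ ⦃K : Fld k⦄ (x : K), x ≠ 0 →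
  (β.D x ↔ x = algebraMap k K a) ∧ (β.D x → β.w x = algebraMap k K κ)

/-- The base is the complement of finitely many rational points, with a product of linear
factors. -/
def IsCur (β : Bs k) : Prop := ∃ (J : Type) (_ : Fintype J) (y : J → k) (e : J → ℤ) (κ : k),
  ∀ ⦃K : Fld k⦄ (x : K), x ≠ 0 → (β.D x ↔ ∀ j, x ≠ algebraMap k K (y j)) ∧
    (β.D x → β.w x = algebraMap k K κ * ∏ j, (x - algebraMap k K (y j)) ^ e j)

/-- The whole group with the function one. -/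
def IsAll (β : Bs k) : Prop := ∀ ⦃K : Fld k⦄ (x : K), x ≠ 0 → β.D x ∧ β.w x = 1

end

end Pool.Agent.Lib.MP_fc2ced_ag.T
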