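import Pool.Agent.Lib.MP_fc2ced_ag.G.Geo
import Pool.Agent.Lib.MP_fc2ced_ag.T.Clean

/-! The locus of twisted flags with an irrelevant member is negligible. -/

open CategoryTheory hiding forget
open Function Polynomial

namespace Pool.Agent.Lib.MP_fc2ced_ag.T.G

open K

noncomputable section

variable {k : Type} [Field k] {F : Type} [Field F] {χ : Chr k F} {n : ℕ} [Ex n] {S : Stp k n}
  {s w j l : ℕ} {I : Finset ℕ} {P : Pt k} {T : PC P}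

open Pt Place

variable (S s w I) in
theorem closed_irr (T : PC P) (j : ℕ) :
    ((Zv S s w I).over T).Closed fun _ x => ¬ TRel n j (x.1.1 j) :=
  Open.not fun _ _ _ _ _ a _ r h => gr_trel (r.1.1 j) (a.1.1.1.stab' j).1 h

theorem uzero_irr (hχ : Gen χ n) (hj : j ∈ I) (T : PC P) :
    UZero ((((Zv S s w I).over T).restr _ (closed_irr S s w I T j).conv).E χ) := by
  obtain ⟨ι, _, D, a, e, c, μ, h1, h3, h4, h5⟩ := exists_strata (k := k) (n := n) w j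
  have hb : (((Zv S s w I).over T).restr _ (closed_irr S s w I T j).conv).Reg (St k n)
      fun _ x => x.1.1 j :=
    ⟨fun _ x hx => (hx.1.1.1.1.stab' j).1, fun _ _ _ _ _ _ _ r => r.1.1 j⟩
  refine uzero_of_cover hb D h1 (fun _ x hx => h3 (x.1.1 w) (x.1.1 j) hx.1.1.1.1.rel
    (hx.1.1.1.1.stab j hj) (hx.1.1.1.1.le_top j hj) (hx.1.1.1.1.rank j hj) hx.2)
    fun i T' hT' sub => ?_
  have d : ∀ ⦃K : Fld k⦄ {x : ℕ → Sp K}, Flag n w I x → T' (x j) →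
      Desc n (x j) (a i) (e i) (c i (x j)) (μ i (x j)) := fun _ x l t =>
    h4 i _ (l.stab j hj) (sub _ t)
  refine Flow.uzero (hχ.neg (Fin.intCast (a i + 1)) (e i + s)) (τ := fun K r x =>
    ((CleanAux.mv n j (a i) (e i) (@c i K) (@μ i K) r x.1.1, x.1.2), x.2)) ⟨?_, ?_, ?_, ?_, ?_⟩
  · rintro K r ⟨⟨x, u⟩, p⟩ hr ⟨⟨⟨⟨⟨l, lu⟩, lp⟩, t⟩, nr⟩, t'⟩
    have k := CleanAux.flag_map l hj (d l t') hr
    have k' : (x j).map ((d l t').psi r) = x j := (d l t').map_of_le _ le_rfl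
    rw [CleanAux.mv_eq rfl (d l t')]
    exact ⟨⟨⟨⟨⟨k.1, lu⟩, lp⟩, (congrArg (T.T · p) k.2).mpr t⟩,
      (congrArg (¬ TRel n j ·) k').mpr nr⟩, (congrArg (@T' K) k').mpr t'⟩
  · rintro K ⟨⟨x, u⟩, p⟩ ⟨⟨⟨⟨⟨l, -⟩, -⟩, -⟩, -⟩, t'⟩
    rw [CleanAux.mv_eq rfl (d l t'), show (d l t').psi 1 = LinearMap.id from
      LinearMap.ext (d l t').psi_one]
    exact Prod.ext (Prod.ext (funext fun m => Submodule.map_id _) rfl) rfl
  · rintro K r ⟨⟨x, u⟩, p⟩ hr ⟨⟨⟨⟨⟨l, -⟩, -⟩, -⟩, -⟩, t'⟩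
    have k' : (x j).map ((d l t').psi r) = x j := (d l t').map_of_le _ le_rfl
    refine Prod.ext (Prod.ext ?_ rfl) rfl
    change CleanAux.mv n j _ _ _ _ _ (CleanAux.mv n j _ _ _ _ _ x) = x
    rw [CleanAux.mv_eq rfl (d l t'), CleanAux.mv_eq k' (d l t')]
    funext m
    rw [← Submodule.map_comp, show (d l t').psi r⁻¹ ∘ₗ (d l t').psi r = LinearMap.id from
      LinearMap.ext ((d l t').psi_inv hr), Submodule.map_id]
  · rintro K r ⟨⟨x, u⟩, p⟩ hr ⟨⟨⟨⟨⟨l, -⟩, -⟩, -⟩, -⟩, t'⟩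
    rw [CleanAux.mv_eq rfl (d l t')]
    change fU n s w ((x w).map _) * _ * P.f p = fU n s w (x w) * _ * P.f p * _
    rw [(fU_psi (d l t') hr l.trel (l.le_top j hj)).2, mul_right_comm (fU n s w (x w)),
      mul_right_comm]
  · rintro K K' φ r r' ⟨⟨x, u⟩, p⟩ ⟨⟨y, v⟩, q⟩ hr h0 ⟨⟨⟨⟨⟨l, -⟩, -⟩, -⟩, -⟩, t⟩
      ⟨⟨⟨⟨⟨l', -⟩, -⟩, -⟩, -⟩, t'⟩ ⟨⟨s, s''⟩, s'⟩
    obtain ⟨k1, k2⟩ := h5 i φ _ _ (l.stab j hj) (l'.stab j hj) (sub _ t) (sub _ t') (s j)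
    rw [CleanAux.mv_eq rfl (d l t), CleanAux.mv_eq rfl (d l' t')]
    exact ⟨⟨fun m => GR.map (s m) GR.bot bot_le _ _
      (fun _ _ v => vr_psi (d l t) (d l' t') k2 k1 hr v) bot_le
      (inf_le_right.trans (LinearMap.ker_eq_bot.2 ((d l' t').psi_inj h0)).le), s''⟩, s'⟩

theorem live_split (hI : I ⊆ Finset.Ioo 0 (j + l)) (hj : j ∈ I) {K : Fld k}
    {x : (Zv S s (j + l) I).S.X K} (h : (Zv S s (j + l) I).S.L x) :
    ((Zv S s j (lowI j I)).ten j (Zv S (s + j) l (uppI j I))).S.L (sp S j l x) ↔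
      TRel n j (x.1 j) :=
  ⟨fun a => (h.1.low_iff hI hj).1 a.1.1, fun a =>
    ⟨⟨(h.1.low_iff hI hj).2 a, fun _ => h.2 _⟩, h.1.upp_flag hI hj a, fun _ => h.2 _⟩⟩

theorem uu_split (hχ : Gen χ n) (hI : I ⊆ Finset.Ioo 0 (j + l)) (hj : j ∈ I) :
    UU χ (Zv S s (j + l) I) ((Zv S s j (lowI j I)).ten j (Zv S (s + j) l (uppI j I)))
      (JI (j + l) I) (sp S j l) := by
  intro P T hT
  have pm := pmap_split (S := S) (s := s) hI hj
  have k : ∀ ⦃K⦄ (y : ((Zv S s (j + l) I).over T).X K), ((Zv S s (j + l) I).over T).L y →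
      ((((Zv S s j (lowI j I)).ten j (Zv S (s + j) l (uppI j I))).over T).L
        (sp S j l y.1, y.2) ↔ TRel n j (y.1.1 j)) := fun K y hy =>
    ⟨fun h => (live_split hI hj hy.1.1).1 h.1.1, fun h =>
      have m := (live_split hI hj hy.1.1).2 h
      ⟨⟨m, hy.1.2⟩, hT _ _ _ (fun i hi => (pm.c y.1 hy.1.1 m i hi).symm) hy.2⟩⟩
  rw [ov, (pm.over hT).hm_eq]
  refine (ses (isMap_closed (closed_irr S s _ I T j)) (pm.over hT) (fun _ _ h => h.1)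
    (fun _ _ _ _ _ h => h) (fun _ y hy => ⟨fun h => ⟨y, ⟨hy, fun r => h ((k y hy).2 r)⟩, rfl⟩,
      fun ⟨_, h, e⟩ m => h.2 (e ▸ (k y hy).1 m)⟩) (fun _ y y' hy hy' m e => ?_)
    fun _ z hz => ?_).uzero₁_iff.1 (uzero_irr hχ hj T)
  · have e1 : low j y.1.1 = low j y'.1.1 := congrArg (·.1.1.1) e
    have e2 : upp n j y.1.1 = upp n j y'.1.1 := congrArg (·.1.2.1) e
    have e3 : cut j l y.1.2 = cut j l y'.1.2 := congrArg (fun x => (x.1.1.2, x.1.2.2)) e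
    refine Prod.ext (Prod.ext ?_ ?_) (congrArg (·.2) e)
    · rw [← hy.1.1.1.glue_split hI hj ((k y hy).1 m), e1, e2,
        hy'.1.1.1.glue_split hI hj ((k y' hy').1 (e ▸ m))]
    · rw [← addCases_cut y.1.2, e3, addCases_cut]
  · obtain ⟨g1, g2, g3⟩ := hz.1.1.1.1.glue_flag hI hj hz.1.1.2.1
    have g4 := cut_addCases (z.1.1.2, z.1.2.2)
    have g5 := live_addCases (Q := S.Tw) (y := (z.1.1.2, z.1.2.2)) ⟨hz.1.1.1.2, hz.1.1.2.2⟩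
    have e : sp S j l (glue n j l I z.1.1.1 z.1.2.1, fun c => Fin.addCases z.1.1.2 z.1.2.2 c) =
        z.1 := Prod.ext (Prod.ext g2 (congrArg Prod.fst g4 :))
          (Prod.ext g3 (congrArg Prod.snd g4 :))
    refine ⟨((glue n j l I z.1.1.1 z.1.2.1, fun c => Fin.addCases z.1.1.2 z.1.2.2 c), z.2),
      ⟨⟨⟨g1, g5⟩, hz.1.2⟩, hT _ _ _ (fun i hi => ?_) hz.2⟩, Prod.ext e rfl⟩
    have := pm.c (glue n j l I z.1.1.1 z.1.2.1, fun c => Fin.addCases z.1.1.2 z.1.2.2 c) ⟨g1, g5⟩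
      (e.symm ▸ hz.1.1) i hi
    rwa [e] at this

end

end Pool.Agent.Lib.MP_fc2ced_ag.T.G
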