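import Pool.Agent.Lib.MP_fc2ced_ag.G.Rad
import Pool.Agent.Lib.MP_fc2ced_ag.G.Mon
import Pool.Agent.Lib.MP_fc2ced_ag.T.PV

/-! Multipliers over spaces of parameters, and scalings of tori. -/

open CategoryTheory Function

namespace Pool.Agent.Lib.MP_fc2ced_ag.T

open K

noncomputable section

variable {k : Type} [Field k] {F : Type} [Field F] {χ : Chr k F}

open MP_fc2ced_ag.T.Pt hiding X

theorem Pt.Flow.over {V : PV k} {t : ℤ} {τ : ∀ ⦃K : Fld k⦄, K → V.S.X K → V.S.X K}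
    (h : V.S.Flow t τ) (c : ∀ ⦃K : Fld k⦄ (r : K) (x : V.S.X K), r ≠ 0 → V.S.L x →
      V.c (τ r x) = V.c x) {P : Pt k} (T : PC P) :
    (V.over T).Flow t fun _ r x => (τ r x.1, x.2) where
  live _ r x hr hx := ⟨⟨h.live r _ hr hx.1.1, hx.1.2⟩,
    (congrArg (T.T · x.2) (c r _ hr hx.1.1)).mpr hx.2⟩
  one _ x hx := Prod.ext (h.one _ hx.1.1) rfl
  inv _ r x hr hx := Prod.ext (h.inv r _ hr hx.1.1) rfl
  f _ r x hr hx := (congrArg (· * P.f x.2) (h.f r _ hr hx.1.1)).trans (mul_right_comm _ _ _)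
  reg _ _ φ r r' x y h1 h2 hx hy h3 := ⟨h.reg φ r r' _ _ h1 h2 hx.1.1 hy.1.1 h3.1, h3.2⟩

section Rad
variable {V : PV k} {G : Type} [Fintype G] {ρ₀ : ∀ ⦃K : Fld k⦄, V.S.X K → K}
  {ρ : G → ∀ ⦃K : Fld k⦄, V.S.X K → K} (h₀ : V.S.RegF ρ₀) (h : ∀ g, V.S.RegF (ρ g))

/-- All the equations hold. -/
@[reducible] def pvR : PV k where
  S := radR h₀ h
  c _ x := V.c x.1
  hc m _ _ φ x y a b r := V.hc m φ x.1 y.1 a.1.1 b.1.1 r.1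

/-- The combination of the equations holds. -/
@[reducible] def pvW (B : Set G) : PV k where
  S := radW h₀ h B
  c _ x := V.c x.1
  hc m _ _ φ x y a b r := V.hc m φ x.1 y.1 a.1.1 b.1.1 r.1

theorem pmap_rad (B : Set G) : PMap (pvR h₀ h) (pvW h₀ h B) Set.univ fun _ x => x :=
  ⟨isMap_rad h₀ h B, fun _ _ _ _ _ _ => rfl⟩

theorem uu_rad {t : ℤ} (ht : χ.ψ t ≠ 1) {τ : ∀ ⦃K : Fld k⦄, K → V.S.X K → V.S.X K}
    (hτ : V.S.Flow t τ) (z : ∀ ⦃K : Fld k⦄ (r : K) (x : V.S.X K), r ≠ 0 → V.S.L x →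
      V.c (τ r x) = V.c x ∧ ∀ g, (ρ g (τ r x) = 0 ↔ ρ g x = 0)) (B : Set G)
    (H : ∀ g ∈ B, ∃ (t : ℤ) (τ : ∀ ⦃K : Fld k⦄, K → V.S.X K → V.S.X K),
      χ.ψ t ≠ 1 ∧ V.S.Flow t τ ∧ ∀ ⦃K : Fld k⦄ (r : K) (x : V.S.X K), r ≠ 0 → V.S.L x →
        V.c (τ r x) = V.c x ∧ ρ₀ (τ r x) = ρ₀ x ∧ ∀ g', g' ≠ g → ρ g' (τ r x) = ρ g' x) :
    UU χ (pvR h₀ h) (pvW h₀ h B) Set.univ fun _ x => x := fun P T hT => by
  have g₀ : (V.over T).RegF fun _ x => ρ₀ x.1 :=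
    fun _ _ φ x y a b r => h₀ φ x.1 y.1 a.1.1 b.1.1 r.1
  have g : ∀ i, (V.over T).RegF fun _ x => ρ i x.1 :=
    fun i _ _ φ x y a b r => h i φ x.1 y.1 a.1.1 b.1.1 r.1
  have u := uiso_rad (χ := χ) g₀ g ht (hτ.over (fun _ r x a b => (z r x a b).1) T)
    (fun _ r x a b => (z r x.1 a b.1.1).2) B fun i hi => by
      obtain ⟨t, τ, h1, h2, h3⟩ := H i hi
      exact ⟨t, _, h1, h2.over (fun _ r x a b => (h3 r x a b).1) T,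
        fun _ r x a b => (h3 r x.1 a b.1.1).2⟩
  have a1 : ((pvR h₀ h).over T).Reg (radR g₀ g) fun _ x => ((x.1.1, x.2), x.1.2) :=
    ⟨fun _ _ a => ⟨⟨⟨⟨a.1.1.1.1, a.1.2⟩, a.2⟩, a.1.1.1.2⟩, a.1.1.2⟩,
      fun _ _ _ _ _ _ _ r => ⟨⟨r.1.1, r.2⟩, r.1.2⟩⟩
  have a2 : (radR g₀ g).Reg ((pvR h₀ h).over T) fun _ y => ((y.1.1, y.2), y.1.2) :=
    ⟨fun _ _ a => ⟨⟨⟨⟨a.1.1.1.1, a.1.2⟩, a.2⟩, a.1.1.1.2⟩, a.1.1.2⟩,
      fun _ _ _ _ _ _ _ r => ⟨⟨r.1.1, r.2⟩, r.1.2⟩⟩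
  have b1 : (radW g₀ g B).Reg ((pvW h₀ h B).over T) fun _ y => ((y.1.1, y.2), y.1.2) :=
    ⟨fun _ _ a => ⟨⟨⟨⟨a.1.1.1.1, a.1.2⟩, a.2⟩, a.1.1.1.2⟩, a.1.1.2⟩,
      fun _ _ _ _ _ _ _ r => ⟨⟨r.1.1, r.2⟩, r.1.2⟩⟩
  have b2 : ((pvW h₀ h B).over T).Reg (radW g₀ g B) fun _ x => ((x.1.1, x.2), x.1.2) :=
    ⟨fun _ _ a => ⟨⟨⟨⟨a.1.1.1.1, a.1.2⟩, a.2⟩, a.1.1.1.2⟩, a.1.1.2⟩,
      fun _ _ _ _ _ _ _ r => ⟨⟨r.1.1, r.2⟩, r.1.2⟩⟩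
  have ma := IsMap.of_inv a1 a2 (fun _ _ _ => mul_right_comm _ _ _) fun _ _ _ => rfl
  have mb := IsMap.of_inv b1 b2 (fun _ _ _ => mul_right_comm _ _ _) fun _ _ _ => rfl
  have ua := (ma.bij (χ := χ) a1.live
    (fun _ _ _ _ _ c => congrArg (fun y => ((y.1.1, y.2), y.1.2)) c)
    fun _ y a => ⟨_, a2.live y a, rfl⟩).uiso
  have ub := (mb.bij (χ := χ) b1.live
    (fun _ _ _ _ _ c => congrArg (fun x => ((x.1.1, x.2), x.1.2)) c)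
    fun _ y a => ⟨_, b2.live y a, rfl⟩).uiso
  have mc := ma.comp (isMap_rad g₀ g B) fun _ x a _ => a1.live x a
  have m := (pmap_rad h₀ h B).over hT
  rw [ov, m.hm_eq, ← mc.hom_comp mb m (fun _ x _ b => b2.live x b) fun _ _ _ _ => rfl,
    ← ma.hom_comp (isMap_rad g₀ g B) mc (fun _ x a _ => a1.live x a) fun _ _ _ _ => rfl]
  exact (ua.comp u).comp ub

end Rad

theorem prod_scale {K ι : Type} [Field K] [Fintype ι] {r : K} (hr : r ≠ 0) (t : ι → K)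
    (w c : ι → ℤ) : ∏ i, (t i * r ^ w i) ^ c i = (∏ i, t i ^ c i) * r ^ ∑ i, w i * c i := by
  simp only [mul_zpow, Finset.prod_mul_distrib, ← zpow_mul]
  congr 1
  induction (Finset.univ : Finset ι) using Finset.cons_induction with
  | empty => simp
  | cons a s ha ih => rw [Finset.prod_cons, Finset.sum_cons, ih, zpow_add₀ hr]

/-- The scaling of a torus with given weights. -/
theorem flow_scale {ι : Type} [Fintype ι] (w c : ι → ℤ) (Q : Pt k) :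
    ((mt k c).prod Q).Flow (∑ i, w i * c i) fun _ r x => (fun i => x.1 i * r ^ w i, x.2) where
  live _ _ _ hr hx := ⟨⟨hx.1.1, fun i => mul_ne_zero (hx.1.2 i) (zpow_ne_zero _ hr)⟩, hx.2⟩
  one _ _ _ := Prod.ext (funext fun _ => by simp) rfl
  inv _ _ _ hr _ := Prod.ext (funext fun i => by
    simp only [inv_zpow]
    exact mul_inv_cancel_right₀ (zpow_ne_zero _ hr) _) rfl
  f _ r x hr _ := (congrArg (· * Q.f x.2) (prod_scale hr x.1 w c)).trans (mul_right_comm _ _ _)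
  reg _ _ _ _ _ _ _ h1 h2 _ _ h3 := ⟨fun i => (h3.1 i).mul (rel_zpow h1 h2 _), h3.2⟩

end

end Pool.Agent.Lib.MP_fc2ced_ag.T
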