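import Pool.Agent.Lib.MP_fc2ced_ag.G.Lin
import Pool.Agent.Lib.MP_fc2ced_ag.G.Mon

/-! Products of transpositions that exchange two copies of a set of coordinates. -/

open CategoryTheory Function

namespace Pool.Agent.Lib.MP_fc2ced_ag.T

open K

noncomputable section

variable {k : Type} [Field k] {F : Type} [Field F] {χ : Chr k F}

namespace Pt

/-- The source is restricted to a subset that contains the points with live image. -/
theorem IsMap.restr_src {S S' : Pt k} {e : ∀ ⦃K⦄, S.X K → S'.X K} (h : IsMap S S' e) {U : S.Cond}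
    (c : S.Conv U) (hU : ∀ ⦃K⦄ (x : S.X K), S.L x → S'.L (e x) → U x) :
    IsMap (S.restr U c) S' e := by
  refine ⟨fun _ x hx => h.f x hx.1, fun _ _ φ x y hx hy => h.sp φ x y hx.1 hy.1,
    fun _ _ φ x hx hd => ?_⟩
  rcases R_or_Dd (S := S) φ x with ⟨y, hy, r⟩ | l
  · exact (h.sp φ x y hx.1 hy r).2 fun l => hd hx y ⟨hy, hU y hy l⟩ r
  · exact h.dead φ x hx.1 l

/-- One of the free coordinates. -/
theorem Aff.pick {S : Pt k} {α : Type} [DecidableEq α] {s : ∀ ⦃K : Fld k⦄, S.X K → α → K}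
    {mv : ∀ ⦃K : Fld k⦄, S.X K → (α → K) → S.X K} (h : S.Aff α s mv) (a : α) :
    S.Aff Unit (fun _ x _ => s x a) fun _ x t => mv x (update (s x) a (t ())) where
  rs _ := h.rs a
  self _ x hx := by rw [update_eq_self]; exact h.self x hx
  live _ x _ hx := h.live x _ hx
  coord _ x t hx := funext fun _ => by rw [h.coord x _ hx, update_self]
  f _ x _ hx := h.f x _ hx
  mv_mv _ x t t' hx := by rw [h.coord x _ hx, h.mv_mv x _ _ hx, update_idem]
  reg _ _ φ x y t t' hx hy r ht := h.reg φ x y _ _ hx hy r fun b => by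
    by_cases e : b = a
    · rw [e, update_self, update_self]; exact ht ()
    · rw [update_of_ne e, update_of_ne e]; exact h.rs b φ x y hx hy r

section Live
variable {ι : Type} [Fintype ι] {ε : ι → k} {c : ι → ℤ} {o : ι}

theorem mon_live_pact {π : Equiv.Perm ι} (hε : ∀ i, ε (π i) = ε i) {K : Fld k} {t : ι → K}
    (h : (mon ε c o).L t) : (mon ε c o).L (pact o π t) := by
  refine ⟨⟨fun _ => trivial, fun i => div_ne_zero (h.1.2 _) (h.1.2 _)⟩, div_self (h.1.2 _), ?_⟩
  have e := h.2.2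
  rw [lin, ← Equiv.sum_comp π] at e
  simp only [lin, pact, ← mul_div_assoc, ← Finset.sum_div]
  simp only [hε] at e
  rw [e, zero_div]

variable [DecidableEq ι] {u v x : ι} {Q P : Pt k} {C : ∀ ⦃K : Fld k⦄, (ι → K) → P.X K → Prop}
  (hC : (((mon ε c o).prod Q).prod P).Conv fun _ z => C z.1.1 z.2) (hε : ε u = ε v)
include hε

theorem mon_swap_live
    (sc : ∀ ⦃K : Fld k⦄ (t : ι → K) (r : K) (p : P.X K), (∀ i, t i ≠ 0) → r ≠ 0 → C t p →
      C (fun i => t i * r) p)
    (bl : ∀ ⦃K : Fld k⦄ (t t' : ι → K) (p : P.X K), (∀ i, t i ≠ 0) → (∀ i, t' i ≠ 0) →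
      (∀ i, i ≠ u → i ≠ v → t' i = t i) → C t p → C t' p) {K : Fld k}
    (z : ((((mon ε c o).prod Q).prod P).restr _ hC).X K)
    (hz : ((((mon ε c o).prod Q).prod P).restr _ hC).L z) :
    ((((mon ε c o).prod Q).prod P).restr _ hC).L
      ((pact o (Equiv.swap u v) z.1.1, z.1.2), z.2) := by
  have n := hz.1.1.1.1.2
  refine ⟨⟨⟨mon_live_pact (Equiv.apply_swap_eq_self hε) hz.1.1.1, hz.1.1.2⟩, hz.1.2⟩, ?_⟩
  have := sc (fun i => z.1.1 (Equiv.swap u v i)) (z.1.1 (Equiv.swap u v o))⁻¹ z.2 (fun _ => n _)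
    (inv_ne_zero (n _)) (bl _ _ _ n (fun _ => n _)
      (fun i a b => by rw [Equiv.swap_apply_of_ne_of_ne a b]) hz.2)
  simp only [← div_eq_mul_inv] at this
  exact this

theorem mon_swap_live' (hxu : x ≠ u) (hxv : x ≠ v) (hou : o ≠ u) (hov : o ≠ v)
    (bl : ∀ ⦃K : Fld k⦄ (t t' : ι → K) (p : P.X K), (∀ i, t i ≠ 0) → (∀ i, t' i ≠ 0) →
      (∀ i, i ≠ u → i ≠ v → i ≠ x → t' i = t i) → t' x * (t u * t v) = t x * (t' u * t' v) →
      C t p → C t' p) {K : Fld k} (z : ((((mon ε c o).prod Q).prod P).restr _ hC).X K)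
    (hz : ((((mon ε c o).prod Q).prod P).restr _ hC).L z) :
    ((((mon ε c o).prod Q).prod P).restr _ hC).L
      ((pact o (Equiv.swap u v) z.1.1, z.1.2), z.2) := by
  have l := mon_live_pact (Equiv.apply_swap_eq_self hε) hz.1.1.1
  have e : ∀ i, pact o (Equiv.swap u v) z.1.1 i = z.1.1 (Equiv.swap u v i) := fun i => by
    rw [pact, Equiv.swap_apply_of_ne_of_ne hou hov, hz.1.1.1.2.1, div_one]
  refine ⟨⟨⟨l, hz.1.1.2⟩, hz.1.2⟩, bl z.1.1 (pact o (Equiv.swap u v) z.1.1) z.2 hz.1.1.1.1.2 l.1.2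
    (fun i a b _ => ?_) ?_ hz.2⟩
  · rw [e, Equiv.swap_apply_of_ne_of_ne a b]
  · rw [e, e, e, Equiv.swap_apply_of_ne_of_ne hxu hxv, Equiv.swap_apply_left,
      Equiv.swap_apply_right, mul_comm (z.1.1 u)]

end Live

section Block
variable {β : Type} [DecidableEq β]

/-- The two copies of the indices in `s` are exchanged. -/
def bs (s : Finset β) : Equiv.Perm (Fin 2 × β) :=
  Function.Involutive.toPerm (fun m => (if m.2 ∈ s then m.1.rev else m.1, m.2)) fun m => by
    by_cases h : m.2 ∈ s <;> simp [h]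

theorem bs_apply (s : Finset β) (a : Fin 2) (b : β) :
    bs s (a, b) = (if b ∈ s then a.rev else a, b) := rfl

theorem bs_empty : bs (∅ : Finset β) = 1 := Equiv.ext fun m => by simp [bs]

theorem bs_insert {s : Finset β} {b : β} (h : b ∉ s) :
    bs (insert b s) = Equiv.swap (0, b) (1, b) * bs s := Equiv.ext fun ⟨a, b'⟩ => by
  rw [Equiv.Perm.mul_apply, bs_apply, bs_apply]
  by_cases e : b' = b
  · subst e
    rw [if_pos (Finset.mem_insert_self _ _), if_neg h]
    fin_cases a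
    · exact (Equiv.swap_apply_left _ _).symm
    · exact (Equiv.swap_apply_right _ _).symm
  · rw [Equiv.swap_apply_of_ne_of_ne (by simp [e]) (by simp [e])]
    simp [e]

variable [Fintype β] {ε : Fin 2 × β → k} {c : Fin 2 × β → ℤ} {o : Fin 2 × β} {Q P : Pt k}
  {C : ∀ ⦃K : Fld k⦄, (Fin 2 × β → K) → P.X K → Prop}
  (hC : (((mon ε c o).prod Q).prod P).Conv fun _ z => C z.1.1 z.2)

/-- A product of transpositions that act by a sign. -/
theorem acts_bs (s : Finset β)
    (H : ∀ b ∈ s, ((((mon ε c o).prod Q).prod P).restr _ hC).Acts χ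
      (fun _ z => ((pact o (Equiv.swap (0, b) (1, b)) z.1.1, z.1.2), z.2)) (-1))
    (L : ∀ b ∈ s, ∀ ⦃K : Fld k⦄ (z : ((((mon ε c o).prod Q).prod P).restr _ hC).X K),
      ((((mon ε c o).prod Q).prod P).restr _ hC).L z →
      ((((mon ε c o).prod Q).prod P).restr _ hC).L
        ((pact o (Equiv.swap (0, b) (1, b)) z.1.1, z.1.2), z.2)) :
    ((((mon ε c o).prod Q).prod P).restr _ hC).Acts χ
      (fun _ z => ((pact o (bs s) z.1.1, z.1.2), z.2)) ((-1) ^ s.card) := by
  induction s using Finset.induction_on with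
  | empty =>
    rw [Finset.card_empty, pow_zero, bs_empty]
    exact .of_fix fun _ z hz => by rw [pact_one hz.1.1.1.2.1]
  | insert b s hb ih =>
    refine (H b (Finset.mem_insert_self _ _)).comp
      (ih (fun b' h => H b' (Finset.mem_insert_of_mem h))
        fun b' h => L b' (Finset.mem_insert_of_mem h)) (L b (Finset.mem_insert_self _ _))
      (fun _ z hz => by rw [bs_insert hb, pact_mul hz.1.1.1.1.2]) ?_
    rw [Finset.card_insert_of_notMem hb, pow_succ']

end Block

end Pt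

end

end Pool.Agent.Lib.MP_fc2ced_ag.T
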