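import Pool.Agent.Lib.MP_fc2ced_ag.G.Lin
import Pool.Agent.Lib.MP_fc2ced_ag.G.Rad
import Pool.Agent.Lib.MP_fc2ced_ag.G.Mon
import Pool.Agent.Lib.MP_fc2ced_ag.G.MerB
import Pool.Agent.Lib.MP_fc2ced_ag.T.PV
import Pool.Agent.Lib.MP_fc2ced_ag.T.Cov
import Pool.Agent.Lib.MP_fc2ced_ag.K.GeoR

/-! The product of two hyperplanes in tori is compared with one hyperplane. -/

open CategoryTheory Function Polynomial

namespace Pool.Agent.Lib.MP_fc2ced_ag.T

open K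

noncomputable section

variable {k : Type} [Field k] {F : Type} [Field F] {χ : Chr k F}

open MP_fc2ced_ag.T.Pt hiding X

theorem chiA_two {K : Type} [Field K] (l : Fin 2 → K) :
    chiA (fun a (_ : Fin 1) => l a) 2 = (X - C (l 0)) * (X - C (l 1)) := by
  rw [chiA, Finset.filter_true_of_mem fun a _ => a.2, Fin.prod_univ_two, Fin.prod_univ_one,
    Fin.prod_univ_one]

variable {κ ρ : Type} [Fintype κ] [Fintype ρ] (ε : κ ⊕ ρ → k) (c : κ ⊕ ρ → ℤ) (γ : κ → ℤ)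

/-- The monomial in the variables of nonzero weight. -/
def ell {K : Type} [Field K] (t : κ ⊕ ρ → K) : K := ∏ u, t (.inl u) ^ γ u

/-- The hyperplane times a line. -/
@[reducible] def stp : Pt k := (hy ε c).prod (line k)

theorem reg_ell : (stp ε c).RegF fun _ x => ell γ x.1 :=
  fun _ _ _ _ _ _ b r => Place.prod fun u _ => rel_zpow (r.1 _) (b.1.1.2 _) _

/-- Powers of the hyperplane times a line. -/
@[reducible] def avG (w : ℕ) : PV k where
  S := (stp ε c).pi (Fin w)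
  c _ x m := chiA (fun a (_ : Fin 1) => ell γ (x a).1) m
  hc m _ _ φ _ _ a b h := Place.PR.chiA (fun i _ => reg_ell ε c γ φ _ _ (a i) (b i) (h i)) m

/-- The hyperplane in two copies of the homogeneous coordinates, times a line. -/
@[reducible] def mvG : PV k where
  S := (mon (ι := Fin 2 × Option (κ ⊕ ρ)) (fun m => m.2.elim 1 ε)
    (fun m => m.2.elim (-∑ i, c i) c) (0, none)).prod (line k)
  c _ x m := chiA (fun (a : Fin 2) (_ : Fin 1) => ell γ fun i => x.1 (a, some i)) m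
  hc m _ _ _ _ _ _ b r :=
    Place.PR.chiA (fun _ _ => Place.prod fun _ _ => rel_zpow (r.1 _) (b.1.1.2 _) _) m

/-- The two equations are merged. -/
def mg ⦃K : Fld k⦄ (x : (avG ε c γ 2).S.X K) : (mvG ε c γ).S.X K :=
  (fun m => if m.1 = 0 then m.2.elim 1 (x 0).1 else (x 1).2 * m.2.elim 1 (x 1).1, (x 0).2)

/-- The variables of nonzero weight of the two copies are exchanged. -/
def sk ⦃K : Fld k⦄ (x : (mvG ε c γ).S.X K) : (mvG ε c γ).S.X K :=
  (fun m => match m.2 with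
    | some (.inl u) => x.1 (m.1.rev, some (.inl u))
    | _ => x.1 m, x.2)

/-- The two factors are exchanged. -/
def sw ⦃K : Fld k⦄ (x : (avG ε c γ 2).S.X K) : (avG ε c γ 2).S.X K :=
  fun a => x ((Equiv.swap 0 1).symm a)

variable {P : Pt k} {T : PC P}

theorem chiA_two_swap {K : Type} [Field K] {l l' : Fin 2 → K} (h0 : l' 0 = l 1) (h1 : l' 1 = l 0) :
    chiA (fun a (_ : Fin 1) => l' a) 2 = chiA (fun a (_ : Fin 1) => l a) 2 := by
  rw [chiA_two, chiA_two, h0, h1, mul_comm]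

theorem pend_sw : PEnd (avG ε c γ 2) {2} (sw ε c γ) where
  map := (stp ε c).isMap_perm (Equiv.swap 0 1)
  c _ x _ _ m hm := by
    obtain rfl : m = 2 := hm
    exact chiA_two_swap (l := fun a => ell γ (x a).1) (l' := fun a => ell γ (sw ε c γ x a).1)
      rfl rfl
  live _ _ h _ := h _

variable (κ ρ) in
/-- The permutation of the indices that exchanges the variables of nonzero weight. -/
def skP : Equiv.Perm (Fin 2 × Option (κ ⊕ ρ)) :=
  Involutive.toPerm (fun m => match m.2 with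
    | some (.inl u) => (m.1.rev, some (.inl u))
    | _ => m) (by rintro ⟨a, _ | _ | _⟩ <;> simp)

omit [Fintype κ] [Fintype ρ] in
theorem skP_snd (m : Fin 2 × Option (κ ⊕ ρ)) : (skP κ ρ m).2 = m.2 := by
  rcases m with ⟨a, _ | _ | _⟩ <;> rfl

omit [Fintype κ] [Fintype ρ] in
theorem skP_skP (m : Fin 2 × Option (κ ⊕ ρ)) : skP κ ρ (skP κ ρ m) = m :=
  (skP κ ρ).symm_apply_apply m

theorem sk_eq {K : Fld k} (x : (mvG ε c γ).S.X K) :
    sk ε c γ x = (fun m => x.1 (skP κ ρ m), x.2) :=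
  Prod.ext (funext fun m => by rcases m with ⟨a, _ | _ | _⟩ <;> rfl) rfl

theorem reg_sk : (mvG ε c γ).S.Reg (mvG ε c γ).S (sk ε c γ) := by
  refine ⟨fun K x h => ?_, fun _ _ φ x y _ _ r => ?_⟩
  · rw [sk_eq]
    refine ⟨⟨⟨fun _ => trivial, fun m => h.1.1.2 _⟩, h.1.2.1, Eq.trans ?_ h.1.2.2⟩, trivial⟩
    refine Fintype.sum_equiv (skP κ ρ) _ _ fun m => ?_
    simp only [skP_snd]
  · rw [sk_eq, sk_eq]
    exact ⟨fun _ => r.1 _, r.2⟩

theorem pend_sk : PEnd (mvG ε c γ) {2} (sk ε c γ) where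
  map := by
    refine .of_inv (reg_sk ε c γ) (reg_sk ε c γ) (fun K x _ => ?_) fun K x _ => ?_
    · rw [sk_eq]
      refine congrArg (· * (1 : K)) (Fintype.prod_equiv (skP κ ρ) _ _ fun m => ?_)
      simp only [skP_snd]
    · rw [sk_eq, sk_eq]
      exact Prod.ext (funext fun m => congrArg x.1 (skP_skP m)) rfl
  c _ x _ _ m hm := by
    obtain rfl : m = 2 := hm
    exact chiA_two_swap (l := fun a => ell γ fun i => x.1 (a, some i))
      (l' := fun a => ell γ fun i => (sk ε c γ x).1 (a, some i)) rfl rfl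
  live := (reg_sk ε c γ).live

theorem prod_zpow_sum {K α : Type} [Field K] {r : K} (hr : r ≠ 0) (s : Finset α) (n : α → ℤ) :
    ∏ i ∈ s, r ^ n i = r ^ ∑ i ∈ s, n i := by
  classical
  induction s using Finset.induction_on with
  | empty => simp
  | insert a s ha ih => rw [Finset.prod_insert ha, Finset.sum_insert ha, ih, zpow_add₀ hr]

omit [Fintype ρ] in
theorem ell_mul {K : Type} [Field K] {γ : κ → ℤ} (hγ : ∑ u, γ u = 0) (t : κ ⊕ ρ → K) {r : K}
    (hr : r ≠ 0) : ell γ (fun i => r * t i) = ell γ t := by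
  simp only [ell, mul_zpow, Finset.prod_mul_distrib]
  rw [prod_zpow_sum hr, hγ, zpow_zero, one_mul]

theorem lin_two {K : Fld k} (t : Fin 2 × Option (κ ⊕ ρ) → K) :
    lin (fun m => m.2.elim 1 ε) t = (t (0, none) + lin ε fun i => t (0, some i)) +
      (t (1, none) + lin ε fun i => t (1, some i)) := by
  simp [lin, Fintype.sum_prod_type, Fin.sum_univ_two, Fintype.sum_option]

theorem lin_mul {K : Fld k} (t : κ ⊕ ρ → K) (r : K) :
    lin ε (fun i => r * t i) = r * lin ε t := by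
  simp only [lin, Finset.mul_sum, mul_left_comm]

theorem prod_two' {K : Type} [Field K] (t : Fin 2 × Option (κ ⊕ ρ) → K) :
    ∏ m, t m ^ (m.2.elim (-∑ i, c i) c) =
      (t (0, none) ^ (-∑ i, c i) * ∏ i, t (0, some i) ^ c i) *
        (t (1, none) ^ (-∑ i, c i) * ∏ i, t (1, some i) ^ c i) := by
  rw [Fintype.prod_prod_type, Fin.prod_univ_two, Fintype.prod_option, Fintype.prod_option]
  rfl

theorem prod_mul_zpow {K : Type} [Field K] (t : κ ⊕ ρ → K) {r : K} (hr : r ≠ 0) :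
    ∏ i, (r * t i) ^ c i = r ^ (∑ i, c i) * ∏ i, t i ^ c i := by
  simp only [mul_zpow, Finset.prod_mul_distrib]
  rw [prod_zpow_sum hr]

/-- The merged point built from two points of the torus. -/
def mgt {K : Type} [Field K] (t₀ t₁ : κ ⊕ ρ → K) (s : K) (m : Fin 2 × Option (κ ⊕ ρ)) : K :=
  if m.1 = 0 then m.2.elim 1 t₀ else s * m.2.elim 1 t₁

omit [Fintype κ] [Fintype ρ] in
theorem mgt_ne {K : Type} [Field K] {t₀ t₁ : κ ⊕ ρ → K} {s : K} (h₀ : ∀ i, t₀ i ≠ 0)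
    (h₁ : ∀ i, t₁ i ≠ 0) (hs : s ≠ 0) (m : Fin 2 × Option (κ ⊕ ρ)) : mgt t₀ t₁ s m ≠ 0 := by
  rcases m with ⟨a, _ | i⟩ <;> unfold mgt <;> split_ifs <;> simp [h₀, h₁, hs]

theorem mgt_lin {K : Fld k} (t₀ t₁ : κ ⊕ ρ → K) (s : K) :
    lin (fun m => m.2.elim 1 ε) (mgt t₀ t₁ s) = (lin ε t₀ + 1) + s * (lin ε t₁ + 1) := by
  rw [lin_two]
  change (1 + lin ε t₀) + (s * 1 + lin ε fun i => s * t₁ i) = _
  rw [lin_mul]
  ring

theorem mgt_f {K : Type} [Field K] (t₀ t₁ : κ ⊕ ρ → K) {s : K} (hs : s ≠ 0) :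
    ∏ m, mgt t₀ t₁ s m ^ (m.2.elim (-∑ i, c i) c) = (∏ i, t₀ i ^ c i) * ∏ i, t₁ i ^ c i := by
  rw [prod_two']
  change ((1 : K) ^ _ * ∏ i, t₀ i ^ c i) * ((s * 1) ^ _ * ∏ i, (s * t₁ i) ^ c i) = _
  rw [prod_mul_zpow c t₁ hs, one_zpow, one_mul, mul_one, ← mul_assoc (s ^ _), ← zpow_add₀ hs,
    neg_add_cancel, zpow_zero, one_mul]

omit [Fintype κ] [Fintype ρ] in
theorem mgt_rel {K K' : Fld k} {φ : Place K K'} {t₀ t₁ : κ ⊕ ρ → K} {s : K}
    {t₀' t₁' : κ ⊕ ρ → K'} {s' : K'} (h₀ : ∀ i, φ (t₀ i) (t₀' i)) (h₁ : ∀ i, φ (t₁ i) (t₁' i))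
    (hs : φ s s') (m : Fin 2 × Option (κ ⊕ ρ)) : φ (mgt t₀ t₁ s m) (mgt t₀' t₁' s' m) := by
  rcases m with ⟨a, _ | i⟩ <;> unfold mgt <;> split_ifs
  exacts [φ.one, hs.mul φ.one, h₀ i, hs.mul (h₁ i)]

omit [Fintype ρ] in
theorem mgt_chi {K : Type} [Field K] {γ : κ → ℤ} (hγ : ∑ u, γ u = 0) (t : Fin 2 → κ ⊕ ρ → K)
    {s : K} (hs : s ≠ 0) :
    chiA (fun (a : Fin 2) (_ : Fin 1) => ell γ fun i => mgt (t 0) (t 1) s (a, some i)) =
      chiA (fun a (_ : Fin 1) => ell γ (t a)) :=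
  congrArg chiA (funext (Fin.forall_fin_two.2 ⟨rfl, funext fun _ => ell_mul hγ (t 1) hs⟩))

omit [Fintype κ] [Fintype ρ] in
theorem mgt_eta {K : Type} [Field K] {z : Fin 2 × Option (κ ⊕ ρ) → K} (h0 : z (0, none) = 1)
    (h1 : z (1, none) ≠ 0) :
    mgt (fun i => z (0, some i)) (fun i => z (1, some i) / z (1, none)) (z (1, none)) = z := by
  funext ⟨a, m⟩
  revert a
  refine Fin.forall_fin_two.2 ⟨?_, ?_⟩ <;> rcases m with _ | i
  exacts [h0.symm, rfl, mul_one _, mul_div_cancel₀ _ h1]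

theorem mg_live {K : Fld k} {x : (avG ε c γ 2).S.X K} (h : (avG ε c γ 2).S.L x) :
    (mvG ε c γ).S.L (mg ε c γ x) ↔ (x 1).2 ≠ 0 := by
  refine ⟨fun l => left_ne_zero_of_mul (l.1.1.2 (1, none)), fun l =>
    ⟨⟨⟨fun _ => trivial, mgt_ne (h 0).1.1.2 (h 1).1.1.2 l⟩, rfl, ?_⟩, trivial⟩⟩
  exact (mgt_lin ε _ _ _).trans (by rw [(h 0).1.2, (h 1).1.2, mul_zero, add_zero])

/-- Two points of the torus and a point of the line. -/
@[reducible] def bvG : PV k where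
  S := ((mt k c).pi (Fin 2)).prod (line k)
  c _ x m := chiA (fun a (_ : Fin 1) => ell γ (x.1 a)) m
  hc m _ _ _ _ _ _ b r :=
    Place.PR.chiA (fun a _ => Place.prod fun _ _ => rel_zpow (r.1 a _) ((b.1 a).2 _) _) m

/-- One of the two points is scaled. -/
def scl {K : Type} [Field K] (a : Fin 2) (r : K) (t : Fin 2 → κ ⊕ ρ → K) (b : Fin 2)
    (i : κ ⊕ ρ) : K := (if b = a then r else 1) * t b i

omit [Fintype κ] [Fintype ρ] in
theorem scl_ne {K : Type} [Field K] {a b : Fin 2} (h : b ≠ a) (r : K) (t : Fin 2 → κ ⊕ ρ → K) :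
    scl a r t b = t b := funext fun i => by rw [scl, if_neg h, one_mul]

variable {γ} (hγ : ∑ u, γ u = 0)
include hγ

theorem flow_bvG (T : PC P) (a : Fin 2) : ((bvG c γ).over T).Flow (∑ i, c i)
    fun _ r x => ((scl a r x.1.1, x.1.2), x.2) := by
  have n : ∀ {K : Fld k} {r : K}, r ≠ 0 → ∀ b, (if b = a then r else 1) ≠ 0 :=
    fun h b => by split_ifs; exacts [h, one_ne_zero]
  refine ⟨fun K r x hr h => ⟨⟨⟨fun b => ⟨fun _ => trivial, fun i =>
      mul_ne_zero (n hr b) ((h.1.1.1 b).2 i)⟩, trivial⟩, h.1.2⟩, ?_⟩, fun K x _ => ?_,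
    fun K r x hr _ => ?_, fun K r x hr _ => ?_, fun K K' φ r r' x y hr _ _ _ h =>
      ⟨⟨fun b i => Place.R.mul ?_ (h.1.1 b i), h.1.2⟩, h.2⟩⟩
  · have e : (fun b (_ : Fin 1) => ell γ (scl a r x.1.1 b)) = fun b _ => ell γ (x.1.1 b) :=
      funext fun b => funext fun _ => ell_mul hγ _ (n hr b)
    change T.T (chiA fun b (_ : Fin 1) => ell γ (scl a r x.1.1 b)) x.2
    rw [e]
    exact h.2
  · exact Prod.ext (Prod.ext (funext fun b => funext fun i => by simp [scl]) rfl) rfl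
  · refine Prod.ext (Prod.ext (funext fun b => funext fun i => ?_) rfl) rfl
    simp only [scl]
    split_ifs
    · exact inv_mul_cancel_left₀ hr _
    · rw [one_mul, one_mul]
  · change (∏ b, ∏ i, ((if b = a then r else 1) * x.1.1 b i) ^ c i) * 1 * P.f x.2 =
      (∏ b, ∏ i, x.1.1 b i ^ c i) * 1 * P.f x.2 * r ^ (∑ i, c i)
    simp only [fun b => prod_mul_zpow c (x.1.1 b) (n hr b), Finset.prod_mul_distrib,
      apply_ite (· ^ (∑ i, c i)), one_zpow, Finset.prod_ite_eq', Finset.mem_univ, if_true]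
    ring
  · split_ifs
    exacts [hr, φ.one]

theorem pmap_mg : PMap (avG ε c γ 2) (mvG ε c γ) Set.univ (mg ε c γ) where
  map := by
    refine .of_open (fun _ _ φ x y a b r l => (mg_live ε c γ a).2
      ((r 1).2.ne_zero ((mg_live ε c γ b).1 l))) (.of_proper ⟨fun _ _ h => h.2,
        fun _ _ φ x y _ _ r => ⟨mgt_rel (r 0).1 (r 1).1 (r 1).2, (r 0).2⟩⟩ (fun K x h => ?_)
        fun K K' φ x z h hz r => ?_)
    · change (∏ m, mgt (x 0).1 (x 1).1 (x 1).2 m ^ (m.2.elim (-∑ i, c i) c)) * 1 =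
        ∏ a, (∏ i, (x a).1 i ^ c i) * 1
      rw [mgt_f c _ _ ((mg_live ε c γ h.1).1 h.2), Fin.prod_univ_two, mul_one, mul_one, mul_one]
    · have s0 := (mg_live ε c γ h.1).1 h.2
      have n0 := hz.1.1.2 (1, none)
      have r0 : φ (x 1).2 (z.1 (1, none)) := (r.1 (1, none)).congr (mul_one _) rfl
      have r1 : ∀ i, φ ((x 0).1 i) (z.1 (0, some i)) := fun i => r.1 (0, some i)
      have r2 : ∀ i, φ ((x 1).1 i) (z.1 (1, some i) / z.1 (1, none)) := fun i =>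
        ((r.1 (1, some i)).div r0 n0).congr (mul_div_cancel_left₀ _ s0) rfl
      have l : (avG ε c γ 2).S.L ![(fun i => z.1 (0, some i), z.2),
          (fun i => z.1 (1, some i) / z.1 (1, none), z.1 (1, none))] :=
        Fin.forall_fin_two.2 ⟨⟨⟨⟨fun _ => trivial, fun i => hz.1.1.2 _⟩,
          ((rel_lin ε r1).add φ.one).eq_of φ.zero (h.1 0).1.2⟩, trivial⟩,
          ⟨⟨fun _ => trivial, fun i => div_ne_zero (hz.1.1.2 _) n0⟩,
          ((rel_lin ε r2).add φ.one).eq_of φ.zero (h.1 1).1.2⟩, trivial⟩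
      exact ⟨_, ⟨l, (mg_live ε c γ l).2 n0⟩, Fin.forall_fin_two.2 ⟨⟨r1, r.2⟩, r2, r0⟩⟩
  c _ x a b m _ := congrFun (mgt_chi hγ (fun a => (x a).1) ((mg_live ε c γ a).1 b)) m

variable {c} (ht : χ.ψ (∑ i, c i : ℤ) ≠ 1)
include ht

theorem uiso_mg (T : PC P) : UIso (ov χ (avG ε c γ 2) (mvG ε c γ) T (mg ε c γ)) := by
  have hT : T.Dep Set.univ := fun _ _ _ _ e h => funext (fun m => e m trivial) ▸ h
  have h₀ : ((bvG c γ).over T).RegF fun _ x => lin ε (x.1.1 0) + 1 :=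
    fun _ _ φ _ _ _ _ r => (rel_lin ε (r.1.1 0)).add φ.one
  have h₁ : ∀ _ : Unit, ((bvG c γ).over T).RegF fun _ x => lin ε (x.1.1 1) + 1 :=
    fun _ _ _ φ _ _ _ _ r => (rel_lin ε (r.1.1 1)).add φ.one
  have u := uiso_rad (χ := χ) h₀ h₁ ht (flow_bvG c hγ T 0) (fun _ r x _ _ _ => by
      simp only [scl_ne (show (1 : Fin 2) ≠ 0 by decide)]) Set.univ
    fun _ _ => ⟨_, _, ht, flow_bvG c hγ T 1, fun _ r x _ _ =>
      ⟨by simp only [scl_ne (show (0 : Fin 2) ≠ 1 by decide)], fun _ h => absurd rfl h⟩⟩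
  have ra : ((avG ε c γ 2).over T).Reg (radR h₀ h₁) fun _ x =>
      (((fun a => (x.1 a).1, (x.1 0).2), x.2), fun _ => (x.1 1).2) :=
    ⟨fun _ x h => ⟨⟨⟨⟨⟨fun a => (h.1.1 a).1.1, trivial⟩, h.1.2⟩, h.2⟩, fun _ => trivial⟩,
      (h.1.1 0).1.2, fun _ => (h.1.1 1).1.2⟩, fun _ _ φ x y _ _ r =>
      ⟨⟨⟨fun a => (r.1 a).1, (r.1 0).2⟩, r.2⟩, fun _ => (r.1 1).2⟩⟩
  have ra' : (radR h₀ h₁).Reg ((avG ε c γ 2).over T) fun _ x =>
      (![(x.1.1.1 0, x.1.1.2), (x.1.1.1 1, x.2 ())], x.1.2) := by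
    refine ⟨fun _ x h => ⟨⟨Fin.forall_fin_two.2 ⟨⟨⟨h.1.1.1.1.1 0, h.2.1⟩, trivial⟩,
      ⟨h.1.1.1.1.1 1, h.2.2 ()⟩, trivial⟩, h.1.1.1.2⟩, ?_⟩, fun _ _ φ x y _ _ r =>
      ⟨Fin.forall_fin_two.2 ⟨⟨r.1.1.1 0, r.1.1.2⟩, r.1.1.1 1, r.2 ()⟩, r.1.2⟩⟩
    have e : (fun a (_ : Fin 1) => ell γ (![(x.1.1.1 0, x.1.1.2), (x.1.1.1 1, x.2 ())] a).1) =
        fun a (_ : Fin 1) => ell γ (x.1.1.1 a) := funext (Fin.forall_fin_two.2 ⟨rfl, rfl⟩)
    exact hT _ _ _ (fun m _ => congrFun (congrArg chiA e.symm) m) h.1.1.2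
  have ea : ∀ ⦃K⦄ (x : ((avG ε c γ 2).over T).X K),
      (![((x.1 0).1, (x.1 0).2), ((x.1 1).1, (x.1 1).2)], x.2) = x := fun _ x =>
    Prod.ext (funext (Fin.forall_fin_two.2 ⟨rfl, rfl⟩)) rfl
  have ma := IsMap.of_inv ra ra' (fun _ x _ => by simp) fun _ x _ => ea x
  have ba := ma.bij (χ := χ) ra.live
    (fun _ x y _ _ e => (ea x).symm.trans ((congrArg (fun x : (radR h₀ h₁).X _ =>
      (![(x.1.1.1 0, x.1.1.2), (x.1.1.1 1, x.2 ())], x.1.2)) e).trans (ea y)))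
    fun _ y hy => ⟨_, ra'.live y hy, Prod.ext (Prod.ext (Prod.ext
      (funext (Fin.forall_fin_two.2 ⟨rfl, rfl⟩)) rfl) rfl) rfl⟩
  have rb : (radW h₀ h₁ Set.univ).Reg ((mvG ε c γ).over T) fun _ x =>
      ((mgt (x.1.1.1 0) (x.1.1.1 1) (x.2 ()), x.1.1.2), x.1.2) := by
    refine ⟨fun _ x h => ⟨⟨⟨⟨⟨fun _ => trivial, mgt_ne (h.1.1.1.1.1 0).2 (h.1.1.1.1.1 1).2
      (h.2.2 () trivial)⟩, rfl, (mgt_lin ε _ _ _).trans ?_⟩, trivial⟩, h.1.1.1.2⟩, ?_⟩,
      fun _ _ φ x y _ _ r => ⟨⟨mgt_rel (r.1.1.1 0) (r.1.1.1 1) (r.2 ()), r.1.1.2⟩, r.1.2⟩⟩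
    · simpa using h.2.1
    · exact hT _ _ _ (fun m _ => congrFun (mgt_chi hγ x.1.1.1 (h.2.2 () trivial)).symm m) h.1.1.2
  have rb' : ((mvG ε c γ).over T).Reg (radW h₀ h₁ Set.univ) fun _ z =>
      (((![fun i => z.1.1 (0, some i), fun i => z.1.1 (1, some i) / z.1.1 (1, none)], z.1.2), z.2),
        fun _ => z.1.1 (1, none)) := by
    refine ⟨fun _ z h => ?_, fun _ _ φ x y _ b r => ⟨⟨⟨Fin.forall_fin_two.2 ⟨fun i => r.1.1 _,
      fun i => (r.1.1 _).div (r.1.1 _) (b.1.1.1.1.2 _)⟩, r.1.2⟩, r.2⟩, fun _ => r.1.1 _⟩⟩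
    have n0 := h.1.1.1.1.2 (1, none)
    have e := mgt_eta h.1.1.1.2.1 n0
    refine ⟨⟨⟨⟨⟨Fin.forall_fin_two.2 ⟨⟨fun _ => trivial, fun i => h.1.1.1.1.2 _⟩,
      fun _ => trivial, fun i => div_ne_zero (h.1.1.1.1.2 _) n0⟩, trivial⟩, h.1.2⟩, ?_⟩,
      fun _ => trivial⟩, ?_, fun _ _ => n0⟩
    · have e' := mgt_chi hγ ![fun i => z.1.1 (0, some i),
        fun i => z.1.1 (1, some i) / z.1.1 (1, none)] n0
      rw [Matrix.cons_val_zero, Matrix.cons_val_one, Matrix.cons_val_zero, e] at e'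
      exact hT _ _ _ (fun m _ => congrFun e' m) h.2
    · have := (mgt_lin ε _ _ _).symm.trans ((congrArg (lin _) e).trans h.1.1.1.2.2)
      simpa using this
  have eb : ∀ ⦃K⦄ (x : (radW h₀ h₁ Set.univ).X K), (radW h₀ h₁ Set.univ).L x →
      (((![fun i => mgt (x.1.1.1 0) (x.1.1.1 1) (x.2 ()) (0, some i),
        fun i => mgt (x.1.1.1 0) (x.1.1.1 1) (x.2 ()) (1, some i) /
          mgt (x.1.1.1 0) (x.1.1.1 1) (x.2 ()) (1, none)], x.1.1.2), x.1.2),
        fun _ => mgt (x.1.1.1 0) (x.1.1.1 1) (x.2 ()) (1, none)) = x := fun _ x h =>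
    Prod.ext (Prod.ext (Prod.ext (funext (Fin.forall_fin_two.2 ⟨rfl, funext fun i =>
      (mul_div_mul_left _ _ (h.2.2 () trivial)).trans (div_one _)⟩)) rfl) rfl)
      (funext fun _ => mul_one _)
  have mb := IsMap.of_inv rb rb' (fun K x h => by
    change (∏ m, mgt (x.1.1.1 0) (x.1.1.1 1) (x.2 ()) m ^ (m.2.elim (-∑ i, c i) c)) * 1 * _ =
      (∏ a, ∏ i, x.1.1.1 a i ^ c i) * 1 * _ * ∏ _a : Unit, (1 : K)
    rw [mgt_f c _ _ (h.2.2 () trivial), Fin.prod_univ_two, Finset.prod_const_one, mul_one,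
      mul_one]) eb
  have bb := mb.bij (χ := χ) rb.live
    (fun _ x y a b e => (eb x a).symm.trans ((congrArg (fun z : ((mvG ε c γ).over T).X _ =>
      (((![fun i => z.1.1 (0, some i), fun i => z.1.1 (1, some i) / z.1.1 (1, none)], z.1.2), z.2),
        fun _ : Unit => z.1.1 (1, none))) e).trans (eb y b)))
    fun _ z hz => ⟨_, rb'.live z hz,
      Prod.ext (Prod.ext (mgt_eta hz.1.1.1.2.1 (hz.1.1.1.1.2 _)) rfl) rfl⟩
  have mc := ma.comp (isMap_rad h₀ h₁ Set.univ) fun _ x h _ => ra.live x h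
  have mo := (pmap_mg ε c hγ).over hT
  rw [ov, mo.hm_eq, ← mc.hom_comp mb mo (fun _ x h l => ⟨(ra.live x h).1,
      by simp [(h.1.1 0).1.2, (h.1.1 1).1.2], fun _ _ => (mg_live ε c γ h.1.1).1 l.1.1⟩)
      fun _ _ _ _ => rfl,
    ← ma.hom_comp (isMap_rad h₀ h₁ Set.univ) mc (fun _ x h _ => ra.live x h) fun _ _ _ _ => rfl]
  exact (ba.uiso.comp u).comp bb.uiso

variable [CharZero F] (hρ : ∀ j, χ.ψ (c (.inr j)) ≠ 1)

omit ht [Fintype ρ] in
theorem merB_ell {K : Type} [Field K] (t : κ ⊕ ρ → K) {r : K} (hr : r ≠ 0) :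
    ell γ (fun i => t i * r) = ell γ t := by
  have e : ∀ s : Finset κ, ∏ u ∈ s, r ^ γ u = r ^ ∑ u ∈ s, γ u := fun s => by
    induction s using Finset.cons_induction with
    | empty => simp
    | cons u s h ih => rw [Finset.prod_cons, Finset.sum_cons, ih, zpow_add₀ hr]
  simp only [ell, mul_zpow, Finset.prod_mul_distrib]
  rw [e, hγ, zpow_zero, mul_one]

omit hγ ht in
theorem merB_aff (T : PC P) : ((avG ε c γ 2).over T).Aff (Fin 2) (fun _ x a => (x.1 a).2)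
    fun _ x t => (fun a => ((x.1 a).1, t a), x.2) where
  rs a _ _ _ _ _ _ _ r := (r.1 a).2
  self _ _ _ := rfl
  live _ _ _ hx := ⟨⟨fun a => ⟨(hx.1.1 a).1, trivial⟩, hx.1.2⟩, hx.2⟩
  coord _ _ _ _ := rfl
  f _ _ _ _ := rfl
  mv_mv _ _ _ _ _ := rfl
  reg _ _ _ _ _ _ _ _ _ r h := ⟨fun a => ⟨(r.1 a).1, h a⟩, r.2⟩

omit hγ ht in
theorem merB_live {K : Fld k} {x : (avG ε c γ 2).S.X K} (hx : (avG ε c γ 2).S.L x) :
    (mvG ε c γ).S.L (mg ε c γ x) ↔ (x 1).2 ≠ 0 := by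
  refine ⟨fun h => by simpa [mg] using h.1.1.2 (1, none), fun h =>
    ⟨⟨⟨fun _ => trivial, fun m => ?_⟩, rfl, ?_⟩, trivial⟩⟩
  · obtain ⟨a, _ | i⟩ := m <;> fin_cases a <;> simp [mg, h, (hx _).1.1.2 _]
  · have e0 := (hx 0).1.2
    have e1 := (hx 1).1.2
    simp only [lin] at e0 e1
    simp only [lin, mg, Fintype.sum_prod_type, Fin.sum_univ_two, Fintype.sum_option,
      Option.elim_none, Option.elim_some, map_one, if_true, one_ne_zero, if_false,
      mul_left_comm _ (x 1).2, ← Finset.mul_sum]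
    linear_combination e0 + (x 1).2 * e1

omit hγ ht in
theorem merB_sum : ∑ m : Fin 2 × Option (κ ⊕ ρ), m.2.elim (-∑ i, c i) c = 0 := by
  simp only [Fintype.sum_prod_type, Fin.sum_univ_two, Fintype.sum_option, Option.elim_none,
    Option.elim_some, neg_add_cancel, add_zero]

omit hγ ht [CharZero F] in
/-- The exchange of the variables of nonzero weight. -/
theorem merB_kap (hε : ∀ u, ε (.inl u) ≠ 0)
    (hκ : ∀ u, ∃ x, x ≠ u ∧ γ u + γ x = 0 ∧ χ.ψ (c (.inl u) + c (.inl x) : ℤ) ≠ 1)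
    (hT : ∀ ⦃K : Fld k⦄ (d d' : ℕ → K[X]) (p : P.X K), (d 2).coeff 0 = (d' 2).coeff 0 →
      T.T d p → T.T d' p) :
    ((mvG ε c γ).over T).Acts χ (fun _ z => (sk ε c γ z.1, z.2)) ((-1) ^ Fintype.card κ) := by
  classical
  let C : ∀ ⦃K : Fld k⦄, (Fin 2 × Option (κ ⊕ ρ) → K) → P.X K → Prop := fun _ t p =>
    T.T (chiA fun (a : Fin 2) (_ : Fin 1) => ell γ fun i => t (a, some i)) p
  have bl : ∀ u x : κ, x ≠ u → γ u + γ x = 0 →
      ∀ ⦃K : Fld k⦄ (t t' : Fin 2 × Option (κ ⊕ ρ) → K) (p : P.X K), (∀ i, t i ≠ 0) →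
      (∀ i, t' i ≠ 0) → (∀ i, i ≠ (0, some (.inl u)) → i ≠ (1, some (.inl u)) →
        i ≠ (0, some (.inl x)) → t' i = t i) →
      t' (0, some (.inl x)) * (t (0, some (.inl u)) * t (1, some (.inl u))) =
        t (0, some (.inl x)) * (t' (0, some (.inl u)) * t' (1, some (.inl u))) →
      C t p → C t' p := fun u x hx hγ K t t' p n n' e e' h => by
    refine hT _ _ p ?_ h
    have sp : ∀ s : Fin 2 × Option (κ ⊕ ρ) → K, (∀ i, s i ≠ 0) →
        (ell γ fun i => s (0, some i)) * (ell γ fun i => s (1, some i)) =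
        (s (0, some (.inl u)) * s (1, some (.inl u)) / s (0, some (.inl x))) ^ γ u *
          ((∏ w ∈ (Finset.univ.erase u).erase x, s (0, some (.inl w)) ^ γ w) *
            ∏ w ∈ Finset.univ.erase u, s (1, some (.inl w)) ^ γ w) := fun s _ => by
      rw [ell, ell, ← Finset.mul_prod_erase _ _ (Finset.mem_univ u),
        ← Finset.mul_prod_erase _ _ (Finset.mem_univ u),
        ← Finset.mul_prod_erase (Finset.univ.erase u) (fun w => s (0, some (.inl w)) ^ γ w)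
          (Finset.mem_erase.2 ⟨hx, Finset.mem_univ x⟩), (neg_eq_of_add_eq_zero_right hγ).symm,
        div_zpow, mul_zpow, zpow_neg, div_eq_mul_inv]
      ring
    rw [chiA_two, chiA_two, mul_coeff_zero, mul_coeff_zero]
    simp only [coeff_sub, coeff_X_zero, coeff_C_zero, zero_sub, neg_mul_neg]
    have q : t (0, some (.inl u)) * t (1, some (.inl u)) / t (0, some (.inl x)) =
        t' (0, some (.inl u)) * t' (1, some (.inl u)) / t' (0, some (.inl x)) :=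
      (div_eq_div_iff (n _) (n' _)).2 (by linear_combination e')
    rw [sp t n, sp t' n', q,
      Finset.prod_congr rfl fun w hw => by
        rw [← e (0, some (.inl w)) (by simp_all) (by simp) (by simp_all)],
      Finset.prod_congr (s₁ := Finset.univ.erase u) rfl fun w hw => by
        rw [← e (1, some (.inl w)) (by simp) (by simp_all) (by simp)]]
  have key : ((mvG ε c γ).over T).Acts χ (fun _ z => ((pact (0, none)
      (bs ((Finset.univ.map Embedding.inl).map Embedding.some)) z.1.1, z.1.2), z.2))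
      ((-1) ^ Fintype.card κ) := by
    rw [← Finset.card_univ, ← Finset.card_map (Embedding.inl : κ ↪ κ ⊕ ρ),
      ← Finset.card_map Embedding.some]
    refine acts_bs (C := C) _ _ (fun b hb => ?_) fun b hb => ?_ <;>
      obtain ⟨i, hi, rfl⟩ := Finset.mem_map.1 hb <;> obtain ⟨u, -, rfl⟩ := Finset.mem_map.1 hi <;>
      obtain ⟨x, h1, h2, h3⟩ := hκ u
    · exact mon_swap' (C := C) (u := (0, some (Sum.inl u))) (v := (1, some (Sum.inl u)))
        (x := (0, some (Sum.inl x))) _ (by simp) (by simpa using h1) (by simp) rfl rfl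
        (by simp) (by simp) (by simp) (hε u) h3 (bl u x h1 h2)
    · intro K
      exact mon_swap_live' (C := C) (u := (0, some (Sum.inl u))) (v := (1, some (Sum.inl u)))
        (x := (0, some (Sum.inl x))) _ rfl (by simpa using h1) (by simp) (by simp) (by simp)
        (bl u x h1 h2)
  refine (Acts.of_fix (a := fun _ z => z) fun _ _ _ => rfl).comp key (fun _ _ h => h)
    (fun _ z hz => Prod.ext (Prod.ext (funext fun m => ?_) rfl) rfl) (one_mul _).symm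
  have e : z.1.1 (0, none) = 1 := hz.1.1.1.2.1
  obtain ⟨a, _ | u | j⟩ := m <;> simp [sk, pact, bs_apply, e]

include hρ

omit [CharZero F] in
/-- The exchange of the variables of weight zero. -/
theorem merB_zero [DecidableEq κ] [DecidableEq ρ] (T : PC P) :
    ((mvG ε c γ).over T).Acts χ (fun _ z => ((pact (0, none)
      (bs (Finset.insertNone (Finset.univ.map Embedding.inr))) z.1.1, z.1.2), z.2))
      ((-1) ^ (Fintype.card ρ + 1)) := by
  let C : ∀ ⦃K : Fld k⦄, (Fin 2 × Option (κ ⊕ ρ) → K) → P.X K → Prop := fun _ t p =>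
    T.T (chiA fun (a : Fin 2) (_ : Fin 1) => ell γ fun i => t (a, some i)) p
  have sc : ∀ ⦃K : Fld k⦄ (t : Fin 2 × Option (κ ⊕ ρ) → K) (r : K) (p : P.X K), (∀ i, t i ≠ 0) →
      r ≠ 0 → C t p → C (fun i => t i * r) p := fun K t r p _ hr h => by
    simpa only [C, merB_ell hγ _ hr] using h
  have bl : ∀ b ∈ Finset.insertNone (Finset.univ.map (Embedding.inr : ρ ↪ κ ⊕ ρ)),
      ∀ ⦃K : Fld k⦄ (t t' : Fin 2 × Option (κ ⊕ ρ) → K) (p : P.X K), (∀ i, t i ≠ 0) →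
      (∀ i, t' i ≠ 0) → (∀ i, i ≠ (0, b) → i ≠ (1, b) → t' i = t i) → C t p → C t' p :=
    fun b hb K t t' p _ _ e h => by
      have : ∀ a u, t' (a, some (.inl u)) = t (a, some (.inl u)) := fun a u =>
        e _ (by rintro ⟨⟩; simp at hb) (by rintro ⟨⟩; simp at hb)
      simpa only [C, ell, this] using h
  rw [← Finset.card_univ, ← Finset.card_map (Embedding.inr : ρ ↪ κ ⊕ ρ), ← Finset.card_insertNone]
  refine acts_bs (C := C) _ _ (fun b hb => ?_)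
    fun b hb _ => mon_swap_live (u := (0, b)) (v := (1, b)) _ rfl sc (bl b hb)
  rcases b with _ | i
  · obtain ⟨i⟩ : Nonempty (κ ⊕ ρ) := by
      by_contra! h
      exact ht (by simp)
    refine mon_swap (x := (0, some i)) _ (by simp) (by simp) (by simp) rfl rfl merB_sum ?_ sc
      (bl _ hb)
    intro h
    rw [Option.elim_none, Int.cast_neg, AddChar.map_neg_eq_inv, inv_eq_one] at h
    exact ht h
  · obtain ⟨j, -, rfl⟩ := Finset.mem_map.1 (Finset.some_mem_insertNone.1 hb)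
    exact mon_swap (x := (0, none)) _ (by simp) (by simp) (by simp) rfl rfl merB_sum (hρ j) sc
      (bl _ hb)

theorem mer_swap (hT : T.Dep {2}) :
    Null (ov χ (avG ε c γ 2) (avG ε c γ 2) T (sw ε c γ) ≫
        ov χ (avG ε c γ 2) (mvG ε c γ) T (mg ε c γ) -
      (-1 : F) ^ (Fintype.card ρ + 1) • (ov χ (avG ε c γ 2) (mvG ε c γ) T (mg ε c γ) ≫
        ov χ (mvG ε c γ) (mvG ε c γ) T (sk ε c γ))) := by
  classical
  have A := merB_aff ε (c := c) (γ := γ) T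
  obtain ⟨mx, nx⟩ := A.acts (χ := χ) (Equiv.swap 0 1) (w := fun _ _ _ => 1) (c := fun _ _ _ => 0)
    (fun _ => regF_one) (fun _ => regF_zero) (fun _ _ _ _ => one_ne_zero) (fun _ _ _ _ => rfl)
    fun _ _ _ _ => rfl
  obtain ⟨m2, n2⟩ := (A.pick 1).res_inv (χ := χ) (w := fun _ _ => 1) regF_one
    (fun _ _ _ => one_ne_zero) fun _ _ _ _ => rfl
  obtain ⟨mt, nt⟩ := merB_zero ε hγ ht hρ T
  have pw := pend_sw ε c γ
  have pk := pend_sk ε c γ
  have pg := (pmap_mg ε c hγ).mono (Set.subset_univ {2})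
  have lw : ∀ ⦃K⦄ (x : ((avG ε c γ 2).over T).X K), ((avG ε c γ 2).over T).L x →
      ((avG ε c γ 2).over T).L (sw ε c γ x.1, x.2) := fun _ x hx =>
    ⟨⟨pw.live _ hx.1.1, hx.1.2⟩, (pw.toPMap.cond hT hx.1.1 (pw.live _ hx.1.1)).1 hx.2⟩
  have lk : ∀ ⦃K⦄ (x : ((mvG ε c γ).over T).X K), ((mvG ε c γ).over T).L x →
      ((mvG ε c γ).over T).L (sk ε c γ x.1, x.2) := fun _ x hx =>
    ⟨⟨pk.live _ hx.1.1, hx.1.2⟩, (pk.toPMap.cond hT hx.1.1 (pk.live _ hx.1.1)).1 hx.2⟩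
  have msw := pw.toPMap.over hT
  have msk := pk.toPMap.over hT
  have mmg := pg.over hT
  rw [ov, ov, ov, msw.hm_eq, msk.hm_eq, mmg.hm_eq]
  have m1 := msw.comp mmg fun _ x hx _ => lw x hx
  have m3 := mx.comp m1 fun _ x hx _ => A.live x _ hx
  have m4 := msk.comp mt fun _ x hx _ => lk x hx
  have g := m3.restr_src (A.pick 1).closed_zero.not.conv fun _ x hx h => by
    simpa [sw] using (merB_live ε (lw _ (A.live x _ hx)).1.1).1 h.1.1
  have e1 : msw.hom χ ≫ mmg.hom χ = m1.hom χ :=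
    msw.hom_comp mmg m1 (fun _ x hx _ => lw x hx) fun _ _ _ _ => rfl
  have e3 : mx.hom χ ≫ m1.hom χ = m3.hom χ :=
    mx.hom_comp m1 m3 (fun _ x hx _ => A.live x _ hx) fun _ _ _ _ => rfl
  have e4 : msk.hom χ ≫ mt.hom χ = m4.hom χ :=
    msk.hom_comp mt m4 (fun _ x hx _ => lk x hx) fun _ _ _ _ => rfl
  have e5 : (isMap_open (A.pick 1).closed_zero.not).hom χ ≫ g.hom χ = m3.hom χ :=
    IsMap.hom_comp _ g m3 (fun _ x hx h => ⟨hx, by
      simpa [sw] using (merB_live ε (lw _ (A.live x _ hx)).1.1).1 h.1.1⟩) fun _ _ _ _ => rfl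
  have e6 : m2.hom χ ≫ g.hom χ = mmg.hom χ ≫ m4.hom χ := by
    refine hom_ext fun K x hx => ?_
    rw [Ob.comp_apply, Ob.comp_apply, m2.hom_cl hx, mmg.hom_cl hx]
    by_cases h : (x.1 1).2 = 0
    · rw [cl_dead (S := (mvG ε c γ).over T) fun l => (merB_live ε hx.1.1).1 l.1.1 h, map_zero,
        cl_dead, map_zero]
      exact fun l => l.2 (by simp [h])
    have l := (merB_live ε hx.1.1).2 h
    refine (g.hom_cl ?_).trans (Eq.trans (congrArg _ ?_) (m4.hom_cl ?_).symm)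
    · exact ⟨A.live x _ hx, by simpa using h⟩
    swap
    · exact ⟨⟨l, hx.1.2⟩, (pg.cond hT hx.1.1 l).1 hx.2⟩
    refine Prod.ext (Prod.ext (funext fun m => ?_) ?_) rfl
    · obtain ⟨a, _ | u | j⟩ := m <;> fin_cases a <;> simp [mg, sw, sk, pact, bs_apply, h] <;>
        field_simp
    · simp [mg, sw, sk]
  have := ((nx.comp (m1.hom χ)).neg.add (n2.comp (g.hom χ))).add
    (nt.precomp (mmg.hom χ ≫ msk.hom χ))
  rw [Preadditive.sub_comp, Preadditive.sub_comp, Preadditive.comp_sub, e3, e5, e6, one_smul,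
    Category.id_comp, Category.assoc, e4, Linear.comp_smul, Category.comp_id] at this
  rw [e1]
  convert this using 1
  abel

theorem mer_norm (hε : ∀ u, ε (.inl u) ≠ 0)
    (hκ : ∀ u, ∃ x, x ≠ u ∧ γ u + γ x = 0 ∧ χ.ψ (c (.inl u) + c (.inl x) : ℤ) ≠ 1)
    (hT : ∀ ⦃K : Fld k⦄ (d d' : ℕ → K[X]) (p : P.X K), (d 2).coeff 0 = (d' 2).coeff 0 →
      T.T d p → T.T d' p) :
    ((avG ε c γ 2).over T).Acts χ (fun _ x => (sw ε c γ x.1, x.2))
      ((-1) ^ (Fintype.card κ + Fintype.card ρ + 1)) := by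
  have hD : T.Dep {2} := fun _ d d' p h => hT d d' p (by rw [h 2 rfl])
  have msw := (pend_sw ε c γ).toPMap.over hD
  obtain ⟨mk, nk⟩ := merB_kap ε hε hκ hT
  have n := mer_swap ε hγ ht hρ hD
  rw [ov, msw.hm_eq, ov.eq_1 χ (mvG ε c γ) (mvG ε c γ), mk.hm_eq] at n
  refine ⟨msw, .of_comp_uiso (uiso_mg ε hγ ht T) ?_⟩
  have := n.add ((nk.precomp (ov χ (avG ε c γ 2) (mvG ε c γ) T (mg ε c γ))).smul
    ((-1 : F) ^ (Fintype.card ρ + 1)))
  rw [Preadditive.comp_sub, Linear.comp_smul, Category.comp_id] at this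
  rw [Preadditive.sub_comp, Linear.smul_comp, Category.id_comp]
  convert this using 1
  rw [add_assoc, pow_add, mul_comm, mul_smul, smul_sub]
  abel

end

/-- Hyperplanes with nontrivial exponents. -/
theorem sf_hy_line {k : Type} [Field k] {F : Type} [Field F] [CharZero F] {χ : Chr k F} {ι : Type}
    [Fintype ι] (ε : ι → k) {c : ι → ℤ} (ht : χ.ψ (∑ i, c i : ℤ) ≠ 1) (hc : ∀ i, χ.ψ (c i) ≠ 1) :
    SF (((Pt.hy ε c).prod (Pt.line k)).E χ) := by
  obtain ⟨ε', hε⟩ : ∃ ε' : Empty ⊕ ι → k, ∀ i, ε' (.inr i) = ε i :=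
    ⟨Sum.elim Empty.elim ε, fun _ => rfl⟩
  obtain ⟨c', hc'⟩ : ∃ c' : Empty ⊕ ι → ℤ, ∀ i, c' (.inr i) = c i :=
    ⟨Sum.elim Empty.elim c, fun _ => rfl⟩
  obtain ⟨T, hT⟩ : ∃ T : PC (Pt.unit k), ∀ ⦃K : Fld k⦄ (d : ℕ → K[X]) (p : Unit), T.T d p :=
    ⟨⟨fun _ _ _ => True, by intros; trivial⟩, fun _ _ _ => trivial⟩
  have h := mer_norm (χ := χ) ε' (c := c') (γ := Empty.elim) (T := T) (by simp)
    (by simpa [hc'] using ht) (fun j => hc' j ▸ hc j) (fun u => u.elim) (fun u => u.elim)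
    fun _ _ _ _ _ _ => hT _ _
  have hl : ∀ {K : Fld k} (t : Empty ⊕ ι → K), Pt.lin ε' t = Pt.lin ε fun i => t (.inr i) :=
    fun t => by simp [Pt.lin, hε]
  have r : (((Pt.hy ε c).prod (Pt.line k)).pi (Fin 2)).Reg ((avG ε' c' Empty.elim 2).over T)
      fun _ x => (fun a => (Sum.elim Empty.elim (x a).1, (x a).2), ()) :=
    ⟨fun _ x h => ⟨⟨fun a => ⟨⟨⟨fun _ => trivial, Sum.rec (fun u => u.elim) (h a).1.1.2⟩,
      (congrArg (· + 1) (hl _)).trans (h a).1.2⟩, trivial⟩, trivial⟩, hT _ _⟩,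
      fun _ _ φ x y _ _ r => ⟨fun a => ⟨Sum.rec (fun u => u.elim) (r a).1, (r a).2⟩, trivial⟩⟩
  have r' : ((avG ε' c' Empty.elim 2).over T).Reg (((Pt.hy ε c).prod (Pt.line k)).pi (Fin 2))
      fun _ x a => (fun i => (x.1 a).1 (.inr i), (x.1 a).2) :=
    ⟨fun _ x h a => ⟨⟨⟨fun _ => trivial, fun i => (h.1.1 a).1.1.2 _⟩,
      (congrArg (· + 1) (hl _).symm).trans (h.1.1 a).1.2⟩, trivial⟩,
      fun _ _ φ x y _ _ r a => ⟨fun i => (r.1 a).1 _, (r.1 a).2⟩⟩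
  have m := Pt.IsMap.of_inv r r' (fun _ x _ => by simp [hc']) fun _ _ _ => rfl
  have b := m.bij (χ := χ) r.live
    (fun _ x y _ _ e => funext fun a => have e' := congrFun (congrArg Prod.fst e) a
      Prod.ext (funext fun i => congrFun (congrArg Prod.fst e') (.inr i)) (Prod.mk.inj e').2)
    fun _ y hy => ⟨_, r'.live y hy, Prod.ext (funext fun a => Prod.ext
      (funext fun i => by rcases i with u | i; exacts [u.elim, rfl]) rfl) rfl⟩
  have a := Pt.Acts.of_uiso m b.uiso (Pt.isMap_perm _ (Equiv.swap 0 1)) h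
    (fun _ _ h _ => h _) (fun _ x h => ⟨fun l => ⟨r.live x h, l⟩, fun l => l.2⟩)
    fun _ _ _ _ => rfl
  exact sf_of_acts (S := (Pt.hy ε c).prod (Pt.line k)) a fun _ _ => rfl

end Pool.Agent.Lib.MP_fc2ced_ag.T
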