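import Pool.Agent.Lib.MP_fc2ced_ag.G.Bil
import Pool.Agent.Lib.MP_fc2ced_ag.G.Rad
import Pool.Agent.Lib.MP_fc2ced_ag.K.Span

/-! The space of pairs of a row vector and a column vector for a family of matrices, with the
involution given by transposition. -/

open CategoryTheory Function Matrix

namespace Pool.Agent.Lib.MP_fc2ced_ag.T

open K

noncomputable section

variable {k : Type} [Field k] {F : Type} [Field F] {χ : Chr k F}
  {I : Type} [Fintype I] [DecidableEq I] {o : I}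

/-- The matrix without the row and the column `o` is injective. -/
def Dm {K : Type} [Field K] (o : I) (M : Matrix I I K) : Prop :=
  ∀ v : I → K, v o = 0 → (∀ i, i ≠ o → (M *ᵥ v) i = 0) → v = 0

theorem Dm.gen {K K' : Fld k} {φ : Place K K'} {M : Matrix I I K} {M' : Matrix I I K'}
    (h : ∀ i j, i ≠ o → j ≠ o → φ (M i j) (M' i j)) (d : Dm o M') : Dm o M := by
  intro v v0 hv
  by_contra n
  obtain ⟨j, hj, hb⟩ := φ.exists_max v n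
  choose b hb using hb
  have b0 : b o = 0 := (hb o).eq_of φ.zero (by rw [v0, zero_div])
  have e := d b b0 fun i hi => (Place.sum (φ := φ) (s := Finset.univ)
      (x := fun l => M i l * (v l / v j)) (y := fun l => M' i l * b l) fun l _ => by
        by_cases k : l = o
        · rw [k, v0, b0, zero_div, mul_zero, mul_zero]
          exact φ.zero
        · exact (h i l hi k).mul (hb l)).eq_of φ.zero (by
      simp only [← mul_div_assoc, ← Finset.sum_div]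
      exact div_eq_zero_iff.2 (.inl (hv i hi)))
  exact one_ne_zero (((hb j).eq_of φ.one (div_self hj)).symm.trans (congrFun e j))

theorem Dm.congr {K : Type} [Field K] {M M' : Matrix I I K}
    (h : ∀ i j, i ≠ o → j ≠ o → M i j = M' i j) (d : Dm o M') : Dm o M :=
  fun v v0 hv => d v v0 fun i hi => (Finset.sum_congr rfl fun l _ => by
    by_cases k : l = o
    · rw [k, v0, mul_zero, mul_zero]
    · exact congrArg (· * v l) (h i l hi k).symm).trans (hv i hi)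

/-- Normalized solutions specialize. -/
theorem Dm.exists_spec {K K' : Fld k} {φ : Place K K'} {M : Matrix I I K} {M' : Matrix I I K'}
    (h : ∀ i j, φ (M i j) (M' i j)) (d : Dm o M') {c : I → K} (h1 : c o = 1)
    (h2 : ∀ i, i ≠ o → (M *ᵥ c) i = 0) : ∃ c' : I → K', ∀ i, φ (c i) (c' i) := by
  obtain ⟨j, hj, hb⟩ := φ.exists_max c fun e => one_ne_zero (h1.symm.trans (congrFun e o))
  choose b hb using hb
  by_cases b0 : b o = 0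
  · have e := d b b0 fun i hi => (Place.sum (φ := φ) (s := Finset.univ)
        (x := fun l => M i l * (c l / c j)) (y := fun l => M' i l * b l)
          fun l _ => (h i l).mul (hb l)).eq_of φ.zero (by
        simp only [← mul_div_assoc, ← Finset.sum_div]
        exact div_eq_zero_iff.2 (.inl (h2 i hi)))
    exact absurd (((hb j).eq_of φ.one (div_self hj)).symm.trans (congrFun e j)) one_ne_zero
  · exact ⟨fun i => b i / b o, fun i => ((hb i).div (hb o) b0).congr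
      (by rw [h1, div_div_div_cancel_right₀ hj, div_one]) rfl⟩

namespace Pt

variable (k o) in
/-- Vectors with entry one at `o`. -/
@[reducible] def nrmV : Pt k := ((line k).pi I).restr (fun _ c => c o = 1)
  (Closed.conv fun _ _ φ _ _ _ _ r e => (r o).eq_of φ.one e)

variable (χ o) in
/-- A family of matrices with a transposition symmetry and two torus actions. -/
structure MasD (Y : Pt k) where
  M : ∀ ⦃K : Fld k⦄, Y.X K → Matrix I I K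
  ρ : ∀ ⦃K : Fld k⦄, Y.X K → K
  ω : ∀ ⦃K : Fld k⦄, Y.X K → I → K
  ι : ∀ ⦃K : Fld k⦄, Y.X K → Y.X K
  rM : ∀ i j, Y.RegF fun _ y => M y i j
  rρ : Y.RegF ρ
  rω : ∀ i, Y.RegF fun _ y => ω y i
  ω0 : ∀ ⦃K⦄ (y : Y.X K), Y.L y → ∀ i, ω y i ≠ 0
  ω1 : ∀ ⦃K⦄ (y : Y.X K), Y.L y → ω y o = 1
  rι : Y.Reg Y ι
  inv : ∀ ⦃K⦄ (y : Y.X K), Y.L y → ι (ι y) = y
  fι : ∀ ⦃K⦄ (y : Y.X K), Y.L y → Y.f (ι y) = Y.f y
  ρι : ∀ ⦃K⦄ (y : Y.X K), Y.L y → ρ (ι y) = ρ y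
  ωι : ∀ ⦃K⦄ (y : Y.X K), Y.L y → ω (ι y) = ω y
  tr : ∀ ⦃K⦄ (y : Y.X K), Y.L y → ∀ i j, M (ι y) i j * ω y i = M y j i * ω y j
  t₁ : ℤ
  t₂ : ℤ
  τ₁ : ∀ ⦃K : Fld k⦄, K → Y.X K → Y.X K
  τ₂ : ∀ ⦃K : Fld k⦄, K → Y.X K → Y.X K
  ne₁ : χ.ψ t₁ ≠ 1
  ne₂ : χ.ψ t₂ ≠ 1
  fl₁ : Y.Flow t₁ τ₁
  fl₂ : Y.Flow t₂ τ₂
  ρ₁ : ∀ ⦃K : Fld k⦄ (r : K) (y : Y.X K), r ≠ 0 → Y.L y → ρ (τ₁ r y) = ρ y
  M₁ : ∀ ⦃K : Fld k⦄ (r : K) (y : Y.X K), r ≠ 0 → Y.L y → ∀ i j,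
    M (τ₁ r y) i j = if i ≠ o ∧ j = o then r * M y i j else M y i j
  M₂ : ∀ ⦃K : Fld k⦄ (r : K) (y : Y.X K), r ≠ 0 → Y.L y → M (τ₂ r y) = M y
  rr : I → ℕ
  rc : I → ℕ
  rr_inj : Set.InjOn rr {i | i ≠ o}
  rc_inj : Set.InjOn rc {i | i ≠ o}
  rr_lt : ∀ i, i ≠ o → rr i < Fintype.card I - 1
  rc_lt : ∀ i, i ≠ o → rc i < Fintype.card I - 1
  piv : ∀ ⦃K⦄ (y : Y.X K), Y.L y → Dm o (M y) → ∀ (j : ℕ) (v : I → K), v o = 0 →
    (∀ i, i ≠ o → j ≤ rc i → v i = 0) → (∀ i, i ≠ o → rr i < j → (M y *ᵥ v) i = 0) → v = 0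

namespace MasD

variable {Y : Pt k} (D : MasD χ o Y)

theorem reg₀ : (Y.prod (nrmV k o)).RegF fun _ x => D.ρ x.1 := reg_fst.regF D.rρ

theorem reg₁ (g : I) : (Y.prod (nrmV k o)).RegF fun _ x => (D.M x.1 *ᵥ x.2) g :=
  fun _ _ φ _ _ a b r => Place.sum fun j _ => (D.rM g j φ _ _ a.1 b.1 r.1).mul (r.2 j)

/-- Points `((y, c), μ)` with `ρ y = 0` and `M y c = 0`. -/
@[reducible] def Fz : Pt k := radR D.reg₀ D.reg₁

/-- Points `((y, c), μ)` with `ρ y + μ M y c = 0` and `μ o ≠ 0`. -/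
@[reducible] def Xc : Pt k := radW D.reg₀ D.reg₁ {o}

/-- The transposition. -/
def σ ⦃K : Fld k⦄ (x : D.Xc.X K) : D.Xc.X K :=
  ((D.ι x.1.1, fun j => x.2 j / (x.2 o * D.ω x.1.1 j)), fun j => x.2 o * D.ω x.1.1 j * x.1.2 j)

theorem open_Dm : D.Fz.Open fun _ x => Dm o (D.M x.1.1) := fun _ _ φ _ _ a b r =>
  Dm.gen fun i j _ _ => D.rM i j φ _ _ a.1.1.1 b.1.1.1 r.1.1

/-- The open part where the minor is invertible. -/
@[reducible] def Fz' : Pt k := D.Fz.restr _ D.open_Dm.conv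

theorem live_σ ⦃K : Fld k⦄ (x : D.Xc.X K) (h : D.Xc.L x) : D.Xc.L (D.σ x) := by
  obtain ⟨⟨y, c⟩, μ⟩ := x
  obtain ⟨⟨⟨hy, -, hc⟩, -⟩, e, n⟩ := h
  have n0 : μ o ≠ 0 := n o rfl
  have hc' : c o = 1 := hc
  refine ⟨⟨⟨D.rι.live y hy, fun _ => trivial, ?_⟩, fun _ => trivial⟩, ?_, ?_⟩
  · change μ o / (μ o * D.ω y o) = 1
    rw [D.ω1 y hy, mul_one, div_self n0]
  · refine Eq.trans ?_ e
    change D.ρ (D.ι y) + ∑ g, μ o * D.ω y g * c g *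
      ∑ j, D.M (D.ι y) g j * (μ j / (μ o * D.ω y j)) = D.ρ y + ∑ g, μ g * ∑ j, D.M y g j * c j
    rw [D.ρι y hy]
    congr 1
    simp only [Finset.mul_sum]
    rw [Finset.sum_comm]
    refine Finset.sum_congr rfl fun j _ => Finset.sum_congr rfl fun g _ => ?_
    have := D.ω0 y hy j
    field_simp
    linear_combination c g * μ j * D.tr y hy g j
  · rintro _ rfl
    change μ _ * D.ω y _ * c _ ≠ 0
    rwa [D.ω1 y hy, hc', mul_one, mul_one]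

theorem reg_σ : D.Xc.Reg D.Xc D.σ :=
  ⟨D.live_σ, fun _ _ φ _ _ a b r =>
    have w := fun j => (r.2 o).mul (D.rω j φ _ _ a.1.1.1 b.1.1.1 r.1.1)
    ⟨⟨D.rι.reg φ _ _ a.1.1.1 b.1.1.1 r.1.1,
      fun j => (r.2 j).div (w j) (mul_ne_zero (b.2.2 o rfl) (D.ω0 _ b.1.1.1 j))⟩,
      fun j => (w j).mul (r.1.2 j)⟩⟩

theorem σ_σ ⦃K : Fld k⦄ (x : D.Xc.X K) (h : D.Xc.L x) : D.σ (D.σ x) = x := by
  obtain ⟨⟨y, c⟩, μ⟩ := x
  obtain ⟨⟨⟨hy, -, hc⟩, -⟩, -, n⟩ := h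
  have n0 : μ o ≠ 0 := n o rfl
  have hc' : c o = 1 := hc
  refine Prod.ext (Prod.ext (D.inv y hy) (funext fun j => ?_)) (funext fun j => ?_)
  · change μ o * D.ω y j * c j / (μ o * D.ω y o * c o * D.ω (D.ι y) j) = c j
    have := D.ω0 y hy j
    rw [D.ωι y hy, D.ω1 y hy, hc']
    field_simp
  · change μ o * D.ω y o * c o * D.ω (D.ι y) j * (μ j / (μ o * D.ω y j)) = μ j
    have := D.ω0 y hy j
    rw [D.ωι y hy, D.ω1 y hy, hc']
    field_simp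

theorem isMap_σ : IsMap D.Xc D.Xc D.σ :=
  .of_inv D.reg_σ D.reg_σ (fun _ x hx => congrArg (fun z => z * _ * _) (D.fι x.1.1 hx.1.1.1)) D.σ_σ

theorem flow₂ : (Y.prod (nrmV k o)).Flow D.t₂ fun _ r x => (D.τ₂ r x.1, x.2) where
  live _ r x hr hx := ⟨D.fl₂.live r x.1 hr hx.1, hx.2⟩
  one _ x hx := Prod.ext (D.fl₂.one x.1 hx.1) rfl
  inv _ r x hr hx := Prod.ext (D.fl₂.inv r x.1 hr hx.1) rfl
  f _ r x hr hx := (congrArg (· * _) (D.fl₂.f r x.1 hr hx.1)).trans (mul_right_comm _ _ _)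
  reg _ _ φ r r' x y a b c d e := ⟨D.fl₂.reg φ r r' x.1 y.1 a b c.1 d.1 e.1, e.2⟩

theorem closed_o : (radW D.reg₀ D.reg₁ ∅).Closed fun _ x => ¬ D.Xc.L x :=
  Open.not fun _ _ _ _ _ a _ r l => ⟨a.1, a.2.1, fun g hg => (r.2 g).ne_zero (l.2.2 g hg)⟩

theorem mulVec_τ₁ ⦃K : Fld k⦄ {r : K} {y : Y.X K} (hr : r ≠ 0) (hy : Y.L y) (c : I → K) {g : I}
    (hg : g ≠ o) : (D.M (D.τ₁ r y) *ᵥ fun j => if j = o then c j else r * c j) g =
      r * (D.M y *ᵥ c) g := by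
  change ∑ j, D.M (D.τ₁ r y) g j * _ = r * ∑ j, D.M y g j * c j
  rw [Finset.mul_sum]
  refine Finset.sum_congr rfl fun j _ => ?_
  rw [D.M₁ r y hr hy]
  by_cases k : j = o
  · rw [if_pos ⟨hg, k⟩, if_pos k, mul_assoc]
  · rw [if_neg fun l => k l.2, if_neg k, mul_left_comm]

theorem flow₁ : ((radW D.reg₀ D.reg₁ ∅).restr _ D.closed_o.conv).Flow D.t₁ fun _ r x =>
    ((D.τ₁ r x.1.1, fun j => if j = o then x.1.2 j else r * x.1.2 j), fun g => x.2 g / r) where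
  live _ r x hr hx := by
    obtain ⟨⟨y, c⟩, μ⟩ := x
    obtain ⟨⟨⟨⟨hy, -, hc⟩, -⟩, e, -⟩, n⟩ := hx
    have n0 : μ o = 0 := not_not.1 fun l =>
      n ⟨⟨⟨hy, fun _ => trivial, hc⟩, fun _ => trivial⟩, e, by rintro _ rfl; exact l⟩
    refine ⟨⟨⟨⟨D.fl₁.live r y hr hy, fun _ => trivial, (if_pos rfl).trans hc⟩, fun _ => trivial⟩,
      Eq.trans ?_ e, fun _ l => l.elim⟩, fun l => l.2.2 o rfl ?_⟩
    · refine congrArg₂ (· + ·) (D.ρ₁ r y hr hy) (Finset.sum_congr rfl fun g _ => ?_)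
      change μ g / r * (D.M (D.τ₁ r y) *ᵥ fun j => if j = o then c j else r * c j) g =
        μ g * (D.M y *ᵥ c) g
      by_cases k : g = o
      · rw [k, n0, zero_div, zero_mul, zero_mul]
      · rw [D.mulVec_τ₁ hr hy c k, ← mul_assoc, div_mul_cancel₀ _ hr]
    · change μ o / r = 0
      rw [n0, zero_div]
  one _ x hx := Prod.ext (Prod.ext (D.fl₁.one _ hx.1.1.1.1)
    (funext fun j => by simp only [one_mul, ite_self])) (funext fun g => div_one _)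
  inv _ r x hr hx := Prod.ext (Prod.ext (D.fl₁.inv r _ hr hx.1.1.1.1)
    (funext fun j => by
      dsimp only
      split_ifs
      exacts [rfl, inv_mul_cancel_left₀ hr _])) (funext fun g => by
      dsimp only
      rw [div_inv_eq_mul, div_mul_cancel₀ _ hr])
  f _ r x hr hx := (congrArg (fun z => z * _ * _) (D.fl₁.f r _ hr hx.1.1.1.1)).trans (by
    rw [mul_right_comm _ (r ^ D.t₁), mul_right_comm _ (r ^ D.t₁)])
  reg _ _ φ r r' x y a b c d e := ⟨⟨D.fl₁.reg φ r r' _ _ a b c.1.1.1.1 d.1.1.1.1 e.1.1, fun j => by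
      dsimp only
      split_ifs
      exacts [e.1.2 j, a.mul (e.1.2 j)]⟩, fun g => (e.2 g).div a b⟩

theorem uiso_J : UIso ((isMap_rad D.reg₀ D.reg₁ {o}).hom χ) :=
  rad_comp (χ := χ) D.reg₀ D.reg₁ {o} ▸ (uiso_rad_empty D.reg₀ D.reg₁ D.ne₂ D.flow₂
    fun _ r x hr hx _ => by rw [D.M₂ r x.1 hr hx.1]).comp
    ((isMap_radW D.reg₀ D.reg₁ {o}).uiso D.closed_o (D.flow₁.uzero D.ne₁) (fun _ _ _ _ _ _ e => e)
      fun _ y hy => ⟨y, ⟨hy.1, hy.2.1, fun _ l => l.elim⟩, rfl⟩)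

section Ker
variable {K : Type} [Field K] {M M' : Matrix I I K}

variable (o) in
/-- The minor. -/
def mnr (M : Matrix I I K) : Matrix {i // i ≠ o} {i // i ≠ o} K := M.submatrix (↑) (↑)

/-- A vector with the entry `t` at `o`. -/
def xt (t : K) (u : {i // i ≠ o} → K) (i : I) : K := if h : i = o then t else u ⟨i, h⟩

omit [Fintype I] [Field K] in
theorem xt_o (t : K) (u : {i // i ≠ o} → K) : xt t u o = t := dif_pos rfl

omit [Fintype I] [Field K] in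
theorem xt_ne (t : K) (u : {i // i ≠ o} → K) (i : {i // i ≠ o}) : xt t u i = u i := dif_neg i.2

omit [Fintype I] [Field K] in
theorem xt_eta {v : I → K} {t : K} (h : v o = t) : (xt t fun i : {i // i ≠ o} => v i) = v :=
  funext fun i => by
    by_cases e : i = o
    · rw [e, xt_o, h]
    · exact xt_ne _ _ ⟨i, e⟩

theorem mulVec_mnr (M : Matrix I I K) (v : I → K) (i : {i // i ≠ o}) :
    (M *ᵥ v) i = M i o * v o + (mnr o M *ᵥ fun j => v j) i :=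
  Fintype.sum_eq_add_sum_subtype_ne (fun j => M i j * v j) o

theorem dm_iff : Dm o M ↔ (mnr o M).det ≠ 0 := by
  rw [Ne, ← Matrix.exists_mulVec_eq_zero_iff]
  constructor
  · rintro d ⟨u, hu, e⟩
    have := d (xt 0 u) (xt_o _ _) fun i hi => by
      rw [mulVec_mnr M _ ⟨i, hi⟩, xt_o, mul_zero, zero_add, funext (xt_ne 0 u), e]
      rfl
    exact hu (funext fun i => (xt_ne 0 u i).symm.trans (congrFun this i))
  · intro h v h0 h1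
    by_contra hv
    refine h ⟨fun i => v i, fun e => hv (funext fun i => ?_), funext fun i => ?_⟩
    · by_cases e' : i = o
      · exact e' ▸ h0
      · exact congrFun e ⟨i, e'⟩
    · have := mulVec_mnr M v i
      rw [h1 i i.2, h0, mul_zero, zero_add] at this
      exact this.symm

theorem dm_tr {ω : I → K} (h0 : ∀ i, ω i ≠ 0) (h : ∀ i j, M' i j * ω i = M j i * ω j)
    (d : Dm o M) : Dm o M' := by
  rw [dm_iff] at d ⊢
  have e : (diagonal fun i : {i // i ≠ o} => ω i) * mnr o M' =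
      (mnr o M)ᵀ * diagonal fun i : {i // i ≠ o} => ω i := by
    ext i j
    rw [diagonal_mul, mul_diagonal, mul_comm]
    exact h i j
  have e' := congrArg det e
  rw [det_mul, det_mul, det_transpose, det_diagonal] at e'
  exact right_ne_zero_of_mul
    (e'.trans_ne (mul_ne_zero d (Finset.prod_ne_zero_iff.2 fun i _ => h0 i)))

variable (o) in
/-- The normalized solution of the equations different from `o`. -/
def kv (M : Matrix I I K) : I → K := xt 1 (-((mnr o M)⁻¹ *ᵥ fun i => M i o))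

theorem kv_o : kv o M o = 1 := xt_o _ _

theorem kv_spec (d : Dm o M) (i : I) (hi : i ≠ o) : (M *ᵥ kv o M) i = 0 := by
  rw [mulVec_mnr M _ ⟨i, hi⟩, kv_o, kv, funext (xt_ne _ _), mulVec_neg, mulVec_mulVec,
    mul_nonsing_inv _ (dm_iff.1 d).isUnit, one_mulVec, mul_one]
  exact add_neg_cancel _

theorem kv_eq (d : Dm o M) {c : I → K} (h1 : c o = 1) (h2 : ∀ i, i ≠ o → (M *ᵥ c) i = 0) :
    kv o M = c :=
  sub_eq_zero.1 (d _ (by rw [Pi.sub_apply, h1, kv_o, sub_self]) fun i hi => by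
    rw [mulVec_sub, Pi.sub_apply, h2 i hi, kv_spec d i hi, sub_self])

theorem dot_zero {u v : I → K} (h : u o = 0) (h' : ∀ i, i ≠ o → v i = 0) : u ⬝ᵥ v = 0 :=
  Finset.sum_eq_zero fun i _ => by
    by_cases e : i = o
    · rw [e, h, zero_mul]
    · rw [h' i e, mul_zero]

theorem dot_one {u v : I → K} (h : u o = 1) (h' : ∀ i, i ≠ o → v i = 0) : u ⬝ᵥ v = v o := by
  rw [dotProduct, Finset.sum_eq_single o (fun i _ e => by rw [h' i e, mul_zero])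
    (fun e => absurd (Finset.mem_univ o) e), h, one_mul]

/-- Completion of the square. -/
theorem schur {κ v c : I → K} (μ : I → K) (k1 : κ o = 1) (k2 : ∀ i, i ≠ o → (M *ᵥ κ) i = 0)
    (v1 : v o = 1) (v2 : ∀ i, i ≠ o → (v ᵥ* M) i = 0) (c1 : c o = 1) :
    ∑ g, μ g * (M *ᵥ c) g = μ o * (M *ᵥ κ) o +
      ((fun i : {i // i ≠ o} => μ i) + fun i : {i // i ≠ o} => -(μ o * v i)) ⬝ᵥ
        (mnr o M *ᵥ ((fun i : {i // i ≠ o} => c i) + fun i : {i // i ≠ o} => -κ i)) := by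
  have e0 : (μ - μ o • v) o = 0 := by simp [v1]
  have d0 : (c - κ) o = 0 := by simp [c1, k1]
  have a1 := dot_zero e0 k2
  have a2 : v ⬝ᵥ (M *ᵥ (c - κ)) = 0 := by
    rw [dotProduct_mulVec, dotProduct_comm]
    exact dot_zero d0 v2
  have a3 := dot_one v1 k2
  have a4 : (μ - μ o • v) ⬝ᵥ (M *ᵥ (c - κ)) =
      ((fun i : {i // i ≠ o} => μ i) + fun i : {i // i ≠ o} => -(μ o * v i)) ⬝ᵥ
        (mnr o M *ᵥ ((fun i : {i // i ≠ o} => c i) + fun i : {i // i ≠ o} => -κ i)) := by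
    rw [dotProduct, Fintype.sum_eq_add_sum_subtype_ne _ o, e0, zero_mul, zero_add]
    refine Finset.sum_congr rfl fun i _ => ?_
    rw [mulVec_mnr, d0, mul_zero, zero_add, sub_eq_add_neg, sub_eq_add_neg]
    rfl
  rw [← a4, ← a3]
  change μ ⬝ᵥ (M *ᵥ c) = _
  rw [sub_dotProduct, smul_dotProduct, smul_eq_mul] at a1
  rw [sub_dotProduct, smul_dotProduct, a2, mulVec_sub, dotProduct_sub, smul_zero]
  linear_combination a1

end Ker

section Rel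
variable {K K' : Fld k} {φ : Place K K'}

omit [Fintype I] in
theorem xt_rel {t : K} {t' : K'} {u : {i // i ≠ o} → K} {u' : {i // i ≠ o} → K'} (h : φ t t')
    (h' : ∀ i, φ (u i) (u' i)) (i : I) : φ (xt t u i) (xt t' u' i) := by
  unfold xt
  split_ifs with e
  exacts [h, h' _]

theorem kv_rel {M : Matrix I I K} {M' : Matrix I I K'} (h : ∀ i j, φ (M i j) (M' i j))
    (d : Dm o M') (i : I) : φ (kv o M i) (kv o M' i) :=
  xt_rel φ.one (fun a => (Place.sum fun b _ => (Place.inv_matrix (A := mnr o M) (B := mnr o M')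
    (fun i j => h i j) (dm_iff.1 d) a b).mul (h b o)).neg) i

end Rel

section Abs
variable {Z A B Z' A' : Ob k F} {j : Z ⟶ A} {q : Z ⟶ B} {σ : A ⟶ A} {ε : F}

theorem kills_of {Q H : Ob k F} {z : Z ⟶ Z} {b : A ⟶ Q} {a : Z ⟶ H} {s : H ⟶ H} {p m : H ⟶ Q}
    (hj : UIso j) (hb : UIso b) (e1 : j ≫ σ ≫ b = z ≫ a ≫ s ≫ m) (e2 : j ≫ b = a ≫ p)
    (e3 : z ≫ q = q) (n1 : Null (m - ε • p)) (n2 : Null (s - (1 : F) • 𝟙 H)) :
    Kills j q (σ - ε • 𝟙 A) := fun Θ α hα => by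
  have h : Null (j ≫ (σ - ε • 𝟙 A) - (ε • z - ε • 𝟙 Z) ≫ j) := .of_comp_uiso hb (by
    convert ((n2.comp m).add n1).precomp (z ≫ a) using 1
    simp only [Preadditive.sub_comp, Preadditive.comp_sub, Preadditive.comp_add, Linear.smul_comp,
      Linear.comp_smul, Category.assoc, Category.id_comp, Category.comp_id, e1, e2, one_smul]
    abel)
  have h' : (ε • z - ε • 𝟙 Z) ≫ q = 0 := by simp [e3]
  have := hj Θ
  rw [← cancel_epi (Θ.Φ.map j), ← Θ.Φ.map_comp_assoc, h.map_eq Θ, Θ.Φ.map_comp_assoc, hα,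
    ← Θ.Φ.map_comp, h', Θ.Φ.map_zero, Limits.comp_zero]

theorem kills_res {j' : Z' ⟶ A'} {q' : Z' ⟶ B} {σ' : A' ⟶ A'} {z : Z ⟶ Z'} {a : A ⟶ A'}
    (hj : UIso j) (hj' : UIso j') (h1 : z ≫ j' = j ≫ a) (h2 : z ≫ q' = q) (h3 : σ ≫ a = a ≫ σ')
    (h : Kills j' q' (σ' - ε • 𝟙 A')) : Kills j q (σ - ε • 𝟙 A) := by
  have := (Kills.of_map (w := σ - ε • 𝟙 A) hj hj' h1 (h2.trans (Category.comp_id q).symm)).1
    (by simpa [h3] using h.precomp a)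
  rwa [Category.comp_id] at this

end Abs

theorem dm_ι ⦃K : Fld k⦄ (y : Y.X K) (h : Y.L y) (d : Dm o (D.M y)) : Dm o (D.M (D.ι y)) :=
  dm_tr (D.ω0 y h) (D.tr y h) d

/-- The normalized row solution. -/
def rv ⦃K : Fld k⦄ (y : Y.X K) (i : I) : K := D.ω y i * kv o (D.M (D.ι y)) i

theorem rv_o ⦃K : Fld k⦄ (y : Y.X K) (h : Y.L y) : D.rv y o = 1 := by
  rw [rv, D.ω1 y h, kv_o, one_mul]

theorem rv_mul ⦃K : Fld k⦄ (y : Y.X K) (h : Y.L y) (j : I) :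
    (D.rv y ᵥ* D.M y) j = D.ω y j * (D.M (D.ι y) *ᵥ kv o (D.M (D.ι y))) j := by
  rw [mulVec, dotProduct, Finset.mul_sum]
  refine Finset.sum_congr rfl fun i _ => ?_
  change D.ω y i * kv o (D.M (D.ι y)) i * D.M y i j = D.ω y j * (D.M (D.ι y) j i * _)
  linear_combination (-kv o (D.M (D.ι y)) i) * D.tr y h j i

theorem rv_spec ⦃K : Fld k⦄ (y : Y.X K) (h : Y.L y) (d : Dm o (D.M y)) (j : I) (hj : j ≠ o) :
    (D.rv y ᵥ* D.M y) j = 0 := by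
  rw [D.rv_mul y h, kv_spec (D.dm_ι y h d) j hj, mul_zero]

/-- The Schur complement is invariant. -/
theorem schur_ι ⦃K : Fld k⦄ (y : Y.X K) (h : Y.L y) (d : Dm o (D.M y)) :
    (D.M (D.ι y) *ᵥ kv o (D.M (D.ι y))) o = (D.M y *ᵥ kv o (D.M y)) o := by
  rw [← dot_one (D.rv_o y h) (kv_spec d), dotProduct_mulVec, dotProduct_comm,
    dot_one kv_o (D.rv_spec y h d), D.rv_mul y h, D.ω1 y h, one_mul]

section Main
variable (hD : ∀ ⦃K : Fld k⦄ (y : Y.X K), Y.L y → Dm o (D.M y))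
include hD

theorem reg_kv (i : I) : Y.RegF fun _ y => kv o (D.M y) i := fun _ _ φ x y a b r =>
  kv_rel (fun i j => D.rM i j φ x y a b r) (hD y b) i

/-- The family of quadrics. -/
def bil : BilD (Y.prod (gm k)) {i // i ≠ o} where
  M _ p := mnr o (D.M p.1)
  a _ p i := -(p.2 * D.rv p.1 i)
  b _ p i := -kv o (D.M p.1) i
  h _ p := D.ρ p.1 + p.2 * (D.M p.1 *ᵥ kv o (D.M p.1)) o
  rM i j := reg_fst.regF (D.rM i j)
  ra i _ _ φ _ _ a b r := (r.2.mul ((D.rω i φ _ _ a.1 b.1 r.1).mul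
    (D.rι.regF (D.reg_kv hD i) φ _ _ a.1 b.1 r.1))).neg
  rb i := (reg_fst.regF (D.reg_kv hD i)).neg
  rh _ _ φ _ _ a b r := (D.rρ φ _ _ a.1 b.1 r.1).add (r.2.mul (Place.sum fun j _ =>
    (D.rM o j φ _ _ a.1 b.1 r.1).mul (D.reg_kv hD j φ _ _ a.1 b.1 r.1)))

theorem bil_eq ⦃K : Fld k⦄ (y : Y.X K) (h : Y.L y) (c μ : I → K) (c1 : c o = 1) :
    D.ρ y + ∑ g, μ g * (D.M y *ᵥ c) g = (D.bil hD).h (y, μ o) +
      ((fun i : {i // i ≠ o} => μ i) + (D.bil hD).a (y, μ o)) ⬝ᵥ ((D.bil hD).M (y, μ o) *ᵥ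
        ((fun i : {i // i ≠ o} => c i) + (D.bil hD).b (y, μ o))) := by
  rw [schur μ kv_o (kv_spec (hD y h)) (D.rv_o y h) (D.rv_spec y h (hD y h)) c1, ← add_assoc]
  rfl

/-- Coordinates on the quadric. -/
def toQ ⦃K : Fld k⦄ (x : D.Xc.X K) : (D.bil hD).qd.X K :=
  ((x.1.1, x.2 o), fun i => x.2 i, fun i => x.1.2 i)

theorem live_toQ ⦃K : Fld k⦄ (x : D.Xc.X K) (h : D.Xc.L x) : (D.bil hD).qd.L (D.toQ hD x) :=
  ⟨⟨⟨h.1.1.1, trivial, h.2.2 o rfl⟩, fun _ => trivial, fun _ => trivial⟩,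
    (D.bil_eq hD _ h.1.1.1 _ _ h.1.1.2.2).symm.trans h.2.1⟩

theorem live_ofQ ⦃K : Fld k⦄ (z : (D.bil hD).qd.X K) (h : (D.bil hD).qd.L z) :
    D.Xc.L ((z.1.1, xt 1 z.2.2), xt z.1.2 z.2.1) := by
  refine ⟨⟨⟨h.1.1.1, fun _ => trivial, xt_o _ _⟩, fun _ => trivial⟩,
    (D.bil_eq hD _ h.1.1.1 _ _ (xt_o _ _)).trans ?_, fun g hg => ?_⟩
  · dsimp only
    rw [xt_o, funext (xt_ne _ _), funext (xt_ne _ _)]
    exact h.2
  · rw [Set.mem_singleton_iff.1 hg]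
    exact (xt_o _ _).trans_ne h.1.1.2.2

theorem ofQ_toQ ⦃K : Fld k⦄ (x : D.Xc.X K) (h : D.Xc.L x) :
    (((D.toQ hD x).1.1, xt 1 (D.toQ hD x).2.2), xt (D.toQ hD x).1.2 (D.toQ hD x).2.1) = x :=
  Prod.ext (Prod.ext rfl (xt_eta h.1.1.2.2)) (xt_eta rfl)

theorem isMap_toQ : IsMap D.Xc (D.bil hD).qd (D.toQ hD) :=
  .of_inv (g := fun _ z => ((z.1.1, xt 1 z.2.2), xt z.1.2 z.2.1))
    ⟨D.live_toQ hD, fun _ _ _ _ _ _ _ r => ⟨⟨r.1.1, r.2 o⟩, fun i => r.2 i, fun i => r.1.2 i⟩⟩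
    ⟨D.live_ofQ hD, fun _ _ φ _ _ _ _ r => ⟨⟨r.1.1, xt_rel φ.one r.2.2⟩, xt_rel r.1.2 r.2.1⟩⟩
    (fun _ _ _ => by simp [toQ]) (D.ofQ_toQ hD)

theorem uiso_toQ : UIso ((D.isMap_toQ hD).hom χ) :=
  ((D.isMap_toQ hD).bij (D.live_toQ hD)
    (fun _ x x' h h' e => by rw [← D.ofQ_toQ hD x h, e, D.ofQ_toQ hD x' h'])
    fun _ z h => ⟨_, D.live_ofQ hD z h, Prod.ext (Prod.ext rfl (xt_o _ _))
      (Prod.ext (funext (xt_ne _ _)) (funext (xt_ne _ _)))⟩).uiso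

theorem kv_Fz ⦃K : Fld k⦄ (x : D.Fz.X K) (h : D.Fz.L x) : kv o (D.M x.1.1) = x.1.2 :=
  kv_eq (hD _ h.1.1.1) h.1.1.2.2 fun i _ => h.2.2 i

/-- The transposition on the space of solutions. -/
def ι₀ ⦃K : Fld k⦄ (x : D.Fz.X K) : D.Fz.X K := ((D.ι x.1.1, kv o (D.M (D.ι x.1.1))), x.2)

theorem live_ι₀ ⦃K : Fld k⦄ (x : D.Fz.X K) (h : D.Fz.L x) : D.Fz.L (D.ι₀ x) := by
  refine ⟨⟨⟨D.rι.live _ h.1.1.1, fun _ => trivial, kv_o⟩, fun _ => trivial⟩,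
    (D.ρι _ h.1.1.1).trans h.2.1, fun g => ?_⟩
  by_cases e : g = o
  · rw [e]
    refine (D.schur_ι _ h.1.1.1 (hD _ h.1.1.1)).trans ?_
    rw [D.kv_Fz hD x h]
    exact h.2.2 o
  · exact kv_spec (hD _ (D.rι.live _ h.1.1.1)) g e

theorem isMap_ι₀ : IsMap D.Fz D.Fz D.ι₀ :=
  have r : D.Fz.Reg D.Fz D.ι₀ := ⟨D.live_ι₀ hD, fun _ _ φ _ _ a b r =>
    ⟨⟨D.rι.reg φ _ _ a.1.1.1 b.1.1.1 r.1.1,
      fun i => D.rι.regF (D.reg_kv hD i) φ _ _ a.1.1.1 b.1.1.1 r.1.1⟩, r.2⟩⟩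
  .of_inv r r (fun _ x h => by simp [ι₀, D.fι _ h.1.1.1]) fun _ x h => by
    refine Prod.ext (Prod.ext (D.inv _ h.1.1.1) ?_) rfl
    change kv o (D.M (D.ι (D.ι x.1.1))) = _
    rw [D.inv _ h.1.1.1, D.kv_Fz hD x h]

/-- Coordinates on the space of solutions. -/
def toH ⦃K : Fld k⦄ (x : D.Fz.X K) : (D.bil hD).hz.X K := ((x.1.1, x.2 o), fun i => x.2 i)

theorem live_toH ⦃K : Fld k⦄ (x : D.Fz.X K) (h : D.Fz.L x) :
    (D.bil hD).hz.L (D.toH hD x) ↔ x.2 o ≠ 0 := by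
  refine ⟨fun l => l.1.1.2.2, fun l => ⟨⟨⟨h.1.1.1, trivial, l⟩, fun _ => trivial⟩, ?_⟩⟩
  change D.ρ x.1.1 + x.2 o * (D.M x.1.1 *ᵥ kv o (D.M x.1.1)) o = 0
  rw [D.kv_Fz hD x h, show D.ρ x.1.1 = 0 from h.2.1,
    show (D.M x.1.1 *ᵥ x.1.2) o = 0 from h.2.2 o, mul_zero, add_zero]

theorem isMap_toH : IsMap D.Fz (D.bil hD).hz (D.toH hD) := by
  refine .of_open (fun _ _ φ x y a b r l =>
    (D.live_toH hD x a).2 ((r.2 o).ne_zero ((D.live_toH hD y b).1 l))) (.of_proper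
      ⟨fun _ _ h => h.2, fun _ _ _ _ _ _ _ r => ⟨⟨r.1.1, r.2 o⟩, fun i => r.2 i⟩⟩
      (fun _ _ _ => by simp [toH]) fun _ _ φ x z a b r => ?_)
  have r' : ((Y.prod (nrmV k o)).prod ((line k).pi I)).R φ x
      ((z.1.1, kv o (D.M z.1.1)), xt z.1.2 z.2) := by
    refine ⟨⟨r.1.1, fun i => ?_⟩, fun i => ?_⟩
    · rw [← D.kv_Fz hD x a.1]
      exact D.reg_kv hD i φ _ _ a.1.1.1.1 b.1.1.1 r.1.1
    · rw [← xt_eta (v := x.2) (o := o) rfl]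
      exact xt_rel r.1.2 r.2 i
  have l : ((Y.prod (nrmV k o)).prod ((line k).pi I)).L
      ((z.1.1, kv o (D.M z.1.1)), xt z.1.2 z.2) :=
    ⟨⟨b.1.1.1, fun _ => trivial, kv_o⟩, fun _ => trivial⟩
  have l' : D.Fz.L ((z.1.1, kv o (D.M z.1.1)), xt z.1.2 z.2) :=
    ⟨l, rad_closedR D.reg₀ D.reg₁ φ _ _ a.1.1 l r' a.1.2⟩
  exact ⟨_, ⟨l', (D.live_toH hD _ l').2 ((xt_o _ _).trans_ne b.1.1.2.2)⟩, r'⟩

omit hD in
theorem uzero_base (D : MasD χ o Y) : UZero ((Y.prod (gm k)).E χ) :=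
  Flow.uzero (τ := fun _ r p => (D.τ₂ r p.1, p.2)) D.ne₂
    { live := fun _ r p hr h => ⟨D.fl₂.live r p.1 hr h.1, h.2⟩
      one := fun _ p h => Prod.ext (D.fl₂.one p.1 h.1) rfl
      inv := fun _ r p hr h => Prod.ext (D.fl₂.inv r p.1 hr h.1) rfl
      f := fun _ r p hr h => by
        change Y.f (D.τ₂ r p.1) * 1 = Y.f p.1 * 1 * r ^ D.t₂
        rw [D.fl₂.f r p.1 hr h.1, mul_one, mul_one]
      reg := fun _ _ φ r r' _ _ hr h0 a b c => ⟨D.fl₂.reg φ r r' _ _ hr h0 a.1 b.1 c.1, c.2⟩ }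

omit hD [DecidableEq I] in
theorem exists_ord [DecidableEq I] {r : I → ℕ} (hi : Set.InjOn r {i | i ≠ o})
    (hl : ∀ i, i ≠ o → r i < Fintype.card I - 1) :
    ∃ e : {i // i ≠ o} ≃ Fin (Fintype.card I - 1), ∀ i, (e i : ℕ) = r i :=
  ⟨Equiv.ofBijective (fun i => ⟨r i, hl i i.2⟩) ((Fintype.bijective_iff_injective_and_card _).2
    ⟨fun i j e => Subtype.ext (hi i.2 j.2 (congrArg Fin.val e)), by simp⟩), fun _ => rfl⟩

theorem bil_main [CharZero F] : Null ((D.bil hD).isMap_jm.hom χ -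
    (-1 : F) ^ (Fintype.card I - 1) • (D.bil hD).isMap_jp.hom χ) := by
  obtain ⟨rr, h1⟩ := exists_ord D.rr_inj D.rr_lt
  obtain ⟨rc, h2⟩ := exists_ord D.rc_inj D.rc_lt
  refine ((D.bil hD).main rr rc D.uzero_base fun _ p hp j v a b => ?_).2
  have := D.piv p.1 hp.1 (hD _ hp.1) j (xt 0 v) (xt_o _ _)
    (fun i hi e => (xt_ne 0 v ⟨i, hi⟩).trans (a ⟨i, hi⟩ (e.trans_eq (h2 ⟨i, hi⟩).symm)))
    fun i hi e => by
      rw [mulVec_mnr _ _ ⟨i, hi⟩, xt_o, mul_zero, zero_add, funext (xt_ne 0 v)]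
      exact b ⟨i, hi⟩ ((h1 ⟨i, hi⟩).trans_lt e)
  exact funext fun i => (xt_ne 0 v i).symm.trans (congrFun this i)

theorem acts_sc [CharZero F] : (D.bil hD).hz.Acts χ
    (fun _ x => (x.1, fun a => 1 / (x.1.2 * D.ω x.1.1 a) * x.2 a + 0)) 1 :=
  have n : ∀ ⦃K : Fld k⦄ (x : (D.bil hD).hz.X K), (D.bil hD).hz.L x → ∀ a : {i // i ≠ o},
      x.1.2 * D.ω x.1.1 a ≠ 0 := fun _ _ h a => mul_ne_zero h.1.1.2.2 (D.ω0 _ h.1.1.1 a)
  ((aff_prod (Y.prod (gm k)) {i // i ≠ o}).restr _ fun _ _ _ _ h => h).acts (Equiv.refl _)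
    (w := fun _ x a => 1 / (x.1.2 * D.ω x.1.1 a)) (c := fun _ _ _ => 0)
    (fun a _ _ φ _ y p q r => φ.one.div (r.1.2.mul (D.rω a φ _ _ p.1.1.1 q.1.1.1 r.1.1)) (n y q a))
    (fun _ => regF_zero) (fun _ x h a => one_div_ne_zero (n x h a)) (fun _ _ _ _ => rfl)
    fun _ _ _ _ => rfl

omit hD in
theorem live_J ⦃K : Fld k⦄ (x : D.Fz.X K) (h : D.Fz.L x) : D.Xc.L x ↔ x.2 o ≠ 0 := by
  refine ⟨fun l => l.2.2 o rfl, fun l => ⟨h.1, ?_, fun g hg => Set.mem_singleton_iff.1 hg ▸ l⟩⟩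
  rw [h.2.1, zero_add]
  exact Finset.sum_eq_zero fun g _ => by rw [h.2.2 g, mul_zero]

theorem sq_jp : (isMap_rad D.reg₀ D.reg₁ {o}).hom χ ≫ (D.isMap_toQ hD).hom χ =
    (D.isMap_toH hD).hom χ ≫ (D.bil hD).isMap_jp.hom χ := hom_ext fun _ x hx => by
  rw [Ob.comp_apply, Ob.comp_apply, IsMap.hom_cl _ hx, IsMap.hom_cl (D.isMap_toH hD) hx]
  by_cases h : x.2 o ≠ 0
  · rw [IsMap.hom_cl _ ((D.live_J x hx).2 h), IsMap.hom_cl _ ((D.live_toH hD x hx).2 h)]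
    refine congrArg _ (Prod.ext rfl (Prod.ext rfl (funext fun i => ?_)))
    change x.1.2 i = - -kv o (D.M x.1.1) i
    rw [neg_neg, D.kv_Fz hD x hx]
  · rw [cl_dead (mt (D.live_J x hx).1 h), cl_dead (mt (D.live_toH hD x hx).1 h), map_zero, map_zero]

theorem sq_jm (sc : IsMap (D.bil hD).hz (D.bil hD).hz
      fun _ x => (x.1, fun a => 1 / (x.1.2 * D.ω x.1.1 a) * x.2 a + 0)) :
    (isMap_rad D.reg₀ D.reg₁ {o}).hom χ ≫ D.isMap_σ.hom χ ≫ (D.isMap_toQ hD).hom χ =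
      (D.isMap_ι₀ hD).hom χ ≫ (D.isMap_toH hD).hom χ ≫ sc.hom χ ≫ (D.bil hD).isMap_jm.hom χ :=
  hom_ext fun _ x hx => by
    have l := D.live_ι₀ hD x hx
    rw [Ob.comp_apply, Ob.comp_apply, Ob.comp_apply, Ob.comp_apply, Ob.comp_apply,
      IsMap.hom_cl _ hx, IsMap.hom_cl (D.isMap_ι₀ hD) hx, IsMap.hom_cl (D.isMap_toH hD) l]
    by_cases h : x.2 o ≠ 0
    · have l1 := (D.live_J x hx).2 h
      have l2 := (D.live_toH hD _ l).2 h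
      have l3 : (D.bil hD).hz.L ((D.toH hD (D.ι₀ x)).1, fun a => 1 / ((D.toH hD (D.ι₀ x)).1.2 *
          D.ω (D.toH hD (D.ι₀ x)).1.1 a) * (D.toH hD (D.ι₀ x)).2 a + 0) :=
        ⟨⟨l2.1.1, fun _ => trivial⟩, l2.2⟩
      rw [IsMap.hom_cl _ l1, IsMap.hom_cl _ (D.live_σ x l1), IsMap.hom_cl sc l2,
        IsMap.hom_cl _ l3]
      refine congrArg _ (Prod.ext (Prod.ext rfl ?_)
        (Prod.ext (funext fun i => ?_) (funext fun i => ?_)))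
      · change x.2 o * D.ω x.1.1 o * x.1.2 o = x.2 o
        rw [D.ω1 _ hx.1.1.1, show x.1.2 o = 1 from hx.1.1.2.2, mul_one, mul_one]
      · change x.2 o * D.ω x.1.1 i * x.1.2 i =
          - -(x.2 o * (D.ω (D.ι x.1.1) i * kv o (D.M (D.ι (D.ι x.1.1))) i))
        rw [neg_neg, D.inv _ hx.1.1.1, D.ωι _ hx.1.1.1, D.kv_Fz hD x hx, mul_assoc]
      · change x.2 i / (x.2 o * D.ω x.1.1 i) = 1 / (x.2 o * D.ω (D.ι x.1.1) i) * x.2 i + 0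
        rw [D.ωι _ hx.1.1.1, add_zero, one_div_mul_eq_div]
    · rw [cl_dead (mt (D.live_J x hx).1 h), cl_dead (mt (D.live_toH hD _ l).1 h), map_zero,
        map_zero, map_zero, map_zero]

theorem kills' [CharZero F] {B : Pt k} {g : ∀ ⦃K : Fld k⦄, Y.X K → (I → K) → B.X K}
    (hg : IsMap D.Fz B fun _ x => g x.1.1 x.2)
    (gι : ∀ ⦃K : Fld k⦄ (y : Y.X K) (μ : I → K), Y.L y → g (D.ι y) μ = g y μ) :
    Kills ((isMap_rad D.reg₀ D.reg₁ {o}).hom χ) (hg.hom χ)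
      (D.isMap_σ.hom χ - (-1 : F) ^ (Fintype.card I - 1) • 𝟙 _) := by
  obtain ⟨sc, n⟩ := D.acts_sc hD
  exact kills_of D.uiso_J (D.uiso_toQ hD) (D.sq_jm hD sc) (D.sq_jp hD)
    ((D.isMap_ι₀ hD).hom_comp hg hg (fun _ x h _ => D.live_ι₀ hD x h)
      fun _ x h _ => gι _ _ h.1.1.1) (D.bil_main hD) n

end Main

theorem open_Y : Y.Open fun _ y => Dm o (D.M y) := fun _ _ φ _ _ a b r =>
  Dm.gen fun i j _ _ => D.rM i j φ _ _ a b r

theorem flow_res {t : ℤ} {τ : ∀ ⦃K : Fld k⦄, K → Y.X K → Y.X K} (h : Y.Flow t τ)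
    (e : ∀ ⦃K : Fld k⦄ (r : K) (y : Y.X K), r ≠ 0 → Y.L y → ∀ i j, j ≠ o →
      D.M (τ r y) i j = D.M y i j) : (Y.restr _ D.open_Y.conv).Flow t τ where
  live _ r y hr a := ⟨h.live r y hr a.1, a.2.congr fun i j _ hj => e r y hr a.1 i j hj⟩
  one _ y a := h.one y a.1
  inv _ r y hr a := h.inv r y hr a.1
  f _ r y hr a := h.f r y hr a.1
  reg _ _ φ r r' x y hr h0 a b := h.reg φ r r' x y hr h0 a.1 b.1

/-- The restriction to the open set where the minor is invertible. -/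
@[reducible] def res : MasD χ o (Y.restr _ D.open_Y.conv) where
  M := D.M
  ρ := D.ρ
  ω := D.ω
  ι := D.ι
  rM i j := (reg_restr _).regF (D.rM i j)
  rρ := (reg_restr _).regF D.rρ
  rω i := (reg_restr _).regF (D.rω i)
  ω0 _ y h := D.ω0 y h.1
  ω1 _ y h := D.ω1 y h.1
  rι := ⟨fun _ y h => ⟨D.rι.live y h.1, D.dm_ι y h.1 h.2⟩,
    fun _ _ φ x y a b => D.rι.reg φ x y a.1 b.1⟩
  inv _ y h := D.inv y h.1
  fι _ y h := D.fι y h.1
  ρι _ y h := D.ρι y h.1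
  ωι _ y h := D.ωι y h.1
  tr _ y h := D.tr y h.1
  t₁ := D.t₁
  t₂ := D.t₂
  τ₁ := D.τ₁
  τ₂ := D.τ₂
  ne₁ := D.ne₁
  ne₂ := D.ne₂
  fl₁ := D.flow_res D.fl₁ fun _ r y hr h i j hj => by
    rw [D.M₁ r y hr h, if_neg fun e => hj e.2]
  fl₂ := D.flow_res D.fl₂ fun _ r y hr h i j _ => by rw [D.M₂ r y hr h]
  ρ₁ _ r y hr h := D.ρ₁ r y hr h.1
  M₁ _ r y hr h := D.M₁ r y hr h.1
  M₂ _ r y hr h := D.M₂ r y hr h.1
  rr := D.rr
  rc := D.rc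
  rr_inj := D.rr_inj
  rc_inj := D.rc_inj
  rr_lt := D.rr_lt
  rc_lt := D.rc_lt
  piv _ y h := D.piv y h.1

theorem isMap_resY : IsMap ((Y.prod (nrmV k o)).prod ((line k).pi I))
    (((Y.restr _ D.open_Y.conv).prod (nrmV k o)).prod ((line k).pi I)) fun _ x => x :=
  ((isMap_open D.open_Y).prod isMap_id).prod isMap_id

theorem isMap_resF : IsMap D.Fz D.res.Fz fun _ x => x :=
  D.isMap_resY.restr (rad_closedR D.reg₀ D.reg₁).conv (rad_closedR D.res.reg₀ D.res.reg₁).conv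
    fun _ _ _ _ => Iff.rfl

theorem isMap_resX : IsMap D.Xc D.res.Xc fun _ x => x :=
  D.isMap_resY.restr ((rad_closedW D.reg₀ D.reg₁).conv.and (rad_open {o}).conv)
    ((rad_closedW D.res.reg₀ D.res.reg₁).conv.and (rad_open {o}).conv) fun _ _ _ _ => Iff.rfl

theorem isMap_resF' : IsMap D.res.Fz D.Fz' fun _ x => x :=
  .of_inv (g := fun _ x => x)
    ⟨fun _ _ h => ⟨⟨⟨⟨h.1.1.1.1, h.1.1.2⟩, h.1.2⟩, h.2⟩, h.1.1.1.2⟩, fun _ _ _ _ _ _ _ r => r⟩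
    ⟨fun _ _ h => ⟨⟨⟨⟨h.1.1.1.1, h.2⟩, h.1.1.1.2⟩, h.1.1.2⟩, h.1.2⟩, fun _ _ _ _ _ _ _ r => r⟩
    (fun _ _ _ => rfl) fun _ _ _ => rfl

theorem kills [CharZero F] {B : Pt k} {g : ∀ ⦃K : Fld k⦄, Y.X K → (I → K) → B.X K}
    (hg : IsMap D.Fz' B fun _ x => g x.1.1 x.2)
    (gι : ∀ ⦃K : Fld k⦄ (y : Y.X K) (μ : I → K), Y.L y → g (D.ι y) μ = g y μ) :
    Kills ((isMap_rad D.reg₀ D.reg₁ {o}).hom χ) ((isMap_open D.open_Dm).hom χ ≫ hg.hom χ)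
      (D.isMap_σ.hom χ - (-1 : F) ^ (Fintype.card I - 1) • 𝟙 _) := by
  have l : ∀ ⦃K : Fld k⦄ (x : D.res.Fz.X K), D.res.Fz.L x → D.Fz'.L x :=
    fun _ _ h => ⟨⟨⟨⟨h.1.1.1.1, h.1.1.2⟩, h.1.2⟩, h.2⟩, h.1.1.1.2⟩
  have hg' : IsMap D.res.Fz B fun _ x => g x.1.1 x.2 := D.isMap_resF'.comp hg fun _ x h _ => l x h
  have h1 : D.isMap_resF.hom χ ≫ (isMap_rad D.res.reg₀ D.res.reg₁ {o}).hom χ =
      (isMap_rad D.reg₀ D.reg₁ {o}).hom χ ≫ D.isMap_resX.hom χ :=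
    IsMap.comm _ _ _ _ (fun _ x h => ⟨fun a => ⟨⟨h.1, a.2.2⟩, a.2⟩,
      fun a => ⟨⟨a.2.1, h.2⟩, a.2⟩⟩) fun _ _ _ _ _ => rfl
  have h2 : D.isMap_resF.hom χ ≫ hg'.hom χ = (isMap_open D.open_Dm).hom χ ≫ hg.hom χ :=
    IsMap.comm _ _ _ _ (fun _ x h => and_congr_left' ⟨l x,
      fun a => ⟨⟨⟨⟨h.1.1.1, a.2⟩, h.1.1.2⟩, h.1.2⟩, h.2⟩⟩) fun _ _ _ _ _ => rfl
  have h3 : D.isMap_σ.hom χ ≫ D.isMap_resX.hom χ = D.isMap_resX.hom χ ≫ D.res.isMap_σ.hom χ :=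
    IsMap.comm _ _ _ _ (fun _ x h => ⟨fun a => ⟨⟨⟨⟨⟨h.1.1.1, D.inv _ h.1.1.1 ▸
      D.dm_ι _ a.1.1.1.1 a.2.1.1.1.2⟩, h.1.1.2⟩, h.1.2⟩, h.2⟩, a.2⟩,
      fun a => ⟨D.live_σ x h, a.2⟩⟩) fun _ _ _ _ _ => rfl
  exact kills_res D.uiso_J D.res.uiso_J h1 h2 h3
    (D.res.kills' (fun _ _ h => h.2) hg' fun _ y μ h => gι y μ h.1)

end MasD

end Pt

end

end Pool.Agent.Lib.MP_fc2ced_ag.T
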