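import Pool.Agent.Lib.MP_fc2ced_ag.G.Seq
import Pool.Agent.Lib.MP_fc2ced_ag.G.Mas

/-! Recurrences of order two as cyclic tridiagonal systems. -/

open Module Polynomial Matrix

namespace Pool.Agent.Lib.MP_fc2ced_ag.T.G

open K

noncomputable section

variable {K : Type} [Field K] {n : ℕ} [NeZero n]

variable (n) in
/-- The pairing of the two families of exponents for the shift `s`. -/
def pr (s : ℕ) : Fin n ≃ Fin n := Equiv.addRight (Fin.intCast ((s : ℤ) + 1))

theorem pr_succ (s : ℕ) (i : Fin n) : pr n (s + 1) i = pr n s (i + 1) := by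
  simp only [pr, Equiv.coe_addRight]
  rw [Nat.cast_succ, intCast_succ (n := n) ((s : ℤ) + 1), add_assoc, add_comm (1 : Fin n)]

theorem intCast_pr (s : ℕ) (i : Fin n) :
    (Fin.intCast (((i : ℕ) : ℤ) + s + 1) : Fin n) = pr n s i := by
  induction s with
  | zero =>
    simp only [pr, Equiv.coe_addRight, Nat.cast_zero, add_zero]
    rw [intCast_succ, intCast_val, intCast_succ]
    congr 1
    exact (zero_add _).symm
  | succ s ih =>
    rw [Nat.cast_succ, ← add_assoc, intCast_succ, ih]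
    simp only [pr, Equiv.coe_addRight]
    rw [Nat.cast_succ, intCast_succ (n := n) ((s : ℤ) + 1), add_assoc]

/-- The recurrence `p y i + (1 - p - q) y (i + 1) + q y (i + 2) = 0`. -/
def gq (p q : Fin n → K) (i : ℤ) (l : ℕ) : K :=
  if l = 0 then 1 else if l = 1 then
    (1 - p (Fin.intCast i) - q (Fin.intCast i)) / p (Fin.intCast i)
  else if l = 2 then q (Fin.intCast i) / p (Fin.intCast i) else 0

/-- Its solutions. -/
def solq (p q : Fin n → K) : Sp K := Sol 2 (gq p q)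

variable (n) in
/-- The first coefficient. -/
def pU (U : Sp K) (i : Fin n) : K := (dU n 2 U (i : ℕ))⁻¹

variable (n) in
/-- The last coefficient. -/
def qU (U : Sp K) (i : Fin n) : K := tU n 2 U (i : ℕ)

/-- The factor at the end of the period. -/
def wr (l : K) (i : Fin n) : K := if i = 0 then l else 1

/-- The matrix of the system for the differences `inl i` and the values `inr i`. -/
def Mq (p q : Fin n → K) (l : K) : Matrix (Fin n ⊕ Fin n) (Fin n ⊕ Fin n) K
  | .inl i, .inl j => if i = j then -1 else 0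
  | .inl i, .inr j => (if i = j then 1 else 0) - if j + 1 = i then wr l i else 0
  | .inr i, .inl j => (if i = j then p i else 0) - if i + 1 = j then q i / wr l j else 0
  | .inr i, .inr j => if i = j then -1 else 0

/-- The second eigenvalue. -/
def lp (p q : Fin n → K) (l : K) : K := (∏ i, q i / p i) / l

/-- The polynomial with the two eigenvalues as roots. -/
def qd2 (p q : Fin n → K) (l : K) : K[X] := (X - C l) * (X - C (lp p q l))

/-- The factors that conjugate the matrix to a transposed matrix. -/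
def omq (p q : Fin n → K) : Fin n ⊕ Fin n → K :=
  Sum.elim (fun i => ∏ j ∈ Finset.univ.filter (· < i), q j / p j)
    fun i => (∏ j ∈ Finset.univ.filter (· < i), q j / p j) / p i

/-- The order of the rows. -/
def rrq : Fin n ⊕ Fin n → ℕ := Sum.elim (fun i => 2 * i - 1) fun i => 2 * i

/-- The order of the columns. -/
def rcq : Fin n ⊕ Fin n → ℕ :=
  Sum.elim (fun i => 2 * i - 2) fun i => if i = 0 then 2 * n - 2 else 2 * i - 1

variable (n) in
/-- The differences and the values of a sequence. -/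
def cv (y : Sq K) : Fin n ⊕ Fin n → K :=
  Sum.elim (fun i => y ((i : ℕ) + 1) - y (i : ℕ)) fun i => y ((i : ℕ) + 1)

open Classical in
variable (n) in
/-- The normalized generator of a line. -/
def nv (W : Sp K) : Fin n ⊕ Fin n → K :=
  if h : ∃ y ∈ W, y 1 - y 0 = 1 then cv n h.choose else 0

variable (n) in
/-- The eigenvalue of a line. -/
def ev1 (W : Sp K) : K := -(chi n W).coeff 0

/-- The sequence with given values on a period and given eigenvalue. -/
def sqc (l : K) (c : Fin n ⊕ Fin n → K) (t : ℤ) : K :=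
  c (.inr (Fin.intCast (t - 1))) * l ^ (-((t - 1) / n))

/-- The flag given by a solution of the system. -/
def flq (p q : Fin n → K) (l : K) (c : Fin n ⊕ Fin n → K) (m : ℕ) : Sp K :=
  if m = 1 then Submodule.span K {sqc l c} else if m = 2 then solq p q else ⊥

/-- One entry is multiplied by `r`. -/
def sc1 (a : Fin n) (r : K) (p : Fin n → K) (i : Fin n) : K := if i = a then r * p i else p i

variable {p q : Fin n → K} {l r : K} {c : Fin n ⊕ Fin n → K} {U W : Sp K} {x : ℕ → Sp K}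

section Mat

theorem Mq_inl (i : Fin n) :
    (Mq p q l *ᵥ c) (.inl i) = c (.inr i) - wr l i * c (.inr (i - 1)) - c (.inl i) := by
  have e : ∀ j : Fin n, j + 1 = i ↔ i - 1 = j := fun j => by rw [sub_eq_iff_eq_add, eq_comm]
  simp only [mulVec, dotProduct, Fintype.sum_sum_type, Mq, e, sub_mul, ite_mul, zero_mul,
    Finset.sum_sub_distrib, Finset.sum_ite_eq, Finset.mem_univ, if_true]
  ring

theorem Mq_inr (i : Fin n) : (Mq p q l *ᵥ c) (.inr i) =
    p i * c (.inl i) - q i / wr l (i + 1) * c (.inl (i + 1)) - c (.inr i) := by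
  simp only [mulVec, dotProduct, Fintype.sum_sum_type, Mq, sub_mul, ite_mul, zero_mul,
    Finset.sum_sub_distrib, Finset.sum_ite_eq, Finset.mem_univ, if_true]
  ring

omit [NeZero n] in
theorem mat_prod_ne (hp : ∀ i, p i ≠ 0) (hq : ∀ i, q i ≠ 0) (S : Finset (Fin n)) :
    ∏ i ∈ S, q i / p i ≠ 0 :=
  Finset.prod_ne_zero_iff.2 fun i _ => div_ne_zero (hq i) (hp i)

theorem lp_ne (hp : ∀ i, p i ≠ 0) (hq : ∀ i, q i ≠ 0) (hl : l ≠ 0) : lp p q l ≠ 0 :=
  div_ne_zero (mat_prod_ne hp hq _) hl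

theorem lp_lp (hp : ∀ i, p i ≠ 0) (hq : ∀ i, q i ≠ 0) : lp p q (lp p q l) = l :=
  div_div_cancel₀ (mat_prod_ne hp hq _)

theorem qd2_lp (hp : ∀ i, p i ≠ 0) (hq : ∀ i, q i ≠ 0) : qd2 p q (lp p q l) = qd2 p q l := by
  rw [qd2, qd2, lp_lp hp hq, mul_comm]

theorem omq_ne (hp : ∀ i, p i ≠ 0) (hq : ∀ i, q i ≠ 0) (i : Fin n ⊕ Fin n) : omq p q i ≠ 0 := by
  rcases i with i | i
  · exact mat_prod_ne hp hq (Finset.univ.filter (· < i))
  · exact div_ne_zero (mat_prod_ne hp hq (Finset.univ.filter (· < i))) (hp i)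

theorem omq_zero : omq p q (.inl 0) = 1 := by
  simp [omq]

theorem mat_succ (i : Fin n) : (i + 1 = 0 ∧ (i : ℕ) + 1 = n) ∨
    (i + 1 ≠ 0 ∧ ((i + 1 : Fin n) : ℕ) = i + 1) := by
  have h : ((i + 1 : Fin n) : ℕ) = (i + 1) % n := by simp [Fin.val_add]
  rcases (Nat.succ_le_of_lt i.2).lt_or_eq with g | g
  · rw [Nat.mod_eq_of_lt g] at h
    exact Or.inr ⟨fun e => by simp [e] at h, h⟩
  · refine Or.inl ⟨Fin.ext ?_, g⟩
    rw [h, show (i : ℕ) + 1 = n from g, Nat.mod_self, Fin.val_zero]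

theorem omq_succ (hl : l ≠ 0) (i : Fin n) :
    omq p q (.inl (i + 1)) * (wr l (i + 1) * wr (lp p q l) (i + 1)) =
      omq p q (.inr i) * q i := by
  have e : omq p q (.inr i) * q i = ∏ j ∈ Finset.univ.filter (· ≤ i), q j / p j := by
    have : Finset.univ.filter (· ≤ i) = insert i (Finset.univ.filter (· < i)) := by
      ext j
      simp [le_iff_eq_or_lt]
    rw [this, Finset.prod_insert (by simp), omq, Sum.elim_inr]
    ring
  rw [e]
  rcases mat_succ i with ⟨h, g⟩ | ⟨h, g⟩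
  · have : Finset.univ.filter (· ≤ i) = Finset.univ :=
      Finset.filter_true_of_mem fun j _ => by have := j.2; rw [Fin.le_def]; omega
    rw [h, omq_zero, this, wr, wr, if_pos rfl, if_pos rfl, one_mul, lp, mul_div_cancel₀ _ hl]
  · rw [wr, wr, if_neg h, if_neg h, mul_one, mul_one, omq, Sum.elim_inl]
    refine Finset.prod_congr (Finset.filter_congr fun j _ => ?_) fun _ _ => rfl
    rw [Fin.lt_def, Fin.le_def, g]
    omega

theorem Mq_tr (hp : ∀ i, p i ≠ 0) (hq : ∀ i, q i ≠ 0) (hl : l ≠ 0) (i j : Fin n ⊕ Fin n) :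
    Mq p q (lp p q l) i j * omq p q i = Mq p q l j i * omq p q j := by
  have hw : ∀ {l : K}, l ≠ 0 → ∀ i : Fin n, wr l i ≠ 0 := fun h i => by
    unfold wr
    split_ifs
    exacts [h, one_ne_zero]
  have ho : ∀ i, p i * omq p q (.inr i) = omq p q (.inl i) := fun i => mul_div_cancel₀ _ (hp i)
  rcases i with i | i <;> rcases j with j | j <;> simp only [Mq, sub_mul]
  · by_cases e : i = j
    · rw [e]
    · rw [if_neg e, if_neg (Ne.symm e), zero_mul, zero_mul]
  · congr 1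
    · by_cases e : i = j
      · rw [e, if_pos rfl, if_pos rfl, one_mul, ho]
      · rw [if_neg e, if_neg (Ne.symm e), zero_mul, zero_mul]
    · split_ifs with e
      · have := omq_succ (p := p) (q := q) hl j
        rw [e] at this
        rw [div_mul_eq_mul_div, eq_div_iff (hw hl i)]
        linear_combination this
      · rw [zero_mul, zero_mul]
  · congr 1
    · by_cases e : i = j
      · rw [e, if_pos rfl, if_pos rfl, one_mul, ho]
      · rw [if_neg e, if_neg (Ne.symm e), zero_mul, zero_mul]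
    · split_ifs with e
      · have := omq_succ (p := p) (q := q) hl i
        rw [e] at this
        rw [div_mul_eq_mul_div, div_eq_iff (hw (lp_ne hp hq hl) j)]
        linear_combination -this
      · rw [zero_mul, zero_mul]
  · by_cases e : i = j
    · rw [e]
    · rw [if_neg e, if_neg (Ne.symm e), zero_mul, zero_mul]

theorem Mq_sc (i j : Fin n ⊕ Fin n) : Mq (sc1 0 r p) (sc1 (-1) r q) l i j =
    if i ≠ .inl 0 ∧ j = .inl 0 then r * Mq p q l i j else Mq p q l i j := by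
  rcases i with i | i <;> rcases j with j | j
  · by_cases e : i = j <;> simp [Mq, e]
  · simp [Mq]
  · have e : i + 1 = 0 ↔ i = -1 := add_eq_zero_iff_eq_neg
    by_cases g : j = 0
    · subst g
      rw [if_pos ⟨Sum.inr_ne_inl, rfl⟩]
      simp only [Mq, sc1, e]
      split_ifs <;> ring
    · rw [if_neg fun h => g (Sum.inl.inj h.2)]
      simp only [Mq, sc1]
      congr 1
      · split_ifs with h1 h2
        exacts [absurd (h1 ▸ h2) g, rfl, rfl]
      · split_ifs with h1 h2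
        exacts [absurd (h1 ▸ e.2 h2) g, rfl, rfl]
  · simp [Mq]

omit [NeZero n] in
theorem mat_prod_sc (a : Fin n) : ∏ i, sc1 a r p i = r * ∏ i, p i := by
  have e : ∀ i, sc1 a r p i = (if i = a then r else 1) * p i := fun i => by
    unfold sc1
    split_ifs
    exacts [rfl, (one_mul _).symm]
  simp only [e, Finset.prod_mul_distrib, Finset.prod_ite_eq', Finset.mem_univ, if_true]

theorem lp_sc (hr : r ≠ 0) : lp (sc1 0 r p) (sc1 (-1) r q) l = lp p q l := by
  simp only [lp, Finset.prod_div_distrib, mat_prod_sc]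
  rw [mul_div_mul_left _ _ hr]

theorem Dm_iff (l l' : K) : Dm (.inl 0) (Mq p q l) ↔ Dm (.inl 0) (Mq p q l') := by
  have key : ∀ (l l' : K) (i j : Fin n ⊕ Fin n), i ≠ .inl 0 → j ≠ .inl 0 →
      Mq p q l i j = Mq p q l' i j := by
    rintro l l' (i | i) (j | j) hi hj
    · rfl
    · have : i ≠ 0 := fun e => hi (congrArg _ e)
      simp only [Mq, wr, if_neg this]
    · have : j ≠ 0 := fun e => hj (congrArg _ e)
      simp only [Mq, wr, if_neg this]
    · rfl
  exact ⟨Dm.congr (key l' l), Dm.congr (key l l')⟩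

theorem Dm_sc : Dm (.inl 0) (Mq (sc1 0 r p) (sc1 (-1) r q) l) ↔ Dm (.inl 0) (Mq p q l) := by
  have key : ∀ i j : Fin n ⊕ Fin n, j ≠ .inl 0 →
      Mq (sc1 0 r p) (sc1 (-1) r q) l i j = Mq p q l i j := fun i j hj => by
    rw [Mq_sc, if_neg fun h => hj h.2]
  exact ⟨Dm.congr fun i j _ hj => (key i j hj).symm, Dm.congr fun i j _ hj => key i j hj⟩

theorem mat_pos {i : Fin n} (h : (Sum.inl i : Fin n ⊕ Fin n) ≠ .inl 0) : 0 < (i : ℕ) :=
  Nat.pos_of_ne_zero fun e => h (congrArg _ (Fin.ext e))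

theorem mat_rcq (i : Fin n) : ((i : ℕ) = 0 ∧ rcq (.inr i) = 2 * n - 2) ∨
    (0 < (i : ℕ) ∧ rcq (.inr i) = 2 * i - 1) := by
  by_cases e : i = 0
  · exact Or.inl ⟨congrArg _ e, if_pos e⟩
  · exact Or.inr ⟨Nat.pos_of_ne_zero fun g => e (Fin.ext g), if_neg e⟩

theorem rrq_inj : Set.InjOn (rrq (n := n)) {i | i ≠ .inl 0} := by
  rintro (i | i) hi (j | j) hj h <;> simp only [rrq, Sum.elim_inl, Sum.elim_inr] at h
  · have := mat_pos hi
    have := mat_pos hj
    exact congrArg _ (Fin.ext (by omega))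
  · have := mat_pos hi
    omega
  · have := mat_pos hj
    omega
  · exact congrArg _ (Fin.ext (by omega))

theorem rcq_inj : Set.InjOn (rcq (n := n)) {i | i ≠ .inl 0} := by
  rintro (i | i) hi (j | j) hj h
  · have := mat_pos hi
    have := mat_pos hj
    change 2 * (i : ℕ) - 2 = 2 * j - 2 at h
    exact congrArg _ (Fin.ext (by omega))
  · have := mat_pos hi
    have := mat_rcq j
    have := i.2
    change 2 * (i : ℕ) - 2 = _ at h
    omega
  · have := mat_pos hj
    have := mat_rcq i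
    have := j.2
    change _ = 2 * (j : ℕ) - 2 at h
    omega
  · have := mat_rcq i
    have := mat_rcq j
    exact congrArg _ (Fin.ext (by omega))

theorem rrq_lt (i : Fin n ⊕ Fin n) (h : i ≠ .inl 0) :
    rrq i < Fintype.card (Fin n ⊕ Fin n) - 1 := by
  rw [Fintype.card_sum, Fintype.card_fin]
  rcases i with i | i
  · have := i.2
    have := mat_pos h
    change 2 * (i : ℕ) - 1 < _
    omega
  · have := i.2
    change 2 * (i : ℕ) < _
    omega

theorem rcq_lt (i : Fin n ⊕ Fin n) (h : i ≠ .inl 0) :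
    rcq i < Fintype.card (Fin n ⊕ Fin n) - 1 := by
  rw [Fintype.card_sum, Fintype.card_fin]
  rcases i with i | i
  · have := i.2
    change 2 * (i : ℕ) - 2 < _
    omega
  · have := i.2
    have := mat_rcq i
    omega

theorem Mq_piv (hq : ∀ i, q i ≠ 0) (d : Dm (.inl 0) (Mq p q l)) (j : ℕ) (v : Fin n ⊕ Fin n → K)
    (h0 : v (.inl 0) = 0) (h1 : ∀ i, i ≠ .inl 0 → j ≤ rcq i → v i = 0)
    (h2 : ∀ i, i ≠ .inl 0 → rrq i < j → (Mq p q l *ᵥ v) i = 0) : v = 0 := by
  by_cases hj : 2 * n - 1 ≤ j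
  · refine d v h0 fun i hi => h2 i hi ?_
    have := rrq_lt i hi
    rw [Fintype.card_sum, Fintype.card_fin] at this
    omega
  have key : ∀ (m : ℕ) (i : Fin n), (i : ℕ) = m → v (.inl i) = 0 ∧ v (.inr i) = 0 := by
    intro m
    induction m with
    | zero =>
      intro i hi
      have := mat_rcq i
      exact ⟨(Fin.ext hi : i = 0) ▸ h0, h1 _ Sum.inr_ne_inl (by omega)⟩
    | succ m ih =>
      intro i hi
      obtain ⟨a, rfl⟩ : ∃ a, i = a + 1 := ⟨i - 1, (sub_add_cancel i 1).symm⟩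
      have ha : a + 1 ≠ 0 := fun e => by simp [e] at hi
      have hm : (a : ℕ) = m := by have := mat_succ a; omega
      obtain ⟨g1, g2⟩ := ih a hm
      have hn : (Sum.inl (a + 1) : Fin n ⊕ Fin n) ≠ .inl 0 := fun e => ha (Sum.inl.inj e)
      have g3 : v (.inl (a + 1)) = 0 := by
        by_cases e : j ≤ 2 * m
        · exact h1 _ hn (by change j ≤ 2 * ((a + 1 : Fin n) : ℕ) - 2; omega)
        · have := h2 (.inr a) Sum.inr_ne_inl (by change 2 * (a : ℕ) < j; omega)
          rw [Mq_inr, g1, g2, wr, if_neg ha] at this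
          simpa [hq a] using this
      refine ⟨g3, ?_⟩
      by_cases e : j ≤ 2 * m + 1
      · exact h1 _ Sum.inr_ne_inl (by have := mat_rcq (a + 1); omega)
      · have := h2 _ hn (by change 2 * ((a + 1 : Fin n) : ℕ) - 1 < j; omega)
        rw [Mq_inl, add_sub_cancel_right, g2, g3] at this
        simpa using this
  funext i
  rcases i with i | i
  exacts [(key _ i rfl).1, (key _ i rfl).2]

theorem mat_ker {I : Type} [Fintype I] [DecidableEq I] {o : I} {M M' : Matrix I I K}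
    (e : ∀ i j, M' i j = if i ≠ o ∧ j = o then r * M i j else M i j) (d : ¬ Dm o M)
    (h : ∃ c, c ≠ 0 ∧ M *ᵥ c = 0) : ∃ c, c ≠ 0 ∧ M' *ᵥ c = 0 := by
  have key : ∀ (w : I → K) (i : I),
      (M' *ᵥ w) i = (M *ᵥ w) i + if i = o then 0 else (r - 1) * M i o * w o := fun w i => by
    have : ∀ j, M' i j * w j = M i j * w j +
        if o = j then (if i = o then 0 else (r - 1) * M i o * w o) else 0 := fun j => by
      rw [e]
      by_cases g1 : o = j
      · subst g1
        by_cases g2 : i = o <;> simp [g2]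
        ring
      · simp [g1, Ne.symm g1]
    simp only [mulVec, dotProduct, this, Finset.sum_add_distrib, Finset.sum_ite_eq,
      Finset.mem_univ, if_true]
  have k0 : ∀ w : I → K, w o = 0 → M' *ᵥ w = M *ᵥ w := fun w hw => funext fun i => by
    simp [key, hw]
  obtain ⟨c, hc, h⟩ := h
  by_cases c0 : c o = 0
  · exact ⟨c, hc, (k0 c c0).trans h⟩
  unfold Dm at d
  push Not at d
  obtain ⟨v, v0, v1, v2⟩ := d
  by_cases v3 : (M *ᵥ v) o = 0
  · refine ⟨v, v2, (k0 v v0).trans (funext fun i => ?_)⟩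
    by_cases g : i = o
    exacts [g ▸ v3, v1 i g]
  have w1 : ∀ i, i ≠ o → (M' *ᵥ (r • c + Pi.single o ((1 - r) * c o))) i = 0 := fun i g => by
    rw [key, if_neg g, mulVec_add, mulVec_smul, h]
    simp
    ring
  generalize hw : (r • c + Pi.single o ((1 - r) * c o) : I → K) = w at w1
  have w0 : w o = c o := by
    rw [← hw]
    simp
    ring
  refine ⟨w - ((M' *ᵥ w) o / (M *ᵥ v) o) • v, fun g => c0 ?_, funext fun i => ?_⟩
  · simpa [v0, w0] using congrFun g o
  · rw [mulVec_sub, mulVec_smul, k0 v v0]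
    by_cases g : i = o
    · subst g
      simp [v3]
    · simp [w1 i g, v1 i g]

/-- On the singular locus the scaling keeps the existence of a kernel. -/
theorem ker_sc (d : ¬ Dm (.inl 0) (Mq p q l)) (h : ∃ c, c ≠ 0 ∧ Mq p q l *ᵥ c = 0) :
    ∃ c, c ≠ 0 ∧ Mq (sc1 0 r p) (sc1 (-1) r q) l *ᵥ c = 0 :=
  mat_ker Mq_sc d h

end Mat

section Sol

theorem band_gq (hp : ∀ i, p i ≠ 0) (hq : ∀ i, q i ≠ 0) : Band n 2 (gq p q) :=
  ⟨fun i l => by simp only [gq, intCast_add], fun _ => if_pos rfl,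
    fun _ => div_ne_zero (hq _) (hp _), fun i l hl => by
      rw [gq, if_neg (by omega), if_neg (by omega), if_neg (by omega)]⟩

theorem op_gq (hp : ∀ i, p i ≠ 0) (y : Sq K) (t : ℤ) : p (Fin.intCast t) * op 2 (gq p q) y t =
    -(p (Fin.intCast t) * (y (t + 1) - y t) - q (Fin.intCast t) * (y (t + 2) - y (t + 1)) -
      y (t + 1)) := by
  have := hp (Fin.intCast t)
  simp only [op_apply, Finset.sum_range_succ, Finset.range_zero, Finset.sum_empty, gq]
  norm_num
  field_simp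
  ring

theorem eig_succ {y : Sq K} (e : sh K n y = l • y) (i : Fin n) (a : ℤ) :
    y ((i + 1 : Fin n) + a) = wr l (i + 1) * y ((i : ℕ) + 1 + a) := by
  rcases Nat.lt_or_ge (i + 1) n with k | k
  · have h1 := Fin.val_add_one_of_lt' k
    rw [wr, if_neg fun h => by simp [h] at h1, one_mul, h1, Nat.cast_succ]
  · have h1 : (i : ℕ) + 1 = n := le_antisymm i.2 k
    have h2 : i + 1 = 0 := Fin.ext (by simp [Fin.add_def, h1])
    have h3 := congrFun e ((i : ℕ) + 1 + a)
    rw [sh_apply, show (i : ℕ) + 1 + a - (n : ℤ) = a by omega] at h3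
    rw [h2, wr, if_pos rfl, Fin.val_zero, Nat.cast_zero, zero_add, h3]
    rfl

theorem eig_zero {y : Sq K} (e : sh K n y = l • y) (hl : l ≠ 0) (h : ∀ i : Fin n, y (i : ℕ) = 0) :
    y = 0 := funext fun t => (per_intCast (n := n) (G := fun t => y t = 0) (fun i => by
  have h3 := congrFun e (i + n)
  rw [sh_apply, add_sub_cancel_right] at h3
  rw [h3, Pi.smul_apply, smul_eq_mul, mul_eq_zero_iff_left hl]) t).mp (h _)

theorem eig_val {y : Sq K} (e : sh K n y = l • y) (i : Fin n) :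
    y (i : ℕ) = wr l i * cv n y (.inr (i - 1)) := by
  simpa [cv] using eig_succ e (i - 1) 0

/-- Eigenvectors of the shift among the solutions are kernel vectors of the matrix. -/
theorem eig_iff (hp : ∀ i, p i ≠ 0) (hq : ∀ i, q i ≠ 0) (hl : l ≠ 0) {y : Sq K}
    (e : sh K n y = l • y) : y ∈ solq p q ↔ Mq p q l *ᵥ cv n y = 0 := by
  have h1 (i : Fin n) : (Mq p q l *ᵥ cv n y) (.inr i) = -(p i * op 2 (gq p q) y (i : ℕ)) := by
    have h2 := op_gq (q := q) hp y (i : ℕ)
    have h3 := eig_succ e i 0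
    have h4 : wr l (i + 1) ≠ 0 := by unfold wr; split_ifs; exacts [hl, one_ne_zero]
    rw [intCast_val] at h2
    rw [add_zero, add_zero] at h3
    rw [h2, neg_neg, Mq_inr]
    simp only [cv, Sum.elim_inl, Sum.elim_inr]
    rw [h3, eig_succ e i 1, ← mul_sub, div_mul_eq_mul_div, mul_left_comm, mul_div_cancel_left₀ _ h4,
      add_assoc, one_add_one_eq_two]
  refine ⟨fun h => funext fun i => ?_, fun h => eig_zero (l := l)
    (by rw [← (band_gq hp hq).op_sh, e, map_smul]) hl fun i => ?_⟩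
  · rcases i with i | i
    · rw [Mq_inl, ← eig_val e]
      exact sub_self _
    · rw [h1, mem_Sol.1 h, mul_zero, neg_zero, Pi.zero_apply]
  · exact (mul_eq_zero_iff_left (hp i)).1 (neg_eq_zero.1 ((h1 i).symm.trans (congrFun h _)))

theorem sh_sqc (hl : l ≠ 0) : sh K n (sqc l c) = l • sqc l c := funext fun t => by
  have h0 : (n : ℤ) ≠ 0 := Nat.cast_ne_zero.2 (NeZero.ne n)
  have h1 := Int.add_mul_ediv_right (t - n - 1) 1 h0
  rw [show t - n - 1 + 1 * n = t - 1 by ring] at h1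
  rw [sh_apply, Pi.smul_apply, sqc, sqc, h1, ← intCast_add (t - n - 1),
    show t - n - 1 + n = t - 1 by ring, neg_add, zpow_add₀ hl, smul_eq_mul]
  field_simp

theorem cv_sqc (hl : l ≠ 0) (h : Mq p q l *ᵥ c = 0) : cv n (sqc l c) = c := by
  have h1 (i : Fin n) : cv n (sqc l c) (.inr i) = c (.inr i) := by
    change sqc l c ((i : ℕ) + 1) = _
    rw [sqc, add_sub_cancel_right, intCast_val,
      Int.ediv_eq_zero_of_lt (by positivity) (by exact_mod_cast i.2), neg_zero, zpow_zero, mul_one]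
  funext i
  rcases i with i | i
  · change cv n (sqc l c) (.inr i) - _ = _
    rw [eig_val (sh_sqc hl), h1, h1]
    exact sub_eq_zero.1 ((Mq_inl i).symm.trans (congrFun h _))
  · exact h1 i

omit [NeZero n] in
theorem isRoot_chi (h : Stab n U) :
    (chi n U).IsRoot l ↔ ∃ y ∈ U, y ≠ 0 ∧ sh K n y = l • y := by
  have := h.fin
  rw [h.chi_eq, ← Module.End.hasEigenvalue_iff_isRoot_charpoly]
  refine ⟨fun k => ?_, fun ⟨y, h1, h2, h3⟩ => Module.End.hasEigenvalue_of_hasEigenvector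
    (x := ⟨y, h1⟩) ⟨Module.End.mem_eigenspace_iff.2 (Subtype.ext h3),
      fun k => h2 (congrArg Subtype.val k)⟩⟩
  obtain ⟨y, h1⟩ := k.exists_hasEigenvector
  exact ⟨y, y.2, fun k => h1.2 (Subtype.ext k), congrArg Subtype.val h1.apply_eq_smul⟩

theorem chi_qd2 (hp : ∀ i, p i ≠ 0) (hq : ∀ i, q i ≠ 0) (hl : l ≠ 0) :
    chi n (solq p q) = qd2 p q l ↔ (chi n (solq p q)).IsRoot l := by
  refine ⟨fun h => by simp [h, qd2], fun h => ?_⟩
  obtain ⟨R, e⟩ := dvd_iff_isRoot.2 h
  have b := band_gq hp hq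
  have h1 : R.Monic := (monic_X_sub_C l).of_mul_monic_left (e ▸ chi_monic _)
  have h2 := b.stab.natDegree_chi.trans b.finrank_sol
  have h3 := b.chi_sol_coeff
  rw [← solq, e] at h2 h3
  rw [(monic_X_sub_C l).natDegree_mul h1, natDegree_X_sub_C] at h2
  rw [Finset.prod_range] at h3
  simp only [gq, intCast_val] at h3
  rw [e, h1.eq_X_add_C (by omega), qd2, lp, sub_eq_add_neg X (C (_ / _)), ← map_neg]
  congr 3
  rw [← neg_div, eq_div_iff hl, Finset.prod_div_distrib]
  simp at h3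
  linear_combination -h3

theorem trel_solq (hp : ∀ i, p i ≠ 0) (hq : ∀ i, q i ≠ 0) :
    TRel n 2 (solq p q) ∧ pU n (solq p q) = p ∧ qU n (solq p q) = q := by
  have b := band_gq hp hq
  have h (i : ℤ) : dU n 2 (solq p q) i = (p (Fin.intCast i))⁻¹ := by
    rw [dU, solq, b.coef_sol]
    exact eq_inv_of_mul_eq_one_right (by simpa using op_gq (q := q) hp 1 i)
  refine ⟨⟨b.rel, fun i => h i ▸ inv_ne_zero (hp _)⟩, funext fun i => ?_, funext fun i => ?_⟩
  · rw [pU, h, inv_inv, intCast_val]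
  · have := hp i
    rw [qU, tU, h, solq, b.coef_sol]
    simp only [gq, intCast_val]
    norm_num
    field_simp

theorem solq_pU (h : TRel n 2 U) :
    (∀ i, pU n U i ≠ 0) ∧ (∀ i, qU n U i ≠ 0) ∧ solq (pU n U) (qU n U) = U := by
  refine ⟨fun i => inv_ne_zero (h.2 _), fun i => tU_ne h _,
    (congrArg (Sol 2) (funext₂ fun i m => ?_)).trans h.1.eq_sol.symm⟩
  have h1 := dU_apply (n := n) (w := 2) U i
  have h2 := h.2 i
  simp only [Finset.sum_range_succ, Finset.range_zero, Finset.sum_empty, h.1.band.one] at h1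
  rw [gq, pU, qU, dU_intCast h.1, per_intCast (tU_add h.1), tU]
  split_ifs with k1 k2 k3
  · rw [k1, h.1.band.one]
  · rw [k2]
    field_simp
    linear_combination h1
  · rw [k3]
    field_simp
  · rw [h.1.band.zero _ _ (by omega)]

theorem chi_solq_iff (hp : ∀ i, p i ≠ 0) (hq : ∀ i, q i ≠ 0) (hl : l ≠ 0) :
    chi n (solq p q) = qd2 p q l ↔ ∃ c, c ≠ 0 ∧ Mq p q l *ᵥ c = 0 := by
  have b := band_gq hp hq
  rw [chi_qd2 hp hq hl, isRoot_chi (U := solq p q) b.stab]
  refine ⟨fun ⟨y, h1, h2, h3⟩ => ⟨_, fun k => h2 (b.eq_zero h1 0 fun t h4 h5 => ?_),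
    (eig_iff hp hq hl h3).1 h1⟩, fun ⟨c, h1, h2⟩ => ⟨sqc l c, ?_, fun k => h1 ?_, sh_sqc hl⟩⟩
  · have k1 : y 1 = 0 := by simpa [cv] using congrFun k (.inr 0)
    have k0 : y 0 = 0 := by simpa [cv, k1] using congrFun k (.inl 0)
    rcases (by omega : t = 0 ∨ t = 1) with rfl | rfl
    exacts [k0, k1]
  · rwa [eig_iff hp hq hl (sh_sqc hl), cv_sqc hl h2]
  · rw [← cv_sqc hl h2, k]
    funext i
    rcases i with i | i <;> simp [cv]

omit [NeZero n] in
theorem sc1_ne {a : Fin n} (hr : r ≠ 0) (hp : ∀ i, p i ≠ 0) (i : Fin n) : sc1 a r p i ≠ 0 := by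
  unfold sc1
  split_ifs
  exacts [mul_ne_zero hr (hp i), hp i]

theorem chi_sc [IsAlgClosed K] (hp : ∀ i, p i ≠ 0) (hq : ∀ i, q i ≠ 0) (hr : r ≠ 0)
    (d : ¬ Dm (.inl 0) (Mq p q 1)) :
    chi n (solq (sc1 0 r p) (sc1 (-1) r q)) = chi n (solq p q) := by
  have b := band_gq hp hq
  obtain ⟨l, h⟩ := IsAlgClosed.exists_root (chi n (solq p q)) fun k => by
    have := b.stab.natDegree_chi.trans b.finrank_sol
    rw [← solq, natDegree_eq_zero_iff_degree_le_zero.2 k.le] at this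
    omega
  have hl : l ≠ 0 := fun k => chi_coeff_zero _ ((coeff_zero_eq_eval_zero _).trans (k ▸ h))
  have h1 := (chi_qd2 hp hq hl).2 h
  rw [h1, (chi_solq_iff (sc1_ne hr hp) (sc1_ne hr hq) hl).2
    (ker_sc (mt (Dm_iff l 1).1 d) ((chi_solq_iff hp hq hl).1 h1)), qd2, lp_sc hr, qd2]

/-- The flag given by a normalized solution. -/
theorem flq_spec (hp : ∀ i, p i ≠ 0) (hq : ∀ i, q i ≠ 0) (hl : l ≠ 0) (h1 : c (.inl 0) = 1)
    (h : Mq p q l *ᵥ c = 0) : Flag n 2 (Finset.Ioo 0 2) (flq p q l c) ∧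
      flq p q l c 2 = solq p q ∧ ev1 n (flq p q l c 1) = l ∧ nv n (flq p q l c 1) = c := by
  have e := sh_sqc (c := c) hl
  have h2 := cv_sqc hl h
  have h3 : sqc l c 1 - sqc l c 0 = 1 := by simpa [cv, h1] using congrFun h2 (.inl 0)
  have h4 : sqc l c ≠ 0 := fun k => by simp [k] at h3
  have h5 : Stab n (Submodule.span K {sqc l c}) := ⟨inferInstance, fun y hy => by
    obtain ⟨a, rfl⟩ := Submodule.mem_span_singleton.1 hy
    rw [map_smul, e, smul_comm]
    exact Submodule.smul_mem _ _ hy⟩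
  have h6 := finrank_span_singleton (K := K) h4
  have m (i : ℕ) : i ∈ Finset.Ioo 0 2 ↔ i = 1 := by rw [Finset.mem_Ioo]; omega
  refine ⟨⟨(trel_solq hp hq).1, ?_, ?_, ?_, ?_, fun i k k' => ?_⟩, rfl, ?_, ?_⟩
  · exact fun i hi => (m i).1 hi ▸ h5
  · exact fun i hi => (m i).1 hi ▸ h6
  · exact fun i hi => (m i).1 hi ▸ (Submodule.span_singleton_le_iff_mem _ _).2
      ((eig_iff hp hq hl e).2 (h2.symm ▸ h))
  · exact fun i hi j hj _ => by rw [(m i).1 hi, (m j).1 hj]
  · rw [flq, if_neg (mt (m i).2 k), if_neg k']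
  · have k := (isRoot_chi h5).2 ⟨_, Submodule.mem_span_singleton_self _, h4, e⟩
    rw [(chi_monic _).eq_X_add_C (h5.natDegree_chi.trans h6)] at k
    exact neg_eq_of_add_eq_zero_left (by simpa [flq] using k)
  · have k : ∃ y ∈ flq p q l c 1, y 1 - y 0 = 1 := ⟨_, Submodule.mem_span_singleton_self _, h3⟩
    obtain ⟨a, k1⟩ := Submodule.mem_span_singleton.1 k.choose_spec.1
    have k2 := k.choose_spec.2
    rw [← k1, Pi.smul_apply, Pi.smul_apply, ← smul_sub, h3, smul_eq_mul, mul_one] at k2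
    rw [nv, dif_pos k, ← k1, k2, one_smul, h2]

section

omit [NeZero n] in
theorem s2_eig (hW : Stab n W) (h1 : finrank K W = 1) {y : Sq K} (hy : y ∈ W) (t : ℤ) :
    y t = ev1 n W * y (t + n) := by
  have := hW.fin
  have e1 : chi n W = X - C (ev1 n W) := by
    rw [ev1, C_neg, sub_neg_eq_add]
    exact (chi_monic W).eq_X_add_C (by rw [hW.natDegree_chi, h1])
  have e2 := LinearMap.aeval_self_charpoly ((sh K n).toLinearMap.restrict hW.mem)
  rw [← hW.chi_eq, e1, map_sub, aeval_X, aeval_C, sub_eq_zero] at e2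
  have e3 := congrFun (congrArg Subtype.val (LinearMap.congr_fun e2 ⟨y, hy⟩)) (t + n)
  simpa using e3

omit [NeZero n] in
theorem s2_ev_ne : ev1 n W ≠ 0 := neg_ne_zero.2 (chi_coeff_zero W)

omit [NeZero n] in
theorem s2_zpow {y : Sq K} (hl : l ≠ 0) (hy : ∀ t, y t = l * y (t + n)) (s k : ℤ) :
    y (s + k * n) = y s * l ^ (-k) := by
  induction k using Int.induction_on with
  | zero => simp
  | succ k ih =>
    have e := hy (s + k * n)
    rw [ih] at e
    rw [show s + (k + 1) * n = s + k * n + n by ring, neg_add, zpow_add₀ hl, ← mul_assoc, e,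
      _root_.zpow_neg_one]
    field_simp
  | pred k ih =>
    rw [hy, show s + (-k - 1) * n + n = s + -k * n by ring, ih,
      show -(-(k : ℤ) - 1) = - -k + 1 by ring, zpow_add₀ hl, zpow_one]
    ring

theorem s2_succ {y : Sq K} (hy : ∀ t, y t = l * y (t + n)) (i : Fin n) (k : ℤ) :
    y (((i + 1 : Fin n) : ℕ) + k) = wr l (i + 1) * y ((i : ℕ) + 1 + k) := by
  have e := val_intCast' (n := n) ((i : ℕ) + 1)
  rw [intCast_succ, intCast_val] at e
  have hi : ((i : ℕ) : ℤ) < n := by exact_mod_cast i.2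
  unfold wr
  split_ifs with h0
  · have e1 : ((i : ℕ) : ℤ) + 1 = n := by
      by_contra e1
      rw [Int.emod_eq_of_lt (by positivity) (by omega), h0, Fin.val_zero] at e
      omega
    rw [h0, e1, Fin.val_zero, hy, Nat.cast_zero, zero_add, add_comm]
  · have e1 : ((i : ℕ) : ℤ) + 1 ≠ n := fun e1 => h0 (Fin.ext (by
      rw [e1, Int.emod_self] at e
      rw [Fin.val_zero]
      exact_mod_cast e))
    rw [Int.emod_eq_of_lt (by positivity) (by omega)] at e
    rw [e, one_mul]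

theorem s2_pred {y : Sq K} (hy : ∀ t, y t = l * y (t + n)) (i : Fin n) :
    wr l i * cv n y (.inr (i - 1)) = y (i : ℕ) := by
  have e := s2_succ hy (i - 1) 0
  rw [sub_add_cancel, add_zero, add_zero] at e
  exact e.symm

theorem s2_mem (hp : ∀ i, p i ≠ 0) {y : Sq K} : y ∈ solq p q ↔ ∀ t : ℤ,
    p (Fin.intCast t) * (y (t + 1) - y t) - q (Fin.intCast t) * (y (t + 1 + 1) - y (t + 1)) -
      y (t + 1) = 0 := by
  rw [solq, mem_Sol]
  refine forall_congr' fun t => ?_
  have := hp (Fin.intCast t)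
  have e : p (Fin.intCast t) * (y (t + 1) - y t) -
      q (Fin.intCast t) * (y (t + 1 + 1) - y (t + 1)) - y (t + 1) =
      -p (Fin.intCast t) * op 2 (gq p q) y t := by
    rw [op_apply, show t + 1 + 1 = t + 2 by ring]
    simp [Finset.sum_range_succ, gq]
    field_simp
    ring
  rw [e, mul_eq_zero, neg_eq_zero, or_iff_right this]

theorem s2_cv (hp : ∀ i, p i ≠ 0) (hl : l ≠ 0) {y : Sq K} (h : y ∈ solq p q)
    (hy : ∀ t, y t = l * y (t + n)) : Mq p q l *ᵥ cv n y = 0 := by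
  funext i
  cases i with
  | inl i =>
    rw [Mq_inl, s2_pred hy]
    simp [cv]
  | inr i =>
    have e := (s2_mem hp).1 h (i : ℕ)
    have e0 := s2_succ hy i 0
    have e1 := s2_succ hy i 1
    have hw : wr l (i + 1) ≠ 0 := by
      unfold wr
      split_ifs
      exacts [hl, one_ne_zero]
    rw [intCast_val] at e
    rw [add_zero, add_zero] at e0
    rw [Mq_inr, Pi.zero_apply, ← e]
    simp only [cv, Sum.elim_inl, Sum.elim_inr, e0, e1]
    field_simp

theorem s2_inl (y : Sq K) : cv n y (.inl 0) = y 1 - y 0 := by simp [cv]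

theorem s2_cv_zero (h : Rel n 2 U) {y : Sq K} (hy : y ∈ U) (e : cv n y = 0) : y = 0 := by
  have e1 : y 1 - y 0 = 0 := (s2_inl (n := n) y).symm.trans (congrFun e _)
  have e2 : y 1 = 0 := by simpa [cv] using congrFun e (.inr 0)
  refine h.eq_zero hy 0 fun t h1 h2 => ?_
  obtain rfl | rfl : t = 0 ∨ t = 1 := by
    push_cast at h2
    omega
  · rwa [e2, zero_sub, neg_eq_zero] at e1
  · exact e2

theorem s2_nv (h : nv n W (.inl 0) ≠ 0) : ∃ y ∈ W, y 1 - y 0 = 1 ∧ nv n W = cv n y := by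
  unfold nv at h ⊢
  split_ifs at h ⊢ with k
  · exact ⟨_, k.choose_spec.1, k.choose_spec.2, rfl⟩
  · exact absurd rfl h

theorem s2_nv_one {y : Sq K} (hy : y ∈ W) (h : y 1 - y 0 ≠ 0) : nv n W (.inl 0) = 1 := by
  have k : ∃ y ∈ W, y 1 - y 0 = 1 := ⟨(y 1 - y 0)⁻¹ • y, W.smul_mem _ hy, by
    rw [Pi.smul_apply, Pi.smul_apply, smul_eq_mul, smul_eq_mul, ← mul_sub, inv_mul_cancel₀ h]⟩
  rw [nv, dif_pos k, s2_inl, k.choose_spec.2]

omit [NeZero n] in
theorem s2_ex (h1 : finrank K W = 1) : ∃ y ∈ W, y ≠ 0 :=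
  Submodule.exists_mem_ne_zero_of_ne_bot fun e => by
    rw [e, finrank_bot] at h1
    exact zero_ne_one h1

omit [NeZero n] in
theorem s2_span (h1 : finrank K W = 1) {y : Sq K} (hy : y ∈ W) (h0 : y ≠ 0) :
    Submodule.span K {y} = W := by
  have : FiniteDimensional K W := FiniteDimensional.of_finrank_eq_succ h1
  exact Submodule.eq_of_le_of_finrank_eq ((Submodule.span_singleton_le_iff_mem _ _).2 hy)
    (by rw [finrank_span_singleton h0, h1])

theorem s2_sqc {y : Sq K} (hl : l ≠ 0) (hy : ∀ t, y t = l * y (t + n)) : sqc l (cv n y) = y := by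
  funext t
  rw [sqc, cv, Sum.elim_inr, val_intCast', ← s2_zpow hl hy]
  congr 1
  have := Int.emod_add_ediv_mul (t - 1) n
  omega

omit [NeZero n] in
theorem s2_dU (h : Rel n 1 W) {y : Sq K} (hy : y ∈ W) (t : ℤ) :
    dU n 1 W t * y (t + 1) = y (t + 1) - y t := by
  have e := mem_Sol.1 (h.eq_sol.le hy) t
  rw [op_apply] at e
  rw [dU, op_apply]
  simp only [Finset.sum_range_succ, Finset.range_zero, Finset.sum_empty, h.band.one, zero_add,
    Nat.cast_zero, add_zero, Nat.cast_one, one_mul, Pi.one_apply, mul_one] at e ⊢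
  linear_combination e

omit [NeZero n] in
theorem s2_ne (h : Rel n 1 W) {y : Sq K} (hy : y ∈ W) (h0 : y ≠ 0) (t : ℤ) : y t ≠ 0 :=
  fun e => h0 (h.eq_zero hy t fun s h1 h2 => by
    obtain rfl : s = t := by
      push_cast at h2
      omega
    exact e)

omit [NeZero n] in
theorem s2_one : 1 ∈ Finset.Ioo 0 2 := by decide

variable (h : Flag n 2 (Finset.Ioo 0 2) x)
include h

omit [NeZero n] in
theorem s2_eigx {y : Sq K} (hy : y ∈ x 1) (t : ℤ) : y t = ev1 n (x 1) * y (t + n) :=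
  s2_eig (h.stab 1 s2_one) (h.rank 1 s2_one) hy t

theorem s2_cvx {y : Sq K} (hy : y ∈ x 1) :
    Mq (pU n (x 2)) (qU n (x 2)) (ev1 n (x 1)) *ᵥ cv n y = 0 :=
  s2_cv (solq_pU h.trel).1 s2_ev_ne ((solq_pU h.trel).2.2.ge (h.le_top 1 s2_one hy))
    (s2_eigx h hy)

theorem ev1_spec : ev1 n (x 1) ≠ 0 ∧
    chi n (x 2) = qd2 (pU n (x 2)) (qU n (x 2)) (ev1 n (x 1)) := by
  obtain ⟨hp, hq, e⟩ := solq_pU h.trel
  obtain ⟨y, hy, h0⟩ := s2_ex (h.rank 1 s2_one)
  refine ⟨s2_ev_ne, ?_⟩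
  have := (chi_solq_iff hp hq (s2_ev_ne (W := x 1))).2
    ⟨cv n y, fun k => h0 (s2_cv_zero h.trel.1 (h.le_top 1 s2_one hy) k), s2_cvx h hy⟩
  rwa [e] at this

theorem nv_spec (h1 : nv n (x 1) (.inl 0) = 1) :
    Mq (pU n (x 2)) (qU n (x 2)) (ev1 n (x 1)) *ᵥ nv n (x 1) = 0 ∧
      flq (pU n (x 2)) (qU n (x 2)) (ev1 n (x 1)) (nv n (x 1)) = x := by
  obtain ⟨y, hy, e1, e2⟩ := s2_nv (h1.trans_ne one_ne_zero)
  rw [e2]
  refine ⟨s2_cvx h hy, funext fun m => ?_⟩
  unfold flq
  split_ifs with k1 k2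
  · rw [k1, s2_sqc s2_ev_ne (s2_eigx h hy)]
    refine s2_span (h.rank 1 s2_one) hy fun k => ?_
    rw [k] at e1
    simp at e1
  · rw [k2]
    exact (solq_pU h.trel).2.2
  · exact (h.bot m (by rw [Finset.mem_Ioo]; omega) k2).symm

theorem nv_iff : nv n (x 1) (.inl 0) = 1 ↔ ∃ y ∈ x 1, y 1 - y 0 ≠ 0 := by
  refine ⟨fun k => ?_, fun ⟨y, hy, k⟩ => s2_nv_one hy k⟩
  have _ := h
  obtain ⟨y, hy, e1, -⟩ := s2_nv (k.trans_ne one_ne_zero)
  exact ⟨y, hy, e1.trans_ne one_ne_zero⟩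

theorem nv_of_Dm (d : Dm (.inl 0) (Mq (pU n (x 2)) (qU n (x 2)) 1)) :
    nv n (x 1) (.inl 0) = 1 := by
  obtain ⟨y, hy, h0⟩ := s2_ex (h.rank 1 s2_one)
  refine s2_nv_one hy fun k => h0 (s2_cv_zero h.trel.1 (h.le_top 1 s2_one hy) ?_)
  exact (Dm_iff 1 (ev1 n (x 1))).1 d _ ((s2_inl y).trans k) fun i _ => congrFun (s2_cvx h hy) i

theorem allRel_iff : AllRel n 2 x ↔ ∀ i, nv n (x 1) i ≠ 0 := by
  constructor
  · intro a
    have a1 := a 1 (by omega)
    have key : ∀ y ∈ x 1, y ≠ 0 → ∀ t, y (t + 1) - y t ≠ 0 := fun y hy h0 t => by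
      rw [← s2_dU a1.1 hy]
      exact mul_ne_zero (a1.2 t) (s2_ne a1.1 hy h0 _)
    obtain ⟨z, hz, z0⟩ := s2_ex (h.rank 1 s2_one)
    have k := key z hz z0 0
    rw [zero_add] at k
    obtain ⟨y, hy, e1, e2⟩ := s2_nv ((s2_nv_one (n := n) hz k).trans_ne one_ne_zero)
    have h0 : y ≠ 0 := fun k => by
      rw [k] at e1
      simp at e1
    rw [e2]
    rintro (i | i)
    exacts [key y hy h0 _, s2_ne a1.1 hy h0 _]
  · intro a
    obtain ⟨y, hy, e1, e2⟩ := s2_nv (a (.inl 0))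
    rw [e2] at a
    have hz := s2_zpow s2_ev_ne (s2_eigx h hy)
    have hl : ∀ k : ℤ, ev1 n (x 1) ^ k ≠ 0 := fun k => zpow_ne_zero k s2_ev_ne
    have k1 : ∀ t, y (t + 1) ≠ 0 := fun t => by
      have e := a (.inr (Fin.intCast t))
      rw [cv, Sum.elim_inr, val_intCast'] at e
      rw [← Int.emod_add_ediv_mul t n, add_right_comm, hz]
      exact mul_ne_zero e (hl _)
    have k2 : ∀ t, y (t + 1) - y t ≠ 0 := fun t => by
      have e := a (.inl (Fin.intCast t))
      rw [cv, Sum.elim_inl, val_intCast'] at e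
      rw [← Int.emod_add_ediv_mul t n, add_right_comm, hz, hz, ← sub_mul]
      exact mul_ne_zero e (hl _)
    have h0 : y ≠ 0 := fun k => k1 0 (congrFun k _)
    have r1 : Rel n 1 (x 1) := rel_iff.2 ⟨h.stab 1 s2_one, h.rank 1 s2_one, fun z hz i hi => by
      rw [← s2_span (h.rank 1 s2_one) hy h0] at hz
      obtain ⟨c, rfl⟩ := Submodule.mem_span_singleton.1 hz
      have e := hi i le_rfl (by simp)
      have e' := k1 (i - 1)
      rw [sub_add_cancel] at e'
      rw [(mul_eq_zero.1 e).resolve_right e', zero_smul]⟩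
    intro i hi
    obtain rfl | rfl | rfl : i = 0 ∨ i = 1 ∨ i = 2 := by omega
    · exact trel_zero_iff.2 (h.bot 0 (by decide) (by omega))
    · exact ⟨r1, fun t k => k2 t (by rw [← s2_dU r1 hy, k, zero_mul])⟩
    · exact h.trel

/-- The operators of order one in terms of the normalized solution. -/
theorem jmap_two (a : AllRel n 2 x) (i : Fin n) :
    1 / (1 - jmap n 2 x 0 i) = nv n (x 1) (.inr i) / nv n (x 1) (.inl i) ∧
    jmap n 2 x 0 i / (1 - jmap n 2 x 0 i) =
      wr (ev1 n (x 1)) i * nv n (x 1) (.inr (i - 1)) / nv n (x 1) (.inl i) ∧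
    1 / (1 - jmap n 2 x 1 i) = pU n (x 2) i * nv n (x 1) (.inl i) / nv n (x 1) (.inr i) ∧
    jmap n 2 x 1 i / (1 - jmap n 2 x 1 i) = qU n (x 2) i / wr (ev1 n (x 1)) (i + 1) *
      nv n (x 1) (.inl (i + 1)) / nv n (x 1) (.inr i) := by
  have a' := (allRel_iff h).1 a
  obtain ⟨y, hy, -, e2⟩ := s2_nv (a' (.inl 0))
  have e3 := congrFun (s2_cvx h hy) (.inr i)
  have e4 := s2_pred (s2_eigx h hy) i
  have e5 := s2_dU (a 1 (by omega)).1 hy (i : ℕ)
  have e6 : jmap n 2 x 0 i = 1 - dU n 1 (x 1) (i : ℕ) := by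
    rw [jmap, if_pos a]
    exact congrArg (1 - ·) ((congrArg (_ / ·) (dU_zero (a 0 (by omega)).1 _)).trans (div_one _))
  have e7 : jmap n 2 x 1 i = 1 - dU n 2 (x 2) (i : ℕ) / dU n 1 (x 1) (i : ℕ) := by
    rw [jmap, if_pos a]
    rfl
  have n1 := a' (.inl i)
  have n2 := a' (.inr i)
  have n3 := h.trel.2 (i : ℕ)
  rw [Mq_inr, Pi.zero_apply] at e3
  rw [e2] at n1 n2 ⊢
  have e8 : dU n 1 (x 1) (i : ℕ) = cv n y (.inl i) / cv n y (.inr i) := eq_div_of_mul_eq n2 e5
  have e9 : y (i : ℕ) = cv n y (.inr i) - cv n y (.inl i) := (sub_sub_cancel _ _).symm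
  have e10 : qU n (x 2) i / wr (ev1 n (x 1)) (i + 1) * cv n y (.inl (i + 1)) =
      pU n (x 2) i * cv n y (.inl i) - cv n y (.inr i) := by linear_combination -e3
  rw [e4, e10, e9, e6, e7, e8, sub_sub_cancel, sub_sub_cancel, pU]
  refine ⟨?_, ?_, ?_, ?_⟩ <;> field_simp

/-- Outside the chart the line stays in the scaled space. -/
theorem flag_sc (h1 : nv n (x 1) (.inl 0) ≠ 1) (hr : r ≠ 0) :
    Flag n 2 (Finset.Ioo 0 2)
      (Function.update x 2 (solq (sc1 0 r (pU n (x 2))) (sc1 (-1) r (qU n (x 2))))) ∧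
    chi n (solq (sc1 0 r (pU n (x 2))) (sc1 (-1) r (qU n (x 2)))) = chi n (x 2) := by
  obtain ⟨hp, hq, e⟩ := solq_pU h.trel
  have sc : ∀ (a : Fin n) (p : Fin n → K), (∀ i, p i ≠ 0) → ∀ i, sc1 a r p i ≠ 0 :=
    fun a p hp i => by
      unfold sc1
      split_ifs
      exacts [mul_ne_zero hr (hp i), hp i]
  obtain ⟨t1, t2, t3⟩ := trel_solq (sc 0 _ hp) (sc (-1) _ hq)
  have le : x 1 ≤ solq (sc1 0 r (pU n (x 2))) (sc1 (-1) r (qU n (x 2))) := fun y hy => by
    have k0 : y 1 - y 0 = 0 := by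
      by_contra k
      exact h1 (s2_nv_one hy k)
    have hz := s2_zpow s2_ev_ne (s2_eigx h hy)
    have k1 : ∀ t : ℤ, (Fin.intCast t : Fin n) = 0 → y (t + 1) - y t = 0 := fun t ht => by
      have e := val_intCast' (n := n) t
      rw [ht, Fin.val_zero, Nat.cast_zero] at e
      rw [← Int.emod_add_ediv_mul t n, ← e, add_right_comm, hz, hz, ← sub_mul, zero_add, k0,
        zero_mul]
    refine (s2_mem (sc 0 _ hp)).2 fun t => ?_
    rw [← (s2_mem hp).1 (e.ge (h.le_top 1 s2_one hy)) t]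
    congr 2
    · unfold sc1
      split_ifs with k
      · rw [k1 t k, mul_zero, mul_zero]
      · rfl
    · unfold sc1
      split_ifs with k
      · rw [k1 (t + 1) (by rw [intCast_succ, k, neg_add_cancel]), mul_zero, mul_zero]
      · rfl
  have u1 : ∀ V : Sp K, Function.update x 2 V 1 = x 1 := fun V =>
    Function.update_of_ne (by omega) _ _
  have o : ∀ i ∈ Finset.Ioo 0 2, i = 1 := fun i hi => by
    rw [Finset.mem_Ioo] at hi
    omega
  have F : Flag n 2 (Finset.Ioo 0 2)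
      (Function.update x 2 (solq (sc1 0 r (pU n (x 2))) (sc1 (-1) r (qU n (x 2))))) := by
    refine ⟨by rwa [Function.update_self], fun i hi => ?_, fun i hi => ?_, fun i hi => ?_,
      fun i hi j hj _ => ?_, fun i hi k => ?_⟩
    · rw [o i hi, u1]
      exact h.stab 1 s2_one
    · rw [o i hi, u1]
      exact h.rank 1 s2_one
    · rwa [o i hi, u1, Function.update_self]
    · rw [o i hi, o j hj]
    · rw [Function.update_of_ne k]
      exact h.bot i hi k
  refine ⟨F, ?_⟩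
  have e1 := (ev1_spec F).2
  rw [Function.update_self, u1, t2, t3] at e1
  rw [e1, (ev1_spec h).2, qd2, qd2, lp_sc hr]

end

end Sol

end

theorem fU_two {K : Type} [Field K] {n : ℕ} [Ex n] (s : ℕ) (U : Sp K) :
    fU n s 2 U = (∏ i, pU n U i ^ Ex.b i) * ∏ i, qU n U i ^ Ex.a (pr n (s + 1) i) := by
  rw [fU, ← Finset.prod_mul_distrib]
  refine Finset.prod_congr rfl fun i _ => ?_
  rw [pU, qU, _root_.inv_zpow', aZ, ← intCast_pr,
    show ((i : ℕ) : ℤ) + s + (2 : ℕ) = (i : ℕ) + (s + 1 : ℕ) + 1 by omega]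

end Pool.Agent.Lib.MP_fc2ced_ag.T.G
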