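import Pool.Agent.Lib.MP_fc2ced_ag.G.Geo
import Pool.Agent.Lib.MP_fc2ced_ag.G.Two
import Pool.Agent.Lib.MP_fc2ced_ag.G.Mer
import Pool.Agent.Lib.MP_fc2ced_ag.G.InsAux

/-! The step variety of a hypergeometric datum. -/

open CategoryTheory hiding forget
open Function Polynomial

namespace Pool.Agent.Lib.MP_fc2ced_ag.T.G

open K

noncomputable section

variable {k : Type} [Field k] {F : Type} [Field F] {χ : Chr k F}

open MP_fc2ced_ag.T.Pt hiding X

/-- The variables of nonzero weight. -/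
abbrev Kp (n : ℕ) := Fin n ⊕ Fin n

/-- The variables of weight zero. -/
abbrev Rh (n r : ℕ) := (Fin n × Fin n) ⊕ (Fin n × Fin n) ⊕ Fin r

variable (k) in
/-- The coefficients of the linear equation. -/
def epsG (n r : ℕ) : Kp n ⊕ Rh n r → k :=
  Sum.elim (Sum.elim (fun _ => 1) fun _ => -1) (Sum.elim (fun _ => -1) fun _ => 1)

/-- The weights. -/
def gam (n : ℕ) : Kp n → ℤ := Sum.elim (fun _ => -1) fun _ => 1

variable (n : ℕ) [Ex n] {r : ℕ} (e : Fin r → ℤ) (s : ℕ)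

/-- The exponents. -/
def cG : Kp n ⊕ Rh n r → ℤ :=
  Sum.elim (Sum.elim Ex.b Ex.a) (Sum.elim (fun g => -(Ex.b g.1 + Ex.a g.2))
    (Sum.elim (fun g => Ex.b g.1 + Ex.a g.2) e))

/-- The exponents of the twist. -/
def cJ : Fin n ⊕ Fin r → ℤ := Sum.elim (fun i => Ex.b i + Ex.a (pr n s i)) e

variable (k) in
/-- The twist. -/
@[reducible] def twG (n r : ℕ) : Pt k :=
  ((hy (ι := Fin n ⊕ Fin r) (fun _ => 1) fun _ => 0).prod ((line k).pi (Fin n × Fin n))).prod
    (line k)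

variable {n} in
/-- The map to the step variety. -/
def ioG (r s : ℕ) ⦃K : Fld k⦄ (x : (Fin n → K) × (twG k n r).X K) : (Kp n ⊕ Rh n r → K) × K :=
  (Sum.elim (Sum.elim (fun i => x.2.1.2 (i, pr n s i) / (1 - x.1 i))
      fun j => x.2.1.2 ((pr n s).symm j, j) * (x.1 ((pr n s).symm j) / (1 - x.1 ((pr n s).symm j))))
    (Sum.elim x.2.1.2 (Sum.elim
      (fun g => if g.2 = pr n s g.1 then x.2.1.1 (.inl g.1) else x.2.1.2 g)
      fun j => x.2.1.1 (.inr j))), x.2.2)

theorem sum_gam : ∑ u, gam n u = 0 := by simp [gam]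

theorem reg_gG : (twG k n r).RegF fun _ u => ∏ m, u.1.1 m ^ cJ n e s m :=
  fun _ _ _ _ _ _ b h => Place.prod fun m _ => rel_zpow (h.1.1 m) (b.1.1.1.2 m) _

theorem ne_gG ⦃K : Fld k⦄ (u : (twG k n r).X K) (h : (twG k n r).L u) :
    ∏ m, u.1.1 m ^ cJ n e s m ≠ 0 :=
  Finset.prod_ne_zero_iff.2 fun m _ => zpow_ne_zero _ (h.1.1.1.2 m)

/-- The exponents on the auxiliary torus. -/
def insC : Kp n ⊕ (Fin n × Fin n) ⊕ Fin r → ℤ :=
  Sum.elim (Sum.elim Ex.b Ex.a) (Sum.elim (fun g => Ex.b g.1 + Ex.a g.2) e)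

variable (k) in
/-- The auxiliary torus. -/
@[reducible] def insV : PV k where
  S := (mt k (insC n e)).prod (line k)
  c _ x _ := X - C (ell (gam n) x.1)
  hc _ _ _ _ _ _ _ b r := Place.PR.X.sub (.C (Place.prod fun _ _ => rel_zpow (r.1 _) (b.1.2 _) _))

variable {n} in
/-- The equation without multiplier. -/
def insR0 {K : Type} [Field K] (t : Kp n ⊕ (Fin n × Fin n) ⊕ Fin r → K) : K :=
  ∑ i, t (.inr (.inl (i, pr n s i))) + ∑ j, t (.inr (.inr j)) + 1

variable {n} in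
/-- The equations with multipliers. -/
def insR {K : Type} [Field K] (g : Fin n × Fin n) (t : Kp n ⊕ (Fin n × Fin n) ⊕ Fin r → K) : K :=
  if g.2 = pr n s g.1 then t (.inl (.inl g.1)) - t (.inl (.inr g.2)) - 1 else t (.inr (.inl g)) - 1

variable (k) in
theorem ins_reg0 : (insV k n e).S.RegF fun _ x => insR0 s x.1 := fun _ _ φ _ _ _ _ r =>
  ((Place.sum fun _ _ => r.1 _).add (Place.sum fun _ _ => r.1 _)).add φ.one

variable (k) in
theorem ins_reg (g : Fin n × Fin n) : (insV k n e).S.RegF fun _ x => insR s g x.1 :=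
  fun _ _ φ _ _ _ _ r => by
    unfold insR
    split_ifs
    exacts [((r.1 _).sub (r.1 _)).sub φ.one, (r.1 _).sub φ.one]

theorem ins_ell {K ρ : Type} [Field K] (t : Kp n ⊕ ρ → K) :
    ell (gam n) t = ∏ i, t (.inl (.inr (pr n s i))) / t (.inl (.inl i)) := by
  simp only [ell, gam, Fintype.prod_sum_type, Sum.elim_inl, Sum.elim_inr, zpow_neg, zpow_one]
  rw [← Equiv.prod_comp (pr n s) fun j => t (.inl (.inr j)), ← Finset.prod_mul_distrib]
  exact Finset.prod_congr rfl fun i _ => inv_mul_eq_div _ _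

theorem ins_prod {M : Type} [CommMonoid M] (a : Fin n → M) (b : Fin n × Fin n → M) :
    ∏ g : Fin n × Fin n, (if g.2 = pr n s g.1 then a g.1 else b g) =
      (∏ i, a i) * ∏ g : Fin n × Fin n, if g.2 = pr n s g.1 then 1 else b g := by
  have : ∏ g : Fin n × Fin n, (if g.2 = pr n s g.1 then a g.1 else 1) = ∏ i, a i := by
    simp [Fintype.prod_prod_type]
  rw [← this, ← Finset.prod_mul_distrib]
  exact Finset.prod_congr rfl fun g _ => by split_ifs <;> simp

theorem ins_sum {M : Type} [AddCommMonoid M] (a : Fin n → M) (b : Fin n × Fin n → M) :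
    ∑ g : Fin n × Fin n, (if g.2 = pr n s g.1 then a g.1 else b g) =
      (∑ i, a i) + ∑ g : Fin n × Fin n, if g.2 = pr n s g.1 then 0 else b g := by
  have : ∑ g : Fin n × Fin n, (if g.2 = pr n s g.1 then a g.1 else 0) = ∑ i, a i := by
    simp [Fintype.sum_prod_type]
  rw [← this, ← Finset.sum_add_distrib]
  exact Finset.sum_congr rfl fun g _ => by split_ifs <;> simp

variable {n} in
/-- The chart of the source. -/
def insA (r s : ℕ) ⦃K : Fld k⦄ (x : (Fin n → K) × (twG k n r).X K) :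
    ((Kp n ⊕ (Fin n × Fin n) ⊕ Fin r → K) × K) × (Fin n × Fin n → K) :=
  ((Sum.elim (Sum.elim (fun i => 1 / (1 - x.1 i))
      fun j => x.1 ((pr n s).symm j) / (1 - x.1 ((pr n s).symm j)))
    (Sum.elim (fun g => if g.2 = pr n s g.1 then x.2.1.1 (.inl g.1) else 1)
      fun j => x.2.1.1 (.inr j)), x.2.2), x.2.1.2)

variable {n} in
/-- Its inverse. -/
def insA' (r s : ℕ) ⦃K : Fld k⦄
    (y : ((Kp n ⊕ (Fin n × Fin n) ⊕ Fin r → K) × K) × (Fin n × Fin n → K)) :
    (Fin n → K) × (twG k n r).X K :=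
  (fun i => y.1.1 (.inl (.inr (pr n s i))) / y.1.1 (.inl (.inl i)),
    (Sum.elim (fun i => y.1.1 (.inr (.inl (i, pr n s i)))) fun j => y.1.1 (.inr (.inr j)), y.2),
    y.1.2)

variable {n} in
/-- The chart of the target. -/
def insB (r s : ℕ) ⦃K : Fld k⦄
    (y : ((Kp n ⊕ (Fin n × Fin n) ⊕ Fin r → K) × K) × (Fin n × Fin n → K)) :
    (Kp n ⊕ Rh n r → K) × K :=
  (Sum.elim (Sum.elim (fun i => y.2 (i, pr n s i) * y.1.1 (.inl (.inl i)))
      fun j => y.2 ((pr n s).symm j, j) * y.1.1 (.inl (.inr j)))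
    (Sum.elim y.2 (Sum.elim
      (fun g => (if g.2 = pr n s g.1 then 1 else y.2 g) * y.1.1 (.inr (.inl g)))
      fun j => y.1.1 (.inr (.inr j)))), y.1.2)

variable {n} in
/-- Its inverse. -/
def insB' (r s : ℕ) ⦃K : Fld k⦄ (z : (Kp n ⊕ Rh n r → K) × K) :
    ((Kp n ⊕ (Fin n × Fin n) ⊕ Fin r → K) × K) × (Fin n × Fin n → K) :=
  ((Sum.elim (Sum.elim (fun i => z.1 (.inl (.inl i)) / z.1 (.inr (.inl (i, pr n s i))))
      fun j => z.1 (.inl (.inr j)) / z.1 (.inr (.inl ((pr n s).symm j, j))))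
    (Sum.elim (fun g => z.1 (.inr (.inr (.inl g))) /
      if g.2 = pr n s g.1 then 1 else z.1 (.inr (.inl g)))
      fun j => z.1 (.inr (.inr (.inr j)))), z.2), fun g => z.1 (.inr (.inl g)))

theorem ins_lin {K : Fld k} (u : Fin n ⊕ Fin r → K) :
    lin (fun _ => (1 : k)) u = ∑ i, u (.inl i) + ∑ j, u (.inr j) := by
  simp [lin]

theorem regA : ((bx k n s).prod ((twG k n r).withF _ (reg_gG n e s) (ne_gG n e s))).Reg
    (radR (ins_reg0 k n e s) (ins_reg k n e s)) (insA r s) where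
  live _ x h := by
    have h1 := fun i => sub_ne_zero.2 (h.1.2 i).2.symm
    refine ⟨⟨⟨⟨fun _ => trivial, ?_⟩, trivial⟩, fun _ => trivial⟩, ?_, fun g => ?_⟩
    · rintro ((i | j) | g | j)
      · exact one_div_ne_zero (h1 i)
      · exact div_ne_zero (h.1.2 _).1 (h1 _)
      · show (if g.2 = pr n s g.1 then _ else _) ≠ 0
        split_ifs
        exacts [h.2.1.1.1.2 _, one_ne_zero]
      · exact h.2.1.1.1.2 _
    · have := (congrArg (· + 1) (ins_lin n _)).symm.trans h.2.1.1.2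
      simpa [insR0, insA] using this
    · have := h1 g.1
      by_cases c : g.2 = pr n s g.1 <;> simp [insR, insA, c]
      field_simp
      ring
  reg _ _ φ x y _ h a := by
    have h1 := fun i => sub_ne_zero.2 (h.1.2 i).2.symm
    refine ⟨⟨?_, a.2.2⟩, a.2.1.2⟩
    rintro ((i | j) | g | j)
    · exact φ.one.div (φ.one.sub (a.1 i)) (h1 i)
    · exact (a.1 _).div (φ.one.sub (a.1 _)) (h1 _)
    · show φ (if _ then _ else _) (if _ then _ else _)
      split_ifs
      exacts [a.2.1.1 _, φ.one]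
    · exact a.2.1.1 _

theorem ins_pair {K : Type} [Field K] {t : Kp n ⊕ (Fin n × Fin n) ⊕ Fin r → K}
    (h : ∀ g, insR s g t = 0) (i : Fin n) :
    t (.inl (.inl i)) = t (.inl (.inr (pr n s i))) + 1 := by
  have := h (i, pr n s i)
  rw [insR, if_pos rfl] at this
  linear_combination this

theorem regA' : (radR (ins_reg0 k n e s) (ins_reg k n e s)).Reg
    ((bx k n s).prod ((twG k n r).withF _ (reg_gG n e s) (ne_gG n e s))) (insA' r s) where
  live _ y h := by
    refine ⟨⟨fun _ => trivial, fun i => ⟨div_ne_zero (h.1.1.1.2 _) (h.1.1.1.2 _), fun c => ?_⟩⟩,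
      ⟨⟨⟨fun _ => trivial, ?_⟩, ?_⟩, fun _ => trivial⟩, trivial⟩
    · have := ins_pair n s h.2.2 i
      rw [(div_eq_one_iff_eq (h.1.1.1.2 _)).1 c] at this
      simp at this
    · rintro (i | j) <;> exact h.1.1.1.2 _
    · exact (congrArg (· + 1) (ins_lin n _)).trans h.2.1
  reg _ _ _ _ _ _ h a := ⟨fun _ => (a.1.1 _).div (a.1.1 _) (h.1.1.1.2 _),
    ⟨by rintro (i | j) <;> exact a.1.1 _, a.2⟩, a.1.2⟩

theorem insA'_A ⦃K : Fld k⦄ (x : (Fin n → K) × (twG k n r).X K) (h : ∀ i, x.1 i ≠ 1) :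
    insA' r s (insA r s x) = x := by
  refine Prod.ext (funext fun i => ?_) (Prod.ext (Prod.ext (funext ?_) rfl) rfl)
  · have := sub_ne_zero.2 (h i).symm
    simp only [insA', insA, Sum.elim_inl, Sum.elim_inr, Equiv.symm_apply_apply]
    field_simp
  · rintro (i | j) <;> simp [insA', insA]

theorem insA_A' ⦃K : Fld k⦄
    (y : ((Kp n ⊕ (Fin n × Fin n) ⊕ Fin r → K) × K) × (Fin n × Fin n → K))
    (h : (radR (ins_reg0 k n e s) (ins_reg k n e s)).L y) : insA r s (insA' r s y) = y := by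
  have key : ∀ i, 1 - y.1.1 (.inl (.inr (pr n s i))) / y.1.1 (.inl (.inl i)) =
      1 / y.1.1 (.inl (.inl i)) := fun i => by
    have h0 := h.1.1.1.2 (.inl (.inl i))
    have := ins_pair n s h.2.2 i
    field_simp
    linear_combination this
  refine Prod.ext (Prod.ext (funext ?_) rfl) rfl
  rintro ((i | j) | ⟨i, j⟩ | j)
  · simp only [insA', insA, Sum.elim_inl, key, one_div_one_div]
  · have h0 := h.1.1.1.2 (.inl (.inl ((pr n s).symm j)))
    simp only [insA', insA, Sum.elim_inl, Sum.elim_inr, key]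
    rw [Equiv.apply_symm_apply]
    field_simp
  · have := h.2.2 (i, j)
    by_cases c : j = pr n s i
    · simp [insA', insA, c]
    · simp only [insR, if_neg c] at this
      simp only [insA', insA, Sum.elim_inl, Sum.elim_inr, if_neg c]
      exact (sub_eq_zero.1 this).symm
  · rfl

theorem mapA : IsMap ((bx k n s).prod ((twG k n r).withF _ (reg_gG n e s) (ne_gG n e s)))
    (radR (ins_reg0 k n e s) (ins_reg k n e s)) (insA r s) := by
  refine .of_inv (regA n e s) (regA' n e s) (fun K x h => ?_)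
    fun _ x h => insA'_A n s x fun i => (h.1.2 i).2
  show (∏ m, (insA r s x).1.1 m ^ insC n e m) * 1 * ∏ _g : Fin n × Fin n, (1 : K) =
    fA n s x.1 * ∏ m, x.2.1.1 m ^ cJ n e s m
  have e1 : ∀ g : Fin n × Fin n, (if g.2 = pr n s g.1 then x.2.1.1 (.inl g.1) else 1) ^
      (Ex.b g.1 + Ex.a g.2) = if g.2 = pr n s g.1 then
        x.2.1.1 (.inl g.1) ^ (Ex.b g.1 + Ex.a (pr n s g.1)) else 1 := fun g => by
    split_ifs with c
    exacts [by rw [c], one_zpow _]
  simp only [Fintype.prod_sum_type, insA, insC, cJ, fA, aZ, intCast_pr, Sum.elim_inl, Sum.elim_inr,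
    e1, Finset.prod_const_one, mul_one, Finset.prod_mul_distrib, one_div, inv_zpow']
  rw [ins_prod n s fun i => x.2.1.1 (.inl i) ^ (Ex.b i + Ex.a (pr n s i)),
    ← Equiv.prod_comp (pr n s) fun j => (x.1 ((pr n s).symm j) / (1 - x.1 ((pr n s).symm j))) ^ _]
  simp

theorem ins_eq {K : Fld k}
    (y : ((Kp n ⊕ (Fin n × Fin n) ⊕ Fin r → K) × K) × (Fin n × Fin n → K)) :
    lin (epsG k n r) (insB r s y).1 + 1 = insR0 s y.1.1 + ∑ g, y.2 g * insR s g y.1.1 := by
  have e1 : ∀ g : Fin n × Fin n, y.2 g * insR s g y.1.1 + y.2 g = if g.2 = pr n s g.1 then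
      y.2 (g.1, pr n s g.1) * (y.1.1 (.inl (.inl g.1)) - y.1.1 (.inl (.inr (pr n s g.1))))
      else y.2 g * y.1.1 (.inr (.inl g)) := fun ⟨i, j⟩ => by
    unfold insR
    split_ifs with c
    · obtain rfl : j = pr n s i := c
      ring
    · ring
  have e2 : ∀ g : Fin n × Fin n, (if g.2 = pr n s g.1 then 1 else y.2 g) * y.1.1 (.inr (.inl g)) =
      if g.2 = pr n s g.1 then y.1.1 (.inr (.inl (g.1, pr n s g.1)))
      else y.2 g * y.1.1 (.inr (.inl g)) := fun ⟨i, j⟩ => by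
    split_ifs with c
    · obtain rfl : j = pr n s i := c
      exact one_mul _
    · rfl
  have e3 := Finset.sum_congr rfl fun g (_ : g ∈ Finset.univ) => e1 g
  rw [Finset.sum_add_distrib, ins_sum n s fun i =>
    y.2 (i, pr n s i) * (y.1.1 (.inl (.inl i)) - y.1.1 (.inl (.inr (pr n s i))))] at e3
  simp only [lin, Fintype.sum_sum_type, epsG, insB, insR0, Sum.elim_inl, Sum.elim_inr, map_one,
    map_neg, one_mul, neg_mul, e2, Finset.sum_neg_distrib]
  rw [ins_sum n s fun i => y.1.1 (.inr (.inl (i, pr n s i))),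
    ← Equiv.sum_comp (pr n s) fun j => y.2 ((pr n s).symm j, j) * y.1.1 (.inl (.inr j))]
  simp only [Equiv.symm_apply_apply, mul_sub, Finset.sum_sub_distrib] at e3 ⊢
  linear_combination -e3

theorem insB_B' ⦃K : Fld k⦄ (z : (Kp n ⊕ Rh n r → K) × K) (h : ∀ m, z.1 m ≠ 0) :
    insB r s (insB' r s z) = z := by
  refine Prod.ext (funext ?_) rfl
  rintro ((i | j) | g | g | j)
  · exact mul_div_cancel₀ _ (h _)
  · exact mul_div_cancel₀ _ (h _)
  · rfl
  · refine mul_div_cancel₀ _ ?_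
    show (if g.2 = pr n s g.1 then _ else _) ≠ 0
    split_ifs
    exacts [one_ne_zero, h _]
  · rfl

theorem insB'_B ⦃K : Fld k⦄
    (y : ((Kp n ⊕ (Fin n × Fin n) ⊕ Fin r → K) × K) × (Fin n × Fin n → K)) (h : ∀ g, y.2 g ≠ 0) :
    insB' r s (insB r s y) = y := by
  refine Prod.ext (Prod.ext (funext ?_) rfl) rfl
  rintro ((i | j) | g | j)
  · exact mul_div_cancel_left₀ _ (h _)
  · exact mul_div_cancel_left₀ _ (h _)
  · refine mul_div_cancel_left₀ _ ?_
    show (if g.2 = pr n s g.1 then _ else _) ≠ 0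
    split_ifs
    exacts [one_ne_zero, h _]
  · rfl

theorem regB : (radW (ins_reg0 k n e s) (ins_reg k n e s) Set.univ).Reg
    (stp (epsG k n r) (cG n e)) (insB r s) where
  live _ y h := by
    refine ⟨⟨⟨fun _ => trivial, ?_⟩, (ins_eq n s y).trans h.2.1⟩, trivial⟩
    rintro ((i | j) | g | g | j)
    · exact mul_ne_zero (h.2.2 _ trivial) (h.1.1.1.2 _)
    · exact mul_ne_zero (h.2.2 _ trivial) (h.1.1.1.2 _)
    · exact h.2.2 _ trivial
    · refine mul_ne_zero ?_ (h.1.1.1.2 _)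
      split_ifs
      exacts [one_ne_zero, h.2.2 _ trivial]
    · exact h.1.1.1.2 _
  reg _ _ φ _ _ _ _ a := by
    refine ⟨?_, a.1.2⟩
    rintro ((i | j) | g | g | j)
    · exact (a.2 _).mul (a.1.1 _)
    · exact (a.2 _).mul (a.1.1 _)
    · exact a.2 _
    · refine Place.R.mul ?_ (a.1.1 _)
      split_ifs
      exacts [φ.one, a.2 _]
    · exact a.1.1 _

theorem regB' : (stp (epsG k n r) (cG n e)).Reg
    (radW (ins_reg0 k n e s) (ins_reg k n e s) Set.univ) (insB' r s) where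
  live _ z h := by
    refine ⟨⟨⟨⟨fun _ => trivial, ?_⟩, trivial⟩, fun _ => trivial⟩,
      (ins_eq n s (insB' r s z)).symm.trans ?_, fun _ _ => h.1.1.2 _⟩
    · rintro ((i | j) | g | j)
      · exact div_ne_zero (h.1.1.2 _) (h.1.1.2 _)
      · exact div_ne_zero (h.1.1.2 _) (h.1.1.2 _)
      · refine div_ne_zero (h.1.1.2 _) ?_
        split_ifs
        exacts [one_ne_zero, h.1.1.2 _]
      · exact h.1.1.2 _
    · rw [insB_B' n s z h.1.1.2]
      exact h.1.2
  reg _ _ φ _ _ _ h a := by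
    refine ⟨⟨?_, a.2⟩, fun _ => a.1 _⟩
    rintro ((i | j) | g | j)
    · exact (a.1 _).div (a.1 _) (h.1.1.2 _)
    · exact (a.1 _).div (a.1 _) (h.1.1.2 _)
    · refine (a.1 _).div ?_ ?_ <;> split_ifs
      exacts [φ.one, a.1 _, one_ne_zero, h.1.1.2 _]
    · exact a.1 _

theorem mapB : IsMap (radW (ins_reg0 k n e s) (ins_reg k n e s) Set.univ)
    (stp (epsG k n r) (cG n e)) (insB r s) := by
  refine .of_inv (regB n e s) (regB' n e s) (fun K y h => ?_)
    fun _ y h => insB'_B n s y fun g => h.2.2 g trivial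
  show (∏ m, (insB r s y).1 m ^ cG n e m) * 1 =
    (∏ m, y.1.1 m ^ insC n e m) * 1 * ∏ _g : Fin n × Fin n, (1 : K)
  have h0 : ∀ g, y.2 g ≠ 0 := fun g => h.2.2 g trivial
  have e1 : ∀ g : Fin n × Fin n, y.2 g ^ (-(Ex.b g.1 + Ex.a g.2)) *
      (if g.2 = pr n s g.1 then 1 else y.2 g) ^ (Ex.b g.1 + Ex.a g.2) = if g.2 = pr n s g.1 then
        (y.2 (g.1, pr n s g.1) ^ Ex.b g.1 * y.2 (g.1, pr n s g.1) ^ Ex.a (pr n s g.1))⁻¹
        else 1 := fun ⟨i, j⟩ => by
    split_ifs with c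
    · obtain rfl : j = pr n s i := c
      rw [one_zpow, mul_one, zpow_neg, zpow_add₀ (h0 _)]
    · rw [zpow_neg, inv_mul_cancel₀ (zpow_ne_zero _ (h0 _))]
  have e3 := Finset.prod_congr rfl fun g (_ : g ∈ Finset.univ) => e1 g
  rw [Finset.prod_mul_distrib, ins_prod n s fun i =>
    (y.2 (i, pr n s i) ^ Ex.b i * y.2 (i, pr n s i) ^ Ex.a (pr n s i))⁻¹] at e3
  have n1 : ∏ i, y.2 (i, pr n s i) ^ Ex.b i ≠ 0 :=
    Finset.prod_ne_zero_iff.2 fun _ _ => zpow_ne_zero _ (h0 _)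
  have n2 : ∏ i, y.2 (i, pr n s i) ^ Ex.a (pr n s i) ≠ 0 :=
    Finset.prod_ne_zero_iff.2 fun _ _ => zpow_ne_zero _ (h0 _)
  simp only [Fintype.prod_sum_type, insB, insC, cG, Sum.elim_inl, Sum.elim_inr, mul_zpow,
    Finset.prod_const_one, mul_one, Finset.prod_mul_distrib]
  rw [← Equiv.prod_comp (pr n s) fun j => y.2 ((pr n s).symm j, j) ^ Ex.a j]
  simp only [Equiv.symm_apply_apply, ite_self, Finset.prod_const_one, mul_one,
    Finset.prod_inv_distrib, Finset.prod_mul_distrib] at e3 ⊢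
  replace e3 := (congrArg (· * _) e3).trans (inv_mul_cancel₀ (mul_ne_zero n1 n2))
  linear_combination (∏ i, y.1.1 (.inl (.inl i)) ^ Ex.b i) * (∏ j, y.1.1 (.inl (.inr j)) ^ Ex.a j) *
    (∏ g : Fin n × Fin n, y.1.1 (.inr (.inl g)) ^ (Ex.b g.1 + Ex.a g.2)) *
    (∏ j, y.1.1 (.inr (.inr j)) ^ e j) * e3

theorem ioG_eq ⦃K : Fld k⦄ (x : (Fin n → K) × (twG k n r).X K) :
    ioG r s x = insB r s (insA r s x) := by
  refine Prod.ext (funext ?_) rfl
  rintro ((i | j) | g | g | j)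
  · exact div_eq_mul_one_div _ _
  · rfl
  · rfl
  · simp only [ioG, insA, insB, Sum.elim_inl, Sum.elim_inr]
    split_ifs <;> simp
  · rfl

theorem mapA' : IsMap ((bx k n s).prod ((twG k n r).withF _ (reg_gG n e s) (ne_gG n e s)))
    (radW (ins_reg0 k n e s) (ins_reg k n e s) Set.univ) (insA r s) :=
  (mapA n e s).comp (isMap_rad _ _ _) fun _ x h _ => (regA n e s).live x h

theorem ins_live ⦃K : Fld k⦄ (x : (Fin n → K) × (twG k n r).X K)
    (b : (stp (epsG k n r) (cG n e)).L (insB r s (insA r s x))) :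
    (radW (ins_reg0 k n e s) (ins_reg k n e s) Set.univ).L (insA r s x) := by
  have := (regB' n e s).live _ b
  rwa [insB'_B n s _ fun g => b.1.1.2 (.inr (.inl g))] at this

theorem isMap_ioG : IsMap ((bx k n s).prod ((twG k n r).withF _ (reg_gG n e s) (ne_gG n e s)))
    (stp (epsG k n r) (cG n e)) (ioG r s) :=
  ((mapA' n e s).comp (mapB n e s) fun _ x _ => ins_live n e s x).congr fun _ x _ => ioG_eq n s x

theorem ell_ioG ⦃K : Fld k⦄ (x : (Fin n → K) × (twG k n r).X K)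
    (h : (stp (epsG k n r) (cG n e)).L (ioG r s x)) :
    ell (gam n) (ioG r s x).1 = ∏ i, x.1 i := by
  rw [ins_ell n s]
  refine Finset.prod_congr rfl fun i _ => ?_
  obtain ⟨h1, h2⟩ := div_ne_zero_iff.1 (h.1.1.2 (.inl (.inl i)))
  simp only [ioG, Sum.elim_inl, Sum.elim_inr, Equiv.symm_apply_apply]
  field_simp

variable (k) in
/-- The step datum. -/
@[reducible] def stpG : Stp k n where
  St := stp (epsG k n r) (cG n e)
  ev _ x := ell (gam n) x.1
  hev := reg_ell _ _ _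
  ne _ _ h := Finset.prod_ne_zero_iff.2 fun _ _ => zpow_ne_zero _ (h.1.1.2 _)
  Tw := twG k n r
  g s _ u := ∏ m, u.1.1 m ^ cJ n e s m
  hg s := reg_gG n e s
  gne s := ne_gG n e s
  io := ioG r
  map := isMap_ioG n e
  ev_io := ell_ioG n e
  d := r + 1

variable {n}

theorem ins_ell_sc {K ρ : Type} [Field K] {a : K} (ha : a ≠ 0) (t : Kp n ⊕ ρ → K)
    (w : Kp n ⊕ ρ → ℤ) (h : ∑ u, w (.inl u) * gam n u = 0) :
    ell (gam n) (fun m => t m * a ^ w m) = ell (gam n) t := by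
  rw [ell, prod_scale ha (fun u => t (.inl u)) fun u => w (.inl u), h, zpow_zero, mul_one, ell]

theorem ins_uu (hχ : Gen χ n) : UU χ (pvR (ins_reg0 k n e s) (ins_reg k n e s))
    (pvW (ins_reg0 k n e s) (ins_reg k n e s) Set.univ) Set.univ fun _ x => x := by
  have f1 : ∀ g : Fin n × Fin n, χ.ψ (∑ m, (Pi.single (.inr (.inl g)) 1 :
      Kp n ⊕ (Fin n × Fin n) ⊕ Fin r → ℤ) m * insC n e m : ℤ) ≠ 1 := fun g => by
    simpa [Pi.single_apply, insC] using hχ g.1 g.2
  refine uu_rad _ _ (f1 (0, pr n s 0)) (flow_scale _ _ _) (fun _ a x ha _ => ⟨funext fun _ =>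
    congrArg (X - C ·) (ins_ell_sc ha _ _ (by simp)), fun g => ?_⟩) _ fun g _ => ?_
  · by_cases c : g.2 = pr n s g.1
    · simp [insR, c]
    · have : g ≠ (0, pr n s 0) := fun l => c (by rw [l])
      simp [insR, c, this]
  by_cases c : g.2 = pr n s g.1
  · refine ⟨_, _, ?_, flow_scale (Pi.single (.inl (.inl g.1)) 1 + Pi.single (.inl (.inr g.2)) 1)
      (insC n e) _, fun _ a x ha _ => ⟨funext fun _ => congrArg (X - C ·) (ins_ell_sc ha _ _ ?_),
        by simp [insR0], fun g' l => ?_⟩⟩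
    · simpa [Pi.single_apply, insC, add_mul, Finset.sum_add_distrib] using hχ g.1 g.2
    · simp [Pi.single_apply, gam]
    · by_cases c' : g'.2 = pr n s g'.1
      · have l1 : g'.1 ≠ g.1 := fun l' => l (Prod.ext l' (by rw [c, c', l']))
        have l2 : pr n s g'.1 ≠ g.2 := fun l' => l1 ((pr n s).injective (l'.trans c))
        simp [insR, c', l1, l2]
      · simp [insR, c']
  · refine ⟨_, _, f1 g, flow_scale _ _ _, fun _ a x ha _ => ⟨funext fun _ =>
      congrArg (X - C ·) (ins_ell_sc ha _ _ (by simp)), ?_, fun g' l => ?_⟩⟩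
    · have : ∀ i, (i, pr n s i) ≠ g := fun i l => c (by rw [← l])
      simp [insR0, this]
    · by_cases c' : g'.2 = pr n s g'.1 <;> simp [insR, c', l]

theorem iso_stpG (hχ : Gen χ n) : (stpG k n e).Iso χ := fun s P T hT => by
  have c1 : ∀ ⦃K : Fld k⦄ (x : (Fin n → K) × (twG k n r).X K), (∀ i, x.1 i ≠ 1) →
      ell (gam n) (insA r s x).1.1 = ∏ i, x.1 i := fun _ x h =>
    (ins_ell n s _).trans (congrArg (fun y => ∏ i, y.1 i) (insA'_A n s x h))
  have p1 : PMap ((stpG k n e).B1 s) (pvR (ins_reg0 k n e s) (ins_reg k n e s)) Set.univ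
      (insA r s) := ⟨mapA n e s, fun _ x a _ _ _ =>
        congrArg (X - C ·) (c1 x fun i => (a.1.2 i).2)⟩
  have p2 : PMap ((stpG k n e).B1 s) (pvW (ins_reg0 k n e s) (ins_reg k n e s) Set.univ) Set.univ
      (insA r s) := ⟨mapA' n e s, fun _ x a _ _ _ =>
        congrArg (X - C ·) (c1 x fun i => (a.1.2 i).2)⟩
  have p3 : PMap (pvW (ins_reg0 k n e s) (ins_reg k n e s) Set.univ) (stpG k n e).A1 Set.univ
      (insB r s) := ⟨mapB n e s, fun _ y a _ _ _ => congrArg (X - C ·) (by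
        show ell (gam n) (insB r s y).1 = ell (gam n) y.1.1
        rw [ins_ell n s, ins_ell n s]
        refine Finset.prod_congr rfl fun i _ => ?_
        simp only [insB, Sum.elim_inl, Sum.elim_inr, Equiv.symm_apply_apply]
        exact mul_div_mul_left _ _ (a.2.2 _ trivial))⟩
  have p4 : PMap ((stpG k n e).B1 s) (stpG k n e).A1 Set.univ (ioG r s) :=
    ⟨isMap_ioG n e s, fun _ x _ b _ _ => congrArg (X - C ·) (ell_ioG n e s x b)⟩
  show UIso (ov χ ((stpG k n e).B1 s) (stpG k n e).A1 T (ioG r s))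
  rw [← p2.ov_comp p3 hT p4 (fun _ x _ b => ins_live n e s x (ioG_eq n s x ▸ b))
      fun _ x _ _ => (ioG_eq n s x).symm,
    ← p1.ov_comp (pmap_rad _ _ _) hT p2 (fun _ x a _ => (regA n e s).live x a) fun _ _ _ _ => rfl]
  refine ((p1.ov_bij hT (regA n e s).live (fun _ x y a b c => ?_) fun _ y a =>
    ⟨_, (regA' n e s).live y a, insA_A' n e s y a⟩).uiso.comp (ins_uu e s hχ P T hT)).comp
    (p3.ov_bij hT (regB n e s).live (fun _ x y a b c => ?_) fun _ y a =>
      ⟨_, (regB' n e s).live y a, insB_B' n s y a.1.1.2⟩).uiso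
  · rw [← insA'_A n s x fun i => (a.1.2 i).2, c, insA'_A n s y fun i => (b.1.2 i).2]
  · rw [← insB'_B n s x fun g => a.2.2 g trivial, c, insB'_B n s y fun g => b.2.2 g trivial]

variable {e}

theorem ne_aux (hχ : Gen χ n) (he : ∀ j, χ.ψ (e j) ≠ 1) (j : Rh n r) :
    χ.ψ (cG n e (.inr j)) ≠ 1 := by
  rcases j with g | g | j
  · change χ.ψ (-(Ex.b g.1 + Ex.a g.2) : ℤ) ≠ 1
    rw [Int.cast_neg, AddChar.map_neg_eq_inv]
    exact inv_ne_one.2 (hχ _ _)
  · exact hχ _ _
  · exact he j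

theorem norm_stpG [CharZero F] (hχ : Gen χ n) (he : ∀ j, χ.ψ (e j) ≠ 1)
    (ht : χ.ψ (∑ i, cG n e i : ℤ) ≠ 1) {P : Pt k} (T : PC P)
    (hT : ∀ ⦃K : Fld k⦄ (d d' : ℕ → K[X]) (p : P.X K), (d 2).coeff 0 = (d' 2).coeff 0 →
      T.T d p → T.T d' p) :
    ((Av (stpG k n e) 2).over T).Acts χ
      (fun _ x => (pm (stpG k n e) (Equiv.swap 0 1) x.1, x.2)) ((-1) ^ (r + 1)) := by
  have h := mer_norm (χ := χ) (T := T) (epsG k n r) (sum_gam n) ht (ne_aux hχ he)
    (fun u => by rcases u with i | i <;> simp [epsG])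
    (fun u => by
      rcases u with i | i
      · exact ⟨.inr i, Sum.inr_ne_inl, neg_add_cancel 1, hχ i i⟩
      · exact ⟨.inl i, Sum.inl_ne_inr, add_neg_cancel 1, by
          rw [add_comm]; exact hχ i i⟩) hT
  have e : (-1 : F) ^ (Fintype.card (Kp n) + Fintype.card (Rh n r) + 1) = (-1) ^ (r + 1) := by
    rw [show Fintype.card (Kp n) + Fintype.card (Rh n r) + 1 = 2 * (n + n * n) + (r + 1) by
      simp only [Fintype.card_sum, Fintype.card_prod, Fintype.card_fin]; ring,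
      pow_add, pow_mul, neg_one_sq, one_pow, one_mul]
  rw [e] at h
  exact h

end

end Pool.Agent.Lib.MP_fc2ced_ag.T.G
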