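import Pool.Agent.Lib.MP_fc2ced_ag.G.TwoG
import Pool.Agent.Lib.MP_fc2ced_ag.G.Ins

/-! The flags of length two with their twists as a family of matrices with a kernel vector. -/

open CategoryTheory hiding forget
open Function Polynomial Matrix

namespace Pool.Agent.Lib.MP_fc2ced_ag.T.G

open K

set_option linter.unusedSectionVars false

noncomputable section

variable {k : Type} [Field k] {F : Type} [Field F] {χ : Chr k F}

open MP_fc2ced_ag.T.Pt hiding X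

/-- The coordinates of a twist. -/
abbrev TX (n r : ℕ) (K : Type) := ((Fin n ⊕ Fin r → K) × (Fin n × Fin n → K)) × K

section Alg
variable {K : Type} [Field K] {n r : ℕ} [NeZero n] (s : ℕ)

/-- The paired entries of `ν` are replaced by `μ`. -/
def jn (μ : Fin n → K) (ν : Fin n × Fin n → K) (g : Fin n × Fin n) : K :=
  if g.2 = pr n s g.1 then μ g.1 else ν g

/-- The paired entries of two twists are replaced by `μ`. -/
def jnU (μ : Fin n ⊕ Fin n → K) (u : Fin 2 → TX n r K) (a : Fin 2) : TX n r K :=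
  (((u a).1.1, jn (s + a) (fun i => μ (if a = 0 then .inl i else .inr i)) (u a).1.2), (u a).2)

/-- The paired entries of two twists. -/
def muU (u : Fin 2 → TX n r K) : Fin n ⊕ Fin n → K :=
  Sum.elim (fun i => (u 0).1.2 (i, pr n s i)) fun i => (u 1).1.2 (i, pr n (s + 1) i)

/-- The first coordinate of the first twist is multiplied by `z`. -/
def scU (z : K) (u : Fin 2 → TX n r K) (a : Fin 2) : TX n r K :=
  ((fun m => if a = 0 ∧ m = .inl 0 then z * (u a).1.1 m else (u a).1.1 m, (u a).1.2), (u a).2)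

variable (μ μ' : Fin n ⊕ Fin n → K) (u : Fin 2 → TX n r K)

theorem muU_jnU : muU s (jnU s μ u) = μ := by
  funext g
  rcases g with i | i <;> simp [muU, jnU, jn]

theorem jnU_jnU : jnU s μ (jnU s μ' u) = jnU s μ u := by
  refine funext fun a => Prod.ext (Prod.ext rfl (funext fun g => ?_)) rfl
  simp only [jnU, jn]
  split_ifs <;> rfl

theorem jnU_muU : jnU s (muU s u) u = u := by
  refine funext fun a => Prod.ext (Prod.ext rfl (funext fun g => ?_)) rfl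
  obtain ⟨i, j⟩ := g
  simp only [jnU, jn]
  split_ifs with h1 h2
  · subst h2
    exact congrArg (u 0).1.2 (Prod.ext rfl h1.symm)
  · obtain rfl := Fin.eq_one_of_ne_zero a h2
    exact congrArg (u 1).1.2 (Prod.ext rfl h1.symm)
  · rfl

theorem prod_sc {ι : Type} [Fintype ι] [DecidableEq ι] (o : ι) (z : K) (t : ι → K) (c : ι → ℤ) :
    ∏ i, (if i = o then z * t i else t i) ^ c i = (∏ i, t i ^ c i) * z ^ c o := by
  rw [← Finset.mul_prod_erase _ _ (Finset.mem_univ o), if_pos rfl, mul_zpow,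
    ← Finset.mul_prod_erase _ (fun i => t i ^ c i) (Finset.mem_univ o),
    Finset.prod_congr rfl fun i hi => by rw [if_neg (Finset.ne_of_mem_erase hi)]]
  ring

theorem sc1_one (a : Fin n) (p : Fin n → K) : sc1 a 1 p = p := funext fun i => by simp [sc1]

theorem sc1_inv (a : Fin n) {z : K} (hz : z ≠ 0) (p : Fin n → K) : sc1 a z⁻¹ (sc1 a z p) = p :=
  funext fun i => by
    simp only [sc1]
    split_ifs
    exacts [inv_mul_cancel_left₀ hz _, rfl]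

theorem core_sc1_ne (a : Fin n) {z : K} (hz : z ≠ 0) {p : Fin n → K} (hp : ∀ i, p i ≠ 0) (i : Fin n) :
    sc1 a z p i ≠ 0 := by
  unfold sc1
  split_ifs
  exacts [mul_ne_zero hz (hp i), hp i]

theorem scU_one (z : K) : scU z u 1 = u 1 := by simp [scU]

end Alg

section Rel
variable {K K' : Fld k} {φ : Place K K'} {n r : ℕ} [NeZero n] (s : ℕ) {u : Fin 2 → TX n r K}
  {u' : Fin 2 → TX n r K'}

theorem rel_sc1 (a : Fin n) {z : K} {z' : K'} (hz : φ z z') {p : Fin n → K} {p' : Fin n → K'}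
    (hp : ∀ i, φ (p i) (p' i)) (i : Fin n) : φ (sc1 a z p i) (sc1 a z' p' i) := by
  unfold sc1
  split_ifs
  exacts [hz.mul (hp i), hp i]

theorem rel_muU (h : ∀ a g, φ ((u a).1.2 g) ((u' a).1.2 g)) (g : Fin n ⊕ Fin n) :
    φ (muU s u g) (muU s u' g) := by
  rcases g with i | i
  exacts [h 0 _, h 1 _]

theorem rel_jnU {μ : Fin n ⊕ Fin n → K} {μ' : Fin n ⊕ Fin n → K'} (hμ : ∀ g, φ (μ g) (μ' g))
    (h : ∀ a g, φ ((u a).1.2 g) ((u' a).1.2 g)) (a : Fin 2) (g : Fin n × Fin n) :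
    φ ((jnU s μ u a).1.2 g) ((jnU s μ' u' a).1.2 g) := by
  by_cases e : g.2 = pr n (s + a) g.1
  · simp only [jnU, jn, if_pos e]
    exact hμ _
  · simp only [jnU, jn, if_neg e]
    exact h a g

end Rel

variable (k) (n : ℕ) [Ex n] {r : ℕ} (e : Fin r → ℤ) (s : ℕ)

/-- Two twists without equations. -/
@[reducible] def tw0 (n r : ℕ) : Pt k :=
  (((mt k fun _ : Fin n ⊕ Fin r => 0).prod ((line k).pi (Fin n × Fin n))).prod (line k)).pi (Fin 2)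

theorem closed_Pas (r : ℕ) : (tw0 k n r).Closed fun K u =>
    lin (fun _ => (1 : k)) (u 1).1.1 + 1 = 0 ∧ muU (K := K) s u = 0 := fun _ _ φ _ _ _ _ h e =>
  ⟨((rel_lin _ (h 1).1.1).add φ.one).eq_of φ.zero e.1,
    funext fun g => (rel_muU s (fun a => (h a).1.2) g).eq_of φ.zero (congrFun e.2 g)⟩

theorem reg_gPas : ((tw0 k n r).restr _ (closed_Pas k n s r).conv).RegF fun _ u =>
    ∏ a : Fin 2, ∏ m, (u a).1.1 m ^ cJ n e (s + a) m := fun _ _ _ _ _ _ b h =>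
  Place.prod fun a _ => Place.prod fun m _ => rel_zpow ((h a).1.1 m) ((b.1 a).1.1.2 m) _

/-- Two twists without the equation of the first and without the paired entries. -/
@[reducible] def Pas : Pt k :=
  ((tw0 k n r).restr _ (closed_Pas k n s r).conv).withF _ (reg_gPas k n e s) fun _ _ h =>
    Finset.prod_ne_zero_iff.2 fun a _ => Finset.prod_ne_zero_iff.2 fun m _ =>
      zpow_ne_zero _ ((h.1 a).1.1.2 m)

/-- The base of the family of matrices: points `(((p, q), l), u)`. -/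
@[reducible] def Yv : PV k where
  S := (pql k n s).prod (Pas k n e s)
  c _ x _ := qd2 x.1.1.1 x.1.1.2 x.1.2
  hc _ _ _ φ _ _ a b r := reg_qd2 k n s φ _ _ a.1 b.1 r.1

/-- The twists of flags of length two. -/
@[reducible] def W2 : Pt k := Tws (stpG k n e) fun a : Fin 2 => s + a

variable {k} {P : Pt k} (T : PC P)

/-- The second eigenvalue. -/
def iY ⦃K : Fld k⦄ (y : ((Yv k n e s).over T).X K) : ((Yv k n e s).over T).X K :=
  (((y.1.1.1, lp y.1.1.1.1 y.1.1.1.2 y.1.1.2), y.1.2), y.2)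

/-- The first flow. -/
def t1Y ⦃K : Fld k⦄ (z : K) (y : ((Yv k n e s).over T).X K) : ((Yv k n e s).over T).X K :=
  ((((sc1 0 z y.1.1.1.1, sc1 (-1) z y.1.1.1.2), y.1.1.2), y.1.2), y.2)

/-- The second flow. -/
def t2Y ⦃K : Fld k⦄ (z : K) (y : ((Yv k n e s).over T).X K) : ((Yv k n e s).over T).X K :=
  ((y.1.1, scU z y.1.2), y.2)

theorem reg_iY : ((Yv k n e s).over T).Reg ((Yv k n e s).over T) (iY n e s T) := by
  refine ⟨fun _ y a => ⟨⟨⟨⟨a.1.1.1.1, trivial, lp_ne a.1.1.1.1.1.2 a.1.1.1.1.2.2 a.1.1.1.2.2⟩,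
    a.1.1.2⟩, a.1.2⟩, ?_⟩, fun _ _ φ x y a b h => ⟨⟨⟨h.1.1.1,
      rel_lp h.1.1.1.1 h.1.1.1.2 h.1.1.2 b.1.1.1.2.2 b.1.1.1.1.1.2⟩, h.1.2⟩, h.2⟩⟩
  exact (congrArg (fun c => T.T (fun _ => c) y.2) (qd2_lp a.1.1.1.1.1.2 a.1.1.1.1.2.2)).mpr a.2

theorem flow_t1Y : ((Yv k n e s).over T).Flow (Ex.b (0 : Fin n) + Ex.a (pr n s 0))
    (t1Y n e s T) := by
  refine ⟨fun _ z y hz a => ⟨⟨⟨⟨⟨⟨fun _ => trivial, core_sc1_ne _ hz a.1.1.1.1.1.2⟩, fun _ => trivial,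
      core_sc1_ne _ hz a.1.1.1.1.2.2⟩, a.1.1.1.2⟩, a.1.1.2⟩, a.1.2⟩, ?_⟩,
    fun _ y _ => by simp only [t1Y, sc1_one], fun _ z y hz _ => by simp only [t1Y, sc1_inv _ hz],
    fun _ z y hz _ => ?_, fun _ _ φ z z' x y hz _ _ _ h =>
      ⟨⟨⟨⟨rel_sc1 _ hz h.1.1.1.1, rel_sc1 _ hz h.1.1.1.2⟩, h.1.1.2⟩, h.1.2⟩, h.2⟩⟩
  · have := a.2
    simp only [qd2] at this
    rw [← lp_sc hz] at this
    exact this
  · simp only [t1Y, sc1, prod_sc, pr_succ s (-1 : Fin n), neg_add_cancel, zpow_add₀ hz]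
    ring

theorem flow_t2Y : ((Yv k n e s).over T).Flow (Ex.b (0 : Fin n) + Ex.a (pr n s 0))
    (t2Y n e s T) := by
  refine ⟨fun _ z y hz a => ⟨⟨⟨a.1.1.1, fun c => ⟨⟨⟨fun _ => trivial, fun m => ?_⟩,
      fun _ => trivial⟩, trivial⟩, ?_, a.1.1.2.2.2⟩, a.1.2⟩, a.2⟩,
    fun _ y _ => Prod.ext (Prod.ext rfl (funext fun c => by simp [t2Y, scU])) rfl,
    fun _ z y hz _ => Prod.ext (Prod.ext rfl (funext fun c =>
      Prod.ext (Prod.ext (funext fun m => ?_) rfl) rfl)) rfl,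
    fun _ z y hz _ => ?_, fun _ _ φ z z' x y hz _ _ _ h =>
      ⟨⟨h.1.1, fun c => ⟨⟨fun m => ?_, (h.1.2 c).1.2⟩, (h.1.2 c).2⟩⟩, h.2⟩⟩
  · have := (a.1.1.2.1 c).1.1.2 m
    simp only [t2Y, scU]
    split_ifs
    exacts [mul_ne_zero hz this, this]
  · simp only [t2Y, scU_one]
    exact a.1.1.2.2.1
  · simp only [t2Y, scU]
    split_ifs
    exacts [inv_mul_cancel_left₀ hz _, rfl]
  · simp only [t2Y, Fin.prod_univ_two, scU_one]
    simp only [scU, true_and, prod_sc]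
    rw [show cJ n e (s + (0 : Fin 2)) (.inl 0) = Ex.b (0 : Fin n) + Ex.a (pr n s 0) from rfl]
    ring
  · simp only [t2Y, scU]
    split_ifs
    exacts [hz.mul ((h.1.2 c).1.1 m), (h.1.2 c).1.1 m]

variable {n}

/-- The family of matrices. -/
@[reducible] def masD (hχ : Gen χ n) :
    MasD χ (.inl 0 : Fin n ⊕ Fin n) ((Yv k n e s).over T) where
  M _ y := Mq y.1.1.1.1 y.1.1.1.2 y.1.1.2
  ρ _ y := lin (fun _ => (1 : k)) (y.1.2 0).1.1 + 1
  ω _ y := omq y.1.1.1.1 y.1.1.1.2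
  ι := iY n e s T
  rM i j _ _ φ _ _ a b r := reg_Mq k n s i j φ _ _ a.1.1.1 b.1.1.1 r.1.1
  rρ _ _ φ _ _ _ _ r := (rel_lin _ (r.1.2 0).1.1).add φ.one
  rω i _ _ _ _ _ _ b r := rel_omq r.1.1.1.1 r.1.1.1.2 b.1.1.1.1.1.2 i
  ω0 _ _ a := omq_ne a.1.1.1.1.1.2 a.1.1.1.1.2.2
  ω1 _ _ _ := omq_zero
  rι := reg_iY n e s T
  inv _ _ a := Prod.ext (Prod.ext (Prod.ext rfl (lp_lp a.1.1.1.1.1.2 a.1.1.1.1.2.2)) rfl) rfl
  fι _ _ _ := rfl
  ρι _ _ _ := rfl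
  ωι _ _ _ := rfl
  tr _ _ a := Mq_tr a.1.1.1.1.1.2 a.1.1.1.1.2.2 a.1.1.1.2.2
  t₁ := Ex.b (0 : Fin n) + Ex.a (pr n s 0)
  t₂ := Ex.b (0 : Fin n) + Ex.a (pr n s 0)
  τ₁ := t1Y n e s T
  τ₂ := t2Y n e s T
  ne₁ := hχ _ _
  ne₂ := hχ _ _
  fl₁ := flow_t1Y n e s T
  fl₂ := flow_t2Y n e s T
  ρ₁ _ _ _ _ _ := rfl
  M₁ _ _ _ _ _ := Mq_sc
  M₂ _ _ _ _ _ := rfl
  rr := rrq
  rc := rcq
  rr_inj := rrq_inj
  rc_inj := rcq_inj
  rr_lt := rrq_lt
  rc_lt := rcq_lt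
  piv _ _ a d := Mq_piv a.1.1.1.1.2.2 d

variable (hχ : Gen χ n)

/-- The paired entries become the multipliers. -/
def thM ⦃K : Fld k⦄ (x : (((Fb k n s).tw (W2 k n e s)).over T).X K) : (masD e s T hχ).Fz.X K :=
  ((((x.1.1.1, jnU s 0 x.1.2), x.2), x.1.1.2), muU s x.1.2)

/-- The multipliers become the paired entries. -/
def gM ⦃K : Fld k⦄ (y : ((Yv k n e s).over T).X K) (μ : Fin n ⊕ Fin n → K) :
    (((Yb k n s).tw (W2 k n e s)).over T).X K := ((y.1.1.1, jnU s μ y.1.2), y.2)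

/-- The inverse map. -/
def thI ⦃K : Fld k⦄ (w : (masD e s T hχ).Fz.X K) : (((Fb k n s).tw (W2 k n e s)).over T).X K :=
  (((w.1.1.1.1, w.1.2), jnU s w.2 w.1.1.1.2), w.1.1.2)

theorem reg_thM : (((Fb k n s).tw (W2 k n e s)).over T).Reg (masD e s T hχ).Fz (thM e s T hχ) :=
  ⟨fun _ x a => ⟨⟨⟨⟨⟨⟨a.1.1.1.1.1, fun c => ⟨⟨(a.1.1.2 c).1.1.1, fun _ => trivial⟩, trivial⟩,
      (a.1.1.2 1).1.1.2, muU_jnU s 0 x.1.2⟩, a.1.2⟩, a.2⟩, a.1.1.1.1.2⟩, fun _ => trivial⟩,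
      (a.1.1.2 0).1.1.2, congrFun a.1.1.1.2⟩,
    fun _ _ φ _ _ _ _ h => ⟨⟨⟨⟨h.1.1.1, fun c => ⟨⟨(h.1.2 c).1.1,
      rel_jnU s (fun _ => φ.zero) (fun c => (h.1.2 c).1.2) c⟩, (h.1.2 c).2⟩⟩, h.2⟩, h.1.1.2⟩,
      rel_muU s fun c => (h.1.2 c).1.2⟩⟩

theorem reg_thI : (masD e s T hχ).Fz.Reg (((Fb k n s).tw (W2 k n e s)).over T) (thI e s T hχ) :=
  ⟨fun _ w a => ⟨⟨⟨⟨⟨a.1.1.1.1.1.1, a.1.1.2⟩, funext a.2.2⟩, fun c =>
      ⟨⟨⟨(a.1.1.1.1.1.2.1 c).1.1, (Fin.forall_fin_two (p := fun c =>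
        lin (fun _ => (1 : k)) (w.1.1.1.2 c).1.1 + 1 = 0)).2 ⟨a.2.1, a.1.1.1.1.1.2.2.1⟩ c⟩,
        fun _ => trivial⟩, trivial⟩⟩, a.1.1.1.1.2⟩, a.1.1.1.2⟩,
    fun _ _ _ _ _ _ _ h => ⟨⟨⟨h.1.1.1.1, h.1.2⟩, fun c => ⟨⟨(h.1.1.1.2 c).1.1,
      rel_jnU s h.2 (fun c => (h.1.1.1.2 c).1.2) c⟩, (h.1.1.1.2 c).2⟩⟩, h.1.1.2⟩⟩

theorem thI_thM ⦃K : Fld k⦄ (x : (((Fb k n s).tw (W2 k n e s)).over T).X K) :
    thI e s T hχ (thM e s T hχ x) = x := by
  simp only [thI, thM, jnU_jnU, jnU_muU]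

theorem thM_thI ⦃K : Fld k⦄ (w : (masD e s T hχ).Fz.X K) (a : (masD e s T hχ).Fz.L w) :
    thM e s T hχ (thI e s T hχ w) = w := by
  have h : jnU s 0 w.1.1.1.2 = w.1.1.1.2 := by
    rw [← a.1.1.1.1.1.2.2.2, jnU_muU]
  simp only [thI, thM, jnU_jnU, muU_jnU, h]

theorem f_thM ⦃K : Fld k⦄ (x : (((Fb k n s).tw (W2 k n e s)).over T).X K) :
    (masD e s T hχ).Fz.f (thM e s T hχ x) = (((Fb k n s).tw (W2 k n e s)).over T).f x := by
  simp only [thM, jnU, Finset.prod_const_one, mul_one]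

theorem isMap_thM : IsMap (((Fb k n s).tw (W2 k n e s)).over T) (masD e s T hχ).Fz
    (thM e s T hχ) :=
  .of_inv (reg_thM e s T hχ) (reg_thI e s T hχ) (fun _ x _ => f_thM e s T hχ x)
    fun _ x _ => thI_thM e s T hχ x

theorem bij_thM : Bij ((isMap_thM e s T hχ).hom χ) :=
  IsMap.bij _ (reg_thM e s T hχ).live
    (fun _ x y _ _ h => by rw [← thI_thM e s T hχ x, h, thI_thM])
    fun _ w a => ⟨_, (reg_thI e s T hχ).live w a, thM_thI e s T hχ w a⟩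

theorem live_thI ⦃K : Fld k⦄ (w : (masD e s T hχ).Fz.X K) (a : (masD e s T hχ).Fz'.L w) :
    (((Fb' k n s).tw (W2 k n e s)).over T).L (thI e s T hχ w) :=
  have l := (reg_thI e s T hχ).live w a.1
  ⟨⟨⟨⟨l.1.1.1, a.2⟩, l.1.1.2⟩, l.1.2⟩, l.2⟩

theorem live_thM ⦃K : Fld k⦄ (x : (((Fb k n s).tw (W2 k n e s)).over T).X K)
    (a : (((Fb' k n s).tw (W2 k n e s)).over T).L x) : (masD e s T hχ).Fz'.L (thM e s T hχ x) :=
  ⟨(reg_thM e s T hχ).live x ⟨⟨⟨a.1.1.1.1, a.1.1.2⟩, a.1.2⟩, a.2⟩, a.1.1.1.2⟩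

theorem isMap_thI : IsMap (masD e s T hχ).Fz' (((Fb' k n s).tw (W2 k n e s)).over T)
    (thI e s T hχ) :=
  .of_inv (g := thM e s T hχ)
    ⟨live_thI e s T hχ, fun _ _ φ x y a b => (reg_thI e s T hχ).reg φ x y a.1 b.1⟩
    ⟨live_thM e s T hχ, fun _ _ φ x y a b => (reg_thM e s T hχ).reg φ x y
      ⟨⟨⟨a.1.1.1.1, a.1.1.2⟩, a.1.2⟩, a.2⟩ ⟨⟨⟨b.1.1.1.1, b.1.1.2⟩, b.1.2⟩, b.2⟩⟩
    (fun _ w a => (f_thM e s T hχ _).symm.trans (congrArg _ (thM_thI e s T hχ w a.1)))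
    fun _ w a => thM_thI e s T hχ w a.1

variable {T} (hT : T.Dep {2})
include hT

theorem isMap_gM : IsMap (masD e s T hχ).Fz' (((Yb k n s).tw (W2 k n e s)).over T)
    fun _ x => gM e s T x.1.1 x.2 :=
  (isMap_thI e s T hχ).comp (((pmap_q0 k n s).tw (W2 k n e s)).over hT)
    fun _ w a _ => live_thI e s T hχ w a

theorem sq_thM : (isMap_thM e s T hχ).hom χ ≫ (isMap_open (masD e s T hχ).open_Dm).hom χ ≫
    (isMap_gM e s hχ hT).hom χ =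
    (ov χ ((Fb k n s).tw (W2 k n e s)) ((Fb' k n s).tw (W2 k n e s)) T fun _ x => (x.1, x.2)) ≫
      ov χ ((Fb' k n s).tw (W2 k n e s)) ((Yb k n s).tw (W2 k n e s)) T
        fun _ x => (x.1.1.1, x.2) := by
  rw [ov, ov, (((pmap_res k n s).tw (W2 k n e s)).over hT).hm_eq,
    (((pmap_q0 k n s).tw (W2 k n e s)).over hT).hm_eq,
    ← (isMap_thI e s T hχ).hom_comp (((pmap_q0 k n s).tw (W2 k n e s)).over hT)
      (isMap_gM e s hχ hT) (fun _ w a _ => live_thI e s T hχ w a) fun _ _ _ _ => rfl]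
  simp only [← Category.assoc]
  refine congrArg (· ≫ _) ?_
  have m := (isMap_thM e s T hχ).comp (isMap_open (masD e s T hχ).open_Dm)
    fun _ x a _ => (reg_thM e s T hχ).live x a
  exact (congrArg (· ≫ _) (IsMap.hom_comp _ _ m (fun _ x a _ => (reg_thM e s T hχ).live x a)
    fun _ _ _ _ => rfl)).trans (IsMap.hom_comp _ _ _ (fun _ x _ l => live_thM e s T hχ x l)
      fun _ x _ _ => thI_thM e s T hχ x)

/-- The transposition acts as minus one. -/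
theorem kills_core [CharZero F] :
    Kills ((ov χ (Zv (stpG k n e) s 2 (Finset.Ioo 0 2)) ((Fb k n s).tw (W2 k n e s)) T
        fun _ x => (eP n x.1, x.2)) ≫ (isMap_thM e s T hχ).hom χ ≫
        (isMap_rad (masD e s T hχ).reg₀ (masD e s T hχ).reg₁ {.inl 0}).hom χ)
      (ov χ (Zv (stpG k n e) s 2 (Finset.Ioo 0 2)) (Zv (stpG k n e) s 2 ∅) T
        fun _ x => (forget 2 ∅ x.1, x.2))
      ((masD e s T hχ).isMap_σ.hom χ + 𝟙 _) := by
  refine kills_of_Fb s hχ (W2 k n e s) hT fun Θ α hα => ?_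
  have h := (masD e s T hχ).kills (isMap_gM e s hχ hT) (fun _ _ _ _ => rfl) Θ α (by
    have := (bij_thM e s T hχ).uiso Θ
    rw [← sq_thM e s hχ hT, Θ.Φ.map_comp_assoc, Θ.Φ.map_comp] at hα
    exact (cancel_epi _).1 hα)
  have e : Odd (Fintype.card (Fin n ⊕ Fin n) - 1) := by
    have := NeZero.pos n
    rw [Fintype.card_sum, Fintype.card_fin]
    exact ⟨n - 1, by omega⟩
  rwa [e.neg_one_pow, neg_smul, one_smul, sub_neg_eq_add] at h

end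

end Pool.Agent.Lib.MP_fc2ced_ag.T.G
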