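import Pool.Agent.Lib.MP_fc2ced_ag.G.Geo
import Pool.Agent.Lib.MP_fc2ced_ag.T.CubeG

/-! The complex of twisted flags in the spaces of dimension `n + 1` with a single eigenvalue. -/

open CategoryTheory hiding forget
open Function Polynomial

namespace Pool.Agent.Lib.MP_fc2ced_ag.T.G

open K

noncomputable section

variable {k : Type} [Field k] {F : Type} [Field F] {χ : Chr k F} {n : ℕ} [Ex n] {S : Stp k n}
  {I : Finset ℕ}

open Pt Place

variable (χ S) in
/-- The terms of the complex. -/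
abbrev cuB (a : k) (I : Finset ℕ) : Ob k F := ((Zv S 0 (n + 1) I).over (oneEig n a)).E χ

variable (χ S) in
/-- The maps of the complex. -/
abbrev cuD (a : k) (I J : Finset ℕ) : cuB χ S a I ⟶ cuB χ S a J :=
  ov χ (Zv S 0 (n + 1) I) (Zv S 0 (n + 1) J) (oneEig n a)
    fun _ x => (forget (n + 1) J x.1, x.2)

namespace Cu

open Finset Module CubeGAux

variable (a : k) (K : Fld k)

variable (S) in
/-- Chains with labels. -/
abbrev Ch (F : Type) [Field F] := (Fin (n + 1) → S.Tw.X K) →₀ (ℕ → Sp K) →₀ F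

variable (χ S) in
/-- The chain given by a combination of flags of type `I`. -/
def ph (I : Finset ℕ) : (cuB χ S a I).V K →ₗ[F] Ch S K F :=
  ((Zv S 0 (n + 1) I).over (oneEig n a)).lf (W := Ch S K F) fun x =>
    Finsupp.single x.1.2 (Finsupp.single x.1.1 1)

variable (χ S) in
/-- The part of type `I` of a chain. -/
def ps (I : Finset ℕ) : Ch S K F →ₗ[F] (cuB χ S a I).V K :=
  Finsupp.lsum F fun u => Finsupp.linearCombination F fun x =>
    ((Zv S 0 (n + 1) I).over (oneEig n a)).cl F ((x, u), ())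

variable (χ S) in
/-- The total chain. -/
def Ph (r : ℕ) : (Ob.pi fun I : Pc (n + 1) r => cuB χ S a I.1).V K →ₗ[F] Ch S K F :=
  ∑ I : Pc (n + 1) r, ph χ S a K I.1 ∘ₗ LinearMap.proj I

variable (F S) in
/-- The boundary operator. -/
def bl : Ch S K F →ₗ[F] Ch S K F := Finsupp.mapRange.linearMap (bd F (n + 1))

variable {a K} {r : ℕ}

theorem live_iff (hI : I ⊆ Ioo 0 (n + 1)) {x : ((Zv S 0 (n + 1) I).over (oneEig n a)).X K} :
    ((Zv S 0 (n + 1) I).over (oneEig n a)).L x ↔ (∀ c, S.Tw.L (x.1.2 c)) ∧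
      FlE n x.1.1 (algebraMap k K a) ∧ ty (n + 1) x.1.1 = I :=
  ⟨fun h => ⟨h.1.1.2, (flag_iff hI).1 ⟨h.1.1.1, h.2⟩⟩,
    fun h => ⟨⟨⟨((flag_iff hI).2 h.2).1, h.1⟩, trivial⟩, ((flag_iff hI).2 h.2).2⟩⟩

theorem ph_cl {x : ((Zv S 0 (n + 1) I).over (oneEig n a)).X K}
    (h : ((Zv S 0 (n + 1) I).over (oneEig n a)).L x) :
    ph χ S a K I (Pt.cl F _ x) = Finsupp.single x.1.2 (Finsupp.single x.1.1 1) := lf_cl h

theorem Ph_single (I : Pc (n + 1) r) (v : (cuB χ S a I.1).V K) :
    Ph χ S a K r (Pi.single I v) = ph χ S a K I.1 v := by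
  rw [Ph, LinearMap.sum_apply, sum_eq_single I (fun J _ h => by simp [Pi.single_eq_of_ne h])
    (by simp)]
  simp

theorem pi_ext' {W : Type} [AddCommMonoid W] [Module F W]
    {f g : (Ob.pi fun I : Pc (n + 1) r => cuB χ S a I.1).V K →ₗ[F] W}
    (h : ∀ (I : Pc (n + 1) r) x, ((Zv S 0 (n + 1) I.1).over (oneEig n a)).L x →
      f (Pi.single I (Pt.cl F _ x)) = g (Pi.single I (Pt.cl F _ x))) : f = g :=
  LinearMap.pi_ext' fun I => Finsupp.lhom_ext' fun x =>
    LinearMap.ext_ring (by simpa [← cl_live] using h I x.1 x.2)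

theorem pi_mem {W : Type} [AddCommMonoid W] [Module F W] {Q : Submodule F W}
    {f : (Ob.pi fun I : Pc (n + 1) r => cuB χ S a I.1).V K →ₗ[F] W}
    (h : ∀ (I : Pc (n + 1) r) x, ((Zv S 0 (n + 1) I.1).over (oneEig n a)).L x →
      f (Pi.single I (Pt.cl F _ x)) ∈ Q) (v) : f v ∈ Q := by
  rw [← univ_sum_single v, map_sum]
  refine Q.sum_mem fun I _ => ?_
  induction v I using Finsupp.induction_linear with
  | zero => simp
  | add u t h1 h2 => rw [Pi.single_add, map_add]; exact Q.add_mem h1 h2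
  | single x c =>
    rw [← Finsupp.smul_single_one, Pi.single_smul, map_smul, ← cl_live]
    exact Q.smul_mem _ (h I x.1 x.2)

theorem Ph_inj : Injective (Ph χ S a K r) := by
  have : (LinearMap.pi fun I : Pc (n + 1) r => ps χ S a K I.1) ∘ₗ Ph χ S a K r = .id :=
    pi_ext' fun I x hx => funext fun J => by
      rw [LinearMap.comp_apply, Ph_single, ph_cl hx, LinearMap.pi_apply, ps, Finsupp.lsum_single,
        Finsupp.linearCombination_single, one_smul, LinearMap.id_apply]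
      by_cases e : J = I
      · subst e
        rw [Pi.single_eq_same]
      · rw [Pi.single_eq_of_ne e]
        exact cl_dead fun h => e (Subtype.ext
          (((live_iff J.sub).1 h).2.2.symm.trans ((live_iff I.sub).1 hx).2.2))
  exact LeftInverse.injective (g := LinearMap.pi fun I : Pc (n + 1) r => ps χ S a K I.1)
    fun v => congr($this v)

theorem mem_range {v : Ch S K F} : v ∈ LinearMap.range (Ph χ S a K r) ↔ ∀ u, ∀ x ∈ (v u).support,
    (∀ c, S.Tw.L (u c)) ∧ FlE n x (algebraMap k K a) ∧ (ty (n + 1) x).card = r := by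
  classical
  let Q : Submodule F (Ch S K F) := ⨅ u, (Finsupp.supported F F {x | (∀ c, S.Tw.L (u c)) ∧
    FlE n x (algebraMap k K a) ∧ (ty (n + 1) x).card = r}).comap (Finsupp.lapply u)
  refine ⟨fun h => ?_, fun h => ?_⟩
  · obtain ⟨v, rfl⟩ := h
    refine (Submodule.mem_iInf _).1 (pi_mem (Q := Q) (fun I x hx => ?_) v)
    rw [Ph_single, ph_cl hx]
    have := (live_iff I.sub).1 hx
    refine (Submodule.mem_iInf _).2 fun u => ?_
    rw [Submodule.mem_comap, Finsupp.lapply_apply, Finsupp.single_apply]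
    split_ifs with e
    · exact Finsupp.single_mem_supported _ _ ⟨e ▸ this.1, this.2.1, this.2.2 ▸ I.card⟩
    · exact zero_mem _
  · rw [← Finsupp.sum_single v]
    refine Submodule.sum_mem _ fun u _ => ?_
    rw [← Finsupp.sum_single (v u), Finsupp.sum, Finsupp.single_finsetSum]
    refine Submodule.sum_mem _ fun x hx => ?_
    have h1 : ty (n + 1) x ⊆ Ioo 0 (n + 1) := fun i hi => mem_Ioo.2 (mem_ty.1 hi).1
    rw [← Finsupp.smul_single_one, ← Finsupp.smul_single]
    exact Submodule.smul_mem _ _ ⟨Pi.single ⟨_, mem_powersetCard.2 ⟨h1, (h u x hx).2.2⟩⟩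
      (Pt.cl F _ ((x, u), ())), (Ph_single _ _).trans
        (ph_cl ((live_iff h1).2 ⟨(h u x hx).1, (h u x hx).2.1, rfl⟩))⟩

theorem bl_single (u : Fin (n + 1) → S.Tw.X K) (v : (ℕ → Sp K) →₀ F) :
    bl F S K (Finsupp.single u v) = Finsupp.single u (bd F (n + 1) v) :=
  Finsupp.mapRange_single (hf := map_zero _)

theorem Ph_totD (v : (Ob.pi fun I : Pc (n + 1) (r + 1) => cuB χ S a I.1).V K) :
    Ph χ S a K r ((totD (cuB χ S a) (cuD χ S a) (n + 1) r).1 K v) =
      bl F S K (Ph χ S a K (r + 1) v) := by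
  refine LinearMap.congr_fun (pi_ext'
    (f := Ph χ S a K r ∘ₗ (totD (cuB χ S a) (cuD χ S a) (n + 1) r).1 K)
    (g := bl F S K ∘ₗ Ph χ S a K (r + 1)) fun I x hx => ?_) v
  have e : ∀ J : Pc (n + 1) r, (totD (cuB χ S a) (cuD χ S a) (n + 1) r).1 K
      (Pi.single I (Pt.cl F _ x)) J = sgn F I.1 J.1 • (cuD χ S a I.1 J.1).1 K (Pt.cl F _ x) :=
    fun J => congr(($(piIn_totD (B := cuB χ S a) (dd := cuD χ S a) (n + 1) r I J)).1 K
      (Pt.cl F _ x))
  rw [LinearMap.comp_apply, LinearMap.comp_apply, Ph_single, ph_cl hx, bl_single, bd,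
    Finsupp.linearCombination_single, one_smul, ((live_iff I.sub).1 hx).2.2, Ph,
    LinearMap.sum_apply, Finsupp.single_finsetSum]
  simp only [LinearMap.comp_apply, LinearMap.proj_apply, e, map_smul]
  rw [sum_coe_sort _ fun J => sgn F I.1 J • ph χ S a K J ((cuD χ S a I.1 J).1 K (Pt.cl F _ x))]
  simp only [sgn, sum_smul, ite_smul, zero_smul]
  rw [sum_comm]
  refine sum_congr rfl fun i hi => ?_
  have s := erase_subset i I.1
  rw [sum_ite_eq', if_pos (mem_powersetCard.2 ⟨s.trans I.sub, by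
    rw [card_erase_of_mem hi, I.card]; rfl⟩), (pmap_forget s).ov_cl (dep a) hx,
    ← forget_erase hx.1.1.1 (mem_Ioo.1 (I.sub hi)).2.ne, ← Finsupp.smul_single]
  exact congrArg _ (ph_cl (x := ((_, x.1.2), x.2))
    ⟨⟨⟨hx.1.1.1.forget_flag s, hx.1.1.2⟩, trivial⟩, (congrArg (chi n) forget_top).trans hx.2⟩)

theorem exists_totD (v : (Ob.pi fun I : Pc (n + 1) r => cuB χ S a I.1).V K)
    (h : bl F S K (Ph χ S a K r v) = 0) :
    ∃ u, (totD (cuB χ S a) (cuD χ S a) (n + 1) r).1 K u = v := by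
  classical
  have h0 := mem_range.1 ⟨v, rfl⟩
  choose y h1 h2 using fun u => exists_bdE r _ (fun x hx => (h0 u x hx).2) congr($h u)
  have h3 (u) (hu : Ph χ S a K r v u ≠ 0) : ∀ c, S.Tw.L (u c) :=
    (Finsupp.support_nonempty_iff.2 hu).elim fun x hx => (h0 u x hx).1
  obtain ⟨u, hu⟩ := (mem_range (χ := χ) (a := a) (r := r + 1)
    (v := Finsupp.onFinset (Ph χ S a K r v).support
      (fun u => if Ph χ S a K r v u = 0 then 0 else y u)
      fun u hu => Finsupp.mem_support_iff.2 fun e => hu (if_pos e))).2 fun u x hx => by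
        rw [Finsupp.onFinset_apply] at hx
        split_ifs at hx with e
        exacts [absurd hx (by simp), ⟨h3 u e, h1 u x hx⟩]
  refine ⟨u, Ph_inj ((Ph_totD u).trans (Finsupp.ext fun t => ?_))⟩
  rw [hu, bl, Finsupp.mapRange.linearMap_apply, Finsupp.mapRange_apply, Finsupp.onFinset_apply]
  split_ifs with e
  exacts [(map_zero _).trans e.symm, h2 t]

end Cu

open Cu in
theorem cube_exact (a : k) : Surj (totD (cuB χ S a) (cuD χ S a) (n + 1) 0) ∧
    ∀ r K, Exact ((totD (cuB χ S a) (cuD χ S a) (n + 1) (r + 1)).1 K)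
      ((totD (cuB χ S a) (cuD χ S a) (n + 1) r).1 K) := by
  refine ⟨fun K v => exists_totD v (LinearMap.congr_fun (pi_ext' (f := bl F S K ∘ₗ Ph χ S a K 0)
    (g := 0) fun I x hx => ?_) v), fun r K v => ⟨fun h => exists_totD v ?_, ?_⟩⟩
  · rw [LinearMap.comp_apply, Ph_single, ph_cl hx, bl_single, bd, Finsupp.linearCombination_single,
      ((live_iff I.sub).1 hx).2.2.trans (Finset.card_eq_zero.1 I.card)]
    simp
  · rw [← Ph_totD, h, map_zero]
  · rintro ⟨u, rfl⟩
    refine Ph_inj ?_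
    rw [Ph_totD, Ph_totD, map_zero]
    exact Finsupp.ext fun t => bd_bd _ _

end

end Pool.Agent.Lib.MP_fc2ced_ag.T.G
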