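import Pool.Agent.Lib.MP_fc2ced_ag.G.PFin

/-! The members of the Dwork pencil satisfy the hypotheses of the main theorem. -/

namespace Pool.Agent.Lib.MP_fc2ced_ag.T

open MvPolynomial

theorem twFinite_dwork (k : Type) [Field k] [IsAlgClosed k] (n : ℕ) (hn : (n : k) ≠ 0) (c : k) :
    P.TwFinite (k := k) (σ := Option (Fin n))
      (fun j : Option (Fin 2) => j.elim
        (∑ i, X (some (some i)) ^ n - C c * ∏ i, X (some (some i))) ![X none, X (some none)])
      fun _ : Unit => 1 := by
  have h := schurFinite_hsys (k := k) (F := ℂ) (σ := Fin n) (ι := Option (Fin 2)) (κ := Unit)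
    (Λ := Option (Fin n) ⊕ Fin 2) (e := Sum.elim (fun _ => none) some)
    (m := Sum.elim (fun o => o.elim (fun _ => 1) fun i => Pi.single i n) 0)
    (G := Sum.elim (fun o => o.elim (C (-c)) fun _ => 1) X) (D := fun o => o.elim n fun _ => 1)
    (γ := Sum.elim (fun o => o.elim (-n) fun _ => 1) 0) (a := 0) (d := 0)
    (by
      rintro ((_ | i) | j)
      · exact ⟨0, isHomogeneous_C _ _, by simp⟩
      · exact ⟨0, isHomogeneous_one _ _, by simp⟩
      · exact ⟨1, isHomogeneous_X _ _, by simp⟩) wallP_pt wallP_cur
    (fun r r1 r2 => by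
      have n0 : (n : ℤ) ≠ 0 := fun e => hn (by rw [Int.natCast_eq_zero.1 e, Nat.cast_zero])
      refine ⟨n, -r (.inl none), n0, ?_⟩
      rintro ((_ | i) | j)
      · simp [mul_comm]
      · have := r2 i
        simp [Fintype.sum_option, Pi.single_apply] at this
        simp
        linarith
      · simpa [Finset.sum_filter, n0] using Or.inr (r1 (some j)))
    (by
      rintro ((_ | i) | j) h
      · exact ⟨by simpa using hn, -c, by simp⟩
      · exact ⟨by simp, 1, by simp⟩
      · exact absurd rfl h) (by simp) fun _ => 0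
  convert h using 2 with j
  swap
  · rfl
  rcases j with _ | j
  · simp [hsys, Finset.sum_filter, Fintype.sum_option, Pi.single_apply, pow_ite, sub_eq_add_neg,
      add_comm]
  · simp [hsys, Finset.sum_filter]

end Pool.Agent.Lib.MP_fc2ced_ag.T
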