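import Pool.Agent.Lib.MP_fc2ced_ag.G.Prod
import Pool.Agent.Lib.MP_fc2ced_ag.T.Eig

/-! Eigenvectors for the Young subgroups, the norm trick, and induction from a generalized
eigenspace. -/

open CategoryTheory hiding forget
open Function Polynomial

namespace Pool.Agent.Lib.MP_fc2ced_ag.T.G

open K

noncomputable section

variable {k : Type} [Field k] {F : Type} [Field F] {χ : Chr k F} {n : ℕ} [Ex n] {S : Stp k n}
  {s w j l : ℕ} {I : Finset ℕ} {P : Pt k} {T : PC P}

open Pt Place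

variable (T w) in
/-- The condition depends only on the constant term of the polynomial of index `w`. -/
def Nm : Prop := ∀ ⦃K : Fld k⦄ (c c' : ℕ → K[X]) (p : P.X K),
  (c w).coeff 0 = (c' w).coeff 0 → T.T c p → T.T c' p

variable (χ S) in
/-- The properties of a step variety. -/
structure Stp.Good : Prop where
  gen : Gen χ n
  iso : S.Iso χ
  two : ∀ s, Ha χ S s 2 ∅ (Equiv.swap 0 1)
  norm : ∀ (P : Pt k) (T : PC P), Nm 2 T →
    ((Av S 2).over T).Acts χ (fun _ x => (pm S (Equiv.swap 0 1) x.1, x.2)) ((-1) ^ S.d)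

theorem fU_bumpF {K : Type} [Field K] {x : ℕ → Sp K} (h : Flag n w ∅ x) (hw : 2 ≤ w) {r : K} :
    fU n s w (bumpF n w r x w) = fU n s w (x w) * r ^ (-Ex.b (0 : Fin n)) * r⁻¹ ^ aZ n (s + w) := by
  have h0 (i : ℤ) : tU n w (bumpF n w r x w) i =
      (if (n : ℤ) ∣ i then r⁻¹ else 1) * tU n w (x w) i := by
    rw [tU, tU, h.dU_bumpF hw, bumpF_top, (bump_band h.rel.band hw r).coef_sol,
      bump_of_ne r i (by omega)]
    split_ifs
    · rw [div_eq_mul_inv, div_eq_mul_inv, mul_inv]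
      ring
    · rw [one_mul, one_mul]
  have h1 := prod_ite (n := n) 0 r (fun i => -Ex.b (Fin.intCast i : Fin n))
    fun i => by rw [intCast_add]
  have h2 := prod_ite (n := n) 0 r⁻¹ (fun i => aZ n (i + s + w))
    fun i => by rw [show i + n + s + w = i + s + w + n by ring, aZ_add]
  simp only [intCast_val, sub_zero, zero_add] at h1 h2
  simp only [fU, h.dU_bumpF hw, h0, mul_zpow, Finset.prod_mul_distrib, h1, h2]
  rw [show (Fin.intCast 0 : Fin n) = 0 from intCast_val 0]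
  ring

theorem uzero_norm (hχ : Gen χ n) (hT : Nm w T) (hw : 2 ≤ w) :
    UZero (((Zv S s w ∅).over T).E χ) :=
  Flow.uzero (hχ.neg 0 (s + w)) (τ := fun _ r x => ((bumpF n w r x.1.1, x.1.2), x.2))
    ⟨fun _ r x hr h => ⟨⟨⟨h.1.1.1.bumpF_flag hw hr, h.1.1.2⟩, h.1.2⟩,
        hT _ _ _ (h.1.1.1.chi_bumpF hw r).symm h.2⟩,
      fun _ _ h => Prod.ext (Prod.ext h.1.1.1.bumpF_one rfl) rfl,
      fun _ r _ hr h => Prod.ext (Prod.ext (h.1.1.1.bumpF_inv hw hr) rfl) rfl,
      fun _ r x hr h => by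
        change fU n s w (bumpF n w r x.1.1 w) * _ * P.f x.2 = fU n s w (x.1.1 w) * _ * P.f x.2 * _
        rw [fU_bumpF h.1.1.1 hw, neg_add, zpow_add₀ hr, inv_zpow']
        ring,
      fun _ _ _ _ _ _ _ hr _ a b h =>
        ⟨⟨gr_bumpF a.1.1.1 b.1.1.1 hw (h.1.1 w) hr, h.1.2⟩, h.2⟩⟩

variable (G : S.Good χ)
include G

theorem ha_simple (a b : Fin w) (h : (b : ℕ) = a + 1) :
    Ha χ S s w ((Finset.Ioo 0 w).erase b) (Equiv.swap a b) := by
  induction w using Nat.strong_induction_on generalizing s with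
  | _ w ih =>
  have hb := b.2
  by_cases h1 : (b : ℕ) + 1 < w
  · obtain ⟨j, rfl⟩ : ∃ j, w = j + 1 := ⟨w - 1, by omega⟩
    have e : lowI j ((Finset.Ioo 0 (j + 1)).erase b) = (Finset.Ioo 0 j).erase b := by
      ext i
      simp only [mem_lowI, Finset.mem_erase, Finset.mem_Ioo]
      omega
    refine ha_left (j := j) (l := 1) (a := ⟨a, by omega⟩) (b := ⟨b, by omega⟩) G.gen G.iso
      (Finset.erase_subset _ _) (by simp only [Finset.mem_erase, Finset.mem_Ioo]; omega) ?_ ?_ <;>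
      rw [e]
    · exact swap_mem_young h (Finset.notMem_erase _ _)
    · exact ih j j.lt_succ_self ⟨a, by omega⟩ ⟨b, by omega⟩ h
  by_cases h2 : 2 < w
  · obtain ⟨l, rfl⟩ : ∃ l, w = 1 + l := ⟨w - 1, by omega⟩
    obtain ⟨a', rfl⟩ : ∃ a' : Fin l, a = Fin.natAdd 1 a' :=
      ⟨⟨a - 1, by omega⟩, Fin.ext (by simp only [Fin.val_natAdd]; omega)⟩
    obtain ⟨b', rfl⟩ : ∃ b' : Fin l, b = Fin.natAdd 1 b' :=
      ⟨⟨b - 1, by omega⟩, Fin.ext (by simp only [Fin.val_natAdd]; omega)⟩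
    simp only [Fin.val_natAdd] at h h1 hb ⊢
    have e : uppI 1 ((Finset.Ioo 0 (1 + l)).erase (1 + b')) = (Finset.Ioo 0 l).erase b' := by
      ext i
      simp only [mem_uppI, Finset.mem_erase, Finset.mem_Ioo]
      omega
    refine ha_right (j := 1) G.gen G.iso (Finset.erase_subset _ _)
      (by simp only [Finset.mem_erase, Finset.mem_Ioo]; omega) ?_ ?_ <;> rw [e]
    · exact swap_mem_young (by omega) (Finset.notMem_erase _ _)
    · exact ih l (by omega) _ _ (by omega)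
  obtain rfl : w = 2 := by omega
  obtain rfl : a = 0 := Fin.ext (by simp only [Fin.val_zero]; omega)
  obtain rfl : b = 1 := Fin.ext (by simp only [Fin.val_one]; omega)
  rw [show (Finset.Ioo 0 2).erase ((1 : Fin 2) : ℕ) = ∅ by decide]
  exact G.two s

theorem ha (hI : I ⊆ Finset.Ioo 0 w) : ∀ σ ∈ Young w I, Ha χ S s w I σ := by
  refine young_induction (p := fun σ => Ha χ S s w I σ) (fun P T _ => ?_)
    fun a b σ h hb hσ ih P T hT => ?_
  · rw [ov_pm_one, map_one, one_smul, sub_self]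
    exact .of_null .zero
  · have h1 := ha_mono G.gen G.iso (Finset.subset_erase.2 ⟨hI, hb⟩) (Finset.erase_subset _ _)
      (ha_simple (s := s) G a b h) P T hT
    have h2 := (h1.precomp (ov χ _ _ T (pm S σ))).add
      ((ih P T hT).smul (eps F S.d w (Equiv.swap a b)))
    rw [ov_pm_mul hT (swap_mem_young h hb) hσ, map_mul]
    convert h2 using 1
    rw [Preadditive.comp_sub, Linear.comp_smul, Category.comp_id, smul_sub, smul_smul,
      sub_add_sub_cancel]

theorem null_swap (hT : Nm (2 + l) T) : Null (ov χ (Av S (2 + l)) (Av S (2 + l)) T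
    (pm S (ProdAux.pp (Equiv.swap 0 1) 1)) - ((-1 : F) ^ S.d) • 𝟙 _) := by
  have top {w : ℕ} (σ : Equiv.Perm (Fin w)) : σ ∈ Young w ∅ := young_empty w ▸ Subgroup.mem_top _
  have hm : 2 ∈ JI 2 ∅ := .inr rfl
  have sub : JI (2 + l) ∅ ⊆ addJ 2 (JI 2 ∅) Set.univ := by
    rintro _ (h | rfl)
    · simp at h
    · rcases Nat.eq_zero_or_pos l with rfl | h
      exacts [.inl ⟨le_rfl, hm⟩, .inr ⟨by omega, trivial⟩]
  have d : T.Dep (JI (2 + l) ∅) := fun _ c c' p e => hT c c' p (by rw [e _ (.inr rfl)])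
  have p2 := pend_pm (S := S) (top (Equiv.swap (0 : Fin 2) 1))
  obtain ⟨m, h⟩ := G.norm _ (T.left 2 (Av S l)) fun K c c' p e => hT _ _ _ (by
    unfold gl
    split_ifs with h
    · obtain rfl : l = 0 := by omega
      exact e
    · rw [mul_coeff_zero, mul_coeff_zero, e])
  rw [← m.hm_eq] at h
  have h1 := h.precomp ((TenAux.isMap_l (Av S 2) (Av S l) 2 T).hom χ)
  rw [Preadditive.comp_sub, Linear.comp_smul, Category.comp_id] at h1
  erw [TenAux.comm_l (d.mono sub) hm p2.toPMap] at h1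
  have h2 : Null (TenAux.ol χ (Av S l) 2 T (pm S (Equiv.swap 0 1)) - ((-1 : F) ^ S.d) • 𝟙 _) :=
    .of_comp_uiso (TenAux.uiso_l _ _ 2 T) (by
      rwa [Preadditive.sub_comp, Linear.smul_comp, Category.id_comp])
  refine .of_comp_uiso (uiso_spA T) ?_
  rw [Preadditive.sub_comp, Linear.smul_comp, Category.id_comp,
    PMap.ov_comm (pend_pm (top _)).toPMap (pmap_splitA.mono (Set.subset_univ _))
      (pmap_splitA.mono (Set.subset_univ _)) ((p2.toPMap.ten pmap_id hm).mono sub) d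
      (fun K x hx => iff_of_true ⟨fun _ => hx _, fun _ => hx _, fun _ => hx _⟩
        ⟨⟨fun _ => hx _, fun _ => hx _⟩, fun _ => hx _, fun _ => hx _⟩) fun K x _ _ _ => ?_]
  · simpa only [Preadditive.comp_sub, Linear.comp_smul, Category.comp_id] using
      h2.precomp (ov χ (Av S (2 + l)) ((Av S 2).ten 2 (Av S l)) T fun _ x => cut 2 l x)
  · refine Prod.ext (funext fun a => ?_) (funext fun a => ?_)
    · simp only [pm, cut, ProdAux.pp_symm, ProdAux.pp_cast]
    · simp only [pm, cut, ProdAux.pp_symm, ProdAux.pp_nat]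
      rfl

variable [CharZero F]

theorem null_eI (hT : Nm w T) (hw : 2 ≤ w) : Null (eI χ S w ∅ T) := by
  obtain ⟨l, rfl⟩ := Nat.exists_eq_add_of_le hw
  have d : T.Dep (JI (2 + l) ∅) := fun _ c c' p e => hT c c' p (by rw [e _ (.inr rfl)])
  have h3 := (null_swap G hT).comp (eI χ S (2 + l) ∅ T)
  rw [Preadditive.sub_comp, Linear.smul_comp, Category.id_comp,
    pm_eI d (young_empty _ ▸ Subgroup.mem_top _), ProdAux.eps_pp, map_one, mul_one,
    eps_swap (by decide), ← sub_smul] at h3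
  have h4 : ((-1 : F) ^ (S.d + 1) - (-1) ^ S.d) ≠ 0 := by
    rw [pow_succ, ← mul_sub_one]
    exact mul_ne_zero (pow_ne_zero _ (by norm_num)) (by norm_num)
  simpa [smul_smul, h4] using h3.smul ((-1 : F) ^ (S.d + 1) - (-1) ^ S.d)⁻¹

open EigA in
theorem quo_gen (h0 : 0 < j) (hj : j < w)
    (H : Hb χ S s w {j}) {t : ∀ ⦃K⦄, P.X K → K} (hs : P.RegF t) (hT : T.Dep {w})
    (h : ∀ ⦃K : Fld k⦄ (c : ℕ → K[X]) (p : P.X K), (c w).Monic → (c w).natDegree = w →
      (c w).coeff 0 ≠ 0 → P.L p → T.T c p → (c w).rootMultiplicity (t p) = j) :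
    Quo (ov χ (Zv S s w (Finset.Ioo 0 w)) (Av S w) T (jm S s w))
      (ov χ (Zv S s w (Finset.Ioo 0 w)) (Zv S s w ∅) T fun _ x => (forget w ∅ x.1, x.2))
      (eI χ S w ∅ T) := by
  classical
  have hI : ({j} : Finset ℕ) ⊆ Finset.Ioo 0 w := by simp [h0, hj]
  have d₀ : T.Dep (JI w ∅) := hT.mono fun _ hm => .inr hm
  have d₁ : T.Dep (JI w {j}) := hT.mono fun _ hm => .inr hm
  have d' : (gen j T hs).Dep (JI w {j}) := fun _ c c' p e t =>
    ⟨d₁ c c' p e t.1, e j (.inl (Finset.mem_singleton_self j)) ▸ t.2⟩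
  have R₀ := isRoof (s := s) (w := w) G.gen G.iso (Finset.empty_subset _)
  have R₁ := isRoof (s := s) G.gen G.iso hI
  have f₀ := pmap_forget (S := S) (s := s) (w := w) (Finset.empty_subset {j})
  have mult ⦃K : Fld k⦄ (x : ℕ → Sp K) (p : P.X K) (a : Rel n w (x w)) (b : P.L p)
      (e : T.T (fun m => chi n (x m)) p) : (chi n (x w)).rootMultiplicity (t p) = j :=
    h _ p (chi_monic _) (a.stab.natDegree_chi.trans a.finrank_eq) (chi_coeff_zero _) b e
  have multA ⦃K : Fld k⦄ (x : ((Av S w).over T).X K) (a : ((Av S w).over T).L x) :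
      (chiA (evs S x.1) w).rootMultiplicity (t x.2) = j :=
    have := chiA_good (x := evs S x.1) fun b _ => S.ne _ (a.1.1 b)
    h _ x.2 this.1 this.2.1 this.2.2 a.1.2 a.2
  have lv ⦃K : Fld k⦄ (x : ((Zv S s w {j}).over T).X K) (a : ((Zv S s w {j}).over T).L x) :
      ((Zv S s w ∅).over T).L ((forget w ∅ x.1.1, x.1.2), x.2) :=
    have : (Zv S s w ∅).S.L (forget w ∅ x.1.1, x.1.2) :=
      ⟨a.1.1.1.forget_flag (Finset.empty_subset _), a.1.1.2⟩
    ⟨⟨this, a.1.2⟩, d₀ _ _ _ (fun m hm => (f₀.c x.1 a.1.1 this m hm).symm) a.2⟩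
  have hb : IsMap ((Zv S s w {j}).over (gen j T hs)) ((Zv S s w ∅).over T)
      fun _ x => ((forget w ∅ x.1.1, x.1.2), x.2) :=
    (isMap_gen j T hs _).comp (f₀.over d₀) fun _ _ a _ => ⟨a.1, a.2.1⟩
  have eb : (isMap_gen j T hs _).hom χ ≫ ov χ (Zv S s w {j}) (Zv S s w ∅) T
      (fun _ x => (forget w ∅ x.1, x.2)) = hb.hom χ := by
    rw [ov, (f₀.over d₀).hm_eq]
    exact IsMap.hom_comp _ _ _ (fun _ _ a _ => ⟨a.1, a.2.1⟩) fun _ _ _ _ => rfl
  have bij : Bij (hb.hom χ) := by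
    refine hb.bij (fun _ x a => lv x ⟨a.1, a.2.1⟩) (fun K x x' a a' e => ?_) fun K y a => ?_
    · have e1 : x.1.1 w = x'.1.1 w := by
        simpa [forget] using congrFun (congrArg (·.1.1) e) w
      have e2 : x.2 = x'.2 := (congrArg Prod.snd e :)
      refine Prod.ext (Prod.ext (funext fun i => ?_) (congrArg (·.1.2) e :)) e2
      by_cases h1 : i = j
      · subst h1
        exact (a.1.1.1.rel.stab.existsUnique_gen _ (mult _ _ a.1.1.1.rel a.1.2 a.2.1)).unique
          ⟨a.1.1.1.le_top i (by simp), a.1.1.1.stab i (by simp), a.1.1.1.rank i (by simp), a.2.2⟩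
          ⟨e1 ▸ a'.1.1.1.le_top i (by simp), a'.1.1.1.stab i (by simp), a'.1.1.1.rank i (by simp),
            e2 ▸ a'.2.2⟩
      · by_cases h2 : i = w
        · rw [h2, e1]
        · rw [a.1.1.1.bot i (by simpa using h1) h2, a'.1.1.1.bot i (by simpa using h1) h2]
    · obtain ⟨W, ⟨h1, h2, h3, h4⟩, -⟩ :=
        a.1.1.1.rel.stab.existsUnique_gen _ (mult _ _ a.1.1.1.rel a.1.2 a.2)
      have e1 : update y.1.1 j W w = y.1.1 w := update_of_ne hj.ne' _ _
      have e2 : update y.1.1 j W j = W := update_self _ _ _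
      have fl : Flag n w {j} (update y.1.1 j W) := by
        refine ⟨e1.symm ▸ a.1.1.1.trel, ?_, ?_, ?_, by simp, fun i hi hi' => ?_⟩
        iterate 3 intro i hi; rw [Finset.mem_singleton.1 hi, e2]; rotate_left
        · rw [update_of_ne (by simpa using hi), a.1.1.1.bot i (by simp) hi']
        exacts [h2, h3, e1.symm ▸ h1]
      refine ⟨((update y.1.1 j W, y.1.2), y.2), ⟨⟨⟨fl, a.1.1.2⟩, a.1.2⟩,
        hT _ _ _ (fun m hm => ?_) a.2, (congrArg (chi n) e2).trans h4⟩,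
        Prod.ext (Prod.ext (funext fun i => ?_) rfl) rfl⟩
      · rw [Set.mem_singleton_iff.1 hm]
        exact congrArg (chi n) e1.symm
      · simp only [forget, Finset.notMem_empty, false_or]
        split_ifs with hi
        · rw [hi, e1]
        · exact (a.1.1.1.bot i (by simp) hi).symm
  have res : IsMap ((Av S w).over T) ((Av S w).over (gen j T hs)) fun _ x => x := by
    refine .of_open (fun K K' φ x y a b r c => ⟨a.1, a.2, (chiA_iff hj.le).2 fun i =>
      (iff_of_ge hj.le (multA x a) (fun i e => ?_) i).1⟩)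
      (.of_proper ⟨fun _ _ a => a.2, fun _ _ _ _ _ _ _ r => r⟩ (fun _ _ _ => rfl)
        fun _ _ _ _ z _ b r => ⟨z, ⟨⟨b.1, b.2.1⟩, b⟩, r⟩)
    exact (iff_of_le hj.le (multA y b) ((chiA_iff hj.le).1 c.2.2) i).2
      ((Place.prod fun l _ => S.hev φ _ _ (a.1.1 i) (b.1.1 i) (r.1 i)).eq_of
        (hs φ _ _ a.1.2 b.1.2 r.2) e)
  have top (σ : Equiv.Perm (Fin w)) : σ ∈ Young w ∅ := young_empty w ▸ Subgroup.mem_top _
  have hY : (Nat.card (Young w {j}) : F) ≠ 0 := Nat.cast_ne_zero.2 Nat.card_pos.ne'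
  refine Quo.induce (H P _ d') (R₀.uiso P T d₀) (R₁.uiso P _ d') (gen_nat hs R₁.pj d₁ d')
    (b := hb.hom χ) ?_ bij.uiso (kills_eI (ha G (Finset.empty_subset _)) d₀)
    (π := (Nat.card (Young w {j}) : F)⁻¹ • ∑ σ, eps F S.d w σ •
      ov χ (Av S w) (Av S w) T (pm S σ) ≫ res.hom χ) ?_ ?_
  · rw [← eb, ← Category.assoc, ← gen_nat hs R₁.pq d₁ d', Category.assoc,
      (R₁.pq.mono (JI_mono (Finset.empty_subset _))).ov_comp f₀ d₀ R₀.pq
        (fun _ x a _ => R₁.live x a)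
        fun _ _ _ _ => Prod.ext (forget_forget (Finset.empty_subset _)) rfl]
  · rw [Preadditive.sum_comp, Finset.sum_congr rfl (g := fun _ => (Nat.card (Young w {j}) : F)⁻¹ •
      (isMap_gen j T hs _).hom χ ≫ eI χ S w ∅ T) fun σ hσ => ?_, Finset.sum_const,
      ← Nat.cast_smul_eq_nsmul F, smul_smul, yS, ← Fintype.card_subtype,
      ← Nat.card_eq_fintype_card, mul_inv_cancel₀ hY, one_smul]
    rw [Linear.smul_comp, ← Category.assoc,
      ← gen_nat hs (pend_pm (Finset.mem_filter.1 hσ).2).toPMap d₁ d', Category.assoc,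
      pm_eI d₀ (top σ), Linear.comp_smul, smul_smul, yR, mul_assoc, eps_mul_self, mul_one]
  · have hE (σ : Equiv.Perm (Fin w)) := pm_eI (χ := χ) (S := S) d₀ (top σ)
    generalize eI χ S w ∅ T = E at hE ⊢
    refine Pt.hom_ext fun K x a => ?_
    have e (σ : Equiv.Perm (Fin w)) : ((eps F S.d w σ • ov χ (Av S w) (Av S w) T (pm S σ) ≫
        res.hom χ) ≫ (isMap_gen j T hs _).hom χ ≫ E).1 K (cl F _ x) =
        if chiA (MP_fc2ced_ag.T.pm σ (evs S x.1)) j = (Polynomial.X - C (t x.2)) ^ j then E.1 K (cl F _ x)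
          else 0 := by
      have h1 := pend_pm (S := S) (top σ)
      have h2 : ((Av S w).over T).L (pm S σ x.1, x.2) := ⟨⟨h1.live x.1 a.1.1, a.1.2⟩, d₀ _ _ _
        (fun m hm => (h1.c x.1 a.1.1 (h1.live x.1 a.1.1) m hm).symm) a.2⟩
      rw [Linear.smul_comp, Ob.smul_app, LinearMap.smul_apply, Ob.comp_apply, Ob.comp_apply,
        Ob.comp_apply, h1.toPMap.ov_cl d₀ a, res.hom_cl h2]
      split_ifs with h3
      · rw [(isMap_gen j T hs (Av S w)).hom_cl (x := (pm S σ x.1, x.2)) ⟨h2.1, h2.2, h3⟩,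
          ← h1.toPMap.ov_cl d₀ a, ← Ob.comp_apply _ E, hE, Ob.smul_app, LinearMap.smul_apply,
          smul_smul, eps_mul_self, one_smul]
      · have h4 : ¬ ((Av S w).over (gen j T hs)).L (pm S σ x.1, x.2) := fun h4 => h3 h4.2.2
        rw [cl_dead h4, LinearMap.map_zero, LinearMap.map_zero, smul_zero]
    rw [Linear.smul_comp, Preadditive.sum_comp, Ob.smul_app, Ob.sum_app, LinearMap.smul_apply,
      LinearMap.sum_apply, Finset.sum_congr rfl fun σ _ => e σ, ← Finset.sum_filter,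
      Finset.sum_const, card_sort hj.le (multA x a), ← Nat.cast_smul_eq_nsmul F, smul_smul,
      inv_mul_cancel₀ hY, one_smul]

end

end Pool.Agent.Lib.MP_fc2ced_ag.T.G
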