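import Pool.Agent.Lib.MP_fc2ced_ag.G.Eig
import Pool.Agent.Lib.MP_fc2ced_ag.T.Hb

/-! The twisted flags of type `I` are the parabolic parts of the tensor power. -/

open CategoryTheory hiding forget
open Function Polynomial

namespace Pool.Agent.Lib.MP_fc2ced_ag.T.G

open K

noncomputable section

variable {k : Type} [Field k] {F : Type} [Field F] [CharZero F] {χ : Chr k F} {n : ℕ} [Ex n]
  {S : Stp k n} {s w j l : ℕ} {I : Finset ℕ} (G : S.Good χ)

open Pt Place HbAux

include G

omit [CharZero F] in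
theorem hb_full : Hb χ S s w (Finset.Ioo 0 w) := by
  intro P T hT
  have e : yS w (Finset.Ioo 0 w) = {1} := by
    ext σ
    simp [yS, young_full]
  rw [e, Finset.sum_singleton, yR, young_full, Subgroup.card_bot, Nat.cast_one, inv_one, map_one,
    one_mul, one_smul, ov_pm_one, ov_id (V := Zv S s w (Finset.Ioo 0 w))
      (a := fun _ x => (forget w (Finset.Ioo 0 w) x.1, x.2))
      fun _ _ hx => Prod.ext (Flag.forget_self hx.1) rfl]
  exact .of_uiso ((isRoof G.gen G.iso (Finset.Subset.refl _)).uiso P T hT) .id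

variable (s w) in
/-- The roof from the steps to the twisted spaces of solutions. -/
def sys : Sys χ w where
  A := Av S w
  Z := Zv S s w (Finset.Ioo 0 w)
  B := Zv S s w ∅
  j := jm S s w
  q _ x := (forget w ∅ x.1, x.2)
  G := Equiv.Perm (Fin w)
  s := yS w ∅
  r := yR F S.d w ∅
  a := pm S
  roof := HaAux.JI_empty (w := w) ▸ isRoof G.gen G.iso (Finset.empty_subset _)
  pa _ _ := HaAux.JI_empty (w := w) ▸ pend_pm (young_empty w ▸ Subgroup.mem_top _)
  gA _ _ h := good_chiA fun a _ => S.ne _ (h a)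
  gZ _ _ h := good_chi h.1
  gB _ _ h := good_chi h.1
  kills _ _ hT := kills_eI (ha G (Finset.empty_subset _)) (HaAux.JI_empty (w := w) ▸ hT)
  idem _ _ hT := eI_idem (HaAux.JI_empty (w := w) ▸ hT)

theorem hb_empty (h2 : 2 ≤ w) (H : ∀ j, 0 < j → j < w → Hb χ S s w {j}) : Hb χ S s w ∅ :=
  fun _ _ hT => Sys.At.of_norm (D := sys s w G) (by omega)
    (fun _ _ _ j hs h0 hj d h => quo_gen G h0 hj (H j h0 hj) hs d
      fun _ c p a b e => h c p ⟨a, b, e⟩)
    (fun _ _ h => .of_uzero (null_eI G h h2) (uzero_norm G.gen h h2))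
    (HaAux.JI_empty (w := w) ▸ hT)

theorem hb (hI : I ⊆ Finset.Ioo 0 w) : Hb χ S s w I := by
  induction w using Nat.strong_induction_on generalizing I s with
  | _ w ih =>
  have key (I : Finset ℕ) (hI : I ⊆ Finset.Ioo 0 w) (j : ℕ) (hj : j ∈ I) : Hb χ S s w I := by
    obtain ⟨h0, h1⟩ := Finset.mem_Ioo.1 (hI hj)
    obtain ⟨l, rfl⟩ : ∃ l, w = j + l := ⟨w - j, by omega⟩
    exact hb_prod G.gen G.iso hI hj (ih j h1 (lowI_subset hI)) (ih l (by omega) (uppI_subset hI))
  rcases I.eq_empty_or_nonempty with rfl | ⟨j, hj⟩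
  · by_cases h2 : 2 ≤ w
    · exact hb_empty G h2 fun j h0 hj => key _ (Finset.singleton_subset_iff.2
        (Finset.mem_Ioo.2 ⟨h0, hj⟩)) j (Finset.mem_singleton_self j)
    · have e : Finset.Ioo 0 w = ∅ := Finset.eq_empty_of_forall_notMem fun i hi => by
        have := Finset.mem_Ioo.1 hi
        omega
      have h := hb_full (s := s) (w := w) G
      generalize hJ : (∅ : Finset ℕ) = J
      obtain rfl : J = Finset.Ioo 0 w := hJ.symm.trans e.symm
      exact h
  · exact key I hI j hj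

end

end Pool.Agent.Lib.MP_fc2ced_ag.T.G
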