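import Pool.Agent.Lib.MP_fc2ced_ag.G.CubeG
import Pool.Agent.Lib.MP_fc2ced_ag.G.Hb
import Pool.Agent.Lib.MP_fc2ced_ag.T.Main

/-! The fibres of a good step variety are Schur-finite. -/

open CategoryTheory hiding forget
open Function

namespace Pool.Agent.Lib.MP_fc2ced_ag.T.G

open K

noncomputable section

variable {k : Type} [Field k] {F : Type} [Field F] {χ : Chr k F} {n w : ℕ} [Ex n] {S : Stp k n}

open MP_fc2ced_ag.T.Pt Place

variable (S) in
/-- The steps with given eigenvalue. -/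
@[reducible] def Stp.fib (a : k) : Pt k :=
  S.St.restr (fun K x => S.ev x = algebraMap k K a)
    (Closed.conv fun _ _ φ x y b c h e => (S.hev φ x y b c h).eq_of (φ.alg a) e)

theorem evs_iff {K : Fld k} {x : Fin w → S.St.X K} {a : K} :
    chiA (evs S x) w = (Polynomial.X - Polynomial.C a) ^ w ↔ ∀ b, S.ev (x b) = a :=
  MainAux.chiA_iff.trans (forall_congr' fun b => by rw [Fin.prod_univ_one, evs])

theorem isMap_fib (a : k) : IsMap ((Av S (n + 1)).over (oneEig n a))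
    ((S.fib a).pi (Fin (n + 1))) fun _ x => x.1 :=
  .of_inv (g := fun _ x => (x, ()))
    ⟨fun _ _ h b => ⟨h.1.1 b, evs_iff.1 h.2 b⟩, fun _ _ _ _ _ _ _ h => h.1⟩
    ⟨fun _ _ h => ⟨⟨fun b => (h b).1, trivial⟩, evs_iff.2 fun b => (h b).2⟩,
      fun _ _ _ _ _ _ _ h => ⟨h, trivial⟩⟩ (fun _ _ _ => (mul_one _).symm) fun _ _ _ => rfl

theorem sf_step [CharZero F] (G : S.Good χ) (a : k) : SF ((S.fib a).E χ) := by
  classical
  have dep := MainAux.dep (n := n) a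
  have y (σ : Equiv.Perm (Fin (n + 1))) : σ ∈ Young (n + 1) ∅ := by simp [young_empty]
  let ρ : MonoidAlgebra F (Equiv.Perm (Fin (n + 1))) →ₐ[F]
      End (((Av S (n + 1)).over (oneEig n a)).E χ) := MonoidAlgebra.lift F _ _
    ⟨⟨fun σ => ov χ _ _ (oneEig n a) (pm S σ), ov_pm_one⟩,
      fun σ τ => ov_pm_mul (dep ∅) (y σ) (y τ)⟩
  obtain ⟨r, hr, h⟩ := null_of_cube (B := cuB χ S a) (dd := cuD χ S a) ρ (eps F S.d (n + 1))
    eps_mul_self ((isRoof (s := 0) G.gen G.iso subset_rfl).uiso _ _ (dep _))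
    (fun I => ov χ (Zv S 0 (n + 1) (Finset.Ioo 0 (n + 1))) (Zv S 0 (n + 1) I) (oneEig n a)
      fun _ x => (forget (n + 1) I x.1, x.2))
    (fun I J hI hJ => ((pmap_forget hI).mono (JI_mono hJ)).ov_comp (pmap_forget hJ) (dep J)
      (pmap_forget (hJ.trans hI)) (fun _ _ h _ => ⟨Flag.forget_flag h.1 hI, h.2⟩)
      fun _ _ _ _ => Prod.ext (forget_forget hJ) rfl)
    (fun I hI => by
      convert hb (s := 0) G hI _ _ (dep I) using 1
      simp only [idem, map_smul, map_sum, Finset.smul_sum, yS, yR, mul_smul, ρ,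
        MonoidAlgebra.lift_single]
      rfl) (cube_exact a).1 (cube_exact a).2
  have hb : Bij ((isMap_fib a).hom χ ≫ (isLift_pow χ (S.fib a) (Fin (n + 1))).hom) :=
    ((isMap_fib a).bij (fun _ _ h b => ⟨h.1.1 b, evs_iff.1 h.2 b⟩)
      (fun _ _ _ _ _ h => Prod.ext h rfl) fun _ x h =>
        ⟨(x, ()), ⟨⟨fun b => (h b).1, trivial⟩, evs_iff.2 fun b => (h b).2⟩, rfl⟩).comp (bij_pow _)
  refine ⟨n + 1, r.coeff, fun h0 => hr (MonoidAlgebra.coeff_injective (DFunLike.coe_injective h0)),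
    .of_uiso_comp hb.uiso ?_⟩
  convert h.comp ((isMap_fib a).hom χ ≫ (isLift_pow χ (S.fib a) (Fin (n + 1))).hom) using 1
  have e : (ρ r : _ ⟶ _) = ∑ σ, r.coeff σ • ov χ _ _ (oneEig n a) (pm S σ) := by
    rw [MonoidAlgebra.lift_apply]
    exact Finsupp.sum_fintype _ _ fun _ => zero_smul _ _
  rw [e, act, Preadditive.comp_sum, Preadditive.sum_comp]
  refine Finset.sum_congr rfl fun σ _ => ?_
  have h1 := ((pend_pm (S := S) (y σ)).toPMap.over (dep ∅))
  have h2 : ov χ _ _ (oneEig n a) (pm S σ) ≫ (isMap_fib a).hom χ =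
      (isMap_fib a).hom χ ≫ ((S.fib a).isMap_perm σ).hom χ := by
    rw [ov, h1.hm_eq]
    refine h1.comm _ _ _ (fun _ x hx => ?_) fun _ _ _ _ _ => rfl
    have h3 := fun b => evs_iff.1 hx.2 b
    exact iff_of_true ⟨⟨⟨fun b => hx.1.1 _, trivial⟩, evs_iff.2 fun b => h3 _⟩,
      fun b => ⟨hx.1.1 _, h3 _⟩⟩ ⟨fun b => ⟨hx.1.1 _, h3 _⟩, fun b => ⟨hx.1.1 _, h3 _⟩⟩
  rw [Linear.comp_smul, Category.assoc, ← pow_perm, ← Category.assoc, ← h2, Category.assoc]
  exact (Linear.smul_comp _ _ _ _ _ _).symm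

end

end Pool.Agent.Lib.MP_fc2ced_ag.T.G
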