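import Pool.Agent.Lib.MP_fc2ced_ag.G.HaTwo
import Pool.Agent.Lib.MP_fc2ced_ag.G.Step

/-! The fibres of the step variety of a generic hypergeometric datum are Schur-finite. -/

open CategoryTheory Function

namespace Pool.Agent.Lib.MP_fc2ced_ag.T.G

open K

variable {k : Type} [Field k] {F : Type} [Field F] [CharZero F] {χ : Chr k F}

open MP_fc2ced_ag.T.Pt hiding X

theorem sf_st {n : ℕ} [Ex n] {r : ℕ} {e : Fin r → ℤ} (hχ : Gen χ n) (he : ∀ j, χ.ψ (e j) ≠ 1)
    (ht : χ.ψ (∑ i, cG n e i : ℤ) ≠ 1) (a : k) :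
    SF (((stp (epsG k n r) (cG n e)).restr (fun K x => ell (gam n) x.1 = algebraMap k K a)
      ((reg_ell _ _ _).eq (regF_const a)).conv).E χ) :=
  sf_step (good_stpG hχ he ht) a

end Pool.Agent.Lib.MP_fc2ced_ag.T.G
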