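import Pool.Agent.Lib.MP_fc2ced_ag.G.Seq
import Pool.Agent.Lib.MP_fc2ced_ag.T.Geo

/-! The twisted varieties of flags and the powers of a step variety. -/

open CategoryTheory hiding forget
open Function Polynomial

namespace Pool.Agent.Lib.MP_fc2ced_ag.T.G

open K

noncomputable section

variable {k : Type} [Field k] {F : Type} [Field F] {χ : Chr k F}

open Pt Place

/-- The trivial palindromic family of exponents. -/
instance tEx (n : ℕ) [Ex n] : T.Ex n := ⟨fun _ => 0, fun _ => rfl⟩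

/-- The character is nontrivial on all sums of an exponent of each family. -/
def Gen (χ : Chr k F) (n : ℕ) [Ex n] : Prop :=
  ∀ i j : Fin n, χ.ψ (Ex.b i + Ex.a j : ℤ) ≠ 1

theorem Gen.neg {n : ℕ} [Ex n] (h : Gen χ n) (i : Fin n) (t : ℤ) :
    χ.ψ (-(Ex.b i + aZ n t) : ℤ) ≠ 1 := by
  rw [Int.cast_neg, AddChar.map_neg_eq_inv]
  exact inv_ne_one.2 (h i _)

section Rel
variable {K K' : Fld k} {φ : Place K K'} {n s w : ℕ} {U : Sp K} {U' : Sp K'}

theorem gr_fU [Ex n] (h : φ.GR U U') (hU : TRel n w U) (hU' : TRel n w U') :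
    φ (fU n s w U) (fU n s w U') :=
  Place.prod fun _ _ => (rel_zpow (gr_dU h hU.1 hU'.1 _) (hU'.2 _) _).mul (rel_zpow
    (((φ.one.neg.pow _).mul (h.coef hU.1 hU'.1 _ _)).div (gr_dU h hU.1 hU'.1 _) (hU'.2 _))
    (tU_ne hU' _) _)

theorem fA_ne [Ex n] {K : Type} [Field K] {x : Fin n → K} (h : ∀ i, x i ≠ 0 ∧ x i ≠ 1) :
    fA n s x ≠ 0 :=
  Finset.prod_ne_zero_iff.2 fun i _ => mul_ne_zero (zpow_ne_zero _ (sub_ne_zero.2 (h i).2.symm))
    (zpow_ne_zero _ (div_ne_zero (h i).1 (sub_ne_zero.2 (h i).2.symm)))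

theorem rel_fA [Ex n] {x : Fin n → K} {y : Fin n → K'} (r : ∀ i, φ (x i) (y i))
    (h : ∀ i, y i ≠ 0 ∧ y i ≠ 1) : φ (fA n s x) (fA n s y) :=
  Place.prod fun i _ => (rel_zpow (φ.one.sub (r i)) (sub_ne_zero.2 (h i).2.symm) _).mul
    (rel_zpow ((r i).div (φ.one.sub (r i)) (sub_ne_zero.2 (h i).2.symm))
      (div_ne_zero (h i).1 (sub_ne_zero.2 (h i).2.symm)) _)

end Rel

variable (k) (n : ℕ) [Ex n]

/-- Operators of order one with the function for the shift `s`. -/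
@[reducible] def bx (s : ℕ) : Pt k :=
  (box k (T.Ex.b (n := n))).withF (fun _ x => fA n s x) (fun _ _ _ _ _ _ b r => rel_fA r b.2)
    fun _ _ a => fA_ne a.2

/-- A step variety that receives the operators of order one, twisted by an auxiliary variety, for
all shifts. -/
structure Stp where
  St : Pt k
  ev : ∀ ⦃K⦄, St.X K → K
  hev : St.RegF ev
  ne : ∀ ⦃K⦄ (x : St.X K), St.L x → ev x ≠ 0
  Tw : Pt k
  g : ℕ → ∀ ⦃K⦄, Tw.X K → K
  hg : ∀ s, Tw.RegF (g s)
  gne : ∀ s ⦃K⦄ (u : Tw.X K), Tw.L u → g s u ≠ 0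
  io : ℕ → ∀ ⦃K : Fld k⦄, (Fin n → K) × Tw.X K → St.X K
  map : ∀ s, IsMap ((bx k n s).prod (Tw.withF (g s) (hg s) (gne s))) St (io s)
  ev_io : ∀ s ⦃K : Fld k⦄ (x : (Fin n → K) × Tw.X K), St.L (io s x) → ev (io s x) = ∏ i, x.1 i
  d : ℕ

variable {k n} (S : Stp k n) (s w : ℕ)

/-- The twisted operators of order one. -/
@[reducible] def Stp.B1 : PV k where
  S := (bx k n s).prod (S.Tw.withF (S.g s) (S.hg s) (S.gne s))
  c _ x _ := Polynomial.X - C (∏ i, x.1 i)
  hc _ _ _ _ _ _ _ _ r := PR.X.sub (.C (Place.prod fun i _ => r.1 i))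

/-- The step variety with its eigenvalue. -/
@[reducible] def Stp.A1 : PV k where
  S := S.St
  c _ x _ := Polynomial.X - C (S.ev x)
  hc _ _ _ φ x y a b r := PR.X.sub (.C (S.hev φ x y a b r))

variable (χ) in
/-- The maps to the step variety are invertible. -/
def Stp.Iso : Prop := ∀ s, UU χ (S.B1 s) S.A1 Set.univ (S.io s)

variable {w} in
/-- A product of twists. -/
@[reducible] def Tws (t : Fin w → ℕ) : Pt k :=
  (S.Tw.pi (Fin w)).withF (fun _ u => ∏ a, S.g (t a) (u a))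
    (fun _ _ φ _ _ a b r => Place.prod fun c _ => S.hg _ φ _ _ (a c) (b c) (r c))
    fun _ _ a => Finset.prod_ne_zero_iff.2 fun c _ => S.gne _ _ (a c)

variable (k n) in
/-- Flags of type `I`. -/
@[reducible] def Zs (I : Finset ℕ) : Pt k :=
  (T.Zs k n w I).withF (fun _ x => fU n s w (x w))
    (fun _ _ _ _ _ a b h => gr_fU (h w) a.trel b.trel) fun _ _ a => fU_ne a.trel

/-- Twisted flags with the characteristic polynomials of their members. -/
@[reducible] def Zv (I : Finset ℕ) : PV k where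
  S := (Zs k n s w I).prod (Tws S fun a : Fin w => s + a)
  c _ x m := chi n (x.1 m)
  hc m _ _ _ _ _ a _ h := (h.1 m).chi (a.1.stab' m).1

variable {w} in
/-- The eigenvalues of a family of steps. -/
def evs ⦃K : Fld k⦄ (x : Fin w → S.St.X K) (a : Fin w) (_ : Fin 1) : K := S.ev (x a)

/-- Families of `w` steps. -/
@[reducible] def Av : PV k where
  S := S.St.pi (Fin w)
  c _ x m := chiA (evs S x) m
  hc m _ _ φ _ _ a b h := PR.chiA (fun c _ => S.hev φ _ _ (a c) (b c) (h c)) m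

variable (k n) {w} in
/-- Families of operators of order one. -/
@[reducible] def bxs (t : Fin w → ℕ) : Pt k :=
  (T.Av k n w).S.withF (fun _ x => ∏ a, fA n (t a) (x a))
    (fun _ _ _ _ _ _ b r => Place.prod fun c _ => rel_fA (r c) (b c).2)
    fun _ _ a => Finset.prod_ne_zero_iff.2 fun c _ => fA_ne (a c).2

variable {w} in
/-- Families of twisted operators of order one. -/
@[reducible] def Bv (t : Fin w → ℕ) : PV k where
  S := (bxs k n t).prod (Tws S t)
  c _ x m := chiA x.1 m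
  hc m _ _ _ _ _ _ _ h := PR.chiA h.1 m

variable {w} in
/-- The map to the steps. -/
def ios (t : Fin w → ℕ) ⦃K : Fld k⦄ (x : (Fin w → Fin n → K) × (Fin w → S.Tw.X K)) (a : Fin w) :
    S.St.X K := S.io (t a) (x.1 a, x.2 a)

/-- The steps of a full flag. -/
def jm ⦃K : Fld k⦄ (x : (ℕ → Sp K) × (Fin w → S.Tw.X K)) : Fin w → S.St.X K :=
  ios S (fun a => s + a) (jmap n w x.1, x.2)

variable {w} in
/-- The permutation of the steps. -/
def pm (σ : Equiv.Perm (Fin w)) ⦃K : Fld k⦄ (x : Fin w → S.St.X K) : Fin w → S.St.X K :=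
  fun a => x (σ.symm a)

variable (χ) in
/-- The idempotent of the Young subgroup. -/
abbrev eI (I : Finset ℕ) {P : Pt k} (T : PC P) :
    ((Av S w).over T).E χ ⟶ ((Av S w).over T).E χ :=
  ∑ σ ∈ yS w I, yR F S.d w I σ • ov χ (Av S w) (Av S w) T (pm S σ)

variable (χ) in
/-- The roof is an eigenvector for the permutation `σ`. -/
abbrev Ha (I : Finset ℕ) (σ : Equiv.Perm (Fin w)) : Prop :=
  UKills χ (JI w I) (Av S w) (Zv S s w (Finset.Ioo 0 w)) (Zv S s w I) (jm S s w)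
    (fun _ x => (forget w I x.1, x.2)) (pm S σ) (eps F S.d w σ)

variable (χ) in
/-- The roof identifies the flags of type `I` with the image of the idempotent. -/
abbrev Hb (I : Finset ℕ) : Prop :=
  UQuo χ (JI w I) (Av S w) (Zv S s w (Finset.Ioo 0 w)) (Zv S s w I) (jm S s w)
    (fun _ x => (forget w I x.1, x.2)) (yS w I) (yR F S.d w I) (pm S)

variable {S s w} {I I' : Finset ℕ} {j l : ℕ} {σ τ : Equiv.Perm (Fin w)} {P : Pt k} {T : PC P}

theorem pmap_forget (hI : I ⊆ I') :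
    PMap (Zv S s w I') (Zv S s w I) (JI w I) fun _ x => (forget w I x.1, x.2) :=
  have h := (T.pmap_forget (k := k) (n := n) (w := w) hI).map
  have h1 : IsMap (Zs k n s w I') (Zs k n s w I) fun _ x => forget w I x :=
    ⟨fun _ _ _ _ => congrArg (fU n s w) forget_top, h.sp, h.dead⟩
  ⟨h1.prod isMap_id, fun _ _ _ _ _ hm => congrArg (chi n) (if_pos hm)⟩

theorem chiA_ios {t : Fin w → ℕ} {K : Fld k} {x : (Fin w → Fin n → K) × (Fin w → S.Tw.X K)}
    (h : (Av S w).S.L (ios S t x)) (m : ℕ) : chiA (evs S (ios S t x)) m = chiA x.1 m :=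
  Finset.prod_congr rfl fun a _ => by
    rw [Fin.prod_univ_one, evs, ios, S.ev_io _ _ (h a)]

theorem pmap_ios (t : Fin w → ℕ) : PMap (Bv S t) (Av S w) Set.univ (ios S t) := by
  refine ⟨⟨fun _ x a b => ?_, fun _ _ φ x y a b r => ?_, fun _ _ φ x a d b z c r => ?_⟩,
    fun _ x _ b m _ => chiA_ios b m⟩
  · exact (Finset.prod_congr (s₁ := Finset.univ) rfl fun c _ =>
      (S.map (t c)).f (x.1 c, x.2 c) ⟨a.1 c, a.2 c⟩ (b c)).trans Finset.prod_mul_distrib
  · have h := fun c => (S.map (t c)).sp φ (x.1 c, x.2 c) (y.1 c, y.2 c) ⟨a.1 c, a.2 c⟩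
      ⟨b.1 c, b.2 c⟩ ⟨r.1 c, r.2 c⟩
    refine ⟨fun l => ⟨fun c => ((h c).1 (l c)).1, fun c => ((h c).1 (l c)).2⟩,
      fun l l' z hz r' => ?_⟩
    obtain ⟨c, hc⟩ := not_forall.1 l
    exact (h c).2 hc (l' c) (z c) (hz c) (r' c)
  · have h := fun e => (R_or_Dd (S := (S.B1 (t e)).S) φ (x.1 e, x.2 e)).resolve_right fun h =>
      (S.map (t e)).dead φ _ ⟨a.1 e, a.2 e⟩ h (b e) (z e) (c e) (r e)
    choose y h1 h2 using h
    exact d a (fun e => (y e).1, fun e => (y e).2) ⟨fun e => (h1 e).1, fun e => (h1 e).2⟩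
      ⟨fun e => (h2 e).1, fun e => (h2 e).2⟩

theorem allRel_of_live {K : Fld k} {x : (ℕ → Sp K) × (Fin w → S.Tw.X K)}
    (h : Flag n w (Finset.Ioo 0 w) x.1) (l : (Av S w).S.L (jm S s w x)) : AllRel n w x.1 := by
  by_contra hr
  rcases Nat.eq_zero_or_pos w with rfl | hw
  · exact hr fun i hi => by obtain rfl := Nat.le_zero.1 hi; exact h.trel
  · refine S.ne _ (l ⟨0, hw⟩) ((S.ev_io _ _ (l ⟨0, hw⟩)).trans ?_)
    exact Finset.prod_eq_zero (Finset.mem_univ 0) (if_neg hr)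

theorem pmap_jb : PMap (Zv S s w (Finset.Ioo 0 w)) (Bv S fun a : Fin w => s + a)
    (JI w (Finset.Ioo 0 w)) fun _ x => (jmap n w x.1, x.2) := by
  have h := pmap_jmap (k := k) (n := n) (w := w)
  refine ⟨IsMap.prod (S := Zs k n s w (Finset.Ioo 0 w)) (S' := bxs k n fun a : Fin w => s + a)
    (e := fun _ x => jmap n w x) ⟨fun _ x a b => ?_, h.map.sp, h.map.dead⟩ isMap_id, fun _ x a b => h.c x.1 a.1 b.1⟩
  have hs := a.jmap_spec ((jmap_live_iff a).1 b)
  have := fU_flagOf (s := s) hs.1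
  rw [hs.2] at this
  exact this.symm

theorem pmap_jm : PMap (Zv S s w (Finset.Ioo 0 w)) (Av S w) (JI w (Finset.Ioo 0 w)) (jm S s w) :=
  ⟨pmap_jb.map.comp (pmap_ios _).map fun _ _ a b =>
      ⟨(jmap_live_iff a.1).2 (allRel_of_live a.1 b), a.2⟩,
    fun _ x a b m hm => (chiA_ios b m).trans
      ((pmap_jmap (k := k)).c x.1 a.1 ((jmap_live_iff a.1).2 (allRel_of_live a.1 b)) m hm)⟩

theorem pend_pm (h : σ ∈ Young w I) : PEnd (Av S w) (JI w I) (pm S σ) := by
  have R : ∀ τ : Equiv.Perm (Fin w), (Av S w).S.Reg (Av S w).S (pm S τ) := fun τ =>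
    ⟨fun _ _ a c => a (τ.symm c), fun _ _ _ _ _ _ _ r c => r (τ.symm c)⟩
  refine ⟨⟨IsMap.of_inv (R σ) (R σ.symm) (fun _ x _ => ?_) fun _ x _ => funext fun c => ?_,
    fun _ x _ _ m hm => ?_⟩, (R σ).live⟩
  · exact Equiv.prod_comp σ.symm fun c => S.St.f (x c)
  · simp [pm]
  · change chiA (evs S (pm S σ x)) m = chiA (evs S x) m
    unfold chiA
    refine Finset.prod_equiv σ.symm (fun c => ?_) fun c _ => rfl
    simp only [Finset.mem_filter, Finset.mem_univ, true_and]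
    rcases hm with hm | rfl
    · exact ((Young w I).inv_mem h m hm c).symm
    · exact iff_of_true c.2 (σ.symm c).2

theorem ov_pm_one : ov χ (Av S w) (Av S w) T (pm S 1) = 𝟙 _ := ov_id fun _ _ _ => rfl

theorem ov_pm_mul (hT : T.Dep (JI w I)) (h : σ ∈ Young w I) (h' : τ ∈ Young w I) :
    ov χ (Av S w) (Av S w) T (pm S (σ * τ)) =
      ov χ (Av S w) (Av S w) T (pm S τ) ≫ ov χ (Av S w) (Av S w) T (pm S σ) :=
  ((pend_pm h').toPMap.ov_comp (pend_pm h).toPMap hT (pend_pm ((Young w I).mul_mem h h')).toPMap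
    (fun _ x a _ => (pend_pm h').live x a) fun _ _ _ _ => rfl).symm

theorem pm_eI [CharZero F] (hT : T.Dep (JI w I)) (h : σ ∈ Young w I) :
    ov χ (Av S w) (Av S w) T (pm S σ) ≫ eI χ S w I T = eps F S.d w σ • eI χ S w I T := by
  rw [Preadditive.comp_sum, Finset.smul_sum]
  refine Finset.sum_equiv (Equiv.mulRight σ) (fun τ => ?_) fun τ hτ => ?_
  · rw [GeoAux.mem_yS, GeoAux.mem_yS]
    exact ((Young w I).mul_mem_cancel_right h).symm
  · rw [Linear.comp_smul, ← ov_pm_mul hT (GeoAux.mem_yS.1 hτ) h, smul_smul]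
    congr 1
    simp only [yR, Equiv.coe_mulRight, map_mul]
    linear_combination (-(Nat.card (Young w I) : F)⁻¹ * eps F S.d w τ) *
      eps_mul_self (F := F) (n := S.d) σ

theorem eI_idem [CharZero F] (hT : T.Dep (JI w I)) :
    eI χ S w I T ≫ eI χ S w I T = eI χ S w I T := by
  rw [Preadditive.sum_comp, Finset.sum_congr rfl fun σ hσ => by
    rw [Linear.smul_comp, pm_eI hT (GeoAux.mem_yS.1 hσ), smul_smul], ← Finset.sum_smul,
    GeoAux.sum_yR, one_smul]

theorem kills_eI [CharZero F] (h : ∀ σ ∈ Young w I, Ha χ S s w I σ) (hT : T.Dep (JI w I)) :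
    Kills (ov χ (Zv S s w (Finset.Ioo 0 w)) (Av S w) T (jm S s w))
      (ov χ (Zv S s w (Finset.Ioo 0 w)) (Zv S s w I) T fun _ x => (forget w I x.1, x.2))
      (eI χ S w I T - 𝟙 _) := by
  have e : eI χ S w I T - 𝟙 _ = ∑ σ ∈ yS w I, yR F S.d w I σ •
      (ov χ (Av S w) (Av S w) T (pm S σ) - eps F S.d w σ • 𝟙 _) := by
    simp only [smul_sub, smul_smul, Finset.sum_sub_distrib, ← Finset.sum_smul, GeoAux.sum_yR,
      one_smul]
  rw [e]
  exact Kills.sum fun σ hσ => (h σ (GeoAux.mem_yS.1 hσ) P T hT).smul _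

/-- The two parts of a family. -/
def cut {α : Type} (j l : ℕ) (x : Fin (j + l) → α) : (Fin j → α) × (Fin l → α) :=
  (fun a => x (Fin.castAdd l a), fun b => x (Fin.natAdd j b))

theorem addCases_cut {α : Type} (x : Fin (j + l) → α) :
    (fun c => Fin.addCases (cut j l x).1 (cut j l x).2 c) = x :=
  funext fun c => by
    induction c using Fin.addCases with
    | left c => exact Fin.addCases_left c
    | right c => exact Fin.addCases_right c

theorem cut_addCases {α : Type} (y : (Fin j → α) × (Fin l → α)) :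
    cut j l (fun c => Fin.addCases y.1 y.2 c) = y :=
  Prod.ext (_root_.funext fun c => by simp only [cut, Fin.addCases_left])
    (_root_.funext fun c => by simp only [cut, Fin.addCases_right])

theorem isMap_cut (Q : Pt k) :
    IsMap (Q.pi (Fin (j + l))) ((Q.pi (Fin j)).prod (Q.pi (Fin l))) fun _ x => cut j l x := by
  refine .of_inv (g := fun _ y c => Fin.addCases y.1 y.2 c)
    ⟨fun _ x a => ⟨fun _ => a _, fun _ => a _⟩, fun _ _ _ _ _ _ _ h => ⟨fun _ => h _, fun _ => h _⟩⟩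
    ⟨fun _ y a c => ?_, fun _ _ φ y y' _ _ h c => ?_⟩
    (fun _ x _ => (Fin.prod_univ_add fun c => Q.f (x c)).symm) fun _ x _ => addCases_cut x
  · induction c using Fin.addCases with
    | left c => simpa only [Fin.addCases_left] using a.1 c
    | right c => simpa only [Fin.addCases_right] using a.2 c
  · induction c using Fin.addCases with
    | left c => simpa only [Fin.addCases_left] using h.1 c
    | right c => simpa only [Fin.addCases_right] using h.2 c

theorem live_addCases {Q : Pt k} {K : Fld k} {y : (Fin j → Q.X K) × (Fin l → Q.X K)}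
    (h : ((Q.pi (Fin j)).prod (Q.pi (Fin l))).L y) :
    (Q.pi (Fin (j + l))).L fun c => Fin.addCases y.1 y.2 c := fun c => by
  induction c using Fin.addCases with
  | left c => simpa only [Fin.addCases_left] using h.1 c
  | right c => simpa only [Fin.addCases_right] using h.2 c

theorem isMap_mix (A B C D : Pt k) : IsMap ((A.prod B).prod (C.prod D)) ((A.prod C).prod (B.prod D))
    fun _ x => ((x.1.1, x.2.1), x.1.2, x.2.2) :=
  .of_inv (g := fun _ x => ((x.1.1, x.2.1), x.1.2, x.2.2))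
    ⟨fun _ _ a => ⟨⟨a.1.1, a.2.1⟩, a.1.2, a.2.2⟩, fun _ _ _ _ _ _ _ a => ⟨⟨a.1.1, a.2.1⟩, a.1.2, a.2.2⟩⟩
    ⟨fun _ _ a => ⟨⟨a.1.1, a.2.1⟩, a.1.2, a.2.2⟩, fun _ _ _ _ _ _ _ a => ⟨⟨a.1.1, a.2.1⟩, a.1.2, a.2.2⟩⟩
    (fun _ _ _ => mul_mul_mul_comm _ _ _ _) fun _ _ _ => rfl

theorem isMap_cutTw {t : Fin (j + l) → ℕ} {t₁ : Fin j → ℕ} {t₂ : Fin l → ℕ}
    (h₁ : ∀ a, t₁ a = t (Fin.castAdd l a)) (h₂ : ∀ a, t₂ a = t (Fin.natAdd j a)) :
    IsMap (Tws S t) ((Tws S t₁).prod (Tws S t₂)) fun _ x => cut j l x :=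
  ⟨fun _ x _ _ => by
    change (∏ a, S.g (t₁ a) (x _)) * ∏ a, S.g (t₂ a) (x _) = ∏ a, S.g (t a) (x a)
    simp only [h₁, h₂, Fin.prod_univ_add], (isMap_cut S.Tw).sp, (isMap_cut S.Tw).dead⟩

variable (S j l) in
/-- The two parts of a twisted flag. -/
def sp ⦃K : Fld k⦄ (x : (ℕ → Sp K) × (Fin (j + l) → S.Tw.X K)) :
    ((ℕ → Sp K) × (Fin j → S.Tw.X K)) × (ℕ → Sp K) × (Fin l → S.Tw.X K) :=
  ((low j x.1, (cut j l x.2).1), upp n j x.1, (cut j l x.2).2)

theorem pmap_split (hI : I ⊆ Finset.Ioo 0 (j + l)) (hj : j ∈ I) :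
    PMap (Zv S s (j + l) I) ((Zv S s j (lowI j I)).ten j (Zv S (s + j) l (uppI j I)))
      (JI (j + l) I) (sp S j l) := by
  have h := T.pmap_split (k := k) (n := n) hI hj
  have h1 : IsMap (Zs k n s (j + l) I) ((Zs k n s j (lowI j I)).prod (Zs k n (s + j) l (uppI j I)))
      fun _ x => (low j x, upp n j x) :=
    ⟨fun _ x a b => (fU_split hj a ((a.low_iff hI hj).1 b.1)).symm, h.map.sp, h.map.dead⟩
  exact ⟨(h1.prod (isMap_cutTw (fun _ => rfl) fun _ => add_assoc _ _ _)).comp (isMap_mix _ _ _ _)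
    fun _ _ _ b => ⟨⟨b.1.1, b.2.1⟩, b.1.2, b.2.2⟩, fun _ x a b => h.c x.1 a.1 ⟨b.1.1, b.2.1⟩⟩

theorem gl_cut {K : Type} [Field K] {n : ℕ} (x : Fin (j + l) → Fin n → K) (m : ℕ) :
    gl j (chiA (cut j l x).1) (chiA (cut j l x).2) m = chiA x m := by
  simp only [gl, cut, chiA, Finset.prod_filter, Fin.prod_univ_add, Fin.val_castAdd, Fin.val_natAdd]
  split_ifs with hm
  · rw [Finset.prod_eq_one (s := (Finset.univ : Finset (Fin l))) fun b _ => if_neg (by omega),
      mul_one]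
  · congr 1
    · exact Finset.prod_congr rfl fun a _ => by
        rw [if_pos a.2, if_pos (by have := a.2; omega)]
    · exact Finset.prod_congr rfl fun b _ => if_congr (by omega) rfl rfl

theorem pmap_splitA : PMap (Av S (j + l)) ((Av S j).ten j (Av S l)) Set.univ
    fun _ x => cut j l x :=
  ⟨isMap_cut S.St, fun _ x _ _ m _ => gl_cut (evs S x) m⟩

end

end Pool.Agent.Lib.MP_fc2ced_ag.T.G
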