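import Pool.Agent.Lib.MP_fc2ced_ag.G.Kmap
import Pool.Agent.Lib.MP_fc2ced_ag.G.Eig

/-! The exchange of two steps acts on the flags of length two by a sign. -/

open CategoryTheory hiding forget
open Function Polynomial

namespace Pool.Agent.Lib.MP_fc2ced_ag.T.G

open K

noncomputable section

variable {k : Type} [Field k] {F : Type} [Field F] {χ : Chr k F}

open MP_fc2ced_ag.T.Pt hiding X

theorem kills_chain {Z A B M C : Ob k F} {j : Z ⟶ A} {q : Z ⟶ B} {m : A ⟶ M} {J : Z ⟶ C}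
    {κ : C ⟶ M} {σ : C ⟶ C} {s : M ⟶ M} {w : A ⟶ A} {c : F} (hj : UIso j) (hm : UIso m)
    (h1 : Null (j ≫ m - J ≫ κ)) (h2 : σ ≫ κ = κ ≫ s) (h3 : Kills J q (σ + 𝟙 _))
    (h4 : Null (w ≫ m - c • (m ≫ s))) : Kills j q (w - (-c) • 𝟙 _) := fun Θ α hα => by
  have := hj Θ
  have := hm Θ
  obtain ⟨β, rfl⟩ : ∃ β, α = Θ.Φ.map m ≫ β := ⟨inv (Θ.Φ.map m) ≫ α, by simp⟩
  have e1 := h1.map_eq Θ
  have e4 := h4.map_eq Θ
  rw [Θ.Φ.map_comp, Θ.Φ.map_comp] at e1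
  have e3 := h3 Θ (Θ.Φ.map κ ≫ β) (by rw [← reassoc_of% e1, hα])
  rw [← Θ.Φ.map_comp_assoc, Preadditive.add_comp, h2, Category.id_comp] at e3
  have e5 : Θ.Φ.map (m ≫ s + m) ≫ β = 0 := by
    rw [← cancel_epi (Θ.Φ.map j), Limits.comp_zero, Θ.Φ.map_add, Preadditive.add_comp,
      Preadditive.comp_add, Θ.Φ.map_comp_assoc, reassoc_of% e1, reassoc_of% e1,
      ← Preadditive.comp_add, ← Θ.Φ.map_comp_assoc, ← Preadditive.add_comp, ← Θ.Φ.map_add, e3,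
      Limits.comp_zero]
  have e6 : Θ.Φ.map ((w - (-c) • 𝟙 _) ≫ m) = Θ.Φ.map ((c • 𝟙 _) ≫ (m ≫ s + m)) := by
    rw [Preadditive.sub_comp, Θ.Φ.map_sub, e4, ← Θ.Φ.map_sub]
    simp
  rw [← Θ.Φ.map_comp_assoc, e6, Θ.Φ.map_comp_assoc, e5, Limits.comp_zero]

variable [CharZero F] {n : ℕ} [Ex n] {r : ℕ} {e : Fin r → ℤ} (hχ : Gen χ n)
  (he : ∀ j, χ.ψ (e j) ≠ 1) (ht : χ.ψ (∑ i, cG n e i : ℤ) ≠ 1)
include hχ he ht

theorem ha_two (s : ℕ) : Ha χ (stpG k n e) s 2 ∅ (Equiv.swap 0 1) := fun P T hT => by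
  have hT' : T.Dep {2} := hT.mono fun m hm => hm.resolve_left (Finset.notMem_empty m)
  have h := kills_chain
    ((isRoof hχ (iso_stpG e hχ) (s := s) (Finset.empty_subset _)).uiso P T hT)
    (uiso_mg (epsG k n r) (sum_gam n) ht T) (by
      rw [jm_mg e s hχ hT', Category.assoc, Category.assoc, ← Preadditive.comp_sub]
      exact (null_ka e s hχ hT').precomp _)
    (kk_σ e s hχ hT') (kills_core e s hχ hT')
    (mer_swap (epsG k n r) (sum_gam n) ht (ne_aux hχ he) hT')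
  have e1 : eps F (stpG k n e).d 2 (Equiv.swap 0 1) = -(-1) ^ (Fintype.card (Rh n r) + 1) := by
    rw [eps_swap (by decide)]
    simp only [Fintype.card_sum, Fintype.card_prod, Fintype.card_fin]
    rw [← add_assoc, ← two_mul, pow_succ, pow_succ, pow_succ, pow_add, pow_mul]
    simp
  rw [e1]
  exact h

theorem good_stpG : (stpG k n e).Good χ :=
  ⟨hχ, iso_stpG e hχ, ha_two hχ he ht, fun _ T hT => norm_stpG hχ he ht T hT⟩

end

end Pool.Agent.Lib.MP_fc2ced_ag.T.G
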