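import Pool.Agent.Lib.MP_fc2ced_ag.G.Core

/-! The map from pairs of a row vector and a column vector to the merged hyperplane. -/

open CategoryTheory hiding forget
open Function Polynomial Matrix

namespace Pool.Agent.Lib.MP_fc2ced_ag.T.G

open K

noncomputable section

variable {k : Type} [Field k] {F : Type} [Field F] {χ : Chr k F}

open MP_fc2ced_ag.T.Pt hiding X

section Alg
variable {K : Type} [Field K] {n r : ℕ} [NeZero n] (s : ℕ)

/-- The coordinates of one level. -/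
def lev (C B A : Fin n → K) (z : K) (u : TX n r K) : Option (Kp n ⊕ Rh n r) → K
  | none => z
  | some (.inl (.inl i)) => C i
  | some (.inl (.inr j)) => B ((pr n s).symm j)
  | some (.inr (.inl g)) => jn s A (fun g => z * u.1.2 g) g
  | some (.inr (.inr (.inl g))) => z * jn s (fun i => u.1.1 (.inl i)) u.1.2 g
  | some (.inr (.inr (.inr j))) => z * u.1.1 (.inr j)

/-- The monomials of the equation `ρ + μ M c = 0`. -/
def kf (p q : Fin n → K) (l : K) (c μ : Fin n ⊕ Fin n → K) (u : Fin 2 → TX n r K) :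
    (Fin 2 × Option (Kp n ⊕ Rh n r) → K) × K :=
  (fun m => if m.1 = 0 then
      lev s (fun i => μ (.inl i) * c (.inr i)) (fun i => μ (.inl i) * (wr l i * c (.inr (i - 1))))
        (fun i => μ (.inl i) * c (.inl i)) 1 (u 0) m.2
    else
      lev (s + 1) (fun i => μ (.inr i) * (p i * c (.inl i)))
        (fun i => μ (.inr i) * (q i / wr l (i + 1) * c (.inl (i + 1))))
        (fun i => μ (.inr i) * c (.inr i)) (u 1).2 (u 1) m.2, (u 0).2)

/-- The rescaled multipliers. -/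
def muS (c : Fin n ⊕ Fin n → K) (u : Fin 2 → TX n r K) : Fin n ⊕ Fin n → K :=
  Sum.elim (fun i => muU s u (.inl i) / c (.inl i)) fun i => (u 1).2 * muU s u (.inr i) / c (.inr i)

variable {p q : Fin n → K} {l : K} {c μ : Fin n ⊕ Fin n → K} {u : Fin 2 → TX n r K}

theorem kf_zero (m : Option (Kp n ⊕ Rh n r)) : (kf s p q l c μ u).1 (0, m) =
    lev s (fun i => μ (.inl i) * c (.inr i)) (fun i => μ (.inl i) * (wr l i * c (.inr (i - 1))))
      (fun i => μ (.inl i) * c (.inl i)) 1 (u 0) m := rfl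

theorem kf_one (m : Option (Kp n ⊕ Rh n r)) : (kf s p q l c μ u).1 (1, m) =
    lev (s + 1) (fun i => μ (.inr i) * (p i * c (.inl i)))
      (fun i => μ (.inr i) * (q i / wr l (i + 1) * c (.inl (i + 1))))
      (fun i => μ (.inr i) * c (.inr i)) (u 1).2 (u 1) m := rfl

omit [Field K] in
theorem km_jn_pr (A : Fin n → K) (ν : Fin n × Fin n → K) (i : Fin n) :
    jn s A ν (i, pr n s i) = A i := if_pos rfl

omit [Field K] in
theorem km_jn_of_ne (A : Fin n → K) (ν : Fin n × Fin n → K) {g : Fin n × Fin n}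
    (h : g.2 ≠ pr n s g.1) : jn s A ν g = ν g := if_neg h

theorem lev_jn (C B A ν : Fin n → K) (z : K) (v : TX n r K) :
    lev s C B A z ((v.1.1, jn s ν v.1.2), v.2) = lev s C B A z v := by
  funext m
  rcases m with _ | ((i | j) | g | g | j) <;> try rfl
  all_goals
    by_cases h : g.2 = pr n s g.1 <;> simp only [lev, jn, h, if_true, if_false]

theorem kf_jnU (ν : Fin n ⊕ Fin n → K) : kf s p q l c μ (jnU s ν u) = kf s p q l c μ u := by
  refine Prod.ext (funext fun m => ?_) rfl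
  obtain ⟨a, m⟩ := m
  revert a
  refine Fin.forall_fin_two.2 ⟨?_, ?_⟩
  · rw [kf_zero, kf_zero]
    exact congrFun (lev_jn s _ _ _ _ _ (u 0)) m
  · rw [kf_one, kf_one]
    exact congrFun (lev_jn (s + 1) _ _ _ _ _ (u 1)) m

/-- A multiplicative property of all coordinates of one level. -/
theorem lev_all {U : K → Prop} (hm : ∀ x y, U x → (U (x * y) ↔ U y)) {C B A : Fin n → K} {z : K}
    {v : TX n r K} : (∀ m, U (lev s C B A z v m)) ↔ U z ∧ (∀ i, U (C i)) ∧ (∀ i, U (B i)) ∧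
      (∀ i, U (A i)) ∧ (∀ m, U (v.1.1 m)) ∧ ∀ g, g.2 ≠ pr n s g.1 → U (v.1.2 g) := by
  constructor
  · intro h
    have hz : U z := h none
    refine ⟨hz, fun i => h (some (.inl (.inl i))), fun i => ?_, fun i => ?_, fun m => ?_,
      fun g hg => ?_⟩
    · simpa only [lev, Equiv.symm_apply_apply] using h (some (.inl (.inr (pr n s i))))
    · simpa only [lev, km_jn_pr] using h (some (.inr (.inl (i, pr n s i))))
    · rcases m with i | j
      · have := h (some (.inr (.inr (.inl (i, pr n s i)))))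
        simp only [lev, km_jn_pr] at this
        exact (hm _ _ hz).1 this
      · exact (hm _ _ hz).1 (h (some (.inr (.inr (.inr j)))))
    · have := h (some (.inr (.inl g)))
      simp only [lev, km_jn_of_ne s _ _ hg] at this
      exact (hm _ _ hz).1 this
  · rintro ⟨hz, hC, hB, hA, hu, hν⟩ m
    rcases m with _ | ((i | j) | g | g | j)
    · exact hz
    · exact hC i
    · exact hB _
    · by_cases h : g.2 = pr n s g.1
      · simpa only [lev, jn, h, if_true] using hA g.1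
      · simpa only [lev, jn, h, if_false] using (hm _ _ hz).2 (hν g h)
    · by_cases h : g.2 = pr n s g.1
      · simpa only [lev, jn, h, if_true] using (hm _ _ hz).2 (hu (.inl g.1))
      · simpa only [lev, jn, h, if_false] using (hm _ _ hz).2 (hν g h)
    · exact (hm _ _ hz).2 (hu _)

theorem lev_ne_iff {C B A : Fin n → K} {z : K} {v : TX n r K} :
    (∀ m, lev s C B A z v m ≠ 0) ↔ z ≠ 0 ∧ (∀ i, C i ≠ 0) ∧ (∀ i, B i ≠ 0) ∧
      (∀ i, A i ≠ 0) ∧ (∀ m, v.1.1 m ≠ 0) ∧ ∀ g, g.2 ≠ pr n s g.1 → v.1.2 g ≠ 0 :=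
  lev_all s (U := fun x => x ≠ 0) fun _ _ h => mul_ne_zero_iff_left h

theorem km_wr_ne (hl : l ≠ 0) (i : Fin n) : wr l i ≠ 0 := by
  unfold wr
  split_ifs
  exacts [hl, one_ne_zero]

theorem km_prod_wr : ∏ i : Fin n, wr l i = l := by simp [wr]

/-- All monomials are invertible. -/
theorem kf_ne_iff (hp : ∀ i, p i ≠ 0) (hq : ∀ i, q i ≠ 0) (hl : l ≠ 0)
    (hu : ∀ a m, (u a).1.1 m ≠ 0) : (∀ m, (kf s p q l c μ u).1 m ≠ 0) ↔
      (∀ i, c i ≠ 0) ∧ (∀ i, μ i ≠ 0) ∧ (u 1).2 ≠ 0 ∧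
        ∀ (a : Fin 2) g, g.2 ≠ pr n (s + a) g.1 → (u a).1.2 g ≠ 0 := by
  rw [Prod.forall, Fin.forall_fin_two]
  simp only [kf_zero, kf_one]
  rw [lev_ne_iff, lev_ne_iff]
  constructor
  · rintro ⟨⟨-, hC, -, hA, -, h0⟩, hz, -, -, hA', -, h1⟩
    exact ⟨Sum.rec (fun i => right_ne_zero_of_mul (hA i)) fun i => right_ne_zero_of_mul (hC i),
      Sum.rec (fun i => left_ne_zero_of_mul (hA i)) fun i => left_ne_zero_of_mul (hA' i), hz,
      Fin.forall_fin_two.2 ⟨h0, h1⟩⟩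
  · rintro ⟨hc, hμ, hz, hν⟩
    exact ⟨⟨one_ne_zero, fun i => mul_ne_zero (hμ _) (hc _),
      fun i => mul_ne_zero (hμ _) (mul_ne_zero (km_wr_ne hl _) (hc _)),
      fun i => mul_ne_zero (hμ _) (hc _), hu 0, hν 0⟩, hz,
      fun i => mul_ne_zero (hμ _) (mul_ne_zero (hp _) (hc _)),
      fun i => mul_ne_zero (hμ _) (mul_ne_zero (div_ne_zero (hq _) (km_wr_ne hl _)) (hc _)),
      fun i => mul_ne_zero (hμ _) (hc _), hu 1, hν 1⟩

theorem ell_lev (C B A : Fin n → K) (z : K) (v : TX n r K) :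
    (ell (gam n) fun i => lev s C B A z v (some i)) = (∏ i, B i) / ∏ i, C i := by
  rw [ell, Fintype.prod_sum_type, ← Equiv.prod_comp (pr n s).symm B]
  simp only [lev, gam, Sum.elim_inl, Sum.elim_inr, _root_.zpow_neg, _root_.zpow_one,
    Finset.prod_inv_distrib]
  rw [div_eq_inv_mul]

/-- The two eigenvalues. -/
theorem ell_kf (h : ∀ m, (kf s p q l c μ u).1 m ≠ 0) :
    (ell (gam n) fun i => (kf s p q l c μ u).1 (0, some i)) = l ∧
      (ell (gam n) fun i => (kf s p q l c μ u).1 (1, some i)) = lp p q l := by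
  rw [Prod.forall, Fin.forall_fin_two] at h
  simp only [kf_zero, kf_one] at h ⊢
  rw [lev_ne_iff, lev_ne_iff] at h
  obtain ⟨⟨-, hC, -⟩, -, hC', -⟩ := h
  have e0 : ∏ i : Fin n, c (.inr (i - 1)) = ∏ i, c (.inr i) :=
    Equiv.prod_comp (Equiv.subRight (1 : Fin n)) fun i => c (.inr i)
  have e1 : ∏ i : Fin n, c (.inl (i + 1)) = ∏ i, c (.inl i) :=
    Equiv.prod_comp (Equiv.addRight (1 : Fin n)) fun i => c (.inl i)
  have e2 : ∏ i : Fin n, wr l (i + 1) = l :=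
    (Equiv.prod_comp (Equiv.addRight (1 : Fin n)) fun i => wr l i).trans km_prod_wr
  have n0 := Finset.prod_ne_zero_iff.2 fun i (_ : i ∈ Finset.univ) => hC i
  have n1 := Finset.prod_ne_zero_iff.2 fun i (_ : i ∈ Finset.univ) => hC' i
  rw [ell_lev, ell_lev, lp]
  simp only [Finset.prod_mul_distrib, Finset.prod_div_distrib, e0, e1, e2, km_prod_wr] at n0 n1 ⊢
  have := left_ne_zero_of_mul n0
  have := right_ne_zero_of_mul n0
  have := left_ne_zero_of_mul n1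
  have := right_ne_zero_of_mul (right_ne_zero_of_mul n1)
  constructor
  · field_simp
  · rw [mul_div_mul_left _ _ ‹_›, mul_div_mul_right _ _ ‹_›, div_right_comm]

theorem km_fin_ind {U : Fin n → Prop} (h0 : U 0) (hs : ∀ i, i + 1 ≠ 0 → U i → U (i + 1)) (i : Fin n) :
    U i := by
  obtain ⟨m, rfl⟩ := Nat.exists_eq_succ_of_ne_zero (NeZero.ne n)
  induction i using Fin.induction with
  | zero => exact h0
  | succ i ih =>
    have e : i.castSucc + 1 = i.succ := Fin.coeSucc_eq_succ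
    exact e ▸ hs _ (e ▸ i.succ_ne_zero) ih

theorem km_sum_jn (A B : Fin n → K) (ν ν' : Fin n × Fin n → K) (z : K) (h : ∀ g, ν' g = z * ν g) :
    ∑ g, z * jn s B ν g = ∑ g, jn s A ν' g + ∑ i, (z * B i - A i) := by
  rw [← sub_eq_iff_eq_add', ← Finset.sum_sub_distrib, Fintype.sum_prod_type]
  refine Finset.sum_congr rfl fun i _ => ?_
  rw [Finset.sum_eq_single (pr n s i) _ (by simp), km_jn_pr, km_jn_pr]
  intro j _ hj
  rw [km_jn_of_ne s _ _ hj, km_jn_of_ne s _ _ hj, h, sub_self]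

end Alg

section Geo
variable {K K' : Fld k} {n r : ℕ} [NeZero n] (s : ℕ) {p q : Fin n → K} {l : K}
  {c μ : Fin n ⊕ Fin n → K} {u : Fin 2 → TX n r K}

theorem lin_lev (C B A : Fin n → K) (z : K) (v : TX n r K) :
    ∑ m : Option (Kp n ⊕ Rh n r), algebraMap k K (m.elim 1 (epsG k n r)) * lev s C B A z v m =
      z * (lin (fun _ => (1 : k)) v.1.1 + 1) + ∑ i, (C i - B i - A i) := by
  have e : ∑ j, B ((pr n s).symm j) = ∑ i, B i := Equiv.sum_comp (pr n s).symm B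
  simp only [Fintype.sum_option, Fintype.sum_sum_type, Option.elim_none, Option.elim_some, epsG,
    Sum.elim_inl, Sum.elim_inr, lev, lin, map_one, map_neg, one_mul, neg_mul,
    Finset.sum_neg_distrib, e, Finset.sum_sub_distrib]
  rw [km_sum_jn s A _ _ (fun g => z * v.1.2 g) z fun _ => rfl]
  simp only [Finset.sum_sub_distrib, ← Finset.mul_sum]
  ring

/-- The linear form. -/
theorem lin_kf : lin (fun m : Fin 2 × Option (Kp n ⊕ Rh n r) => m.2.elim 1 (epsG k n r))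
    (kf s p q l c μ u).1 = lin (fun _ => (1 : k)) (u 0).1.1 + 1 + ∑ g, μ g * (Mq p q l *ᵥ c) g +
      (u 1).2 * (lin (fun _ => (1 : k)) (u 1).1.1 + 1) := by
  rw [lin, Fintype.sum_prod_type, Fin.sum_univ_two]
  simp only [kf_zero, kf_one]
  rw [lin_lev, lin_lev, Fintype.sum_sum_type]
  simp only [Mq_inl, Mq_inr, mul_sub]
  ring

theorem km_rel_jn {φ : Place K K'} {A : Fin n → K} {A' : Fin n → K'} {ν : Fin n × Fin n → K}
    {ν' : Fin n × Fin n → K'} (hA : ∀ i, φ (A i) (A' i)) (hν : ∀ g, φ (ν g) (ν' g))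
    (g : Fin n × Fin n) : φ (jn s A ν g) (jn s A' ν' g) := by
  unfold jn
  split_ifs
  exacts [hA _, hν _]

theorem km_rel_wr {φ : Place K K'} {l' : K'} (hl : φ l l') (i : Fin n) : φ (wr l i) (wr l' i) := by
  unfold wr
  split_ifs
  exacts [hl, φ.one]

theorem rel_lev {φ : Place K K'} {C B A : Fin n → K} {C' B' A' : Fin n → K'} {z : K} {z' : K'}
    {v : TX n r K} {v' : TX n r K'} (hC : ∀ i, φ (C i) (C' i)) (hB : ∀ i, φ (B i) (B' i))
    (hA : ∀ i, φ (A i) (A' i)) (hz : φ z z') (h1 : ∀ m, φ (v.1.1 m) (v'.1.1 m))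
    (h2 : ∀ g, φ (v.1.2 g) (v'.1.2 g)) (m : Option (Kp n ⊕ Rh n r)) :
    φ (lev s C B A z v m) (lev s C' B' A' z' v' m) := by
  rcases m with _ | ((i | j) | g | g | j)
  exacts [hz, hC i, hB _, km_rel_jn s hA (fun g => hz.mul (h2 g)) g,
    hz.mul (km_rel_jn s (fun _ => h1 _) h2 g), hz.mul (h1 _)]

theorem rel_kf {φ : Place K K'} {p' q' : Fin n → K'} {l' : K'} {c' μ' : Fin n ⊕ Fin n → K'}
    {u' : Fin 2 → TX n r K'} (hp : ∀ i, φ (p i) (p' i)) (hq : ∀ i, φ (q i) (q' i)) (hl : φ l l')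
    (h0 : l' ≠ 0) (hc : ∀ i, φ (c i) (c' i)) (hμ : ∀ i, φ (μ i) (μ' i))
    (h1 : ∀ a m, φ ((u a).1.1 m) ((u' a).1.1 m)) (h2 : ∀ a g, φ ((u a).1.2 g) ((u' a).1.2 g))
    (h3 : ∀ a, φ (u a).2 (u' a).2) :
    (∀ m, φ ((kf s p q l c μ u).1 m) ((kf s p' q' l' c' μ' u').1 m)) ∧
      φ (kf s p q l c μ u).2 (kf s p' q' l' c' μ' u').2 := by
  refine ⟨?_, h3 0⟩
  rw [Prod.forall, Fin.forall_fin_two]
  simp only [kf_zero, kf_one]
  exact ⟨rel_lev s (fun _ => (hμ _).mul (hc _))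
      (fun _ => (hμ _).mul ((km_rel_wr hl _).mul (hc _))) (fun _ => (hμ _).mul (hc _)) φ.one
      (h1 0) (h2 0),
    rel_lev (s + 1) (fun _ => (hμ _).mul ((hp _).mul (hc _)))
      (fun _ => (hμ _).mul (((hq _).div (km_rel_wr hl _) (km_wr_ne h0 _)).mul (hc _)))
      (fun _ => (hμ _).mul (hc _)) (h3 1) (h1 1) (h2 1)⟩

theorem km_unit_mul {φ : Place K K'} (x y : K) (hx : ∃ x', φ x x' ∧ x' ≠ 0) :
    (∃ w, φ (x * y) w ∧ w ≠ 0) ↔ ∃ y', φ y y' ∧ y' ≠ 0 := by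
  obtain ⟨x', h, h0⟩ := hx
  refine ⟨fun ⟨w, hw, w0⟩ => ⟨_, (hw.div h h0).congr ?_ rfl, div_ne_zero w0 h0⟩,
    fun ⟨y', hy, y0⟩ => ⟨_, h.mul hy, mul_ne_zero h0 y0⟩⟩
  exact mul_div_cancel_left₀ _ (h.ne_zero h0)

/-- The coordinates are determined by the monomials. -/
theorem kf_proper {φ : Place K K'} (h1 : c (.inl 0) = 1) (hu : muU s u = 0)
    {z : (Fin 2 × Option (Kp n ⊕ Rh n r) → K') × K'} (hz : ∀ m, z.1 m ≠ 0)
    (h : ∀ m, φ ((kf s p q l c μ u).1 m) (z.1 m)) (h' : φ (kf s p q l c μ u).2 z.2) :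
    ∃ (p' q' : Fin n → K') (l' : K') (c' μ' : Fin n ⊕ Fin n → K') (u' : Fin 2 → TX n r K'),
      (∀ i, φ (p i) (p' i) ∧ p' i ≠ 0) ∧ (∀ i, φ (q i) (q' i) ∧ q' i ≠ 0) ∧ (φ l l' ∧ l' ≠ 0) ∧
      (∀ i, φ (c i) (c' i) ∧ c' i ≠ 0) ∧ (∀ i, φ (μ i) (μ' i) ∧ μ' i ≠ 0) ∧
      (∀ a m, φ ((u a).1.1 m) ((u' a).1.1 m) ∧ (u' a).1.1 m ≠ 0) ∧
      (∀ a g, φ ((u a).1.2 g) ((u' a).1.2 g)) ∧ (∀ a, φ (u a).2 (u' a).2) ∧
      kf s p' q' l' c' μ' u' = z := by
  let U : K → Prop := fun x => ∃ x', φ x x' ∧ x' ≠ 0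
  have hm : ∀ x y, U x → (U (x * y) ↔ U y) := km_unit_mul
  have hm' : ∀ x y, U y → U (x * y) → U x := fun x y a b => (hm y x a).1 (mul_comm x y ▸ b)
  have hU : ∀ m, U ((kf s p q l c μ u).1 m) := fun m => ⟨_, h m, hz _⟩
  rw [Prod.forall, Fin.forall_fin_two] at hU
  simp only [kf_zero, kf_one] at hU
  obtain ⟨-, C0, B0, A0, u0, v0⟩ := (lev_all s hm).1 hU.1
  obtain ⟨z1, C1, B1, A1, u1, v1⟩ := (lev_all (s + 1) hm).1 hU.2
  have one : U 1 := ⟨1, φ.one, one_ne_zero⟩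
  have hη : ∀ i, U (μ (.inl i)) := by
    refine km_fin_ind (hm' _ _ (h1 ▸ one) (A0 0)) fun i hi ih => ?_
    have b := B0 (i + 1)
    rw [wr, if_neg hi, one_mul, add_sub_cancel_right] at b
    exact hm' _ _ ((hm _ _ ih).1 (C0 i)) b
  have hY : ∀ i, U (c (.inr i)) := fun i => (hm _ _ (hη i)).1 (C0 i)
  have hδ : ∀ i, U (c (.inl i)) := fun i => (hm _ _ (hη i)).1 (A0 i)
  have hw : ∀ i : Fin n, U (wr l i) := fun i => hm' _ _ (hY _) ((hm _ _ (hη i)).1 (B0 i))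
  have hθ : ∀ i, U (μ (.inr i)) := fun i => hm' _ _ (hY i) (A1 i)
  have hp : ∀ i, U (p i) := fun i => hm' _ _ (hδ i) ((hm _ _ (hθ i)).1 (C1 i))
  have hq : ∀ i, U (q i) := fun i => by
    have a := (hm _ _ (hw (i + 1))).2 (hm' _ _ (hδ _) ((hm _ _ (hθ i)).1 (B1 i)))
    obtain ⟨w, b, b0⟩ := hw (i + 1)
    rwa [mul_div_cancel₀ _ (b.ne_zero b0)] at a
  have hl : U l := by simpa only [wr, if_true] using hw 0
  have hc : ∀ i, U (c i) := Sum.rec hδ hY
  have hμ : ∀ i, U (μ i) := Sum.rec hη hθ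
  have h11 : ∀ a m, U ((u a).1.1 m) := Fin.forall_fin_two.2 ⟨u0, u1⟩
  have h12 : ∀ a g, ∃ w, φ ((u a).1.2 g) w := by
    refine Fin.forall_fin_two.2 ⟨fun ⟨i, j⟩ => ?_, fun ⟨i, j⟩ => ?_⟩
    · by_cases e : j = pr n s i
      · exact ⟨0, φ.zero.congr (e ▸ (congrFun hu (.inl i)).symm) rfl⟩
      · exact (v0 (i, j) e).imp fun _ a => a.1
    · by_cases e : j = pr n (s + 1) i
      · exact ⟨0, φ.zero.congr (e ▸ (congrFun hu (.inr i)).symm) rfl⟩
      · exact (v1 (i, j) e).imp fun _ a => a.1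
  have h2 : ∀ a, ∃ w, φ (u a).2 w := Fin.forall_fin_two.2 ⟨⟨_, h'⟩, z1.imp fun _ a => a.1⟩
  choose p' hp using hp
  choose q' hq using hq
  obtain ⟨l', hl⟩ := hl
  choose c' hc using hc
  choose μ' hμ using hμ
  choose w1 h11 using h11
  choose w2 h12 using h12
  choose w3 h2 using h2
  obtain ⟨r1, r2⟩ := rel_kf s (u' := fun a => ((w1 a, w2 a), w3 a)) (fun i => (hp i).1)
    (fun i => (hq i).1) hl.1 hl.2 (fun i => (hc i).1) (fun i => (hμ i).1)
    (fun a m => (h11 a m).1) h12 h2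
  exact ⟨p', q', l', c', μ', fun a => ((w1 a, w2 a), w3 a), hp, hq, hl, hc, hμ, h11, h12, h2,
    Prod.ext (funext fun m => (r1 m).func (h m)) (r2.func h')⟩

end Geo

variable {n : ℕ} [Ex n] {r : ℕ} (e : Fin r → ℤ) (s : ℕ)

theorem km_sum_cG : ∑ i, cG n e i = ∑ m, cJ n e s m := by
  have h : ∑ i, Ex.a (pr n s i) = ∑ i : Fin n, Ex.a i := Equiv.sum_comp (pr n s) Ex.a
  simp only [cG, cJ, Fintype.sum_sum_type, Sum.elim_inl, Sum.elim_inr, Finset.sum_neg_distrib,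
    Finset.sum_add_distrib, h]
  ring

theorem km_zpow_sum_ne {K ι : Type} [Field K] {z : K} (hz : z ≠ 0) (t : Finset ι) (f : ι → ℤ) :
    z ^ (∑ i ∈ t, f i) = ∏ i ∈ t, z ^ f i := by
  classical
  induction t using Finset.induction_on with
  | empty => simp
  | insert i t hi ih => rw [Finset.sum_insert hi, Finset.prod_insert hi, zpow_add₀ hz, ih]

theorem f_lev {K : Type} [Field K] {C B A : Fin n → K} {z : K} {v : TX n r K}
    (h : ∀ m, lev s C B A z v m ≠ 0) :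
    ∏ m, lev s C B A z v m ^ m.elim (-∑ i, cG n e i) (cG n e) =
      ((∏ i, (C i / A i) ^ Ex.b i) * ∏ i, (B i / A i) ^ Ex.a (pr n s i)) *
        ∏ m, v.1.1 m ^ cJ n e s m := by
  obtain ⟨hz, -, -, hA, hu, hν⟩ := (lev_ne_iff s).1 h
  have e1 : ∏ j, B ((pr n s).symm j) ^ Ex.a j = ∏ i, B i ^ Ex.a (pr n s i) := by
    rw [← Equiv.prod_comp (pr n s)]
    simp only [Equiv.symm_apply_apply]
  have e2 : (∏ g : Fin n × Fin n, jn s A (fun g => z * v.1.2 g) g ^ (-(Ex.b g.1 + Ex.a g.2))) *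
      ∏ g : Fin n × Fin n, (z * jn s (fun i => v.1.1 (.inl i)) v.1.2 g) ^ (Ex.b g.1 + Ex.a g.2) =
      ∏ i, (z * v.1.1 (.inl i) / A i) ^ (Ex.b i + Ex.a (pr n s i)) := by
    rw [← Finset.prod_mul_distrib, Fintype.prod_prod_type]
    refine Finset.prod_congr rfl fun i _ => ?_
    rw [Finset.prod_eq_single (pr n s i) _ (by simp), km_jn_pr, km_jn_pr, _root_.zpow_neg, div_zpow,
      div_eq_inv_mul]
    intro j _ hj
    rw [km_jn_of_ne s _ _ hj, km_jn_of_ne s _ _ hj, _root_.zpow_neg]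
    exact inv_mul_cancel₀ (zpow_ne_zero _ (mul_ne_zero hz (hν (i, j) hj)))
  have e3 : z ^ (∑ m, cJ n e s m) = (∏ i, z ^ (Ex.b i + Ex.a (pr n s i))) * ∏ j, z ^ e j := by
    rw [km_zpow_sum_ne hz, Fintype.prod_sum_type]
    rfl
  have e4 : ∏ i, A i ^ (Ex.b i + Ex.a (pr n s i)) =
      (∏ i, A i ^ Ex.b i) * ∏ i, A i ^ Ex.a (pr n s i) := by
    rw [← Finset.prod_mul_distrib]
    exact Finset.prod_congr rfl fun i _ => zpow_add₀ (hA i) _ _
  rw [km_sum_cG e s]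
  simp only [Fintype.prod_option, Fintype.prod_sum_type, Option.elim_none, Option.elim_some, lev,
    cG, Sum.elim_inl, Sum.elim_inr, e1]
  rw [← mul_assoc (∏ g : Fin n × Fin n, _), e2, _root_.zpow_neg, e3]
  simp only [cJ, Sum.elim_inl, Sum.elim_inr, div_zpow, mul_zpow, Finset.prod_mul_distrib,
    Finset.prod_div_distrib, e4]
  have : ∏ i, z ^ (Ex.b i + Ex.a (pr n s i)) ≠ 0 :=
    Finset.prod_ne_zero_iff.2 fun _ _ => zpow_ne_zero _ hz
  have : ∏ j, z ^ e j ≠ 0 := Finset.prod_ne_zero_iff.2 fun _ _ => zpow_ne_zero _ hz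
  field_simp

/-- The function. -/
theorem f_kf {K : Type} [Field K] {p q : Fin n → K} {l : K} {c μ : Fin n ⊕ Fin n → K}
    {u : Fin 2 → TX n r K} (h : ∀ m, (kf s p q l c μ u).1 m ≠ 0) :
    ∏ m : Fin 2 × Option (Kp n ⊕ Rh n r),
      (kf s p q l c μ u).1 m ^ m.2.elim (-∑ i, cG n e i) (cG n e) =
    ((∏ i, p i ^ Ex.b i) * ∏ i, q i ^ Ex.a (pr n (s + 1) i)) *
      ∏ a : Fin 2, ∏ m, (u a).1.1 m ^ cJ n e (s + a) m := by
  rw [Prod.forall, Fin.forall_fin_two] at h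
  rw [Fintype.prod_prod_type, Fin.prod_univ_two, Fin.prod_univ_two]
  simp only [kf_zero, kf_one] at h ⊢
  rw [f_lev e s h.1, f_lev e (s + 1) h.2]
  obtain ⟨-, C0, B0, A0, -⟩ := (lev_ne_iff s).1 h.1
  obtain ⟨-, -, -, A1, -⟩ := (lev_ne_iff (s + 1)).1 h.2
  have hη : ∀ i, μ (.inl i) ≠ 0 := fun i => left_ne_zero_of_mul (A0 i)
  have hθ : ∀ i, μ (.inr i) ≠ 0 := fun i => left_ne_zero_of_mul (A1 i)
  have hδ : ∀ i, c (.inl i) ≠ 0 := fun i => right_ne_zero_of_mul (A0 i)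
  have hY : ∀ i, c (.inr i) ≠ 0 := fun i => right_ne_zero_of_mul (C0 i)
  have hw : ∀ i : Fin n, wr l i ≠ 0 := fun i => left_ne_zero_of_mul (right_ne_zero_of_mul (B0 i))
  have e1 : (∏ i, (μ (.inl i) * c (.inr i) / (μ (.inl i) * c (.inl i))) ^ Ex.b i) *
      ∏ i, (μ (.inr i) * (p i * c (.inl i)) / (μ (.inr i) * c (.inr i))) ^ Ex.b i =
      ∏ i, p i ^ Ex.b i := by
    rw [← Finset.prod_mul_distrib]
    refine Finset.prod_congr rfl fun i _ => ?_
    rw [← mul_zpow]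
    congr 1
    have := hη i
    have := hθ i
    have := hδ i
    have := hY i
    field_simp
  have e2 : (∏ i, (μ (.inl i) * (wr l i * c (.inr (i - 1))) / (μ (.inl i) * c (.inl i))) ^
      Ex.a (pr n s i)) * ∏ i, (μ (.inr i) * (q i / wr l (i + 1) * c (.inl (i + 1))) /
        (μ (.inr i) * c (.inr i))) ^ Ex.a (pr n (s + 1) i) =
      ∏ i, q i ^ Ex.a (pr n (s + 1) i) := by
    rw [← Equiv.prod_comp (Equiv.addRight (1 : Fin n)), ← Finset.prod_mul_distrib]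
    refine Finset.prod_congr rfl fun i _ => ?_
    rw [Equiv.coe_addRight, pr_succ, ← mul_zpow, add_sub_cancel_right]
    congr 1
    have := hη (i + 1)
    have := hθ i
    have := hδ (i + 1)
    have := hY i
    have := hw (i + 1)
    field_simp
  rw [← e1, ← e2]
  simp only [Fin.val_zero, Fin.val_one, add_zero]
  ring

variable (k n) in
/-- The merged hyperplane. -/
@[reducible] def Mv : PV k := mvG (epsG k n r) (cG n e) (gam n)

variable {P : Pt k} (T : PC P) (hχ : Gen χ n)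

/-- The map from pairs of vectors. -/
def kk ⦃K : Fld k⦄ (x : (masD e s T hχ).Xc.X K) : ((Mv k n e).over T).X K :=
  (kf s x.1.1.1.1.1.1 x.1.1.1.1.1.2 x.1.1.1.1.2 x.1.2 x.2 x.1.1.1.2, x.1.1.2)

/-- The map from flags in coordinates. -/
def ka ⦃K : Fld k⦄ (x : (((Fb k n s).tw (W2 k n e s)).over T).X K) : ((Mv k n e).over T).X K :=
  (kf s x.1.1.1.1.1 x.1.1.1.1.2 x.1.1.1.2 x.1.1.2 (muS s x.1.1.2 x.1.2) x.1.2, x.2)

variable {T} (hT : T.Dep {2})
include hT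

theorem kk_cond {K : Fld k} {p q : Fin n → K} {l : K} {c μ : Fin n ⊕ Fin n → K}
    {u : Fin 2 → TX n r K} (h : ∀ m, (kf s p q l c μ u).1 m ≠ 0) (y : P.X K) :
    T.T ((Mv k n e).c (kf s p q l c μ u)) y ↔ T.T (fun _ => qd2 p q l) y := by
  have h1 : (Mv k n e).c (kf s p q l c μ u) 2 = qd2 p q l :=
    (chiA_two fun a => ell (gam n) fun i => (kf s p q l c μ u).1 (a, some i)).trans
      (by rw [(ell_kf s h).1, (ell_kf s h).2, qd2])
  exact ⟨hT _ _ _ fun m hm => by rw [hm]; exact h1, hT _ _ _ fun m hm => by rw [hm]; exact h1.symm⟩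

theorem kk_live {K : Fld k} {x : (masD e s T hχ).Xc.X K} (h : (masD e s T hχ).Xc.L x) :
    ((Mv k n e).over T).L (kk e s T hχ x) ↔ ∀ m, (kk e s T hχ x).1.1 m ≠ 0 :=
  ⟨fun a => a.1.1.1.1.2, fun a => ⟨⟨⟨⟨⟨fun _ => trivial, a⟩, rfl, (lin_kf s).trans (by
    have h1 := h.2.1
    have h2 := h.1.1.1.1.1.2.2.1
    rw [h2, mul_zero, add_zero]
    exact h1)⟩, trivial⟩, h.1.1.1.1.2⟩, (kk_cond e s hT a _).2 h.1.1.1.2⟩⟩

omit hT in
theorem kk_rel {K K' : Fld k} {φ : Place K K'} {x : (masD e s T hχ).Xc.X K}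
    {y : (masD e s T hχ).Xc.X K'} (h : (masD e s T hχ).Xc.L y)
    (r : (masD e s T hχ).Xc.R φ x y) :
    ((Mv k n e).over T).R φ (kk e s T hχ x) (kk e s T hχ y) :=
  ⟨rel_kf s r.1.1.1.1.1.1 r.1.1.1.1.1.2 r.1.1.1.1.2 h.1.1.1.1.1.1.2.2 r.1.2 r.2
    (fun a => (r.1.1.1.2 a).1.1) (fun a => (r.1.1.1.2 a).1.2) fun a => (r.1.1.1.2 a).2, r.1.1.2⟩

theorem isMap_kk : IsMap (masD e s T hχ).Xc ((Mv k n e).over T) (kk e s T hχ) := by
  refine .of_open (fun _ _ φ x y a b r h => (kk_live e s hχ hT a).2 fun m =>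
    ((kk_rel e s hχ b r).1.1 m).ne_zero (h.1.1.1.1.2 m)) (.of_proper
    ⟨fun _ _ a => a.2, fun _ _ φ x y _ b r => kk_rel e s hχ b.1 r⟩ (fun K x a => ?_)
    fun K K' φ x z a b t => ?_)
  · have h := f_kf e s a.2.1.1.1.1.2
    change (∏ m : Fin 2 × Option (Kp n ⊕ Rh n r), (kk e s T hχ x).1.1 m ^
      m.2.elim (-∑ i, cG n e i) (cG n e)) * 1 * P.f x.1.1.2 =
      (∏ i, x.1.1.1.1.1.1 i ^ Ex.b i) * (∏ i, x.1.1.1.1.1.2 i ^ Ex.a (pr n (s + 1) i)) * 1 *
        (∏ a : Fin 2, ∏ m, (x.1.1.1.2 a).1.1 m ^ cJ n e (s + a) m) * P.f x.1.1.2 *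
        (∏ _a : Fin n ⊕ Fin n, (1 : K)) * ∏ _a : Fin n ⊕ Fin n, (1 : K)
    rw [Finset.prod_const_one, mul_one, mul_one, mul_one, mul_one]
    exact congrArg (· * _) h
  · obtain ⟨p', q', l', c', μ', u', h1, h2, h3, h4, h5, h6, h7, h8, h9⟩ :=
      kf_proper s a.1.1.1.2.2 a.1.1.1.1.1.1.2.2.2 b.1.1.1.1.2 t.1.1 t.1.2
    obtain ⟨z, y⟩ := z
    subst h9
    have r1 : (tw0 k n r).R φ x.1.1.1.2 u' := fun a =>
      ⟨⟨fun m => (h6 a m).1, h7 a⟩, h8 a⟩
    have l1 : (tw0 k n r).L u' := fun a =>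
      ⟨⟨⟨fun _ => trivial, fun m => (h6 a m).2⟩, fun _ => trivial⟩, trivial⟩
    have r2 : (masD e s T hχ).Xc.R φ x ((((((p', q'), l'), u'), y), c'), μ') :=
      ⟨⟨⟨⟨⟨⟨fun i => (h1 i).1, fun i => (h2 i).1⟩, h3.1⟩, r1⟩, t.2⟩, fun i => (h4 i).1⟩,
        fun i => (h5 i).1⟩
    have l2 : ((((Yv k n e s).over T).prod (nrmV k (.inl 0 : Fin n ⊕ Fin n))).prod
        ((line k).pi (Fin n ⊕ Fin n))).L ((((((p', q'), l'), u'), y), c'), μ') :=
      ⟨⟨⟨⟨⟨⟨⟨⟨fun _ => trivial, fun i => (h1 i).2⟩, fun _ => trivial, fun i => (h2 i).2⟩,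
        trivial, h3.2⟩, l1, closed_Pas k n s r φ _ _ a.1.1.1.1.1.1.2.1 l1 r1 a.1.1.1.1.1.1.2.2⟩,
        b.1.2⟩, (kk_cond e s hT b.1.1.1.1.2 _).1 b.2⟩, fun _ => trivial,
        (h4 _).1.eq_of φ.one a.1.1.1.2.2⟩, fun _ => trivial⟩
    exact ⟨_, ⟨⟨l2, rad_closedW (masD e s T hχ).reg₀ (masD e s T hχ).reg₁ φ _ _ a.1.1 l2 r2
      a.1.2.1, fun g _ => (h5 g).2⟩, b⟩, r2⟩

omit hT in
theorem kk_tr {K : Fld k} {p q : Fin n → K} {l : K} {c μ : Fin n ⊕ Fin n → K}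
    {u : Fin 2 → TX n r K} (hp : ∀ i, p i ≠ 0) (hq : ∀ i, q i ≠ 0) (hl : l ≠ 0)
    (h0 : μ (.inl 0) ≠ 0) :
    kf s p q (lp p q l) (fun j => μ j / (μ (.inl 0) * omq p q j))
      (fun j => μ (.inl 0) * omq p q j * c j) u =
    sk (epsG k n r) (cG n e) (gam n) (kf s p q l c μ u) := by
  have ω0 := omq_ne hp hq
  have ω1 : ∀ i, omq p q (.inl i) = omq p q (.inr i) * p i := fun i =>
    (div_mul_cancel₀ _ (hp i)).symm
  have w0 : ∀ {l : K}, l ≠ 0 → ∀ i : Fin n, wr l i ≠ 0 := fun h i => by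
    unfold wr
    split_ifs
    exacts [h, one_ne_zero]
  have ω2 : ∀ i, q i = omq p q (.inl (i + 1)) * (wr l (i + 1) * wr (lp p q l) (i + 1)) /
      omq p q (.inr i) := fun i => by
    rw [omq_succ hl, mul_div_cancel_left₀ _ (ω0 _)]
  have π1 : ∀ j, (pr n s).symm j = (pr n (s + 1)).symm j + 1 := fun j => by
    rw [Equiv.symm_apply_eq, ← pr_succ, Equiv.apply_symm_apply]
  have A : ∀ j, μ (.inl 0) * omq p q j * c j * (μ j / (μ (.inl 0) * omq p q j)) = μ j * c j :=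
    fun j => by
      have := ω0 j
      field_simp
  refine Prod.ext (funext fun ⟨a, m⟩ => ?_) rfl
  revert a
  rw [Fin.forall_fin_two]
  rcases m with _ | (i | j) | g | g | j
  · exact ⟨rfl, rfl⟩
  · have := ω0 (.inr i)
    have := hp i
    constructor
    · change μ (.inl 0) * omq p q (.inl i) * c (.inl i) *
        (μ (.inr i) / (μ (.inl 0) * omq p q (.inr i))) = μ (.inr i) * (p i * c (.inl i))
      rw [ω1]
      field_simp
    · change μ (.inl 0) * omq p q (.inr i) * c (.inr i) *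
        (p i * (μ (.inl i) / (μ (.inl 0) * omq p q (.inl i)))) = μ (.inl i) * c (.inr i)
      rw [ω1]
      field_simp
  · have h1 := π1 j
    generalize hi : (pr n (s + 1)).symm j = i at h1
    have := ω0 (.inr i)
    have := ω0 (.inl (i + 1))
    have := w0 hl (i + 1)
    have := w0 (lp_ne hp hq hl) (i + 1)
    constructor
    · simp only [kf, sk, lev, h1, hi, add_sub_cancel_right, Fin.rev_zero, Fin.isValue, if_true,
        Fin.last_eq_zero_iff, if_false, one_ne_zero]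
      rw [ω2 i]
      field_simp
    · simp only [kf, sk, lev, h1, hi, add_sub_cancel_right, show (1 : Fin 2).rev = 0 from rfl,
        if_true, if_false, one_ne_zero]
      rw [ω2 i]
      field_simp
  · constructor
    · simp only [kf, sk, lev, A]
    · simp only [kf, sk, lev, A]
  · exact ⟨rfl, rfl⟩
  · exact ⟨rfl, rfl⟩

theorem kk_σ : (masD e s T hχ).isMap_σ.hom χ ≫ (isMap_kk e s hχ hT).hom χ =
    (isMap_kk e s hχ hT).hom χ ≫
      ov χ (Mv k n e) (Mv k n e) T (sk (epsG k n r) (cG n e) (gam n)) := by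
  have h := (pend_sk (epsG k n r) (cG n e) (gam n)).toPMap.over hT
  have he : ∀ ⦃K⦄ (x : (masD e s T hχ).Xc.X K), (masD e s T hχ).Xc.L x →
      kk e s T hχ ((masD e s T hχ).σ x) =
        (sk (epsG k n r) (cG n e) (gam n) (kk e s T hχ x).1, (kk e s T hχ x).2) :=
    fun _ x a => Prod.ext (kk_tr e s a.1.1.1.1.1.1.1.1.2 a.1.1.1.1.1.1.1.2.2
      a.1.1.1.1.1.1.2.2 (a.2.2 _ rfl)) rfl
  rw [ov, h.hm_eq]
  refine IsMap.comm _ _ _ h (fun _ x a => ?_) fun _ x a _ _ => he x a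
  rw [he x a]
  refine and_congr_left fun b => iff_of_true ((masD e s T hχ).live_σ x a)
    ((kk_live e s hχ hT a).2 fun ⟨i, m⟩ => ?_)
  rcases m with _ | u | g
  · exact b.1.1.1.1.2 (i, none)
  · have := b.1.1.1.1.2 (i.rev, some (.inl u))
    simpa only [sk, Fin.rev_rev] using this
  · exact b.1.1.1.1.2 (i, some (.inr g))

omit hT in
/-- A map whose points with live image lie in an open set is a map on that set. -/
theorem isMap_on_open {S S' : Pt k} {g : ∀ ⦃K⦄, S.X K → S'.X K} (h : IsMap S S' g) {U : S.Cond}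
    (op : S.Open U) (hU : ∀ ⦃K⦄ (x : S.X K), S.L x → S'.L (g x) → U x) :
    IsMap (S.restr U op.conv) S' g := by
  refine ⟨fun _ x hx => h.f x hx.1, fun _ _ φ x y hx hy r => h.sp φ x y hx.1 hy.1 r,
    fun _ _ φ x hx hd => ?_⟩
  rcases R_or_Dd (S := S) φ x with ⟨y, hy, r⟩ | d
  · exact (h.sp φ x y hx.1 hy r).2 fun l => hd hx y ⟨hy, hU y hy l⟩ r
  · exact h.dead φ x hx.1 d

omit hT in
theorem rel_jnU_ka {K K' : Fld k} {φ : Place K K'} {t : Fin n ⊕ Fin n → K}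
    {t' : Fin n ⊕ Fin n → K'} {u : Fin 2 → TX n r K} {u' : Fin 2 → TX n r K'}
    (ht : ∀ a, φ (t a) (t' a)) (hu : ∀ a g, φ ((u a).1.2 g) ((u' a).1.2 g)) (a : Fin 2)
    (g : Fin n × Fin n) : φ ((jnU s t u a).1.2 g) ((jnU s t' u' a).1.2 g) := by
  simp only [jnU, jn]
  split_ifs
  exacts [ht _, ht _, hu a g]

omit hT in
variable (T) in
/-- The paired entries are free coordinates. -/
theorem aff_ka : (((Fb k n s).tw (W2 k n e s)).over T).Aff (Fin n ⊕ Fin n)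
    (fun _ x => muU s x.1.2) fun _ x t => ((x.1.1, jnU s t x.1.2), x.2) where
  rs a _ _ φ x y _ _ r := by
    rcases a with i | i
    exacts [(r.1.2 0).1.2 _, (r.1.2 1).1.2 _]
  self _ x _ := by rw [jnU_muU]
  live _ x t hx := ⟨⟨⟨hx.1.1.1, fun a => ⟨⟨(hx.1.1.2 a).1.1, fun _ => trivial⟩, trivial⟩⟩,
    hx.1.2⟩, hx.2⟩
  coord _ x t _ := muU_jnU s t x.1.2
  f _ _ _ _ := rfl
  mv_mv _ x t t' _ := by rw [jnU_jnU]
  reg _ _ _ _ _ _ _ _ _ r ht := ⟨⟨r.1.1, fun a => ⟨⟨(r.1.2 a).1.1,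
    rel_jnU_ka s ht (fun a => (r.1.2 a).1.2) a⟩, (r.1.2 a).2⟩⟩, r.2⟩

omit hT in
variable (T) in
theorem open_ka : (((Fb k n s).tw (W2 k n e s)).over T).Open fun _ x =>
    (∀ i, x.1.1.2 i ≠ 0) ∧ (x.1.2 1).2 ≠ 0 := fun _ _ _ _ _ _ _ r h =>
  ⟨fun i => (r.1.1.2 i).ne_zero (h.1 i), (r.1.2 1).2.ne_zero h.2⟩

omit hT in
theorem ka_live_thM ⦃K : Fld k⦄ (x : (((Fb k n s).tw (W2 k n e s)).over T).X K)
    (hx : (((Fb k n s).tw (W2 k n e s)).over T).L x) :
    (masD e s T hχ).Fz.L (thM e s T hχ x) :=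
  ⟨⟨⟨⟨⟨⟨hx.1.1.1.1.1, ⟨fun a => ⟨⟨(hx.1.1.2 a).1.1.1, fun _ => trivial⟩, trivial⟩,
    (hx.1.1.2 1).1.1.2, muU_jnU s 0 x.1.2⟩⟩, hx.1.2⟩, hx.2⟩, hx.1.1.1.1.2⟩, fun _ => trivial⟩,
    (hx.1.1.2 0).1.1.2, fun g => congrFun hx.1.1.1.2 g⟩

omit hT in
theorem ne_kb ⦃K : Fld k⦄ (x : (((Fb k n s).tw (W2 k n e s)).over T).X K)
    (hx : (((Fb k n s).tw (W2 k n e s)).over T).L x)
    (l : ((Mv k n e).over T).L (kk e s T hχ (thM e s T hχ x))) :
    (∀ i, x.1.1.2 i ≠ 0) ∧ (∀ i, muU s x.1.2 i ≠ 0) ∧ (x.1.2 1).2 ≠ 0 :=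
  have h := (kf_ne_iff s (u := jnU s 0 x.1.2) hx.1.1.1.1.1.1.1.2 hx.1.1.1.1.1.1.2.2
    hx.1.1.1.1.1.2.2 fun a => (hx.1.1.2 a).1.1.1.2).1 l.1.1.1.1.2
  ⟨h.1, h.2.1, h.2.2.1⟩

omit hT in
theorem live_kb ⦃K : Fld k⦄ (x : (((Fb k n s).tw (W2 k n e s)).over T).X K)
    (hx : (((Fb k n s).tw (W2 k n e s)).over T).L x)
    (l : ((Mv k n e).over T).L (kk e s T hχ (thM e s T hχ x))) :
    (masD e s T hχ).Xc.L (thM e s T hχ x) := by
  have h := ka_live_thM e s hχ x hx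
  refine ⟨h.1, ?_, ?_⟩
  · rw [h.2.1, zero_add]
    exact Finset.sum_eq_zero fun g _ => by rw [h.2.2 g, mul_zero]
  · rintro _ rfl
    exact (ne_kb e s hχ x hx l).2.1 (.inl 0)

theorem isMap_kb : IsMap (((Fb k n s).tw (W2 k n e s)).over T) ((Mv k n e).over T)
    fun _ x => kk e s T hχ (thM e s T hχ x) :=
  ((isMap_thM e s T hχ).comp (isMap_rad (masD e s T hχ).reg₀ (masD e s T hχ).reg₁ {.inl 0})
    fun _ x hx _ => ka_live_thM e s hχ x hx).comp (isMap_kk e s hχ hT) (live_kb e s hχ)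

theorem isMap_kbU : IsMap ((((Fb k n s).tw (W2 k n e s)).over T).restr _ (open_ka e s T).conv)
    ((Mv k n e).over T) fun _ x => kk e s T hχ (thM e s T hχ x) :=
  isMap_on_open (isMap_kb e s hχ hT) (open_ka e s T) fun _ x hx l =>
    ⟨(ne_kb e s hχ x hx l).1, (ne_kb e s hχ x hx l).2.2⟩

omit hT in
variable (T) in
theorem aff_kaU : ((((Fb k n s).tw (W2 k n e s)).over T).restr _ (open_ka e s T).conv).Aff
    (Fin n ⊕ Fin n) (fun _ x => muU s x.1.2) fun _ x t => ((x.1.1, jnU s t x.1.2), x.2) :=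
  (aff_ka e s T).restr _ fun _ _ _ _ h => h

/-- The factors of the rescaling. -/
def wS {K : Type} [Field K] {n r : ℕ} [NeZero n] (c : Fin n ⊕ Fin n → K) (u : Fin 2 → TX n r K) :
    Fin n ⊕ Fin n → K :=
  Sum.elim (fun i => 1 / c (.inl i)) fun i => (u 1).2 / c (.inr i)

omit hT in
theorem muS_eq {K : Type} [Field K] (c : Fin n ⊕ Fin n → K) (u : Fin 2 → TX n r K) :
    muS s c u = fun a => wS c u a * muU s u a := funext fun a => by
  rcases a with i | i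
  · simp only [muS, wS, Sum.elim_inl]
    ring
  · simp only [muS, wS, Sum.elim_inr]
    ring

omit hT in
variable (T) in
theorem reg_wS (a : Fin n ⊕ Fin n) :
    ((((Fb k n s).tw (W2 k n e s)).over T).restr _ (open_ka e s T).conv).RegF
      fun _ x => wS x.1.1.2 x.1.2 a := fun _ _ φ _ _ _ b r => by
  rcases a with i | i
  exacts [φ.one.div (r.1.1.2 _) (b.2.1 _), (r.1.2 1).2.div (r.1.1.2 _) (b.2.1 _)]

omit hT in
variable (T) in
theorem ne_wS ⦃K : Fld k⦄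
    (x : ((((Fb k n s).tw (W2 k n e s)).over T).restr _ (open_ka e s T).conv).X K)
    (hx : ((((Fb k n s).tw (W2 k n e s)).over T).restr _ (open_ka e s T).conv).L x)
    (a : Fin n ⊕ Fin n) : wS x.1.1.2 x.1.2 a ≠ 0 := by
  rcases a with i | i
  exacts [div_ne_zero one_ne_zero (hx.2.1 _), div_ne_zero hx.2.2 (hx.2.1 _)]

omit hT in
variable (T) in
theorem isMap_scU :
    IsMap ((((Fb k n s).tw (W2 k n e s)).over T).restr _ (open_ka e s T).conv)
      ((((Fb k n s).tw (W2 k n e s)).over T).restr _ (open_ka e s T).conv)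
      fun _ x => ((x.1.1, jnU s (muS s x.1.1.2 x.1.2) x.1.2), x.2) := by
  have A := aff_kaU (n := n) e s T
  refine .of_inv (g := fun _ x => ((x.1.1, jnU s (fun a => muU s x.1.2 a / wS x.1.1.2 x.1.2 a)
      x.1.2), x.2)) ⟨fun _ x hx => A.live x _ hx, fun _ _ φ x y hx hy r =>
        A.reg φ x y _ _ hx hy r fun a => ?_⟩
    ⟨fun _ x hx => A.live x _ hx, fun _ _ φ x y hx hy r => A.reg φ x y _ _ hx hy r fun a =>
      (A.rs a φ x y hx hy r).div (reg_wS e s T a φ x y hx hy r) (ne_wS e s T y hy a)⟩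
    (fun _ _ _ => rfl) fun _ x hx => ?_
  · rw [muS_eq, muS_eq]
    exact (reg_wS e s T a φ x y hx hy r).mul (A.rs a φ x y hx hy r)
  · have h : (fun a => muS s x.1.1.2 x.1.2 a / wS x.1.1.2 x.1.2 a) = muU s x.1.2 :=
      funext fun a => by rw [muS_eq, mul_div_cancel_left₀ _ (ne_wS e s T x hx a)]
    change ((x.1.1, jnU s (fun a => muU s (jnU s (muS s x.1.1.2 x.1.2) x.1.2) a /
      wS x.1.1.2 x.1.2 a) (jnU s (muS s x.1.1.2 x.1.2) x.1.2)), x.2) = x
    rw [muU_jnU, jnU_jnU, h, jnU_muU]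

omit hT in
theorem ka_eq ⦃K : Fld k⦄ (x : (((Fb k n s).tw (W2 k n e s)).over T).X K) :
    ka e s T x = kk e s T hχ (thM e s T hχ
      ((x.1.1, jnU s (muS s x.1.1.2 x.1.2) x.1.2), x.2)) := by
  change (kf s _ _ _ _ _ _, x.2) = (kf s _ _ _ _ (muU s (jnU s _ _)) (jnU s 0 (jnU s _ _)), x.2)
  rw [muU_jnU, kf_jnU, kf_jnU]
  rfl

include hχ in
theorem isMap_kaU : IsMap ((((Fb k n s).tw (W2 k n e s)).over T).restr _ (open_ka e s T).conv)
    ((Mv k n e).over T) (ka e s T) :=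
  ((isMap_scU e s T).comp (isMap_kbU e s hχ hT) fun _ x hx _ =>
    (aff_kaU e s T).live x _ hx).congr fun _ x _ => ka_eq e s hχ x

omit hT in
include hχ in
theorem live_ka ⦃K : Fld k⦄ (x : (((Fb k n s).tw (W2 k n e s)).over T).X K)
    (hx : (((Fb k n s).tw (W2 k n e s)).over T).L x) (l : ((Mv k n e).over T).L (ka e s T x)) :
    ((((Fb k n s).tw (W2 k n e s)).over T).restr _ (open_ka e s T).conv).L x :=
  have h := ne_kb e s hχ _ ((aff_ka e s T).live x (muS s x.1.1.2 x.1.2) hx) (ka_eq e s hχ x ▸ l)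
  ⟨hx, h.1, h.2.2⟩

include hχ in
theorem isMap_ka : IsMap (((Fb k n s).tw (W2 k n e s)).over T) ((Mv k n e).over T)
    (ka e s T) :=
  (isMap_open (open_ka e s T)).comp (isMap_kaU e s hχ hT) (live_ka e s hχ)

theorem null_ka [CharZero F] : Null ((isMap_ka e s hχ hT).hom χ - (isMap_thM e s T hχ).hom χ ≫
    (isMap_rad (masD e s T hχ).reg₀ (masD e s T hχ).reg₁ {.inl 0}).hom χ ≫
      (isMap_kk e s hχ hT).hom χ) := by
  have A : ((((Fb k n s).tw (W2 k n e s)).over T).restr _ (open_ka e s T).conv).Acts χ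
      (fun _ x => ((x.1.1, jnU s (muS s x.1.1.2 x.1.2) x.1.2), x.2)) 1 :=
    acts_congrM ((aff_kaU (n := n) e s T).acts (χ := χ) 1 (c := fun _ _ _ => 0)
      (reg_wS e s T) (fun _ => regF_zero) (ne_wS e s T) (fun _ _ _ _ => rfl) fun _ _ _ _ => rfl)
      fun _ x _ => by simp only [muS_eq, add_zero, Equiv.Perm.one_apply]
  obtain ⟨m, hm⟩ := A
  have e1 : (isMap_open (open_ka e s T)).hom χ ≫ m.hom χ ≫ (isMap_kbU e s hχ hT).hom χ =
      (isMap_ka e s hχ hT).hom χ := by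
    rw [m.hom_comp (isMap_kbU e s hχ hT) (isMap_kaU e s hχ hT)
      (fun _ x hx _ => (aff_kaU e s T).live x _ hx) fun _ x _ _ => (ka_eq e s hχ x).symm]
    exact IsMap.hom_comp _ _ _ (live_ka e s hχ) fun _ _ _ _ => rfl
  have e2 : (isMap_thM e s T hχ).hom χ ≫
      (isMap_rad (masD e s T hχ).reg₀ (masD e s T hχ).reg₁ {.inl 0}).hom χ ≫
        (isMap_kk e s hχ hT).hom χ =
      (isMap_open (open_ka e s T)).hom χ ≫ (isMap_kbU e s hχ hT).hom χ := by
    rw [← Category.assoc, IsMap.hom_comp _ _ ((isMap_thM e s T hχ).comp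
        (isMap_rad (masD e s T hχ).reg₀ (masD e s T hχ).reg₁ {.inl 0})
        fun _ x hx _ => ka_live_thM e s hχ x hx) (fun _ x hx _ => ka_live_thM e s hχ x hx)
        fun _ _ _ _ => rfl,
      IsMap.hom_comp _ _ (isMap_kb e s hχ hT) (live_kb e s hχ) fun _ _ _ _ => rfl]
    exact (IsMap.hom_comp (isMap_open (open_ka e s T)) (isMap_kbU e s hχ hT) _ (fun _ x hx l =>
      ⟨hx, (ne_kb e s hχ x hx l).1, (ne_kb e s hχ x hx l).2.2⟩) fun _ _ _ _ => rfl).symm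
  rw [← e1, e2]
  simpa only [one_smul, Preadditive.sub_comp, Preadditive.comp_sub, Category.id_comp] using
    (hm.comp ((isMap_kbU e s hχ hT).hom χ)).precomp ((isMap_open (open_ka e s T)).hom χ)

omit hT in
theorem jm_lin {K : Fld k} {x : Fin n → K} {u : TX n r K} (h : ∀ i, x i ≠ 1) :
    lin (epsG k n r) (ioG r s (x, u)).1 = lin (fun _ => (1 : k)) u.1.1 := by
  have h1 : ∀ i, u.1.2 (i, pr n s i) / (1 - x i) =
      u.1.2 (i, pr n s i) * (x i / (1 - x i)) + u.1.2 (i, pr n s i) := fun i => by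
    have := sub_ne_zero.2 (h i).symm
    field_simp
    ring
  have h2 : ∑ j, u.1.2 ((pr n s).symm j, j) * (x ((pr n s).symm j) / (1 - x ((pr n s).symm j))) =
      ∑ i, u.1.2 (i, pr n s i) * (x i / (1 - x i)) := by
    rw [← (pr n s).sum_comp]
    simp only [Equiv.symm_apply_apply]
  have h3 : ∀ g : Fin n × Fin n, (if g.2 = pr n s g.1 then u.1.1 (.inl g.1) else u.1.2 g) =
      u.1.2 g + if g.2 = pr n s g.1 then u.1.1 (.inl g.1) - u.1.2 (g.1, pr n s g.1) else 0 :=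
    fun ⟨i, j⟩ => by
      dsimp only
      split_ifs with a
      · rw [a, add_sub_cancel]
      · rw [add_zero]
  simp only [lin, epsG, ioG, Fintype.sum_sum_type, Sum.elim_inl, Sum.elim_inr, map_one, map_neg,
    one_mul, neg_mul, Finset.sum_neg_distrib, h1, h2, h3, Finset.sum_add_distrib]
  rw [Fintype.sum_prod_type (f := fun g : Fin n × Fin n =>
    if g.2 = pr n s g.1 then u.1.1 (.inl g.1) - u.1.2 (g.1, pr n s g.1) else 0)]
  simp only [Finset.sum_ite_eq', Finset.mem_univ, if_true, Finset.sum_sub_distrib]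
  ring

omit hT in
theorem jm_kf {K : Fld k} {x : ℕ → Sp K} {u : Fin 2 → TX n r K}
    (h : Flag n 2 (Finset.Ioo 0 2) x) (a : AllRel n 2 x) :
    mg (epsG k n r) (cG n e) (gam n) (jm (stpG k n e) s 2 (x, u)) =
      kf s (pU n (x 2)) (qU n (x 2)) (ev1 n (x 1)) (nv n (x 1)) (muS s (nv n (x 1)) u) u := by
  have c0 := (allRel_iff h).1 a
  have j := jmap_two h a
  refine Prod.ext (funext fun ⟨b, m⟩ => ?_) rfl
  revert b
  rw [Fin.forall_fin_two]
  rcases m with _ | (i | i) | g | g | i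
  · exact ⟨rfl, mul_one _⟩
  · constructor
    · change (u 0).1.2 (i, pr n s i) / (1 - jmap n 2 x 0 i) =
        (u 0).1.2 (i, pr n s i) / nv n (x 1) (.inl i) * nv n (x 1) (.inr i)
      rw [div_eq_mul_one_div, (j i).1]
      ring
    · change (u 1).2 * ((u 1).1.2 (i, pr n (s + 1) i) / (1 - jmap n 2 x 1 i)) =
        (u 1).2 * (u 1).1.2 (i, pr n (s + 1) i) / nv n (x 1) (.inr i) *
          (pU n (x 2) i * nv n (x 1) (.inl i))
      rw [div_eq_mul_one_div, (j i).2.2.1]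
      ring
  · constructor
    · obtain ⟨i, rfl⟩ := (pr n s).surjective i
      change (u 0).1.2 ((pr n s).symm (pr n s i), pr n s i) *
        (jmap n 2 x 0 ((pr n s).symm (pr n s i)) / (1 - jmap n 2 x 0 ((pr n s).symm (pr n s i)))) = _
      simp only [kf, lev, muS, muU, Equiv.symm_apply_apply, Sum.elim_inl, if_true]
      rw [(j i).2.1]
      ring
    · obtain ⟨i, rfl⟩ := (pr n (s + 1)).surjective i
      change (u 1).2 * ((u 1).1.2 ((pr n (s + 1)).symm (pr n (s + 1) i), pr n (s + 1) i) *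
        (jmap n 2 x 1 ((pr n (s + 1)).symm (pr n (s + 1) i)) /
          (1 - jmap n 2 x 1 ((pr n (s + 1)).symm (pr n (s + 1) i))))) = _
      simp only [kf, lev, muS, muU, Equiv.symm_apply_apply, Sum.elim_inr, one_ne_zero, if_false]
      rw [(j i).2.2.2]
      ring
  · obtain ⟨i, i'⟩ := g
    constructor
    · change (u 0).1.2 (i, i') = if i' = pr n s i then
        (u 0).1.2 (i, pr n s i) / nv n (x 1) (.inl i) * nv n (x 1) (.inl i) else 1 * (u 0).1.2 (i, i')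
      split_ifs with b
      · rw [div_mul_cancel₀ _ (c0 _), b]
      · rw [one_mul]
    · change (u 1).2 * (u 1).1.2 (i, i') = if i' = pr n (s + 1) i then
        (u 1).2 * (u 1).1.2 (i, pr n (s + 1) i) / nv n (x 1) (.inr i) * nv n (x 1) (.inr i)
        else (u 1).2 * (u 1).1.2 (i, i')
      split_ifs with b
      · rw [div_mul_cancel₀ _ (c0 _), b]
      · rfl
  · exact ⟨(one_mul _).symm, rfl⟩
  · exact ⟨(one_mul _).symm, rfl⟩

theorem jm_mg :
    ov χ (Zv (stpG k n e) s 2 (Finset.Ioo 0 2)) (Av (stpG k n e) 2) T (jm (stpG k n e) s 2) ≫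
      ov χ (avG (epsG k n r) (cG n e) (gam n) 2) (Mv k n e) T (mg (epsG k n r) (cG n e) (gam n)) =
    (ov χ (Zv (stpG k n e) s 2 (Finset.Ioo 0 2)) ((Fb k n s).tw (W2 k n e s)) T
      fun _ x => (eP n x.1, x.2)) ≫ (isMap_ka e s hχ hT).hom χ := by
  have p1 : PMap (Zv (stpG k n e) s 2 (Finset.Ioo 0 2)) (Av (stpG k n e) 2) {2}
      (jm (stpG k n e) s 2) := pmap_jm.mono fun _ hm => .inr hm
  have p2 := (pmap_mg (epsG k n r) (cG n e) (sum_gam n)).mono (Set.subset_univ {2})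
  have p3 : PMap (Zv (stpG k n e) s 2 (Finset.Ioo 0 2)) ((Fb k n s).tw (W2 k n e s)) {2}
      fun _ x => (eP n x.1, x.2) := (pmap_eP k n s).tw (W2 k n e s)
  rw [ov, ov, ov, (p1.over hT).hm_eq, (p2.over hT).hm_eq, (p3.over hT).hm_eq]
  have he : ∀ ⦃K⦄ (x : ((Zv (stpG k n e) s 2 (Finset.Ioo 0 2)).over T).X K),
      Flag n 2 (Finset.Ioo 0 2) x.1.1 → AllRel n 2 x.1.1 →
      (mg (epsG k n r) (cG n e) (gam n) (jm (stpG k n e) s 2 x.1), x.2) =
        ka e s T ((eP n x.1.1, x.1.2), x.2) := fun _ x a b => Prod.ext (jm_kf e s a b) rfl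
  refine IsMap.comm _ _ _ _ (fun K x a => ⟨fun b => ?_, fun b => ?_⟩)
    fun _ x a b _ => he x a.1.1.1 (allRel_of_live a.1.1.1 b.1.1)
  · have fl : Flag n 2 (Finset.Ioo 0 2) x.1.1 := a.1.1.1
    have al := allRel_of_live fl b.1.1.1
    have c1 : nv n (x.1.1 1) (.inl 0) = 1 := by
      have := (allRel_iff fl).1 al (.inl 0)
      unfold nv at this ⊢
      split_ifs at this ⊢ with g
      · simpa [cv] using g.choose_spec.2
      · exact absurd rfl this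
    have l : ((Fb k n s).tw (W2 k n e s)).S.L (eP n x.1.1, x.1.2) :=
      ⟨⟨⟨⟨⟨⟨fun _ => trivial, (solq_pU fl.trel).1⟩, fun _ => trivial, (solq_pU fl.trel).2.1⟩,
        trivial, (ev1_spec fl).1⟩, fun _ => trivial, c1⟩, (nv_spec fl c1).1⟩, a.1.1.2⟩
    exact ⟨⟨⟨l, a.1.2⟩, (p3.cond hT a.1.1 l).1 a.2⟩, he x fl al ▸ b.2⟩
  · have fl : Flag n 2 (Finset.Ioo 0 2) x.1.1 := a.1.1.1
    have al : AllRel n 2 x.1.1 := (allRel_iff fl).2 ((kf_ne_iff s b.1.1.1.1.1.1.1.1.2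
      b.1.1.1.1.1.1.1.2.2 b.1.1.1.1.1.1.2.2 fun c => (a.1.1.2 c).1.1.1.2).1 b.2.1.1.1.1.2).1
    have m := he x fl al ▸ b.2
    have l : (Av (stpG k n e) 2).S.L (jm (stpG k n e) s 2 x.1) := fun c =>
      ⟨⟨⟨fun _ => trivial, fun i => by
        have := m.1.1.1.1.2 (c, some i)
        revert this c
        rw [Fin.forall_fin_two]
        exact ⟨id, right_ne_zero_of_mul⟩⟩,
        (congrArg (· + 1) (jm_lin (s + c) fun i => ((fl.jmap_spec al).1 c i).2)).trans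
          (a.1.1.2 c).1.1.2⟩, trivial⟩
    exact ⟨⟨⟨l, a.1.2⟩, (p1.cond hT a.1.1 l).1 a.2⟩, m⟩

end

end Pool.Agent.Lib.MP_fc2ced_ag.T.G
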