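import Pool.Agent.Lib.MP_fc2ced_ag.G.Bs
import Pool.Agent.Lib.MP_fc2ced_ag.G.Kc

/-! Elementary operations on hyperplanes in tori over a base. -/

open CategoryTheory Function

namespace Pool.Agent.Lib.MP_fc2ced_ag.T

open K

noncomputable section

variable {k : Type} [Field k] {F : Type} [Field F] [CharZero F] [IsAlgClosed k] [IsAlgClosed F]
  {χ : Chr k F} {B : Bs k → Prop} {ι ι' : Type} [Fintype ι] [Fintype ι'] {c c' γ : ι → ℤ}

open MP_fc2ced_ag.T.Pt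

section Mn

variable {K : Type} [Field K]

theorem va_mn_comp (e : ι ≃ ι') (δ : ι' → ℤ) (t : ι' → K) :
    mn (fun i => δ (e i)) (fun i => t (e i)) = mn δ t := e.prod_comp fun i => t i ^ δ i

theorem va_mn_symm (e : ι ≃ ι') (δ : ι' → ℤ) (t : ι → K) :
    mn δ (fun i => t (e.symm i)) = mn (fun i => δ (e i)) t := by
  simp only [← va_mn_comp e δ, Equiv.symm_apply_apply]

theorem va_mn_mul (γ : ι → ℤ) (s t : ι → K) :
    mn γ (fun i => s i * t i) = mn γ s * mn γ t := by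
  simp only [mn, mul_zpow, Finset.prod_mul_distrib]

theorem va_mn_add (γ δ : ι → ℤ) {t : ι → K} (h : ∀ i, t i ≠ 0) :
    mn (fun i => γ i + δ i) t = mn γ t * mn δ t := by
  simp only [mn, zpow_add₀ (h _), Finset.prod_mul_distrib]

theorem va_mn_zpow (γ : ι → ℤ) (t : ι → K) (g : ℤ) : mn γ t ^ g = mn (fun i => g * γ i) t := by
  simp only [mn, ← Finset.prod_zpow, ← zpow_mul, mul_comm]

omit [IsAlgClosed k] in
theorem va_mn_map [Algebra k K] (γ : ι → ℤ) (r : ι → k) :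
    algebraMap k K (mn γ r) = mn γ fun i => algebraMap k K (r i) := by
  simp only [mn, map_prod, map_zpow₀]

theorem va_mn_root {t : Option ι → K} {x : ι → K} {n : ℕ} (h : ∀ j, x j ^ n = t (some j))
    (h0 : ∀ j, x j ≠ 0) (c : Option ι → ℤ) (δ : ι → ℤ) : mn c t =
      (t none * mn δ x) ^ c none * mn (fun j => n * c (some j) - c none * δ j) x := by
  rw [mul_zpow, va_mn_zpow, mul_assoc, ← va_mn_add _ _ h0, mn, Fintype.prod_option]
  simp only [← h, mn, add_sub_cancel, zpow_mul, zpow_natCast]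

theorem va_mn_sign {t : Option ι → K} {x : ι → K} {γ : Option ι → ℤ}
    (h : ∀ j, x j ^ (γ none).natAbs = t (some j)) (h0 : ∀ j, x j ≠ 0) :
    mn (fun _ : Unit => γ none) (fun _ => t none * mn (fun j => (γ none).sign * γ (some j)) x) =
      mn γ t := by
  rw [va_mn_root h h0 γ fun j => (γ none).sign * γ (some j)]
  simp [mn, ← mul_assoc, Int.mul_sign_self]

end Mn

omit [IsAlgClosed k] in
theorem va_D {β : Bs k} {K : Fld k} {a b : K} (e : a = b) (h : β.D b) : β.D a := e ▸ h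

/-- Tori. -/
theorem ss_mt (c : ι → ℤ) : SS ((mt k c).E χ) := by
  obtain ⟨χ₁, h₁⟩ := exists_chr k F
  refine .of_sf (Fintype.induction_empty_option (P := fun α _ => ∀ c : α → ℤ, SF ((mt k c).E χ))
    (fun α β _ e ih b => ?_) (fun b => ?_) (fun α _ ih b => ?_) ι c)
  · let _ : Fintype α := Fintype.ofEquiv β e.symm
    refine SF.of_eqv (eqv_of_inv (S' := mt k (b ∘ e)) (e := fun _ x => x ∘ e)
      (g := fun _ y => y ∘ e.symm)
      ⟨fun _ _ h => ⟨fun _ => trivial, fun _ => h.2 _⟩, fun _ _ _ _ _ _ _ r _ => r _⟩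
      ⟨fun _ _ h => ⟨fun _ => trivial, fun _ => h.2 _⟩, fun _ _ _ _ _ _ _ r _ => r _⟩
      (fun _ x _ => e.prod_comp fun i => x i ^ b i) (fun _ _ _ => by ext; simp)
      fun _ _ _ => by ext; simp) (ih _)
  · exact SF.of_eqv (eqv_point (S := mt k b) (fun _ a => a.elim)
      (fun _ => ⟨fun a => a.elim, fun a => a.elim⟩) (fun _ _ _ a => a.elim)
      (fun _ _ _ => Subsingleton.elim _ _) fun _ => by simp) SF.one
  · refine SF.of_eqv (Eqv.trans (eqv_of_inv (S' := (mt k (b ∘ some)).prod (pun k (b none)))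
      (e := fun _ x => (x ∘ some, 1 - x none)) (g := fun _ y i => i.elim (1 - y.2) y.1)
      ⟨fun _ _ h => ⟨⟨fun _ => trivial, fun _ => h.2 _⟩, trivial,
        fun e => h.2 _ (sub_eq_self.1 e)⟩,
        fun _ _ φ _ _ _ _ r => ⟨fun _ => r _, φ.one.sub (r _)⟩⟩
      ⟨fun _ _ h => ⟨fun _ => trivial, Option.rec (sub_ne_zero.2 (Ne.symm h.2.2)) h.1.2⟩,
        fun _ _ φ _ _ _ _ r => Option.rec (φ.one.sub r.2) r.1⟩
      (fun _ x _ => ?_) (fun _ _ _ => funext (Option.rec (sub_sub_cancel _ _) fun _ => rfl))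
      fun _ _ _ => Prod.ext rfl (sub_sub_cancel _ _)) ⟨_, Pt.bij_ten⟩)
      (SF.ten trivial trivial (ih _) (sf_pun χ₁ h₁ χ _))
    change (∏ i, x (some i) ^ b (some i)) * (1 - (1 - x none)) ^ b none = ∏ i, x i ^ b i
    rw [sub_sub_cancel, Fintype.prod_option, mul_comm]

omit [IsAlgClosed k] [IsAlgClosed F] [CharZero F] in
theorem va_tm_reidx (e : ι ≃ ι') (d δ : ι' → ℤ) (β : Bs k) :
    Eqv ((tm d δ β).E χ) ((tm (fun i => d (e i)) (fun i => δ (e i)) β).E χ) :=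
  eqv_of_inv (e := fun _ x i => x (e i)) (g := fun _ y i => y (e.symm i))
    ⟨fun _ x h => ⟨⟨fun _ => trivial, fun _ => h.1.2 _⟩, va_D (va_mn_comp e δ x) h.2⟩,
      fun _ _ _ _ _ _ _ r _ => r _⟩
    ⟨fun _ x h => ⟨⟨fun _ => trivial, fun _ => h.1.2 _⟩, va_D (va_mn_symm e δ x) h.2⟩,
      fun _ _ _ _ _ _ _ r _ => r _⟩
    (fun _ x _ => congrArg₂ (fun a b => a * β.w b) (va_mn_comp e d x) (va_mn_comp e δ x))
    (fun _ _ _ => by ext; simp) fun _ _ _ => by ext; simp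

theorem va_tm_opt (A : Adm F B) (c γ : Option ι → ℤ) (hg : γ none ≠ 0) {β : Bs k} (h : B β) :
    SS ((tm c γ β).E χ) := by
  have hn : 0 < (γ none).natAbs := Int.natAbs_pos.2 hg
  refine (tm c γ β).ss_of_kc (fun j _ x => x (some j)) (fun j _ _ _ _ _ _ _ r => r (some j)) hn ?_
  have nz : ∀ {K : Fld k} {t : Option ι → K} {x : ι → K}, (∀ i, t i ≠ 0) →
      (∀ j, x j ^ (γ none).natAbs = t (some j)) → ∀ j, x j ≠ 0 := fun a b j e =>
    a (some j) (by rw [← b j, e, zero_pow hn.ne'])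
  have bk : ∀ {K : Fld k} (s : Unit → K) (x : ι → K), (∀ j, x j ≠ 0) →
      (fun _ : Unit => s () / mn (fun j => (γ none).sign * γ (some j)) x *
        mn (fun j => (γ none).sign * γ (some j)) x) = s := fun s x a =>
    funext fun _ => div_mul_cancel₀ _ (mn_ne _ a)
  refine .of_eqv (eqv_of_inv (S' := (tm (fun _ : Unit => c none) (fun _ => γ none) β).prod
      (mt k fun j => (γ none).natAbs * c (some j) - c none * ((γ none).sign * γ (some j))))
    (e := fun _ x => (fun _ => x.1 none * mn (fun j => (γ none).sign * γ (some j)) x.2, x.2))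
    (g := fun _ y => (fun o => o.elim (y.1 () / mn (fun j => (γ none).sign * γ (some j)) y.2)
      fun j => y.2 j ^ (γ none).natAbs, y.2))
    ⟨fun _ x a => ⟨⟨⟨fun _ => trivial, fun _ => mul_ne_zero (a.1.1.1.2 _)
        (mn_ne _ (nz a.1.1.1.2 a.2))⟩, va_D (va_mn_sign a.2 (nz a.1.1.1.2 a.2)) a.1.1.2⟩,
        fun _ => trivial, nz a.1.1.1.2 a.2⟩,
      fun _ _ _ _ _ _ b r => ⟨fun _ => (r.1 _).mul (rel_mn _ r.2 (nz b.1.1.1.2 b.2)), r.2⟩⟩
    ⟨fun _ y a => ⟨⟨⟨⟨fun _ => trivial, Option.rec (div_ne_zero (a.1.1.2 _) (mn_ne _ a.2.2))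
        fun j => pow_ne_zero _ (a.2.2 j)⟩, ?_⟩, fun _ => trivial⟩, fun _ => rfl⟩,
      fun _ _ _ _ _ _ b r => ⟨Option.rec ((r.1 _).div (rel_mn _ r.2 b.2.2) (mn_ne _ b.2.2))
        fun j => (r.2 j).pow _, r.2⟩⟩
    (fun _ x a => ?_) (fun _ x a => Prod.ext (funext (Option.rec
      (mul_div_cancel_right₀ _ (mn_ne _ (nz a.1.1.1.2 a.2))) a.2)) rfl)
    fun _ y a => Prod.ext (bk y.1 y.2 a.2.2) rfl) (ss_prod (A.cur β χ _ _ h) (ss_mt _))
  · exact va_D ((va_mn_sign (x := y.2) (fun _ => rfl) a.2.2).symm.trans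
      (congrArg _ (bk y.1 y.2 a.2.2))) a.1.2
  · change (∏ _i : Unit, _ ^ c none) * β.w (mn _ _) * mn _ x.2 =
      mn c x.1 * β.w (mn γ x.1) * ∏ _j : ι, 1
    rw [va_mn_sign a.2 (nz a.1.1.1.2 a.2), va_mn_root a.2 (nz a.1.1.1.2 a.2) c
      fun j => (γ none).sign * γ (some j), Finset.prod_const_one, Fintype.prod_unique]
    ring

/-- Tori over a base. -/
theorem ss_tm (A : Adm F B) (c γ : ι → ℤ) {β : Bs k} (h : B β) : SS ((tm c γ β).E χ) := by
  classical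
  by_cases h0 : ∃ u, γ u ≠ 0
  · obtain ⟨u, hu⟩ := h0
    exact .of_eqv (va_tm_reidx (Equiv.optionSubtypeNe u) c γ β) (va_tm_opt A _ _ hu h)
  have e : ∀ {K : Fld k} (t : ι → K) (s : Empty → K), mn γ t = mn (fun _ => 0) s := fun t s => by
    simp [mn, not_not.1 (not_exists.1 h0 _)]
  exact .of_eqv (eqv_of_inv (S' := (mt k c).prod (tm (fun _ : Empty => 0) (fun _ => 0) β))
    (e := fun _ x => (x, fun a => a.elim)) (g := fun _ y => y.1)
    ⟨fun _ x a => ⟨a.1, ⟨fun _ => trivial, fun a => a.elim⟩, va_D (e x _).symm a.2⟩,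
      fun _ _ _ _ _ _ _ r => ⟨r, fun a => a.elim⟩⟩
    ⟨fun _ y a => ⟨a.1, va_D (e y.1 y.2) a.2.2⟩, fun _ _ _ _ _ _ _ r => r.1⟩
    (fun _ x _ => by simp only [← e x, Finset.univ_eq_empty, Finset.prod_empty, one_mul])
    (fun _ _ _ => rfl) fun _ _ _ => Prod.ext rfl (Subsingleton.elim _ _))
    (ss_prod (ss_mt c) (A.pt β χ h))

theorem WS.reidx (e : ι ≃ ι') {d δ : ι' → ℤ} (hc : ∀ i, d (e i) = c i) (hγ : ∀ i, δ (e i) = γ i)
    (h : WS B χ c γ) : WS B χ d δ := by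
  obtain rfl : (fun i => d (e i)) = c := funext hc
  obtain rfl : (fun i => δ (e i)) = γ := funext hγ
  intro ε hε β hβ
  have l : ∀ {K : Fld k} (t : ι' → K), lin (fun i => ε (e i)) (fun i => t (e i)) = lin ε t :=
    fun {K} t => e.sum_comp fun i => algebraMap k K (ε i) * t i
  have l' : ∀ {K : Fld k} (t : ι → K), lin ε (fun i => t (e.symm i)) = lin (fun i => ε (e i)) t :=
    fun t => by simp only [← l, Equiv.symm_apply_apply]
  exact .of_eqv (eqv_of_inv (S' := vv (fun i => ε (e i)) (fun i => d (e i)) (fun i => δ (e i)) β)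
    (e := fun _ x i => x (e i)) (g := fun _ y i => y (e.symm i))
    ⟨fun _ x h => ⟨⟨⟨fun _ => trivial, fun _ => h.1.1.2 _⟩,
      (congrArg (· + 1) (l x)).trans h.1.2⟩, va_D (va_mn_comp e δ x) h.2⟩, fun _ _ _ _ _ _ _ r _ => r _⟩
    ⟨fun _ x h => ⟨⟨⟨fun _ => trivial, fun _ => h.1.1.2 _⟩,
      (congrArg (· + 1) (l' x)).trans h.1.2⟩, va_D (va_mn_symm e δ x) h.2⟩, fun _ _ _ _ _ _ _ r _ => r _⟩
    (fun _ x _ => congrArg₂ (fun a b => a * β.w b) (va_mn_comp e d x) (va_mn_comp e δ x))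
    (fun _ _ _ => by ext; simp) fun _ _ _ => by ext; simp) (h _ (fun _ => hε _) β hβ)

/-- One choice of the coefficients is enough. -/
theorem WS.of_eps (A : Adm F B) (ε : ι → k) (hε : ∀ i, ε i ≠ 0)
    (h : ∀ β, B β → SS ((vv ε c γ β).E χ)) : WS B χ c γ := by
  intro ε' hε' β hβ
  have n1 : ∀ (K : Fld k) i, algebraMap k K (ε' i / ε i) ≠ 0 := fun K i =>
    (map_ne_zero _).2 (div_ne_zero (hε' i) (hε i))
  have n2 : ∀ (K : Fld k) i, algebraMap k K (ε i / ε' i) ≠ 0 := fun K i =>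
    (map_ne_zero _).2 (div_ne_zero (hε i) (hε' i))
  have i1 : ∀ {K : Fld k} (t : ι → K), (fun i => algebraMap k K (ε i / ε' i) *
      (algebraMap k K (ε' i / ε i) * t i)) = t := fun t => funext fun i => by
    rw [← mul_assoc, ← map_mul, div_mul_div_cancel₀ (hε' i), div_self (hε i), map_one, one_mul]
  have i2 : ∀ {K : Fld k} (t : ι → K), (fun i => algebraMap k K (ε' i / ε i) *
      (algebraMap k K (ε i / ε' i) * t i)) = t := fun t => funext fun i => by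
    rw [← mul_assoc, ← map_mul, div_mul_div_cancel₀ (hε i), div_self (hε' i), map_one, one_mul]
  have l : ∀ {K : Fld k} (t : ι → K),
      lin ε' (fun i => algebraMap k K (ε i / ε' i) * t i) = lin ε t := fun t =>
    Finset.sum_congr rfl fun i _ => by rw [← mul_assoc, ← map_mul, mul_div_cancel₀ _ (hε' i)]
  have m : ∀ {K : Fld k} (t : ι → K), algebraMap k K (mn γ fun i => ε i / ε' i) * mn γ t =
      mn γ fun i => algebraMap k K (ε i / ε' i) * t i := fun t => by rw [va_mn_mul, va_mn_map]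
  refine .of_eqv (eqv_const (S' := vv ε c γ (β.scale (mn γ fun i => ε i / ε' i)
      (mn_ne γ fun i => div_ne_zero (hε i) (hε' i))))
    (e := fun K t i => algebraMap k K (ε' i / ε i) * t i)
    (g := fun K t i => algebraMap k K (ε i / ε' i) * t i)
    ⟨fun K x a => ⟨⟨⟨fun _ => trivial, fun i => mul_ne_zero (n1 K i) (a.1.1.2 i)⟩, ?_⟩, ?_⟩,
      fun _ _ φ _ _ _ _ r i => (φ.alg _).mul (r i)⟩
    ⟨fun K x a => ⟨⟨⟨fun _ => trivial, fun i => mul_ne_zero (n2 K i) (a.1.1.2 i)⟩,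
      (congrArg (· + 1) (l x)).trans a.1.2⟩, va_D (m x).symm a.2⟩,
      fun _ _ φ _ _ _ _ r i => (φ.alg _).mul (r i)⟩
    (mn c fun i => ε' i / ε i) regF_one (fun K x _ => ?_) (fun _ x _ => i1 x) fun _ x _ => i2 x)
    (h _ (A.scale _ _ _ hβ))
  · change lin ε _ + 1 = 0
    rw [← l, i1]
    exact a.1.2
  · change β.D (_ * mn γ _)
    rw [m, i1]
    exact a.2
  · change mn c _ * β.w (_ * mn γ _) = mn c x * β.w (mn γ x) * (_ * 1 ^ _)
    rw [m, i1, va_mn_mul, va_mn_map]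
    ring

theorem WS.congr (e : ∀ i, (χ.N : ℤ) ∣ c' i - c i) (h : WS B χ c γ) : WS B χ c' γ := by
  intro ε hε β hβ
  choose q hq using e
  refine .of_eqv (eqv_const (S := vv ε c γ β) (S' := vv ε c' γ β) (e := fun _ t => t)
    (g := fun _ t => t) ⟨fun _ _ a => a, fun _ _ _ _ _ _ _ r => r⟩
    ⟨fun _ _ a => a, fun _ _ _ _ _ _ _ r => r⟩ 1 (w := fun _ t => mn q t)
    (fun _ _ _ _ _ _ b r => rel_mn q r b.1.1.2) (fun K x a => ?_)
    (fun _ _ _ => rfl) fun _ _ _ => rfl).symm (h ε hε β hβ)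
  change mn c' x * β.w (mn γ x) = mn c x * β.w (mn γ x) * _
  rw [map_one, one_mul, ← zpow_natCast, va_mn_zpow, mul_right_comm, ← va_mn_add _ _ a.1.1.2]
  simp only [← hq, add_sub_cancel]

/-- The modulus can be enlarged. -/
theorem WS.of_lift (A : Adm F B) (hχ : χ.Prim) {g : ℕ} (hg : (g : k) ≠ 0)
    (h : ∀ χ' : Chr k F, χ'.Prim → χ'.N = χ.N * g → WS B χ' (fun i => g * c i) γ) :
    WS B χ c γ := by
  intro ε hε β hβ
  obtain ⟨χ', p, n, e⟩ := hχ.exists_lift hg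
  refine .of_eqv ((e (vv ε c γ β) _ (regF_f.pow g)
    (fun _ x a => pow_ne_zero _ ((vv ε c γ β).ne x a)) fun _ _ _ => rfl).trans
    (eqv_of_inv (S' := vv ε (fun i => g * c i) γ (β.pow g)) (e := fun _ t => t)
      (g := fun _ t => t) ⟨fun _ _ a => a, fun _ _ _ _ _ _ _ r => r⟩
      ⟨fun _ _ a => a, fun _ _ _ _ _ _ _ r => r⟩ (fun K x _ => ?_) (fun _ _ _ => rfl)
      fun _ _ _ => rfl)) (h χ' p n ε hε _ (A.pow β g hβ))
  change mn _ x * β.w (mn γ x) ^ g = (mn c x * β.w (mn γ x)) ^ g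
  rw [mul_pow, ← va_mn_zpow, zpow_natCast]

section VbAux

omit [IsAlgClosed k] [IsAlgClosed F] [CharZero F]

theorem mn_opt {K : Type} [Field K] (a : ℤ) (γ : ι → ℤ) (t : Option ι → K) :
    mn (fun o : Option ι => o.elim a γ) t = t none ^ a * mn γ fun i => t (some i) :=
  Fintype.prod_option _

theorem mn_opt0 {K : Type} [Field K] (γ : ι → ℤ) (t : Option ι → K) :
    mn (fun o : Option ι => o.elim 0 γ) t = mn γ fun i => t (some i) := by
  rw [mn_opt, zpow_zero, one_mul]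

theorem lin_opt (ε : Option ι → k) {K : Fld k} (t : Option ι → K) :
    lin ε t = algebraMap k K (ε none) * t none + lin (fun i => ε (some i)) fun i => t (some i) :=
  Fintype.sum_option _

theorem Bs.congr (β : Bs k) {K : Fld k} {x y : K} (e : x = y) : β.D x ↔ β.D y := e ▸ Iff.rfl

theorem cl_tm (ε : ι → k) (c γ : ι → ℤ) (β : Bs k) :
    (tm c γ β).Closed fun _ t => lin ε t + 1 = 0 :=
  fun _ _ φ _ _ _ _ r e => ((rel_lin ε r).add φ.one).eq_of φ.zero e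

theorem eqv_tm_vv (ε : ι → k) (c γ : ι → ℤ) (β : Bs k) :
    Eqv (((tm c γ β).restr _ (cl_tm ε c γ β).conv).E χ) ((vv ε c γ β).E χ) :=
  eqv_of_inv (e := fun _ t => t) (g := fun _ t => t)
    ⟨fun _ _ h => ⟨⟨h.1.1, h.2⟩, h.1.2⟩, fun _ _ _ _ _ _ _ r => r⟩
    ⟨fun _ _ h => ⟨⟨h.1.1, h.2⟩, h.1.2⟩, fun _ _ _ _ _ _ _ r => r⟩ (fun _ _ _ => rfl)
    (fun _ _ _ => rfl) fun _ _ _ => rfl

/-- The change of the normalized homogeneous coordinate. -/
def rnV {K : Type} [Field K] (t : Option ι → K) (o : Option ι) : K :=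
  o.elim (t none)⁻¹ fun i => t (some i) / t none

omit [Fintype ι] in
theorem rnV_rnV {K : Type} [Field K] {t : Option ι → K} (h : t none ≠ 0) : rnV (rnV t) = t :=
  funext (Option.rec (inv_inv _) fun i => by
    change t (some i) / t none / (t none)⁻¹ = _
    rw [div_inv_eq_mul, div_mul_cancel₀ _ h])

omit [Fintype ι] in
theorem rnV_ne {K : Type} [Field K] {t : Option ι → K} (h : ∀ o, t o ≠ 0) (o : Option ι) :
    rnV t o ≠ 0 :=
  o.rec (inv_ne_zero (h _)) fun _ => div_ne_zero (h _) (h _)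

omit [Fintype ι] in
theorem rel_rnV {K K' : Fld k} {φ : Place K K'} {t : Option ι → K} {t' : Option ι → K'}
    (r : ∀ o, φ (t o) (t' o)) (h : t' none ≠ 0) (o : Option ι) : φ (rnV t o) (rnV t' o) :=
  o.rec ((r _).inv h) fun _ => (r _).div (r _) h

theorem mn_rnV {K : Type} [Field K] (a : ℤ) (γ : ι → ℤ) {t : Option ι → K} (h : t none ≠ 0) :
    mn (fun o : Option ι => o.elim a γ) (rnV t) =
      mn (fun o : Option ι => o.elim (-a - ∑ i, γ i) γ) t := by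
  rw [mn_opt, mn_opt, zpow_sub₀ h, zpow_neg, ← prod_zpow_sumM h, mn, mn, div_mul_eq_mul_div,
    mul_div_assoc, ← Finset.prod_div_distrib, ← inv_zpow]
  simp only [← div_zpow]
  rfl

theorem lin_rnV {ε : Option ι → k} (hε : ε none ≠ 0) {K : Fld k} {t : Option ι → K}
    (h : t none ≠ 0) (e : lin ε t + 1 = 0) : lin (rnV ε) (rnV t) + 1 = 0 := by
  have h0 : algebraMap k K (ε none) ≠ 0 := (map_ne_zero _).2 hε
  have h1 : (lin (fun i => rnV ε (some i)) fun i => rnV t (some i)) =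
      (lin (fun i => ε (some i)) fun i => t (some i)) / (algebraMap k K (ε none) * t none) := by
    simp only [lin, rnV, Option.elim_some, map_div₀, div_mul_div_comm, Finset.sum_div]
  rw [lin_opt] at e
  rw [lin_opt, h1]
  change algebraMap k K (ε none)⁻¹ * (t none)⁻¹ + _ + 1 = 0
  rw [map_inv₀]
  field_simp
  linear_combination e

variable (k) in
/-- The multiplicative group with a power of the coordinate. -/
@[reducible] def gmP (e : ℤ) : Pt k :=
  (gm k).withF (fun _ x => x ^ e) (fun _ _ _ _ _ _ h r => rel_zpow r h.2 e)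
    fun _ _ h => zpow_ne_zero e h.2

/-- The variety `lin ε t + 1 + μ (τ - 1) = 0` in the coordinates `((t, τ), μ)`. -/
@[reducible] def wbV (ε : ι → k) (c γ : ι → ℤ) (β : Bs k) (e : ℤ) : Pt k :=
  (((tm c γ β).prod (gmP k e)).prod (line k)).restr
    (fun _ x => lin ε x.1.1 + 1 + x.2 * (x.1.2 - 1) = 0)
    (Closed.conv fun _ _ φ _ _ _ _ r h =>
      (((rel_lin ε r.1.1).add φ.one).add (r.2.mul (r.1.2.sub φ.one))).eq_of φ.zero h)

theorem cl_wb₀ (ε : ι → k) (c γ : ι → ℤ) (β : Bs k) (e : ℤ) :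
    (wbV ε c γ β e).Closed fun _ x => x.2 = 0 := fun _ _ φ _ _ _ _ r h => r.2.eq_of φ.zero h

theorem cl_wb₁ (ε : ι → k) (c γ : ι → ℤ) (β : Bs k) (e : ℤ) :
    (wbV ε c γ β e).Closed fun _ x => x.1.2 = 1 := fun _ _ φ _ _ _ _ r h => r.1.2.eq_of φ.one h

theorem cl_gmP (S : Pt k) (e : ℤ) : (S.prod (gmP k e)).Closed fun _ x => x.2 = 1 :=
  fun _ _ φ _ _ _ _ r h => r.2.eq_of φ.one h

theorem uz_gmP (S : Pt k) {e : ℤ} (he : χ.ψ e ≠ 1) : UZero ((S.prod (gmP k e)).E χ) :=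
  Flow.uzero (τ := fun _ r x => (x.1, x.2 * r)) he
    ⟨fun _ _ _ h a => ⟨a.1, trivial, mul_ne_zero a.2.2 h⟩, fun _ x _ => by rw [mul_one],
      fun _ _ x h _ => by rw [mul_inv_cancel_right₀ h],
      fun _ r x _ _ => (congrArg _ (mul_zpow ..)).trans (mul_assoc ..).symm,
      fun _ _ _ _ _ _ _ h _ _ _ h' => ⟨h'.1, h'.2.mul h⟩⟩

theorem eqv_gmP (S : Pt k) (e : ℤ) :
    Eqv (((S.prod (gmP k e)).restr _ (cl_gmP S e).conv).E χ) (S.E χ) :=
  eqv_of_inv (e := fun _ x => x.1) (g := fun _ x => (x, 1))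
    ⟨fun _ _ a => a.1.1, fun _ _ _ _ _ _ _ r => r.1⟩
    ⟨fun _ _ a => ⟨⟨a, trivial, one_ne_zero⟩, rfl⟩, fun _ _ φ _ _ _ _ r => ⟨r, φ.one⟩⟩
    (fun _ x a => by
      change _ = _ * x.2 ^ e
      rw [a.2, one_zpow, mul_one]) (fun _ _ a => Prod.ext rfl a.2.symm) fun _ _ _ => rfl

variable (ε : ι → k) (c γ : ι → ℤ) (β : Bs k) (e : ℤ)

theorem eqv_wb₀ : Eqv (((wbV ε c γ β e).restr _ (cl_wb₀ ε c γ β e).conv).E χ)
    (((vv ε c γ β).prod (gmP k e)).E χ) :=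
  eqv_of_inv (e := fun _ x => x.1) (g := fun _ x => (x, 0))
    ⟨fun _ x a => ⟨⟨⟨a.1.1.1.1.1, by simpa [show x.2 = 0 from a.2] using a.1.2⟩, a.1.1.1.1.2⟩,
      a.1.1.1.2⟩, fun _ _ _ _ _ _ _ r => r.1⟩
    ⟨fun _ _ a => ⟨⟨⟨⟨⟨a.1.1.1, a.1.2⟩, a.2⟩, trivial⟩, by simpa using a.1.1.2⟩, rfl⟩,
      fun _ _ φ _ _ _ _ r => ⟨r, φ.zero⟩⟩
    (fun _ _ _ => (mul_one _).symm) (fun _ _ a => Prod.ext rfl a.2.symm) fun _ _ _ => rfl

theorem eqv_wb₁ : Eqv (((vv ε c γ β).prod (line k)).E χ)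
    (((wbV ε c γ β e).restr _ (cl_wb₁ ε c γ β e).conv).E χ) :=
  eqv_of_inv (e := fun _ x => ((x.1, 1), x.2)) (g := fun _ y => (y.1.1, y.2))
    ⟨fun _ _ a => ⟨⟨⟨⟨⟨a.1.1.1, a.1.2⟩, trivial, one_ne_zero⟩, trivial⟩,
      by simpa using a.1.1.2⟩, rfl⟩, fun _ _ φ _ _ _ _ r => ⟨⟨r.1, φ.one⟩, r.2⟩⟩
    ⟨fun _ y a => ⟨⟨⟨a.1.1.1.1.1, by simpa [show y.1.2 = 1 from a.2] using a.1.2⟩, a.1.1.1.1.2⟩,
      trivial⟩, fun _ _ _ _ _ _ _ r => ⟨r.1.1, r.2⟩⟩
    (fun _ _ _ => by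
      change _ * 1 ^ e * 1 = _ * 1
      rw [one_zpow, mul_one]) (fun _ _ _ => rfl)
    fun _ _ a => Prod.ext (Prod.ext rfl a.2.symm) rfl

theorem eqv_wb₂ : Eqv (((wbV ε c γ β e).restr _ (cl_wb₁ ε c γ β e).not.conv).E χ)
    ((((tm c γ β).prod (gmP k e)).restr _ (cl_gmP _ e).not.conv).E χ) :=
  eqv_of_inv (e := fun _ x => x.1) (g := fun _ x => (x, -(lin ε x.1 + 1) / (x.2 - 1)))
    ⟨fun _ _ a => ⟨a.1.1.1, a.2⟩, fun _ _ _ _ _ _ _ r => r.1⟩
    ⟨fun _ x a => ⟨⟨⟨a.1, trivial⟩, by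
        change _ + _ / _ * _ = _
        rw [div_mul_cancel₀ _ (sub_ne_zero.2 a.2), add_neg_cancel]⟩, a.2⟩,
      fun _ _ φ _ _ _ b r =>
        ⟨r, ((rel_lin ε r.1).add φ.one).neg.div (r.2.sub φ.one) (sub_ne_zero.2 b.2)⟩⟩
    (fun _ _ _ => (mul_one _).symm)
    (fun _ x a => Prod.ext rfl ((div_eq_iff (sub_ne_zero.2 a.2)).2 (by
      have : lin ε x.1.1 + 1 + x.2 * (x.1.2 - 1) = 0 := a.1.2
      linear_combination -this))) fun _ _ _ => rfl

theorem eqv_wb₃ : Eqv (((wbV ε c γ β e).restr _ (cl_wb₀ ε c γ β e).not.conv).E χ)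
    ((vv (fun o : Option (Option ι) => o.elim 1 fun o' => o'.elim (-1) ε)
      (fun o => o.elim e fun o' => o'.elim (-e) c) (fun o => o.elim 0 fun o' => o'.elim 0 γ)
      β).E χ) := by
  have m0 {K : Fld k} (t : Option (Option ι) → K) : mn (fun o : Option (Option ι) =>
      o.elim 0 fun o' => o'.elim 0 γ) t = mn γ fun i => t (some (some i)) := by
    rw [mn_opt0, mn_opt0]
  have l0 {K : Fld k} (t : Option (Option ι) → K) : lin (fun o : Option (Option ι) =>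
      o.elim 1 fun o' => o'.elim (-1) ε) t =
      t none - t (some none) + lin ε fun i => t (some (some i)) := by
    rw [lin_opt, lin_opt]
    change algebraMap k K 1 * _ + (algebraMap k K (-1) * _ + lin ε _) = _
    rw [map_neg, map_one]
    ring
  refine eqv_of_inv (e := fun _ x o => o.elim (x.2 * x.1.2) fun o' => o'.elim x.2 x.1.1)
    (g := fun _ t => ((fun i => t (some (some i)), t none / t (some none)), t (some none)))
    ⟨fun _ x a => ⟨⟨⟨fun _ => trivial, Option.rec (mul_ne_zero a.2 a.1.1.1.2.2)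
        (Option.rec a.2 a.1.1.1.1.1.2)⟩, ?_⟩, (β.congr (m0 _)).2 a.1.1.1.1.2⟩,
      fun _ _ _ _ _ _ _ r => Option.rec (r.2.mul r.1.2) (Option.rec r.2 r.1.1)⟩
    ⟨fun _ t a => ⟨⟨⟨⟨⟨⟨fun _ => trivial, fun _ => a.1.1.2 _⟩, (β.congr (m0 t)).1 a.2⟩, trivial,
        div_ne_zero (a.1.1.2 _) (a.1.1.2 _)⟩, trivial⟩, ?_⟩, a.1.1.2 _⟩,
      fun _ _ _ _ _ _ b r => ⟨⟨fun _ => r _, (r _).div (r _) (b.1.1.2 _)⟩, r _⟩⟩
    (fun _ x a => ?_) (fun _ x a => Prod.ext (Prod.ext rfl (mul_div_cancel_left₀ _ a.2)) rfl)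
    fun _ t a => funext (Option.rec (mul_div_cancel₀ _ (a.1.1.2 _)) (Option.rec rfl fun _ => rfl))
  · have : lin ε x.1.1 + 1 + x.2 * (x.1.2 - 1) = 0 := a.1.2
    change lin _ _ + 1 = 0
    rw [l0]
    change x.2 * x.1.2 - x.2 + lin ε x.1.1 + 1 = 0
    linear_combination this
  · have : lin _ t + 1 = 0 := a.1.2
    rw [l0] at this
    change lin ε (fun i => t (some (some i))) + 1 + t (some none) * (t none / _ - 1) = 0
    rw [mul_sub, mul_div_cancel₀ _ (a.1.1.2 _)]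
    linear_combination this
  · change mn _ _ * β.w (mn _ _) = mn c x.1.1 * β.w (mn γ x.1.1) * x.1.2 ^ e * 1
    rw [m0, mn_opt, mn_opt]
    change (x.2 * x.1.2) ^ e * (x.2 ^ (-e) * mn c x.1.1) * β.w (mn γ x.1.1) = _
    have := zpow_ne_zero e a.2
    rw [mul_zpow, zpow_neg]
    field_simp

end VbAux

/-- A variable with trivial exponent and weight zero is added. -/
theorem WS.triv (A : Adm F B) {e : ℤ} (he : χ.ψ e = 1) (h : WS B χ c γ) :
    WS B χ (fun o : Option ι => o.elim e c) fun o => o.elim 0 γ := by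
  intro ε hε β hβ
  have h0 (K : Fld k) : algebraMap k K (ε none) ≠ 0 := (map_ne_zero _).2 (hε none)
  have cl := cl_tm (fun i => ε (some i)) c γ β
  have n {K : Fld k} {t : ι → K} (ht : ¬ lin (fun i => ε (some i)) t + 1 = 0) :
      -(lin (fun i => ε (some i)) t + 1) / algebraMap k K (ε none) ≠ 0 :=
    div_ne_zero (neg_ne_zero.2 ht) (h0 K)
  have rg {K K' : Fld k} {φ : Place K K'} {t : ι → K} {t' : ι → K'} (r : ∀ i, φ (t i) (t' i)) :
      φ (-(lin (fun i => ε (some i)) t + 1) / algebraMap k K (ε none))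
        (-(lin (fun i => ε (some i)) t' + 1) / algebraMap k K' (ε none)) :=
    ((rel_lin _ r).add φ.one).neg.div (φ.alg _) (h0 K')
  refine .of_eqv (Eqv.symm (eqv_twist (S := (tm c γ β).restr _ cl.not.conv) he
    (e := fun K t o => o.elim (-(lin (fun i => ε (some i)) t + 1) / algebraMap k K (ε none)) t)
    (g := fun _ t i => t (some i))
    ⟨fun K t a => ⟨⟨⟨fun _ => trivial, Option.rec (n a.2) a.1.1.2⟩, ?_⟩,
        (β.congr (mn_opt0 γ _)).2 a.1.2⟩,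
      fun _ _ _ _ _ _ _ r => Option.rec (rg r) r⟩
    ⟨fun K t a => ⟨⟨⟨fun _ => trivial, fun _ => a.1.1.2 _⟩, (β.congr (mn_opt0 γ t)).1 a.2⟩,
        fun e => ?_⟩,
      fun _ _ _ _ _ _ _ r _ => r _⟩
    (fun _ _ _ _ _ _ _ r => rg r) (fun _ _ a => n a.2) (fun K t _ => ?_) (fun _ _ _ => rfl)
    fun K t a => funext (Option.rec ?_ fun _ => rfl)))
    (ss_open cl (.of_eqv (eqv_tm_vv ..) (h _ (fun _ => hε _) β hβ)) (ss_tm A c γ hβ))
  · change lin _ _ + 1 = 0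
    rw [lin_opt]
    change _ * (_ / _) + lin _ t + 1 = 0
    rw [mul_div_cancel₀ _ (h0 K)]
    ring
  · have : lin ε t + 1 = 0 := a.1.2
    rw [lin_opt, add_assoc, e, add_zero] at this
    exact mul_ne_zero (h0 K) (a.1.1.2 none) this
  · change mn _ _ * β.w (mn _ _) = mn c t * β.w (mn γ t) * _
    rw [mn_opt, mn_opt0]
    exact (mul_assoc ..).trans (mul_comm ..)
  · have : lin ε t + 1 = 0 := a.1.2
    rw [lin_opt] at this
    exact (div_eq_iff (h0 K)).2 (by linear_combination -this)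

theorem WS.trivs (A : Adm F B) {ρ : Type} [Fintype ρ] {e : ρ → ℤ} (he : ∀ j, χ.ψ (e j) = 1)
    (h : WS B χ c γ) : WS B χ (Sum.elim c e) (Sum.elim γ fun _ => 0) := by
  refine Fintype.induction_empty_option (P := fun ρ _ => ∀ e : ρ → ℤ, (∀ j, χ.ψ (e j) = 1) →
    WS B χ (Sum.elim c e) (Sum.elim γ fun _ => 0)) (fun α β _ q ih e he => ?_) (fun e _ => ?_)
    (fun α _ ih e he => ?_) ρ e he
  · let _ : Fintype α := Fintype.ofEquiv β q.symm
    exact (ih (e ∘ q) fun _ => he _).reidx ((Equiv.refl ι).sumCongr q)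
      (Sum.rec (fun _ => rfl) fun _ => rfl) (Sum.rec (fun _ => rfl) fun _ => rfl)
  · exact h.reidx (Equiv.sumEmpty ι _).symm (fun _ => rfl) fun _ => rfl
  · let q : Option (ι ⊕ α) ≃ ι ⊕ Option α :=
      ⟨fun o => o.elim (.inr none) (Sum.map id some),
        Sum.elim (fun x => some (.inl x)) (Option.map .inr),
        by rintro (_ | _ | _) <;> rfl, by rintro (_ | _ | _) <;> rfl⟩
    exact ((ih (e ∘ some) fun _ => he _).triv A (he none)).reidx q
      (by rintro (_ | _ | _) <;> rfl) (by rintro (_ | _ | _) <;> rfl)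

/-- Another homogeneous coordinate is normalized. -/
theorem WS.ren {c₀ g₀ : ℤ} (h : WS B χ (fun o : Option ι => o.elim c₀ c) fun o => o.elim g₀ γ) :
    WS B χ (fun o : Option ι => o.elim (-c₀ - ∑ i, c i) c)
      fun o => o.elim (-g₀ - ∑ i, γ i) γ := by
  intro ε hε β hβ
  refine .of_eqv (eqv_of_inv
    (S' := vv (rnV ε) (fun o : Option ι => o.elim c₀ c) (fun o => o.elim g₀ γ) β)
    (e := fun _ t => rnV t) (g := fun _ t => rnV t)
    ⟨fun K t a => ⟨⟨⟨fun _ => trivial, rnV_ne a.1.1.2⟩, lin_rnV (hε _) (a.1.1.2 _) a.1.2⟩,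
        (β.congr (mn_rnV _ _ (a.1.1.2 _))).2 a.2⟩,
      fun _ _ _ _ _ _ b r => rel_rnV r (b.1.1.2 _)⟩
    ⟨fun K t a => ⟨⟨⟨fun _ => trivial, rnV_ne a.1.1.2⟩, ?_⟩, ?_⟩,
      fun _ _ _ _ _ _ b r => rel_rnV r (b.1.1.2 _)⟩
    (fun K t a => ?_) (fun _ _ a => rnV_rnV (a.1.1.2 _)) fun _ _ a => rnV_rnV (a.1.1.2 _))
    (h (rnV ε) (rnV_ne hε) β hβ)
  · have := lin_rnV (rnV_ne hε none) (a.1.1.2 none) a.1.2
    rwa [rnV_rnV (hε none)] at this
  · change β.D (mn _ _)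
    rw [← mn_rnV _ _ (rnV_ne a.1.1.2 none), rnV_rnV (a.1.1.2 none)]
    exact a.2
  · change mn _ _ * β.w (mn _ _) = mn _ t * β.w (mn _ t)
    rw [mn_rnV _ _ (a.1.1.2 _), mn_rnV _ _ (a.1.1.2 _)]

/-- A pair of variables of weight zero with opposite nontrivial exponents is removed. -/
theorem WS.pair (A : Adm F B) {e : ℤ} (he : χ.ψ e ≠ 1)
    (h : WS B χ (fun o : Option (Option ι) => o.elim e fun o' => o'.elim (-e) c)
      fun o => o.elim 0 fun o' => o'.elim 0 γ) : WS B χ c γ := fun ε hε β hβ =>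
  ss_of_prod_line (.of_eqv (eqv_wb₁ ε c γ β e) (ss_closed (cl_wb₁ ε c γ β e)
    (ss_of_closed (cl_wb₀ ε c γ β e) (.of_eqv (eqv_wb₀ ..) (.of_uzero (uz_gmP _ he)))
      (.of_eqv (eqv_wb₃ ..) (h _ (Option.rec one_ne_zero
        (Option.rec (neg_ne_zero.2 one_ne_zero) hε)) β hβ)))
    (.of_eqv (eqv_wb₂ ..) (ss_open (cl_gmP _ e) (.of_eqv (eqv_gmP ..) (ss_tm A c γ hβ))
      (.of_uzero (uz_gmP _ he))))))

theorem WS.pairs (A : Adm F B) {ρ : Type} [Fintype ρ] {e : ρ → ℤ} (he : ∀ j, χ.ψ (e j) ≠ 1)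
    (h : WS B χ (Sum.elim c (Sum.elim (fun j => -e j) e)) (Sum.elim γ fun _ => 0)) :
    WS B χ c γ := by
  refine Fintype.induction_empty_option (P := fun ρ _ => ∀ e : ρ → ℤ, (∀ j, χ.ψ (e j) ≠ 1) →
    WS B χ (Sum.elim c (Sum.elim (fun j => -e j) e)) (Sum.elim γ fun _ => 0) → WS B χ c γ)
    (fun α β _ q ih e he h => ?_) (fun e _ h => ?_) (fun α _ ih e he h => ?_) ρ e he h
  · let _ : Fintype α := Fintype.ofEquiv β q.symm
    exact ih (e ∘ q) (fun _ => he _) (h.reidx ((Equiv.refl ι).sumCongr (q.symm.sumCongr q.symm))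
      (by rintro (_ | _ | _) <;> simp) (by rintro (_ | _ | _) <;> rfl))
  · exact h.reidx (Equiv.sumEmpty ι _) (Sum.rec (fun _ => rfl) fun a => isEmptyElim a)
      (Sum.rec (fun _ => rfl) fun a => isEmptyElim a)
  · let q : ι ⊕ Option α ⊕ Option α ≃ Option (Option (ι ⊕ α ⊕ α)) :=
      ⟨Sum.elim (fun x => some (some (.inl x)))
          (Sum.elim (fun o => some (o.map fun a => .inr (.inl a)))
            fun o => o.map fun a => some (.inr (.inr a))),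
        fun o => o.elim (.inr (.inr none)) fun o' => o'.elim (.inr (.inl none))
          (Sum.map id (Sum.map some some)),
        by rintro (_ | (_ | _) | (_ | _)) <;> rfl, by rintro (_ | _ | _ | _ | _) <;> rfl⟩
    exact ih (e ∘ some) (fun _ => he _) (WS.pair A (he none) (h.reidx q
      (by rintro (_ | (_ | _) | (_ | _)) <;> rfl) (by rintro (_ | (_ | _) | (_ | _)) <;> rfl)))

end

end Pool.Agent.Lib.MP_fc2ced_ag.T
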