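import Pool.Agent.Lib.MP_fc2ced_ag.G.Bs
import Pool.Agent.Lib.MP_fc2ced_ag.G.Kc
import Pool.Agent.Lib.MP_fc2ced_ag.G.VA

/-! Hypersurfaces in tori whose exponents satisfy at most one relation. -/

open CategoryTheory Function

namespace Pool.Agent.Lib.MP_fc2ced_ag.T

open K

/-- Common denominators. -/
theorem exists_clearA {ι : Type} [Fintype ι] (f : ι → ℚ) :
    ∃ (h : ℕ) (g : ι → ℤ), 0 < h ∧ ∀ i, (g i : ℚ) = h * f i := by
  have : ∀ i, ∃ c : ℤ, (c : ℚ) = (∏ j, (f j).den : ℕ) * f i := fun i => by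
    obtain ⟨c, hc⟩ := Finset.dvd_prod_of_mem (fun j => (f j).den) (Finset.mem_univ i)
    exact ⟨c * (f i).num, by
      rw [hc]; push_cast; rw [← Rat.den_mul_eq_num]; ring⟩
  choose g hg using this
  exact ⟨_, g, Finset.prod_pos fun j _ => (f j).den_pos, hg⟩

/-- A generalized inverse of an integral matrix of corank at most one. -/
theorem exists_ginv {M σ : Type} [Fintype M] [Fintype σ] [DecidableEq M] [DecidableEq σ]
    (b : M → σ → ℤ) (γ : M → ℤ)
    (h : ∀ r : M → ℤ, (∀ i, ∑ m, r m * b m i = 0) → ∃ u v : ℤ, u ≠ 0 ∧ ∀ m, u * r m = v * γ m) :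
    ∃ (n : ℕ) (d : Fin n → σ → ℤ) (W : σ → M ⊕ Fin n → ℤ) (h : ℕ) (q : M ⊕ Fin n → ℤ), 0 < h ∧
      (∀ i i', ∑ z, W i z * Sum.elim b d z i' = if i = i' then (h : ℤ) else 0) ∧
      ∀ z z', ∑ i, Sum.elim b d z i * W i z' =
        (if z = z' then (h : ℤ) else 0) + q z * Sum.elim γ (fun _ => 0) z' := by
  obtain ⟨U, hU⟩ := (Submodule.span ℚ (Set.range fun m i => (b m i : ℚ))).exists_isCompl
  let β := Module.finBasis ℚ U
  obtain ⟨c, d', hc, hd⟩ := exists_clearA fun x : Fin _ × σ => (β x.1).1 x.2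
  have hc' : (c : ℚ) ≠ 0 := Nat.cast_ne_zero.2 hc.ne'
  let B : M ⊕ Fin (Module.finrank ℚ U) → σ → ℤ := Sum.elim b fun j i => d' (j, i)
  have sur : ∀ i, ∃ w : M ⊕ Fin _ → ℚ, ∀ i', ∑ z, w z * B z i' = if i = i' then 1 else 0 :=
    fun i => by
      obtain ⟨v, hv, u, hu, e⟩ := Submodule.mem_sup.1
        (hU.sup_eq_top ▸ Submodule.mem_top (x := (Pi.single i 1 : σ → ℚ)))
      obtain ⟨x, rfl⟩ := (Submodule.mem_span_range_iff_exists_fun ℚ).1 hv
      refine ⟨Sum.elim x fun j => β.repr ⟨u, hu⟩ j / c, fun i' => ?_⟩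
      have e1 := congrFun (congrArg Subtype.val (β.sum_repr ⟨u, hu⟩)) i'
      have e2 := congrFun e i'
      simp only [AddSubmonoidClass.coe_finsetSum, Finset.sum_apply, SetLike.val_smul,
        Pi.smul_apply, smul_eq_mul, Pi.add_apply, Pi.single_apply, @eq_comm _ i'] at e1 e2
      simp only [Fintype.sum_sum_type, B, Sum.elim_inl, Sum.elim_inr, hd, ← mul_assoc,
        div_mul_cancel₀ _ hc', e1, e2]
  have ker : ∀ ρ : M ⊕ Fin _ → ℚ, (∀ i, ∑ z, ρ z * B z i = 0) →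
      ∃ q : ℚ, ∀ z, ρ z = q * Sum.elim γ (fun _ => 0) z := fun ρ e => by
    have e1 : ∑ j, (ρ (.inr j) * c) • β j = 0 := by
      refine Subtype.ext ((Submodule.disjoint_def.1 hU.disjoint) _ ?_ (Subtype.property _))
      refine (Submodule.mem_span_range_iff_exists_fun ℚ).2 ⟨fun m => -ρ (.inl m), funext fun i => ?_⟩
      have := e i
      simp only [Fintype.sum_sum_type, B, Sum.elim_inl, Sum.elim_inr, hd, ← mul_assoc] at this
      simp only [AddSubmonoidClass.coe_finsetSum, Finset.sum_apply, SetLike.val_smul,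
        Pi.smul_apply, smul_eq_mul, neg_mul, Finset.sum_neg_distrib]
      linear_combination -this
    have e2 : ∀ j, ρ (.inr j) = 0 := fun j =>
      (mul_eq_zero.1 (Fintype.linearIndependent_iff.1 β.linearIndependent _ e1 j)).resolve_right hc'
    obtain ⟨t, r, ht, hr⟩ := exists_clearA fun m => ρ (.inl m)
    obtain ⟨u, v, hu, huv⟩ := h r fun i => by
      have := e i
      simp only [Fintype.sum_sum_type, B, Sum.elim_inl, e2, zero_mul, Finset.sum_const_zero,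
        add_zero] at this
      apply Int.cast_injective (α := ℚ)
      push_cast
      simp only [hr, mul_assoc, ← Finset.mul_sum, this, mul_zero]
    refine ⟨v / (u * t), fun z => ?_⟩
    rcases z with m | j
    · have := congrArg (Int.cast (R := ℚ)) (huv m)
      have ht' : (t : ℚ) ≠ 0 := Nat.cast_ne_zero.2 ht.ne'
      have hu' : (u : ℚ) ≠ 0 := Int.cast_ne_zero.2 hu
      push_cast at this
      rw [hr] at this
      rw [Sum.elim_inl]
      field_simp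
      linear_combination this
    · simp [e2]
  choose W hW using sur
  choose q hq using fun z =>
    ker (fun z' => ∑ i, B z i * W i z' - if z = z' then 1 else 0) fun i' => by
      simp only [sub_mul, Finset.sum_sub_distrib, Finset.sum_mul, mul_assoc]
      rw [Finset.sum_comm]
      simp [← Finset.mul_sum, hW]
  obtain ⟨t, g, ht, hg⟩ := exists_clearA (Sum.elim (fun x : σ × _ => W x.1 x.2) q)
  refine ⟨_, fun j i => d' (j, i), fun i z => g (.inl (i, z)), t, fun z => g (.inr z), ht, fun i i' => ?_,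
    fun z z' => ?_⟩ <;> apply Int.cast_injective (α := ℚ) <;> push_cast
  · simp only [hg, Sum.elim_inl, mul_assoc, ← Finset.mul_sum]
    rw [hW, mul_ite, mul_one, mul_zero]
  · simp only [hg, Sum.elim_inl, Sum.elim_inr, mul_left_comm _ (t : ℚ), ← Finset.mul_sum]
    rw [mul_assoc, ← hq, mul_sub, mul_ite, mul_one, mul_zero, add_sub_cancel]

noncomputable section

variable {k : Type} [Field k] {F : Type} [Field F] [CharZero F] [IsAlgClosed k] [IsAlgClosed F]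

open MP_fc2ced_ag.T.Pt

variable {M σ : Type} [Fintype M] [Fintype σ] (P : Pt k) (a : M → ∀ ⦃K⦄, P.X K → K)
  (ha : ∀ m, P.Reg (gm k) (a m))

/-- The family of hypersurfaces `∑ a m * x ^ b m + 1 = 0` in a torus, with the function one. -/
@[reducible] def yo (b : M → σ → ℤ) : Pt k :=
  ((P.prod (mt k fun _ : σ => 0)).restr (fun _ x => ∑ m, a m x.1 * mn (b m) x.2 + 1 = 0)
    (Closed.conv fun _ _ φ _ _ p q r e => ((Place.sum fun m _ =>
      ((ha m).reg φ _ _ p.1 q.1 r.1).mul (rel_mn _ r.2 q.2.2)).add φ.one).eq_of φ.zero e)).withF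
    (fun _ _ => 1) regF_one fun _ _ _ => one_ne_zero

/-- The hyperplane with one monomial relation. -/
@[reducible] def zo (c γ : M → ℤ) : Pt k :=
  ((P.prod (hy (fun _ => 1) c)).restr (fun _ x => mn γ x.2 = mn γ fun m => a m x.1)
    (Closed.conv fun _ _ φ _ _ p q r => (rel_mn _ r.2 q.2.1.2).eq_of
      (rel_mn _ (fun m => (ha m).reg φ _ _ p.1 q.1 r.1) fun m => ((ha m).live _ q.1).2))).withF
    (fun _ x => mn c fun m => x.2 m / a m x.1)
    (fun _ _ φ _ _ p q r => rel_mn _ (fun m => (r.2 m).div ((ha m).reg φ _ _ p.1.1 q.1.1 r.1)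
      ((ha m).live _ q.1.1).2) fun m => div_ne_zero (q.1.2.1.2 m) ((ha m).live _ q.1.1).2)
    fun _ _ p => mn_ne _ fun m => div_ne_zero (p.1.2.1.2 m) ((ha m).live _ p.1.1).2

/-- The diagonal form of the hypersurface. -/
@[reducible] def yd (γ : M → ℤ) (h : ℕ) : Pt k :=
  (yo (σ := M) P a ha fun m => by classical exact Pi.single m h).restr (fun _ x => mn γ x.2 = 1)
    (Closed.conv fun _ _ φ _ _ _ q r => (rel_mn _ r.2 q.1.2.2).eq_of φ.one)

omit [IsAlgClosed k] [IsAlgClosed F] in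
theorem yd_clopen {S : Pt k} {T : S.Cond} {χ : Chr k F} (c : S.Closed T) (o : S.Open T)
    (h : SS (S.E χ)) : SS ((S.restr T c.conv).E χ) := by
  refine h.retract (s := (isMap_closed c).hom χ) (p := (isMap_open o).hom χ) ?_
  rw [(isMap_closed c).hom_comp (isMap_open o) isMap_id (fun _ _ hx _ => hx.1) fun _ _ _ _ => rfl,
    isMap_id.hom_id fun _ _ _ => rfl]
  exact .id

omit [IsAlgClosed k] in
variable (k) in
theorem yd_split {h : ℕ} (h0 : 0 < h) : ∃ q g : ℕ, 0 < q ∧ h = q * g ∧ (g : k) ≠ 0 ∧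
    ∀ (K : Fld k) (x y : K), x ^ q = y ^ q → x = y := by
  rcases CharP.char_is_prime_or_zero k (ringChar k) with hp | hp
  · obtain ⟨s, g, h1, h2⟩ := Nat.exists_eq_pow_mul_and_not_dvd h0.ne' _ hp.ne_one
    refine ⟨_, g, pow_pos hp.pos s, h2, fun e => h1 ((ringChar.spec k g).1 e), fun K x y e => ?_⟩
    have : CharP K (ringChar k) := charP_of_injective_algebraMap (algebraMap k K).injective _
    have : ExpChar K (ringChar k) := .prime hp
    exact (iterateFrobenius K (ringChar k) s).injective e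
  · refine ⟨1, h, one_pos, (one_mul h).symm, fun e => h0.ne' ?_, fun K x y e => by simpa using e⟩
    have := (ringChar.spec k h).1 e
    rwa [hp, zero_dvd_iff] at this

omit [IsAlgClosed k] in
theorem yd_root {q : ℕ} (hq : 0 < q) (inj : ∀ (K : Fld k) (x y : K), x ^ q = y ^ q → x = y) :
    ∃ r : ∀ ⦃K : Fld k⦄, K → K, (∀ (K : Fld k) (x : K), r x ^ q = x) ∧
      ∀ (K K' : Fld k) (φ : Place K K') (x : K) (y : K'), φ x y → φ (r x) (r y) := by
  choose r hr using fun (K : Fld k) (x : K) => IsAlgClosed.exists_pow_nat_eq x hq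
  refine ⟨r, hr, fun K K' φ x y h => ?_⟩
  obtain ⟨y', hy⟩ := ((Place.PR.X.pow q).sub (Place.PR.C h)).exists_root
    (Polynomial.monic_X_pow_sub_C x hq.ne') (a := r K x) (by simp [hr])
  rwa [← inj K' y' _ (((hy.pow q).eq_of h (hr K x)).trans (hr K' y).symm)]

theorem yd_single {K : Type} [Field K] [DecidableEq M] (m : M) (h : ℕ) (z : M → K) :
    mn (Pi.single m (h : ℤ)) z = z m ^ h := by
  rw [mn, Finset.prod_eq_single m (fun i _ e => by rw [Pi.single_eq_of_ne e, zpow_zero]) (by simp),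
    Pi.single_eq_same, zpow_natCast]

theorem yd_pow {K : Type} [Field K] (γ : M → ℤ) (z : M → K) (h : ℕ) :
    (mn γ fun m => z m ^ h) = mn γ z ^ h := by
  rw [mn, mn, ← Finset.prod_pow]
  simp only [← zpow_natCast, ← zpow_mul, mul_comm]

theorem yd_mul {K : Type} [Field K] (γ : M → ℤ) (z w : M → K) :
    (mn γ fun m => z m * w m) = mn γ z * mn γ w := by
  simp only [mn, mul_zpow, Finset.prod_mul_distrib]

theorem ss_yd (γ : M → ℤ) {h : ℕ} (h0 : 0 < h)
    (H : ∀ (χ : Chr k F) (c : M → ℤ), χ.Prim → SS ((zo P a ha c γ).E χ)) :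
    SS ((yd P a ha γ h).E (Chr.triv k F)) := by
  obtain ⟨q, g, hq, rfl, hg, inj⟩ := yd_split k h0
  obtain ⟨r, hr, rr⟩ := yd_root hq inj
  obtain ⟨χ, hχ, hN, -⟩ := (Chr.prim_triv (k := k) (F := F)).exists_lift hg
  have g0 : g ≠ 0 := fun e => hg (by rw [e, Nat.cast_zero])
  have hh : ∀ m, (zo P a ha 0 γ).RegF fun _ x => x.2 m / a m x.1 := fun m _ _ φ _ _ p q r =>
    (r.2 m).div ((ha m).reg φ _ _ p.1.1 q.1.1 r.1) ((ha m).live _ q.1.1).2
  have hn : ∀ m ⦃K⦄ (x : (zo P a ha 0 γ).X K), (zo P a ha 0 γ).L x → x.2 m / a m x.1 ≠ 0 :=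
    fun m _ x p => div_ne_zero (p.1.2.1.2 m) ((ha m).live _ p.1.1).2
  have h1 := (zo P a ha 0 γ).ss_kc _ hh (M := 1) hχ hN hn fun t =>
    .of_eqv (eqv_of_inv (S' := zo P a ha (fun m => t m) γ) (e := fun _ x => x) (g := fun _ x => x)
      ⟨fun _ _ p => p.1, fun _ _ _ _ _ _ _ r => r⟩
      ⟨fun _ x p => ⟨p, fun m => hn m x p⟩, fun _ _ _ _ _ _ _ r => r⟩
      (fun _ x _ => by simp [mn]) (fun _ _ _ => rfl) fun _ _ _ => rfl) (H χ _ hχ)
  have hx : ∀ ⦃K⦄ (x : ((zo P a ha 0 γ).kc _ hh g).X K), ((zo P a ha 0 γ).kc _ hh g).L x →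
      (∀ m, x.2 m ≠ 0) ∧ ∀ m, a m x.1.1 * x.2 m ^ g = x.1.2 m := fun _ x p =>
    ⟨fun m e => hn m _ p.1.1 ((p.2 m).symm.trans (by rw [e, zero_pow g0])),
      fun m => by rw [p.2 m, mul_div_cancel₀ _ ((ha m).live _ p.1.1.1.1).2]⟩
  have c : ((zo P a ha 0 γ).kc _ hh g).Closed fun _ x => mn γ x.2 = 1 :=
    fun _ _ φ _ y _ q r => (rel_mn γ r.2 (hx y q).1).eq_of φ.one
  have o : ((zo P a ha 0 γ).kc _ hh g).Open fun _ x => mn γ x.2 = 1 := fun _ _ φ x y p q r e => by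
    by_contra k
    refine Place.ne_one_of_pow (Nat.pos_of_ne_zero g0) (rel_mn γ r.2 (hx y q).1) ?_ k e
    refine mul_left_cancel₀ (mn_ne γ fun m => ((ha m).live _ p.1.1.1.1).2) ?_
    rw [← yd_pow, ← yd_mul, mul_one, ← p.1.1.2]
    exact congrArg (mn γ) (funext (hx x p).2)
  refine .of_eqv (eqv_of_one _ χ _ fun _ _ _ => rfl) (.of_eqv (eqv_of_inv
    (S := yd P a ha γ (q * g)) (S' := ((zo P a ha 0 γ).kc _ hh g).restr _ c.conv)
    (e := fun _ x => ((x.1, fun m => a m x.1 * x.2 m ^ (q * g)), fun m => x.2 m ^ q))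
    (g := fun _ x => (x.1.1, fun m => r (x.2 m))) ⟨fun _ x p => ?_, fun _ _ φ x y p p' s => ?_⟩
    ⟨fun _ x p => ?_, fun _ _ φ x y p p' s => ⟨s.1.1, fun m => rr _ _ φ _ _ (s.2 m)⟩⟩
    (fun _ x _ => by simp [mn]) (fun _ x _ => ?_) fun _ x p => ?_) (yd_clopen c o h1))
  · obtain ⟨⟨⟨p1, p2⟩, p3⟩, p4⟩ := p
    simp only [yd_single] at p3
    refine ⟨⟨⟨⟨⟨p1, ⟨p2.1, fun m => mul_ne_zero ((ha m).live _ p1).2 (pow_ne_zero _ (p2.2 m))⟩,
      by simpa [lin] using p3⟩, ?_⟩, p2.1⟩, fun m => ?_⟩, ?_⟩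
    · exact (yd_mul γ _ _).trans (by rw [yd_pow, p4, one_pow, mul_one])
    · exact (pow_mul _ _ _).symm.trans (mul_div_cancel_left₀ _ ((ha m).live _ p1).2).symm
    · exact (yd_pow γ _ _).trans (by rw [p4, one_pow])
  · exact ⟨⟨s.1, fun m => ((ha m).reg φ _ _ p.1.1.1 p'.1.1.1 s.1).mul ((s.2 m).pow _)⟩,
      fun m => (s.2 m).pow _⟩
  · obtain ⟨k1, k2⟩ := hx x p.1
    refine ⟨⟨⟨p.1.1.1.1.1, fun _ => trivial, fun m e => k1 m ?_⟩, ?_⟩, inj _ _ _ ?_⟩
    · rw [← hr _ (x.2 m), show r (x.2 m) = 0 from e, zero_pow hq.ne']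
    · simp only [yd_single, pow_mul, hr, k2]
      simpa [lin] using p.1.1.1.1.2.2
    · rw [← yd_pow, one_pow]
      simpa only [hr] using p.2
  · exact Prod.ext rfl (funext fun m => inj _ _ _ (hr _ _))
  · refine Prod.ext (Prod.ext rfl (funext fun m => ?_)) (funext fun m => hr _ _)
    simpa only [pow_mul, hr] using (hx x p.1).2 m

section MnA
variable {K : Type} [Field K] {ι κ : Type} [Fintype ι] [Fintype κ]

theorem mn_mnA (c : κ → ℤ) (B : κ → ι → ℤ) {y : ι → K} (h : ∀ i, y i ≠ 0) :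
    mn c (fun z => mn (B z) y) = mn (fun i => ∑ z, c z * B z i) y := by
  simp only [mn, ← Finset.prod_zpow, ← zpow_mul]
  rw [Finset.prod_comm]
  exact Finset.prod_congr rfl fun i _ => by rw [prod_zpow_sumM (h i)]; simp only [mul_comm]

theorem mn_iteA {D : DecidableEq ι} (i : ι) (h : ℕ) (y : ι → K) :
    mn (fun i' => if i = i' then (h : ℤ) else 0) y = y i ^ h := by
  rw [mn, Finset.prod_eq_single i (fun j _ e => by rw [if_neg e.symm, zpow_zero]) (by simp),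
    if_pos rfl, zpow_natCast]

theorem mn_singleA {D : DecidableEq ι} (i : ι) (h : ℕ) (y : ι → K) :
    mn (Pi.single i (h : ℤ)) y = y i ^ h := by
  rw [← mn_iteA (D := D) i h y]
  simp only [mn, Pi.single_apply, eq_comm]

theorem mn_addA (c c' : ι → ℤ) (q : ℤ) {y : ι → K} (h : ∀ i, y i ≠ 0) :
    mn (fun i => c i + q * c' i) y = mn c y * mn c' y ^ q := by
  simp only [mn, zpow_add₀ (h _), Finset.prod_mul_distrib, ← Finset.prod_zpow, ← zpow_mul,
    mul_comm q]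

theorem mn_powA (c : ι → ℤ) (y : ι → K) (h : ℕ) : mn c y ^ h = mn c fun i => y i ^ h := by
  simp only [mn, ← zpow_natCast, ← Finset.prod_zpow, ← zpow_mul, mul_comm]

theorem mn_elimA (c : ι → ℤ) (y : ι → K) (y' : κ → K) :
    mn (Sum.elim c fun _ => 0) (Sum.elim y y') = mn c y := by
  simp [mn, Fintype.prod_sum_type]

end MnA

omit [IsAlgClosed k] in
/-- A root of an element with invertible value has an invertible value. -/
theorem rel_rootA {K K' : Fld k} {φ : Place K K'} {y : K} {c : K'} {h : ℕ} (h0 : 0 < h)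
    (r : φ (y ^ h) c) (hc : c ≠ 0) : ∃ y', φ y y' ∧ y' ≠ 0 := by
  obtain ⟨y', hy⟩ := ((Place.PR.X.pow h).sub (Place.PR.C r)).exists_root
    (Polynomial.monic_X_pow_sub_C _ h0.ne') (a := y) (by simp)
  exact ⟨y', hy, fun e => hc (by rw [← (hy.pow h).func r, e, zero_pow h0.ne'])⟩

theorem ss_yo (b : M → σ → ℤ) (γ : M → ℤ) (hγ : ∀ i, ∑ m, γ m * b m i = 0)
    (h : ∀ r : M → ℤ, (∀ i, ∑ m, r m * b m i = 0) → ∃ u v : ℤ, u ≠ 0 ∧ ∀ m, u * r m = v * γ m)
    (H : ∀ (χ : Chr k F) (c : M → ℤ), χ.Prim → SS ((zo P a ha c γ).E χ)) :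
    SS ((yo P a ha b).E (Chr.triv k F)) := by
  classical
  obtain ⟨n, d, W, g, q, g0, e1, e2⟩ := exists_ginv b γ h
  have hh : ∀ i : σ, (yo P a ha b).RegF fun _ x => x.2 i := fun i _ _ _ _ _ _ _ r => r.2 i
  have k1 : ∀ ⦃K : Fld k⦄ (y : σ → K), (∀ i, y i ≠ 0) → ∀ i,
      mn (W i) (Sum.elim (fun m => mn (b m) y) fun j => mn (d j) y) = y i ^ g := fun K y hy i => by
    rw [← mn_iteA i g y, ← funext (e1 i), ← mn_mnA _ _ hy]
    exact congrArg _ (funext fun z => by cases z <;> rfl)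
  have k2 : ∀ ⦃K : Fld k⦄ (u : M → K) (v : Fin n → K), (∀ z, Sum.elim u v z ≠ 0) → mn γ u = 1 →
      ∀ z, mn (Sum.elim b d z) (fun i => mn (W i) (Sum.elim u v)) = Sum.elim u v z ^ g :=
    fun K u v hy e z => by
      rw [mn_mnA _ _ hy, funext (e2 z), mn_addA _ _ _ hy, mn_elimA, e, one_zpow, mul_one, mn_iteA]
  have ny : ∀ ⦃K : Fld k⦄ (x : ((yo P a ha b).kc _ hh g).X K), ((yo P a ha b).kc _ hh g).L x →
      ∀ i, x.2 i ≠ 0 := fun K x hx i e =>
    hx.1.1.1.2.2 i ((hx.2 i).symm.trans (by rw [e, zero_pow g0.ne']))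
  have nz : ∀ ⦃K : Fld k⦄ (x : ((yd P a ha γ g).prod (mt k fun _ : Fin n => 0)).X K),
      ((yd P a ha γ g).prod (mt k fun _ : Fin n => 0)).L x → ∀ z, Sum.elim x.1.2 x.2 z ≠ 0 :=
    fun K x hx z => by
      cases z
      exacts [hx.1.1.1.2.2 _, hx.2.2 _]
  have rz : ∀ ⦃K K' : Fld k⦄ (φ : Place K K') (u : M → K) (v : Fin n → K) (u' : M → K')
      (v' : Fin n → K'), (∀ m, φ (u m) (u' m)) → (∀ j, φ (v j) (v' j)) →
      ∀ z, φ (Sum.elim u v z) (Sum.elim u' v' z) := fun K K' φ u v u' v' r r' z => by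
    cases z
    exacts [r _, r' _]
  have lα : ∀ ⦃K : Fld k⦄ (x : ((yo P a ha b).kc _ hh g).X K), ((yo P a ha b).kc _ hh g).L x →
      ((yd P a ha γ g).prod (mt k fun _ : Fin n => 0)).L
        ((x.1.1, fun m => mn (b m) x.2), fun j => mn (d j) x.2) := fun K x hx => by
    refine ⟨⟨⟨⟨hx.1.1.1.1, fun _ => trivial, fun m => mn_ne _ (ny x hx)⟩, ?_⟩, ?_⟩,
      fun _ => trivial, fun j => mn_ne _ (ny x hx)⟩
    · simp only [mn_singleA, mn_powA, hx.2]
      exact hx.1.1.2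
    · simp only [mn_mnA _ _ (ny x hx), hγ]
      simp [mn]
  have α : IsMap ((yo P a ha b).kc _ hh g) ((yd P a ha γ g).prod (mt k fun _ : Fin n => 0))
      fun _ x => ((x.1.1, fun m => mn (b m) x.2), fun j => mn (d j) x.2) := by
    refine .of_proper ⟨lα, fun _ _ φ x y _ hy r => ⟨⟨r.1.1, fun m => rel_mn _ r.2 (ny y hy)⟩,
      fun j => rel_mn _ r.2 (ny y hy)⟩⟩ (fun _ _ _ => by simp) fun K K' φ x z hx hz r => ?_
    have r1 := fun i => k1 x.2 (ny x hx) i ▸ rel_mn (W i) (rz φ _ _ _ _ r.1.2 r.2) (nz z hz)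
    choose y r2 n2 using fun i => rel_rootA g0 (r1 i) (mn_ne _ (nz z hz))
    have r3 : ∀ i, φ (x.1.2 i) (y i ^ g) := fun i => ((r2 i).pow g).congr (hx.2 i) rfl
    have n3 : ∀ i, y i ^ g ≠ 0 := fun i => pow_ne_zero _ (n2 i)
    exact ⟨((z.1.1, fun i => y i ^ g), y), ⟨⟨⟨⟨hz.1.1.1.1, fun _ => trivial, n3⟩,
      ((Place.sum fun m _ => ((ha m).reg φ _ _ hx.1.1.1.1 hz.1.1.1.1 r.1.1).mul
        (rel_mn _ r3 n3)).add φ.one).eq_of φ.zero hx.1.1.2⟩, fun _ => trivial⟩, fun _ => rfl⟩,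
      ⟨r.1.1, r3⟩, r2⟩
  have β : IsMap ((yd P a ha γ g).prod (mt k fun _ : Fin n => 0)) (yo P a ha b)
      fun _ x => (x.1.1, fun i => mn (W i) (Sum.elim x.1.2 x.2)) := by
    refine .of_proper ⟨fun _ x hx => ⟨⟨hx.1.1.1.1, fun _ => trivial, fun i => mn_ne _ (nz x hx)⟩,
      ?_⟩, fun _ _ φ x y _ hy r => ⟨r.1.1, fun i => rel_mn _ (rz φ _ _ _ _ r.1.2 r.2) (nz y hy)⟩⟩
      (fun _ _ _ => by simp) fun K K' φ x z hx hz r => ?_
    · have e := hx.1.1.2
      simp only [mn_singleA] at e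
      exact (congrArg (· + 1) (Finset.sum_congr rfl fun m _ => congrArg _
        (k2 _ _ (nz x hx) hx.1.2 (.inl m)))).trans e
    have r1 := fun w => k2 _ _ (nz x hx) hx.1.2 w ▸ rel_mn (Sum.elim b d w) r.2 hz.1.2.2
    choose y r2 n2 using fun w => rel_rootA g0 (r1 w) (mn_ne _ hz.1.2.2)
    exact ⟨((z.1, fun m => y (.inl m)), fun j => y (.inr j)), ⟨⟨⟨⟨hz.1.1, fun _ => trivial,
      fun m => n2 _⟩, ((Place.sum fun m _ => ((ha m).reg φ _ _ hx.1.1.1.1 hz.1.1 r.1).mul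
        (rel_mn _ (fun m => r2 (.inl m)) fun m => n2 _)).add φ.one).eq_of φ.zero hx.1.1.2⟩,
      (rel_mn _ (fun m => r2 (.inl m)) fun m => n2 _).eq_of φ.one hx.1.2⟩, fun _ => trivial,
      fun j => n2 _⟩, ⟨r.1, fun m => r2 (.inl m)⟩, fun j => r2 (.inr j)⟩
  obtain ⟨tr, e⟩ := (yo P a ha b).exists_kcTr (χ := Chr.triv k F) _ hh g0
  refine (ss_prod (ss_yd P a ha γ g0 H) (ss_mt fun _ : Fin n => 0)).retract
    (s := tr ≫ α.hom _) (p := β.hom _) ?_
  rw [Category.assoc, α.hom_comp β ((yo P a ha b).isMap_kc _ hh g0) (fun _ x hx _ => lα x hx)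
    fun _ x hx _ => Prod.ext rfl (funext fun i => (k1 x.2 (ny x hx) i).trans (hx.2 i)), e]
  exact UIso.id.smul (pow_ne_zero _ (Nat.cast_ne_zero.2 g0.ne'))

end

end Pool.Agent.Lib.MP_fc2ced_ag.T
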