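import Pool.Agent.Lib.MP_fc2ced_ag.T.Cov

/-! Primitive characters and their lifts to larger moduli. -/

open CategoryTheory Function

namespace Pool.Agent.Lib.MP_fc2ced_ag.T

open K

noncomputable section

variable {k : Type} [Field k] {F : Type} [Field F] [CharZero F]

variable (k F) in
/-- The character of modulus one. -/
def Chr.triv : Chr k F := ⟨1, 1, IsPrimitiveRoot.one, by simp, 1⟩

/-- Faithful characters. -/
def Chr.Prim (χ : Chr k F) : Prop := χ.ψ.IsPrimitive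

theorem Chr.prim_triv : (Chr.triv k F).Prim := fun a h =>
  absurd (Subsingleton.elim (α := ZMod 1) a 0) h

omit [CharZero F] in
theorem Chr.Prim.eq_one_iff {χ : Chr k F} (h : χ.Prim) (t : ℤ) :
    χ.ψ t = 1 ↔ (χ.N : ℤ) ∣ t := by
  rw [AddChar.IsPrimitive.zmod_char_eq_one_iff χ.N h, ZMod.intCast_zmod_eq_zero_iff_dvd]

/-- Roots of primitive roots of unity. -/
theorem exists_root_prim {L : Type} [Field L] [IsAlgClosed L] {N g : ℕ} (hN : 0 < N)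
    (hg : (g : L) ≠ 0) {ω : L} (h : IsPrimitiveRoot ω N) :
    ∃ ω' : L, IsPrimitiveRoot ω' (N * g) ∧ ω' ^ g = ω := by
  have g0 : g ≠ 0 := fun e => hg (by rw [e, Nat.cast_zero])
  have : NeZero N := ⟨hN.ne'⟩
  have : NeZero (N * g) := ⟨mul_ne_zero hN.ne' g0⟩
  have hN' : NeZero (N : L) := h.neZero'
  have : NeZero ((N * g : ℕ) : L) := ⟨by
    rw [Nat.cast_mul]
    exact mul_ne_zero hN'.out hg⟩
  obtain ⟨z, hz⟩ := HasEnoughRootsOfUnity.exists_primitiveRoot L (N * g)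
  have hz' : IsPrimitiveRoot (z ^ g) N := hz.pow (NeZero.pos _) (mul_comm N g)
  obtain ⟨i, -, hi, e⟩ := hz'.isPrimitiveRoot_iff.1 h
  obtain ⟨u, hu⟩ := ZMod.unitsMap_surjective (dvd_mul_right N g) (ZMod.unitOfCoprime i hi)
  have h1 : (((u : ZMod (N * g)).val : ℕ) : ZMod N) = (i : ZMod N) := by
    have := congrArg (fun v : (ZMod N)ˣ => (v : ZMod N)) hu
    simpa [ZMod.unitsMap_def] using this
  refine ⟨z ^ (u : ZMod (N * g)).val, hz.pow_of_coprime _ (ZMod.val_coe_unit_coprime u), ?_⟩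
  rw [← pow_mul, mul_comm, pow_mul, ← e, pow_eq_pow_mod _ hz'.pow_eq_one,
    (ZMod.natCast_eq_natCast_iff' _ _ _).1 h1, ← pow_eq_pow_mod _ hz'.pow_eq_one]

omit [CharZero F] in
/-- A rescaling of the classes of points that intertwines the two cocycles. -/
theorem eqv_of_cocycle (χ χ' : Chr k F) (S : Pt k) (f : ∀ ⦃K⦄, S.X K → K) (hf : S.RegF f)
    (h0 : ∀ ⦃K⦄ (x : S.X K), S.L x → f x ≠ 0) (u : ∀ ⦃K⦄, S.X K → F)
    (u0 : ∀ ⦃K⦄ (x : S.X K), S.L x → u x ≠ 0)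
    (hu : ∀ ⦃K K'⦄ (φ : Place K K') (x : S.X K) (y : S.X K'), S.L x → S.L y → S.R φ x y →
      u x * χ'.cf φ (f x) = χ.cf φ (S.f x) * u y) :
    Eqv (S.E χ) ((S.withF f hf h0).E χ') := by
  have h : Pt.IsLift S χ ((S.withF f hf h0).E χ') fun _ x => u x • (S.withF f hf h0).cl F x := by
    refine ⟨fun _ _ φ x y hx hy r => ?_, fun _ _ φ x hx hd => ?_⟩
    · rw [map_smul, Pt.map_cl (S := S.withF f hf h0) (.of_R hx hy r), smul_smul, smul_smul,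
        hu φ x y hx hy r]
    · rw [map_smul, Pt.map_cl_Dd (S := S.withF f hf h0) hd, smul_zero]
  exact ⟨h.hom, fun K => bij_of_basis' Finsupp.basisSingleOne Finsupp.basisSingleOne
    (Equiv.refl _) _ fun x => ⟨_, u0 x.1 x.2, by
      rw [← Pt.basis_cl (S := S), Pt.IsLift.hom_cl _ x.2,
        (S.withF f hf h0).cl_live ⟨x.1, x.2⟩]
      rfl⟩⟩

omit [CharZero F] in
theorem Chr.Prim.isPrimitiveRoot {χ : Chr k F} (h : χ.Prim) : IsPrimitiveRoot (χ.ψ 1) χ.N := by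
  have e (n : ℕ) : χ.ψ 1 ^ n = χ.ψ ((n : ℤ) : ZMod χ.N) := by
    rw [← AddChar.map_nsmul_eq_pow, nsmul_eq_mul, mul_one, Int.cast_natCast]
  refine ⟨by rw [e, h.eq_one_iff], fun l hl => ?_⟩
  rw [e, h.eq_one_iff] at hl
  exact Int.natCast_dvd_natCast.1 hl

variable [IsAlgClosed k] [IsAlgClosed F]

/-- The lift of a primitive character. -/
theorem Chr.Prim.exists_lift {χ : Chr k F} (h : χ.Prim) {g : ℕ} (hg : (g : k) ≠ 0) :
    ∃ χ' : Chr k F, χ'.Prim ∧ χ'.N = χ.N * g ∧ ∀ (S : Pt k) (f : ∀ ⦃K⦄, S.X K → K) (hf : S.RegF f)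
      (h0 : ∀ ⦃K⦄ (x : S.X K), S.L x → f x ≠ 0), (∀ ⦃K⦄ (x : S.X K), S.L x → f x = S.f x ^ g) →
      Eqv (S.E χ) ((S.withF f hf h0).E χ') := by
  have g0 : g ≠ 0 := fun e => hg (by rw [e, Nat.cast_zero])
  have nz : NeZero (χ.N * g) := ⟨mul_ne_zero χ.pos.ne' g0⟩
  obtain ⟨ζ, a1, a2⟩ := exists_root_prim χ.pos hg χ.prim
  obtain ⟨ω, b1, b2⟩ := exists_root_prim (L := F) χ.pos (Nat.cast_ne_zero.2 g0) h.isPrimitiveRoot
  let χ' : Chr k F := ⟨χ.N * g, ζ, a1, Nat.cast_ne_zero.2 nz.out,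
    AddChar.zmodChar (χ.N * g) b1.pow_eq_one⟩
  have up {K : Fld k} {z : K} (hz : z ^ χ.N = 1) : z ^ χ'.N = 1 := by
    change z ^ (χ.N * g) = 1
    rw [pow_mul, hz, one_pow]
  have ev {K : Fld k} {z : K} (hz : z ^ χ.N = 1) : χ'.ev z = χ.ev z := by
    obtain ⟨c, rfl⟩ := χ.exists_cast hz
    have e : χ.cst K c = χ'.cst K ((g * c.val : ℕ) : ZMod χ'.N) := by
      rw [Chr.cst, Chr.cst, AddChar.zmodChar_apply', AddChar.zmodChar_apply, pow_mul, ← a2,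
        map_pow]
    rw [χ.ev_cast, e, χ'.ev_cast]
    refine (AddChar.zmodChar_apply' b1.pow_eq_one _).trans ?_
    rw [pow_mul, b2, ← AddChar.map_nsmul_eq_pow, nsmul_eq_mul, mul_one, ZMod.natCast_zmod_val]
  refine ⟨χ', AddChar.zmodChar_primitive_of_primitive_root _ b1, rfl, fun S f hf h0 e => ?_⟩
  have pw {K : Fld k} {a : K} {x : S.X K} (hx : S.L x) (ha : a ^ χ.N = S.f x) :
      a ^ χ'.N = f x := by
    change a ^ (χ.N * g) = f x
    rw [pow_mul, ha, e x hx]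
  have fx {K : Fld k} (x : S.X K) (hx : S.L x) : (χ.rt (S.f x) / χ'.rt (f x)) ^ χ'.N = 1 :=
    Chr.div_fix (pw hx (χ.rt_spec _)) (χ'.rt_spec _) (h0 x hx)
  refine eqv_of_cocycle χ χ' S f hf h0 (fun _ x => χ'.ev (χ.rt (S.f x) / χ'.rt (f x)))
    (fun _ x hx => Chr.ev_ne_zero (fx x hx)) fun _ _ φ x y hx hy r => ?_
  obtain ⟨a, c1, c2⟩ := Chr.exists_rel (χ.rt_spec _) (S.reg φ x y hx hy r)
  obtain ⟨c, d1, d2⟩ := Chr.exists_rel (χ'.rt_spec _) (hf φ x y hx hy r)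
  have c0 := Chr.ne_of_pow d2 (h0 y hy)
  have z1 := Chr.div_fix c2 (χ.rt_spec _) (S.ne y hy)
  rw [Chr.cf_eq (S.reg φ x y hx hy r) c1, Chr.cf_eq (hf φ x y hx hy r) d1,
    ← Chr.ev_rel (fx x hx) (c1.div d1 c0),
    ← Chr.ev_mul (Chr.div_fix (pw hy c2) d2 (h0 y hy)) (Chr.div_fix d2 (χ'.rt_spec _) (h0 y hy)),
    ← ev z1, ← Chr.ev_mul (up z1) (fx y hy), div_mul_div_cancel₀ c0,
    div_mul_div_cancel₀ (χ.rt_ne (S.ne y hy))]

omit [IsAlgClosed k] in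
variable (k) in
theorem exists_tame : ∃ g : ℕ, 1 < g ∧ (g : k) ≠ 0 := by
  by_cases h : ((2 : ℕ) : k) = 0
  · refine ⟨2 + 1, by norm_num, ?_⟩
    rw [Nat.cast_add, h, zero_add, Nat.cast_one]
    exact one_ne_zero
  · exact ⟨2, by norm_num, h⟩

variable (k F) in
theorem exists_chr : ∃ χ : Chr k F, χ.ψ (1 : ℤ) ≠ 1 := by
  obtain ⟨g, h1, h2⟩ := exists_tame k
  obtain ⟨χ, a, b, -⟩ := (Chr.prim_triv (k := k) (F := F)).exists_lift h2
  refine ⟨χ, fun e => ?_⟩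
  have := Int.le_of_dvd one_pos ((a.eq_one_iff 1).1 e)
  rw [b, show (Chr.triv k F).N = 1 from rfl] at this
  omega

omit [IsAlgClosed k] [IsAlgClosed F] [CharZero F] in
theorem Chr.cf_one_mul (χ : Chr k F) {K K' : Fld k} (φ : Place K K') :
    χ.cf φ 1 * χ.ev (χ.rt (1 : K')) = χ.ev (χ.rt (1 : K)) := by
  obtain ⟨y, h1, h2⟩ := Chr.exists_rel (χ.rt_spec 1) φ.one
  rw [Chr.cf_eq φ.one h1, ← Chr.ev_mul (Chr.div_fix h2 (χ.rt_spec 1) one_ne_zero) (χ.rt_spec 1),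
    div_mul_cancel₀ _ (χ.rt_ne one_ne_zero), Chr.ev_rel (χ.rt_spec 1) h1]

omit [IsAlgClosed k] [IsAlgClosed F] in
/-- If the function is one, the character does not matter. -/
theorem eqv_of_one (χ χ' : Chr k F) (S : Pt k) (h : ∀ ⦃K⦄ (x : S.X K), S.L x → S.f x = 1) :
    Eqv (S.E χ) (S.E χ') := by
  refine eqv_of_cocycle χ χ' S S.f S.reg S.ne
    (fun K _ => χ.ev (χ.rt (1 : K)) / χ'.ev (χ'.rt (1 : K)))
    (fun _ _ _ => div_ne_zero (Chr.ev_ne_zero (χ.rt_spec 1)) (Chr.ev_ne_zero (χ'.rt_spec 1)))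
    fun K K' φ x y hx _ _ => ?_
  have a := χ.cf_one_mul φ
  have b := χ'.cf_one_mul φ
  have c : χ'.ev (χ'.rt (1 : K)) ≠ 0 := Chr.ev_ne_zero (χ'.rt_spec 1)
  have d : χ'.ev (χ'.rt (1 : K')) ≠ 0 := Chr.ev_ne_zero (χ'.rt_spec 1)
  rw [h x hx, div_mul_eq_mul_div, ← mul_div_assoc, a, div_eq_div_iff c d, mul_assoc, b]

omit [IsAlgClosed F] [CharZero F] in
/-- An isomorphism that multiplies the function by a constant and a power with exponent `N`. -/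
theorem eqv_const {χ : Chr k F} {S S' : Pt k} {e : ∀ ⦃K⦄, S.X K → S'.X K}
    {g : ∀ ⦃K⦄, S'.X K → S.X K} (h : S.Reg S' e) (h' : S'.Reg S g) (a : k)
    {w : ∀ ⦃K⦄, S.X K → K} (hw : S.RegF w)
    (f : ∀ ⦃K⦄ (x : S.X K), S.L x → S'.f (e x) = S.f x * (algebraMap k K a * w x ^ χ.N))
    (l : ∀ ⦃K⦄ (x : S.X K), S.L x → g (e x) = x) (r : ∀ ⦃K⦄ (y : S'.X K), S'.L y → e (g y) = y) :
    Eqv (S.E χ) (S'.E χ) := by
  obtain ⟨ρ, rfl⟩ := IsAlgClosed.exists_pow_nat_eq a χ.pos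
  have f' : ∀ ⦃K⦄ (x : S.X K), S.L x →
      S'.f (e x) = S.f x * (algebraMap k K ρ * w x) ^ (χ.N : ℤ) := fun K x hx => by
    rw [f x hx, zpow_natCast, mul_pow, map_pow]
  refine eqv_twist (t := χ.N) (by simp) h h' ((Pt.regF_const ρ).mul hw) (fun K x hx e0 => ?_) f' l r
  refine S'.ne _ (h.live x hx) ?_
  rw [f' x hx, e0, zpow_natCast, zero_pow χ.pos.ne', mul_zero]

end

end Pool.Agent.Lib.MP_fc2ced_ag.T
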