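import Pool.Agent.Lib.MP_fc2ced_ag.K.Defs

/-!
Motives with compact support of quasi-projective schemes `Y = W - H`, their tensor powers and
Tate twists, in the category of h-motives. If `H` is empty, this is the motive of the projective
scheme `W`.
-/

open CategoryTheory

namespace Pool.Agent.Lib.MP_fc2ced_ag.P

open K

noncomputable section

variable {k : Type} [Field k] {σ ι κ : Type} (f : ι → MvPolynomial (Option σ) k)
  (g : κ → MvPolynomial (Option σ) k) (N m : ℕ)

section
variable (A : Type) [CommRing A] [Algebra k A] {B : Type} [CommRing B] [Algebra k B]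

variable {f A} in
/-- The point of `W` lies on the closed subscheme `H` cut out by the `g i`. -/
def OnH (x : Proj f A) : Prop :=
  ∃ z : Cone f A, (∀ i, MvPolynomial.aeval z.1 (g i) = 0) ∧ x = Quot.mk _ z

variable (k) in
/-- Points of the projective line. -/
abbrev Line : Type := Proj (σ := Unit) (k := k) Empty.elim A

/-- Points of `W ^ N × (ℙ¹) ^ m`. -/
abbrev Pts : Type 1 := ULift.{1} ((Fin N → Proj f A) × (Fin m → Line k A))

/-- The span of the points with a coordinate on `H` or at the point at infinity of `ℙ¹`. -/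
def edge : Submodule ℚ (Pts f N m A →₀ ℚ) :=
  Submodule.span ℚ {v | ∃ x : Pts f N m A,
    ((∃ i, OnH g (x.down.1 i)) ∨ ∃ i, (x.down.2 i).AtInf) ∧ v = Finsupp.single x 1}

/-- The quotient `ℚ[W ^ N × (ℙ¹) ^ m] / ℚ[boundary]`. -/
def QObj : ModuleCat.{1} ℚ := ModuleCat.of ℚ ((Pts f N m A →₀ ℚ) ⧸ edge f g N m A)

variable {f g A} in
theorem OnH.push (h : A →ₐ[k] B) {x : Proj f A} (hx : OnH g x) : OnH g (x.map h) := by
  obtain ⟨z, h1, rfl⟩ := hx
  exact ⟨z.map h, fun i => congr($(MvPolynomial.comp_aeval z.1 h) (g i)).symm.trans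
    ((congrArg h (h1 i)).trans (map_zero h)), rfl⟩

variable {f N m A} in
/-- The linear map on the quotient given by `h : A → B` and a permutation `s` of the factors
`W`. -/
def QMap (h : A →ₐ[k] B) (s : Equiv.Perm (Fin N)) : QObj f g N m A ⟶ QObj f g N m B :=
  ModuleCat.ofHom (Submodule.mapQ _ _ (Finsupp.lmapDomain ℚ ℚ fun x =>
    ⟨(fun i => (x.down.1 (s.symm i)).map h, fun i => (x.down.2 i).map h)⟩) (by
    refine Submodule.span_le.2 ?_
    rintro _ ⟨x, ⟨i, hi⟩ | ⟨i, z, h1, h2⟩, rfl⟩
    · exact Submodule.subset_span ⟨_, .inl ⟨s i, by simpa using hi.push h⟩,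
        Finsupp.mapDomain_single⟩
    · exact Submodule.subset_span ⟨_, .inr ⟨i, z.map h, (congrArg h h1).trans (map_zero h), by
        simp only [h2]; rfl⟩, Finsupp.mapDomain_single⟩))

variable {f N m A} in
theorem QMap_mk (h : A →ₐ[k] B) (s : Equiv.Perm (Fin N)) (x : Pts f N m A) (c : ℚ) :
    (QMap g h s).hom (Submodule.Quotient.mk (Finsupp.single x c)) = Submodule.Quotient.mk
      (Finsupp.single ⟨(fun i => (x.down.1 (s.symm i)).map h, fun i => (x.down.2 i).map h)⟩ c) :=
  congrArg Submodule.Quotient.mk Finsupp.mapDomain_single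

variable {f A} in
theorem map_map {C : Type} [CommRing C] [Algebra k C] (h : A →ₐ[k] B) (h' : B →ₐ[k] C)
    (y : Proj f A) : (y.map h).map h' = y.map (h'.comp h) := by
  induction y using Quot.ind; rfl

end

/-- The presheaf `(ℚ[W] / ℚ[H]) ^ (⊗ N) ⊗ (ℚ[ℙ¹] / ℚ[∞]) ^ (⊗ m)`. It represents the `N`-th tensor
power of the motive with compact support of `Y = W - H`, twisted by `(m)[2 m]`. -/
def QMc : Psh k where
  obj A := QObj f g N m A
  map h := QMap g h 1
  map_id _ := ModuleCat.hom_ext (Submodule.linearMap_qext _ (Finsupp.lhom_ext fun x c =>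
    (QMap_mk _ _ _ x c).trans (congrArg (fun y => Submodule.Quotient.mk (Finsupp.single y c))
      (congrArg ULift.up (Prod.ext (funext fun _ => Proj.map_id _)
        (funext fun _ => Proj.map_id _))))))
  map_comp _ h' := ModuleCat.hom_ext (Submodule.linearMap_qext _ (Finsupp.lhom_ext fun x c =>
    (QMap_mk _ _ _ x c).trans (((congrArg (QMap g h' 1).hom (QMap_mk _ _ _ x c)).trans
      ((QMap_mk _ _ _ _ c).trans (congrArg (fun y => Submodule.Quotient.mk (Finsupp.single y c))
        (congrArg ULift.up (Prod.ext (funext fun _ => map_map _ _ _)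
          (funext fun _ => map_map _ _ _)))))).symm)))

variable {N} in
/-- The permutation of the factors `W`. -/
def qperm (s : Equiv.Perm (Fin N)) : QMc f g N m ⟶ QMc f g N m where
  app A := QMap g (AlgHom.id k A) s
  naturality A B h := ModuleCat.hom_ext (Submodule.linearMap_qext _ (Finsupp.lhom_ext fun x c =>
    ((congrArg (QMap g (AlgHom.id k B) s).hom (QMap_mk g h 1 x c)).trans
      (QMap_mk _ _ _ _ c)).trans
      (((congrArg (QMap g h 1).hom (QMap_mk g (AlgHom.id k A) s x c)).trans
        ((QMap_mk _ _ _ _ c).trans (congrArg (fun y => Submodule.Quotient.mk (Finsupp.single y c))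
          (congrArg ULift.up (by simp only [Proj.map_id]; rfl))))).symm)))

/-- The motive with compact support of `Y = W - H` is Schur-finite: some idempotent `e_λ` of
`ℚ[𝔖_N]`, `N ≥ 1`, acts as zero on its `N`-th tensor power after some Tate twist. -/
def TwFinite : Prop :=
  ∃ (N m : ℕ) (e : MonoidAlgebra ℚ (Equiv.Perm (Fin N))), 0 < N ∧ IsBlock e ∧
    Vanishes (Gen k) (∑ s, e.coeff s • qperm f g m s)

end

end Pool.Agent.Lib.MP_fc2ced_ag.P
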