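import Pool.Agent.Lib.MP_fc2ced_ag.G.Hb
import Pool.Agent.Lib.MP_fc2ced_ag.G.Bs
import Pool.Agent.Lib.MP_fc2ced_ag.W.Tot

/-! Total spaces of good step varieties over punctured lines, with a Kummer twist. -/

open CategoryTheory hiding forget
open Function Polynomial

namespace Pool.Agent.Lib.MP_fc2ced_ag.T.G

open K

noncomputable section

variable {k : Type} [Field k] {F : Type} [Field F] [CharZero F] {χ : Chr k F} {n : ℕ} [Ex n]
  {S : Stp k n}

open MP_fc2ced_ag.T.Pt hiding X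
open MP_fc2ced_ag.T.W (bmpF)

theorem fU_bmpF {K : Type} [Field K] {s w : ℕ} {Q : K[X]} {r : K} {x : ℕ → Sp K}
    (h : Flag n w ∅ x) (hw : n + Q.natDegree < w) (hQ : X ^ n - 1 ∣ Q - 1) :
    fU n s w (bmpF n w Q r x w) =
      fU n s w (x w) * r ^ (-Ex.b (0 : Fin n)) * r⁻¹ ^ aZ n (s + w) := by
  have hn := NeZero.pos n
  have h0 (i : ℤ) : tU n w (bmpF n w Q r x w) i =
      (if (n : ℤ) ∣ i then r⁻¹ else 1) * tU n w (x w) i := by
    rw [tU, tU, W.dU_bmpF h hn hw hQ, W.bmpF_top, (W.bmp_band hn hw h.rel.band r).coef_sol,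
      W.bmp_top hn hw]
    split_ifs
    · rw [mul_comm r, ← div_div, div_eq_inv_mul _ r]
    · rw [one_mul, one_mul]
  have h1 := prod_ite (n := n) 0 r (fun i => -Ex.b (Fin.intCast i : Fin n))
    fun i => by rw [intCast_add]
  have h2 := prod_ite (n := n) 0 r⁻¹ (fun i => aZ n (i + s + w))
    fun i => by rw [show i + n + s + w = i + s + w + n by ring, aZ_add]
  simp only [sub_zero, intCast_val, zero_add] at h1 h2
  rw [show (Fin.intCast (0 : ℤ) : Fin n) = 0 from rfl] at h1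
  simp only [fU, W.dU_bmpF h hn hw hQ, h0, mul_zpow, Finset.prod_mul_distrib, h1, h2]
  ring

variable {ρ : Type} (s : Finset ρ) (y : ρ → k) (e : ρ → ℤ) {c : k} (hc : c ≠ 0)

omit [CharZero F] in
/-- The space of all operators of large order has no cohomology. -/
theorem uzero_op (hχ : Gen χ n) (h1 : n = 1 → ∀ j ∈ s, y j ≠ 1) :
    ∃ w, UZero (((Zv S 0 w ∅).over (Cv.opT s y e hc w)).E χ) := by
  obtain ⟨Q, q1, q2⟩ := W.exists_Q n s y
  have hn := NeZero.pos n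
  have hw (K : Fld k) : n + (Q.map (algebraMap k K)).natDegree < n + Q.natDegree + 1 :=
    Nat.lt_succ_of_le (Nat.add_le_add_left natDegree_map_le n)
  have hQ (K : Fld k) : X ^ n - 1 ∣ Q.map (algebraMap k K) - 1 := by
    simpa using Polynomial.map_dvd (algebraMap k K) q1
  have hy (K : Fld k) (j : s) : C (algebraMap k K (y j)) * X ^ n - 1 ∣ Q.map (algebraMap k K) ∨
      algebraMap k K (y j) = 1 ∧ n ≠ 1 := by
    by_cases h : y j = 1
    · exact .inr ⟨by rw [h, map_one], fun e => h1 e j j.2 h⟩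
    · exact .inl (by simpa using Polynomial.map_dvd (algebraMap k K) (q2 j j.2 h))
  refine ⟨n + Q.natDegree + 1, Flow.uzero (hχ.neg 0 ((0 : ℕ) + (n + Q.natDegree + 1 : ℕ)))
    (τ := fun K r x => ((bmpF n _ (Q.map (algebraMap k K)) r x.1.1, x.1.2), x.2))
    ⟨fun K r x hr h => ⟨⟨⟨W.bmpF_flag h.1.1.1 hn (hw K) (hQ K) hr, h.1.1.2⟩, h.1.2⟩, fun j =>
        (h.2 j).trans (W.chi_bmpF h.1.1.1 hn (hw K) (hQ K) (hy K j)).symm⟩,
      fun _ _ h => Prod.ext (Prod.ext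
        (funext fun i => by simp only [bmpF, W.bmp_one, W.eq_top h.1.1.1]) rfl) rfl,
      fun K r _ hr h => Prod.ext (Prod.ext (W.bmpF_inv h.1.1.1 hn (hw K) (hQ K) hr) rfl) rfl,
      fun K r x hr h => ?_,
      fun K K' φ r r' _ _ hr _ a b h => ⟨⟨fun i => ?_, h.1.2⟩, h.2⟩⟩⟩
  · change fU n 0 _ (bmpF n _ _ r x.1.1 _) * _ * (Cv.opP s e hc _).f x.2 =
      fU n 0 _ (x.1.1 _) * _ * (Cv.opP s e hc _).f x.2 * _
    rw [fU_bmpF h.1.1.1 (hw K) (hQ K), neg_add, zpow_add₀ hr, inv_zpow']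
    ring
  simp only [bmpF]
  split_ifs
  · refine Place.CR.sol (W.cr_bmp ((h.1.1 _).coef a.1.1.1.rel b.1.1.1.rel) (W.rs_ne b.1.1.1 1)
      (fun i => ?_) hr) (W.bmp_band hn (hw K) a.1.1.1.rel.band r)
      (W.bmp_band hn (hw K') b.1.1.1.rel.band r')
    rw [coeff_map, coeff_map]
    exact φ.alg _
  · exact .bot

theorem sf_total (G : S.Good χ) (h1 : n = 1 → ∀ j ∈ s, y j ≠ 1) :
    SF (((Cv.op s y e hc).pb S.St S.ev S.hev).E χ) := by
  obtain ⟨w, hw⟩ := uzero_op (S := S) s y e hc G.gen h1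
  have d : (Cv.opT s y e hc w).Dep (JI w ∅) := Cv.opT_dep s y e hc (.inr rfl)
  have h := W.null_of_quo (hb G (Finset.empty_subset _) _ _ d)
    ((isRoof G.gen G.iso (Finset.empty_subset _)).uiso _ _ d) hw
  rw [show yS w ∅ = Finset.univ from Finset.eq_univ_of_forall fun σ =>
    GeoAux.mem_yS.2 (young_empty w ▸ Subgroup.mem_top _)] at h
  refine Cv.sf_op s y e hc (d := fun _ x m => chiA (evs S x) m)
    (fun _ x => by simp only [chiA_top, evs, Fin.prod_univ_one]) (r := yR F S.d w ∅)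
    (fun h0 => ?_) h
  simpa [yR, Nat.card_pos.ne'] using congrFun h0 1

theorem ss_total [IsAlgClosed k] [IsAlgClosed F] (G : S.Good χ) (hn : 2 ≤ n) (β : Bs k)
    (h : IsCur β) :
    SS ((S.St.ovB β S.ev ⟨fun _ x h => ⟨trivial, S.ne x h⟩, S.hev⟩).E χ) := by
  obtain ⟨J, _, y, e, κ, h⟩ := h
  rcases eq_or_ne κ 0 with rfl | h0
  · exact .of_sf (.of_uzero (uzero_empty fun _ x a => β.ne _ (S.ne x a.1) a.2
      (by rw [(h _ (S.ne x a.1)).2 a.2, map_zero, zero_mul])))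
  have hc : κ * ∏ j, (-1) ^ e j ≠ 0 := mul_ne_zero h0
    (Finset.prod_ne_zero_iff.2 fun j _ => zpow_ne_zero _ (neg_ne_zero.2 one_ne_zero))
  refine .of_sf (.of_eqv (eqv_of_inv (S' := (Cv.op Finset.univ y e hc).pb S.St S.ev S.hev)
    (e := fun _ x => x) (g := fun _ x => x)
    ⟨fun _ x a => ⟨a.1, fun j _ => (h _ (S.ne x a.1)).1.1 a.2 j⟩, fun _ _ _ _ _ _ _ r => r⟩
    ⟨fun _ x a => ⟨a.1, (h _ (S.ne x a.1)).1.2 fun j => a.2 j (Finset.mem_univ j)⟩,
      fun _ _ _ _ _ _ _ r => r⟩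
    (fun K x a => congrArg (S.St.f x * ·) ?_) (fun _ _ _ => rfl) fun _ _ _ => rfl)
    (sf_total Finset.univ y e hc G (by omega)))
  rw [(h _ (S.ne x a.1)).2 a.2]
  simp only [map_mul, map_prod, map_zpow₀, map_neg, map_one, mul_assoc,
    ← Finset.prod_mul_distrib, ← mul_zpow, neg_one_mul, neg_sub]

end

end Pool.Agent.Lib.MP_fc2ced_ag.T.G
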