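import Pool.Agent.Lib.MP_fc2ced_ag.G.VB
import Pool.Agent.Lib.MP_fc2ced_ag.G.Ord

/-! A monic polynomial of degree `d + 1` is a monic polynomial of degree `d` and a constant term;
the covering of a hyperplane by roots of `d + 1` coordinates. -/

open CategoryTheory Function Polynomial

namespace Pool.Agent.Lib.MP_fc2ced_ag.T

open K

noncomputable section

section Poly

variable {K : Type} [Field K] {d : ℕ}

theorem monic_X_mul_add {R : K[X]} (m : R.Monic) (hd : R.natDegree = d) (a : K) :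
    (X * R + C a).Monic ∧ (X * R + C a).natDegree = d + 1 := by
  have h : (X * R).natDegree = d + 1 := by rw [natDegree_X_mul m.ne_zero, hd]
  have l : (C a).degree < (X * R).degree :=
    degree_lt_degree (by rw [natDegree_C, h]; exact d.succ_pos)
  exact ⟨(monic_X.mul m).add_of_left l, (natDegree_add_C).trans h⟩

theorem X_mul_divX_prod (x : Fin (d + 1) → K) :
    X * (∏ j, (X - C (x j))).divX + C ((-1) ^ (d + 1) * ∏ j, x j) = ∏ j, (X - C (x j)) := by
  have h : (∏ j, (X - C (x j))).coeff 0 = (-1) ^ (d + 1) * ∏ j, x j := by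
    simp [coeff_zero_eq_eval_zero, eval_prod, Finset.prod_neg]
  rw [← h, X_mul_divX_add]

theorem monic_divX_prod (x : Fin (d + 1) → K) :
    (∏ j, (X - C (x j))).divX.Monic ∧ (∏ j, (X - C (x j))).divX.natDegree = d := by
  have m : (∏ j, (X - C (x j))).Monic := monic_prod_X_sub_C _ _
  have n : (∏ j, (X - C (x j))).natDegree = d + 1 := by
    rw [natDegree_prod_of_monic _ _ fun j _ => monic_X_sub_C _]
    simp
  generalize ∏ j, (X - C (x j)) = P at m n
  have e : P.divX.natDegree = d := by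
    rw [natDegree_divX_eq_natDegree_tsub_one, n, Nat.add_sub_cancel]
  refine ⟨?_, e⟩
  rw [Monic, leadingCoeff, e, coeff_divX, ← n]
  exact m

theorem eq_of_X_mul_add {R : K[X]} {t : K} {x : Fin (d + 1) → K}
    (h : X * R + C ((-1) ^ (d + 1) * t) = ∏ j, (X - C (x j))) :
    (∏ j, (X - C (x j))).divX = R ∧ ∏ j, x j = t := by
  have e := (X_mul_divX_prod x).trans h.symm
  have e0 := congrArg (fun p => p.coeff 0) e
  simp only [coeff_add, mul_coeff_zero, coeff_X_zero, zero_mul, zero_add, coeff_C_zero] at e0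
  rw [e0, add_left_inj] at e
  exact ⟨mul_left_cancel₀ X_ne_zero e,
    mul_left_cancel₀ (pow_ne_zero _ (neg_ne_zero.2 one_ne_zero)) e0⟩

theorem psumR_of_X_mul_add [IsAlgClosed K] {R : K[X]} (m : R.Monic) (hd : R.natDegree = d)
    {t : K} {x : Fin (d + 1) → K} (h : X * R + C ((-1) ^ (d + 1) * t) = ∏ j, (X - C (x j))) :
    psumR (d + 1) R + (-1) ^ d * ((d + 1 : ℕ) : K) * t = ∑ j, x j ^ (d + 1) := by
  rw [← psumR_newton m hd, h, psumR_prod]

variable {ι : Type} [Fintype ι]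

theorem mn_pow_elim (s : ℤ) (γ : ι → ℤ) (x : Fin (d + 1) → K) (t : Option ι → K)
    (h : ∏ j, x j = t none) :
    mn (Sum.elim (fun _ => s) γ) (Sum.elim (fun j => x j ^ (d + 1)) fun i => t (some i)) =
      mn (fun o : Option ι => o.elim ((d + 1 : ℕ) * s) γ) t := by
  simp only [mn, Fintype.prod_sum_type, Fintype.prod_option, Sum.elim_inl, Sum.elim_inr,
    Option.elim_none, Option.elim_some]
  rw [Finset.prod_zpow, Finset.prod_pow, h, zpow_mul, zpow_natCast]

end Poly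

variable {k : Type} [Field k] {F : Type} [Field F] [CharZero F]
  {χ : Chr k F} {B : Bs k → Prop} {ι : Type} [Fintype ι]

open MP_fc2ced_ag.T.Pt hiding X

theorem lin_pow_elim {d : ℕ} (ε : ι → k) {K : Fld k} (y : Fin (d + 1) → K) (t : ι → K) :
    lin (Sum.elim (fun _ => 1) ε) (Sum.elim y t) = ∑ j, y j + lin ε t := by
  simp [lin, Fintype.sum_sum_type]

theorem lin_opt_elim (a : k) (ε : ι → k) {K : Fld k} (t : Option ι → K) :
    lin (fun o : Option ι => o.elim a ε) t =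
      algebraMap k K a * t none + lin ε fun i => t (some i) := by
  simp [lin, Fintype.sum_option]

theorem regF_inl {α : Type} [Fintype α] (ε : α ⊕ ι → k) (c γ : α ⊕ ι → ℤ) (β : Bs k) (j : α) :
    (vv ε c γ β).RegF fun _ u => u (.inl j) := fun _ _ _ _ _ _ _ r => r _

/-- The covering of the hyperplane by roots of some of the coordinates. -/
theorem ss_kc_vv {α : Type} [Fintype α] {g M : ℕ} (hχ : χ.Prim) (hN : χ.N = M * g)
    {ε : α ⊕ ι → k} (hε : ∀ i, ε i ≠ 0) {β : Bs k} (hβ : B β) (c₀ : α → ℤ) (c : ι → ℤ)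
    (γ : α ⊕ ι → ℤ) (H : ∀ c' : α → ℤ, WS B χ (Sum.elim c' c) γ) :
    SS (((vv ε (Sum.elim c₀ c) γ β).kc _ (regF_inl ε _ γ β) g).E χ) := by
  refine ss_kc _ _ _ hχ hN (fun j _ u hu => hu.1.1.2 _) fun t => ?_
  refine .of_eqv (eqv_of_inv (S' := vv ε (Sum.elim (fun j => c₀ j + (M * t j : ℕ)) c) γ β)
    (e := fun _ u => u) (g := fun _ u => u)
    ⟨fun _ _ h => h.1, fun _ _ _ _ _ _ _ r => r⟩
    ⟨fun _ _ h => ⟨h, fun j => h.1.1.2 _⟩, fun _ _ _ _ _ _ _ r => r⟩ (fun K u hu => ?_)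
    (fun _ _ _ => rfl) fun _ _ _ => rfl)
    (H (fun j => c₀ j + (M * t j : ℕ)) ε hε β hβ)
  have n : ∀ i, u i ≠ 0 := hu.1.1.1.2
  change (∏ i, u i ^ Sum.elim (fun j => c₀ j + (M * t j : ℕ)) c i) * β.w (mn γ u) =
    (∏ i, u i ^ Sum.elim c₀ c i) * β.w (mn γ u) * ∏ j, u (.inl j) ^ (M * t j)
  simp only [Fintype.prod_sum_type, Sum.elim_inl, Sum.elim_inr, zpow_add₀ (n _), zpow_natCast,
    Finset.prod_mul_distrib]
  ring

end

end Pool.Agent.Lib.MP_fc2ced_ag.T
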