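import Pool.Agent.Lib.MP_fc2ced_ag.G.VB
import Pool.Agent.Lib.MP_fc2ced_ag.G.Ord
import Pool.Agent.Lib.MP_fc2ced_ag.G.VCb

/-! The multiplication formula; arbitrary tame weights. -/

open CategoryTheory Function Polynomial

namespace Pool.Agent.Lib.MP_fc2ced_ag.T

open K

noncomputable section

variable {k : Type} [Field k] {F : Type} [Field F] [CharZero F] [IsAlgClosed k] [IsAlgClosed F]
  {χ : Chr k F} {B : Bs k → Prop} {ι : Type} [Fintype ι] {c γ : ι → ℤ}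

open MP_fc2ced_ag.T.Pt hiding X

section Mul

variable (ε : ι → k) (c γ : ι → ℤ) (β : Bs k) (d : ℕ)

theorem closed_qv : ((mpoly k d).prod (tm c γ β)).Closed fun _ x =>
    psumR (d + 1) x.1 + lin ε x.2 + 1 = 0 := fun _ _ φ _ _ a _ r e =>
  (((rel_psumR r.1 a.1.2.1 _).add (rel_lin ε r.2)).add φ.one).eq_of φ.zero e

/-- A power sum of the roots of a monic polynomial is added to the linear equation. -/
@[reducible] def qv : Pt k :=
  ((mpoly k d).prod (tm c γ β)).restr _ (closed_qv ε c γ β d).conv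

/-- The hyperplane with `d` further coordinates that may vanish. -/
@[reducible] def qu : Pt k :=
  (((line k).pi (Fin d)).prod (tm c γ β)).restr (fun _ x => ∑ j, x.1 j + lin ε x.2 + 1 = 0)
    (Closed.conv fun _ _ φ _ _ _ _ r e =>
      (((Place.sum fun j _ => r.1 j).add (rel_lin ε r.2)).add φ.one).eq_of φ.zero e)

omit [IsAlgClosed k] in
theorem regF_qu (j : Fin d) : (qu ε c γ β d).RegF fun _ x => x.1 j := fun _ _ _ _ _ _ _ r => r.1 j

theorem regP_qv : (qv ε c γ β d).RegP fun _ x => x.1 := fun _ _ _ _ _ _ _ r => r.1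

/-- The covering by the roots of the further coordinates. -/
@[reducible] def qk : Pt k := (qu ε c γ β d).kc _ (regF_qu ε c γ β d) (d + 1)

/-- The orderings of the roots. -/
@[reducible] def qo : Pt k := (qv ε c γ β d).ord _ (regP_qv ε c γ β d) (Fin d)

theorem reg_qk : (qk ε c γ β d).Reg (qo ε c γ β d)
    fun _ x => ((∏ j, (X - C (x.2 j)), x.1.2), x.2) := by
  refine ⟨fun K x h => ⟨⟨⟨⟨⟨trivial, monic_prod_X_sub_C x.2 Finset.univ, ?_⟩, h.1.1.1.2⟩, ?_⟩,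
    h.1.2⟩, rfl⟩,
    fun _ _ _ _ _ _ _ r => ⟨⟨Place.PR.prod (s := Finset.univ) fun j _ =>
      Place.PR.X.sub (.C (r.2 j)), r.1.2⟩, r.2⟩⟩
  · rw [natDegree_finsetProd_X_sub_C_eq_card, Finset.card_univ, Fintype.card_fin]
  · exact (congrArg (· + lin ε x.1.2 + 1)
      ((psumR_prod _ x.2).trans (Finset.sum_congr rfl fun j _ => h.2 j))).trans h.1.1.2

theorem reg_qo : (qo ε c γ β d).Reg (qk ε c γ β d)
    fun _ x => ((fun j => x.2 j ^ (d + 1), x.1.2), x.2) := by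
  refine ⟨fun K x h => ⟨⟨⟨⟨fun _ => trivial, h.1.1.1.2⟩, ?_⟩, h.1.2⟩, fun _ => rfl⟩,
    fun _ _ _ _ _ _ _ r => ⟨⟨fun j => (r.2 j).pow _, r.1.2⟩, r.2⟩⟩
  have e : psumR (d + 1) x.1.1 + lin ε x.1.2 + 1 = 0 := h.1.1.2
  rwa [show x.1.1 = _ from h.2, psumR_prod] at e

theorem isMap_qk : IsMap (qk ε c γ β d) (qo ε c γ β d)
    fun _ x => ((∏ j, (X - C (x.2 j)), x.1.2), x.2) :=
  .of_inv (reg_qk ε c γ β d) (reg_qo ε c γ β d)
    (fun _ _ _ => by simp only [Finset.prod_const_one])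
    fun _ _ h => Prod.ext (Prod.ext (funext h.2) rfl) rfl

theorem isMap_qo : IsMap (qo ε c γ β d) (qk ε c γ β d)
    fun _ x => ((fun j => x.2 j ^ (d + 1), x.1.2), x.2) :=
  .of_inv (reg_qo ε c γ β d) (reg_qk ε c γ β d)
    (fun _ _ _ => by simp only [Finset.prod_const_one])
    fun _ _ h => Prod.ext (Prod.ext h.2.symm rfl) rfl

omit [IsAlgClosed k] in
theorem reg_qp (π : Equiv.Perm (Fin d)) : (qk ε c γ β d).Reg (qk ε c γ β d)
    fun _ x => ((fun j => x.1.1 (π j), x.1.2), fun j => x.2 (π j)) :=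
  ⟨fun _ x h => ⟨⟨⟨⟨fun _ => trivial, h.1.1.1.2⟩,
      (congrArg (· + lin ε x.1.2 + 1) (Equiv.sum_comp π x.1.1)).trans h.1.1.2⟩,
      fun _ => trivial⟩, fun j => h.2 (π j)⟩,
    fun _ _ _ _ _ _ _ r => ⟨⟨fun j => r.1.1 (π j), r.1.2⟩, fun j => r.2 (π j)⟩⟩

omit [IsAlgClosed k] in
theorem isMap_qp (π : Equiv.Perm (Fin d)) : IsMap (qk ε c γ β d) (qk ε c γ β d)
    fun _ x => ((fun j => x.1.1 (π j), x.1.2), fun j => x.2 (π j)) :=
  .of_inv (reg_qp ε c γ β d π) (reg_qp ε c γ β d π.symm) (fun _ _ _ => rfl)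
    fun _ _ _ => by simp only [Equiv.apply_symm_apply]

omit [CharZero F] [IsAlgClosed F] in
theorem qk_perm (π : Equiv.Perm (Fin d)) : (isMap_qk ε c γ β d).hom χ ≫
    (isMap_ordPerm _ _ (regP_qv ε c γ β d) (Fin d) π).hom χ ≫ (isMap_qo ε c γ β d).hom χ =
    (isMap_qp ε c γ β d π).hom χ := by
  refine hom_ext fun K x hx => ?_
  have h1 := (reg_qk ε c γ β d).live x hx
  rw [Ob.comp_apply, Ob.comp_apply, IsMap.hom_cl _ hx, IsMap.hom_cl _ hx, IsMap.hom_cl _ h1]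
  exact (IsMap.hom_cl (isMap_qo ε c γ β d) (x := ((∏ j, (X - C (x.2 j)), x.1.2), fun j => x.2 (π j)))
    ⟨⟨h1.1.1, fun _ => trivial⟩, (Equiv.prod_comp π fun j => X - C (x.2 j)).symm⟩).trans
    (congrArg _ (Prod.ext (Prod.ext (funext fun j => hx.2 (π j)) rfl) rfl))

omit [CharZero F] [IsAlgClosed k] [IsAlgClosed F] in
theorem eqv_qu (t : Fin d → ℕ) : Eqv
    ((vv (ι := ι ⊕ Fin d) (Sum.elim ε fun _ => 1) (Sum.elim c fun j => (t j : ℤ))
      (Sum.elim γ fun _ => 0) β).E χ) (((qu ε c γ β d).ktw _ (regF_qu ε c γ β d) t).E χ) := by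
  have e1 : ∀ {K : Fld k} (z : ι ⊕ Fin d → K),
      mn (Sum.elim γ fun _ => 0) z = mn γ fun i => z (.inl i) := fun z => by
    simp only [mn, Fintype.prod_sum_type, Sum.elim_inl, Sum.elim_inr, zpow_zero,
      Finset.prod_const_one, mul_one]
  have e2 : ∀ {K : Fld k} (z : ι ⊕ Fin d → K), lin (Sum.elim ε fun _ => 1) z =
      ∑ j, z (.inr j) + lin ε fun i => z (.inl i) := fun z => by
    simp only [lin, Fintype.sum_sum_type, Sum.elim_inl, Sum.elim_inr, map_one, one_mul, add_comm]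
  refine eqv_of_inv (e := fun _ z => (fun j => z (.inr j), fun i => z (.inl i)))
    (g := fun _ x => Sum.elim x.2 x.1)
    ⟨fun _ z h => ⟨⟨⟨fun _ => trivial, ⟨fun _ => trivial, fun _ => h.1.1.2 _⟩,
      (congrArg (β.D ·) (e1 z)).mp h.2⟩, (congrArg (· + 1) (e2 z)).symm.trans h.1.2⟩,
      fun _ => h.1.1.2 _⟩, fun _ _ _ _ _ _ _ r => ⟨fun _ => r _, fun _ => r _⟩⟩
    ⟨fun _ x h => ⟨⟨⟨fun _ => trivial, Sum.rec h.1.1.2.1.2 h.2⟩,
      (congrArg (· + 1) (e2 _)).trans h.1.2⟩, (congrArg (β.D ·) (e1 _)).mpr h.1.1.2.2⟩,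
      fun _ _ _ _ _ _ _ r => Sum.rec r.2 r.1⟩ (fun _ z _ => ?_)
    (fun _ z _ => funext (Sum.rec (fun _ => rfl) fun _ => rfl)) fun _ _ _ => rfl
  simp only [e1, Fintype.prod_sum_type, Sum.elim_inl, Sum.elim_inr, zpow_natCast,
    Finset.prod_const_one, one_mul]
  ring

variable {M : ℕ} (hχ : χ.Prim) (hN : χ.N = M * (d + 1))
include hχ hN

/-- The variables with the nontrivial characters of order dividing `d + 1` as exponents. -/
theorem ss_of_qv (h : SS ((qv ε c γ β d).E χ)) :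
    SS ((vv (ι := ι ⊕ Fin d) (Sum.elim ε fun _ => 1) (Sum.elim c fun j => M * (j + 1 : ℕ))
      (Sum.elim γ fun _ => 0) β).E χ) := by
  obtain ⟨u, v, h1, h2⟩ := (qu ε c γ β d).exists_updown _ (regF_qu ε c γ β d) hχ hN
    (fun j => j + 1) fun j => Nat.not_dvd_of_pos_of_lt j.1.succ_pos (Nat.succ_lt_succ j.2)
  obtain ⟨tr, -, h3⟩ := (qv ε c γ β d).exists_ordTr (χ := χ) _ (regP_qv ε c γ β d) (Fin d)
    fun _ x hx => ⟨hx.1.1.2.1, hx.1.1.2.2.trans (Fintype.card_fin d).symm⟩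
  have h4 : (u ≫ (isMap_qk ε c γ β d).hom χ ≫
      (isMap_ord _ _ (regP_qv ε c γ β d) (Fin d)).hom χ) ≫ tr ≫ (isMap_qo ε c γ β d).hom χ ≫ v =
      (((d + 1 : ℕ) : F) ^ Fintype.card (Fin d)) • 𝟙 _ := by
    rw [Category.assoc, Category.assoc, ← Category.assoc _ tr, h3, Preadditive.sum_comp,
      Preadditive.comp_sum, Preadditive.comp_sum, Finset.sum_eq_single 1 (fun π _ hπ => ?_)
        fun k => absurd (Finset.mem_univ _) k, ← Category.assoc _ _ v, ← Category.assoc _ _ v,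
      qk_perm, (isMap_qp ε c γ β d 1).hom_id fun _ _ _ => rfl,
      Category.id_comp, h1]
    rw [← Category.assoc _ _ v, ← Category.assoc _ _ v, qk_perm]
    obtain ⟨j, hj⟩ := not_forall.1 fun e => hπ (Equiv.ext e)
    exact h2 π (fun _ x => (fun j => x.1 (π j), x.2)) (isMap_qp ε c γ β d π)
      (reg_qp ε c γ β d π).live ⟨j, fun e => hj (Fin.ext (Nat.succ_injective
        (e.eq_of_lt_of_lt (Nat.succ_lt_succ (π j).2) (Nat.succ_lt_succ j.2))))⟩
  have h5 := h.retract (h4 ▸ UIso.id.smul (pow_ne_zero _ (Nat.cast_ne_zero.2 d.succ_ne_zero)))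
  simpa only [Nat.cast_mul] using SS.of_eqv (eqv_qu ε c γ β d fun j => M * (j + 1)) h5

variable {ε β} in
/-- One variable is the product of `d + 1` roots. -/
theorem ss_qv (hε : ∀ i, ε i ≠ 0) (hβ : B β) (c₀ s : ℤ)
    (H : ∀ c' : Fin (d + 1) → ℤ, WS B χ (Sum.elim c' c) (Sum.elim (fun _ => s) γ)) :
    SS ((qv (ι := Option ι) (fun o => o.elim ((-1) ^ d * ((d + 1 : ℕ) : k)) ε)
      (fun o => o.elim ((d + 1 : ℕ) * c₀) c) (fun o => o.elim ((d + 1 : ℕ) * s) γ) β d).E χ) := by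
  refine ss_of_ord _ (fun _ x => X * x.1 + C ((-1) ^ (d + 1) * x.2 none))
    (fun _ _ φ _ _ _ _ r => (Place.PR.X.mul r.1).add (.C ((φ.one.neg.pow _).mul (r.2 none))))
    (Fin (d + 1)) (fun _ x hx => ?_) ?_
  · rw [Fintype.card_fin]
    exact monic_X_mul_add hx.1.1.2.1 hx.1.1.2.2 _
  refine .of_eqv (eqv_of_inv
    (S' := (vv (Sum.elim (fun _ => 1) ε) (Sum.elim (fun _ => c₀) c) (Sum.elim (fun _ => s) γ) β).kc
      _ (regF_inl _ _ _ β) (d + 1))
    (e := fun _ z => (Sum.elim (fun j => z.2 j ^ (d + 1)) fun i => z.1.2 (some i), z.2))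
    (g := fun _ w => (((∏ j, (X - C (w.2 j))).divX,
      fun o => o.elim (∏ j, w.2 j) fun i => w.1 (.inr i)), w.2))
    ⟨?_, fun _ _ _ _ _ _ _ r => ⟨fun i => ?_, r.2⟩⟩
    ⟨?_, fun _ _ φ _ _ _ _ r => ⟨⟨fun i => ?_, fun o => ?_⟩, r.2⟩⟩ ?_ ?_ ?_)
    (ss_kc_vv hχ hN (ε := Sum.elim (fun _ => 1) ε)
      (Sum.forall.2 ⟨fun _ => one_ne_zero, hε⟩) hβ (fun _ => c₀) c _ H)
  · rintro K ⟨⟨R, t⟩, x⟩ ⟨⟨⟨⟨⟨-, m, hd⟩, ⟨-, n⟩, D⟩, l⟩, -⟩, e⟩
    dsimp only at m hd n D l e ⊢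
    have e₂ := (eq_of_X_mul_add e).2
    have nx : ∀ j, x j ≠ 0 := fun j =>
      Finset.prod_ne_zero_iff.1 (e₂ ▸ n none) j (Finset.mem_univ j)
    refine ⟨⟨⟨⟨⟨fun _ => trivial,
      Sum.forall.2 ⟨fun j => pow_ne_zero _ (nx j), fun i => n _⟩⟩, ?_⟩, ?_⟩, fun _ => trivial⟩,
      fun _ => rfl⟩
    · rw [lin_pow_elim, ← psumR_of_X_mul_add m hd e, ← l, lin_opt_elim]
      simp only [map_mul, map_pow, map_neg, map_one, map_natCast]
      ring
    · rwa [mn_pow_elim s γ x t e₂]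
  · cases i with
    | inl j => exact (r.2 j).pow _
    | inr i => exact r.1.2 _
  · rintro K ⟨u, x⟩ ⟨⟨⟨⟨⟨-, n⟩, l⟩, D⟩, -⟩, e⟩
    dsimp only at n l D e ⊢
    have eu : u = Sum.elim (fun j => x j ^ (d + 1)) fun i => u (.inr i) :=
      funext (Sum.forall.2 ⟨fun j => (e j).symm, fun _ => rfl⟩)
    have nx : ∀ j, x j ≠ 0 := fun j h =>
      n (.inl j) (by rw [← e j, h, zero_pow d.succ_ne_zero])
    refine ⟨⟨⟨⟨⟨trivial, monic_divX_prod x⟩, ⟨fun _ => trivial, Option.forall.2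
      ⟨Finset.prod_ne_zero_iff.2 fun j _ => nx j, fun i => n _⟩⟩, ?_⟩, ?_⟩, fun _ => trivial⟩,
      X_mul_divX_prod x⟩
    · rw [← mn_pow_elim s γ x _ rfl]
      exact eu ▸ D
    · rw [eu, lin_pow_elim, ← psumR_of_X_mul_add (monic_divX_prod x).1 (monic_divX_prod x).2
        (X_mul_divX_prod x)] at l
      rw [← l, lin_opt_elim]
      simp only [map_mul, map_pow, map_neg, map_one, map_natCast, Option.elim_none,
        Option.elim_some]
      ring
  · rw [coeff_divX, coeff_divX]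
    exact Place.PR.prod (fun j _ => Place.PR.X.sub (.C (r.2 j))) _
  · cases o with
    | none => exact Place.prod (s := Finset.univ) fun j _ => r.2 j
    | some i => exact r.1 _
  · rintro K ⟨⟨R, t⟩, x⟩ ⟨-, e⟩
    have e₂ := (eq_of_X_mul_add e).2
    change mn (Sum.elim (fun _ => c₀) c) (Sum.elim (fun j => x j ^ (d + 1)) fun i => t (some i)) *
      β.w (mn (Sum.elim (fun _ => s) γ) (Sum.elim (fun j => x j ^ (d + 1)) fun i => t (some i))) *
      ∏ _j : Fin (d + 1), (1 : K) =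
      1 * (mn (fun o : Option ι => o.elim ((d + 1 : ℕ) * c₀) c) t *
        β.w (mn (fun o : Option ι => o.elim ((d + 1 : ℕ) * s) γ) t)) * ∏ _j : Fin (d + 1), (1 : K)
    rw [mn_pow_elim s γ x t e₂, mn_pow_elim c₀ c x t e₂, one_mul]
  · rintro K ⟨⟨R, t⟩, x⟩ ⟨-, e⟩
    obtain ⟨e₁, e₂⟩ := eq_of_X_mul_add e
    exact Prod.ext (Prod.ext e₁ (funext (Option.forall.2 ⟨e₂, fun _ => rfl⟩))) rfl
  · rintro K ⟨u, x⟩ ⟨-, e⟩
    exact Prod.ext (funext (Sum.forall.2 ⟨e, fun _ => rfl⟩)) rfl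

end Mul

/-- Reassociation of an index type. -/
def mulIdx (ι ρ : Type) : Option (ι ⊕ ρ) ⊕ ρ ≃ Option ι ⊕ (ρ ⊕ ρ) where
  toFun := Sum.elim (fun o => o.elim (.inl none) (Sum.elim (fun i => .inl (some i))
    fun j => .inr (.inl j))) fun j => .inr (.inr j)
  invFun := Sum.elim (fun o => o.elim (.inl none) fun i => .inl (some (.inl i)))
    (Sum.elim (fun j => .inl (some (.inr j))) fun j => .inr j)
  left_inv := by rintro ((_ | _ | _) | _) <;> rfl
  right_inv := by rintro ((_ | _) | _ | _) <;> rfl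

theorem Chr.Prim.one_ne {χ χ' : Chr k F} (h : χ'.Prim) {g : ℕ} (hg : 1 < g)
    (hN : χ'.N = χ.N * g) : χ'.ψ (1 : ℤ) ≠ 1 := by
  rw [Ne, h.eq_one_iff, hN]
  intro e
  have e' : χ.N * g ∣ 1 := by exact_mod_cast e
  have := Nat.eq_one_of_mul_eq_one_left (Nat.dvd_one.1 e')
  omega

/-- The multiplication formula. -/
theorem WS.mul (A : Adm F B) (hχ : χ.Prim) {d : ℕ} (hd : ((d + 1 : ℕ) : k) ≠ 0) (s : ℤ)
    (H : ∀ (χ' : Chr k F) (c' : (Fin (d + 1) ⊕ ι) ⊕ Fin d → ℤ), χ'.Prim →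
      WS B χ' c' (Sum.elim (Sum.elim (fun _ => s) γ) fun _ => 0)) (c : Option ι → ℤ) :
    WS B χ c fun o => o.elim ((d + 1 : ℕ) * s) γ := by
  refine WS.of_lift A hχ hd fun χ' h' hN => ?_
  have hM : 0 < χ.N := Nat.pos_of_ne_zero (NeZero.ne _)
  refine WS.pairs A (ρ := Fin d) (e := fun j => (χ.N : ℤ) * (j + 1 : ℕ)) (fun j => ?_) ?_
  · rw [Ne, h'.eq_one_iff, hN]
    intro e
    have e' : χ.N * (d + 1) ∣ χ.N * (j + 1) := by exact_mod_cast e
    have := Nat.le_of_dvd (Nat.succ_pos _) (Nat.dvd_of_mul_dvd_mul_left hM e')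
    have := j.2
    omega
  have hε : ∀ o : Option (ι ⊕ Fin d),
      (o.elim ((-1) ^ d * ((d + 1 : ℕ) : k)) (fun _ => 1) : k) ≠ 0 := by
    rintro (_ | _)
    · exact mul_ne_zero (pow_ne_zero _ (neg_ne_zero.2 one_ne_zero)) hd
    · exact one_ne_zero
  refine WS.reidx (mulIdx ι (Fin d)) ?_ ?_ (WS.of_eps A _ ?_ fun β hβ =>
    ss_of_qv _ _ _ β d h' hN (ss_qv (ε := fun _ => 1)
      (Sum.elim (fun i => (d + 1 : ℕ) * c (some i)) fun j : Fin d => -((χ.N : ℤ) * (j + 1 : ℕ)))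
      (Sum.elim γ fun _ => 0) d h' hN (fun _ => one_ne_zero) hβ (c none) s fun c' => ?_))
  · rintro ((_ | _ | _) | _) <;> rfl
  · rintro ((_ | _ | _) | _) <;> rfl
  · rintro (o | _)
    exacts [hε o, one_ne_zero]
  · refine WS.reidx (Equiv.sumAssoc _ _ _) (fun _ => rfl) ?_ (H χ' _ h')
    rintro ((_ | _) | _) <;> rfl

theorem WS.of_sum_zero_aux (A : Adm F B) (G : GenH F B) (n : ℕ) :
    ∀ (ι : Type) [Fintype ι] (χ : Chr k F) (c γ : ι → ℤ), χ.Prim → (∀ i, Tame k (γ i)) →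
      ∑ i, γ i = 0 → ∑ i, ((γ i).natAbs - 1) ≤ n → WS B χ c γ := by
  induction n using Nat.strong_induction_on with
  | _ n ih =>
    intro ι _ χ c γ hχ h h0 hn
    classical
    by_cases u : ∀ i, (γ i).natAbs ≤ 1
    · obtain ⟨g, g1, hg⟩ := exists_tame k
      exact WS.of_lift A hχ hg fun χ' h' hN => WS.unit A G (h'.one_ne g1 hN) _ u h0
    obtain ⟨i, hi⟩ := not_forall.1 u
    obtain ⟨d, hd⟩ : ∃ d, (γ i).natAbs = d + 1 := ⟨(γ i).natAbs - 1, by omega⟩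
    obtain ⟨s, hs, e⟩ : ∃ s : ℤ, (s = 1 ∨ s = -1) ∧ γ i = (d + 1 : ℕ) * s := by
      rcases Int.natAbs_eq (γ i) with e | e
      · exact ⟨1, .inl rfl, by rw [e, hd, mul_one]⟩
      · exact ⟨-1, .inr rfl, by rw [e, hd, mul_neg, mul_one]⟩
    have hk : ((d + 1 : ℕ) : k) ≠ 0 := by
      rcases h i with z | z
      · omega
      · intro z'
        apply z
        rw [e, Int.cast_mul, Int.cast_natCast, z', zero_mul]
    have s1 := (Equiv.optionSubtypeNe i).sum_comp γ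
    have s2 := (Equiv.optionSubtypeNe i).sum_comp fun j => (γ j).natAbs - 1
    rw [Fintype.sum_option] at s1 s2
    simp only [Equiv.optionSubtypeNe_none, Equiv.optionSubtypeNe_some] at s1 s2
    refine WS.reidx (Equiv.optionSubtypeNe i) (fun _ => rfl) ?_
      (WS.mul (γ := fun j : {j // j ≠ i} => γ j) A hχ hk s (fun χ' c' h' =>
        ih (n - 1) (by omega) _ χ' c' _ h' ?_ ?_ ?_) _)
    · rintro (_ | _)
      exacts [e, rfl]
    · rintro ((_ | j) | _)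
      · rcases hs with rfl | rfl <;> exact .inr (by simp)
      · exact h j
      · exact .inl rfl
    · simp only [Fintype.sum_sum_type, Sum.elim_inl, Sum.elim_inr, Finset.sum_const,
        Finset.card_univ, Fintype.card_fin, nsmul_eq_mul, mul_zero, add_zero]
      rw [← e, s1, h0]
    · have : s.natAbs - 1 = 0 := by omega
      simp only [Fintype.sum_sum_type, Sum.elim_inl, Sum.elim_inr, this, Finset.sum_const_zero,
        Int.natAbs_zero, Nat.zero_sub, zero_add, add_zero]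
      omega

theorem WS.of_sum_zero (A : Adm F B) (G : GenH F B) (hχ : χ.Prim) (c : ι → ℤ)
    (h : ∀ i, Tame k (γ i)) (h0 : ∑ i, γ i = 0) : WS B χ c γ :=
  WS.of_sum_zero_aux A G _ ι χ c γ hχ h h0 le_rfl

/-- All tame weights. -/
theorem WS.all (A : Adm F B) (G : GenH F B) (hχ : χ.Prim) (c : ι → ℤ)
    (h : ∀ i, Tame k (γ i)) (h0 : Tame k (∑ i, γ i)) : WS B χ c γ := by
  obtain ⟨g, g1, hg⟩ := exists_tame k
  refine WS.of_lift A hχ hg fun χ' h' hN => WS.pair A (h'.one_ne g1 hN) ?_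
  have T := WS.ren (c := fun o : Option ι => o.elim (-1) fun i => (g : ℤ) * c i)
    (γ := fun o : Option ι => o.elim 0 γ) (c₀ := -∑ i, (g : ℤ) * c i) (g₀ := -∑ i, γ i)
    (WS.of_sum_zero A G h' _ ?_ ?_)
  · refine WS.reidx (Equiv.refl _) ?_ ?_ T
    · rintro (_ | _)
      · simp [Fintype.sum_option]
      · rfl
    · rintro (_ | _)
      · simp [Fintype.sum_option]
      · rfl
  · rintro (_ | _ | i)
    · rcases h0 with z | z
      · exact .inl (by simp [z])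
      · exact .inr (by simpa using z)
    · exact .inl rfl
    · exact h i
  · simp [Fintype.sum_option]

end

end Pool.Agent.Lib.MP_fc2ced_ag.T
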