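import Pool.Agent.Lib.MP_fc2ced_ag.G.PMain
import Pool.Agent.Lib.MP_fc2ced_ag.G.VC
import Pool.Agent.Lib.MP_fc2ced_ag.G.Cur
import Pool.Agent.Lib.MP_fc2ced_ag.G.Tot
import Pool.Agent.Lib.MP_fc2ced_ag.G.HaTwo

/-! All tame weights over points and over curves. -/

open CategoryTheory Function

namespace Pool.Agent.Lib.MP_fc2ced_ag.T

open K

noncomputable section

variable {k : Type} [Field k] {F : Type} [Field F] [CharZero F] [IsAlgClosed k] [IsAlgClosed F]
  {χ : Chr k F} {ι : Type} [Fintype ι]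

open MP_fc2ced_ag.T.Pt

/-- One more point is removed from the base. -/
@[reducible] def Bs.cut (β : Bs k) (p q : k) (g : ℤ) : Bs k where
  D K x := β.D x ∧ algebraMap k K p + algebraMap k K q * x ≠ 0
  w K x := β.w x * (algebraMap k K p + algebraMap k K q * x) ^ g
  conv := β.conv.and (Open.conv fun _ _ φ _ _ _ _ r h =>
    ((φ.alg p).add ((φ.alg q).mul r)).ne_zero h)
  reg _ _ φ x y a b r := (β.reg φ x y ⟨a.1, a.2.1⟩ ⟨b.1, b.2.1⟩ r).mul
    (rel_zpow ((φ.alg p).add ((φ.alg q).mul r)) b.2.2 g)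
  ne _ x a b := mul_ne_zero (β.ne x a b.1) (zpow_ne_zero _ b.2)

omit [IsAlgClosed k] in
theorem IsCur.cut {β : Bs k} (h : IsCur β) (p : k) {q : k} (hq : q ≠ 0) (g : ℤ) :
    IsCur (β.cut p q g) := by
  obtain ⟨J, _, y, e, κ, h⟩ := h
  refine ⟨Option J, inferInstance, fun o => o.elim (-p / q) y, fun o => o.elim g e, κ * q ^ g,
    fun K x hx => ?_⟩
  have hq' : algebraMap k K q ≠ 0 := (map_ne_zero _).2 hq
  have e1 : algebraMap k K p + algebraMap k K q * x =
      algebraMap k K q * (x - algebraMap k K (-p / q)) := by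
    rw [map_div₀, map_neg]
    field_simp
    ring
  refine ⟨?_, fun a => ?_⟩
  · change β.D x ∧ _ ↔ _
    rw [Option.forall, (h x hx).1, and_comm, e1, mul_ne_zero_iff, sub_ne_zero, and_iff_right hq']
    rfl
  · change β.w x * _ = _
    rw [Fintype.prod_option, (h x hx).2 a.1, e1, mul_zpow, map_mul, map_zpow₀]
    simp only [Option.elim]
    ring

open Deg in
theorem ws_one (h₁ : χ.ψ (1 : ℤ) ≠ 1) (b a : ℤ) (c : ι → ℤ) :
    WS IsCur χ (fun o : Option (Option ι) => o.elim b fun o' => o'.elim a c)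
      fun o => o.elim (-1) fun o' => o'.elim 1 fun _ => 0 := by
  intro ε hε β hβ
  have hx : -ε none / ε (some none) ≠ 0 := div_ne_zero (neg_ne_zero.2 (hε _)) (hε _)
  refine ss_of_closed (S := ww c (fun _ => 0) a β b ε) (clW _) (ssC (hε _) (ssAB hx
    (WS.zero adm_cur h₁ c _ (fun i => hε (some (some i))) _
      ((adm_cur (F := F)).scale β _ hx hβ)))) ?_
  have m0 {K : Fld k} (y : Option ι → K) :
      mn (fun o : Option ι => o.elim 1 fun _ => 0) y = y none := by
    rw [mn_one, mn]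
    simp
  have m1 {K : Fld k} (y : Unit → K) : mn (fun _ : Unit => 1) y = y () :=
    (mn_unit _ _).trans (zpow_one _)
  have m2 {K : Fld k} {y : Unit → K} : algebraMap k K (ε none) + algebraMap k K (ε (some none)) *
      mn (fun _ : Unit => 1) y ≠ 0 ↔
      algebraMap k K (ε none) + algebraMap k K (ε (some none)) * y () ≠ 0 := by rw [m1]
  refine .of_eqv (eqv_of_inv
    (S := (tm (fun _ : Unit => a) (fun _ => 1) (β.cut (ε none) (ε (some none)) (-(b + a)))).prod
      (hy (fun o : Option ι => o.elim 1 fun i => ε (some (some i))) fun o => o.elim (b + a) c))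
    (S' := (ww c (fun _ => 0) a β b ε).restr _ (clW (-ε none / ε (some none))).not.conv)
    (e := fun K z => mk (z.2 none /
      (algebraMap k K (ε none) + algebraMap k K (ε (some none)) * z.1 ()))
      fun o => o.elim (z.1 ()) fun i => z.2 (some i))
    (g := fun K t => (fun _ => un t none, fun o => o.elim (t none *
      (algebraMap k K (ε none) + algebraMap k K (ε (some none)) * un t none))
      fun i => t (some (some i))))
    ⟨fun K z p => ?_, fun _ _ φ _ _ _ q r => rel_mk ((r.2 none).div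
      ((φ.alg _).add ((φ.alg _).mul (r.1 ()))) (m2.1 q.1.2.2))
      (Option.rec (r.1 ()) fun i => r.2 (some i))⟩
    ⟨fun K t p => ?_, fun _ _ φ _ _ _ q r => ⟨fun _ => rel_un r (q.1.1.1.2 none) none,
      Option.rec ((r none).mul ((φ.alg _).add ((φ.alg _).mul (rel_un r (q.1.1.1.2 none) none))))
        fun i => r _⟩⟩ (fun K z p => ?_) (fun K z p => ?_) fun K t p => ?_).symm
    (ss_prod (ss_tm_cur a 1 (hβ.cut _ (hε _) _))
      (ss_hy h₁ (Option.rec one_ne_zero fun i => hε _) _))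
  · have h0 := m2.1 p.1.2.2
    have h1 := div_ne_zero (p.2.1.2 none) h0
    refine ⟨(live_mk h1).2 ⟨⟨⟨fun _ => trivial, Option.rec (p.1.1.2 ()) fun i => p.2.1.2 _⟩,
      dc ((m1 _).trans (m0 fun o => o.elim (z.1 ()) fun i => z.2 (some i)).symm) p.1.2.1⟩, ?_⟩,
      fun e => h0 ((root_iff (hε _) _).2 ((congrFun (un_mk h1 _) none).symm.trans e))⟩
    have : lin _ z.2 + 1 = 0 := p.2.2
    rw [lin_opt] at this
    simp only [Option.elim, map_one, one_mul] at this ⊢
    rw [div_mul_cancel₀ _ h0, ← add_assoc, this]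
  · have h0 := fun e => p.2 ((root_iff (hε _) _).1 e)
    have h1 := live_un p.1
    refine ⟨⟨⟨fun _ => trivial, fun _ => h1.1.1.2 none⟩, dc ((m0 _).trans (m1 fun _ => un t none).symm) h1.1.2,
      m2.2 h0⟩, ⟨fun _ => trivial,
        Option.rec (mul_ne_zero (p.1.1.1.2 none) h0) fun i => p.1.1.1.2 _⟩, ?_⟩
    change lin _ _ + 1 = 0
    rw [lin_opt]
    simp only [Option.elim, map_one, one_mul]
    rw [add_assoc]
    exact h1.2
  · have h0 := m2.1 p.1.2.2
    refine (f_mk (div_ne_zero (p.2.1.2 none) h0) _).trans ?_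
    change mn (fun o : Option ι => o.elim a c) _ * β.w (mn _ _) * _ =
      mn (fun _ : Unit => a) _ * (β.w (mn _ _) * (_ + _ * mn _ _) ^ (-(b + a))) *
        mn (fun o : Option ι => o.elim (b + a) c) _
    rw [m0, m1, Deg.mn_opt, Deg.mn_opt, mn_unit, div_zpow, zpow_neg]
    simp only [Option.elim]
    ring
  · have h0 := m2.1 p.1.2.2
    have h1 := un_mk (div_ne_zero (p.2.1.2 none) h0)
      fun o => o.elim (z.1 ()) fun i => z.2 (some i)
    refine Prod.ext (funext fun _ => congrFun h1 none) (funext (Option.rec ?_ fun _ => rfl))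
    exact (congrArg (fun x => _ * (_ + _ * x)) (congrFun h1 none)).trans (div_mul_cancel₀ _ h0)
  · have h0 := fun e => p.2 ((root_iff (hε _) _).1 e)
    simp only [Option.elim]
    rw [mul_div_cancel_right₀ _ h0]
    exact (congrArg _ (funext (Option.rec rfl fun _ => rfl))).trans (mk_un (p.1.1.1.2 none))

omit [CharZero F] [IsAlgClosed k] [IsAlgClosed F] in
theorem psi_one_ne {t : ℤ} (h : χ.ψ t ≠ 1) : χ.ψ (1 : ℤ) ≠ 1 := fun e => h (by
  rw [show ((t : ℤ) : ZMod χ.N) = t • ((1 : ℤ) : ZMod χ.N) by simp, AddChar.map_zsmul_eq_zpow, e,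
    one_zpow])

/-- Two distinguished indices. -/
def optOne (ρ : Type) : Option (Option ρ) ≃ (Fin 1 ⊕ Fin 1) ⊕ ρ where
  toFun o := o.elim (.inl (.inl 0)) fun o' => o'.elim (.inl (.inr 0)) .inr
  invFun := Sum.elim (Sum.elim (fun _ => none) fun _ => some none) fun a => some (some a)
  left_inv := by rintro (_ | _ | _) <;> rfl
  right_inv := by rintro ((i | i) | _) <;> first | rfl | (rw [Subsingleton.elim i 0]; rfl)

theorem genH_cur : GenH F (IsCur (k := k)) := by
  intro χ n r b a e h1 h2 h3 β hβ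
  rcases n with _ | n
  · refine (ws_one (psi_one_ne (h1 0 0)) (b 0) (a 0) (Sum.elim (fun g => -(b g.1 + a g.2))
      (Sum.elim (fun g => b g.1 + a g.2) e))).reidx (optOne _) ?_ ?_ _ ?_ β hβ
    · rintro (_ | _ | _) <;> rfl
    · rintro (_ | _ | _) <;> rfl
    · rintro ((_ | _) | _ | _) <;> simp
  · let : G.Ex (n + 1 + 1) := { b := b, a := a }
    have h := G.ss_total (G.good_stpG (k := k) (n := n + 1 + 1) (e := e) h1 h2 (by
      convert h3 using 3
      simp only [Fintype.sum_sum_type, G.cG, Sum.elim_inl, Sum.elim_inr, Finset.sum_neg_distrib]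
      rw [neg_add_cancel_left]
      rfl)) (by omega) β hβ
    have m {K : Fld k} (t : G.Kp (n + 1 + 1) ⊕ G.Rh (n + 1 + 1) r → K) :
        mn (Sum.elim (Sum.elim (fun _ => -1) fun _ => 1) fun _ => 0) t =
          ell (G.gam (n + 1 + 1)) t := by
      rw [mn, Fintype.prod_sum_type]
      simp only [Sum.elim_inl, Sum.elim_inr, zpow_zero, Finset.prod_const_one, mul_one]
      rfl
    refine ss_of_prod_line (Pt.ss_of_inv h (fun _ x => x) (fun _ x => x)
      ⟨fun _ x p => ⟨⟨p.1.1, trivial⟩, Deg.dc (m _) p.1.2⟩, fun _ _ _ _ _ _ _ r => r⟩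
      ⟨fun _ x p => ⟨⟨p.1.1, Deg.dc (m _).symm p.2⟩, trivial⟩, fun _ _ _ _ _ _ _ r => r⟩
      (fun _ x _ => ?_) (fun _ _ _ => rfl) fun _ _ _ => rfl)
    exact (congrArg (fun t => _ * β.w t) (m _).symm).trans (mul_right_comm _ _ _)

theorem wallP_cur : WAll k F IsCur := fun _ _ _ c _ hχ h h0 =>
  WS.all adm_cur genH_cur hχ c h h0

theorem wallP_pt : WAll k F IsPt := fun χ M _ c γ hχ h h0 =>
  (wallP_cur χ M c γ hχ h h0).pt_of_cur

end

end Pool.Agent.Lib.MP_fc2ced_ag.T
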