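import Pool.Agent.Lib.MP_fc2ced_ag.G.Tor

/-! Systems of equations whose terms satisfy at most one relation. -/

open CategoryTheory Function Polynomial

namespace Pool.Agent.Lib.MP_fc2ced_ag.T

open K

noncomputable section

variable {k : Type} [Field k] {F : Type} [Field F] [CharZero F] [IsAlgClosed k] [IsAlgClosed F]

open MP_fc2ced_ag.T.Pt hiding X

variable {σ ι Λ : Type} [Fintype σ] [Fintype Λ] [DecidableEq ι]

/-- One equation in a torus over the line. -/
@[reducible] def yt (m : Λ → σ → ℕ) (g : Λ → k[X]) : Pt k :=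
  ((line k).prod (mt k fun _ : σ => 0)).restr
    (fun _ x => ∑ l, aeval x.1 (g l) * ∏ i, x.2 i ^ m l i = 0)
    (Closed.conv fun _ _ φ _ _ _ _ r e => (Place.sum fun l _ =>
      (rel_aeval φ r.1 _).mul (Place.prod fun i _ => (r.2 i).pow _)).eq_of φ.zero e)

/-- The equations with indices in `J`. -/
@[reducible] def ys (J : Finset ι) (e : Λ → ι) (m : Λ → σ → ℕ) (g : Λ → k[X]) : Pt k :=
  ((line k).prod ((line k).pi σ)).restr
    (fun _ x => ∀ j ∈ J, ∑ l with e l = j, aeval x.1 (g l) * ∏ i, x.2 i ^ m l i = 0)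
    (Closed.conv fun _ _ φ _ _ _ _ r h j hj => (Place.sum fun l _ =>
      (rel_aeval φ r.1 _).mul (Place.prod fun i _ => (r.2 i).pow _)).eq_of φ.zero (h j hj))

omit [IsAlgClosed k] in
theorem sys_drop {K : Type} [Field K] (p : Λ → Prop) [DecidablePred p] (f : Λ → K)
    (h : ∀ l, ¬ p l → f l = 0) : ∑ l : {l // p l}, f l = ∑ l, f l :=
  Fintype.sum_of_injective Subtype.val Subtype.val_injective _ _
    (fun l hl => h l fun c => hl ⟨⟨l, c⟩, rfl⟩) fun _ => rfl

theorem sys_roots [DecidableEq k] (g : Λ → k[X]) {K : Fld k} (x : K) :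
    (∀ a ∈ insert 0 (Finset.univ.biUnion fun l => (g l).roots.toFinset), x ≠ algebraMap k K a) ↔
      x ≠ 0 ∧ ∀ l : {l // g l ≠ 0}, aeval x (g l) ≠ 0 := by
  simp only [Finset.mem_insert, forall_eq_or_imp, map_zero, Finset.mem_biUnion, Finset.mem_univ,
    true_and, Multiset.mem_toFinset, mem_roots']
  refine and_congr_right fun _ => ⟨fun h l e => ?_, ?_⟩
  · obtain ⟨a, rfl⟩ := (IsAlgClosed.splits (g l)).mem_range_of_isRoot l.2 (i := algebraMap k K)
      (x := x) (by rwa [IsRoot, eval_map_algebraMap])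
    rw [aeval_algebraMap_apply, map_eq_zero, coe_aeval_eq_eval] at e
    exact h a ⟨l, l.2, e⟩ rfl
  · rintro h a ⟨l, h0, h1⟩ rfl
    exact h ⟨l, h0⟩ (by rw [aeval_algebraMap_apply, coe_aeval_eq_eval, h1.eq_zero, map_zero])

omit [IsAlgClosed k] in
theorem sys_strat {K : Type} [Field K] (A : σ → Prop) [DecidablePred A] (e : Λ → ι) (a : ι)
    (m : Λ → σ → ℕ) (c : Λ → K) {x : σ → K} (hx : ∀ i, A i → x i = 0) :
    ∑ l : {l // e l = a ∧ ∀ i, A i → m l i = 0}, c l * ∏ i : {i // ¬ A i}, x i ^ m l i =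
      ∑ l with e l = a, c l * ∏ i, x i ^ m l i := by
  rw [Finset.sum_filter, ← sys_drop (fun l => e l = a ∧ ∀ i, A i → m l i = 0)]
  · refine Finset.sum_congr rfl fun l _ => ?_
    rw [if_pos l.2.1]
    exact congrArg _ (Fintype.prod_of_injective Subtype.val Subtype.val_injective _ _
      (fun i hi => by rw [l.2.2 i (by_contra fun c => hi ⟨⟨i, c⟩, rfl⟩), pow_zero]) fun _ => rfl)
  · intro l hl
    split_ifs with h
    · obtain ⟨i, h1, h2⟩ : ∃ i, A i ∧ m l i ≠ 0 := by simpa [h] using hl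
      rw [Finset.prod_eq_zero (Finset.mem_univ i) (by rw [hx i h1, zero_pow h2]), mul_zero]
    · rfl

variable {b : Prop} (HP : WAll k F IsPt) (HC : b → WAll k F IsCur)
include HP HC

theorem ss_yt {m : Λ → σ → ℕ} {g : Λ → k[X]} (h : Circ b (fun _ => ()) m g) :
    SS ((yt m g).E (Chr.triv k F)) := by
  classical
  refine ss_of_fibres (S := yt m g) (t := fun _ x => x.1) (fun _ _ _ _ _ _ _ r => r.1)
    (insert 0 (Finset.univ.biUnion fun l => (g l).roots.toFinset)) (fun a _ => ?_)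
    (c := Open.conv fun _ _ φ _ _ _ _ r h a ha e => h a ha (r.1.eq_of (φ.alg a) e)) ?_
  · have key : ∀ (K : Fld k) (x : σ → K),
        ∑ l : {l // eval a (g l) ≠ 0}, algebraMap k K (eval a (g l)) * ∏ i, x i ^ m l i =
          ∑ l, aeval (algebraMap k K a) (g l) * ∏ i, x i ^ m l i := fun K x => by
      simp only [aeval_algebraMap_apply, coe_aeval_eq_eval]
      exact sys_drop (fun l => eval a (g l) ≠ 0)
        (fun l => algebraMap k K (eval a (g l)) * ∏ i, x i ^ m l i)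
        fun l hl => by rw [not_not.1 hl, map_zero, zero_mul]
    refine SS.of_eqv ?_ (ss_yp_pt HP (h.sub (f := fun l : {l // eval a (g l) ≠ 0} => l.1)
      Subtype.val_injective (fun _ => rfl) fun i => .inr ⟨i, fun _ => rfl⟩)
      (a := fun l => eval a (g l)) fun l =>
        ⟨fun _ _ _ => ⟨trivial, (_root_.map_ne_zero _).2 l.2⟩, fun _ _ φ _ _ _ _ _ => φ.alg _⟩)
    refine eqv_of_inv (e := fun _ x => ((), x.2)) (g := fun K y => (algebraMap k K a, y.2))
      ⟨fun K x h => ⟨⟨trivial, h.1.1.2⟩, ?_⟩, fun _ _ _ _ _ _ _ r => ⟨trivial, r.2⟩⟩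
      ⟨fun K y h => ⟨⟨⟨trivial, h.1.2⟩, ?_⟩, rfl⟩, fun _ _ φ _ _ _ _ r => ⟨φ.alg a, r.2⟩⟩
      (fun _ _ _ => by simp) (fun _ x h => Prod.ext h.2.symm rfl) fun _ _ _ => rfl
    · exact (key K x.2).trans (h.2 ▸ h.1.2)
    · exact (key K y.2).symm.trans h.2
  · have key : ∀ (K : Fld k) (x : K × (σ → K)),
        ∑ l : {l // g l ≠ 0}, aeval x.1 (g l) * ∏ i, x.2 i ^ m l i =
          ∑ l, aeval x.1 (g l) * ∏ i, x.2 i ^ m l i := fun K x =>
      sys_drop (fun l => g l ≠ 0) (fun l => aeval x.1 (g l) * ∏ i, x.2 i ^ m l i)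
        fun l hl => by rw [not_not.1 hl, map_zero, zero_mul]
    refine SS.of_eqv ?_ (ss_yp_uo HP HC (h.sub (f := fun l : {l // g l ≠ 0} => l.1)
      Subtype.val_injective (fun _ => rfl) fun i => .inr ⟨i, fun _ => rfl⟩) fun l => l.2)
    exact eqv_of_inv (e := fun _ x => x) (g := fun _ y => y)
      ⟨fun K x h => ⟨⟨⟨⟨trivial, ((sys_roots g _).1 h.2).1⟩, ((sys_roots g _).1 h.2).2⟩, h.1.1.2⟩,
        (key K x).trans h.1.2⟩, fun _ _ _ _ _ _ _ r => r⟩
      ⟨fun K y h => ⟨⟨⟨trivial, h.1.2⟩, (key K y).symm.trans h.2⟩,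
        (sys_roots g _).2 ⟨h.1.1.1.2, h.1.1.2⟩⟩, fun _ _ _ _ _ _ _ r => r⟩
      (fun _ _ _ => by simp) (fun _ _ _ => rfl) fun _ _ _ => rfl

theorem ss_ys_one {e : Λ → ι} {m : Λ → σ → ℕ} {g : Λ → k[X]} (h : Circ b e m g) (a : ι) :
    SS ((ys {a} e m g).E (Chr.triv k F)) := by
  classical
  refine ss_of_patterns (S := ys {a} e m g) (Z := fun i _ x => x.2 i = 0)
    (fun i _ _ φ _ _ _ _ r e => (r.2 i).eq_of φ.zero e) fun A => ?_
  refine SS.of_eqv ?_ (ss_yt HP HC
    (h.sub (f := fun l : {l // e l = a ∧ ∀ i, i ∈ A → m l i = 0} => l.1) Subtype.val_injective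
      (fun l => l.2.1) (m' := fun l (i : {i // ¬ i ∈ A}) => m l i) fun i => ?_))
  swap
  · by_cases c : i ∈ A
    · exact .inl fun l => l.2.2 i c
    · exact .inr ⟨⟨i, c⟩, fun _ => rfl⟩
  refine eqv_of_inv (e := fun _ x => (x.1, fun i => x.2 i.1))
    (g := fun _ y => (y.1, fun i => if c : i ∈ A then 0 else y.2 ⟨i, c⟩))
    ⟨fun K x h => ⟨⟨trivial, fun _ => trivial, fun i c => i.2 ((h.2 i).1 c)⟩, ?_⟩,
      fun _ _ _ _ _ _ _ r => ⟨r.1, fun i => r.2 i⟩⟩
    ⟨fun K y h => ⟨⟨⟨trivial, fun _ => trivial⟩, fun j hj => ?_⟩, fun i => ?_⟩,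
      fun _ _ φ _ _ _ _ r => ⟨r.1, fun i => ?_⟩⟩
    (fun _ _ _ => by simp) (fun _ x h => Prod.ext rfl (funext fun i => ?_))
    fun _ y _ => Prod.ext rfl (funext fun i => dif_neg i.2)
  · exact (sys_strat (· ∈ A) e a m (fun l => aeval x.1 (g l)) fun i c => (h.2 i).2 c).trans
      (h.1.2 a (Finset.mem_singleton_self a))
  · rw [Finset.mem_singleton.1 hj]
    refine (sys_strat (· ∈ A) e a m (fun l => aeval y.1 (g l))
      (x := fun i => if c : i ∈ A then 0 else y.2 ⟨i, c⟩) fun i c => dif_pos c).symm.trans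
      (Eq.trans (Finset.sum_congr rfl fun l _ => congrArg _ (Finset.prod_congr rfl fun i _ => ?_)) h.2)
    rw [dif_neg i.2]
  · by_cases c : i ∈ A
    · exact iff_of_true (dif_pos c) c
    · exact iff_of_false (fun e => h.1.2.2 ⟨i, c⟩ ((dif_neg c).symm.trans e)) c
  · by_cases c : i ∈ A
    · simp only [dif_pos c]
      exact φ.zero
    · simp only [dif_neg c]
      exact r.2 _
  · by_cases c : i ∈ A
    · exact (dif_pos c).trans ((h.2 i).2 c).symm
    · exact dif_neg c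

section Merge

omit HP HC [IsAlgClosed k]

/-- The left hand side of the equation `j`. -/
def lhs {K : Fld k} (e : Λ → ι) (m : Λ → σ → ℕ) (g : Λ → k[X]) (j : ι) (t : K) (x : σ → K) : K :=
  ∑ l with e l = j, aeval t (g l) * ∏ i, x i ^ m l i

variable {e : Λ → ι} {m : Λ → σ → ℕ} {g : Λ → k[X]} {a a' j : ι}

theorem rel_lhs {K K' : Fld k} {φ : Place K K'} {t : K} {t' : K'} {x : σ → K} {x' : σ → K'}
    (r : φ t t') (r' : ∀ i, φ (x i) (x' i)) : φ (lhs e m g j t x) (lhs e m g j t' x') :=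
  Place.sum fun _ _ => (rel_aeval φ r _).mul (Place.prod fun i _ => (r' i).pow _)

theorem lhs_merge_ne {K : Fld k} (h : j ≠ a) (h' : j ≠ a') (t : K) (x : Option σ → K) :
    lhs (fun l => if e l = a' then a else e l)
      (fun l (o : Option σ) => o.elim (if e l = a' then 1 else 0) (m l)) g j t x =
    lhs e m g j t fun i => x (some i) := by
  simp only [lhs, Finset.sum_filter, Fintype.prod_option, Option.elim]
  refine Finset.sum_congr rfl fun l _ => ?_
  by_cases c : e l = a'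
  · simp [c, h.symm, h'.symm]
  · simp [c]

theorem lhs_merge_eq {K : Fld k} (h : a ≠ a') (t : K) (x : Option σ → K) :
    lhs (fun l => if e l = a' then a else e l)
      (fun l (o : Option σ) => o.elim (if e l = a' then 1 else 0) (m l)) g a t x =
    (lhs e m g a t fun i => x (some i)) + x none * lhs e m g a' t fun i => x (some i) := by
  simp only [lhs, Finset.sum_filter, Fintype.prod_option, Option.elim, Finset.mul_sum,
    ← Finset.sum_add_distrib]
  refine Finset.sum_congr rfl fun l _ => ?_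
  by_cases c : e l = a'
  · simp [c, h.symm, mul_left_comm]
  · simp [c]

theorem live_merge {K : Fld k} {J : Finset ι} (h : a ≠ a') (ha : a ∈ J) (t : K)
    (x : Option σ → K) :
    (∀ j ∈ J.erase a', lhs (fun l => if e l = a' then a else e l)
      (fun l (o : Option σ) => o.elim (if e l = a' then 1 else 0) (m l)) g j t x = 0) ↔
    (∀ j ∈ (J.erase a).erase a', (lhs e m g j t fun i => x (some i)) = 0) ∧
      (lhs e m g a t fun i => x (some i)) + x none * (lhs e m g a' t fun i => x (some i)) = 0 := by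
  refine ⟨fun H => ⟨fun j hj => ?_, ?_⟩, fun H j hj => ?_⟩
  · simp only [Finset.mem_erase] at hj
    rw [← lhs_merge_ne hj.2.1 hj.1]
    exact H j (Finset.mem_erase.2 ⟨hj.1, hj.2.2⟩)
  · rw [← lhs_merge_eq h]
    exact H a (Finset.mem_erase.2 ⟨h, ha⟩)
  · rw [Finset.mem_erase] at hj
    by_cases c : j = a
    · rw [c, lhs_merge_eq h]; exact H.2
    · rw [lhs_merge_ne c hj.1]
      exact H.1 j (Finset.mem_erase.2 ⟨hj.1, Finset.mem_erase.2 ⟨c, hj.2⟩⟩)

theorem closed_lhs (J : Finset ι) (a : ι) :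
    (ys J e m g).Closed fun _ x => lhs e m g a x.1 x.2 = 0 :=
  fun _ _ φ _ _ _ _ r h => (rel_lhs r.1 r.2).eq_of φ.zero h

end Merge

omit HP HC in
/-- The inductive step: two equations are merged into one. -/
theorem ss_ys_step {e : Λ → ι} {m : Λ → σ → ℕ} {g : Λ → k[X]} {J : Finset ι} {a a' : ι}
    (h : a ≠ a') (ha : a ∈ J) (ha' : a' ∈ J)
    (h₁ : SS ((ys (J.erase a') (fun l => if e l = a' then a else e l)
      (fun l (o : Option σ) => o.elim (if e l = a' then 1 else 0) (m l)) g).E (Chr.triv k F)))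
    (h₂ : SS ((ys (J.erase a) e m g).E (Chr.triv k F)))
    (h₃ : SS ((ys ((J.erase a).erase a') e m g).E (Chr.triv k F))) :
    SS ((ys J e m g).E (Chr.triv k F)) := by
  have ha₂ : a' ∈ J.erase a := Finset.mem_erase.2 ⟨h.symm, ha'⟩
  have c : (ys (J.erase a') (fun l => if e l = a' then a else e l)
      (fun l (o : Option σ) => o.elim (if e l = a' then 1 else 0) (m l)) g).Closed
      fun _ x => (lhs e m g a' x.1 fun i => x.2 (some i)) = 0 :=
    fun _ _ φ _ _ _ _ r h => (rel_lhs r.1 fun i => r.2 (some i)).eq_of φ.zero h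
  have o₁ : SS (((ys ((J.erase a).erase a') e m g).restr _
      (closed_lhs _ a').not.conv).E (Chr.triv k F)) := by
    refine ss_open (closed_lhs _ a') (.of_eqv (eqv_of_inv (S' := ys (J.erase a) e m g)
      (e := fun _ x => x) (g := fun _ x => x)
      ⟨fun _ x hx => ⟨hx.1.1, fun j hj => ?_⟩, fun _ _ _ _ _ _ _ r => r⟩
      ⟨fun _ x hx => ⟨⟨hx.1, fun j hj => hx.2 j (Finset.mem_of_mem_erase hj)⟩, hx.2 a' ha₂⟩,
        fun _ _ _ _ _ _ _ r => r⟩
      (fun _ _ _ => rfl) (fun _ _ _ => rfl) fun _ _ _ => rfl) h₂) h₃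
    by_cases cj : j = a'
    · rw [cj]; exact hx.2
    · exact hx.1.2 j (Finset.mem_erase.2 ⟨cj, hj⟩)
  have o₂ : SS (((ys (J.erase a') (fun l => if e l = a' then a else e l)
      (fun l (o : Option σ) => o.elim (if e l = a' then 1 else 0) (m l)) g).restr _
        c.not.conv).E (Chr.triv k F)) := by
    refine .of_eqv (eqv_of_inv (S' := (ys ((J.erase a).erase a') e m g).restr _
      (closed_lhs _ a').not.conv) (e := fun _ x => (x.1, fun i => x.2 (some i)))
      (g := fun _ y => (y.1, fun o => o.elim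
        (-lhs e m g a y.1 y.2 / lhs e m g a' y.1 y.2) y.2))
      ⟨fun _ x hx => ⟨⟨⟨trivial, fun _ => trivial⟩, ((live_merge h ha x.1 x.2).1 hx.1.2).1⟩, hx.2⟩,
        fun _ _ _ _ _ _ _ r => ⟨r.1, fun i => r.2 (some i)⟩⟩
      ⟨fun _ y hy => ⟨⟨⟨trivial, fun _ => trivial⟩, (live_merge h ha _ _).2 ⟨hy.1.2, ?_⟩⟩, hy.2⟩,
        fun _ _ _ _ _ _ hy r => ⟨r.1, Option.rec
          ((rel_lhs r.1 r.2).neg.div (rel_lhs r.1 r.2) hy.2) r.2⟩⟩
      (fun _ _ _ => by simp) (fun _ x hx => ?_) fun _ _ _ => rfl) o₁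
    · exact (congrArg _ (div_mul_cancel₀ _ hy.2)).trans (add_neg_cancel _)
    · refine Prod.ext rfl (funext (Option.rec ?_ fun _ => rfl))
      exact (div_eq_iff hx.2).2 (neg_eq_of_add_eq_zero_right ((live_merge h ha x.1 x.2).1 hx.1.2).2)
  refine ss_of_prod_line (.of_eqv (eqv_of_inv (S' := (ys (J.erase a')
      (fun l => if e l = a' then a else e l)
      (fun l (o : Option σ) => o.elim (if e l = a' then 1 else 0) (m l)) g).restr _ c.conv)
    (e := fun _ y => (y.1.1, fun o => o.elim y.2 y.1.2))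
    (g := fun _ x => ((x.1, fun i => x.2 (some i)), x.2 none))
    ⟨fun _ y hy => ⟨⟨⟨trivial, fun _ => trivial⟩, (live_merge h ha _ _).2
        ⟨fun j hj => hy.1.2 j (Finset.mem_of_mem_erase (Finset.mem_of_mem_erase hj)), ?_⟩⟩,
        hy.1.2 a' ha'⟩,
      fun _ _ _ _ _ _ _ r => ⟨r.1.1, Option.rec r.2 r.1.2⟩⟩
    ⟨fun _ x hx => ⟨⟨⟨trivial, fun _ => trivial⟩, fun j hj => ?_⟩, trivial⟩,
      fun _ _ _ _ _ _ _ r => ⟨⟨r.1, fun i => r.2 (some i)⟩, r.2 none⟩⟩
    (fun _ _ _ => by simp) (fun _ _ _ => rfl)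
    fun _ _ _ => Prod.ext rfl (funext (Option.rec rfl fun _ => rfl))) (ss_closed c h₁ o₂))
  · have e₁ : lhs e m g a y.1.1 y.1.2 = 0 := hy.1.2 a ha
    have e₂ : lhs e m g a' y.1.1 y.1.2 = 0 := hy.1.2 a' ha'
    change lhs e m g a y.1.1 y.1.2 + y.2 * lhs e m g a' y.1.1 y.1.2 = 0
    rw [e₁, e₂, mul_zero, add_zero]
  · obtain ⟨l₁, l₂⟩ := (live_merge h ha x.1 x.2).1 hx.1.2
    have l₃ : (lhs e m g a' x.1 fun i => x.2 (some i)) = 0 := hx.2
    by_cases c₁ : j = a'
    · rw [c₁]; exact l₃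
    by_cases c₂ : j = a
    · rw [l₃, mul_zero, add_zero] at l₂
      rw [c₂]; exact l₂
    · exact l₁ j (Finset.mem_erase.2 ⟨c₁, Finset.mem_erase.2 ⟨c₂, hj⟩⟩)

theorem ss_ys {e : Λ → ι} {m : Λ → σ → ℕ} {g : Λ → k[X]} (h : Circ b e m g) (J : Finset ι) :
    SS ((ys J e m g).E (Chr.triv k F)) := by
  have key : ∀ (n : ℕ) (σ : Type) [Fintype σ] (e : Λ → ι) (m : Λ → σ → ℕ), Circ b e m g →
      ∀ J : Finset ι, J.card = n → SS ((ys J e m g).E (Chr.triv k F)) := by
    intro n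
    induction n using Nat.strong_induction_on with
    | _ n ih =>
      intro σ _ e m h J hJ
      by_cases c : 1 < J.card
      · obtain ⟨a, ha, a', ha', hne⟩ := Finset.one_lt_card.1 c
        have l₁ := Finset.card_erase_lt_of_mem ha
        have l₂ := Finset.card_erase_lt_of_mem ha'
        have l₃ := Finset.card_erase_le (s := J.erase a) (a := a')
        exact ss_ys_step hne ha ha' (ih _ (hJ ▸ l₂) _ _ _ (h.merge hne) _ rfl)
          (ih _ (hJ ▸ l₁) _ _ _ h _ rfl) (ih _ (hJ ▸ l₃.trans_lt l₁) _ _ _ h _ rfl)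
      rcases J.eq_empty_or_nonempty with rfl | ⟨a, ha⟩
      · exact .of_eqv (eqv_of_inv (S' := (line k).prod ((line k).pi σ))
          (e := fun _ x => x) (g := fun _ x => x) (reg_restr _)
          ⟨fun _ _ hx => ⟨hx, fun _ hj => absurd hj (Finset.notMem_empty _)⟩,
            fun _ _ _ _ _ _ _ r => r⟩
          (fun _ _ _ => rfl) (fun _ _ _ => rfl) fun _ _ _ => rfl)
          (ss_prod (.of_sf (sf_line _)) (ss_aff σ))
      · obtain rfl : J = {a} := Finset.eq_singleton_iff_unique_mem.2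
          ⟨ha, fun x hx => Finset.card_le_one.1 (not_lt.1 c) x hx a ha⟩
        exact ss_ys_one HP HC h a
  exact key _ σ e m h J rfl

theorem schurFinite_circ [Fintype ι] {e : Λ → ι} {m : Λ → σ → ℕ} {g : Λ → k[X]}
    (h : Circ b e m g) (f : ι → MvPolynomial (Option (Option σ)) k)
    (hf : ∀ j, ∃ d, (f j).IsHomogeneous d)
    (hd : ∀ j, MvPolynomial.aeval (fun o => o.elim 1 MvPolynomial.X) (f j) =
      ∑ l with e l = j, aeval (MvPolynomial.X none : MvPolynomial (Option σ) k) (g l) *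
        ∏ i, MvPolynomial.X (some i) ^ m l i) :
    ∃ n : ℕ, SchurFinite (σ := Option σ ⊕ Fin n) fun j =>
      MvPolynomial.rename (Option.map Sum.inl) (f j) := by
  have ev : ∀ (K : Fld k) (x : Option σ → K) (j : ι),
      MvPolynomial.aeval (fun o => Option.elim o 1 x) (f j) =
        lhs e m g j (x none) fun i => x (some i) := fun K x j => by
    have e₁ : (fun o : Option (Option σ) => MvPolynomial.aeval (R := k) x
        (o.elim 1 MvPolynomial.X)) = fun o => Option.elim o 1 x :=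
      funext (Option.rec (map_one _) fun _ => MvPolynomial.aeval_X _ _)
    have e₂ := congrArg (MvPolynomial.aeval (R := k) x) (hd j)
    rw [MvPolynomial.comp_aeval_apply, e₁] at e₂
    rw [e₂, lhs, map_sum]
    refine Finset.sum_congr rfl fun l _ => ?_
    rw [map_mul, ← aeval_algHom_apply, MvPolynomial.aeval_X, map_prod]
    simp only [map_pow, MvPolynomial.aeval_X]
  refine schurFinite_of_ss (F := F) f hf (.of_eqv (eqv_of_inv (S' := ys Finset.univ e m g)
    (e := fun _ x => (x none, fun i => x (some i))) (g := fun _ y o => o.elim y.1 y.2)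
    ⟨fun K x hx => ⟨⟨trivial, fun _ => trivial⟩, fun j _ => (ev K x j).symm.trans (hx.2 j)⟩,
      fun _ _ _ _ _ _ _ r => ⟨r none, fun i => r (some i)⟩⟩
    ⟨fun K y hy => ⟨fun _ => trivial, fun j => (ev K _ j).trans (hy.2 j (Finset.mem_univ j))⟩,
      fun _ _ _ _ _ _ _ r => Option.rec r.1 r.2⟩
    (fun _ _ _ => by simp) (fun _ _ _ => funext (Option.rec rfl fun _ => rfl))
    fun _ _ _ => rfl) (ss_ys HP HC h _))

end

end Pool.Agent.Lib.MP_fc2ced_ag.T
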