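import Pool.Agent.Lib.MP_fc2ced_ag.G.PBridge
import Pool.Agent.Lib.MP_fc2ced_ag.G.Sys

/-! The affine charts of projective systems whose terms satisfy at most one relation. -/

open CategoryTheory Function Polynomial

namespace Pool.Agent.Lib.MP_fc2ced_ag.T

open K

noncomputable section

variable {k : Type} [Field k] {F : Type} [Field F] [CharZero F]

open MP_fc2ced_ag.T.Pt hiding X

variable {σ ι κ Λ : Type} [Fintype σ] [Fintype Λ] [DecidableEq ι]

/-- The coordinates are added as further equations. -/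
theorem Circ.ext [DecidableEq σ] {b : Prop} {e : Λ → ι} {m : Λ → σ → ℕ} {g : Λ → k[X]}
    (h : Circ b e m g) : Circ b (Sum.map e id : Λ ⊕ Option σ → ι ⊕ Option σ)
      (Sum.elim m fun o => o.elim 0 fun i => Pi.single i 1)
      (Sum.elim g fun o => o.elim X fun _ => 1) := by
  obtain ⟨γ, d, h1, h2, h3⟩ := h
  refine ⟨Sum.elim γ 0, Sum.elim d 0, fun r r1 r2 => ?_, ?_, by simpa using h3⟩
  · have z : ∀ o, r (.inr o) = 0 := fun o => by
      simpa [Finset.sum_filter] using r1 (.inr o)
    obtain ⟨u, v, hu, p⟩ := h1 (fun l => r (.inl l)) (fun j => by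
      simpa [Finset.sum_filter] using r1 (.inl j)) fun i => by simpa [z] using r2 i
    exact ⟨u, v, hu, Sum.rec p fun o => by simp [z]⟩
  · rintro (l | o) p
    exacts [h2 l p, absurd rfl p]

/-- The system on a coordinate subspace. -/
@[reducible] def yc (e : Λ → ι) (m : Λ → σ → ℕ) (g : Λ → k[X]) (C : Set (Option σ)) : Pt k :=
  ((line k).prod ((line k).pi σ)).restr
    (fun _ x => (∀ o ∈ C, o.elim x.1 x.2 = 0) ∧ ∀ j, lhs e m g j x.1 x.2 = 0)
    (Closed.conv fun _ _ φ _ _ _ _ r h => ⟨fun o ho => (show φ (o.elim _ _) (o.elim _ _) from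
      Option.rec r.1 r.2 o).eq_of φ.zero (h.1 o ho),
      fun j => (rel_lhs r.1 r.2).eq_of φ.zero (h.2 j)⟩)

/-- The homogeneous equations. -/
def hsys (e : Λ → ι) (m : Λ → σ → ℕ) (G : Λ → MvPolynomial (Fin 2) k) (j : ι) :
    MvPolynomial (Option (Option σ)) k :=
  ∑ l with e l = j, MvPolynomial.aeval ![MvPolynomial.X none, MvPolynomial.X (some none)] (G l) *
    ∏ i, MvPolynomial.X (some (some i)) ^ m l i

variable {e : Λ → ι} {m : Λ → σ → ℕ} {G : Λ → MvPolynomial (Fin 2) k}

theorem aeval_hsys {K : Fld k} (w : Option (Option σ) → K) (j : ι) :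
    MvPolynomial.aeval w (hsys e m G j) = ∑ l with e l = j,
      MvPolynomial.aeval ![w none, w (some none)] (G l) * ∏ i, w (some (some i)) ^ m l i := by
  rw [hsys, map_sum]
  refine Finset.sum_congr rfl fun l _ => ?_
  rw [map_mul, MvPolynomial.comp_aeval_apply, map_prod]
  simp only [map_pow, MvPolynomial.aeval_X]
  congr 3
  funext a
  fin_cases a <;> simp

theorem aeval_two {K : Fld k} (t : K) (p q : k[X]) (H : MvPolynomial (Fin 2) k) :
    aeval t (MvPolynomial.aeval ![p, q] H) = MvPolynomial.aeval ![aeval t p, aeval t q] H := by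
  rw [MvPolynomial.comp_aeval_apply]
  congr 2
  funext a
  fin_cases a <;> rfl

theorem aeval_two_const {K : Fld k} (t : K) (p q : k) (H : MvPolynomial (Fin 2) k) :
    aeval t (monomial 0 (MvPolynomial.aeval ![p, q] H)) =
      MvPolynomial.aeval ![algebraMap k K p, algebraMap k K q] H := by
  rw [monomial_zero_left, aeval_C]
  refine (MvPolynomial.comp_aeval_apply ![p, q] (Algebra.ofId k K) H).trans ?_
  congr 2
  funext a
  fin_cases a <;> rfl

variable {D : ι → ℕ} (hG : ∀ l, ∃ c, (G l).IsHomogeneous c ∧ c + ∑ i, m l i = D (e l))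
include hG

theorem hom_hsys (j : ι) : ∃ d, (hsys e m G j).IsHomogeneous d := by
  refine ⟨D j, .sum _ _ _ fun l hl => ?_⟩
  obtain ⟨c, h1, h2⟩ := hG l
  rw [← (Finset.mem_filter.1 hl).2, ← h2]
  refine .mul ?_ (.prod _ _ _ fun i _ => by
    simpa using (MvPolynomial.isHomogeneous_X k (some (some i) : Option (Option σ))).pow (m l i))
  have := h1.aeval (S := k) ![MvPolynomial.X none, MvPolynomial.X (some (none : Option σ))]
    (n := 1) fun a => by fin_cases a <;> exact MvPolynomial.isHomogeneous_X k _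
  rwa [one_mul] at this

omit hG

variable [IsAlgClosed k] [IsAlgClosed F] (HP : WAll k F IsPt) (HC : WAll k F IsCur)
include HP HC

theorem ss_yc {g : Λ → k[X]} (h : Circ True e m g) (C : Set (Option σ)) :
    SS ((yc e m g C).E (Chr.triv k F)) := by
  classical
  have k1 : ∀ (K : Fld k) (t : K) (x : σ → K) (j : ι), lhs (Sum.map e id : _ → ι ⊕ Option σ)
      (Sum.elim m fun o => o.elim 0 fun i => Pi.single i 1)
      (Sum.elim g fun o => o.elim X fun _ => 1) (.inl j) t x = lhs e m g j t x :=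
    fun K t x j => by simp [lhs, Finset.sum_filter]
  have k2 : ∀ (K : Fld k) (t : K) (x : σ → K) (o : Option σ), lhs (Sum.map e id : _ → ι ⊕ Option σ)
      (Sum.elim m fun o => o.elim 0 fun i => Pi.single i 1)
      (Sum.elim g fun o => o.elim X fun _ => 1) (.inr o) t x = o.elim t x := fun K t x o => by
    cases o <;> simp [lhs, Finset.sum_filter, Pi.single_apply]
  refine Pt.ss_of_inv (ss_ys HP (fun _ => HC) h.ext
    ((Finset.univ.image e).disjSum (Finset.univ.filter (· ∈ C)))) (fun _ x => x) (fun _ x => x)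
    ⟨fun K x a => ⟨a.1, ?_⟩, fun _ _ _ _ _ _ _ r => r⟩
    ⟨fun K x a => ⟨a.1, fun o ho => (k2 K _ _ o).symm.trans (a.2 (.inr o) (by simpa using ho)),
      fun j => ?_⟩, fun _ _ _ _ _ _ _ r => r⟩ (fun _ _ _ => rfl) (fun _ _ _ => rfl)
    fun _ _ _ => rfl
  · rintro (j | o) hj
    exacts [(k1 K _ _ j).trans (a.2.2 j), (k2 K _ _ o).trans (a.2.1 o (by simpa using hj))]
  · by_cases hj : j ∈ Finset.univ.image e
    · exact (k1 K _ _ j).symm.trans (a.2 (.inl j) (Finset.inl_mem_disjSum.2 hj))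
    · exact Finset.sum_eq_zero fun l hl =>
        (hj (Finset.mem_image.2 ⟨l, Finset.mem_univ _, (Finset.mem_filter.1 hl).2⟩)).elim

variable {γ : Λ → ℤ} {a d : Λ → ℕ}
  (h1 : ∀ r : Λ → ℤ, (∀ j, ∑ l with e l = j, r l = 0) → (∀ i, ∑ l, r l * m l i = 0) →
    ∃ u v : ℤ, u ≠ 0 ∧ ∀ l, u * r l = v * γ l)
  (h2 : ∀ l, γ l ≠ 0 → (γ l : k) ≠ 0 ∧
    ∃ c, G l = MvPolynomial.C c * MvPolynomial.X 0 ^ a l * MvPolynomial.X 1 ^ d l)
  (h3 : (∑ l, γ l * d l).natAbs ≤ 1)
include h1 h2

include h3 in
theorem ss_chart₀ (C : Set (Option (Option σ))) :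
    SS ((chart (hsys e m G) none C).E (Chr.triv k F)) := by
  by_cases h0 : none ∈ C
  · exact .of_uzero (uzero_empty fun _ _ a => one_ne_zero (a.2.1.symm.trans (a.2.2.1 _ h0)))
  have c : Circ True e m fun l => MvPolynomial.aeval ![1, X] (G l) :=
    ⟨γ, d, h1, fun l p => ⟨(h2 l p).1, (h2 l p).2.imp fun c q => by
      simp [q, C_mul_X_pow_eq_monomial]⟩, by simp only [true_and]; omega⟩
  have key : ∀ (K : Fld k) (w : Option (Option σ) → K) (j : ι), w none = 1 →
      MvPolynomial.aeval w (hsys e m G j) = lhs e m (fun l => MvPolynomial.aeval ![1, X] (G l)) j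
        (w (some none)) fun i => w (some (some i)) := fun K w j h => by
    simp only [aeval_hsys, lhs, aeval_two, map_one, aeval_X, h]
  refine Pt.ss_of_inv (ss_yc HP HC c {o | some o ∈ C})
    (fun _ w => (w (some none), fun i => w (some (some i))))
    (fun _ x o => o.elim 1 fun o => o.elim x.1 x.2)
    ⟨fun K w a => ⟨⟨trivial, fun _ => trivial⟩, fun o ho => ?_, fun j =>
      (key K w j a.2.1).symm.trans (a.2.2.2 j)⟩, fun _ _ _ _ _ _ _ r => ⟨r _, fun _ => r _⟩⟩
    ⟨fun K x a => ⟨fun _ => trivial, rfl, ?_, fun j => (key K _ j rfl).trans (a.2.2 j)⟩,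
      fun _ _ φ _ _ _ _ r => Option.rec φ.one (Option.rec r.1 r.2)⟩ (fun _ _ _ => by simp)
    (fun _ w a => funext (Option.rec a.2.1.symm (Option.rec rfl fun _ => rfl))) fun _ _ _ => rfl
  · cases o <;> exact a.2.2.1 _ ho
  · rintro (_ | o) ho
    exacts [absurd ho h0, a.2.1 o ho]

theorem ss_chart₁ (C : Set (Option (Option σ))) (hs : none ∈ C) :
    SS ((chart (hsys e m G) (some none) C).E (Chr.triv k F)) := by
  by_cases h0 : some none ∈ C
  · exact .of_uzero (uzero_empty fun _ _ a => one_ne_zero (a.2.1.symm.trans (a.2.2.1 _ h0)))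
  have c : Circ True e m fun l => monomial 0 (MvPolynomial.aeval ![(0 : k), 1] (G l)) :=
    ⟨γ, 0, h1, fun l p => ⟨(h2 l p).1, _, rfl⟩, .inl (by simp)⟩
  have key : ∀ (K : Fld k) (w : Option (Option σ) → K) (j : ι) (t : K), w none = 0 →
      w (some none) = 1 → MvPolynomial.aeval w (hsys e m G j) =
      lhs e m (fun l => monomial 0 (MvPolynomial.aeval ![(0 : k), 1] (G l))) j t
        fun i => w (some (some i)) := fun K w j t h h' => by
    simp only [aeval_hsys, lhs, aeval_two_const, map_one, map_zero, h, h']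
  refine Pt.ss_of_inv (ss_yc HP HC c {o | o.elim none (fun i => some (some i)) ∈ C})
    (fun _ w => (w none, fun i => w (some (some i))))
    (fun _ x o => o.elim x.1 fun o => o.elim 1 x.2)
    ⟨fun K w a => ⟨⟨trivial, fun _ => trivial⟩, fun o ho => ?_, fun j =>
      (key K w j _ (a.2.2.1 _ hs) a.2.1).symm.trans (a.2.2.2 j)⟩,
      fun _ _ _ _ _ _ _ r => ⟨r _, fun _ => r _⟩⟩
    ⟨fun K x a => ⟨fun _ => trivial, rfl, ?_, fun j =>
      (key K _ j _ (a.2.1 none hs) rfl).trans (a.2.2 j)⟩,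
      fun _ _ φ _ _ _ _ r => Option.rec r.1 (Option.rec φ.one r.2)⟩ (fun _ _ _ => by simp)
    (fun _ w a => funext (Option.rec rfl (Option.rec a.2.1.symm fun _ => rfl))) fun _ _ _ => rfl
  · cases o <;> exact a.2.2.1 _ ho
  · rintro (_ | _ | i) ho
    exacts [a.2.1 none ho, absurd ho h0, a.2.1 (some i) ho]

include hG in
theorem ss_chart₂ (i₀ : σ) (C : Set (Option (Option σ))) (hs : none ∈ C) (ht : some none ∈ C) :
    SS ((chart (hsys e m G) (some (some i₀)) C).E (Chr.triv k F)) := by
  classical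
  by_cases h0 : some (some i₀) ∈ C
  · exact .of_uzero (uzero_empty fun _ _ a => one_ne_zero (a.2.1.symm.trans (a.2.2.1 _ h0)))
  let p : Λ → Prop := fun l => MvPolynomial.aeval ![(0 : k), 0] (G l) ≠ 0
  have hp : ∀ l, p l → ∑ i, m l i = D (e l) := fun l hl => by
    obtain ⟨c, q1, q2⟩ := hG l
    rcases c.eq_zero_or_pos with rfl | hc
    · simpa using q2
    · have := Bridge.hom_mul q1 (0 : k) ![0, 0]
      rw [zero_pow hc.ne', zero_mul] at this
      refine absurd (Eq.trans ?_ this) hl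
      congr 2
      funext a
      fin_cases a <;> simp
  have sp : ∀ {M : Type} [CommMonoid M] (u : σ → M),
      ∏ i, u i = u i₀ * ∏ i : {i // i ≠ i₀}, u i := fun u => Fintype.prod_eq_mul_prod_subtype_ne u i₀
  have c : Circ True (fun l : {l // p l} => e l) (fun l (i : {i // i ≠ i₀}) => m l i)
      fun l => monomial 0 (MvPolynomial.aeval ![(0 : k), 0] (G l)) := by
    refine ⟨fun l => γ l, 0, fun r r1 r2 => ?_, fun l q => ⟨(h2 l q).1, _, rfl⟩,
      .inl (by simp)⟩
    let R : Λ → ℤ := fun l => if h : p l then r ⟨l, h⟩ else 0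
    have hR : ∀ u : Λ → ℤ, ∑ l, R l * u l = ∑ l : {l // p l}, r l * u l := fun u =>
      (Fintype.sum_of_injective Subtype.val Subtype.val_injective _ _
        (fun l hl => by rw [show R l = 0 from dif_neg fun c => hl ⟨⟨l, c⟩, rfl⟩, zero_mul])
        fun l => by rw [show R l = r l from dif_pos l.2]).symm
    have s1 : ∀ j, ∑ l with e l = j, R l = 0 := fun j => by
      have := hR fun l => if e l = j then 1 else 0
      simp only [mul_ite, mul_one, mul_zero] at this
      rw [Finset.sum_filter, this, ← Finset.sum_filter, r1]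
    obtain ⟨u, v, hu, q⟩ := h1 R s1 fun i => by
      by_cases hi : i = i₀
      · have e1 : ∑ l, R l * D (e l) = 0 := by
          rw [← Finset.sum_fiberwise_of_maps_to (g := e) (t := Finset.univ.image e)
            fun l _ => Finset.mem_image_of_mem _ (Finset.mem_univ l)]
          refine Finset.sum_eq_zero fun j _ => ?_
          rw [Finset.sum_congr rfl fun l hl => by rw [(Finset.mem_filter.1 hl).2],
            ← Finset.sum_mul, s1, zero_mul]
        rw [hR] at e1 ⊢
        have e2 : ∀ l : {l // p l}, (D (e l) : ℤ) = m l i₀ + ∑ i : {i // i ≠ i₀}, (m l i : ℤ) :=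
          fun l => by
            rw [← hp l l.2, Fintype.sum_eq_add_sum_subtype_ne _ i₀]
            simp
        simp only [e2, mul_add, Finset.sum_add_distrib, Finset.mul_sum] at e1
        rw [Finset.sum_comm, Finset.sum_eq_zero (s := Finset.univ) fun i _ => r2 i,
          add_zero] at e1
        rw [hi, e1]
      · rw [hR]
        exact r2 ⟨i, hi⟩
    exact ⟨u, v, hu, fun l => by rw [← q, show R l = r l from dif_pos l.2]⟩
  have key : ∀ (K : Fld k) (w : Option (Option σ) → K) (j : ι) (t : K), w none = 0 →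
      w (some none) = 0 → w (some (some i₀)) = 1 → MvPolynomial.aeval w (hsys e m G j) =
      lhs (fun l : {l // p l} => e l) (fun l (i : {i // i ≠ i₀}) => m l i)
        (fun l => monomial 0 (MvPolynomial.aeval ![(0 : k), 0] (G l))) j t
        fun i => w (some (some i)) := fun K w j t h h' h'' => by
    simp only [aeval_hsys, lhs, aeval_two_const, map_zero, h, h', Finset.sum_filter]
    rw [← sys_drop p]
    · refine Finset.sum_congr rfl fun l _ => ?_
      rw [sp, h'', one_pow, one_mul]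
    · intro l hl
      have := aeval_two_const (0 : K) 0 0 (G l)
      rw [not_not.1 hl] at this
      simp only [map_zero] at this
      rw [← this, zero_mul, ite_self]
  refine Pt.ss_of_inv (ss_yc HP HC c {o | o.elim none (fun i => some (some i.1)) ∈ C})
    (fun _ w => (w none, fun i => w (some (some i.1))))
    (fun _ x o => o.elim x.1 fun o => o.elim 0 fun i => if h : i = i₀ then 1 else x.2 ⟨i, h⟩)
    ⟨fun K w a => ⟨⟨trivial, fun _ => trivial⟩, fun o ho => ?_, fun j =>
      (key K w j _ (a.2.2.1 _ hs) (a.2.2.1 _ ht) a.2.1).symm.trans (a.2.2.2 j)⟩,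
      fun _ _ _ _ _ _ _ r => ⟨r _, fun _ => r _⟩⟩
    ⟨fun K x a => ⟨fun _ => trivial, dif_pos rfl, ?_, fun j =>
      (key K _ j x.1 (a.2.1 none hs) rfl (dif_pos rfl)).trans (Eq.trans ?_ (a.2.2 j))⟩,
      fun _ _ φ _ _ _ _ r => Option.rec r.1 (Option.rec φ.zero fun i => ?_)⟩
    (fun _ _ _ => by simp)
    (fun _ w a => funext (Option.rec rfl (Option.rec (a.2.2.1 _ ht).symm fun i => ?_)))
    fun _ _ _ => Prod.ext rfl (funext fun i => dif_neg i.2)
  · cases o <;> exact a.2.2.1 _ ho
  · rintro (_ | _ | i) ho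
    · exact a.2.1 none ho
    · rfl
    · have hi : i ≠ i₀ := fun c => h0 (c ▸ ho)
      exact (dif_neg hi).trans (a.2.1 (some ⟨i, hi⟩) ho)
  · exact congrArg _ (funext fun i => dif_neg i.2)
  · by_cases hi : i = i₀
    · simp only [Option.elim, dif_pos hi]
      exact φ.one
    · simp only [Option.elim, dif_neg hi]
      exact r.2 _
  · by_cases hi : i = i₀
    · exact (dif_pos hi).trans (hi ▸ a.2.1.symm)
    · exact dif_neg hi

include hG h3 in
theorem schurFinite_hsys (μ : κ → Option (Option σ) →₀ ℕ) :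
    P.TwFinite (hsys e m G) fun j => MvPolynomial.monomial (μ j) 1 := by
  refine schurFinite_of_qp (F := F) (hom_hsys hG)
    (fun j => ⟨_, MvPolynomial.isHomogeneous_monomial _ rfl⟩)
    (ss_qp _ _ (fun o => o.elim 0 fun o => o.elim 1 fun _ => 2) ?_)
  rintro (_ | _ | i) C h
  · exact ss_chart₀ HP HC h1 h2 h3 C
  · exact ss_chart₁ HP HC h1 h2 C (h _ zero_lt_one)
  · exact ss_chart₂ hG HP HC h1 h2 i C (h _ zero_lt_two) (h _ one_lt_two)

end

end Pool.Agent.Lib.MP_fc2ced_ag.T
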