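import Pool.Agent.Lib.MP_fc2ced_ag.G.Clean
import Pool.Agent.Lib.MP_fc2ced_ag.T.Prod

/-! The roofs of twisted flags are compatible with products. -/

open CategoryTheory hiding forget
open Function Polynomial

namespace Pool.Agent.Lib.MP_fc2ced_ag.T.G

open K

noncomputable section

variable {k : Type} [Field k] {F : Type} [Field F] {χ : Chr k F} {n : ℕ} [Ex n] {S : Stp k n}
  {s w j l : ℕ} {I : Finset ℕ} {P : Pt k} {T : PC P}

open Pt Place ProdAux

variable {σ : Equiv.Perm (Fin j)} {τ : Equiv.Perm (Fin l)}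

theorem uiso_spA (T : PC P) :
    UIso (ov χ (Av S (j + l)) ((Av S j).ten j (Av S l)) T fun _ x => cut j l x) := by
  refine (pmap_splitA.ov_bij (fun _ c c' p h => ?_) (fun _ x h => ⟨fun a => h _, fun b => h _⟩)
    (fun _ x x' _ _ e => ?_) fun _ y h => ⟨_, live_addCases h, cut_addCases y⟩).uiso
  · rw [show c = c' from funext fun m => h m trivial]
    exact id
  · rw [← addCases_cut x, e, addCases_cut]

section
variable (hI : I ⊆ Finset.Ioo 0 (j + l)) (hj : j ∈ I)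
include hI hj

theorem pmap_sp : PMap (Zv S s (j + l) (Finset.Ioo 0 (j + l)))
    ((Zv S s j (Finset.Ioo 0 j)).ten j (Zv S (s + j) l (Finset.Ioo 0 l))) (JI (j + l) I)
    (sp S j l) := by
  have := pmap_split (S := S) (s := s) (Finset.Subset.refl _) (hI hj)
  rw [lowI_full (pos hI hj).2, uppI_full (pos hI hj).1] at this
  exact this.mono (JI_mono hI)

theorem jm_sp {K : Fld k} {x : (ℕ → Sp K) × (Fin (j + l) → S.Tw.X K)}
    (hx : Flag n (j + l) (Finset.Ioo 0 (j + l)) x.1) (a : AllRel n (j + l) x.1) :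
    (jm S s j (sp S j l x).1, jm S (s + j) l (sp S j l x).2) = cut j l (jm S s (j + l) x) := by
  obtain ⟨p1, p2⟩ := pos hI hj
  have := Flag.jmap_split p1 p2 hx a
  refine Prod.ext (funext fun c => ?_) (funext fun c => ?_)
  · exact congrArg (fun y => S.io (s + c) (y, x.2 (Fin.castAdd l c))) (this.1 c)
  · exact (congrArg (fun y => S.io (s + j + c) (y, x.2 (Fin.natAdd j c))) (this.2 c)).trans
      (congrArg (fun t => S.io t _) (add_assoc _ _ _))

variable (hT : T.Dep (JI (j + l) I))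
include hT

theorem sq₁ : ov χ (Zv S s (j + l) (Finset.Ioo 0 (j + l)))
      ((Zv S s j (Finset.Ioo 0 j)).ten j (Zv S (s + j) l (Finset.Ioo 0 l))) T (sp S j l) ≫
      ov χ ((Zv S s j (Finset.Ioo 0 j)).ten j (Zv S (s + j) l (Finset.Ioo 0 l)))
        ((Av S j).ten j (Av S l)) T (fun _ x => (jm S s j x.1, jm S (s + j) l x.2)) =
    ov χ (Zv S s (j + l) (Finset.Ioo 0 (j + l))) (Av S (j + l)) T (jm S s (j + l)) ≫
      ov χ (Av S (j + l)) ((Av S j).ten j (Av S l)) T fun _ x => cut j l x := by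
  obtain ⟨p1, p2⟩ := pos hI hj
  have al {K : Fld k} {x : (ℕ → Sp K) × (Fin (j + l) → S.Tw.X K)}
      (hx : Flag n (j + l) (Finset.Ioo 0 (j + l)) x.1) (a : AllRel n (j + l) x.1) :
      Flag n j (Finset.Ioo 0 j) (low j x.1) ∧ Flag n l (Finset.Ioo 0 l) (upp n j x.1) :=
    (live_sp hI hj hx).2 (a j (Nat.le_add_right _ _))
  refine PMap.ov_comm (pmap_sp hI hj)
    (((pmap_jm.mono (JI_mono (lowI_subset hI))).ten (pmap_jm.mono (JI_mono (uppI_subset hI)))
      (Or.inr rfl)).mono (JI_add hI hj)) (pmap_jm.mono (JI_mono hI))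
    (pmap_splitA.mono (Set.subset_univ _)) hT (fun K x hx => ⟨fun a => ?_, fun a => ?_⟩)
    fun K x hx _ a => jm_sp hI hj hx.1 (allRel_of_live hx.1 a)
  · have h1 := (Flag.allRel_split p1 p2 hx.1).2
      ⟨allRel_of_live a.1.1.1 a.2.1, allRel_of_live a.1.2.1 a.2.2⟩
    have h2 := jm_sp (s := s) hI hj hx.1 h1 ▸ a.2
    exact ⟨addCases_cut (jm S s (j + l) x) ▸ live_addCases h2, h2⟩
  · have h1 := allRel_of_live hx.1 a.1
    exact ⟨⟨⟨(al hx.1 h1).1, fun _ => hx.2 _⟩, (al hx.1 h1).2, fun _ => hx.2 _⟩,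
      (jm_sp (s := s) hI hj hx.1 h1).symm ▸ a.2⟩

theorem sq₂ : ov χ (Zv S s (j + l) (Finset.Ioo 0 (j + l)))
      ((Zv S s j (Finset.Ioo 0 j)).ten j (Zv S (s + j) l (Finset.Ioo 0 l))) T (sp S j l) ≫
      ov χ ((Zv S s j (Finset.Ioo 0 j)).ten j (Zv S (s + j) l (Finset.Ioo 0 l)))
        ((Zv S s j (lowI j I)).ten j (Zv S (s + j) l (uppI j I))) T
        (fun _ x => ((forget j (lowI j I) x.1.1, x.1.2), forget l (uppI j I) x.2.1, x.2.2)) =
    ov χ (Zv S s (j + l) (Finset.Ioo 0 (j + l))) (Zv S s (j + l) I) T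
        (fun _ x => (forget (j + l) I x.1, x.2)) ≫
      ov χ (Zv S s (j + l) I) ((Zv S s j (lowI j I)).ten j (Zv S (s + j) l (uppI j I))) T
        (sp S j l) := by
  have he : ∀ {K : Fld k} (x : (ℕ → Sp K) × (Fin (j + l) → S.Tw.X K)),
      ((forget j (lowI j I) (sp S j l x).1.1, (sp S j l x).1.2),
        forget l (uppI j I) (sp S j l x).2.1, (sp S j l x).2.2) =
      sp S j l (forget (j + l) I x.1, x.2) :=
    fun x => Prod.ext (Prod.ext (low_forget hI hj).symm rfl) (Prod.ext (upp_forget hI hj).symm rfl)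
  refine PMap.ov_comm (pmap_sp hI hj)
    (((pmap_forget (lowI_subset hI)).ten (pmap_forget (uppI_subset hI))
      (Or.inr rfl)).mono (JI_add hI hj)) (pmap_forget hI) (pmap_split hI hj) hT
    (fun K x hx => ⟨fun a => ⟨⟨Flag.forget_flag hx.1 hI, hx.2⟩, he x ▸ a.2⟩,
      fun a => ⟨?_, (he x).symm ▸ a.2⟩⟩) fun K x _ _ _ => he x
  have : TRel n j (forget (j + l) I x.1 j) := (Flag.low_iff hI hj a.1.1).1 a.2.1.1
  rw [forget_of_mem hj] at this
  have h := (live_sp hI hj hx.1).2 this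
  exact ⟨⟨h.1, fun _ => hx.2 _⟩, h.2, fun _ => hx.2 _⟩

theorem sq₃ (hs : σ ∈ Young j (lowI j I)) (ht : τ ∈ Young l (uppI j I)) :
    ov χ (Av S (j + l)) (Av S (j + l)) T (pm S (pp σ τ)) ≫
      ov χ (Av S (j + l)) ((Av S j).ten j (Av S l)) T (fun _ x => cut j l x) =
    ov χ (Av S (j + l)) ((Av S j).ten j (Av S l)) T (fun _ x => cut j l x) ≫
      ov χ ((Av S j).ten j (Av S l)) ((Av S j).ten j (Av S l)) T
        fun _ x => (pm S σ x.1, pm S τ x.2) := by
  refine PMap.ov_comm (pend_pm (pp_mem.2 ⟨hs, ht⟩)).toPMap (pmap_splitA.mono (Set.subset_univ _))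
    (pmap_splitA.mono (Set.subset_univ _))
    (((pend_pm hs).toPMap.ten (pend_pm ht).toPMap (Or.inr rfl)).mono (JI_add hI hj)) hT
    (fun K x hx => iff_of_true ⟨fun _ => hx _, fun _ => hx _, fun _ => hx _⟩
      ⟨⟨fun _ => hx _, fun _ => hx _⟩, fun _ => hx _, fun _ => hx _⟩) fun K x _ _ _ => ?_
  refine Prod.ext (funext fun a => ?_) (funext fun a => ?_)
  · simp only [pm, cut, pp_symm, pp_cast]
  · simp only [pm, cut, pp_symm, pp_nat]

end

/-- A condition on the polynomials of a single step. -/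
def onePC (T : PC P) : PC P where
  T _ c p := T.T (fun m => if m = 0 then 1 else c 0) p
  conv _ _ _ φ φ' _ _ _ p p' p'' a b c h h' := T.conv φ φ' _ _ _ p p' p'' a b c
    (fun m => by split_ifs; exacts [PR.C φ.one, h 0]) fun m => by
      split_ifs; exacts [PR.C φ'.one, h' 0]

theorem chiA_one {K : Type} [Field K] {n : ℕ} (x : Fin 1 → Fin n → K) :
    chiA x = fun m => if m = 0 then 1 else Polynomial.X - C (∏ i, x 0 i) := by
  funext m
  rw [chiA, Finset.prod_filter, Fin.prod_univ_one]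
  split_ifs with h1 h2 h2
  · subst h2; simp at h1
  · rfl
  · rfl
  · exact absurd (Nat.pos_of_ne_zero h2) h1

theorem uu_one (hS : S.Iso χ) (t : Fin 1 → ℕ) : UU χ (Bv S t) (Av S 1) Set.univ (ios S t) := by
  intro P T hT
  have e {K : Fld k} (x : Fin 1 → S.St.X K) :
      chiA (evs S x) = fun m => if m = 0 then 1 else Polynomial.X - C (S.ev (x 0)) := by
    rw [chiA_one, Fin.prod_univ_one, evs]
  have c {α : Type} (x : Fin 1 → α) : (fun _ => x 0) = x := funext fun a => by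
    rw [Subsingleton.elim a 0]
  have lA {K : Fld k} {x : ((Av S 1).over T).X K} (a : ((Av S 1).over T).L x) :
      (S.A1.over (onePC T)).L (x.1 0, x.2) := ⟨⟨a.1.1 0, a.1.2⟩, (congrArg (T.T · x.2) (e x.1)).mp a.2⟩
  have lA' {K : Fld k} {y : (S.A1.over (onePC T)).X K} (a : (S.A1.over (onePC T)).L y) :
      ((Av S 1).over T).L (fun _ => y.1, y.2) :=
    ⟨⟨fun _ => a.1.1, a.1.2⟩, (congrArg (T.T · y.2) (e fun _ => y.1)).mpr a.2⟩
  have mA : IsMap ((Av S 1).over T) (S.A1.over (onePC T)) fun _ x => (x.1 0, x.2) :=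
    .of_inv (g := fun _ y => (fun _ => y.1, y.2))
      ⟨fun _ _ => lA, fun _ _ _ _ _ _ _ r => ⟨r.1 0, r.2⟩⟩
      ⟨fun _ _ => lA', fun _ _ _ _ _ _ _ r => ⟨fun _ => r.1, r.2⟩⟩
      (fun _ x _ => congrArg (· * P.f x.2) (Fin.prod_univ_one fun a => S.St.f (x.1 a)).symm)
      fun _ x _ => Prod.ext (c x.1) rfl
  have lB {K : Fld k} {x : ((Bv S t).over T).X K} (a : ((Bv S t).over T).L x) :
      ((S.B1 (t 0)).over (onePC T)).L ((x.1.1 0, x.1.2 0), x.2) :=
    ⟨⟨⟨a.1.1.1 0, a.1.1.2 0⟩, a.1.2⟩, (congrArg (T.T · x.2) (chiA_one x.1.1)).mp a.2⟩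
  have lB' {K : Fld k} {y : ((S.B1 (t 0)).over (onePC T)).X K}
      (a : ((S.B1 (t 0)).over (onePC T)).L y) :
      ((Bv S t).over T).L ((fun _ => y.1.1, fun _ => y.1.2), y.2) :=
    ⟨⟨⟨fun _ => a.1.1.1, fun _ => a.1.1.2⟩, a.1.2⟩,
      (congrArg (T.T · y.2) (chiA_one fun _ => y.1.1)).mpr a.2⟩
  have mB : IsMap ((Bv S t).over T) ((S.B1 (t 0)).over (onePC T))
      fun _ x => ((x.1.1 0, x.1.2 0), x.2) :=
    .of_inv (g := fun _ y => ((fun _ => y.1.1, fun _ => y.1.2), y.2))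
      ⟨fun _ _ => lB, fun _ _ _ _ _ _ _ r => ⟨⟨r.1.1 0, r.1.2 0⟩, r.2⟩⟩
      ⟨fun _ _ => lB', fun _ _ _ _ _ _ _ r => ⟨⟨fun _ => r.1.1, fun _ => r.1.2⟩, r.2⟩⟩
      (fun _ x _ => congrArg (· * P.f x.2) (congrArg₂ (· * ·)
        (Fin.prod_univ_one fun a => fA n (t a) (x.1.1 a)).symm
        (Fin.prod_univ_one fun a => S.g (t a) (x.1.2 a)).symm))
      fun _ x _ => Prod.ext (Prod.ext (c x.1.1) (c x.1.2)) rfl
  have p1 : PMap (S.B1 (t 0)) S.A1 Set.univ (S.io (t 0)) :=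
    ⟨S.map _, fun _ x _ b _ _ => congrArg (Polynomial.X - C ·) (S.ev_io _ x b)⟩
  have d (T : PC P) : T.Dep Set.univ := fun _ c c' p h => by
    rw [show c = c' from funext fun m => h m trivial]
    exact id
  refine .of_comp_right (g := mA.hom χ) (mA.bij (fun _ _ => lA)
    (fun _ x y _ _ h => ?_) fun _ y a => ⟨_, lA' a, rfl⟩).uiso ?_
  · rw [← Prod.mk.eta (p := x), ← Prod.mk.eta (p := y), ← c x.1, ← c y.1, (Prod.mk.inj h).1,
      (Prod.mk.inj h).2]
  have h := ((mB.bij (χ := χ) (fun _ _ => lB) (fun _ x y _ _ h => ?_)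
    fun _ y a => ⟨_, lB' a, rfl⟩).uiso).comp (hS (t 0) P (onePC T) (d _))
  · rw [ov, (p1.over (d _)).hm_eq] at h
    rw [ov, ((pmap_ios t).over hT).hm_eq, IsMap.comm _ mA mB (p1.over (d _))
      (fun _ x a => ⟨fun b => ⟨lB a, b.2⟩, fun b => ⟨?_, b.2⟩⟩) fun _ _ _ _ _ => rfl]
    · exact h
    · have := lA' b.2
      rwa [show (fun _ => S.io (t 0) (x.1.1 0, x.1.2 0)) = ios S t x.1 from c (ios S t x.1)] at this
  · have h1 := Prod.mk.inj (Prod.mk.inj h).1
    exact Prod.ext (Prod.ext (by rw [← c x.1.1, h1.1, c]) (by rw [← c x.1.2, h1.2, c]))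
      (Prod.mk.inj h).2

theorem uu_full (hχ : Gen χ n) (hS : S.Iso χ) : ∀ w s, UU χ (Zv S s w (Finset.Ioo 0 w)) (Av S w)
    (JI w (Finset.Ioo 0 w)) (jm S s w) := by
  intro w
  induction w using Nat.strong_induction_on with
  | _ w ih =>
  intro s P T hT
  by_cases h1 : w ≤ 1
  · have ar : ∀ {K : Fld k} {x : ℕ → Sp K}, Flag n w (Finset.Ioo 0 w) x → AllRel n w x := by
      intro K x h i hi
      by_cases e : i = w
      · exact e ▸ h.trel
      · obtain rfl : i = 0 := by omega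
        rw [h.bot 0 (by simp) e]
        exact trel_zero_iff.2 rfl
    have u := (pmap_jb (S := S) (s := s).ov_bij (χ := χ) hT
      (fun _ x h => ⟨(jmap_live_iff h.1).2 (ar h.1), h.2⟩)
      (fun _ x x' h h' e => Prod.ext ?_ (Prod.mk.inj e).2) fun _ y h => ?_).uiso
    · rw [← pmap_jb.ov_comp ((pmap_ios _).mono (Set.subset_univ _)) hT pmap_jm
        (fun _ x h _ => ⟨(jmap_live_iff h.1).2 (ar h.1), h.2⟩) fun _ _ _ _ => rfl]
      refine u.comp ?_
      rcases Nat.le_one_iff_eq_zero_or_eq_one.1 h1 with rfl | rfl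
      · exact (((pmap_ios _).mono (Set.subset_univ _)).ov_bij hT (fun _ _ _ a => a.elim0)
          (fun _ _ _ _ _ _ => Subsingleton.elim _ _) fun _ _ _ =>
            ⟨(Fin.elim0, Fin.elim0), ⟨fun a => a.elim0, fun a => a.elim0⟩,
              Subsingleton.elim _ _⟩).uiso
      · exact uu_one hS _ P T (hT.mono (Set.subset_univ _))
    · rw [← (Flag.jmap_spec h.1 (ar h.1)).2, ← (Flag.jmap_spec h'.1 (ar h'.1)).2]
      exact congrArg flagOf (Prod.mk.inj e).1
    · have := flagOf_flag (x := y.1) fun a => (h.1 a).2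
      exact ⟨(flagOf y.1, y.2), ⟨this.1, h.2⟩, Prod.ext this.2.2 rfl⟩
  · obtain ⟨l, rfl⟩ : ∃ l, w = 1 + l := ⟨w - 1, by omega⟩
    have hj : 1 ∈ Finset.Ioo 0 (1 + l) := Finset.mem_Ioo.2 (by omega)
    refine (uiso_spA T).of_comp_right ?_
    rw [← sq₁ (Finset.Subset.refl _) hj hT]
    have h2 := uu_split (S := S) (s := s) hχ (Finset.Subset.refl _) hj
    have h3 := hT.mono (JI_add (Finset.Subset.refl _) hj)
    rw [lowI_full (by omega), uppI_full one_pos] at h2 h3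
    exact (h2 P T hT).comp (UU.ten pmap_jm pmap_jm (Or.inr rfl) (ih 1 (by omega) _)
      (ih l (by omega) _) P T h3)

variable (hχ : Gen χ n) (hS : S.Iso χ)
include hχ hS

theorem isRoof (hI : I ⊆ Finset.Ioo 0 w) :
    IsRoof χ (JI w I) (Av S w) (Zv S s w (Finset.Ioo 0 w)) (Zv S s w I) (jm S s w)
      fun _ x => (forget w I x.1, x.2) :=
  ⟨pmap_jm.mono (JI_mono hI), pmap_forget hI, fun _ _ h => ⟨Flag.forget_flag h.1 hI, h.2⟩,
    fun P T hT => uu_full hχ hS w s P T (hT.mono (JI_mono hI))⟩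

theorem ha_mono {I' : Finset ℕ} (hI : I ⊆ I') (hI' : I' ⊆ Finset.Ioo 0 w)
    {σ : Equiv.Perm (Fin w)} (h : Ha χ S s w I' σ) : Ha χ S s w I σ := by
  intro P T hT
  rw [← ((pmap_forget hI').mono (JI_mono hI)).ov_comp (pmap_forget hI) hT
    (pmap_forget (hI.trans hI')) (fun _ _ h _ => ⟨Flag.forget_flag h.1 hI', h.2⟩)
    fun _ _ _ _ => Prod.ext (forget_forget hI) rfl]
  exact (h P T (hT.mono (JI_mono hI))).postcomp ((isRoof hχ hS (hI.trans hI')).uiso P T hT) _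

variable (hI : I ⊆ Finset.Ioo 0 (j + l)) (hj : j ∈ I)
include hI

theorem roof_ten : IsRoof χ (addJ j (JI j (lowI j I)) (JI l (uppI j I)))
    ((Av S j).ten j (Av S l))
    ((Zv S s j (Finset.Ioo 0 j)).ten j (Zv S (s + j) l (Finset.Ioo 0 l)))
    ((Zv S s j (lowI j I)).ten j (Zv S (s + j) l (uppI j I)))
    (fun _ x => (jm S s j x.1, jm S (s + j) l x.2))
    fun _ x => ((forget j (lowI j I) x.1.1, x.1.2), forget l (uppI j I) x.2.1, x.2.2) :=
  (isRoof hχ hS (lowI_subset hI)).ten (isRoof hχ hS (uppI_subset hI)) (Or.inr rfl)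

include hj

theorem ha_pp (hs : σ ∈ Young j (lowI j I)) (ht : τ ∈ Young l (uppI j I))
    (h : UKills χ (addJ j (JI j (lowI j I)) (JI l (uppI j I))) ((Av S j).ten j (Av S l))
      ((Zv S s j (Finset.Ioo 0 j)).ten j (Zv S (s + j) l (Finset.Ioo 0 l)))
      ((Zv S s j (lowI j I)).ten j (Zv S (s + j) l (uppI j I)))
      (fun _ x => (jm S s j x.1, jm S (s + j) l x.2))
      (fun _ x => ((forget j (lowI j I) x.1.1, x.1.2), forget l (uppI j I) x.2.1, x.2.2))
      (fun _ x => (pm S σ x.1, pm S τ x.2)) (eps F S.d j σ * eps F S.d l τ)) :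
    Ha χ S s (j + l) I (pp σ τ) := by
  intro P T hT
  have hT' := hT.mono (JI_add hI hj)
  refine Kills.of_postcomp (uu_split hχ hI hj P T hT) ?_
  rw [← Kills.of_map ((isRoof hχ hS hI).uiso P T hT) ((roof_ten hχ hS hI).uiso P T hT')
    (sq₁ hI hj hT) (sq₂ hI hj hT), Preadditive.sub_comp, sq₃ hI hj hT hs ht, eps_pp,
    Linear.smul_comp, Category.id_comp]
  have := (h P T hT').precomp (ov χ (Av S (j + l)) ((Av S j).ten j (Av S l)) T
    fun _ x => cut j l x)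
  rwa [Preadditive.comp_sub, Linear.comp_smul, Category.comp_id] at this

theorem ha_left {a b : Fin j} (hs : Equiv.swap a b ∈ Young j (lowI j I))
    (h : Ha χ S s j (lowI j I) (Equiv.swap a b)) :
    Ha χ S s (j + l) I (Equiv.swap (Fin.castAdd l a) (Fin.castAdd l b)) := by
  rw [swap_left]
  refine ha_pp hχ hS hI hj hs (one_mem _) ?_
  rw [map_one, mul_one]
  exact UKills.ten_left (isRoof hχ hS (lowI_subset hI))
    (isRoof hχ hS (uppI_subset hI)) (Or.inr rfl) (pend_pm hs) h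

theorem ha_right {a b : Fin l} (hs : Equiv.swap a b ∈ Young l (uppI j I))
    (h : Ha χ S (s + j) l (uppI j I) (Equiv.swap a b)) :
    Ha χ S s (j + l) I (Equiv.swap (Fin.natAdd j a) (Fin.natAdd j b)) := by
  rw [swap_right]
  refine ha_pp hχ hS hI hj (one_mem _) hs ?_
  rw [map_one, one_mul]
  exact UKills.ten_right (isRoof hχ hS (lowI_subset hI))
    (isRoof hχ hS (uppI_subset hI)) (Or.inr rfl) (pend_pm hs) h

theorem hb_prod [CharZero F] (h : Hb χ S s j (lowI j I)) (h' : Hb χ S (s + j) l (uppI j I)) :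
    Hb χ S s (j + l) I := by
  intro P T hT
  have hT' := hT.mono (JI_add hI hj)
  have m1 : ∀ g ∈ yS j (lowI j I) ×ˢ yS l (uppI j I), pp g.1 g.2 ∈ yS (j + l) I := fun g hg =>
    mem_yS.2 (pp_mem.2 ⟨mem_yS.1 (Finset.mem_product.1 hg).1, mem_yS.1 (Finset.mem_product.1 hg).2⟩)
  have m2 : ∀ g ∈ yS j (lowI j I) ×ˢ yS l (uppI j I), ∀ g' ∈ yS j (lowI j I) ×ˢ yS l (uppI j I),
      pp g.1 g.2 = pp g'.1 g'.2 → g = g' := fun g _ g' _ e => Prod.ext (pp_inj e).1 (pp_inj e).2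
  have m3 : ∀ σ ∈ yS (j + l) I, ∃ g, ∃ _ : g ∈ yS j (lowI j I) ×ˢ yS l (uppI j I),
      pp g.1 g.2 = σ := by
    intro σ hσ
    obtain ⟨s, t, rfl⟩ := pp_surj hj (mem_yS.1 hσ)
    have := pp_mem.1 (mem_yS.1 hσ)
    exact ⟨(s, t), Finset.mem_product.2 ⟨mem_yS.2 this.1, mem_yS.2 this.2⟩, rfl⟩
  have hc : Nat.card (Young (j + l) I) =
      Nat.card (Young j (lowI j I)) * Nat.card (Young l (uppI j I)) := by
    rw [Nat.subtype_card _ fun _ => mem_yS, Nat.subtype_card _ fun _ => mem_yS,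
      Nat.subtype_card _ fun _ => mem_yS, ← Finset.card_product]
    exact (Finset.card_bij (fun g _ => pp g.1 g.2) m1 m2 m3).symm
  refine (Quo.uiso_iff ((isRoof hχ hS hI).uiso P T hT) ((roof_ten hχ hS hI).uiso P T hT')
    (sq₁ hI hj hT) (sq₂ hI hj hT) (uiso_spA T) (uu_split hχ hI hj P T hT) ?_).2
    (UQuo.ten (isRoof hχ hS (lowI_subset hI)) (isRoof hχ hS (uppI_subset hI))
      (Or.inr rfl) (fun _ hg => pend_pm (mem_yS.1 hg)) (fun _ hg => pend_pm (mem_yS.1 hg))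
      h h' P T hT')
  rw [Preadditive.sum_comp, Preadditive.comp_sum]
  refine (Finset.sum_bij (fun g _ => pp g.1 g.2) m1 m2 m3 fun g hg => ?_).symm
  rw [Linear.smul_comp, Linear.comp_smul, sq₃ hI hj hT (mem_yS.1 (Finset.mem_product.1 hg).1)
    (mem_yS.1 (Finset.mem_product.1 hg).2)]
  congr 1
  simp only [yR, hc, eps_pp, Nat.cast_mul, mul_inv]
  ring

end

end Pool.Agent.Lib.MP_fc2ced_ag.T.G
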