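import Pool.Agent.Lib.MP_fc2ced_ag.T.SeqC
import Pool.Agent.Lib.MP_fc2ced_ag.T.SeqD

/-! The function on tamely relevant spaces attached to two families of exponents. -/

open Module Polynomial

namespace Pool.Agent.Lib.MP_fc2ced_ag.T.G

open K

/-- A period with two families of exponents. -/
class Ex (n : ℕ) extends NeZero n where
  b : Fin n → ℤ
  a : Fin n → ℤ

variable {K : Type} [Field K] {n s w j l : ℕ} {U V W : Sp K}

/-- The second family of exponents as a periodic sequence. -/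
def aZ (n : ℕ) [Ex n] (i : ℤ) : ℤ := Ex.a (Fin.intCast i : Fin n)

/-- The last coefficient, up to sign, of the operator that fixes the sequence one. -/
noncomputable def tU (n w : ℕ) (U : Sp K) (i : ℤ) : K := (-1) ^ w * coef n w U i w / dU n w U i

/-- The function on tamely relevant spaces whose character sums are studied. -/
noncomputable def fU (n s w : ℕ) [Ex n] (U : Sp K) : K :=
  ∏ i : Fin n, dU n w U (i : ℕ) ^ (-Ex.b i) * tU n w U (i : ℕ) ^ aZ n ((i : ℕ) + s + w)

/-- The function for an operator of order one. -/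
noncomputable def fA (n s : ℕ) [Ex n] (x : Fin n → K) : K :=
  ∏ i : Fin n, (1 - x i) ^ (-Ex.b i) * (x i / (1 - x i)) ^ aZ n ((i : ℕ) + s + 1)

theorem aZ_add [Ex n] (i : ℤ) : aZ n (i + n) = aZ n i := congrArg Ex.a (intCast_add i)

theorem per_mul {α : Type} {G : ℤ → α} (h : ∀ i, G (i + n) = G i) (i q : ℤ) :
    G (i + q * n) = G i := by
  simpa using Function.Periodic.int_mul (f := G) (c := (n : ℤ)) h q i

theorem per_intCast [NeZero n] {α : Type} {G : ℤ → α} (h : ∀ i, G (i + n) = G i) (i : ℤ) :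
    G ((Fin.intCast i : Fin n) : ℕ) = G i := by
  rw [val_intCast', ← per_mul h _ (i / n), Int.emod_add_ediv_mul]

/-- The product of a periodic sequence over a period. -/
theorem prod_shift [NeZero n] {M : Type} [CommMonoid M] {G : ℤ → M} (h : ∀ i, G (i + n) = G i)
    (l : ℕ) : ∏ i : Fin n, G ((i : ℕ) + l) = ∏ i : Fin n, G (i : ℕ) := by
  induction l with
  | zero => simp
  | succ l ih =>
    rw [← ih, ← Equiv.prod_comp (Equiv.addRight (1 : Fin n)) fun i : Fin n => G ((i : ℕ) + l)]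
    refine Finset.prod_congr rfl fun i _ => ?_
    have h' : ∀ t, G (t + n + l) = G (t + l) := fun t => by rw [add_right_comm, h]
    have := per_intCast (G := fun t => G (t + l)) h' ((i : ℕ) + 1)
    rw [intCast_succ, intCast_val] at this
    rw [Equiv.coe_addRight, this]
    congr 1
    push_cast
    ring

theorem tU_add (hU : Rel n w U) (i : ℤ) : tU n w U (i + n) = tU n w U i := by
  rw [tU, tU, hU.band.per, dU_add hU]

theorem tU_ne (h : TRel n w U) (i : ℤ) : tU n w U i ≠ 0 :=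
  div_ne_zero (mul_ne_zero (pow_ne_zero _ (neg_ne_zero.2 one_ne_zero)) (h.1.band.top i)) (h.2 i)

theorem fU_ne [Ex n] (h : TRel n w U) : fU n s w U ≠ 0 :=
  Finset.prod_ne_zero_iff.2 fun _ _ =>
    mul_ne_zero (zpow_ne_zero _ (h.2 _)) (zpow_ne_zero _ (tU_ne h _))

theorem tU_map (h : Rel n (j + l) U) (h' : TRel n j W) (e : W ≤ U) (i : ℤ) :
    tU n (j + l) U i = tU n l (U.map (nop n j W)) i * tU n j W (i + l) := by
  obtain ⟨h1, h2⟩ := h.rel_map h'.1 e
  have h3 := (h'.per.inv.rel h1).2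
  rw [← map_nop] at h3
  rw [tU, tU, tU, (h'.dU_map h e).2, h2, h'.1.band.conv_top h1.band, h3, gg, Pi.inv_apply,
    Pi.inv_apply]
  have := h'.2 i
  have := h'.2 (i + l)
  by_cases k : dU n l (U.map (nop n j W)) i = 0
  · simp [k]
  rw [pow_add]
  field_simp

theorem fU_map [Ex n] (h : TRel n (j + l) U) (h' : TRel n j W) (e : W ≤ U) :
    fU n s (j + l) U = fU n s j W * fU n (s + j) l (U.map (nop n j W)) := by
  have h1 := prod_shift (n := n) (G := fun t => tU n j W t ^ aZ n (t + s + j)) (fun t => by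
    rw [tU_add h'.1, show t + n + s + j = t + s + j + n by ring, aZ_add]) l
  simp only [fU, (h'.dU_map h.1 e).2, tU_map h.1 h' e, mul_zpow, Finset.prod_mul_distrib, ← h1]
  simp only [Nat.cast_add, add_assoc, add_comm (l : ℤ), add_left_comm (l : ℤ)]
  ring

theorem fU_split [Ex n] {I : Finset ℕ} {F : ℕ → Sp K} (hj : j ∈ I)
    (h : Flag n (j + l) I F) (hr : TRel n j (F j)) :
    fU n s (j + l) (F (j + l)) = fU n s j (low j F j) * fU n (s + j) l (upp n j F l) := by
  rw [low_of_le le_rfl]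
  exact fU_map h.trel hr (h.le_top j hj)

theorem tU_zero (h : Rel n 0 U) (i : ℤ) : tU n 0 U i = 1 := by
  rw [tU, dU_zero h, h.band.one, div_one, pow_zero, mul_one]

theorem fU_zero [Ex n] (h : Rel n 0 U) : fU n s 0 U = 1 := by
  simp [fU, dU_zero h, tU_zero h]

theorem tU_flagOf [NeZero n] {x : Fin w → Fin n → K} (hx : ∀ a i, x a i ≠ 0 ∧ x a i ≠ 1) {m : ℕ}
    (hm : m < w) (i : ℤ) : tU n (m + 1) (flagOf x (m + 1)) i =
      x ⟨m, hm⟩ (Fin.intCast i) / (1 - x ⟨m, hm⟩ (Fin.intCast i)) *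
        tU n m (flagOf x m) (i + 1) := by
  have h0 := ung_ne hx
  rw [tU, tU, dU_flagOf hx hm, dU_flagOf hx hm.le, T.flagOf, coef_flagOf h0 hm,
    coef_flagOf h0 hm.le, whs_succ hm, (band_whs h0 hm.le).conv_top (band_wh (h0 _)), wh_one,
    dA_succ hm, intCast_succ, ung, Nat.cast_one, pow_succ]
  have := dA_ne (fun a i => (hx a i).2) m (Fin.intCast i)
  have := dA_ne (fun a i => (hx a i).2) m (Fin.intCast i + 1)
  have := sub_ne_zero.2 (hx ⟨m, hm⟩ (Fin.intCast i)).2.symm
  field_simp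

theorem fU_flagOf_le [Ex n] {x : Fin w → Fin n → K} (hx : ∀ a i, x a i ≠ 0 ∧ x a i ≠ 1) {m : ℕ}
    (hm : m ≤ w) : fU n s m (flagOf x m) =
      ∏ a ∈ Finset.univ.filter fun a : Fin w => (a : ℕ) < m, fA n (s + a) (x a) := by
  induction m with
  | zero => rw [fU_zero (trel_flagOf hx hm).1]; simp
  | succ m ih =>
    have hm' : m < w := hm
    have h1 := prod_shift (n := n) (G := fun t => tU n m (flagOf x m) t ^ aZ n (t + s + m))
      (fun t => by rw [tU_add (trel_flagOf hx hm'.le).1,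
        show t + n + s + m = t + s + m + n by ring, aZ_add]) 1
    rw [filter_succ hm', Finset.prod_insert (by simp), ← ih hm'.le]
    simp only [fU, fA, dU_flagOf hx hm, dU_flagOf hx hm'.le, tU_flagOf hx hm', intCast_val,
      dA_succ hm', mul_zpow, Finset.prod_mul_distrib, ← h1]
    simp only [Nat.cast_add, Nat.cast_one, add_assoc, add_comm (1 : ℤ), add_left_comm (1 : ℤ)]
    ring

theorem fU_flagOf [Ex n] {x : Fin w → Fin n → K} (hx : ∀ a i, x a i ≠ 0 ∧ x a i ≠ 1) :
    fU n s w (flagOf x w) = ∏ a : Fin w, fA n (s + a) (x a) := by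
  rw [fU_flagOf_le hx le_rfl, Finset.filter_true_of_mem fun a _ => a.2]

section Psi

open SeqC

variable {a e : ℤ} {c : ℤ → K} {μ : Sq K} {r : K} (D : Desc n W a e c μ)

theorem op_last (g : ℤ → ℕ → K) {y : Sq K} {i : ℤ} (h0 : ∀ t, i ≤ t → t < i + w → y t = 0) :
    op w g y i = g i w * y (i + w) := by
  rw [op_apply, Finset.sum_range_succ, Finset.sum_eq_zero fun l hl => by
    rw [h0 _ (by omega) (by have := Finset.mem_range.1 hl; omega), mul_zero], zero_add]

theorem tU_eq (hU : Rel n w U) {z : Sq K} (hz : z ∈ U) {i : ℤ}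
    (h0 : ∀ t, i ≤ t → t < i + w → (1 - z) t = 0) : tU n w U i = (-1) ^ w * ((1 - z) (i + w))⁻¹ := by
  have h1 : dU n w U i = coef n w U i w * (1 - z) (i + w) := by
    rw [← op_last _ h0, map_sub, LinearMap.mem_ker.1 (hU.eq_sol.le hz), sub_zero, dU]
  rw [tU, h1, mul_div_assoc, div_mul_cancel_left₀ (hU.band.top i)]

theorem theta_last (h : a + 1 < e) {y : Sq K} (h0 : ∀ t, a + 1 ≤ t → t < e → y t = 0) :
    theta a e c y = c e * y e := by
  change y (a + 1) + ∑ l ∈ Finset.Icc (a + 2) e, c l * y l = _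
  rw [h0 _ le_rfl h, zero_add, Finset.sum_eq_single_of_mem e (Finset.mem_Icc.2 ⟨by omega, le_rfl⟩)
    fun l hl k => by
      have := Finset.mem_Icc.1 hl
      rw [h0 l (by omega) (by omega), mul_zero]]

include D in
theorem last_ne : c e ≠ 0 := fun k => by
  have h1 := theta_congr (a := a) (e := e) (c := c) (y := μ)
    (z := fun t => if t = e then μ e else 0) fun t h1 h2 => by
      split_ifs with h3
      exacts [h3 ▸ rfl, D.zero t h1 (by omega)]
  rw [D.ker μ D.mem, theta_last (lt D) fun t _ h3 => if_neg h3.ne, k, D.one,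
    if_neg (lt D).ne] at h1
  simp at h1

theorem psi_last (hr : r ≠ 0) (y : Sq K) {M : ℤ} (h1 : a + 1 - n < M)
    (h2 : ∀ t, a + 1 ≤ t → t < M → D.psi r y t = 0) (h3 : ∀ b : ℕ, M ≠ e + b * n) :
    D.psi r y M = (y - ((1 - r) * theta a e c y) • μ) M := by
  by_cases h5 : M ≤ a + 1
  · rw [psi_left D r y h1 h5]; rfl
  have key (b : ℕ) (hb : e + b * n ≤ M) : theta a e c (tr n b y) = 0 := by
    have h6 : (0 : ℤ) ≤ b * n := by positivity
    have := lt D
    have := h3 b
    refine (mul_eq_zero.1 ?_).resolve_left hr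
    rw [← theta_tr_psi D r, theta_of_van (y := tr n b (D.psi r y))
      fun s h7 h8 => h2 (s + b * n) (by omega) (by omega)]
    exact h2 (a + 1 + b * n) (by omega) (by omega)
  rw [psi_right D r y (by omega) fun b _ => key b, Pi.sub_apply, Pi.smul_apply, eq_comm,
    sub_eq_self]
  by_cases h6 : M < e
  · rw [D.zero M (by omega) h6, smul_zero]
  · have := key 0 (by simpa using h6)
    rw [Nat.cast_zero, tr_zero] at this
    rw [this, mul_zero, zero_smul]

theorem tU_psi (hr : r ≠ 0) (hU : Rel n w U) (h : W ≤ U) (i : ℤ) :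
    tU n w (U.map (D.psi r)) i = (if (n : ℤ) ∣ i + w - e then r⁻¹ else 1) * tU n w U i := by
  have hR := (D.rel_dU hr hU h).1
  have hn : (0 : ℤ) < n := by exact_mod_cast D.pos
  obtain ⟨i, q, h1, h2, rfl⟩ := exists_res D.pos (a + 1 - n) i
  rw [per_mul (tU_add hR), per_mul (tU_add hU), show i + q * n + w - e = i + w - e + q * n by ring,
    if_congr (Int.dvd_add_left (Int.dvd_mul_left q n)) rfl rfl]
  obtain ⟨y, hy, hy1⟩ := hR.band.exists_sol 0 1 i
  obtain ⟨z, hz, rfl⟩ : y ∈ U.map (D.psi r) := hR.eq_sol.ge hy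
  have h3 : 1 - D.psi r z = D.psi r (1 - z) := by rw [map_sub, D.psi_cst]
  have h4 : ∀ t, i ≤ t → t < i + w → D.psi r (1 - z) t = 0 := fun t h4 h5 => by
    rw [← h3, Pi.sub_apply, hy1 t h4 h5, sub_self]
  have h6 := psi_win D hr (1 - z) (M := i + w - 1) h1 fun t h6 h7 => h4 t (by omega) (by omega)
  have h7 : ∀ b : K, 1 - z - b • μ = 1 - (z + b • μ) := fun b => sub_sub _ _ _
  have h8 : ∀ t, i ≤ t → t < i + w → (1 - z - ((1 - r) * theta a e c (1 - z)) • μ) t = 0 :=
    fun t h8 h9 => (h6 t h8 (by omega)).trans (h4 t h8 h9)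
  have h9 := le D hU h
  rw [tU_eq hR ⟨z, hz, rfl⟩ (h3 ▸ h4), h3, tU_eq hU (U.add_mem hz (U.smul_mem _ (h D.mem)))
    (h7 _ ▸ h8), ← h7]
  split_ifs with h5
  · obtain ⟨b, hb⟩ := h5
    have hb' : 0 ≤ b := by
      by_contra hc
      nlinarith
    lift b to ℕ using hb'
    have h10 : (0 : ℤ) ≤ b * n := by positivity
    have h11 : i + w = e + b * n := by linarith
    have k1 := theta_last (c := c) (lt D) (y := tr n b (D.psi r (1 - z)))
      fun t k k' => h4 (t + b * n) (by omega) (by omega)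
    have k2 := theta_last (c := c) (lt D)
      (y := tr n b (1 - z - ((1 - r) * theta a e c (1 - z)) • μ))
      fun t k k' => h8 (t + b * n) (by omega) (by omega)
    have k3 : tr n b (1 - z - ((1 - r) * theta a e c (1 - z)) • μ) =
      tr n b (1 - z) - ((1 - r) * theta a e c (1 - z)) • tr n b μ := rfl
    rw [k3, map_sub, map_smul, D.ker _ (tr_mem D.stab b μ D.mem), smul_zero, sub_zero, ← k3] at k2
    rw [theta_tr_psi, k2, mul_left_comm] at k1
    rw [mul_left_comm, ← mul_inv, h11]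
    exact congrArg (_ * ·⁻¹) (mul_left_cancel₀ (last_ne D) k1).symm
  · rw [one_mul, psi_last D hr _ (by omega) (fun t k k' => h4 t (by omega) k')
      fun b k => h5 ⟨b, by linarith⟩]

theorem prod_ite [NeZero n] (t : ℤ) (r : K) (G : ℤ → ℤ) (h : ∀ i, G (i + n) = G i) :
    ∏ i : Fin n, (if (n : ℤ) ∣ (i : ℕ) - t then r else 1) ^ G (i : ℕ) = r ^ G t := by
  have h1 (i : Fin n) : (n : ℤ) ∣ (i : ℕ) - t ↔ i = Fin.intCast t := by
    rw [Fin.ext_iff, ← Nat.cast_inj (R := ℤ), val_intCast', ← Int.modEq_iff_dvd, Int.ModEq,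
      Int.emod_eq_of_lt (a := (i : ℕ)) (by positivity) (by exact_mod_cast i.2), eq_comm]
  simp only [h1]
  rw [Finset.prod_eq_single (Fin.intCast t) (fun i _ hi => by rw [if_neg hi, one_zpow]) (by simp),
    if_pos rfl, per_intCast h]

/-- The action attached to a descent scales the function. -/
theorem fU_psi [Ex n] (hr : r ≠ 0) (hU : TRel n w U) (h : W ≤ U) :
    TRel n w (U.map (D.psi r)) ∧ fU n s w (U.map (D.psi r)) =
      fU n s w U * r ^ (-(Ex.b (Fin.intCast (a + 1) : Fin n) + aZ n (e + s))) := by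
  refine ⟨⟨(D.rel_dU hr hU.1 h).1, fun i => ?_⟩, ?_⟩
  · rw [D.dU_map hr hU.1 h]
    exact mul_ne_zero (by split_ifs; exacts [hr, one_ne_zero]) (hU.2 i)
  have h1 := prod_ite (n := n) (a + 1) r (fun i => -Ex.b (Fin.intCast i : Fin n))
    fun i => by rw [intCast_add]
  have h2 := prod_ite (n := n) (e - w) r⁻¹ (fun i => aZ n (i + s + w))
    fun i => by rw [show i + n + s + w = i + s + w + n by ring, aZ_add]
  simp only [intCast_val] at h1
  simp only [← sub_add, sub_add_eq_add_sub _ e] at h2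
  simp only [fU, D.dU_map hr hU.1 h, tU_psi D hr hU.1 h, mul_zpow, Finset.prod_mul_distrib, h1, h2]
  rw [show e - w + s + w = e + s by ring, neg_add, zpow_add₀ hr, inv_zpow']
  ring

end Psi

end Pool.Agent.Lib.MP_fc2ced_ag.T.G
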