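import Pool.Agent.Lib.MP_fc2ced_ag.G.Lat
import Pool.Agent.Lib.MP_fc2ced_ag.G.Cur

/-! One equation in a torus over the line. -/

open CategoryTheory Function Polynomial

namespace Pool.Agent.Lib.MP_fc2ced_ag.T

open K

noncomputable section

variable {k : Type} [Field k] {F : Type} [Field F] [CharZero F] [IsAlgClosed k] [IsAlgClosed F]
  {χ : Chr k F}

open MP_fc2ced_ag.T.Pt hiding X

variable {σ σ' ι Λ Λ' : Type} [Fintype σ] [Fintype σ'] [Fintype Λ] [Fintype Λ'] [DecidableEq ι]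

/-- The terms `g l (t) * x ^ m l` of the equations `e l` satisfy at most one relation `γ`; the
entries of `γ` are tame and occur only at monomial coefficients. -/
def Circ (b : Prop) (e : Λ → ι) (m : Λ → σ → ℕ) (g : Λ → k[X]) : Prop :=
  ∃ (γ : Λ → ℤ) (d : Λ → ℕ),
    (∀ r : Λ → ℤ, (∀ j, ∑ l with e l = j, r l = 0) → (∀ i, ∑ l, r l * m l i = 0) →
      ∃ u v : ℤ, u ≠ 0 ∧ ∀ l, u * r l = v * γ l) ∧
    (∀ l, γ l ≠ 0 → (γ l : k) ≠ 0 ∧ ∃ c, g l = monomial (d l) c) ∧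
    (∑ l, γ l * d l = 0 ∨ b ∧ (∑ l, γ l * d l).natAbs = 1)

variable {b : Prop} {e : Λ → ι} {m : Λ → σ → ℕ} {g : Λ → k[X]}

omit [IsAlgClosed k] in
/-- Some of the terms of one equation. -/
theorem Circ.sub (h : Circ b e m g) {f : Λ' → Λ} (hf : Injective f) {a : ι}
    (he : ∀ l, e (f l) = a) {m' : Λ' → σ' → ℕ}
    (hm : ∀ i, (∀ l, m (f l) i = 0) ∨ ∃ i', ∀ l, m (f l) i = m' l i') :
    Circ b (fun _ => ()) m' fun l => g (f l) := by
  obtain ⟨γ, d, h1, h2, h3⟩ := h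
  have key : ∀ r : Λ' → ℤ, (∀ j : Unit, ∑ l with () = j, r l = 0) →
      (∀ i, ∑ l, r l * m' l i = 0) → ∃ u v : ℤ, u ≠ 0 ∧ (∀ l, u * r l = v * γ (f l)) ∧
        ∀ l ∉ Set.range f, v * γ l = 0 := by
    intro r r1 r2
    have r0 : ∑ l, r l = 0 := by simpa using r1 ()
    have z : ∀ l ∉ Set.range f, extend f r 0 l = 0 := fun l hl => extend_apply' _ _ _ hl
    obtain ⟨u, v, hu, huv⟩ := h1 (extend f r 0) (fun j => by
      rw [Finset.sum_filter, ← Fintype.sum_of_injective f hf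
        (fun l => if a = j then r l else 0) _ (fun l hl => by rw [z l hl, ite_self])
        fun l => by rw [he, hf.extend_apply]]
      split_ifs
      exacts [r0, Finset.sum_const_zero]) fun i => by
        rw [← Fintype.sum_of_injective f hf (fun l => r l * m (f l) i) _
          (fun l hl => by rw [z l hl, zero_mul]) fun l => by rw [hf.extend_apply]]
        rcases hm i with p | ⟨i', p⟩
        · simp [p]
        · simpa only [p] using r2 i'
    exact ⟨u, v, hu, fun l => by rw [← huv, hf.extend_apply],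
      fun l hl => by rw [← huv, z l hl, mul_zero]⟩
  by_cases c : ∀ l ∉ Set.range f, γ l = 0
  · have s : ∑ l, γ (f l) * d (f l) = ∑ l, γ l * d l :=
      Fintype.sum_of_injective f hf _ _ (fun l hl => by rw [c l hl, zero_mul]) fun _ => rfl
    refine ⟨fun l => γ (f l), fun l => d (f l), fun r r1 r2 => ?_, fun l => h2 _, s ▸ h3⟩
    obtain ⟨u, v, hu, p, -⟩ := key r r1 r2
    exact ⟨u, v, hu, p⟩
  · push Not at c
    obtain ⟨l₀, c1, c2⟩ := c
    refine ⟨0, 0, fun r r1 r2 => ?_, fun l p => absurd rfl p, .inl (by simp)⟩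
    obtain ⟨u, v, hu, p, q⟩ := key r r1 r2
    have v0 : v = 0 := (mul_eq_zero.1 (q l₀ c1)).resolve_right c2
    exact ⟨u, 0, hu, fun l => by rw [p, v0, zero_mul, zero_mul]⟩

omit [IsAlgClosed k] in
/-- The equation `a'` times a new variable is added to the equation `a`. -/
theorem Circ.merge (h : Circ b e m g) {a a' : ι} (ha : a ≠ a') :
    Circ b (fun l => if e l = a' then a else e l)
      (fun l (o : Option σ) => o.elim (if e l = a' then 1 else 0) (m l)) g := by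
  obtain ⟨γ, d, h1, h2, h3⟩ := h
  refine ⟨γ, d, fun r r1 r2 => h1 r (fun j => ?_) fun i => r2 (some i), h2, h3⟩
  have r0 : ∑ l, (if e l = a' then r l else 0) = 0 := by simpa using r2 none
  have rj := r1 j
  rw [Finset.sum_filter] at rj ⊢
  by_cases p : j = a'
  · rw [p, r0]
  by_cases q : j = a
  · refine Eq.trans ?_ ((congrArg₂ (· - ·) rj r0).trans (sub_zero 0))
    rw [← Finset.sum_sub_distrib]
    refine Finset.sum_congr rfl fun l _ => ?_
    by_cases t : e l = a'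
    · simp [t, q, ha.symm]
    · simp [t]
  · refine Eq.trans (Finset.sum_congr rfl fun l _ => ?_) rj
    by_cases t : e l = a'
    · simp [t, Ne.symm p, Ne.symm q]
    · simp [t]

omit [IsAlgClosed k] in
/-- The normal form for one equation: the vector is a relation, with degree zero or one. -/
theorem Circ.norm (h : Circ b (fun _ => ()) m g) : ∃ (γ : Λ → ℤ) (d : Λ → ℕ),
    ∑ l, γ l = 0 ∧ (∀ i, ∑ l, γ l * m l i = 0) ∧
    (∀ r : Λ → ℤ, ∑ l, r l = 0 → (∀ i, ∑ l, r l * m l i = 0) →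
      ∃ u v : ℤ, u ≠ 0 ∧ ∀ l, u * r l = v * γ l) ∧
    (∀ l, γ l ≠ 0 → (γ l : k) ≠ 0 ∧ ∃ c, g l = monomial (d l) c) ∧
    (∑ l, γ l * d l = 0 ∨ b ∧ ∑ l, γ l * d l = 1) := by
  obtain ⟨γ, d, h1, h2, h3⟩ := h
  replace h1 := fun (r : Λ → ℤ) (r0 : ∑ l, r l = 0) => h1 r fun _ => by simpa using r0
  by_cases c : ∑ l, γ l = 0 ∧ ∀ i, ∑ l, γ l * m l i = 0
  · rcases h3 with p | ⟨p, q⟩
    · exact ⟨γ, d, c.1, c.2, h1, h2, .inl p⟩
    rcases Int.natAbs_eq_iff.1 q with q | q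
    · exact ⟨γ, d, c.1, c.2, h1, h2, .inr ⟨p, q⟩⟩
    refine ⟨fun l => -γ l, d, by simp [c.1], fun i => by simp [c.2 i], fun r r1 r2 => ?_,
      fun l t => ?_, .inr ⟨p, by simp [q]⟩⟩
    · obtain ⟨u, v, hu, t⟩ := h1 r r1 r2
      exact ⟨u, -v, hu, fun l => by rw [t, neg_mul_neg]⟩
    · simpa using h2 l (neg_ne_zero.1 t)
  · refine ⟨0, 0, by simp, by simp, fun r r1 r2 => ?_, fun l p => absurd rfl p, .inl (by simp)⟩
    obtain ⟨u, v, hu, t⟩ := h1 r r1 r2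
    have v0 : v = 0 := by
      by_contra v0
      refine c ⟨mul_left_cancel₀ v0 ?_, fun i => mul_left_cancel₀ v0 ?_⟩
      · rw [Finset.mul_sum, ← Finset.sum_congr rfl fun l _ => t l, ← Finset.mul_sum, r1, mul_zero,
          mul_zero]
      · simp only [Finset.mul_sum, ← mul_assoc, ← t]
        simp only [mul_assoc, ← Finset.mul_sum, r2 i, mul_zero]
    exact ⟨u, 0, hu, fun l => by rw [t, v0, zero_mul, zero_mul]⟩

variable (F k) in
/-- The statement for all tame weights. -/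
def WAll (B : Bs k → Prop) : Prop :=
  ∀ (χ : Chr k F) (M : Type) [Fintype M] (c γ : M → ℤ), χ.Prim → (∀ i, Tame k (γ i)) →
    Tame k (∑ i, γ i) → WS B χ c γ

section Base

variable (P : Pt k) (a : Λ → ∀ ⦃K⦄, P.X K → K) (ha : ∀ l, P.Reg (gm k) (a l))

/-- The base with a monomial in the coefficients as its function. -/
@[reducible] def Pt.wm (c : Λ → ℤ) : Pt k :=
  P.withF (fun _ p => mn c fun l => a l p)
    (fun _ _ φ _ _ p q r => rel_mn _ (fun l => (ha l).reg φ _ _ p q r) fun l => ((ha l).live _ q).2)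
    fun _ _ p => mn_ne _ fun l => ((ha l).live _ p).2

/-- The monomial relation has a constant right hand side. -/
theorem ss_zo_const {c γ : Λ → ℤ} (κ : k)
    (hκ : ∀ ⦃K⦄ (p : P.X K), P.L p → (mn γ fun l => a l p) = algebraMap k K κ)
    (hP : SS ((P.wm a ha fun l => -c l).E χ)) (h : WS IsPt χ c γ) :
    SS ((zo P a ha c γ).E χ) := by
  let β : Bs k := ⟨fun K x => x = algebraMap k K κ, fun _ _ => 1,
    Closed.conv fun _ _ φ _ _ _ _ r t => r.eq_of (φ.alg κ) t, regF_one, fun _ _ _ _ => one_ne_zero⟩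
  have hβ : IsPt β := ⟨κ, 1, fun _ _ _ => ⟨Iff.rfl, fun _ => (map_one _).symm⟩⟩
  refine .of_eqv (eqv_of_inv (S' := (P.wm a ha fun l => -c l).prod (vv (fun _ => 1) c γ β))
    (e := fun _ x => x) (g := fun _ x => x)
    ⟨fun _ x p => ⟨p.1.1, p.1.2, p.2.trans (hκ _ p.1.1)⟩, fun _ _ _ _ _ _ _ r => r⟩
    ⟨fun _ x p => ⟨⟨p.1, p.2.1⟩, p.2.2.trans (hκ _ p.1).symm⟩, fun _ _ _ _ _ _ _ r => r⟩
    (fun _ x _ => ?_) (fun _ _ _ => rfl) fun _ _ _ => rfl)
    (ss_prod hP (h _ (fun _ => one_ne_zero) β hβ))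
  change (mn (fun l => -c l) fun l => a l x.1) * ((∏ i, x.2 i ^ c i) * 1) =
    mn c fun m => x.2 m / a m x.1
  rw [mul_one, mn, mn, ← Finset.prod_mul_distrib]
  exact Finset.prod_congr rfl fun l _ => by rw [div_zpow, zpow_neg, div_eq_inv_mul]

/-- The family of hypersurfaces `∑ a l * x ^ m l = 0` in a torus, with the function one. -/
@[reducible] def yp (m : Λ → σ → ℕ) : Pt k :=
  ((P.prod (mt k fun _ : σ => 0)).restr (fun _ x => ∑ l, a l x.1 * ∏ i, x.2 i ^ m l i = 0)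
    (Closed.conv fun _ _ φ _ _ p q r e => (Place.sum fun l _ =>
      ((ha l).reg φ _ _ p.1 q.1 r.1).mul (Place.prod fun i _ => (r.2 i).pow _)).eq_of
        φ.zero e)).withF (fun _ _ => 1) regF_one fun _ _ _ => one_ne_zero

omit [IsAlgClosed k] [Fintype Λ] in
include ha in
theorem reg_div (l l' : Λ) : P.Reg (gm k) fun _ p => a l p / a l' p :=
  ⟨fun _ p h => ⟨trivial, div_ne_zero ((ha l).live p h).2 ((ha l').live p h).2⟩,
    fun _ _ φ p q h h' r => ((ha l).reg φ p q h h' r).div ((ha l').reg φ p q h h' r)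
      ((ha l').live q h').2⟩

/-- The equation is divided by one of its terms. -/
theorem ss_yp [DecidableEq Λ] {γ : Λ → ℤ} (h0 : ∑ l, γ l = 0) (h1 : ∀ i, ∑ l, γ l * m l i = 0)
    (h : ∀ r : Λ → ℤ, ∑ l, r l = 0 → (∀ i, ∑ l, r l * m l i = 0) →
      ∃ u v : ℤ, u ≠ 0 ∧ ∀ l, u * r l = v * γ l)
    (hP : SS ((P.wm a ha fun _ => 0).E (Chr.triv k F)))
    (H : ∀ (l₀ : Λ) (χ : Chr k F) (c : {l // l ≠ l₀} → ℤ), χ.Prim →
      SS ((zo P (fun l : {l // l ≠ l₀} => fun _ p => a l p / a l₀ p)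
        (fun l => reg_div P a ha l l₀) c fun l => γ l).E χ)) :
    SS ((yp P a ha m).E (Chr.triv k F)) := by
  rcases isEmpty_or_nonempty Λ with h₀ | ⟨⟨l₀⟩⟩
  · refine .of_eqv (eqv_of_inv (S' := (P.wm a ha fun _ => 0).prod (mt k fun _ : σ => 0))
      (e := fun _ x => x) (g := fun _ x => x)
      ⟨fun _ x p => p.1, fun _ _ _ _ _ _ _ r => r⟩
      ⟨fun _ x p => ⟨p, Fintype.sum_empty _⟩, fun _ _ _ _ _ _ _ r => r⟩
      (fun _ x _ => ?_) (fun _ _ _ => rfl) fun _ _ _ => rfl) (ss_prod hP (ss_mt _))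
    change (mn (fun _ => 0) fun l => a l x.1) * (∏ i, x.2 i ^ (0 : ℤ)) = 1
    simp [mn]
  have key : ∀ ⦃K⦄ (p : P.X K) (x : σ → K), P.L p → (∀ i, x i ≠ 0) →
      (∑ l, a l p * ∏ i, x i ^ m l i = 0 ↔ ∑ l : {l // l ≠ l₀},
        a l p / a l₀ p * mn (fun i => (m l i : ℤ) - m l₀ i) x + 1 = 0) := by
    intro K p x hp hx
    have a0 : a l₀ p ≠ 0 := ((ha l₀).live p hp).2
    have x0 : ∏ i, x i ^ m l₀ i ≠ 0 := Finset.prod_ne_zero_iff.2 fun i _ => pow_ne_zero _ (hx i)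
    rw [← mul_eq_zero_iff_left (mul_ne_zero a0 x0) (b := _ + 1), mul_add, mul_one, add_comm,
      Fintype.sum_eq_add_sum_subtype_ne _ l₀, Finset.mul_sum]
    refine iff_of_eq (congrArg (_ + · = 0) (Finset.sum_congr rfl fun l _ => ?_))
    simp only [mn, zpow_sub₀ (hx _), zpow_natCast, Finset.prod_div_distrib]
    field_simp
  refine .of_eqv (eqv_of_inv (S' := yo P (fun l : {l // l ≠ l₀} => fun _ p => a l p / a l₀ p)
      (fun l => reg_div P a ha l l₀) fun l i => (m l i : ℤ) - m l₀ i)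
    (e := fun _ x => x) (g := fun _ x => x)
    ⟨fun _ x p => ⟨p.1, (key _ _ p.1.1 p.1.2.2).1 p.2⟩, fun _ _ _ _ _ _ _ r => r⟩
    ⟨fun _ x p => ⟨p.1, (key _ _ p.1.1 p.1.2.2).2 p.2⟩, fun _ _ _ _ _ _ _ r => r⟩
    (fun _ _ _ => rfl) (fun _ _ _ => rfl) fun _ _ _ => rfl)
    (ss_yo _ _ _ _ (fun l => γ l) (fun i => ?_) (fun r hr => ?_) (H l₀))
  · have := Fintype.sum_eq_add_sum_subtype_ne (fun l => γ l * ((m l i : ℤ) - m l₀ i)) l₀
    rw [sub_self, mul_zero, zero_add] at this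
    rw [← this]
    simp only [mul_sub, Finset.sum_sub_distrib, ← Finset.sum_mul, h0, h1 i, zero_mul, sub_zero]
  · let s : Λ → ℤ := fun l => if t : l = l₀ then -∑ l, r l else r ⟨l, t⟩
    have s0 : s l₀ = -∑ l, r l := dif_pos rfl
    have s1 : ∀ l : {l // l ≠ l₀}, s l = r l := fun l => dif_neg l.2
    obtain ⟨u, v, hu, t⟩ := h s
      (by simp only [Fintype.sum_eq_add_sum_subtype_ne _ l₀, s0, s1, neg_add_cancel]) fun i => by
        have := hr i
        simp only [mul_sub, Finset.sum_sub_distrib, ← Finset.sum_mul] at this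
        simp only [Fintype.sum_eq_add_sum_subtype_ne _ l₀, s0, s1]
        linear_combination this
    exact ⟨u, v, hu, fun l => by rw [← t, s1]⟩

end Base

variable (g) in
/-- The open set where the parameter and all coefficients are invertible. -/
@[reducible] def uo : Pt k := (gm k).restr _ (polB g fun _ => 0).conv

omit [IsAlgClosed k] in
variable (g) in
theorem reg_uo (l : Λ) : (uo g).Reg (gm k) fun _ t => aeval t (g l) :=
  ⟨fun _ _ h => ⟨trivial, h.2 l⟩, fun _ _ φ _ _ _ _ r => rel_aeval φ r _⟩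

theorem uo_div [DecidableEq Λ] {K : Type} [Field K] {γ : Λ → ℤ} (h0 : ∑ l, γ l = 0) (l₀ : Λ)
    {a : Λ → K} (h : a l₀ ≠ 0) :
    mn (fun l : {l // l ≠ l₀} => γ l) (fun l => a l / a l₀) = mn γ a := by
  rw [mn, mn, ← prod_divM h0 a h, Fintype.prod_eq_mul_prod_subtype_ne _ l₀, div_self h, one_zpow,
    one_mul]

theorem uo_ext [DecidableEq Λ] (l₀ : Λ) (c : {l // l ≠ l₀} → ℤ) :
    ∃ c' : Λ → ℤ, ∑ l, c' l = 0 ∧ (fun l => -c l) = fun l : {l // l ≠ l₀} => c' l := by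
  refine ⟨fun l => if h : l = l₀ then ∑ l, c l else -c ⟨l, h⟩, ?_,
    funext fun l => by beta_reduce; rw [dif_neg l.2]⟩
  rw [Fintype.sum_eq_add_sum_subtype_ne _ l₀, dif_pos rfl,
    Finset.sum_congr rfl fun (l : {l // l ≠ l₀}) _ => dif_neg l.2, Finset.sum_neg_distrib,
    add_neg_cancel]

omit [IsAlgClosed k] [IsAlgClosed F] in
theorem uo_ws [DecidableEq Λ] {B : Bs k → Prop} (H : WAll k F B) {γ : Λ → ℤ} (h0 : ∑ l, γ l = 0)
    (h : ∀ l, γ l ≠ 0 → (γ l : k) ≠ 0) (l₀ : Λ) (hχ : χ.Prim) (c : {l // l ≠ l₀} → ℤ) :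
    WS B χ c fun l => γ l := by
  refine H χ _ c _ hχ (fun l => or_iff_not_imp_left.2 (h l)) (or_iff_not_imp_left.2 fun n => ?_)
  rw [Fintype.sum_eq_add_sum_subtype_ne _ l₀, add_eq_zero_iff_neg_eq] at h0
  rw [← h0, neg_eq_zero] at n
  rw [← h0, Int.cast_neg]
  exact neg_ne_zero.2 (h l₀ n)

omit [IsAlgClosed k] in
theorem uo_mon {γ : Λ → ℤ} {d : Λ → ℕ} (h : ∀ l, γ l ≠ 0 → ∃ c, g l = monomial (d l) c)
    (hg : ∀ l, g l ≠ 0) : ∃ κ : k, κ ≠ 0 ∧ ∀ (K : Fld k) (t : K), t ≠ 0 →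
      (mn γ fun l => aeval t (g l)) = algebraMap k K κ * t ^ ∑ l, γ l * d l := by
  refine ⟨mn γ fun l => (g l).leadingCoeff, mn_ne _ fun l => leadingCoeff_ne_zero.2 (hg l),
    fun K t ht => ?_⟩
  rw [mn, mn, map_prod, ← prod_zpow_sumM ht, ← Finset.prod_mul_distrib]
  refine Finset.prod_congr rfl fun l _ => ?_
  by_cases e : γ l = 0
  · rw [e, zero_mul, zpow_zero, zpow_zero, zpow_zero, map_one, one_mul]
  · obtain ⟨c, hc⟩ := h l e
    rw [hc, leadingCoeff_monomial, aeval_monomial, mul_zpow, map_zpow₀, mul_comm (γ l), zpow_mul,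
      zpow_natCast]

omit [IsAlgClosed F] in
theorem uo_pt {a : Λ → k} (ha : ∀ l, (unit k).Reg (gm k) fun K _ => algebraMap k K (a l))
    (c : Λ → ℤ) : SS (((unit k).wm _ ha c).E χ) :=
  ss_point (fun _ => ()) (fun _ _ _ => trivial) (fun _ _ _ => rfl) (fun _ _ _ => trivial) (mn c a)
    fun K _ => by simp only [mn, map_prod, map_zpow₀]

theorem ss_uo (hg : ∀ l, g l ≠ 0) (c : Λ → ℤ) : SS (((uo g).wm _ (reg_uo g) c).E χ) := by
  have e : ∀ {K : Fld k} (x : Unit → K), mn (fun _ => 1) x = x () := fun x => by simp [mn]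
  refine .of_eqv (eqv_of_inv (S' := tm (fun _ : Unit => 0) (fun _ => 1) (polB g c))
    (e := fun _ t _ => t) (g := fun _ x => x ())
    ⟨fun _ t a => ⟨⟨fun _ => trivial, fun _ => a.1.2⟩,
      fun j => by beta_reduce; rw [e]; exact a.2 j⟩,
      fun _ _ _ _ _ _ _ r _ => r⟩
    ⟨fun _ x a => ⟨⟨trivial, a.1.2 ()⟩, fun j => by rw [← e x]; exact a.2 j⟩,
      fun _ _ _ _ _ _ _ r => r ()⟩
    (fun _ t _ => ?_) (fun _ _ _ => rfl) fun _ _ _ => rfl)
    (adm_cur.cur _ χ 0 1 (isCur_polB g c hg))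
  simp only [e, zpow_zero, Finset.prod_const_one, one_mul]

/-- Constant coefficients. -/
theorem ss_yp_pt (HP : WAll k F IsPt) (h : Circ b (fun _ => ()) m g) {a : Λ → k}
    (ha : ∀ l, (unit k).Reg (gm k) fun K _ => algebraMap k K (a l)) :
    SS ((yp (unit k) _ ha m).E (Chr.triv k F)) := by
  classical
  obtain ⟨γ, d, h0, h1, h2, h3, -⟩ := h.norm
  refine ss_yp _ _ ha h0 h1 h2 (uo_pt ha _) fun l₀ χ c hχ =>
    ss_zo_const _ _ _ (mn (fun l : {l // l ≠ l₀} => γ l) fun l => a l / a l₀) (fun K _ _ => ?_) ?_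
      (uo_ws HP h0 (fun l e => (h3 l e).1) l₀ hχ c)
  · simp only [mn, map_prod, map_zpow₀, map_div₀]
  · exact ss_point (fun _ => ()) (fun _ _ _ => trivial) (fun _ _ _ => rfl) (fun _ _ _ => trivial)
      (mn (fun l => -c l) fun l => a l / a l₀)
      fun K _ => by simp only [mn, map_prod, map_zpow₀, map_div₀]

/-- The open part of the line of parameters. -/
theorem ss_yp_uo (HP : WAll k F IsPt) (HC : b → WAll k F IsCur) (h : Circ b (fun _ => ()) m g)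
    (hg : ∀ l, g l ≠ 0) : SS ((yp (uo g) _ (reg_uo g) m).E (Chr.triv k F)) := by
  classical
  obtain ⟨γ, d, h0, h1, h2, h3, h4⟩ := h.norm
  obtain ⟨κ, κ0, hκ⟩ := uo_mon (fun l e => (h3 l e).2) hg
  refine ss_yp _ _ _ h0 h1 h2 (ss_uo hg _) fun l₀ χ c hχ => ?_
  obtain ⟨c', s0, hc⟩ := uo_ext l₀ c
  have e1 : ∀ {K : Fld k} {t : K}, (uo g).L t → (mn (fun l : {l // l ≠ l₀} => γ l)
      fun l => aeval t (g l) / aeval t (g l₀)) = algebraMap k K κ * t ^ ∑ l, γ l * d l :=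
    fun a => (uo_div h0 l₀ (a.2 l₀)).trans (hκ _ _ a.1.2)
  have e2 : ∀ {K : Fld k} {t : K}, (uo g).L t → (mn (fun l => -c l)
      fun l => aeval t (g l) / aeval t (g l₀)) = mn c' fun l => aeval t (g l) :=
    fun {_ t} a => hc ▸ uo_div (a := fun l => aeval t (g l)) s0 l₀ (a.2 l₀)
  rcases h4 with h4 | ⟨hb, h4⟩
  · refine ss_zo_const _ _ _ κ (fun K t a => ?_) (.of_eqv (eqv_of_inv
      (S' := (uo g).wm _ (reg_uo g) c') (e := fun _ t => t) (g := fun _ t => t)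
      ⟨fun _ _ a => a, fun _ _ _ _ _ _ _ r => r⟩ ⟨fun _ _ a => a, fun _ _ _ _ _ _ _ r => r⟩
      (fun _ _ a => (e2 a).symm) (fun _ _ _ => rfl) fun _ _ _ => rfl) (ss_uo hg c'))
      (uo_ws HP h0 (fun l e => (h3 l e).1) l₀ hχ c)
    rw [e1 a, h4, zpow_zero, mul_one]
  simp only [h4, zpow_one] at e1
  have n : ∀ K : Fld k, algebraMap k K κ ≠ 0 := fun K => (_root_.map_ne_zero _).2 κ0
  have e3 : ∀ {K : Fld k} {t : K} {u : {l // l ≠ l₀} → K}, (uo g).L t →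
      (mn (fun l : {l // l ≠ l₀} => γ l) u = mn (fun l : {l // l ≠ l₀} => γ l)
        fun l => aeval t (g l) / aeval t (g l₀)) →
      algebraMap k K κ⁻¹ * mn (fun l : {l // l ≠ l₀} => γ l) u = t := fun a e => by
    rw [e, e1 a, map_inv₀, inv_mul_cancel_left₀ (n _)]
  refine .of_eqv (eqv_of_inv (S' := vv (fun _ => 1) c (fun l => γ l)
      ((polB g c').scale κ⁻¹ (inv_ne_zero κ0))) (e := fun _ x => x.2)
    (g := fun K u => (algebraMap k K κ⁻¹ * mn (fun l : {l // l ≠ l₀} => γ l) u, u))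
    ⟨fun _ x a => ⟨a.1.2, ?_⟩, fun _ _ _ _ _ _ _ r => r.2⟩
    ⟨fun K u a => ?_, fun _ _ φ _ _ _ b r => ⟨(φ.alg _).mul (rel_mn _ r b.1.1.2), r⟩⟩
    (fun _ x a => ?_) (fun _ x a => Prod.ext (e3 a.1.1 a.2) rfl) fun _ _ _ => rfl)
    (uo_ws (HC hb) h0 (fun l e => (h3 l e).1) l₀ hχ c _ (fun _ => one_ne_zero) _
      ((adm_cur (F := F)).scale _ _ _ (isCur_polB g c' hg)))
  · change ∀ j, aeval (algebraMap k _ κ⁻¹ * _) (g j) ≠ 0
    rw [e3 a.1.1 a.2]
    exact a.1.1.2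
  · have l : (uo g).L (algebraMap k K κ⁻¹ * mn (fun l : {l // l ≠ l₀} => γ l) u) :=
      ⟨⟨trivial, mul_ne_zero ((_root_.map_ne_zero _).2 (inv_ne_zero κ0)) (mn_ne _ a.1.1.2)⟩,
        a.2⟩
    refine ⟨⟨l, a.1⟩, ((e1 l).trans ?_).symm⟩
    rw [map_inv₀, mul_inv_cancel_left₀ (n _)]
  · change mn c x.2 * (mn c' fun j => aeval (algebraMap k _ κ⁻¹ * _) (g j)) =
      mn c fun m => x.2 m / (aeval x.1 (g m) / aeval x.1 (g l₀))
    rw [e3 a.1.1 a.2, ← e2 a.1.1, mn, mn, mn, ← Finset.prod_mul_distrib]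
    exact Finset.prod_congr rfl fun i _ => by rw [zpow_neg, ← div_eq_mul_inv, ← div_zpow]

end

end Pool.Agent.Lib.MP_fc2ced_ag.T
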