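import Pool.Agent.Lib.MP_fc2ced_ag.G.Geo
import Pool.Agent.Lib.MP_fc2ced_ag.G.Two
import Pool.Agent.Lib.MP_fc2ced_ag.G.Mon
import Pool.Agent.Lib.MP_fc2ced_ag.G.Tw

/-! Charts for the flags of length two. -/

open CategoryTheory hiding forget
open Function Polynomial Matrix

namespace Pool.Agent.Lib.MP_fc2ced_ag.T.G

open K

noncomputable section

variable {k : Type} [Field k] {F : Type} [Field F] {χ : Chr k F}

open Pt Place

section Sc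
variable {K : Type} [Field K] {n : ℕ} [NeZero n] {a : Fin n} {r : K} {p q : Fin n → K}

theorem ga_wr_ne (h : r ≠ 0) (i : Fin n) : wr r i ≠ 0 := by
  unfold wr
  split_ifs
  exacts [h, one_ne_zero]

omit [NeZero n] in
theorem ga_sc1_one : sc1 a 1 p = p := funext fun i => by rw [sc1, one_mul, ite_self]

omit [NeZero n] in
theorem ga_sc1_inv (h : r ≠ 0) : sc1 a r⁻¹ (sc1 a r p) = p := funext fun i => by
  unfold sc1
  split_ifs
  exacts [inv_mul_cancel_left₀ h _, rfl]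

omit [NeZero n] in
theorem ga_prod_sc1 (c : Fin n → ℤ) :
    ∏ i, sc1 a r p i ^ c i = (∏ i, p i ^ c i) * r ^ c a := by
  rw [← Finset.prod_ite_eq_of_mem Finset.univ a (fun i => r ^ c i) (Finset.mem_univ a),
    ← Finset.prod_mul_distrib]
  refine Finset.prod_congr rfl fun i _ => ?_
  unfold sc1
  by_cases h : i = a
  · rw [if_pos h, if_pos h.symm, mul_zpow, mul_comm]
  · rw [if_neg h, if_neg (Ne.symm h), mul_one]

/-- The flag without intermediate members given by the coefficients. -/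
def gaFl (p q : Fin n → K) (m : ℕ) : Sp K := if m = 2 then solq p q else ⊥

theorem gaFl_two : gaFl p q 2 = solq p q := if_pos rfl

theorem gaFl_spec (hp : ∀ i, p i ≠ 0) (hq : ∀ i, q i ≠ 0) :
    Flag n 2 ∅ (gaFl p q) ∧ pU n (gaFl p q 2) = p ∧ qU n (gaFl p q 2) = q :=
  have e := fun i => Finset.notMem_empty (α := ℕ) i
  ⟨⟨(trel_solq hp hq).1, fun i h => (e i h).elim, fun i h => (e i h).elim,
    fun i h => (e i h).elim, fun i h => (e i h).elim, fun _ _ h => if_neg h⟩,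
    (trel_solq hp hq).2⟩

theorem gaFl_pU {x : ℕ → Sp K} (h : Flag n 2 ∅ x) : gaFl (pU n (x 2)) (qU n (x 2)) = x :=
  funext fun m => by
    unfold gaFl
    split_ifs with e
    · rw [e, (solq_pU h.trel).2.2]
    · exact (h.bot m (Finset.notMem_empty m) e).symm

end Sc

section Ite
variable {K K' : Fld k} {φ : Place K K'} {n : ℕ}

theorem ga_ite {c : Prop} [Decidable c] {a b : K} {a' b' : K'} (h : φ a a') (h' : φ b b') :
    φ (if c then a else b) (if c then a' else b') := by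
  split_ifs
  exacts [h, h']

theorem ga_rel_pU {U : Sp K} {U' : Sp K'} (h : φ.GR U U') (hU : TRel n 2 U) (hU' : TRel n 2 U') :
    (∀ i, φ (pU n U i) (pU n U' i)) ∧ ∀ i, φ (qU n U i) (qU n U' i) :=
  ⟨fun _ => (gr_dU h hU.1 hU'.1 _).inv (hU'.2 _), fun _ =>
    ((φ.one.neg.pow _).mul (h.coef hU.1 hU'.1 _ _)).div (gr_dU h hU.1 hU'.1 _) (hU'.2 _)⟩

end Ite

section Rel
variable {K K' : Fld k} {φ : Place K K'} {n : ℕ} [NeZero n] {p q : Fin n → K} {p' q' : Fin n → K'}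
  {l : K} {l' : K'} (hp : ∀ i, φ (p i) (p' i)) (hq : ∀ i, φ (q i) (q' i))
include hp hq

theorem rel_Mq (hl : φ l l') (h0 : l' ≠ 0) (i j : Fin n ⊕ Fin n) :
    φ (Mq p q l i j) (Mq p' q' l' i j) := by
  rcases i with i | i <;> rcases j with j | j
  · exact ga_ite φ.one.neg φ.zero
  · exact (ga_ite φ.one φ.zero).sub (ga_ite (ga_ite hl φ.one) φ.zero)
  · exact (ga_ite (hp _) φ.zero).sub
      (ga_ite ((hq _).div (ga_ite hl φ.one) (ga_wr_ne h0 _)) φ.zero)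
  · exact ga_ite φ.one.neg φ.zero

theorem rel_lp (hl : φ l l') (h0 : l' ≠ 0) (p0 : ∀ i, p' i ≠ 0) :
    φ (lp p q l) (lp p' q' l') :=
  (Place.prod fun i _ => (hq i).div (hp i) (p0 i)).div hl h0

theorem rel_qd2 (hl : φ l l') (h0 : l' ≠ 0) (p0 : ∀ i, p' i ≠ 0) :
    φ.PR (qd2 p q l) (qd2 p' q' l') :=
  (PR.X.sub (.C hl)).mul (PR.X.sub (.C (rel_lp hp hq hl h0 p0)))

theorem rel_omq (p0 : ∀ i, p' i ≠ 0) (i : Fin n ⊕ Fin n) : φ (omq p q i) (omq p' q' i) := by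
  rcases i with i | i
  · exact Place.prod (s := Finset.univ.filter (· < i)) fun j _ => (hq j).div (hp j) (p0 j)
  · exact (Place.prod fun j _ => (hq j).div (hp j) (p0 j)).div (hp i) (p0 i)

theorem gr_solq (p0 : ∀ i, p' i ≠ 0) (q0 : ∀ i, q' i ≠ 0) : φ.GR (solq p q) (solq p' q') :=
  CR.sol (fun _ _ => ga_ite φ.one (ga_ite (((φ.one.sub (hp _)).sub (hq _)).div (hp _) (p0 _))
      (ga_ite ((hq _).div (hp _) (p0 _)) φ.zero)))
    (band_gq (fun i => (hp i).ne_zero (p0 i)) fun i => (hq i).ne_zero (q0 i)) (band_gq p0 q0)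

theorem rel_chi_solq (p0 : ∀ i, p' i ≠ 0) (q0 : ∀ i, q' i ≠ 0) :
    φ.PR (chi n (solq p q)) (chi n (solq p' q')) :=
  (gr_solq hp hq p0 q0).chi
    (band_gq (fun i => (hp i).ne_zero (p0 i)) fun i => (hq i).ne_zero (q0 i)).stab

theorem gr_gaFl (p0 : ∀ i, p' i ≠ 0) (q0 : ∀ i, q' i ≠ 0) (m : ℕ) :
    φ.GR (gaFl p q m) (gaFl p' q' m) := by
  unfold gaFl
  split_ifs
  exacts [gr_solq hp hq p0 q0, GR.bot]

/-- An eigenvalue has an invertible limit. -/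
theorem ga_lim (p0 : ∀ i, p' i ≠ 0) (q0 : ∀ i, q' i ≠ 0) (hl : l ≠ 0)
    (e : chi n (solq p q) = qd2 p q l) : ∃ l', φ l l' ∧ l' ≠ 0 := by
  have h := rel_chi_solq hp hq p0 q0
  obtain ⟨a, ha⟩ := h.exists_root (chi_monic _) (a := l) (by simp [e, qd2])
  obtain ⟨b, hb⟩ := h.exists_root (chi_monic _) (a := lp p q l) (by simp [e, qd2])
  refine ⟨a, ha, left_ne_zero_of_mul (b := b) ?_⟩
  rw [(ha.mul hb).eq_of (Place.prod fun i _ => (hq i).div (hp i) (p0 i)) (mul_div_cancel₀ _ hl)]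
  exact Finset.prod_ne_zero_iff.2 fun i _ => div_ne_zero (q0 i) (p0 i)

end Rel

variable (k) (n : ℕ) [Ex n] (s : ℕ)

/-- Flags with the characteristic polynomials of their members. -/
@[reducible] def Z0 (w : ℕ) (I : Finset ℕ) : PV k where
  S := Zs k n s w I
  c _ x m := chi n (x m)
  hc m _ _ _ _ _ a _ h := (h m).chi (a.stab' m).1

/-- The coefficients of the recurrences of order two. -/
@[reducible] def pq : Pt k := (mt k (Ex.b (n := n))).prod (mt k fun i => Ex.a (pr n (s + 1) i))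

/-- The coefficients and an eigenvalue. -/
@[reducible] def pql : Pt k := (pq k n s).prod (gm k)

theorem reg_Mq (i j : Fin n ⊕ Fin n) : (pql k n s).RegF fun _ x => Mq x.1.1 x.1.2 x.2 i j :=
  fun _ _ _ _ _ _ b r => rel_Mq r.1.1 r.1.2 r.2 b.2.2 i j

theorem reg_qd2 : (pql k n s).RegP fun _ x => qd2 x.1.1 x.1.2 x.2 :=
  fun _ _ _ _ _ _ b r => rel_qd2 r.1.1 r.1.2 r.2 b.2.2 b.1.1.2

theorem closed_Fb : ((pql k n s).prod (nrmV k (.inl 0 : Fin n ⊕ Fin n))).Closed fun _ x =>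
    Mq x.1.1.1 x.1.1.2 x.1.2 *ᵥ x.2 = 0 := fun _ _ φ _ _ a b r e => funext fun i =>
  (Place.sum (s := Finset.univ) fun j _ =>
    (reg_Mq k n s i j φ _ _ a.1 b.1 r.1).mul (r.2 j)).eq_of φ.zero (congrFun e i)

/-- Points `(((p, q), l), c)` with `M c = 0`. -/
@[reducible] def Fb : PV k where
  S := ((pql k n s).prod (nrmV k (.inl 0 : Fin n ⊕ Fin n))).restr _ (closed_Fb k n s).conv
  c _ x _ := qd2 x.1.1.1 x.1.1.2 x.1.2
  hc _ _ _ φ _ _ a b r := reg_qd2 k n s φ _ _ a.1.1 b.1.1 r.1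

theorem open_Fb : (Fb k n s).S.Open fun _ x => Dm (.inl 0) (Mq x.1.1.1 x.1.1.2 x.1.2) :=
  fun _ _ φ _ _ a b r => Dm.gen fun i j _ _ => reg_Mq k n s i j φ _ _ a.1.1 b.1.1 r.1

/-- The open part where the minor is invertible. -/
@[reducible] def Fb' : PV k where
  S := (Fb k n s).S.restr _ (open_Fb k n s).conv
  c _ x _ := qd2 x.1.1.1 x.1.1.2 x.1.2
  hc _ _ _ φ _ _ a b r := reg_qd2 k n s φ _ _ a.1.1.1 b.1.1.1 r.1

theorem open_Yb : (pq k n s).Open fun _ x => Dm (.inl 0) (Mq x.1 x.2 1) :=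
  fun _ _ φ _ _ _ _ r => Dm.gen fun i j _ _ => rel_Mq r.1 r.2 φ.one one_ne_zero i j

/-- The recurrences for which the minor is invertible. -/
@[reducible] def Yb : PV k where
  S := (pq k n s).restr _ (open_Yb k n s).conv
  c _ x _ := chi n (solq x.1 x.2)
  hc _ _ _ _ _ _ _ b r := rel_chi_solq r.1 r.2 b.1.1.2 b.1.2.2

variable {k}

/-- The coefficients of the top member of a flag. -/
def bP ⦃K : Fld k⦄ (x : ℕ → Sp K) : (Fin n → K) × (Fin n → K) := (pU n (x 2), qU n (x 2))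

/-- The coordinates of a full flag. -/
def eP ⦃K : Fld k⦄ (x : ℕ → Sp K) : (((Fin n → K) × (Fin n → K)) × K) × (Fin n ⊕ Fin n → K) :=
  ((bP n x, ev1 n (x 1)), nv n (x 1))

variable (k)

namespace EP

section Alg
variable {n : ℕ} {K : Type} [Field K] {W : Sp K} {z : Sq K} {p : Fin n → K} {r : K}

theorem nv_eq (h : Module.finrank K W = 1) (hz : z ∈ W) (e : z 1 - z 0 = 1) :
    nv n W = cv n z := by
  have h' : ∃ y ∈ W, y 1 - y 0 = 1 := ⟨z, hz, e⟩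
  have n0 : (⟨z, hz⟩ : W) ≠ 0 := fun k => by
    rw [show z = 0 from congrArg Subtype.val k] at e
    simp at e
  obtain ⟨c, hc⟩ := (finrank_eq_one_iff_of_nonzero' _ n0).1 h ⟨_, h'.choose_spec.1⟩
  have hc' : c • z = h'.choose := congrArg Subtype.val hc
  have h1 := h'.choose_spec.2
  rw [← hc', Pi.smul_apply, Pi.smul_apply, ← smul_sub, e, smul_eq_mul, mul_one] at h1
  rw [nv, dif_pos h', ← hc', h1, one_smul]

theorem sc1_ne (a : Fin n) (hr : r ≠ 0) (hp : ∀ i, p i ≠ 0) (i : Fin n) : sc1 a r p i ≠ 0 := by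
  unfold sc1
  split_ifs
  exacts [mul_ne_zero hr (hp i), hp i]

theorem sc1_one (a : Fin n) : sc1 a 1 p = p := funext fun i => by simp [sc1]

theorem sc1_inv (a : Fin n) (hr : r ≠ 0) : sc1 a r⁻¹ (sc1 a r p) = p := funext fun i => by
  unfold sc1
  split_ifs
  exacts [inv_mul_cancel_left₀ hr _, rfl]

theorem prod_sc1 (a : Fin n) (b : Fin n → ℤ) :
    ∏ i, sc1 a r p i ^ b i = (∏ i, p i ^ b i) * r ^ b a := by
  have h (i : Fin n) : sc1 a r p i ^ b i = p i ^ b i * if i = a then r ^ b i else 1 := by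
    unfold sc1
    split_ifs
    exacts [(mul_zpow _ _ _).trans (mul_comm _ _), (mul_one _).symm]
  simp only [h, Finset.prod_mul_distrib, Finset.prod_ite_eq', Finset.mem_univ, if_true]

end Alg

section Rel
variable {k} {n : ℕ} {K K' : Fld k} {φ : Place K K'} {U : Sp K} {U' : Sp K'}

theorem rel_pU (h : φ.GR U U') (hU : TRel n 2 U) (hU' : TRel n 2 U') (i : Fin n) :
    φ (pU n U i) (pU n U' i) := (gr_dU h hU.1 hU'.1 _).inv (hU'.2 _)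

theorem rel_qU (h : φ.GR U U') (hU : TRel n 2 U) (hU' : TRel n 2 U') (i : Fin n) :
    φ (qU n U i) (qU n U' i) :=
  ((φ.one.neg.pow _).mul (h.coef hU.1 hU'.1 _ _)).div (gr_dU h hU.1 hU'.1 _) (hU'.2 _)

theorem rel_sc1 (a : Fin n) {r : K} {r' : K'} {p : Fin n → K} {p' : Fin n → K'} (hr : φ r r')
    (hp : ∀ i, φ (p i) (p' i)) (i : Fin n) : φ (sc1 a r p i) (sc1 a r' p' i) := by
  unfold sc1
  split_ifs
  exacts [hr.mul (hp i), hp i]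

theorem rel_nv (h : φ.GR U U') (h1 : Module.finrank K' U' = 1) (e : ∃ y ∈ U', y 1 - y 0 ≠ 0)
    (i : Fin n ⊕ Fin n) : φ (nv n U i) (nv n U' i) ∧ ∃ y ∈ U, y 1 - y 0 ≠ 0 := by
  have h2 := h.finrank.symm.trans h1
  obtain ⟨d, y, y', hv, rfl, rfl, -⟩ := h
  obtain ⟨a, ha⟩ : ∃ a, y' a 1 - y' a 0 ≠ 0 := by
    by_contra! c
    obtain ⟨z, hz, e⟩ := e
    obtain ⟨t, rfl⟩ := (Submodule.mem_span_range_iff_exists_fun K').1 hz
    refine e ?_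
    simp only [Finset.sum_apply, Pi.smul_apply, ← Finset.sum_sub_distrib, ← smul_sub, c, smul_zero,
      Finset.sum_const_zero]
  have r := (hv a 1).sub (hv a 0)
  have hb := r.ne_zero ha
  have v := VR.smul (r.inv ha) (hv a)
  refine ⟨?_, y a, Submodule.subset_span ⟨a, rfl⟩, hb⟩
  rw [nv_eq h2 (Submodule.smul_mem _ (y a 1 - y a 0)⁻¹ (Submodule.subset_span ⟨a, rfl⟩))
      (by rw [Pi.smul_apply, Pi.smul_apply, ← smul_sub, smul_eq_mul, inv_mul_cancel₀ hb]),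
    nv_eq h1 (Submodule.smul_mem _ (y' a 1 - y' a 0)⁻¹ (Submodule.subset_span ⟨a, rfl⟩))
      (by rw [Pi.smul_apply, Pi.smul_apply, ← smul_sub, smul_eq_mul, inv_mul_cancel₀ ha])]
  rcases i with i | i
  exacts [(v _).sub (v _), v _]

end Rel

variable {k n s} {K : Fld k}

theorem live_iff {x : ℕ → Sp K} (h : Flag n 2 (Finset.Ioo 0 2) x) :
    (Fb k n s).S.L (eP n x) ↔ nv n (x 1) (.inl 0) = 1 :=
  ⟨fun a => a.1.2.2, fun a => ⟨⟨⟨⟨⟨fun _ => trivial, (solq_pU h.trel).1⟩,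
    fun _ => trivial, (solq_pU h.trel).2.1⟩, trivial, (ev1_spec h).1⟩, fun _ => trivial, a⟩,
    (nv_spec h a).1⟩⟩

/-- The inverse of the chart. -/
def iv ⦃K : Fld k⦄ (y : (((Fin n → K) × (Fin n → K)) × K) × (Fin n ⊕ Fin n → K)) : ℕ → Sp K :=
  flq y.1.1.1 y.1.1.2 y.1.2 y.2

theorem iv_spec {y : (Fb k n s).S.X K} (h : (Fb k n s).S.L y) :
    Flag n 2 (Finset.Ioo 0 2) (iv y) ∧ eP n (iv y) = y := by
  obtain ⟨h1, h2, h3, h4⟩ := flq_spec h.1.1.1.1.2 h.1.1.1.2.2 h.1.1.2.2 h.1.2.2 h.2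
  obtain ⟨-, h5, h6⟩ := trel_solq h.1.1.1.1.2 h.1.1.1.2.2
  exact ⟨h1, Prod.ext (Prod.ext (Prod.ext ((congrArg (pU n) h2).trans h5)
    ((congrArg (qU n) h2).trans h6)) h3) h4⟩

theorem iv_eP {x : ℕ → Sp K} (h : Flag n 2 (Finset.Ioo 0 2) x) (l : (Fb k n s).S.L (eP n x)) :
    iv (eP n x) = x := (nv_spec h l.1.2.2).2

end EP

theorem pmap_eP : PMap (Z0 k n s 2 (Finset.Ioo 0 2)) (Fb k n s) {2} (eP n) := by
  have o : 1 ∈ Finset.Ioo 0 2 := by simp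
  refine ⟨IsMap.of_open (fun _ _ φ x y a b h hy => (EP.live_iff a).2 ((nv_iff a).2
      (EP.rel_nv (n := n) (h 1) (b.rank 1 o) ((nv_iff b).1 hy.1.2.2) (.inl 0)).2))
    (IsMap.of_inv (g := EP.iv) ⟨fun _ x a => a.2, fun _ _ φ x y a b h =>
      ⟨⟨⟨EP.rel_pU (h 2) a.1.trel b.1.trel, EP.rel_qU (h 2) a.1.trel b.1.trel⟩,
        ((h 1).chi (a.1.stab 1 o) 0).neg⟩,
        fun i => (EP.rel_nv (h 1) (b.1.rank 1 o) ((nv_iff b.1).1 b.2.1.2.2) i).1⟩⟩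
      ⟨fun _ y b => ⟨(EP.iv_spec b).1, (congrArg (@Pt.L _ _ (Fb k n s).S _) (EP.iv_spec b).2).mpr b⟩,
        fun K K' φ x y a b h m => ?_⟩
      (fun _ x a => ?_) fun _ x a => EP.iv_eP a.1 a.2), fun _ x a b m hm => ?_⟩
  · have h1 := (EP.iv_spec b).1.rank 1 o
    unfold EP.iv flq at h1 ⊢
    split_ifs
    · rw [if_pos rfl] at h1
      have := GR.mk' (φ := φ) (y := fun _ : Unit => sqc x.1.2 x.2) (y' := fun _ => sqc y.1.2 y.2)
        (fun _ t => (h.2 _).mul (rel_zpow h.1.2 b.1.1.2.2 _))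
        (linearIndependent_unique_iff.2 fun e => by
          rw [e, Submodule.span_zero_singleton, finrank_bot] at h1
          exact zero_ne_one h1)
      rwa [Set.range_const, Set.range_const] at this
    · exact gr_solq h.1.1.1 h.1.1.2 b.1.1.1.1.2 b.1.1.1.2.2
    · exact GR.bot
  · change (∏ i, pU n (x 2) i ^ Ex.b i) * (∏ i, qU n (x 2) i ^ Ex.a (pr n (s + 1) i)) * 1 *
      ∏ _ : Fin n ⊕ Fin n, 1 = fU n s 2 (x 2)
    rw [fU_two, Finset.prod_const_one, mul_one, mul_one]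
  · obtain rfl : m = 2 := hm
    exact (ev1_spec a).2.symm

theorem ga_reg_bP (I : Finset ℕ) : (Zs k n s 2 I).Reg (pq k n s) (bP n) :=
  ⟨fun _ _ a => ⟨⟨fun _ => trivial, (solq_pU a.trel).1⟩, fun _ => trivial, (solq_pU a.trel).2.1⟩,
    fun _ _ _ _ _ a b r => ga_rel_pU (r 2) a.trel b.trel⟩

theorem pmap_bP : PMap (Z0 k n s 2 ∅) (Yb k n s) {2} (bP n) := by
  have R := ga_reg_bP k n s ∅
  refine ⟨.of_open (fun _ _ φ x y a b r h =>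
      ⟨R.live x a, R.open (open_Yb k n s) φ x y a b r h.2⟩)
    (.of_inv (g := fun _ y => gaFl y.1 y.2)
      ⟨fun _ _ a => a.2, fun _ _ φ x y a b r => R.reg φ x y a.1 b.1 r⟩
      ⟨fun _ y a => ?_, fun _ _ _ _ _ _ b r => gr_gaFl r.1 r.2 b.1.1.2 b.1.2.2⟩
      (fun _ _ _ => (fU_two s _).symm) fun _ _ a => gaFl_pU a.1), fun _ x a _ m hm => ?_⟩
  · have h := gaFl_spec a.1.1.2 a.1.2.2
    have e : bP n (gaFl y.1 y.2) = y := Prod.ext h.2.1 h.2.2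
    exact ⟨h.1, (congrArg (fun z => (Yb k n s).S.L z) e).mpr a⟩
  · obtain rfl : m = 2 := hm
    exact congrArg (chi n) (solq_pU a.trel).2.2

theorem pmap_res : PMap (Fb k n s) (Fb' k n s) {2} fun _ x => x :=
  ⟨isMap_open (open_Fb k n s), fun _ _ _ _ _ _ => rfl⟩

theorem ga_chi_Fb {K : Fld k} {x : (Fb k n s).S.X K} (a : (Fb k n s).S.L x) :
    chi n (solq x.1.1.1 x.1.1.2) = qd2 x.1.1.1 x.1.1.2 x.1.2 :=
  (chi_solq_iff a.1.1.1.1.2 a.1.1.1.2.2 a.1.1.2.2).2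
    ⟨x.2, fun e => one_ne_zero (a.1.2.2.symm.trans (congrFun e _)), a.2⟩

theorem pmap_q0 : PMap (Fb' k n s) (Yb k n s) {2} fun _ x => x.1.1 := by
  refine ⟨.of_proper ⟨fun _ _ a => ⟨a.1.1.1.1, (Dm_iff _ _).1 a.2⟩, fun _ _ _ _ _ _ _ r => r.1.1⟩
    (fun _ x _ => ?_) fun _ _ φ x z a b r => ?_, fun _ _ a _ _ _ => ga_chi_Fb k n s a.1⟩
  · change _ = _ * 1 * ∏ _ : Fin n ⊕ Fin n, 1
    rw [Finset.prod_const_one, mul_one, mul_one]
  · obtain ⟨l, hl, h0⟩ := ga_lim r.1 r.2 b.1.1.2 b.1.2.2 a.1.1.1.2.2 (ga_chi_Fb k n s a.1)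
    have d := (Dm_iff _ l).1 b.2
    obtain ⟨c, hc⟩ := d.exists_spec (rel_Mq r.1 r.2 hl h0) a.1.1.2.2 fun i _ => congrFun a.1.2 i
    have lv : ((pql k n s).prod (nrmV k (.inl 0 : Fin n ⊕ Fin n))).L ((z, l), c) :=
      ⟨⟨b.1, trivial, h0⟩, fun _ => trivial, (hc _).eq_of φ.one a.1.1.2.2⟩
    exact ⟨((z, l), c), ⟨⟨lv, closed_Fb k n s φ x _ a.1.1 lv ⟨⟨r, hl⟩, hc⟩ a.1.2⟩, d⟩, ⟨r, hl⟩, hc⟩

theorem pmap_forget0 : PMap (Z0 k n s 2 (Finset.Ioo 0 2)) (Z0 k n s 2 ∅) {2}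
    fun _ x => forget 2 ∅ x :=
  have h := (T.pmap_forget (k := k) (n := n) (w := 2) (Finset.empty_subset (Finset.Ioo 0 2))).map
  ⟨⟨fun _ _ _ _ => congrArg (fU n s 2) forget_top, h.sp, h.dead⟩,
    fun _ _ _ _ _ hm => congrArg (chi n) (if_pos (.inr hm))⟩

theorem ga_pmap_q1 : PMap (Fb k n s) (Yb k n s) {2} fun _ x => x.1.1 :=
  ⟨(pmap_res k n s).map.comp (pmap_q0 k n s).map fun _ _ a b => ⟨a, (Dm_iff _ _).1 b.2⟩,
    fun _ _ a _ _ _ => ga_chi_Fb k n s a⟩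

variable {k n}

theorem uu_eP (hχ : Gen χ n) :
    UU χ (Z0 k n s 2 (Finset.Ioo 0 2)) (Fb k n s) {2} (eP n) := by
  intro P T hT
  have m := (pmap_eP k n s).over hT
  have lv : ∀ ⦃K⦄ (x : ((Z0 k n s 2 (Finset.Ioo 0 2)).over T).X K),
      ((Z0 k n s 2 (Finset.Ioo 0 2)).over T).L x →
      (((Fb k n s).over T).L (eP n x.1, x.2) ↔ nv n (x.1 1) (.inl 0) = 1) := fun _ x a =>
    ⟨fun b => b.1.1.1.2.2, fun b => have l := (EP.live_iff a.1.1).2 b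
      ⟨⟨l, a.1.2⟩, ((pmap_eP k n s).cond hT a.1.1 l).1 a.2⟩⟩
  rw [ov, m.hm_eq]
  refine m.uiso (fun _ _ φ x y a b r nx ly => nx ((m.sp φ x y a b r).1 ly).1)
    (Flow.uzero (hχ 0 (pr n (s + 1) (-1))) (τ := fun _ r x => (update x.1 2
      (solq (sc1 0 r (pU n (x.1 2))) (sc1 (-1) r (qU n (x.1 2)))), x.2)) ⟨?_, ?_, ?_, ?_, ?_⟩)
    (fun _ x x' a a' l e => Prod.ext ?_ (Prod.mk.inj e).2) fun _ y b => ?_
  · rintro K r ⟨x, p⟩ hr ⟨a, nl⟩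
    obtain ⟨h1, h2⟩ := flag_sc a.1.1 (fun e => nl ((lv _ a).2 e)) hr
    refine ⟨⟨⟨h1, a.1.2⟩, hT _ _ _ (fun j hj => ?_) a.2⟩,
      fun l => nl ((lv _ a).2 l.1.1.1.2.2)⟩
    obtain rfl : j = 2 := hj
    exact h2.symm
  · rintro K ⟨x, p⟩ ⟨a, -⟩
    rw [EP.sc1_one, EP.sc1_one, (solq_pU a.1.1.trel).2.2, update_eq_self]
  · rintro K r ⟨x, p⟩ hr ⟨a, -⟩
    obtain ⟨h1, h2, h3⟩ := solq_pU a.1.1.trel
    obtain ⟨-, h4, h5⟩ := trel_solq (EP.sc1_ne 0 hr h1) (EP.sc1_ne (-1) hr h2)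
    refine Prod.ext ?_ rfl
    simp only [update_self, update_idem]
    rw [h4, h5, EP.sc1_inv _ hr, EP.sc1_inv _ hr, h3, update_eq_self]
  · rintro K r ⟨x, p⟩ hr ⟨a, -⟩
    obtain ⟨h1, h2, -⟩ := solq_pU a.1.1.trel
    obtain ⟨-, h4, h5⟩ := trel_solq (EP.sc1_ne 0 hr h1) (EP.sc1_ne (-1) hr h2)
    change fU n s 2 (solq (sc1 0 r (pU n (x 2))) (sc1 (-1) r (qU n (x 2)))) * P.f p =
      fU n s 2 (x 2) * P.f p * _
    rw [fU_two, fU_two, h4, h5, EP.prod_sc1, EP.prod_sc1, zpow_add₀ hr]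
    ring
  · rintro K K' φ r r' ⟨x, p⟩ ⟨y, q⟩ hr h0 ⟨a, -⟩ ⟨b, -⟩ ⟨h, h'⟩
    refine ⟨fun j => ?_, h'⟩
    obtain ⟨h1, h2, -⟩ := solq_pU b.1.1.trel
    rcases eq_or_ne j 2 with rfl | e
    · exact gr_solq (EP.rel_sc1 _ hr (EP.rel_pU (h 2) a.1.1.trel b.1.1.trel))
        (EP.rel_sc1 _ hr (EP.rel_qU (h 2) a.1.1.trel b.1.1.trel)) (EP.sc1_ne _ h0 h1)
        (EP.sc1_ne _ h0 h2)
    · simpa only [update_of_ne e] using h j
  · have e1 : eP n x.1 = eP n x'.1 := (Prod.mk.inj e).1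
    rw [← EP.iv_eP a.1.1 l.1.1, e1, EP.iv_eP a'.1.1 (e1 ▸ l.1.1)]
  · obtain ⟨h1, h2⟩ := EP.iv_spec b.1.1
    have l : (Fb k n s).S.L (eP n (EP.iv y.1)) := h2.symm ▸ b.1.1
    exact ⟨(EP.iv y.1, y.2), ⟨⟨h1, b.1.2⟩, ((pmap_eP k n s).cond hT h1 l).2 (h2.symm ▸ b.2)⟩,
      Prod.ext h2 rfl⟩

theorem uu_bP (hχ : Gen χ n) : UU χ (Z0 k n s 2 ∅) (Yb k n s) {2} (bP n) := by
  intro P T hT
  have pm := pmap_bP k n s
  have h := pm.over hT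
  have key : ∀ ⦃K : Fld k⦄ (x : ℕ → Sp K) (p : P.X K), ((Z0 k n s 2 ∅).over T).L (x, p) →
      (((Yb k n s).over T).L (bP n x, p) ↔ Dm (.inl 0) (Mq (pU n (x 2)) (qU n (x 2)) 1)) :=
    fun _ x _ a => ⟨fun b => b.1.1.2, fun d =>
      have m : (Yb k n s).S.L (bP n x) := ⟨(ga_reg_bP k n s ∅).live x a.1.1, d⟩
      ⟨⟨m, a.1.2⟩, (pm.cond hT a.1.1 m).1 a.2⟩⟩
  rw [ov, h.hm_eq]
  refine h.uiso (fun _ _ φ x y a b r c l => c ((h.sp φ x y a b r).1 l).1)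
    (Flow.uzero (hχ 0 (pr n (s + 1) (-1))) (τ := fun _ r x =>
      (gaFl (sc1 0 r (pU n (x.1 2))) (sc1 (-1) r (qU n (x.1 2))), x.2)) ⟨?_, ?_, ?_, ?_, ?_⟩)
    (fun _ x y a b _ e => ?_) fun _ y a => ?_
  · rintro K r ⟨x, p⟩ hr ⟨a, nd⟩
    obtain ⟨h1, h2, h3⟩ := solq_pU a.1.1.trel
    obtain ⟨g1, g2, g3⟩ := gaFl_spec (sc1_ne (a := 0) hr h1) (sc1_ne (a := -1) hr h2)
    have d := fun e => nd ((key x p a).2 e)
    have l : ((Z0 k n s 2 ∅).over T).L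
        (gaFl (sc1 0 r (pU n (x 2))) (sc1 (-1) r (qU n (x 2))), p) :=
      ⟨⟨g1, a.1.2⟩, hT _ _ _ (fun m hm => by
        obtain rfl : m = 2 := hm
        exact ((chi_sc h1 h2 hr d).trans (congrArg (chi n) h3)).symm) a.2⟩
    refine ⟨l, fun b => d ?_⟩
    have := (key _ p l).1 b
    rwa [g2, g3, Dm_sc] at this
  · rintro K ⟨x, p⟩ ⟨a, -⟩
    rw [ga_sc1_one, ga_sc1_one, gaFl_pU a.1.1]
  · rintro K r ⟨x, p⟩ hr ⟨a, -⟩
    obtain ⟨h1, h2, -⟩ := solq_pU a.1.1.trel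
    obtain ⟨-, g2, g3⟩ := gaFl_spec (sc1_ne (a := 0) hr h1) (sc1_ne (a := -1) hr h2)
    dsimp only at g2 g3 ⊢
    rw [g2, g3, ga_sc1_inv hr, ga_sc1_inv hr, gaFl_pU a.1.1]
  · rintro K r ⟨x, p⟩ hr ⟨a, -⟩
    obtain ⟨h1, h2, -⟩ := solq_pU a.1.1.trel
    obtain ⟨-, g2, g3⟩ := gaFl_spec (sc1_ne (a := 0) hr h1) (sc1_ne (a := -1) hr h2)
    change fU n s 2 (gaFl _ _ 2) * P.f p = fU n s 2 (x 2) * P.f p * _
    rw [fU_two, fU_two, g2, g3, ga_prod_sc1, ga_prod_sc1, zpow_add₀ hr]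
    ring
  · rintro K K' φ r r' ⟨x, p⟩ ⟨y, q⟩ hr h0 ⟨a, -⟩ ⟨b, -⟩ ⟨c, c'⟩
    obtain ⟨h1, h2, -⟩ := solq_pU b.1.1.trel
    obtain ⟨g1, g2⟩ := ga_rel_pU (c 2) a.1.1.trel b.1.1.trel
    exact ⟨gr_gaFl (fun i => ga_ite (hr.mul (g1 i)) (g1 i)) (fun i => ga_ite (hr.mul (g2 i)) (g2 i))
      (sc1_ne h0 h1) (sc1_ne h0 h2), c'⟩
  · have e1 : pU n (x.1 2) = pU n (y.1 2) := congrArg (·.1.1) e
    have e2 : qU n (x.1 2) = qU n (y.1 2) := congrArg (·.1.2) e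
    refine Prod.ext ?_ (congrArg (·.2) e)
    rw [← gaFl_pU a.1.1, e1, e2, gaFl_pU b.1.1]
  · obtain ⟨g1, g2, g3⟩ := gaFl_spec a.1.1.1.1.2 a.1.1.1.2.2
    have e : bP n (gaFl y.1.1 y.1.2) = y.1 := Prod.ext g2 g3
    exact ⟨(gaFl y.1.1 y.1.2, y.2), ⟨⟨g1, a.1.2⟩,
      (pm.cond hT g1 (e.symm ▸ a.1.1)).2 (e.symm ▸ a.2)⟩, Prod.ext e rfl⟩

variable {P : Pt k} {T : PC P}

theorem sq_eP (W : Pt k) (hT : T.Dep {2}) :
    (ov χ ((Z0 k n s 2 (Finset.Ioo 0 2)).tw W) ((Z0 k n s 2 ∅).tw W) T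
      fun _ x => (forget 2 ∅ x.1, x.2)) ≫
      (ov χ ((Z0 k n s 2 ∅).tw W) ((Yb k n s).tw W) T fun _ x => (bP n x.1, x.2)) =
    (ov χ ((Z0 k n s 2 (Finset.Ioo 0 2)).tw W) ((Fb k n s).tw W) T fun _ x => (eP n x.1, x.2)) ≫
      (ov χ ((Fb k n s).tw W) ((Fb' k n s).tw W) T fun _ x => (x.1, x.2)) ≫
      ov χ ((Fb' k n s).tw W) ((Yb k n s).tw W) T fun _ x => (x.1.1.1, x.2) := by
  have e : ∀ ⦃K : Fld k⦄ (x : ℕ → Sp K), bP n (forget 2 ∅ x) = bP n x := fun _ _ =>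
    congrArg (fun U => (pU n U, qU n U)) forget_top
  refine (((pmap_forget0 k n s).tw W).ov_comm ((pmap_bP k n s).tw W) ((pmap_eP k n s).tw W)
    ((ga_pmap_q1 k n s).tw W) hT (fun _ x a => ⟨fun b => ?_, fun b => ?_⟩)
    fun _ x _ _ _ => Prod.ext (e x.1) rfl).trans (congrArg _
      (((pmap_res k n s).tw W).ov_comp ((pmap_q0 k n s).tw W) hT ((ga_pmap_q1 k n s).tw W)
        (fun _ _ a b => ⟨⟨a.1, (Dm_iff _ _).1 b.1.2⟩, a.2⟩) fun _ _ _ _ => rfl).symm)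
  · have c : (Yb k n s).S.L (bP n x.1) := e x.1 ▸ b.2.1
    have h1 := nv_of_Dm a.1 c.2
    exact ⟨⟨⟨⟨⟨c.1, trivial, (ev1_spec a.1).1⟩, fun _ => trivial, h1⟩, (nv_spec a.1 h1).1⟩, a.2⟩,
      c, a.2⟩
  · exact ⟨⟨a.1.forget_flag (Finset.empty_subset _), a.2⟩, (e x.1).symm ▸ b.2.1, a.2⟩

/-- The roof of flags is replaced by the roof in coordinates. -/
theorem kills_of_Fb (hχ : Gen χ n) (W : Pt k) (hT : T.Dep {2}) {A A₀ : Ob k F}
    {J : (((Fb k n s).tw W).over T).E χ ⟶ A} {w : A₀ ⟶ A}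
    (h : Kills J ((ov χ ((Fb k n s).tw W) ((Fb' k n s).tw W) T fun _ x => (x.1, x.2)) ≫
      ov χ ((Fb' k n s).tw W) ((Yb k n s).tw W) T fun _ x => (x.1.1.1, x.2)) w) :
    Kills ((ov χ ((Z0 k n s 2 (Finset.Ioo 0 2)).tw W) ((Fb k n s).tw W) T
        fun _ x => (eP n x.1, x.2)) ≫ J)
      (ov χ ((Z0 k n s 2 (Finset.Ioo 0 2)).tw W) ((Z0 k n s 2 ∅).tw W) T
        fun _ x => (forget 2 ∅ x.1, x.2)) w := by
  refine Kills.of_postcomp ((uu_bP s hχ).tw (pmap_bP k n s) W P T hT) fun Θ α hα => h Θ α ?_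
  have := (uu_eP s hχ).tw (pmap_eP k n s) W P T hT Θ
  rw [sq_eP s W hT, Θ.Φ.map_comp_assoc, Θ.Φ.map_comp] at hα
  exact (cancel_epi _).1 hα

end

end Pool.Agent.Lib.MP_fc2ced_ag.T.G
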