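import Pool.Agent.Lib.MP_fc2ced_ag.G.VBDeg
import Pool.Agent.Lib.MP_fc2ced_ag.G.Mer

/-! Weights of absolute value at most one. -/

open CategoryTheory Function

namespace Pool.Agent.Lib.MP_fc2ced_ag.T

open K

noncomputable section

variable {k : Type} [Field k] {F : Type} [Field F] [CharZero F] [IsAlgClosed k] [IsAlgClosed F]
  {χ : Chr k F} {B : Bs k → Prop} {ι : Type} [Fintype ι] {c γ : ι → ℤ}

open MP_fc2ced_ag.T.Pt

theorem WS.of_nontriv_aux (A : Adm F B)
    (H : ∀ (r : ℕ) (e : Fin r → ℤ), (∀ j, χ.ψ (e j) ≠ 1) → χ.ψ (∑ i, c i + ∑ j, e j : ℤ) ≠ 1 →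
      WS B χ (Sum.elim c e) (Sum.elim γ fun _ => 0))
    {ρ : Type} [Fintype ρ] (e : ρ → ℤ) (ht : χ.ψ (∑ i, c i + ∑ j, e j : ℤ) ≠ 1) :
    WS B χ (Sum.elim c e) (Sum.elim γ fun _ => 0) := by
  classical
  let p : ρ → Prop := fun j => χ.ψ (e j) ≠ 1
  let q := (Fintype.equivFin {j // p j}).symm
  have h1 : χ.ψ (∑ j : {j // ¬ p j}, e j : ℤ) = 1 := by
    refine Finset.sum_induction (fun j : {j // ¬ p j} => e j) (fun z : ℤ => χ.ψ z = 1)
      (fun a b ha hb => ?_) (by simp) fun j _ => not_not.1 j.2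
    rw [Int.cast_add, AddChar.map_add_eq_mul, ha, hb, one_mul]
  have h2 : ∑ j, e j = ∑ j, e (q j) + ∑ j : {j // ¬ p j}, e j := by
    rw [q.sum_comp fun j : {j // p j} => e j, Fintype.sum_subtype_add_sum_subtype]
  have h3 := H _ (fun j => e (q j)) (fun j => (q j).2) (by
    rwa [h2, ← add_assoc, Int.cast_add, AddChar.map_add_eq_mul, h1, mul_one] at ht)
  refine (h3.trivs A (e := fun j : {j // ¬ p j} => e j) fun j => not_not.1 j.2).reidx
    ((Equiv.sumAssoc _ _ _).trans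
      ((Equiv.refl ι).sumCongr ((q.sumCongr (Equiv.refl _)).trans (Equiv.sumCompl p)))) ?_ ?_
  · rintro ((i | j) | j) <;> rfl
  · rintro ((i | j) | j) <;> rfl

/-- A new variable is moved out of the second summand. -/
def optSum (α β : Type) : α ⊕ Option β ≃ Option (α ⊕ β) where
  toFun := Sum.elim (fun a => some (.inl a)) fun o => o.map .inr
  invFun o := o.elim (.inr none) (Sum.map id some)
  left_inv := by rintro (_ | _ | _) <;> rfl
  right_inv := by rintro (_ | _ | _) <;> rfl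

/-- Reduction to nontrivial exponents at the variables of weight zero and nontrivial total
exponent. -/
theorem WS.of_nontriv (A : Adm F B) (h₁ : χ.ψ (1 : ℤ) ≠ 1) (h0 : ∑ i, γ i = 0)
    (H : ∀ (r : ℕ) (e : Fin r → ℤ), (∀ j, χ.ψ (e j) ≠ 1) → χ.ψ (∑ i, c i + ∑ j, e j : ℤ) ≠ 1 →
      WS B χ (Sum.elim c e) (Sum.elim γ fun _ => 0))
    {ρ : Type} [Fintype ρ] (e : ρ → ℤ) : WS B χ (Sum.elim c e) (Sum.elim γ fun _ => 0) := by
  by_cases ht : χ.ψ (∑ i, c i + ∑ j, e j : ℤ) = 1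
  swap
  · exact WS.of_nontriv_aux A H e ht
  have h1 := WS.of_nontriv_aux A H (fun o : Option ρ => o.elim (-1) e) (by
    intro h
    apply h₁
    have e1 : (∑ i, c i + ∑ j, e j : ℤ) =
        (∑ i, c i + ∑ o : Option ρ, o.elim (-1) e : ℤ) + 1 := by
      rw [Fintype.sum_option]; simp only [Option.elim]; ring
    rwa [e1, Int.cast_add, AddChar.map_add_eq_mul, h, one_mul] at ht)
  have h2 : WS B χ (fun o : Option (ι ⊕ ρ) => o.elim (-1) (Sum.elim c e))
      fun o => o.elim 0 (Sum.elim γ fun _ => 0) := by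
    refine h1.reidx (optSum ι ρ) ?_ ?_
    · rintro (_ | _ | _) <;> rfl
    · rintro (_ | _ | _) <;> rfl
  have h3 := (h2.triv A (e := -(∑ i, c i + ∑ j, e j)) (by
    have := χ.ψ.map_add_eq_mul ((-(∑ i, c i + ∑ j, e j) : ℤ) : ZMod χ.N)
      ((∑ i, c i + ∑ j, e j : ℤ) : ZMod χ.N)
    rw [ht, mul_one, ← Int.cast_add, neg_add_cancel, Int.cast_zero, AddChar.map_zero_eq_one]
      at this
    exact this.symm)).ren
  refine WS.pair A h₁ (h3.reidx (Equiv.refl _) ?_ ?_)
  · rintro (_ | _ | _)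
    · simp [Fintype.sum_option, Fintype.sum_sum_type]
    · rfl
    · rfl
  · rintro (_ | _ | _)
    · simp [Fintype.sum_option, Fintype.sum_sum_type, h0]
    · rfl
    · rfl

omit [CharZero F] [IsAlgClosed k] [IsAlgClosed F] in
theorem eqv_ovB_all (S : Pt k) {β : Bs k} (hβ : IsAll β) (l : ∀ ⦃K⦄, S.X K → K)
    (hl : S.Reg (gm k) l) : Eqv ((S.ovB β l hl).E χ) (S.E χ) :=
  eqv_of_inv (e := fun _ x => x) (g := fun _ x => x)
    ⟨fun _ _ h => h.1, fun _ _ _ _ _ _ _ r => r⟩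
    ⟨fun _ x h => ⟨h, (hβ _ (hl.live x h).2).1⟩, fun _ _ _ _ _ _ _ r => r⟩
    (fun _ x h => by
      show S.f x = S.f x * β.w (l x)
      rw [(hβ _ (hl.live x h.1).2).2, mul_one])
    (fun _ _ _ => rfl) fun _ _ _ => rfl

theorem adm_all : Adm F (IsAll (k := k)) where
  pow β g h K x hx := ⟨(h x hx).1, by
    show β.w x ^ g = 1
    rw [(h x hx).2, one_pow]⟩
  scale β a ha h K x hx := h _ (mul_ne_zero ((map_ne_zero _).2 ha) hx)
  cur _ _ _ _ h := .of_eqv (eqv_ovB_all _ h _ _) (ss_mt _)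
  pt _ _ h := .of_eqv (eqv_ovB_all _ h _ _) (ss_mt _)

variable (k) in
/-- The whole group as a base. -/
def Bs.all : Bs k where
  D _ _ := True
  w _ _ := 1
  conv _ _ _ _ _ _ _ _ _ _ _ _ _ _ _ := trivial
  reg := regF_one
  ne _ _ _ _ := one_ne_zero

/-- Hyperplanes in tori. -/
theorem ss_hy (h₁ : χ.ψ (1 : ℤ) ≠ 1) {ε : ι → k} (hε : ∀ i, ε i ≠ 0) (c : ι → ℤ) :
    SS ((hy ε c).E χ) := by
  have h1 := WS.of_nontriv (ι := Empty) (c := fun _ => 0) (γ := fun _ => 0) (χ := χ)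
    adm_all h₁ (by simp) (fun r e he ht ε' _ β hβ => .of_eqv (eqv_ovB_all _ hβ _ _)
      (ss_of_prod_line (.of_sf (sf_hy_line ε' (by simpa [Fintype.sum_sum_type] using ht) (by
        rintro (i | j)
        · exact i.elim
        · exact he j))))) c
  have h2 : WS IsAll χ c fun _ => 0 := by
    refine h1.reidx (Equiv.emptySum Empty ι) ?_ ?_
    · rintro (i | j)
      · exact i.elim
      · rfl
    · rintro (i | j) <;> rfl
  have hβ : IsAll (Bs.all k) := fun _ _ _ => ⟨trivial, rfl⟩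
  exact .of_eqv (eqv_ovB_all _ hβ _ _).symm (h2 ε hε _ hβ)

theorem WS.zero (A : Adm F B) (h₁ : χ.ψ (1 : ℤ) ≠ 1) (c : ι → ℤ) : WS B χ c fun _ => 0 := by
  intro ε hε β hβ
  have m1 : ∀ {K : Fld k} (t : ι → K), mn (fun _ => 0) t = 1 := fun t => by simp [mn]
  have m2 : ∀ {K : Fld k} (t : Empty → K), mn (fun _ => 0) t = 1 := fun t => by simp [mn]
  refine .of_eqv (eqv_of_inv (S' := (hy ε c).prod (tm (fun _ : Empty => 0) (fun _ => 0) β))
    (e := fun _ t => (t, fun a => a.elim)) (g := fun _ x => x.1)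
    ⟨fun _ t h => ⟨h.1, ⟨fun a => a.elim, fun a => a.elim⟩, ?_⟩,
      fun _ _ _ _ _ _ _ r => ⟨r, fun a => a.elim⟩⟩
    ⟨fun _ x h => ⟨h.1, ?_⟩, fun _ _ _ _ _ _ _ r => r.1⟩ (fun _ t _ => ?_) (fun _ _ _ => rfl)
    fun _ x _ => Prod.ext rfl (Subsingleton.elim _ _)) (ss_prod (ss_hy h₁ hε c) (A.pt β χ hβ))
  · have := h.2
    simpa only [m1, m2] using this
  · have := h.2.2
    simpa only [m1, m2] using this
  · simp [m1, m2]

/-- A degenerate pair of variables of weights `-1` and `1` is added. -/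
theorem WS.deg (A : Adm F B) (h₁ : χ.ψ (1 : ℤ) ≠ 1) {b a : ℤ} (hab : χ.ψ (b + a : ℤ) = 1)
    (h : WS B χ c γ) :
    WS B χ (fun o : Option (Option ι) => o.elim b fun o' => o'.elim a c)
      fun o => o.elim (-1) fun o' => o'.elim 1 γ :=
  ws_deg A hab (fun _ hε c => ss_hy h₁ hε c) h

/-- Two variables are taken out. -/
def optTwo {n : ℕ} (i j : Fin (n + 1)) (ρ : Type) :
    (Fin (n + 1) ⊕ Fin (n + 1)) ⊕ ρ ≃ Option (Option ((Fin n ⊕ Fin n) ⊕ ρ)) :=
  (((finSuccEquiv' i).sumCongr (finSuccEquiv' j)).sumCongr (Equiv.refl ρ)).trans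
    { toFun := Sum.elim (Sum.elim (fun o => o.elim none fun a => some (some (.inl (.inl a))))
          fun o => o.elim (some none) fun a => some (some (.inl (.inr a))))
        fun a => some (some (.inr a))
      invFun := fun o => o.elim (.inl (.inl none)) fun o' => o'.elim (.inl (.inr none))
        (Sum.map (Sum.map some some) id)
      left_inv := by rintro (((_ | _) | (_ | _)) | _) <;> rfl
      right_inv := by rintro (_ | _ | (_ | _) | _) <;> rfl }

/-- A permutation of summands. -/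
def sumMove (α β δ : Type) : α ⊕ β ⊕ β ⊕ δ ≃ (α ⊕ δ) ⊕ β ⊕ β where
  toFun := Sum.elim (fun a => .inl (.inl a)) (Sum.elim (fun b => .inr (.inl b))
    (Sum.elim (fun b => .inr (.inr b)) fun d => .inl (.inr d)))
  invFun := Sum.elim (Sum.elim .inl fun d => .inr (.inr (.inr d)))
    (Sum.elim (fun b => .inr (.inl b)) fun b => .inr (.inr (.inl b)))
  left_inv := by rintro (_ | _ | _ | _) <;> rfl
  right_inv := by rintro ((_ | _) | _ | _) <;> rfl

theorem WS.std (A : Adm F B) (G : GenH F B) (h₁ : χ.ψ (1 : ℤ) ≠ 1) (n : ℕ) (b a : Fin n → ℤ)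
    {ρ : Type} [Fintype ρ] (e : ρ → ℤ) : WS B χ (Sum.elim (Sum.elim b a) e)
      (Sum.elim (Sum.elim (fun _ => -1) fun _ => 1) fun _ => 0) := by
  induction n with
  | zero =>
    refine (WS.zero A h₁ (Sum.elim (Sum.elim b a) e)).reidx (Equiv.refl _) (fun _ => rfl) ?_
    rintro ((i | i) | j)
    · exact i.elim0
    · exact i.elim0
    · rfl
  | succ n ih =>
    by_cases hd : ∃ i j, χ.ψ (b i + a j : ℤ) = 1
    · obtain ⟨i, j, hij⟩ := hd
      refine ((ih (fun x => b (i.succAbove x)) fun x => a (j.succAbove x)).deg A h₁ hij).reidx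
        (optTwo i j ρ).symm ?_ ?_
      · rintro (_ | _ | (_ | _) | _) <;> simp [optTwo]
      · rintro (_ | _ | (_ | _) | _) <;> simp [optTwo]
    · push Not at hd
      refine WS.of_nontriv A h₁ (by simp [Fintype.sum_sum_type]) (fun r e' he ht => ?_) e
      refine WS.pairs A (e := fun g : Fin (n + 1) × Fin (n + 1) => b g.1 + a g.2)
        (fun g => hd g.1 g.2) ?_
      refine (WS.of_eps A _ ?_ (G χ n r b a e' hd he
        (by simpa only [Fintype.sum_sum_type, Sum.elim_inl, Sum.elim_inr] using ht))).reidx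
        (sumMove _ _ _) ?_ ?_
      · rintro ((_ | _) | _ | _) <;> simp
      · rintro (_ | _ | _ | _) <;> rfl
      · rintro (_ | _ | _ | _) <;> rfl

theorem WS.unit (A : Adm F B) (G : GenH F B) (h₁ : χ.ψ (1 : ℤ) ≠ 1) (c : ι → ℤ)
    (h : ∀ i, (γ i).natAbs ≤ 1) (h0 : ∑ i, γ i = 0) : WS B χ c γ := by
  classical
  have hc : Fintype.card {i // γ i = 1} = Fintype.card {i // γ i = -1} := by
    have e : ∑ i, γ i = ∑ i, ((if γ i = 1 then 1 else 0) - (if γ i = -1 then 1 else 0) : ℤ) :=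
      Finset.sum_congr rfl fun i _ => by
        have := h i
        split_ifs <;> omega
    rw [e, Finset.sum_sub_distrib, Finset.sum_boole, Finset.sum_boole] at h0
    rw [Fintype.card_subtype, Fintype.card_subtype]
    omega
  let p := (Fintype.equivFin {i // γ i = -1}).symm
  let q := (Fintype.equivFinOfCardEq hc).symm
  let f : (Fin (Fintype.card {i // γ i = -1}) ⊕ Fin (Fintype.card {i // γ i = -1})) ⊕
      {i // γ i = 0} → ι := Sum.elim (Sum.elim (fun x => p x) fun x => q x) fun x => x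
  have hγ : ∀ x, γ (f x) =
      Sum.elim (Sum.elim (fun _ => -1) fun _ => 1) (fun _ => 0) x := by
    rintro ((x | x) | x)
    exacts [(p x).2, (q x).2, x.2]
  have hf : Bijective f := by
    constructor
    · intro x y e
      have e' := (hγ x).symm.trans (e ▸ hγ y)
      rcases x with (x | x) | x <;> rcases y with (y | y) | y <;>
        first
        | (simp at e'; done)
        | rw [p.injective (Subtype.ext e)]
        | rw [q.injective (Subtype.ext e)]
        | rw [Subtype.ext e]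
    · intro i
      have := h i
      rcases (by omega : γ i = -1 ∨ γ i = 1 ∨ γ i = 0) with e | e | e
      · exact ⟨.inl (.inl (p.symm ⟨i, e⟩)), by simp [f]⟩
      · exact ⟨.inl (.inr (q.symm ⟨i, e⟩)), by simp [f]⟩
      · exact ⟨.inr ⟨i, e⟩, rfl⟩
  refine (WS.std A G h₁ _ (fun x => c (p x)) (fun x => c (q x))
    fun x : {i // γ i = 0} => c x).reidx (Equiv.ofBijective f hf) ?_ hγ
  rintro ((x | x) | x) <;> rfl

end

end Pool.Agent.Lib.MP_fc2ced_ag.T
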