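import Pool.Agent.Lib.MP_fc2ced_ag.G.VA

/-! A degenerate pair of variables of opposite weights. -/

set_option linter.unusedSectionVars false

open CategoryTheory Function

namespace Pool.Agent.Lib.MP_fc2ced_ag.T

open K

noncomputable section

variable {k : Type} [Field k] {F : Type} [Field F] [CharZero F] [IsAlgClosed k] [IsAlgClosed F]
  {χ : Chr k F} {B : Bs k → Prop} {ι : Type} [Fintype ι] {c γ : ι → ℤ}

open MP_fc2ced_ag.T.Pt

namespace Deg

section Alg
variable {K : Type} [Field K]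

theorem mn_opt (g : ℤ) (γ : ι → ℤ) (y : Option ι → K) :
    mn (fun o : Option ι => o.elim g γ) y = y none ^ g * mn γ fun i => y (some i) :=
  Fintype.prod_option _

theorem mn_one (γ : ι → ℤ) (y : Option ι → K) :
    mn (fun o : Option ι => o.elim 1 γ) y = y none * mn γ fun i => y (some i) := by
  rw [mn_opt, zpow_one]

theorem mn_unit (g : ℤ) (y : Unit → K) : mn (fun _ : Unit => g) y = y () ^ g :=
  Fintype.prod_unique _

theorem mn_sub (a : ℤ) (c γ : ι → ℤ) {t : ι → K} (h : ∀ i, t i ≠ 0) :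
    mn (fun i => c i - a * γ i) t * mn γ t ^ a = mn c t := by
  rw [mn, mn, mn, ← Finset.prod_zpow, ← Finset.prod_mul_distrib]
  refine Finset.prod_congr rfl fun i _ => ?_
  rw [← zpow_mul, ← zpow_add₀ (h i), mul_comm, sub_add_cancel]

/-- The two new coordinates from their ratio and one of them. -/
def mk (C : K) (y : Option ι → K) (o : Option (Option ι)) : K :=
  o.elim C fun o' => o'.elim (y none * C) fun i => y (some i)

/-- The ratio of the two new coordinates. -/
def un (t : Option (Option ι) → K) (o : Option ι) : K :=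
  o.elim (t (some none) / t none) fun i => t (some (some i))

omit [Fintype ι] in
theorem un_mk {C : K} (h : C ≠ 0) (y : Option ι → K) : un (mk C y) = y :=
  funext (Option.rec (mul_div_cancel_right₀ _ h) fun _ => rfl)

omit [Fintype ι] in
theorem mk_un {t : Option (Option ι) → K} (h : t none ≠ 0) : mk (t none) (un t) = t :=
  funext (Option.rec rfl (Option.rec (div_mul_cancel₀ _ h) fun _ => rfl))

theorem mn_mk (b a : ℤ) (c : ι → ℤ) {C : K} (h : C ≠ 0) (y : Option ι → K) :
    mn (fun o : Option (Option ι) => o.elim b fun o' => o'.elim a c) (mk C y) =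
      mn (fun o : Option ι => o.elim a c) y * C ^ (b + a) := by
  rw [mn_opt, mn_opt, mn_opt, zpow_add₀ h]
  change C ^ b * ((y none * C) ^ a * mn c fun i => y (some i)) = _
  rw [mul_zpow]
  ring

theorem mn_mk' (γ : ι → ℤ) {C : K} (h : C ≠ 0) (y : Option ι → K) :
    mn (fun o : Option (Option ι) => o.elim (-1) fun o' => o'.elim 1 γ) (mk C y) =
      mn (fun o : Option ι => o.elim 1 γ) y := by
  rw [mn_mk _ _ _ h, neg_add_cancel, zpow_zero, mul_one]

end Alg

theorem lin_mk (ε : Option (Option ι) → k) {K : Fld k} (C : K) (y : Option ι → K) :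
    lin ε (mk C y) + 1 = C * (algebraMap k K (ε none) + algebraMap k K (ε (some none)) * y none) +
      (lin (fun i => ε (some (some i))) (fun i => y (some i)) + 1) := by
  rw [lin, Fintype.sum_option, Fintype.sum_option, lin]
  change _ * C + (_ * (y none * C) + ∑ i, _ * y (some i)) + 1 = _
  ring

omit [Fintype ι] in
theorem rel_mk {K K' : Fld k} {φ : Place K K'} {C : K} {C' : K'} {y : Option ι → K}
    {y' : Option ι → K'} (h : φ C C') (r : ∀ o, φ (y o) (y' o)) (o : Option (Option ι)) :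
    φ (mk C y o) (mk C' y' o) :=
  Option.rec h (Option.rec ((r none).mul h) fun i => r (some i)) o

omit [Fintype ι] in
theorem rel_un {K K' : Fld k} {φ : Place K K'} {t : Option (Option ι) → K}
    {t' : Option (Option ι) → K'} (r : ∀ o, φ (t o) (t' o)) (h : t' none ≠ 0) (o : Option ι) :
    φ (un t o) (un t' o) :=
  Option.rec ((r _).div (r _) h) (fun _ => r _) o

variable (a : ℤ) (c γ) (β : Bs k)

/-- The torus with the ratio as a further coordinate. -/
@[reducible] def uu : Pt k :=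
  tm (fun o : Option ι => o.elim a c) (fun o : Option ι => o.elim 1 γ) β

theorem clA (ε : ι → k) :
    (uu c γ a β).Closed fun _ y => lin ε (fun i => y (some i)) + 1 = 0 :=
  fun _ _ φ _ _ _ _ r e => ((rel_lin ε fun i => r (some i)).add φ.one).eq_of φ.zero e

theorem clB (x : k) : (uu c γ a β).Closed fun K y => y none = algebraMap k K x :=
  fun _ _ φ _ _ _ _ r e => (r none).eq_of (φ.alg x) e

variable {a c γ β}

theorem dc {K : Fld k} {x y : K} (e : x = y) (h : β.D x) : β.D y := e ▸ h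

theorem ssA {ε : ι → k} (h : SS ((tm (fun _ : Unit => a) (fun _ => 1) β).E χ))
    (h' : SS ((hy ε fun i => c i - a * γ i).E χ)) :
    SS (((uu c γ a β).restr _ (clA c γ a β ε).conv).E χ) := by
  have e1 {K : Fld k} (z : (Unit → K) × (ι → K)) (h : ∀ i, z.2 i ≠ 0) :
      mn (fun o : Option ι => o.elim 1 γ) (fun o => o.elim (z.1 () / mn γ z.2) z.2) = z.1 () := by
    rw [mn_one]
    exact div_mul_cancel₀ _ (mn_ne γ h)
  refine .of_eqv (eqv_of_inv
    (S' := (tm (fun _ : Unit => a) (fun _ => 1) β).prod (hy ε fun i => c i - a * γ i))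
    (e := fun _ y => (fun _ => mn (fun o : Option ι => o.elim 1 γ) y, fun i => y (some i)))
    (g := fun _ z o => o.elim (z.1 () / mn γ z.2) z.2)
    ⟨fun _ y p => ⟨⟨⟨fun _ => trivial, fun _ => mn_ne _ p.1.1.2⟩, ?_⟩,
        ⟨fun _ => trivial, fun _ => p.1.1.2 _⟩, p.2⟩,
      fun _ _ _ _ _ _ q r => ⟨fun _ => rel_mn _ r q.1.1.2, fun _ => r _⟩⟩
    ⟨fun _ z p => ⟨⟨⟨fun _ => trivial,
        Option.rec (div_ne_zero (p.1.1.2 _) (mn_ne γ p.2.1.2)) p.2.1.2⟩, ?_⟩, p.2.2⟩,
      fun _ _ _ _ _ _ q r =>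
        Option.rec ((r.1 _).div (rel_mn γ r.2 q.2.1.2) (mn_ne γ q.2.1.2)) r.2⟩
    (fun _ y p => ?_) (fun _ y p => funext (Option.rec ?_ fun _ => rfl))
    fun _ z p => Prod.ext (funext fun _ => e1 z p.2.1.2) rfl) (ss_prod h h')
  · exact dc ((mn_unit _ _).trans (zpow_one _)).symm p.1.2
  · exact dc (((mn_unit _ _).trans (zpow_one _)).trans (e1 z p.2.1.2).symm) p.1.2
  · change mn (fun _ : Unit => a) _ * β.w (mn (fun _ : Unit => 1) _) *
      mn (fun i => c i - a * γ i) _ = mn (fun o : Option ι => o.elim a c) y * β.w _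
    rw [mn_unit, mn_unit, zpow_one, mn_opt a, ← mn_sub a c γ fun i => p.1.1.2 (some i)]
    nth_rewrite 1 [mn_one]
    rw [mul_zpow]
    ring
  · change mn (fun o : Option ι => o.elim 1 γ) y / _ = y none
    rw [mn_one]
    exact mul_div_cancel_right₀ _ (mn_ne γ fun i => p.1.1.2 (some i))

theorem f_const {x : k} (hx : x ≠ 0) {K : Fld k} (t : ι → K) (N : ℕ) :
    (uu c γ a β).f (fun o : Option ι => o.elim (algebraMap k K x) t) =
      (tm c γ (β.scale x hx)).f t * (algebraMap k K (x ^ a) * 1 ^ N) := by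
  change mn (fun o : Option ι => o.elim a c) _ * β.w (mn (fun o : Option ι => o.elim 1 γ) _) =
    mn c t * β.w (algebraMap k K x * mn γ t) * _
  rw [mn_one, mn_opt, map_zpow₀, one_pow, mul_one]
  exact (mul_assoc _ _ _).trans (mul_comm _ _)

theorem live_const {x : k} (hx : x ≠ 0) {K : Fld k} {t : ι → K}
    (p : (tm c γ (β.scale x hx)).L t) :
    (uu c γ a β).L fun o : Option ι => o.elim (algebraMap k K x) t :=
  ⟨⟨fun _ => trivial, Option.rec ((map_ne_zero _).2 hx) p.1.2⟩, dc (mn_one _ _).symm p.2⟩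

theorem live_tail {x : k} (hx : x ≠ 0) {K : Fld k} {y : Option ι → K} (p : (uu c γ a β).L y)
    (e : y none = algebraMap k K x) : (tm c γ (β.scale x hx)).L fun i => y (some i) :=
  ⟨⟨fun _ => trivial, fun _ => p.1.2 _⟩,
    dc (β := β) ((mn_one γ y).trans (congrArg (· * mn γ fun i => y (some i)) e)) p.2⟩

theorem ssB {x : k} (hx : x ≠ 0) (h : SS ((tm c γ (β.scale x hx)).E χ)) :
    SS (((uu c γ a β).restr _ (clB c γ a β x).conv).E χ) :=
  .of_eqv (eqv_const (S := tm c γ (β.scale x hx))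
    (S' := (uu c γ a β).restr _ (clB c γ a β x).conv)
    (e := fun K t o => o.elim (algebraMap k K x) t) (g := fun _ y i => y (some i))
    ⟨fun _ _ p => ⟨live_const hx p, rfl⟩, fun _ _ φ _ _ _ _ r => Option.rec (φ.alg x) r⟩
    ⟨fun _ _ p => live_tail hx p.1 p.2, fun _ _ _ _ _ _ _ r _ => r _⟩ (x ^ a) regF_one
    (fun _ t _ => f_const hx t _) (fun _ _ _ => rfl)
    fun _ _ p => funext (Option.rec p.2.symm fun _ => rfl)).symm h

theorem ssAB {ε : ι → k} {x : k} (hx : x ≠ 0) (h : SS ((vv ε c γ (β.scale x hx)).E χ)) :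
    SS (((uu c γ a β).restr _ ((clA c γ a β ε).and (clB c γ a β x)).conv).E χ) :=
  .of_eqv (eqv_const (S := vv ε c γ (β.scale x hx))
    (S' := (uu c γ a β).restr _ ((clA c γ a β ε).and (clB c γ a β x)).conv)
    (e := fun K t o => o.elim (algebraMap k K x) t) (g := fun _ y i => y (some i))
    ⟨fun _ _ p => ⟨live_const hx ⟨p.1.1, p.2⟩, p.1.2, rfl⟩,
      fun _ _ φ _ _ _ _ r => Option.rec (φ.alg x) r⟩
    ⟨fun _ _ p => ⟨⟨(live_tail hx p.1 p.2.2).1, p.2.1⟩, (live_tail hx p.1 p.2.2).2⟩,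
      fun _ _ _ _ _ _ _ r _ => r _⟩ (x ^ a) regF_one
    (fun _ t _ => f_const hx t _) (fun _ _ _ => rfl)
    fun _ _ p => funext (Option.rec p.2.2.symm fun _ => rfl)).symm h

variable (b : ℤ) (ε : Option (Option ι) → k) (a c γ β)

/-- The hyperplane with the two new coordinates. -/
@[reducible] def ww : Pt k :=
  vv ε (fun o : Option (Option ι) => o.elim b fun o' => o'.elim a c)
    (fun o => o.elim (-1) fun o' => o'.elim 1 γ) β

variable {a c γ β b ε}

theorem live_mk {K : Fld k} {C : K} (h : C ≠ 0) {y : Option ι → K} :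
    (ww c γ a β b ε).L (mk C y) ↔ (uu c γ a β).L y ∧
      C * (algebraMap k K (ε none) + algebraMap k K (ε (some none)) * y none) +
        (lin (fun i => ε (some (some i))) (fun i => y (some i)) + 1) = 0 := by
  rw [← lin_mk]
  constructor
  · exact fun p => ⟨⟨⟨fun _ => trivial, Option.rec (left_ne_zero_of_mul (p.1.1.2 (some none)))
      fun i => p.1.1.2 (some (some i))⟩, dc (mn_mk' γ h y) p.2⟩, p.1.2⟩
  · exact fun p => ⟨⟨⟨fun _ => trivial, Option.rec h (Option.rec (mul_ne_zero (p.1.1.2 none) h)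
      fun i => p.1.1.2 (some i))⟩, p.2⟩, dc (mn_mk' γ h y).symm p.1.2⟩

theorem live_un {K : Fld k} {t : Option (Option ι) → K} (p : (ww c γ a β b ε).L t) :
    (uu c γ a β).L (un t) ∧
      t none * (algebraMap k K (ε none) + algebraMap k K (ε (some none)) * un t none) +
        (lin (fun i => ε (some (some i))) (fun i => un t (some i)) + 1) = 0 :=
  (live_mk (b := b) (p.1.1.2 none)).1 ((mk_un (p.1.1.2 none)).symm ▸ p)

theorem f_mk {K : Fld k} {C : K} (h : C ≠ 0) (y : Option ι → K) :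
    (ww c γ a β b ε).f (mk C y) = (uu c γ a β).f y * C ^ (b + a) := by
  change mn (fun o : Option (Option ι) => o.elim b fun o' => o'.elim a c) (mk C y) *
    β.w (mn (fun o : Option (Option ι) => o.elim (-1) fun o' => o'.elim 1 γ) (mk C y)) =
    mn (fun o : Option ι => o.elim a c) y * β.w (mn (fun o : Option ι => o.elim 1 γ) y) * _
  rw [mn_mk' γ h, mn_mk b a c h, mul_right_comm]

theorem root_iff (hε : ε (some none) ≠ 0) {K : Fld k} (x : K) :
    algebraMap k K (ε none) + algebraMap k K (ε (some none)) * x = 0 ↔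
      x = algebraMap k K (-ε none / ε (some none)) := by
  rw [map_div₀, map_neg, eq_div_iff ((map_ne_zero _).2 hε), mul_comm x, eq_neg_iff_add_eq_zero,
    add_comm]

theorem clW (x : k) : (ww c γ a β b ε).Closed fun K t => un t none = algebraMap k K x :=
  fun _ _ φ _ _ _ q r e => (rel_un r (q.1.1.2 none) none).eq_of (φ.alg x) e

theorem ssC (hε : ε (some none) ≠ 0)
    (h : SS (((uu c γ a β).restr _ ((clA c γ a β fun i => ε (some (some i))).and
      (clB c γ a β (-ε none / ε (some none)))).conv).E χ)) :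
    SS (((ww c γ a β b ε).restr _ (clW (-ε none / ε (some none))).conv).E χ) := by
  refine .of_eqv (eqv_of_inv
    (S := ((uu c γ a β).restr _ ((clA c γ a β fun i => ε (some (some i))).and
      (clB c γ a β (-ε none / ε (some none)))).conv).prod (mt k fun _ : Unit => b + a))
    (S' := (ww c γ a β b ε).restr _ (clW (-ε none / ε (some none))).conv)
    (e := fun _ z => mk (z.2 ()) z.1) (g := fun _ t => (un t, fun _ => t none))
    ⟨fun _ z p => ⟨(live_mk (p.2.2 ())).2 ⟨p.1.1, ?_⟩,
        (congrFun (un_mk (p.2.2 ()) z.1) none).trans p.1.2.2⟩,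
      fun _ _ _ _ _ _ _ r => rel_mk (r.2 ()) r.1⟩
    ⟨fun _ t p => ⟨⟨(live_un p.1).1, ?_, p.2⟩, fun _ => trivial, fun _ => p.1.1.1.2 none⟩,
      fun _ _ _ _ _ _ q r => ⟨rel_un r (q.1.1.1.2 none), fun _ => r none⟩⟩
    (fun _ z p => ?_) (fun _ z p => Prod.ext (un_mk (p.2.2 ()) z.1) rfl)
    fun _ t p => mk_un (p.1.1.1.2 none)).symm (ss_prod h (ss_mt _))
  · rw [(root_iff hε _).2 p.1.2.2, mul_zero, zero_add]
    exact p.1.2.1
  · have := (live_un p.1).2
    rwa [(root_iff hε _).2 p.2, mul_zero, zero_add] at this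
  · exact (f_mk (p.2.2 ()) z.1).trans (congrArg _ (mn_unit (b + a) z.2).symm)

variable (ε) in
/-- The solution of the linear equation. -/
def sol {K : Fld k} (y : Option ι → K) : K :=
  -(lin (fun i => ε (some (some i))) (fun i => y (some i)) + 1) /
    (algebraMap k K (ε none) + algebraMap k K (ε (some none)) * y none)

theorem ssO (hε : ε (some none) ≠ 0) (hab : χ.ψ (b + a : ℤ) = 1)
    (h : SS (((uu c γ a β).restr _ ((clA c γ a β fun i => ε (some (some i))).not.and
      (clB c γ a β (-ε none / ε (some none))).not).conv).E χ)) :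
    SS (((ww c γ a β b ε).restr _ (clW (-ε none / ε (some none))).not.conv).E χ) := by
  have h0 {K : Fld k} {y : Option ι → K}
      (p : lin (fun i => ε (some (some i))) (fun i => y (some i)) + 1 ≠ 0 ∧
        y none ≠ algebraMap k K (-ε none / ε (some none))) : sol ε y ≠ 0 :=
    div_ne_zero (neg_ne_zero.2 p.1) fun e => p.2 ((root_iff hε _).1 e)
  have hr : ((uu c γ a β).restr _ ((clA c γ a β fun i => ε (some (some i))).not.and
      (clB c γ a β (-ε none / ε (some none))).not).conv).RegF fun _ y => sol ε y :=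
    fun _ _ φ _ _ _ q r => ((rel_lin _ fun i => r (some i)).add φ.one).neg.div
      ((φ.alg _).add ((φ.alg _).mul (r none))) fun e => q.2.2 ((root_iff hε _).1 e)
  refine .of_eqv (eqv_twist hab
    (S := (uu c γ a β).restr _ ((clA c γ a β fun i => ε (some (some i))).not.and
      (clB c γ a β (-ε none / ε (some none))).not).conv)
    (S' := (ww c γ a β b ε).restr _ (clW (-ε none / ε (some none))).not.conv)
    (e := fun _ y => mk (sol ε y) y) (g := fun _ t => un t)
    ⟨fun _ y p => ⟨(live_mk (h0 p.2)).2 ⟨p.1, ?_⟩,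
        fun e => p.2.2 ((congrFun (un_mk (h0 p.2) y) none).symm.trans e)⟩,
      fun _ _ φ y z p q r => rel_mk (hr φ y z p q r) r⟩
    ⟨fun _ t p => ⟨(live_un p.1).1, fun e => ?_, p.2⟩,
      fun _ _ _ _ _ _ q r => rel_un r (q.1.1.1.2 none)⟩
    hr (fun _ _ p => h0 p.2) (fun _ y p => f_mk (h0 p.2) y) (fun _ y p => un_mk (h0 p.2) y)
    fun _ t p => ?_).symm h
  · rw [sol, div_mul_cancel₀ _ fun e => p.2.2 ((root_iff hε _).1 e), neg_add_cancel]
  · have := (live_un p.1).2
    rw [e, add_zero] at this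
    exact mul_ne_zero (p.1.1.1.2 none) (fun e => p.2 ((root_iff hε _).1 e)) this
  · have e : sol ε (un t) = t none := by
      rw [sol, div_eq_iff fun e => p.2 ((root_iff hε _).1 e), neg_eq_iff_add_eq_zero, add_comm]
      exact (live_un p.1).2
    change mk (sol ε (un t)) (un t) = t
    rw [e, mk_un (p.1.1.1.2 none)]

end Deg

open Deg in
theorem ws_deg (A : Adm F B) {b a : ℤ} (hab : χ.ψ (b + a : ℤ) = 1)
    (H : ∀ ε : ι → k, (∀ i, ε i ≠ 0) → ∀ c : ι → ℤ, SS ((hy ε c).E χ)) (h : WS B χ c γ) :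
    WS B χ (fun o : Option (Option ι) => o.elim b fun o' => o'.elim a c)
      fun o => o.elim (-1) fun o' => o'.elim 1 γ := by
  intro ε hε β hβ
  have hx : -ε none / ε (some none) ≠ 0 := div_ne_zero (neg_ne_zero.2 (hε _)) (hε _)
  have h1 := ssAB (a := a) hx (h _ (fun i => hε (some (some i))) _ (A.scale β _ hx hβ))
  exact ss_of_closed (S := ww c γ a β b ε) (clW _) (ssC (hε _) h1) (ssO (hε _) hab
    (ss_diff₂ (clA c γ a β _) (clB c γ a β _) (ss_tm A _ _ hβ)
      (ssA (A.cur β χ a 1 hβ) (H _ (fun _ => hε _) _))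
      (ssB hx (ss_tm A _ _ (A.scale β _ hx hβ))) h1))

end

end Pool.Agent.Lib.MP_fc2ced_ag.T
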